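import Pool.Agent.KG.Defs
import Pool.Agent.HGC.Defs

/-!
# Planar cubic graphs

The definitions which are used in the statement of the final theorem.
-/

set_option autoImplicit false

open scoped BigOperators

namespace Pool.Agent.PLN

open Pool.Agent.KG Pool.Agent.HGC

open Classical in
/-- `1` if `a = b`, and `0` if not. -/
noncomputable def kd {X : Type} (a b : X) : ℤ := if a = b then 1 else 0

/-- The entry of the incidence matrix. -/
noncomputable def ic {V E : Type} (s t : E → V) (e : E) (v : V) : ℤ := kd (s e) v - kd (t e) v

/-- `l`, `r` is a connected dual graph of the connected graph `s`, `t`: the boundaries of the faces are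
cycles, and Euler's formula holds. -/
structure Dual {V E D : Type} [Fintype V] [Fintype E] [Fintype D] (s t : E → V) (l r : E → D) : Prop where
  chain : ∀ (v : V) (d : D), ∑ e, ic s t e v * ic l r e d = 0
  euler : Fintype.card V + Fintype.card D = Fintype.card E + 2
  dconn : ∃ T, IsTree l r T

/-- A connected planar 3-regular multigraph without loops. -/
structure PlanarCubic where
  /-- number of vertices -/
  n : ℕ
  /-- number of edges -/
  m : ℕ
  /-- number of faces -/
  k : ℕ
  /-- one end of the edges -/
  s : Fin m → Fin n
  /-- the other end -/
  t : Fin m → Fin n
  /-- the face to the left of an edge -/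
  l : Fin m → Fin k
  /-- the face to the right of an edge -/
  r : Fin m → Fin k
  /-- the degrees are three -/
  deg_eq : ∀ v, deg s t v = 3
  /-- there are no loops -/
  noloop : ∀ e, s e ≠ t e
  /-- there is a spanning tree -/
  conn : ∃ T, IsTree s t T
  /-- `l`, `r` is the dual graph -/
  dual : Dual s t l r

/-- The number of points of the Kirchhoff hypersurface. -/
noncomputable def PlanarCubic.count (G : PlanarCubic) : PF := countPF fun K _ => NK G.s G.t K

end Pool.Agent.PLN
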