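import Pool.Agent.PLN.BTn

/-!
# Part B: the center tap
-/

set_option autoImplicit false

open scoped BigOperators

namespace Pool.Agent.PLN

private theorem Z_card (F : FF) : (Fintype.card F.K : ℤ) = F.q := by
  show (Fintype.card F.K : ℤ) = (Nat.card F.K : ℤ)
  rw [Nat.card_eq_fintype_card]

private theorem Z_four (F : FF) : (4 : F.K) ≠ 0 := by
  have h : (4 : F.K) = 2 * 2 := by norm_num
  rw [h]
  exact mul_ne_zero F.two_ne F.two_ne

private theorem Z_chi1 (F : FF) : chi (1 : F.K) = 1 := by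
  have h := chi_sq (one_ne_zero : (1 : F.K) ≠ 0)
  rwa [one_pow] at h

/-- MODULE Z1: `chi (-3)` is a scalar. Proof. `GW_sum` for `GW_X1`: the sum over `ρ ≠ 0, 1` of `chi (1 - 4 ρ)` is
`0 - chi 1 - chi (-3)` (`chi_sum`, `ρ ↦ 1 - 4 ρ` is a bijection). -/
theorem Scal_om : Scal fun F => chi (-3 : F.K) := by
  classical
  refine Scal_congr (Scal_sub (Scal_poly (Polynomial.C (-1))) (GW_sum GW_X1)) fun F => ?_
  rw [Polynomial.eval_C]
  have h0 : ∀ ρ : F.K, (if ρ = 0 then 0 else off1 (fun _ ρ => chi (1 - 4 * ρ)) F ρ) =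
      chi (1 - 4 * ρ) - (if ρ = 0 then 1 else 0) - (if ρ = 1 then chi (-3 : F.K) else 0) := by
    intro ρ
    by_cases h : ρ = 0
    · subst h
      have : ¬ ((0 : F.K) = 1) := zero_ne_one
      rw [if_pos rfl, if_pos rfl, if_neg this, mul_zero, sub_zero, sub_zero, Z_chi1]
      ring
    · rw [if_neg h, if_neg h, off1]
      by_cases h1 : ρ = 1
      · subst h1
        rw [if_pos rfl, if_pos rfl]
        have : (1 - 4 * 1 : F.K) = -3 := by norm_num
        rw [this]
        ring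
      · rw [if_neg h1, if_neg h1]
        ring
  have h1 : ∑ ρ : F.K, chi (1 - 4 * ρ) = 0 := by
    rw [← chi_sum F.two_ne]
    rw [← Equiv.sum_comp ((Equiv.mulLeft₀ (4 : F.K) (Z_four F)).trans (Equiv.subLeft (1 : F.K)))
      (fun x => chi x)]
    rfl
  have h2 : (∑ ρ : F.K, (if ρ = 0 then 0 else off1 (fun _ ρ => chi (1 - 4 * ρ)) F ρ)) =
      0 - 1 - chi (-3 : F.K) := by
    simp only [h0, Finset.sum_sub_distrib, h1, Finset.sum_ite_eq', Finset.mem_univ, if_true]
  have h3 : (open Classical in ∑ ρ : F.K, (if ρ = 0 then 0 else off1 (fun _ ρ => chi (1 - 4 * ρ)) F ρ)) =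
      0 - 1 - chi (-3 : F.K) := by
    rw [← h2]
  rw [h3]
  ring

/-- MODULE Z1: `GW_on` with `Scal_om`. -/
theorem GW_A : GW fun _ ρ => chi (1 - 4 * ρ) := by
  refine GW_on GW_X1 (Scal_congr Scal_om fun F => ?_)
  have : (1 - 4 * 1 : F.K) = -3 := by norm_num
  rw [this]

/-- MODULE Z1: `GW_inv` of `GW_A`: `1 - 4 / ρ = ρ (ρ - 4) / ρ ^ 2`. -/
theorem GW_B : GW fun _ ρ => chi (ρ * (ρ - 4)) := by
  refine GW_congr (GW_inv GW_A) fun F ρ h => ?_
  have h1 : ρ * (ρ - 4) = (1 - 4 * ρ⁻¹) * ρ ^ 2 := by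
    field_simp
  rw [h1, chi_mul, chi_sq h, mul_one]

private theorem Z2_term (F : FF) {c σ : F.K} (hσ : σ ≠ 0) (a : F.K) :
    chi a * chi (c / σ * (c / σ - 4)) = chi c * chi (a * (c - 4 * σ)) := by
  have h1 : c / σ * (c / σ - 4) = (c * (c - 4 * σ)) * (σ⁻¹) ^ 2 := by
    field_simp
  rw [h1, chi_mul, chi_sq (inv_ne_zero hσ), chi_mul, chi_mul a]
  ring

/-- MODULE Z2: the convolution of `GW_A` and `GW_B`. Proof. For `c ≠ 0` it is the sum over `σ ≠ 0` of
`chi (1 - 4 σ) chi ((c / σ) (c / σ - 4)) = chi (1 - 4 σ) chi (c (c - 4 σ))` (factor `σ ^ 2`), that is `chi c` times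
`(∑ x, chi ((x - 1) (x - c))) - chi c` (`x = 4 σ`; the term `σ = 0` is `chi c`), and `chi_quad`. -/
theorem star_AB (F : FF) {c : F.K} (hc : c ≠ 0) :
    star (fun _ ρ => chi (1 - 4 * ρ)) (fun _ ρ => chi (ρ * (ρ - 4))) F c =
      F.q * dl (fun _ => 1) F c - chi c - 1 := by
  classical
  have h0 : star (fun _ ρ => chi (1 - 4 * ρ)) (fun _ ρ => chi (ρ * (ρ - 4))) F c =
      ∑ σ : F.K, (chi c * chi ((1 - 4 * σ) * (c - 4 * σ)) - (if σ = 0 then 1 else 0)) := by
    rw [star]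
    refine Finset.sum_congr rfl fun σ _ => ?_
    by_cases h : σ = 0
    · subst h
      rw [if_pos rfl, if_pos rfl, mul_zero, sub_zero, sub_zero, one_mul, chi_mul_self hc, sub_self]
    · rw [if_neg h, if_neg h, sub_zero]
      exact Z2_term F h _
  rw [h0, Finset.sum_sub_distrib, ← Finset.mul_sum]
  simp only [Finset.sum_ite_eq', Finset.mem_univ, if_true]
  have h1 : ∑ σ : F.K, chi ((1 - 4 * σ) * (c - 4 * σ)) = ∑ x : F.K, chi ((x - 1) * (x - c)) := by
    rw [← Equiv.sum_comp (Equiv.mulLeft₀ (4 : F.K) (Z_four F)) (fun x => chi ((x - 1) * (x - c)))]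
    refine Finset.sum_congr rfl fun σ _ => ?_
    have e1 : ((Equiv.mulLeft₀ (4 : F.K) (Z_four F)) σ) = 4 * σ := rfl
    rw [e1]
    congr 1
    ring
  rw [h1, chi_quad F.two_ne, dl]
  by_cases h : c = 1
  · subst h
    rw [if_pos rfl, if_pos rfl, Z_chi1, Z_card]
    ring
  · rw [if_neg (Ne.symm h), if_neg h]
    ring

/-- MODULE Z3. From `star_AB`. -/
theorem GW_chi : GW fun _ ρ => chi ρ := by
  have hq : Scal fun F => F.q := Scal_congr (Scal_poly Polynomial.X) fun F => by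
    rw [Polynomial.eval_X]
  refine GW_congr (GW_sub (GW_sub (GW_scal hq GW_d1) GW_one) (GW_star GW_A GW_B)) fun F ρ h => ?_
  rw [star_AB F h]
  ring

/-- MODULE Z3: `GW_rot`, `GW_inv` of `GW_A`, and `GW_on`: `1 - 4 (1 - 1 / ρ) = 4 / ρ - 3`; the value at `1` is `1`. -/
theorem GW_D : GW fun _ ρ => chi (4 * ρ - 3) := by
  refine GW_on ?_ ?_
  · refine GW_congr (GW_inv (GW_rot GW_A)) fun F ρ h => ?_
    rw [off1, off1]
    by_cases h1 : ρ = 1
    · subst h1
      rw [if_pos inv_one, if_pos rfl]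
    · rw [if_neg (fun k => h1 (inv_eq_one.1 k)), if_neg h1]
      congr 1
      rw [inv_inv]
      ring
  · refine Scal_congr (Scal_poly (Polynomial.C 1)) fun F => ?_
    rw [Polynomial.eval_C]
    have : (4 * 1 - 3 : F.K) = 1 := by norm_num
    rw [this, Z_chi1]

/-- MODULE Z4: the convolution of `GW_D` and `GW_B`. Proof. The sum over `σ ≠ 0` of `chi (4 σ - 3) chi (c (c - 4 σ))` is
`chi c (chi (-1) ∑ x, chi ((x - 3) (x - c)) - chi (-3 c))`, and `chi 3 chi (-1) = chi (-3)`. -/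
theorem star_DB (F : FF) {c : F.K} (hc : c ≠ 0) :
    star (fun _ ρ => chi (4 * ρ - 3)) (fun _ ρ => chi (ρ * (ρ - 4))) F c =
      F.q * chi (-3 : F.K) * dl (fun _ => 3) F c - chi (-1 : F.K) * chi c - chi (-3 : F.K) := by
  classical
  have h0 : star (fun _ ρ => chi (4 * ρ - 3)) (fun _ ρ => chi (ρ * (ρ - 4))) F c =
      ∑ σ : F.K, (chi c * chi ((4 * σ - 3) * (c - 4 * σ)) - (if σ = 0 then chi (-3 : F.K) else 0)) := by
    rw [star]
    refine Finset.sum_congr rfl fun σ _ => ?_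
    by_cases h : σ = 0
    · subst h
      rw [if_pos rfl, if_pos rfl, mul_zero, sub_zero, zero_sub, chi_mul]
      linear_combination (-chi (-3 : F.K)) * chi_mul_self hc
    · rw [if_neg h, if_neg h, sub_zero]
      exact Z2_term F h _
  rw [h0, Finset.sum_sub_distrib, ← Finset.mul_sum]
  simp only [Finset.sum_ite_eq', Finset.mem_univ, if_true]
  have h1 : ∑ σ : F.K, chi ((4 * σ - 3) * (c - 4 * σ)) =
      chi (-1 : F.K) * ∑ x : F.K, chi ((x - 3) * (x - c)) := by
    rw [← Equiv.sum_comp (Equiv.mulLeft₀ (4 : F.K) (Z_four F)) (fun x => chi ((x - 3) * (x - c))),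
      Finset.mul_sum]
    refine Finset.sum_congr rfl fun σ _ => ?_
    have e1 : ((Equiv.mulLeft₀ (4 : F.K) (Z_four F)) σ) = 4 * σ := rfl
    rw [e1, ← chi_mul]
    congr 1
    ring
  rw [h1, chi_quad F.two_ne, dl]
  have h3 : chi (-3 : F.K) = chi (-1 : F.K) * chi (3 : F.K) := by
    rw [← chi_mul]
    congr 1
    norm_num
  by_cases h : c = 3
  · subst h
    rw [if_pos rfl, if_pos rfl, Z_card, h3]
    ring
  · rw [if_neg (Ne.symm h), if_neg h]
    ring

/-- MODULE Z5: the value of `star_DB` at `c = 1` is `- chi (-1) - chi (-3)` (`1 ≠ 3`), `GW_val`. -/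
theorem Scal_ep : Scal fun F => chi (-1 : F.K) := by
  refine Scal_congr (Scal_sub (Scal_neg (GW_val (GW_star GW_D GW_B))) Scal_om) fun F => ?_
  rw [star_DB F one_ne_zero, dl, if_neg, Z_chi1]
  · ring
  · intro h
    apply F.two_ne
    linear_combination -h

/-- MODULE Z5: from `star_DB`: `q chi (-3) δ_3` is good; divide by `q`, multiply by `chi (-3)`. -/
theorem GW_3 : GW (dl fun _ => 3) := by
  have h1 : GW fun F ρ => chi (-3 : F.K) * dl (fun _ => 3) F ρ := by
    refine GW_divq (GW_congr (GW_add (GW_add (GW_star GW_D GW_B) (GW_scal Scal_ep GW_chi))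
      (GW_scal Scal_om GW_one)) fun F ρ h => ?_)
    rw [star_DB F h]
    ring
  refine GW_congr (GW_scal Scal_om h1) fun F ρ _ => ?_
  have h3 : (-3 : F.K) ≠ 0 := neg_ne_zero.2 F.three_ne
  rw [← mul_assoc, chi_mul_self h3, one_mul]

/-- MODULE Z6: `GW_inv`. -/
theorem GW_dinv {c : (F : FF) → F.K} (h : GW (dl c)) : GW (dl fun F => (c F)⁻¹) := by
  refine GW_congr (GW_inv h) fun F ρ _ => ?_
  rw [dl, dl]
  by_cases h1 : ρ = (c F)⁻¹
  · rw [if_pos h1, if_pos (by rw [h1, inv_inv])]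
  · rw [if_neg h1, if_neg (fun k => h1 (by rw [← k, inv_inv]))]

/-- MODULE Z6: `GW_rot` and `GW_inv`. -/
theorem GW_drefl {c : (F : FF) → F.K} (h : GW (dl c)) (h0 : ∀ F, c F ≠ 0) (h1 : ∀ F, c F ≠ 1) :
    GW (dl fun F => 1 - c F) := by
  have h2 : GW (dl fun F => (1 - c F)⁻¹) := by
    refine GW_congr (GW_rot h) fun F ρ hρ => ?_
    have h3 : 1 - c F ≠ 0 := sub_ne_zero.2 (Ne.symm (h1 F))
    rw [off1, dl, dl]
    by_cases h4 : ρ = (1 - c F)⁻¹
    · have h5 : ρ ≠ 1 := by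
        intro k
        rw [k] at h4
        have h6 : 1 - c F = 1 := by
          rw [← inv_inv (1 - c F), ← h4, inv_one]
        exact h0 F (by linear_combination -h6)
      rw [if_neg h5, if_pos h4, if_pos]
      rw [h4, inv_inv]
      ring
    · by_cases h5 : ρ = 1
      · rw [if_pos h5, if_neg h4]
      · rw [if_neg h5, if_neg h4, if_neg]
        intro k
        apply h4
        rw [← k]
        rw [sub_sub_cancel, inv_inv]
  refine GW_congr (GW_dinv h2) fun F ρ _ => ?_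
  simp only [inv_inv]

/-- MODULE Z6: `GW_star`. -/
theorem GW_dmul {c d : (F : FF) → F.K} (h : GW (dl c)) (h' : GW (dl d)) (h0 : ∀ F, c F ≠ 0)
    (h1 : ∀ F, d F ≠ 0) : GW (dl fun F => c F * d F) := by
  classical
  refine GW_congr (GW_star h h') fun F ρ _ => ?_
  have h3 : star (dl c) (dl d) F ρ = ∑ σ : F.K, if σ = c F then dl (fun F => c F * d F) F ρ else 0 := by
    rw [star]
    refine Finset.sum_congr rfl fun σ _ => ?_
    by_cases hs : σ = c F
    · subst hs
      rw [if_neg (h0 F), if_pos rfl, dl, if_pos rfl, one_mul, dl, dl]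
      by_cases h4 : ρ = c F * d F
      · rw [if_pos h4, if_pos]
        rw [h4, mul_div_cancel_left₀ _ (h0 F)]
      · rw [if_neg h4, if_neg]
        intro k
        apply h4
        rw [← k, mul_div_cancel₀ _ (h0 F)]
    · rw [if_neg hs]
      by_cases h4 : σ = 0
      · rw [if_pos h4]
      · rw [if_neg h4, dl, if_neg hs, zero_mul]
  rw [h3]
  simp only [Finset.sum_ite_eq', Finset.mem_univ, if_true]

private theorem Z7_dl {c d : (F : FF) → F.K} (h : GW (dl c)) (e : ∀ F, c F = d F) : GW (dl d) := by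
  have h1 : c = d := funext e
  rw [← h1]
  exact h

/-- MODULE Z7: `3 → -2 → -1/2 → 3/2 → 2/3`, `3 · 2/3 = 2 → -1`. -/
theorem GW_m1 : GW (dl fun _ => -1) := by
  have n31 : ∀ F : FF, (3 : F.K) ≠ 1 := fun F k => F.two_ne (by linear_combination k)
  have a1 : GW (dl fun _ => -2) := Z7_dl (GW_drefl GW_3 (fun F => F.three_ne) n31)
    fun F => by norm_num
  have n2 : ∀ F : FF, (-2 : F.K) ≠ 0 := fun F => neg_ne_zero.2 F.two_ne
  have a2 : GW (dl fun _ => (-2)⁻¹) := GW_dinv a1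
  have a3 : GW (dl fun F => 1 - (-2 : F.K)⁻¹) := GW_drefl a2 (fun F => inv_ne_zero (n2 F))
    fun F k => F.three_ne (by
      have h : (-2 : F.K) = 1 := inv_eq_one.1 k
      linear_combination -h)
  have e3 : ∀ F : FF, (1 - (-2 : F.K)⁻¹) = 3 / 2 := fun F => by
    have h1 := F.two_ne
    field_simp
    norm_num
  have a4 : GW (dl fun F => (1 - (-2 : F.K)⁻¹)⁻¹) := GW_dinv a3
  have a5 : GW (dl fun F => 3 * (1 - (-2 : F.K)⁻¹)⁻¹) := GW_dmul GW_3 a4 (fun F => F.three_ne)
    fun F => inv_ne_zero (by rw [e3]; exact div_ne_zero F.three_ne F.two_ne)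
  have a6 : GW (dl fun _ => 2) := Z7_dl a5 fun F => by
    rw [e3]
    have h1 := F.two_ne
    have h2 := F.three_ne
    field_simp
  exact Z7_dl (GW_drefl a6 (fun F => F.two_ne) fun F k => one_ne_zero (α := F.K)
    (by linear_combination k)) fun F => by norm_num

/-- MODULE Z7: the center tap is good: `ctS_ch`. -/
theorem ct_good : GG 3 ctF := by
  classical
  refine GG_congr (show GG 3 (TT (dl fun _ => -1)) from GW_m1) fun F f => ?_
  have h1 : TT (dl fun _ => -1) F f =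
      ∑ ρ : F.K, if ρ = -1 then ∑ s : F.K, f (ctS s) else 0 := by
    rw [TT]
    refine Finset.sum_congr rfl fun ρ _ => ?_
    by_cases h : ρ = -1
    · subst h
      rw [if_neg (neg_ne_zero.2 one_ne_zero), if_pos rfl, dl, if_pos rfl, one_mul]
      refine Finset.sum_congr rfl fun s _ => ?_
      rw [ctS_ch]
      have : ((-1 : F.K)) ^ 2 = 1 := by norm_num
      rw [this]
    · rw [if_neg h]
      by_cases h2 : ρ = 0
      · rw [if_pos h2]
      · rw [if_neg h2, dl, if_neg h, zero_mul]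
  rw [h1]
  simp only [Finset.sum_ite_eq', Finset.mem_univ, if_true]
  rfl

end Pool.Agent.PLN
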