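import Pool.Agent.PLN.CrB
import Pool.Agent.PLN.Crit

/-!
# Planar networks: an edge between any two terminals

By the crossing a strand can be moved over the other terminals.  So the networks of all multigraphs
with free resistances give good families.
-/

set_option autoImplicit false

open scoped BigOperators

namespace Pool.Agent.PLN

open Pool.Agent.KG

variable {n m : ℕ}

/-! ### Permutations and resistances, states -/

section

variable {K : Type} [Field K]

/-- Permutation of the terminals. -/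
def pm (σ : Equiv.Perm (Fin n)) (L : St n K) : St n K where
  carrier := {x | (x.1 ∘ σ, x.2 ∘ σ) ∈ L}
  add_mem' := fun ha hb => L.add_mem ha hb
  zero_mem' := L.zero_mem
  smul_mem' := fun c _ ha => L.smul_mem c ha

/-- A resistance `r` between the terminals `a` and `b`. -/
def opE (a b : Fin n) (r : K) (L : St n K) : St n K where
  carrier := {x | ∃ d : K, x.1 a - x.1 b = r * d ∧
    (x.1, x.2 - d • (Pi.single a 1 - Pi.single b 1 : Fin n → K)) ∈ L}
  add_mem' := by
    rintro x y ⟨c, h1, h2⟩ ⟨d, h3, h4⟩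
    refine ⟨c + d, ?_, ?_⟩
    · simp only [Prod.fst_add, Pi.add_apply]
      linear_combination h1 + h3
    · have h5 := L.add_mem h2 h4
      have h6 : (x + y).2 - (c + d) • (Pi.single a 1 - Pi.single b 1 : Fin n → K) =
          (x.2 - c • (Pi.single a 1 - Pi.single b 1)) + (y.2 - d • (Pi.single a 1 - Pi.single b 1)) := by
        ext j
        simp only [Prod.snd_add, Pi.add_apply, Pi.sub_apply, Pi.smul_apply, smul_eq_mul]
        ring
      rw [h6]
      exact h5
  zero_mem' := by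
    refine ⟨0, by simp, ?_⟩
    have h6 : ((0 : (Fin n → K) × (Fin n → K)).1, (0 : (Fin n → K) × (Fin n → K)).2 -
        (0 : K) • (Pi.single a 1 - Pi.single b 1 : Fin n → K)) = 0 := by simp
    rw [h6]
    exact L.zero_mem
  smul_mem' := by
    rintro e x ⟨c, h1, h2⟩
    refine ⟨e * c, ?_, ?_⟩
    · simp only [Prod.smul_fst, Pi.smul_apply, smul_eq_mul]
      linear_combination e * h1
    · have h5 := L.smul_mem e h2
      have h6 : (e • x).2 - (e * c) • (Pi.single a 1 - Pi.single b 1 : Fin n → K) =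
          e • (x.2 - c • (Pi.single a 1 - Pi.single b 1)) := by
        ext j
        simp only [Prod.smul_snd, Pi.sub_apply, Pi.smul_apply, smul_eq_mul]
        ring
      rw [h6]
      exact h5

/-- There is no current around the new edge. -/
def opR (a b : Fin n) (r : K) (L : St n K) : Prop :=
  ∀ d : K, ((0 : Fin n → K), (d • (Pi.single a 1 - Pi.single b 1) : Fin n → K)) ∈ L → r * d = 0 → d = 0

private theorem wp1_rot (j : Fin n) : finRotate (n + 1) j.castSucc = j.succ := by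
  apply Fin.ext
  rw [coe_finRotate_of_ne_last (Fin.castSucc_lt_last j).ne, Fin.val_castSucc, Fin.val_succ]

private theorem wp1_inv0 : (finRotate (n + 1))⁻¹ (0 : Fin (n + 1)) = Fin.last n := by
  rw [Equiv.Perm.inv_eq_iff_eq, finRotate_last]

private theorem wp1_invs (j : Fin n) : (finRotate (n + 1))⁻¹ j.succ = j.castSucc := by
  rw [Equiv.Perm.inv_eq_iff_eq, wp1_rot]

omit [Field K] in
private theorem wp1_f (x : Fin (n + 1) → K) :
    (Fin.cons (x (Fin.last n)) (Fin.init x) : Fin (n + 1) → K) = x ∘ ⇑(finRotate (n + 1))⁻¹ := by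
  funext j
  refine Fin.cases ?_ (fun j => ?_) j
  · rw [Fin.cons_zero, Function.comp_apply, wp1_inv0]
  · rw [Fin.cons_succ, Function.comp_apply, wp1_invs]
    rfl

omit [Field K] in
private theorem wp1_b (x : Fin (n + 1) → K) :
    (Fin.snoc (Fin.tail x) (x 0) : Fin (n + 1) → K) = x ∘ ⇑(finRotate (n + 1)) := by
  funext j
  refine Fin.lastCases ?_ (fun j => ?_) j
  · rw [Fin.snoc_last, Function.comp_apply, finRotate_last]
  · rw [Fin.snoc_castSucc, Function.comp_apply, wp1_rot]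
    rfl

/-- MODULE WP1: `pm_one`, `pm_pm`, `rf_pm`, `rb_pm`. -/
theorem pm_one (L : St n K) : pm 1 L = L := rfl

theorem pm_pm (σ τ : Equiv.Perm (Fin n)) (L : St n K) : pm σ (pm τ L) = pm (σ * τ) L := rfl

theorem rf_pm (L : St (n + 1) K) : rf L = pm (finRotate (n + 1))⁻¹ L := by
  ext x
  show ((Fin.cons (x.1 (Fin.last n)) (Fin.init x.1) : Fin (n + 1) → K),
    (Fin.cons (x.2 (Fin.last n)) (Fin.init x.2) : Fin (n + 1) → K)) ∈ L ↔
    (x.1 ∘ ⇑(finRotate (n + 1))⁻¹, x.2 ∘ ⇑(finRotate (n + 1))⁻¹) ∈ L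
  rw [wp1_f, wp1_f]

theorem rb_pm (L : St (n + 1) K) : rb L = pm (finRotate (n + 1)) L := by
  ext x
  show ((Fin.snoc (Fin.tail x.1) (x.1 0) : Fin (n + 1) → K),
    (Fin.snoc (Fin.tail x.2) (x.2 0) : Fin (n + 1) → K)) ∈ L ↔
    (x.1 ∘ ⇑(finRotate (n + 1)), x.2 ∘ ⇑(finRotate (n + 1))) ∈ L
  rw [wp1_b, wp1_b]

private theorem wp2_single (σ : Equiv.Perm (Fin n)) (a : Fin n) (c : K) :
    (Pi.single (σ a) c : Fin n → K) ∘ ⇑σ = Pi.single a c := by
  funext j
  rw [Function.comp_apply, Pi.single_apply, Pi.single_apply]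
  simp only [EmbeddingLike.apply_eq_iff_eq]

private theorem wp2_comp (σ : Equiv.Perm (Fin n)) (a b : Fin n) (d : K) (y : Fin n → K) :
    (y - d • (Pi.single (σ a) 1 - Pi.single (σ b) 1 : Fin n → K)) ∘ ⇑σ =
      y ∘ ⇑σ - d • (Pi.single a 1 - Pi.single b 1 : Fin n → K) := by
  rw [← wp2_single σ a, ← wp2_single σ b]
  rfl

private theorem wp2_comp' (σ : Equiv.Perm (Fin n)) (a b : Fin n) (d : K) :
    (d • (Pi.single (σ a) 1 - Pi.single (σ b) 1 : Fin n → K)) ∘ ⇑σ =
      d • (Pi.single a 1 - Pi.single b 1 : Fin n → K) := by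
  rw [← wp2_single σ a, ← wp2_single σ b]
  rfl

/-- MODULE WP2: `opE_pm`, `opR_pm`. -/
theorem opE_pm (σ : Equiv.Perm (Fin n)) (a b : Fin n) (r : K) (L : St n K) :
    opE (σ a) (σ b) r (pm σ L) = pm σ (opE a b r L) := by
  ext x
  show (∃ d : K, x.1 (σ a) - x.1 (σ b) = r * d ∧ (x.1 ∘ ⇑σ,
      (x.2 - d • (Pi.single (σ a) 1 - Pi.single (σ b) 1 : Fin n → K)) ∘ ⇑σ) ∈ L) ↔
    ∃ d : K, x.1 (σ a) - x.1 (σ b) = r * d ∧ (x.1 ∘ ⇑σ,
      x.2 ∘ ⇑σ - d • (Pi.single a 1 - Pi.single b 1 : Fin n → K)) ∈ L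
  simp only [wp2_comp]

theorem opR_pm (σ : Equiv.Perm (Fin n)) (a b : Fin n) (r : K) (L : St n K) :
    opR (σ a) (σ b) r (pm σ L) ↔ opR a b r L := by
  show (∀ d : K, ((0 : Fin n → K) ∘ ⇑σ,
      (d • (Pi.single (σ a) 1 - Pi.single (σ b) 1) : Fin n → K) ∘ ⇑σ) ∈ L → r * d = 0 → d = 0) ↔
    ∀ d : K, ((0 : Fin n → K), (d • (Pi.single a 1 - Pi.single b 1) : Fin n → K)) ∈ L →
      r * d = 0 → d = 0
  simp only [wp2_comp']
  rfl

/-- The first `n + 1` terminals are rotated, the last one (the end of the strand) stays. -/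
def rho (L : St (n + 2) K) : St (n + 2) K := rf (cr L)

omit [Field K] in
private theorem wr1_swap (w : Fin (n + 1) → K) (z : K) :
    (Fin.cons z w : Fin (n + 2) → K) ∘ ⇑(Equiv.swap (Fin.last (n + 1)) 0) =
      Fin.snoc (w ∘ ⇑(finRotate (n + 1))⁻¹) z := by
  funext j
  refine Fin.lastCases ?_ (fun j => ?_) j
  · rw [Function.comp_apply, Equiv.swap_apply_left, Fin.cons_zero, Fin.snoc_last]
  · rw [Fin.snoc_castSucc, Function.comp_apply, Function.comp_apply]
    refine Fin.cases ?_ (fun j => ?_) j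
    · rw [Fin.castSucc_zero, Equiv.swap_apply_right, wp1_inv0, ← Fin.succ_last, Fin.cons_succ]
    · have h1 : (j.succ.castSucc : Fin (n + 2)) ≠ Fin.last (n + 1) := (Fin.castSucc_lt_last _).ne
      have h2 : (j.succ.castSucc : Fin (n + 2)) ≠ 0 := by
        rw [← Fin.succ_castSucc]
        exact Fin.succ_ne_zero _
      rw [Equiv.swap_apply_of_ne_of_ne h1 h2, wp1_invs, ← Fin.succ_castSucc, Fin.cons_succ]

private theorem wr1_sub (v : Fin (n + 1) → K) (z e : K) :
    (Fin.snoc v z : Fin (n + 2) → K) - Pi.single (Fin.last (n + 1)) e = Fin.snoc v (z - e) := by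
  funext j
  refine Fin.lastCases ?_ (fun j => ?_) j
  · simp
  · simp

/-- MODULE WR1: `mem_rho`, `mem_rho_iter` (induction on `k`, `Function.iterate_succ_apply'`), `spkl_rho`. -/
theorem mem_rho (L : St (n + 2) K) (v i : Fin (n + 1) → K) (z c : K) :
    ((Fin.snoc v z : Fin (n + 2) → K), (Fin.snoc i c : Fin (n + 2) → K)) ∈ rho L ↔
      ((Fin.snoc (v ∘ ⇑(finRotate (n + 1))⁻¹) z : Fin (n + 2) → K),
        (Fin.snoc (i ∘ ⇑(finRotate (n + 1))⁻¹) c : Fin (n + 2) → K)) ∈ L := by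
  have h1 : ∀ (w : Fin (n + 1) → K) (e : K),
      (Fin.cons ((Fin.snoc w e : Fin (n + 2) → K) (Fin.last (n + 1)))
        (Fin.init (Fin.snoc w e : Fin (n + 2) → K)) : Fin (n + 2) → K) = Fin.cons e w := by
    intro w e
    rw [Fin.snoc_last, Fin.init_snoc]
  rw [← wr1_swap, ← wr1_swap, ← h1 v z, ← h1 i c]
  rfl

theorem mem_rho_iter (k : ℕ) (L : St (n + 2) K) (v i : Fin (n + 1) → K) (z c : K) :
    ((Fin.snoc v z : Fin (n + 2) → K), (Fin.snoc i c : Fin (n + 2) → K)) ∈ rho^[k] L ↔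
      ((Fin.snoc (v ∘ ⇑((finRotate (n + 1))⁻¹ ^ k)) z : Fin (n + 2) → K),
        (Fin.snoc (i ∘ ⇑((finRotate (n + 1))⁻¹ ^ k)) c : Fin (n + 2) → K)) ∈ L := by
  induction k generalizing v i with
  | zero => rfl
  | succ k ih =>
    rw [Function.iterate_succ_apply', mem_rho, ih, pow_succ']
    rfl

theorem spkl_rho (r : K) (L : St (n + 2) K) : spkl r (rho L) = rho (spkl r L) := by
  have key : ∀ (M : St (n + 2) K) (v i : Fin (n + 1) → K) (z c : K),
      ((Fin.snoc v z : Fin (n + 2) → K), (Fin.snoc i c : Fin (n + 2) → K)) ∈ spkl r M ↔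
      ((Fin.snoc v (z - r * c) : Fin (n + 2) → K), (Fin.snoc i c : Fin (n + 2) → K)) ∈ M := by
    intro M v i z c
    show ((Fin.snoc v z : Fin (n + 2) → K) - Pi.single (Fin.last (n + 1))
      (r * (Fin.snoc i c : Fin (n + 2) → K) (Fin.last (n + 1))), _) ∈ M ↔ _
    rw [Fin.snoc_last, wr1_sub]
  ext ⟨x1, x2⟩
  rw [← Fin.snoc_init_self x1, ← Fin.snoc_init_self x2, key, mem_rho, mem_rho, key]

/-- MODULE WR2: `mem_wd_res`, `spkl_wd_res` (`spkl_res`). -/
theorem mem_wd_res (r : K) (L : St (n + 1) K) (v i : Fin (n + 1) → K) (z c : K) :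
    ((Fin.snoc v z : Fin (n + 2) → K), (Fin.snoc i c : Fin (n + 2) → K)) ∈ wd (m := 1) L (resS r) ↔
      z - v 0 = r * c ∧ (v, i + Pi.single 0 c) ∈ L := by
  have e1 : ∀ (w : Fin (n + 1) → K) (e : K),
      (fun j => (Fin.snoc w e : Fin (n + 2) → K) (Fin.castAdd 1 j)) = w := by
    intro w e
    funext j
    show (Fin.snoc w e : Fin (n + 2) → K) j.castSucc = w j
    rw [Fin.snoc_castSucc]
  have e2 : ∀ (w : Fin (n + 1) → K) (e : K),
      (Fin.snoc w e : Fin (n + 2) → K) (Fin.natAdd (n + 1) (0 : Fin 1)) = e := by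
    intro w e
    show (Fin.snoc w e : Fin (n + 2) → K) (Fin.last (n + 1)) = e
    rw [Fin.snoc_last]
  have e3 : ∀ (w : Fin (n + 1) → K) (e : K),
      (Fin.snoc w e : Fin (n + 2) → K) (Fin.castAdd 1 (0 : Fin (n + 1))) = w 0 := by
    intro w e
    exact congrFun (e1 w e) 0
  show (∃ d : K, ((fun j => (Fin.snoc v z : Fin (n + 2) → K) (Fin.castAdd 1 j) : Fin (n + 1) → K),
      ((fun j => (Fin.snoc i c : Fin (n + 2) → K) (Fin.castAdd 1 j)) - Pi.single 0 d :
        Fin (n + 1) → K)) ∈ L ∧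
      (d + (Fin.snoc i c : Fin (n + 2) → K) (Fin.natAdd (n + 1) (0 : Fin 1)) = 0 ∧
        (Fin.snoc v z : Fin (n + 2) → K) (Fin.castAdd 1 (0 : Fin (n + 1))) -
          (Fin.snoc v z : Fin (n + 2) → K) (Fin.natAdd (n + 1) (0 : Fin 1)) = r * d)) ↔ _
  simp only [e1, e2, e3]
  constructor
  · rintro ⟨d, h1, h2, h3⟩
    have h4 : d = -c := by linear_combination h2
    rw [h4, Pi.single_neg, sub_neg_eq_add] at h1
    exact ⟨by rw [h4] at h3; linear_combination -h3, h1⟩
  · rintro ⟨h1, h2⟩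
    refine ⟨-c, ?_, by ring, by linear_combination -h1⟩
    rw [Pi.single_neg, sub_neg_eq_add]
    exact h2

theorem spkl_wd_res (r r' : K) (L : St (n + 1) K) :
    spkl r' (wd (m := 1) L (resS r)) = wd (m := 1) L (resS (r + r')) := by
  ext ⟨x1, x2⟩
  show (x1 - Pi.single (Fin.last (n + 1)) (r' * x2 (Fin.last (n + 1))), x2) ∈
    wd (m := 1) L (resS r) ↔ (x1, x2) ∈ wd (m := 1) L (resS (r + r'))
  have h1 := Fin.snoc_init_self x1
  have h2 := Fin.snoc_init_self x2
  rw [← h1, ← h2, wr1_sub, Fin.snoc_last, mem_wd_res, mem_wd_res]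
  constructor
  · rintro ⟨h3, h4⟩
    exact ⟨by linear_combination h3, h4⟩
  · rintro ⟨h3, h4⟩
    exact ⟨by linear_combination h3, h4⟩

private theorem wr3_rot (k : ℕ) (hk : k < n + 1) :
    (finRotate (n + 1) ^ k) (0 : Fin (n + 1)) = ⟨k, hk⟩ := by
  induction k with
  | zero => rfl
  | succ k ih =>
    rw [pow_succ', Equiv.Perm.mul_apply, ih (by omega), finRotate_of_lt (by omega)]

private theorem wr3_inv (a : Fin (n + 1)) : ((finRotate (n + 1))⁻¹ ^ (a : ℕ)) a = 0 := by
  rw [inv_pow, Equiv.Perm.inv_eq_iff_eq, wr3_rot _ a.2]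

private theorem wr3_single (a : Fin (n + 1)) (c : K) :
    (Pi.single 0 c : Fin (n + 1) → K) ∘ ⇑((finRotate (n + 1))⁻¹ ^ (a : ℕ)) = Pi.single a c := by
  have h1 := wp2_single ((finRotate (n + 1))⁻¹ ^ (a : ℕ)) a c
  rw [wr3_inv] at h1
  exact h1

/-- MODULE WR3: `mg_rho`, `mgR_rho`.  By `mem_rho_iter` and `mem_wd_res`; `(finRotate (n + 1) ^ k) 0 = a` for
`k = a`, so `(Pi.single 0 d) ∘ (finRotate (n + 1))⁻¹ ^ k = Pi.single a d`. -/
theorem mg_rho (a : Fin (n + 1)) (r : K) (L : St (n + 1) K) :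
    mg (rho^[(a : ℕ)] (wd (m := 1) L (resS r))) = pm ((finRotate (n + 1))⁻¹ ^ (a : ℕ)) (opE a 0 r L) := by
  ext x
  show (∃ c : K, ((Fin.snoc x.1 (x.1 0) : Fin (n + 2) → K),
      (Fin.snoc (x.2 - Pi.single 0 c) c : Fin (n + 2) → K)) ∈ rho^[(a : ℕ)] (wd (m := 1) L (resS r))) ↔
    ∃ d : K, x.1 (((finRotate (n + 1))⁻¹ ^ (a : ℕ)) a) - x.1 (((finRotate (n + 1))⁻¹ ^ (a : ℕ)) 0) =
      r * d ∧ (x.1 ∘ ⇑((finRotate (n + 1))⁻¹ ^ (a : ℕ)), x.2 ∘ ⇑((finRotate (n + 1))⁻¹ ^ (a : ℕ)) -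
        d • (Pi.single a 1 - Pi.single 0 1 : Fin (n + 1) → K)) ∈ L
  refine exists_congr fun c => ?_
  rw [mem_rho_iter, mem_wd_res, wr3_inv]
  have h1 : (x.2 - Pi.single 0 c) ∘ ⇑((finRotate (n + 1))⁻¹ ^ (a : ℕ)) + Pi.single 0 c =
      x.2 ∘ ⇑((finRotate (n + 1))⁻¹ ^ (a : ℕ)) -
        c • (Pi.single a 1 - Pi.single 0 1 : Fin (n + 1) → K) := by
    have h2 : (x.2 - Pi.single 0 c) ∘ ⇑((finRotate (n + 1))⁻¹ ^ (a : ℕ)) =
        x.2 ∘ ⇑((finRotate (n + 1))⁻¹ ^ (a : ℕ)) - Pi.single a c := by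
      rw [← wr3_single a c]
      rfl
    have h3 : ∀ b : Fin (n + 1), (c • (Pi.single b 1 : Fin (n + 1) → K)) = Pi.single b c := by
      intro b
      rw [← Pi.single_smul, smul_eq_mul, mul_one]
    rw [h2, smul_sub, h3, h3]
    abel
  rw [h1]
  rfl

theorem mgR_rho (a : Fin (n + 1)) (r : K) (L : St (n + 1) K) :
    mgR (rho^[(a : ℕ)] (wd (m := 1) L (resS r))) ↔ opR a 0 r L := by
  have h3 : ∀ (b : Fin (n + 1)) (c : K), (c • (Pi.single b 1 : Fin (n + 1) → K)) = Pi.single b c := by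
    intro b c
    rw [← Pi.single_smul, smul_eq_mul, mul_one]
  have h0 : (0 : Fin (n + 2) → K) = Fin.snoc (0 : Fin (n + 1) → K) 0 := by
    funext j
    refine Fin.lastCases ?_ (fun j => ?_) j <;> simp
  have key : ∀ c : K, ((0 : Fin (n + 2) → K), (Fin.snoc (-Pi.single 0 c) c : Fin (n + 2) → K)) ∈
      rho^[(a : ℕ)] (wd (m := 1) L (resS r)) ↔ r * -c = 0 ∧
        ((0 : Fin (n + 1) → K), ((-c) • (Pi.single a 1 - Pi.single 0 1) : Fin (n + 1) → K)) ∈ L := by
    intro c
    rw [h0, mem_rho_iter, mem_wd_res]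
    have h1 : (-Pi.single 0 c : Fin (n + 1) → K) ∘ ⇑((finRotate (n + 1))⁻¹ ^ (a : ℕ)) +
        Pi.single 0 c = (-c) • (Pi.single a 1 - Pi.single 0 1 : Fin (n + 1) → K) := by
      have h2 : (-Pi.single 0 c : Fin (n + 1) → K) ∘ ⇑((finRotate (n + 1))⁻¹ ^ (a : ℕ)) =
          -Pi.single a c := by
        rw [← wr3_single a c]
        rfl
      rw [h2, neg_smul, smul_sub, h3, h3]
      abel
    rw [h1]
    have h4 : (0 : Fin (n + 1) → K) ∘ ⇑((finRotate (n + 1))⁻¹ ^ (a : ℕ)) = 0 := rfl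
    rw [h4, Pi.zero_apply, sub_zero]
    constructor
    · rintro ⟨h5, h6⟩
      exact ⟨by linear_combination h5, h6⟩
    · rintro ⟨h5, h6⟩
      exact ⟨by linear_combination h5, h6⟩
  constructor
  · intro h d h1 h2
    have h4 := h (-d) ((key _).2 ⟨by rw [neg_neg]; exact h2, by rw [neg_neg]; exact h1⟩)
    exact neg_eq_zero.1 h4
  · intro h c h1
    obtain ⟨h2, h4⟩ := (key c).1 h1
    exact neg_eq_zero.1 (h (-c) h4 h2)

end

/-! ### Families -/

/-- Rotation of the terminals but the last one. -/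
def Fam.rho (ν : Fam (n + 2)) : Fam (n + 2) := ν.cr.rf

theorem InvL_rho {ν : Fam (n + 2)} (h : InvL ν) : InvL ν.rho := by
  intro F r f
  show ν F (fun L => f (spkl r (rho L))) = ν F fun L => f (rho L)
  simp only [spkl_rho]
  exact h F r fun L => f (rho L)

theorem GG_rho_iter (hct : GG 3 ctF) {ν : Fam (n + 2)} (h : GG (n + 2) ν) (hs : InvL ν) (k : ℕ) :
    GG (n + 2) (Fam.rho^[k] ν) ∧ InvL (Fam.rho^[k] ν) := by
  induction k with
  | zero => exact ⟨h, hs⟩
  | succ k ih =>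
    rw [Function.iterate_succ_apply']
    exact ⟨GG_rf (GG_cr_of hct ih.1 ih.2), InvL_rho ih.2⟩

theorem rho_iter (k : ℕ) (ν : Fam (n + 2)) (F : FF) (f : St (n + 2) F.K → ℤ) :
    (Fam.rho^[k] ν) F f = ν F fun L => f (rho^[k] L) := by
  induction k generalizing f with
  | zero => rfl
  | succ k ih =>
    rw [Function.iterate_succ_apply']
    show (Fam.rho^[k] ν) F (fun L => f (rho L)) = _
    rw [ih]
    simp only [Function.iterate_succ_apply']

open Classical in
/-- A free resistance between the terminals `a` and `b`. -/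
noncomputable def Fam.ed (a b : Fin n) (ν : Fam n) : Fam n :=
  fun F f => ν F fun L => ∑ r : F.K, if opR a b r L then f (opE a b r L) else 0

/-- MODULE WF1.  Induction on `k`: `GG_rf`, `GG_rb`, `Function.iterate_succ_apply'`. -/
theorem GG_rf_iter {ν : Fam (n + 1)} (h : GG (n + 1) ν) (k : ℕ) : GG (n + 1) (Fam.rf^[k] ν) := by
  induction k with
  | zero => exact h
  | succ k ih =>
    rw [Function.iterate_succ_apply']
    exact GG_rf ih

theorem GG_rb_iter {ν : Fam (n + 1)} (h : GG (n + 1) ν) (k : ℕ) : GG (n + 1) (Fam.rb^[k] ν) := by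
  induction k with
  | zero => exact h
  | succ k ih =>
    rw [Function.iterate_succ_apply']
    exact GG_rb ih

theorem rf_iter (k : ℕ) (ν : Fam (n + 1)) (F : FF) (f : St (n + 1) F.K → ℤ) :
    (Fam.rf^[k] ν) F f = ν F fun L => f (pm ((finRotate (n + 1))⁻¹ ^ k) L) := by
  induction k generalizing f with
  | zero => rfl
  | succ k ih =>
    rw [Function.iterate_succ_apply']
    show (Fam.rf^[k] ν) F (fun L => f (rf L)) = _
    rw [ih]
    simp only [rf_pm, pm_pm, pow_succ']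

theorem rb_iter (k : ℕ) (ν : Fam (n + 1)) (F : FF) (f : St (n + 1) F.K → ℤ) :
    (Fam.rb^[k] ν) F f = ν F fun L => f (pm (finRotate (n + 1) ^ k) L) := by
  induction k generalizing f with
  | zero => rfl
  | succ k ih =>
    rw [Function.iterate_succ_apply']
    show (Fam.rb^[k] ν) F (fun L => f (rb L)) = _
    rw [ih]
    simp only [rb_pm, pm_pm, pow_succ']

/-- MODULE WF2.  `GG_rb_iter` (`k = a`) of `GG_mg` of `GG_rho_iter` (`k = a`) of `GG_wd h GG_res` (`InvL` by
`spkl_wd_res` and a translation of the sum in `resF`); `rho_iter`, `mg_rho`, `mgR_rho`, `pm_pm`,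
`finRotate ^ a * finRotate⁻¹ ^ a = 1`. -/
theorem GG_ed0 (hct : GG 3 ctF) {ν : Fam (n + 1)} (h : GG (n + 1) ν) (a : Fin (n + 1)) :
    GG (n + 1) (ν.ed a 0) := by
  classical
  have hW : GG (n + 1 + 1) (Fam.wd (m := 1) ν resF) := GG_wd h GG_res
  have hI : InvL (Fam.wd (m := 1) ν resF) := by
    intro F r f
    show (ν F fun L => ∑ r' : F.K, f (spkl r (wd (m := 1) L (resS r')))) =
      ν F fun L => ∑ r' : F.K, f (wd (m := 1) L (resS r'))
    refine congrArg (ν F) (funext fun L => ?_)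
    simp only [spkl_wd_res]
    exact Equiv.sum_comp (Equiv.addRight r) fun r' => f (wd (m := 1) L (resS r'))
  have h1 := (GG_rho_iter (n := n) hct hW hI (a : ℕ)).1
  refine GG_congr (GG_rb_iter (GG_mg h1) (a : ℕ)) fun F f => ?_
  rw [rb_iter]
  show (Fam.rho^[(a : ℕ)] (Fam.wd (m := 1) ν resF)) F (fun L => if mgR L then
    f (pm (finRotate (n + 1) ^ (a : ℕ)) (mg L)) else 0) = _
  rw [rho_iter]
  show (ν F fun L => ∑ r : F.K, if mgR (rho^[(a : ℕ)] (wd (m := 1) L (resS r))) then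
    f (pm (finRotate (n + 1) ^ (a : ℕ)) (mg (rho^[(a : ℕ)] (wd (m := 1) L (resS r))))) else 0) =
    ν F fun L => ∑ r : F.K, if opR a 0 r L then f (opE a 0 r L) else 0
  refine congrArg (ν F) (funext fun L => Finset.sum_congr rfl fun r _ => ?_)
  rw [mg_rho, pm_pm, inv_pow, mul_inv_cancel, pm_one]
  simp only [mgR_rho]

/-- MODULE WF3.  With `k = b`, `σ = (finRotate (n + 1))⁻¹ ^ k`, `σ b = 0`: `ν.ed a b` is
`Fam.rb^[k] ((Fam.rf^[k] ν).ed (σ a) 0)` (`opE_pm`, `opR_pm`, `rf_iter`, `rb_iter`). -/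
theorem GG_ed (hct : GG 3 ctF) {ν : Fam (n + 1)} (h : GG (n + 1) ν) (a b : Fin (n + 1)) :
    GG (n + 1) (ν.ed a b) := by
  classical
  obtain ⟨σ, hσ⟩ : ∃ σ, σ = (finRotate (n + 1))⁻¹ ^ (b : ℕ) := ⟨_, rfl⟩
  have hσb : σ b = 0 := by
    rw [hσ]
    exact wr3_inv b
  refine GG_congr (GG_rb_iter (GG_ed0 hct (GG_rf_iter h (b : ℕ)) (σ a)) (b : ℕ)) fun F f => ?_
  rw [rb_iter]
  show (Fam.rf^[(b : ℕ)] ν) F (fun L => ∑ r : F.K, if opR (σ a) 0 r L then
    f (pm (finRotate (n + 1) ^ (b : ℕ)) (opE (σ a) 0 r L)) else 0) = _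
  rw [rf_iter, ← hσ, ← hσb]
  show (ν F fun L => ∑ r : F.K, if opR (σ a) (σ b) r (pm σ L) then
    f (pm (finRotate (n + 1) ^ (b : ℕ)) (opE (σ a) (σ b) r (pm σ L))) else 0) =
    ν F fun L => ∑ r : F.K, if opR a b r L then f (opE a b r L) else 0
  refine congrArg (ν F) (funext fun L => Finset.sum_congr rfl fun r _ => ?_)
  rw [opE_pm, pm_pm, hσ, inv_pow, mul_inv_cancel, pm_one, ← inv_pow]
  simp only [opR_pm]

/-! ### The networks of all multigraphs -/

section

variable {K : Type} [Field K]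

theorem net_add {V E : Type} [Fintype E] (s t : E → V) (j k : E → K) (v : V) :
    net s t (j + k) v = net s t j v + net s t k v := by
  classical
  have h : ∀ s : E → V, (∑ e, if s e = v then (j + k) e else 0) =
      (∑ e, if s e = v then j e else 0) + ∑ e, if s e = v then k e else 0 := by
    intro s
    rw [← Finset.sum_add_distrib]
    refine Finset.sum_congr rfl fun e _ => ?_
    split_ifs
    · rfl
    · rw [add_zero]
  unfold net
  rw [h, h]
  ring

theorem net_smul {V E : Type} [Fintype E] (s t : E → V) (c : K) (j : E → K) (v : V) :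
    net s t (c • j) v = c * net s t j v := by
  classical
  unfold net
  simp only [Pi.smul_apply, smul_eq_mul, mul_sub, Finset.mul_sum, mul_ite, mul_zero]

/-- The state of the multigraph `s`, `t` with the resistances `x`; all vertices are terminals. -/
def RS (s t : Fin m → Fin n) (x : Fin m → K) : St n K where
  carrier := {z | ∃ j : Fin m → K, (∀ e, z.1 (s e) - z.1 (t e) = x e * j e) ∧ ∀ v, z.2 v = net s t j v}
  add_mem' := by
    rintro z w ⟨j, h1, h2⟩ ⟨k, h3, h4⟩
    refine ⟨j + k, fun e => ?_, fun v => ?_⟩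
    · simp only [Prod.fst_add, Pi.add_apply]
      linear_combination h1 e + h3 e
    · rw [Prod.snd_add, Pi.add_apply, h2, h4, net_add]
  zero_mem' := ⟨0, fun e => by simp, fun v => by simp [net]⟩
  smul_mem' := by
    rintro c z ⟨j, h1, h2⟩
    refine ⟨c • j, fun e => ?_, fun v => ?_⟩
    · simp only [Prod.smul_fst, Pi.smul_apply, smul_eq_mul]
      linear_combination c * h1 e
    · rw [Prod.smul_snd, Pi.smul_apply, h2, net_smul, smul_eq_mul]

/-- The currents are determined. -/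
def RR (s t : Fin m → Fin n) (x : Fin m → K) : Prop :=
  ∀ j : Fin m → K, (∀ e, x e * j e = 0) → (∀ v, net s t j v = 0) → j = 0

private theorem we1_net (s t : Fin (m + 1) → Fin n) (j : Fin (m + 1) → K) (v : Fin n) :
    net s t j v = net (s ∘ Fin.castSucc) (t ∘ Fin.castSucc) (j ∘ Fin.castSucc) v +
      j (Fin.last m) * (Pi.single (s (Fin.last m)) 1 - Pi.single (t (Fin.last m)) 1 : Fin n → K) v := by
  classical
  have e1 : ∀ w : Fin n, (Pi.single w 1 : Fin n → K) v = if w = v then 1 else 0 := fun w =>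
    (Pi.single_apply _ _ _).trans (if_congr eq_comm rfl rfl)
  unfold net
  rw [Fin.sum_univ_castSucc, Fin.sum_univ_castSucc, Pi.sub_apply, e1, e1]
  simp only [Function.comp_apply]
  split_ifs <;> ring_nf

/-- MODULE WE1: the last edge. -/
theorem RS_succ (s t : Fin (m + 1) → Fin n) (x : Fin (m + 1) → K) :
    RS s t x = opE (s (Fin.last m)) (t (Fin.last m)) (x (Fin.last m))
      (RS (s ∘ Fin.castSucc) (t ∘ Fin.castSucc) (x ∘ Fin.castSucc)) := by
  ext z
  constructor
  · rintro ⟨j, h1, h2⟩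
    refine ⟨j (Fin.last m), h1 (Fin.last m), j ∘ Fin.castSucc, fun e => h1 e.castSucc, fun v => ?_⟩
    show z.2 v - j (Fin.last m) *
      (Pi.single (s (Fin.last m)) 1 - Pi.single (t (Fin.last m)) 1 : Fin n → K) v = _
    rw [h2 v, we1_net, add_sub_cancel_right]
  · rintro ⟨d, h1, j, h2, h3⟩
    refine ⟨Fin.snoc j d, fun e => ?_, fun v => ?_⟩
    · refine Fin.lastCases ?_ (fun e => ?_) e
      · rw [Fin.snoc_last]
        exact h1
      · rw [Fin.snoc_castSucc]
        exact h2 e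
    · have h4 : z.2 v - d *
          (Pi.single (s (Fin.last m)) 1 - Pi.single (t (Fin.last m)) 1 : Fin n → K) v =
          net (s ∘ Fin.castSucc) (t ∘ Fin.castSucc) j v := h3 v
      have h5 : (Fin.snoc j d : Fin (m + 1) → K) ∘ Fin.castSucc = j := by
        funext e
        rw [Function.comp_apply, Fin.snoc_castSucc]
      rw [we1_net, h5, Fin.snoc_last, ← h4, sub_add_cancel]

/-- MODULE WE2. -/
theorem RR_succ (s t : Fin (m + 1) → Fin n) (x : Fin (m + 1) → K) :
    RR s t x ↔ RR (s ∘ Fin.castSucc) (t ∘ Fin.castSucc) (x ∘ Fin.castSucc) ∧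
      opR (s (Fin.last m)) (t (Fin.last m)) (x (Fin.last m))
        (RS (s ∘ Fin.castSucc) (t ∘ Fin.castSucc) (x ∘ Fin.castSucc)) := by
  have hc : ∀ (j : Fin m → K) (d : K), (Fin.snoc j d : Fin (m + 1) → K) ∘ Fin.castSucc = j := by
    intro j d
    funext e
    rw [Function.comp_apply, Fin.snoc_castSucc]
  have hneg : ∀ (s t : Fin m → Fin n) (j : Fin m → K) (v : Fin n), net s t (-j) v = -net s t j v := by
    intro s t j v
    have h1 := net_smul s t (-1 : K) j v
    rw [neg_one_smul, neg_one_mul] at h1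
    exact h1
  constructor
  · intro h
    refine ⟨fun j h1 h2 => ?_, fun d h1 h2 => ?_⟩
    · have h3 := h (Fin.snoc j 0) (fun e => ?_) (fun v => ?_)
      · rw [← hc j 0, h3]
        rfl
      · refine Fin.lastCases ?_ (fun e => ?_) e
        · rw [Fin.snoc_last, mul_zero]
        · rw [Fin.snoc_castSucc]
          exact h1 e
      · rw [we1_net, hc, h2, Fin.snoc_last, zero_mul, add_zero]
    · obtain ⟨j, h3, h4⟩ := h1
      have h5 : ∀ v, d * (Pi.single (s (Fin.last m)) 1 - Pi.single (t (Fin.last m)) 1 : Fin n → K) v =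
        net (s ∘ Fin.castSucc) (t ∘ Fin.castSucc) j v := h4
      have h6 := h (Fin.snoc (-j) d) (fun e => ?_) (fun v => ?_)
      · have h7 := congrFun h6 (Fin.last m)
        rw [Fin.snoc_last] at h7
        exact h7
      · refine Fin.lastCases ?_ (fun e => ?_) e
        · rw [Fin.snoc_last]
          exact h2
        · rw [Fin.snoc_castSucc, Pi.neg_apply, mul_neg]
          have h7 : (0 : K) - 0 = x e.castSucc * j e := h3 e
          rw [← h7, sub_zero, neg_zero]
      · rw [we1_net, hc, Fin.snoc_last, h5 v, hneg, neg_add_cancel]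
  · rintro ⟨h1, h2⟩ j h3 h4
    have h5 : ∀ v, net (s ∘ Fin.castSucc) (t ∘ Fin.castSucc) (j ∘ Fin.castSucc) v +
        j (Fin.last m) *
          (Pi.single (s (Fin.last m)) 1 - Pi.single (t (Fin.last m)) 1 : Fin n → K) v = 0 := by
      intro v
      rw [← we1_net]
      exact h4 v
    have h6 : j (Fin.last m) = 0 := by
      refine h2 (j (Fin.last m)) ⟨-(j ∘ Fin.castSucc), fun e => ?_, fun v => ?_⟩ (h3 _)
      · show (0 : K) - 0 = x e.castSucc * -j e.castSucc
        rw [mul_neg, h3, sub_zero, neg_zero]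
      · show j (Fin.last m) *
          (Pi.single (s (Fin.last m)) 1 - Pi.single (t (Fin.last m)) 1 : Fin n → K) v = _
        rw [hneg]
        linear_combination h5 v
    have h7 : j ∘ Fin.castSucc = 0 := by
      refine h1 _ (fun e => h3 e.castSucc) fun v => ?_
      have h8 := h5 v
      rw [h6, zero_mul, add_zero] at h8
      exact h8
    funext e
    refine Fin.lastCases h6 (fun e => ?_) e
    exact congrFun h7 e

end

open Classical in
/-- The family of a multigraph. -/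
noncomputable def rsF (s t : Fin m → Fin n) : Fam n :=
  fun F f => ∑ x : Fin m → F.K, if RR s t x then f (RS s t x) else 0

/-- MODULE WE3.  `m = 0`: `RS = isoS`.  Step: the sum over `Fin (m + 1) → F.K` is a double sum
(`Fin.snocEquiv` or `Fin.consEquiv`), `RS_succ`, `RR_succ`. -/
theorem rsF_zero (s t : Fin 0 → Fin n) (F : FF) (f : St n F.K → ℤ) : rsF s t F f = isoF n F f := by
  classical
  have h1 : ∀ x : Fin 0 → F.K, RR s t x := fun x j _ _ => Subsingleton.elim _ _
  have h2 : ∀ x : Fin 0 → F.K, RS s t x = isoS n F.K := by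
    intro x
    ext z
    constructor
    · rintro ⟨j, -, h3⟩
      show z.2 = 0
      funext v
      rw [h3]
      simp [net]
    · intro h3
      refine ⟨0, fun e => e.elim0, fun v => ?_⟩
      rw [show z.2 = 0 from h3]
      simp [net]
  show (∑ x : Fin 0 → F.K, if RR s t x then f (RS s t x) else 0) = f (isoS n F.K)
  rw [Fintype.sum_subsingleton _ (fun e : Fin 0 => e.elim0), if_pos (h1 _), h2]

theorem rsF_succ (s t : Fin (m + 1) → Fin n) (F : FF) (f : St n F.K → ℤ) :
    rsF s t F f = (rsF (s ∘ Fin.castSucc) (t ∘ Fin.castSucc)).ed (s (Fin.last m)) (t (Fin.last m)) F f := by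
  classical
  show (∑ x : Fin (m + 1) → F.K, if RR s t x then f (RS s t x) else 0) =
    ∑ x : Fin m → F.K, if RR (s ∘ Fin.castSucc) (t ∘ Fin.castSucc) x then
      (∑ r : F.K, if opR (s (Fin.last m)) (t (Fin.last m)) r
        (RS (s ∘ Fin.castSucc) (t ∘ Fin.castSucc) x) then
        f (opE (s (Fin.last m)) (t (Fin.last m)) r (RS (s ∘ Fin.castSucc) (t ∘ Fin.castSucc) x))
        else 0) else 0
  rw [← Equiv.sum_comp (Fin.snocEquiv fun _ => F.K), Fintype.sum_prod_type_right]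
  refine Finset.sum_congr rfl fun x _ => ?_
  have hc : ∀ (r : F.K), (Fin.snoc x r : Fin (m + 1) → F.K) ∘ Fin.castSucc = x := by
    intro d
    funext e
    rw [Function.comp_apply, Fin.snoc_castSucc]
  have h1 : ∀ r : F.K, (if RR s t (Fin.snocEquiv (fun _ => F.K) (r, x)) then
      f (RS s t (Fin.snocEquiv (fun _ => F.K) (r, x))) else 0) =
      if RR (s ∘ Fin.castSucc) (t ∘ Fin.castSucc) x ∧
        opR (s (Fin.last m)) (t (Fin.last m)) r (RS (s ∘ Fin.castSucc) (t ∘ Fin.castSucc) x) then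
        f (opE (s (Fin.last m)) (t (Fin.last m)) r (RS (s ∘ Fin.castSucc) (t ∘ Fin.castSucc) x))
      else 0 := by
    intro r
    have h2 : RS s t (Fin.snoc x r : Fin (m + 1) → F.K) =
        opE (s (Fin.last m)) (t (Fin.last m)) r (RS (s ∘ Fin.castSucc) (t ∘ Fin.castSucc) x) := by
      rw [RS_succ, hc, Fin.snoc_last]
    have h3 : RR s t (Fin.snoc x r : Fin (m + 1) → F.K) ↔
        RR (s ∘ Fin.castSucc) (t ∘ Fin.castSucc) x ∧
        opR (s (Fin.last m)) (t (Fin.last m)) r (RS (s ∘ Fin.castSucc) (t ∘ Fin.castSucc) x) := by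
      rw [RR_succ, hc, Fin.snoc_last]
    show (if RR s t (Fin.snoc x r : Fin (m + 1) → F.K) then
      f (RS s t (Fin.snoc x r : Fin (m + 1) → F.K)) else 0) = _
    rw [h2]
    simp only [h3]
  rw [Finset.sum_congr rfl fun r _ => h1 r]
  by_cases h4 : RR (s ∘ Fin.castSucc) (t ∘ Fin.castSucc) x
  · rw [if_pos h4]
    refine Finset.sum_congr rfl fun r _ => ?_
    simp only [h4, true_and]
  · rw [if_neg h4]
    refine Finset.sum_eq_zero fun r _ => ?_
    rw [if_neg fun h5 => h4 h5.1]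

theorem GG_rsF (hct : GG 3 ctF) (s t : Fin m → Fin (n + 1)) : GG (n + 1) (rsF s t) := by
  induction m with
  | zero => exact GG_congr (GG_iso n) fun F f => (rsF_zero s t F f).symm
  | succ m ih => exact GG_congr (GG_ed hct (ih _ _) _ _) fun F f => (rsF_succ s t F f).symm

/-- Close all terminals but the last one. -/
noncomputable def Fam.clAll : (n : ℕ) → Fam (n + 1) → Fam 1
  | 0, ν => ν
  | n + 1, ν => Fam.clAll n ν.cl

theorem GG_clAll (n : ℕ) {ν : Fam (n + 1)} (h : GG (n + 1) ν) : GG 1 (Fam.clAll n ν) := by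
  induction n with
  | zero => exact h
  | succ n ih => exact ih (GG_cl h)

open Classical in
/-- MODULE WC1.  Induction on `n` for all `ν`; for `n = 0` the condition is trivially true; for the step
`(v, 0) ∈ cl L ↔ ∃ a, (Fin.cons a v, 0) ∈ L` and `Fin.cons_self_tail`. -/
theorem clAll_eq (n : ℕ) (ν : Fam (n + 1)) (F : FF) :
    (Fam.clAll n ν) F (fun _ => 1) = ν F fun L =>
      if ∀ v : Fin (n + 1) → F.K, (v, (0 : Fin (n + 1) → F.K)) ∈ L → v (Fin.last n) = 0 → v = 0
      then 1 else 0 := by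
  induction n with
  | zero =>
    show ν F (fun _ => 1) = _
    refine congrArg (ν F) (funext fun L => ?_)
    rw [if_pos]
    intro v _ h1
    funext j
    rw [Subsingleton.elim (α := Fin 1) j (Fin.last 0)]
    exact h1
  | succ n ih =>
    show (Fam.clAll n ν.cl) F (fun _ => 1) = _
    rw [ih]
    show (ν F fun L => if clR L then (if ∀ v : Fin (n + 1) → F.K,
      (v, (0 : Fin (n + 1) → F.K)) ∈ cl L → v (Fin.last n) = 0 → v = 0 then 1 else 0) else 0) = _
    refine congrArg (ν F) (funext fun L => ?_)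
    have hz : (Fin.cons 0 (0 : Fin (n + 1) → F.K) : Fin (n + 2) → F.K) = 0 := by
      funext j
      refine Fin.cases ?_ (fun j => ?_) j <;> simp
    have hl : ∀ (a : F.K) (v : Fin (n + 1) → F.K),
        (Fin.cons a v : Fin (n + 2) → F.K) (Fin.last (n + 1)) = v (Fin.last n) := by
      intro a v
      rw [← Fin.succ_last, Fin.cons_succ]
    have hmem : ∀ v : Fin (n + 1) → F.K, (v, (0 : Fin (n + 1) → F.K)) ∈ cl L ↔
        ∃ a : F.K, ((Fin.cons a v : Fin (n + 2) → F.K), (0 : Fin (n + 2) → F.K)) ∈ L := by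
      intro v
      show (∃ a : F.K, ((Fin.cons a v : Fin (n + 2) → F.K),
        (Fin.cons 0 (0 : Fin (n + 1) → F.K) : Fin (n + 2) → F.K)) ∈ L) ↔ _
      rw [hz]
    have key : (∀ w : Fin (n + 2) → F.K, (w, (0 : Fin (n + 2) → F.K)) ∈ L →
        w (Fin.last (n + 1)) = 0 → w = 0) ↔ clR L ∧ ∀ v : Fin (n + 1) → F.K,
          (v, (0 : Fin (n + 1) → F.K)) ∈ cl L → v (Fin.last n) = 0 → v = 0 := by
      constructor
      · intro h
        refine ⟨fun a h1 => ?_, fun v h1 h2 => ?_⟩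
        · have h3 := h _ h1 (by rw [hl]; rfl)
          have h4 := congrFun h3 0
          rw [Fin.cons_zero] at h4
          exact h4
        · obtain ⟨a, h3⟩ := (hmem v).1 h1
          have h4 := h _ h3 (by rw [hl]; exact h2)
          funext j
          have h5 := congrFun h4 j.succ
          rw [Fin.cons_succ] at h5
          exact h5
      · rintro ⟨h1, h2⟩ w h3 h4
        have h5 : (Fin.cons (w 0) (Fin.tail w) : Fin (n + 2) → F.K) = w := Fin.cons_self_tail w
        have h6 : Fin.tail w = 0 := by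
          refine h2 _ ((hmem _).2 ⟨w 0, by rw [h5]; exact h3⟩) ?_
          rw [← hl (w 0) (Fin.tail w), h5]
          exact h4
        rw [h6] at h5
        have h7 := h1 (w 0) (by rw [h5]; exact h3)
        rw [← h5, h7]
        exact hz
    by_cases h1 : clR L
    · rw [if_pos h1]
      simp only [key, h1, true_and]
    · rw [if_neg h1, if_neg fun h2 => h1 (key.1 h2).1]

/-- MODULE WC2.  By `crit` (subtract the potential of the last vertex). -/
theorem crit_RS {K : Type} [Field K] (s t : Fin m → Fin (n + 1)) (x : Fin m → K) :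
    sym s t x ≠ 0 ↔ RR s t x ∧ ∀ v : Fin (n + 1) → K, (v, (0 : Fin (n + 1) → K)) ∈ RS s t x →
      v (Fin.last n) = 0 → v = 0 := by
  rw [crit]
  constructor
  · intro h
    refine ⟨fun j h1 h2 => ?_, fun v h1 h2 => ?_⟩
    · exact (h j 0 (fun e => by rw [h1, Pi.zero_apply, Pi.zero_apply, sub_zero]) h2).1
    · obtain ⟨j, h3, h4⟩ := h1
      obtain ⟨-, c, h5⟩ := h j v (fun e => (h3 e).symm) fun v => (h4 v).symm
      have h6 : c = 0 := by rw [← h5 (Fin.last n), h2]
      funext u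
      rw [h5, h6, Pi.zero_apply]
  · rintro ⟨h1, h2⟩ i φ h3 h4
    have h5 : (fun v => φ v - φ (Fin.last n)) = 0 := by
      refine h2 _ ⟨i, fun e => ?_, fun v => (h4 v).symm⟩ (sub_self _)
      show φ (s e) - φ (Fin.last n) - (φ (t e) - φ (Fin.last n)) = x e * i e
      rw [h3]
      ring
    have h6 : ∀ v, φ v = φ (Fin.last n) := fun v => sub_eq_zero.1 (congrFun h5 v)
    refine ⟨h1 i (fun e => ?_) h4, φ (Fin.last n), h6⟩
    rw [h3, h6 (s e), h6 (t e), sub_self]

/-- MODULE WC3.  `Scal_of (GG_clAll n (GG_rsF hct s t))`, `clAll_eq`, `crit_RS`. -/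
theorem sym_scal_of (hct : GG 3 ctF) (s t : Fin m → Fin (n + 1)) :
    Scal fun F => (Nat.card {x : Fin m → F.K // sym s t x ≠ 0} : ℤ) := by
  classical
  refine Scal_congr (Scal_of (GG_clAll n (GG_rsF hct s t))) fun F => ?_
  rw [clAll_eq]
  show (∑ x : Fin m → F.K, if RR s t x then (if ∀ v : Fin (n + 1) → F.K,
    (v, (0 : Fin (n + 1) → F.K)) ∈ RS s t x → v (Fin.last n) = 0 → v = 0 then (1 : ℤ) else 0) else 0) = _
  have h1 : ∀ x : Fin m → F.K, (if RR s t x then (if ∀ v : Fin (n + 1) → F.K,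
      (v, (0 : Fin (n + 1) → F.K)) ∈ RS s t x → v (Fin.last n) = 0 → v = 0 then (1 : ℤ) else 0)
      else 0) = if sym s t x ≠ 0 then 1 else 0 := by
    intro x
    by_cases h2 : RR s t x
    · rw [if_pos h2]
      have h3 := crit_RS s t x
      simp only [h2, true_and] at h3
      simp only [h3]
    · rw [if_neg h2, if_neg fun h3 => h2 ((crit_RS s t x).1 h3).1]
  rw [Finset.sum_congr rfl fun x _ => h1 x, Finset.sum_boole, Nat.card_eq_fintype_card,
    Fintype.card_subtype]

end Pool.Agent.PLN
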