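import Pool.Agent.PLN.PTr
import Pool.Agent.PLN.Wire
import Pool.Agent.PLN.BFin

/-!
# Scheme counts are approximated by counts of the Kirchhoff hypersurfaces of planar cubic graphs
-/

set_option autoImplicit false

open scoped BigOperators

namespace Pool.Agent.PLN

open Pool.Agent.KG Pool.Agent.KGU Pool.Agent.HGC Pool.Agent.HGM Pool.Agent.GPM

theorem count_bd (G : PlanarCubic) : Bd G.count := bd_of_le _ fun K _ _ => NK_le G.s G.t K

/-- The numbers of zeros of the Symanzik polynomials. -/
theorem ns_planar {n m : ℕ} (s t : Fin m → Fin n) : SpF PlanarReg3 fun F => ns s t F.F := by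
  classical
  rcases n with _ | n
  · -- no vertices: there is no tree
    have h1 : ∀ (F : FF) (x : Fin m → F.K), sym s t x = 0 := by
      intro F x
      unfold sym
      refine Finset.sum_eq_zero fun T _ => if_neg fun hT => ?_
      have := hT.1
      simp at this
    refine (SpF.poly (Polynomial.X ^ m)).congr fun F => ?_
    rw [Polynomial.eval_pow, Polynomial.eval_X]
    show F.q ^ m = (NS s t F.K : ℤ)
    unfold NS
    rw [Nat.card_congr (Equiv.subtypeUnivEquiv (h1 F)), Nat.card_fun, Nat.card_eq_fintype_card (α := Fin m),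
      Fintype.card_fin]
    push_cast
    rfl
  · refine ((SpF.poly (Polynomial.X ^ m)).sub
      (planar_reg3' (SpF_of_Scal (sym_scal_of ct_good s t)))).congr fun F => ?_
    rw [Polynomial.eval_pow, Polynomial.eval_X]
    show F.q ^ m - (Nat.card {x : Fin m → F.K // sym s t x ≠ 0} : ℤ) = (NS s t F.K : ℤ)
    have h1 : (Nat.card {x : Fin m → F.K // sym s t x = 0} : ℤ) +
        Nat.card {x : Fin m → F.K // sym s t x ≠ 0} = F.q ^ m := by
      have h2 : Nat.card (Fin m → F.K) = Nat.card {x : Fin m → F.K // sym s t x = 0} +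
          Nat.card {x : Fin m → F.K // sym s t x ≠ 0} := by
        rw [← Nat.card_sum]
        exact Nat.card_congr (Equiv.sumCompl fun x : Fin m → F.K => sym s t x = 0).symm
      have h3 : (Nat.card (Fin m → F.K) : ℤ) = F.q ^ m := by
        rw [Nat.card_fun, Nat.card_eq_fintype_card (α := Fin m), Fintype.card_fin]
        push_cast
        rfl
      rw [← h3, h2]
      push_cast
      rfl
    unfold NS
    linarith

/-- Scheme counts are approximated by counts of Kirchhoff hypersurfaces of planar cubic graphs. -/
theorem hg_planar (n m : ℕ) (P : Fin m → MvPolynomial (Fin n) ℤ) :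
    InB (fam PlanarCubic.count) (tr (countPF (affCount P))) := by
  refine InB.congr (fun p r _ => ?_) (inB_of_sp' count_bd ?_ (aff_phi4 P))
  · by_cases hp : p ∈ Bad
    · rw [tr_bad _ hp, tr_bad _ hp]
    · rw [tr_good _ hp, tr_good _ hp]
      exact toPF_aff P p r
  · rintro f ⟨n, m, s, t, -, rfl⟩
    refine InB.congr (fun p r _ => tr_toPF (ns s t) p r) (inB_of_spF count_bd ?_ (ns_planar s t))
    rintro f ⟨G, rfl⟩
    refine (InB.base (g := fam PlanarCubic.count) (some G)).congr fun p r _ => ?_
    show tr G.count p r = _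
    rw [tr_toPF (nk G.s G.t)]
    by_cases hp : p ∈ Bad
    · rw [tr_bad _ hp, tr_bad _ hp]
    · rw [tr_good _ hp, tr_good _ hp]
      simp only [toPF, PlanarCubic.count, countPF, nk]
      push_cast
      rfl

end Pool.Agent.PLN
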