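import Pool.Agent.PLN.BDefs

/-!
# Part B: counting in a finite field

`ic5 P z` is the indicator function of `P` at `z`; for other types we use sums of `if`.
-/

set_option autoImplicit false

open scoped BigOperators

namespace Pool.Agent.PLN

variable {K : Type} [Field K] [Fintype K]

/-- MODULE K1: a linear equation. -/
theorem cnt_lin (a b : K) : (open Classical in (∑ t : K, if a + t * b = 0 then (1 : ℤ) else 0)) =
    open Classical in if b ≠ 0 then 1 else if a = 0 then (Fintype.card K : ℤ) else 0 := by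
  classical
  by_cases hb : b = 0
  · rw [if_neg (not_not.2 hb)]
    subst hb
    by_cases ha : a = 0
    · rw [if_pos ha, Finset.sum_congr rfl fun t _ => if_pos (by rw [ha, mul_zero, add_zero])]
      rw [Finset.sum_const, Finset.card_univ, nsmul_eq_mul, mul_one]
    · rw [if_neg ha, Finset.sum_congr rfl fun t _ => if_neg (by rwa [mul_zero, add_zero])]
      rw [Finset.sum_const_zero]
  · rw [if_pos hb, Finset.sum_eq_single (-a / b)]
    · rw [if_pos]
      field_simp
      ring
    · intro t _ ht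
      rw [if_neg]
      intro h
      apply ht
      rw [eq_div_iff hb]
      linear_combination h
    · intro h
      exact absurd (Finset.mem_univ _) h

private theorem k2_ind (z : Q5 K) (a b c : K) :
    ic5 (fun z : Q5 K => z.B = 0) (((z.s2 a).s1 b).s0 c) = open Classical in
      if (z.B + a * (z.A + z.D - 2 * z.e) + b * z.A + a * b * z.C) +
        c * (z.D + (a + b) * z.C) = 0 then (1 : ℤ) else 0 := by
  classical
  unfold ic5
  have h : (((z.s2 a).s1 b).s0 c).B =
      (z.B + a * (z.A + z.D - 2 * z.e) + b * z.A + a * b * z.C) +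
        c * (z.D + (a + b) * z.C) := by
    simp only [Q5.s0, Q5.s1, Q5.s2]
    ring
  show (if (((z.s2 a).s1 b).s0 c).B = 0 then (1 : ℤ) else 0) = _
  rw [h]

/-- MODULE K2: three resistances. The coordinate `B` of `((z.s2 a).s1 b).s0 c` is
`B + a σ2 + b A + c D + (a b + a c + b c) C` with `σ2 = A + D - 2 e`. Claim: it vanishes for exactly
`q ^ 2` triples `(a, b, c)`, except for `z = (0, B, 0, 0, 0)`.
Proof. For fixed `a, b` it is `α + c β` with `β = D + (a + b) C`, `α = B + a σ2 + b A + a b C` (`cnt_lin`). If `C ≠ 0`: there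
are `q ^ 2 - q` pairs with `β ≠ 0` (one `c` each), and `q` pairs with `β = 0` (`b C = - a C - D`); for these, by the
quadric, `C α = C B + a C (A + D - 2 e) - (a C + D) A - a C (a C + D) = (C B - A D) - 2 a C e - a ^ 2 C ^ 2
= - (a C + e) ^ 2`: zero for exactly one `a` (then `q` values of `c`). Total `q ^ 2 - q + q = q ^ 2`.
If `C = 0`: `β = D`; if `D ≠ 0`: one `c` for each pair: `q ^ 2`. If `C = D = 0` then `e = 0` (quadric) and `α = B + (a + b) A`; if
`A ≠ 0`: `q` pairs, times `q` values of `c`; if `A = 0`: `α = B ≠ 0`: none. -/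
theorem cnt_spk {z : Q5 K} (hz : z.On) :
    ∑ a : K, ∑ b : K, ∑ c : K, ic5 (fun z : Q5 K => z.B = 0) (((z.s2 a).s1 b).s0 c) =
      (Fintype.card K : ℤ) ^ 2 *
        (1 - ic5 (fun z : Q5 K => z.A = 0 ∧ z.C = 0 ∧ z.D = 0 ∧ z.e = 0) z) := by
  classical
  have h1 : ∀ a b : K, ∑ c : K, ic5 (fun z : Q5 K => z.B = 0) (((z.s2 a).s1 b).s0 c) =
      if z.D + (a + b) * z.C ≠ 0 then 1 else
        if z.B + a * (z.A + z.D - 2 * z.e) + b * z.A + a * b * z.C = 0
          then (Fintype.card K : ℤ) else 0 := by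
    intro a b
    rw [Finset.sum_congr rfl fun c _ => k2_ind z a b c, cnt_lin]
  rw [Finset.sum_congr rfl fun a _ => Finset.sum_congr rfl fun b _ => h1 a b]
  have hq := hz.quad
  by_cases hC : z.C = 0
  · by_cases hD : z.D = 0
    · have he : z.e = 0 := by
        have h2 : z.e ^ 2 = 0 := by rw [← hq, hC, hD]; ring
        exact pow_eq_zero_iff (two_ne_zero) |>.1 h2
      have h2 : ∀ a b : K, (if z.D + (a + b) * z.C ≠ 0 then (1 : ℤ) else
          if z.B + a * (z.A + z.D - 2 * z.e) + b * z.A + a * b * z.C = 0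
            then (Fintype.card K : ℤ) else 0) =
          if (z.B + a * z.A) + b * z.A = 0 then (Fintype.card K : ℤ) else 0 := by
        intro a b
        rw [hC, hD, he, mul_zero, add_zero, if_neg (not_not.2 rfl)]
        have h3 : z.B + a * (z.A + 0 - 2 * 0) + b * z.A + a * b * 0 = (z.B + a * z.A) + b * z.A := by
          ring
        rw [h3]
      rw [Finset.sum_congr rfl fun a _ => Finset.sum_congr rfl fun b _ => h2 a b]
      have h4 : ∀ a : K, ∑ b : K, (if (z.B + a * z.A) + b * z.A = 0 then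
          (Fintype.card K : ℤ) else 0) = Fintype.card K *
            (if z.A ≠ 0 then 1 else if z.B + a * z.A = 0 then (Fintype.card K : ℤ) else 0) := by
        intro a
        rw [← cnt_lin, Finset.mul_sum]
        refine Finset.sum_congr rfl fun b _ => ?_
        rw [mul_ite, mul_one, mul_zero]
      rw [Finset.sum_congr rfl fun a _ => h4 a]
      by_cases hA : z.A = 0
      · have hB : z.B ≠ 0 := fun hB => hz.nz ⟨hA, hB, hC, hD, he⟩
        unfold ic5
        rw [if_pos ⟨hA, hC, hD, he⟩, sub_self, mul_zero]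
        refine Finset.sum_eq_zero fun a _ => ?_
        rw [hA, mul_zero, add_zero, if_neg (not_not.2 rfl), if_neg hB, mul_zero]
      · unfold ic5
        rw [if_neg fun h => hA h.1, sub_zero, mul_one,
          Finset.sum_congr rfl fun a _ => by rw [if_pos hA, mul_one], Finset.sum_const,
          Finset.card_univ, nsmul_eq_mul, sq]
    · unfold ic5
      rw [if_neg fun h => hD h.2.2.1, sub_zero, mul_one]
      have h2 : ∀ a b : K, (if z.D + (a + b) * z.C ≠ 0 then (1 : ℤ) else
          if z.B + a * (z.A + z.D - 2 * z.e) + b * z.A + a * b * z.C = 0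
            then (Fintype.card K : ℤ) else 0) = 1 := by
        intro a b
        rw [if_pos]
        rw [hC, mul_zero, add_zero]
        exact hD
      rw [Finset.sum_congr rfl fun a _ => Finset.sum_congr rfl fun b _ => h2 a b]
      simp only [Finset.sum_const, Finset.card_univ, nsmul_eq_mul, mul_one]
      rw [sq]
  · unfold ic5
    rw [if_neg fun h => hC h.2.1, sub_zero, mul_one]
    have h2 : ∀ a : K, ∑ b : K, (if z.D + (a + b) * z.C ≠ 0 then (1 : ℤ) else
        if z.B + a * (z.A + z.D - 2 * z.e) + b * z.A + a * b * z.C = 0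
          then (Fintype.card K : ℤ) else 0) =
        (Fintype.card K - 1) + if a = -z.e / z.C then (Fintype.card K : ℤ) else 0 := by
      intro a
      have hb0 : z.D + (a + (-(z.D + a * z.C) / z.C)) * z.C = 0 := by
        field_simp
        ring
      rw [← Finset.add_sum_erase _ _ (Finset.mem_univ (-(z.D + a * z.C) / z.C)),
        if_neg (not_not.2 hb0), add_comm]
      congr 1
      · rw [Finset.sum_congr rfl (g := fun _ => (1 : ℤ))]
        · rw [Finset.sum_const, Finset.card_erase_of_mem (Finset.mem_univ _), Finset.card_univ,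
            nsmul_eq_mul, mul_one, Nat.cast_sub Fintype.card_pos]
          simp
        · intro b hb
          rw [if_pos]
          intro h
          apply (Finset.mem_erase.1 hb).1
          rw [eq_div_iff hC]
          linear_combination h
      · have h3 : (z.B + a * (z.A + z.D - 2 * z.e) + (-(z.D + a * z.C) / z.C) * z.A +
            a * (-(z.D + a * z.C) / z.C) * z.C) * z.C = -(a * z.C + z.e) ^ 2 := by
          field_simp
          linear_combination -hq
        by_cases ha : a = -z.e / z.C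
        · rw [if_pos ha, if_pos]
          have h4 : a * z.C + z.e = 0 := by
            rw [ha]
            field_simp
            ring
          rw [h4] at h3
          have h5 : (z.B + a * (z.A + z.D - 2 * z.e) + (-(z.D + a * z.C) / z.C) * z.A +
            a * (-(z.D + a * z.C) / z.C) * z.C) * z.C = 0 := by rw [h3]; ring
          exact (mul_eq_zero.1 h5).resolve_right hC
        · rw [if_neg ha, if_neg]
          intro h4
          rw [h4, zero_mul] at h3
          have h5 : (a * z.C + z.e) ^ 2 = 0 := by linear_combination h3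
          have h6 : a * z.C + z.e = 0 := (pow_eq_zero_iff two_ne_zero).1 h5
          apply ha
          rw [eq_div_iff hC]
          linear_combination h6
    rw [Finset.sum_congr rfl fun a _ => h2 a, Finset.sum_add_distrib, Finset.sum_const,
      Finset.card_univ, nsmul_eq_mul, Finset.sum_ite_eq' Finset.univ, if_pos (Finset.mem_univ _)]
    ring

private theorem k3_line (h2 : (2 : K) ≠ 0) (g1 g2 g3 d : K) (hd : g1 ^ 2 + 4 * g2 * g3 = d ^ 2)
    (hg : g2 ≠ 0) (c : K) :
    (open Classical in ∑ p : K, if g2 * p ^ 2 - g1 * p * c - g3 * c ^ 2 = 0 then (1 : ℤ) else 0) =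
      open Classical in if d * c = 0 then 1 else 2 := by
  classical
  have h4 : (2 : K) * g2 ≠ 0 := mul_ne_zero h2 hg
  have key : ∀ p : K, g2 * p ^ 2 - g1 * p * c - g3 * c ^ 2 = 0 ↔
      p = (g1 + d) * c / (2 * g2) ∨ p = (g1 - d) * c / (2 * g2) := by
    intro p
    have h5 : (2 * g2 * p - (g1 + d) * c) * (2 * g2 * p - (g1 - d) * c) =
        4 * g2 * (g2 * p ^ 2 - g1 * p * c - g3 * c ^ 2) := by
      linear_combination c ^ 2 * hd
    constructor
    · intro h
      rw [h, mul_zero, mul_eq_zero] at h5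
      rcases h5 with h5 | h5
      · left
        rw [eq_div_iff h4]
        linear_combination h5
      · right
        rw [eq_div_iff h4]
        linear_combination h5
    · intro h
      have h6 : (2 * g2 * p - (g1 + d) * c) * (2 * g2 * p - (g1 - d) * c) = 0 := by
        rcases h with h | h
        · rw [eq_div_iff h4] at h
          rw [show 2 * g2 * p - (g1 + d) * c = 0 by linear_combination h, zero_mul]
        · rw [eq_div_iff h4] at h
          rw [show 2 * g2 * p - (g1 - d) * c = 0 by linear_combination h, mul_zero]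
      rw [h5] at h6
      have h7 : (4 : K) * g2 ≠ 0 := by
        have : (4 : K) = 2 * 2 := by norm_num
        rw [this]
        exact mul_ne_zero (mul_ne_zero h2 h2) hg
      exact (mul_eq_zero.1 h6).resolve_left h7
  rw [Finset.sum_congr rfl fun p _ => if_congr (key p) rfl rfl]
  by_cases hdc : d * c = 0
  · rw [if_pos hdc]
    have h5 : (g1 - d) * c / (2 * g2) = (g1 + d) * c / (2 * g2) := by
      congr 1
      linear_combination -2 * hdc
    rw [h5, Finset.sum_eq_single ((g1 + d) * c / (2 * g2))]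
    · rw [if_pos (Or.inl rfl)]
    · intro p _ hp
      rw [if_neg]
      rintro (h | h) <;> exact hp h
    · intro h
      exact absurd (Finset.mem_univ _) h
  · rw [if_neg hdc]
    have hne : (g1 + d) * c / (2 * g2) ≠ (g1 - d) * c / (2 * g2) := by
      intro h
      rw [div_left_inj' h4] at h
      have h6 : (2 : K) * (d * c) = 0 := by linear_combination h
      exact (mul_ne_zero h2 hdc) h6
    have h6 : ∀ p : K, (if p = (g1 + d) * c / (2 * g2) ∨ p = (g1 - d) * c / (2 * g2)
        then (1 : ℤ) else 0) = (if p = (g1 + d) * c / (2 * g2) then (1 : ℤ) else 0) +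
          (if p = (g1 - d) * c / (2 * g2) then (1 : ℤ) else 0) := by
      intro p
      by_cases h7 : p = (g1 + d) * c / (2 * g2)
      · rw [if_pos (Or.inl h7), if_pos h7, if_neg, add_zero]
        rw [h7]
        exact hne
      · by_cases h8 : p = (g1 - d) * c / (2 * g2)
        · rw [if_pos (Or.inr h8), if_neg h7, if_pos h8, zero_add]
        · rw [if_neg (by rintro (h | h) <;> contradiction), if_neg h7, if_neg h8, add_zero]
    rw [Finset.sum_congr rfl fun p _ => h6 p, Finset.sum_add_distrib,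
      Finset.sum_ite_eq' Finset.univ, Finset.sum_ite_eq' Finset.univ,
      if_pos (Finset.mem_univ _), if_pos (Finset.mem_univ _)]
    norm_num

private theorem k3_sum (d : K) :
    (open Classical in ∑ c : K, if d * c = 0 then (1 : ℤ) else 2) =
      open Classical in if d = 0 then (Fintype.card K : ℤ) else 2 * Fintype.card K - 1 := by
  classical
  by_cases hd : d = 0
  · rw [if_pos hd, Finset.sum_congr rfl fun c _ => if_pos (by rw [hd, zero_mul]),
      Finset.sum_const, Finset.card_univ, nsmul_eq_mul, mul_one]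
  · rw [if_neg hd, ← Finset.add_sum_erase _ _ (Finset.mem_univ (0 : K)),
      if_pos (mul_zero d), Finset.sum_congr rfl (g := fun _ => (2 : ℤ))]
    · rw [Finset.sum_const, Finset.card_erase_of_mem (Finset.mem_univ _), Finset.card_univ,
        nsmul_eq_mul, Nat.cast_sub Fintype.card_pos]
      push_cast
      ring
    · intro c hc
      rw [if_neg]
      exact mul_ne_zero hd (Finset.mem_erase.1 hc).1

private theorem k3_g2 (h2 : (2 : K) ≠ 0) (g1 g2 g3 d : K) (hd : g1 ^ 2 + 4 * g2 * g3 = d ^ 2)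
    (hg : g2 ≠ 0) :
    (open Classical in ∑ p : K, ∑ b : K, ∑ c : K,
      if p ^ 2 + b * c = 0 ∧ g1 * p + g2 * b + g3 * c = 0 then (1 : ℤ) else 0) =
      open Classical in if d = 0 then (Fintype.card K : ℤ) else 2 * Fintype.card K - 1 := by
  classical
  rw [← k3_sum, Finset.sum_congr rfl fun p _ => Finset.sum_comm, Finset.sum_comm]
  refine Finset.sum_congr rfl fun c _ => ?_
  rw [← k3_line h2 g1 g2 g3 d hd hg c]
  refine Finset.sum_congr rfl fun p _ => ?_
  rw [Finset.sum_eq_single (-(g1 * p + g3 * c) / g2)]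
  · have h5 : g1 * p + g2 * (-(g1 * p + g3 * c) / g2) + g3 * c = 0 := by
      field_simp
      ring
    have h6 : (p ^ 2 + -(g1 * p + g3 * c) / g2 * c) * g2 =
        g2 * p ^ 2 - g1 * p * c - g3 * c ^ 2 := by
      field_simp
      ring
    refine if_congr ⟨fun h => ?_, fun h => ⟨?_, h5⟩⟩ rfl rfl
    · rw [← h6, h.1, zero_mul]
    · rw [← h6] at h
      exact (mul_eq_zero.1 h).resolve_right hg
  · intro b _ hb
    rw [if_neg]
    intro h
    apply hb
    rw [eq_div_iff hg]
    linear_combination h.2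
  · intro h
    exact absurd (Finset.mem_univ _) h

private theorem k3_g3 (h2 : (2 : K) ≠ 0) (g1 g2 g3 d : K) (hd : g1 ^ 2 + 4 * g2 * g3 = d ^ 2)
    (hg : g3 ≠ 0) :
    (open Classical in ∑ p : K, ∑ b : K, ∑ c : K,
      if p ^ 2 + b * c = 0 ∧ g1 * p + g2 * b + g3 * c = 0 then (1 : ℤ) else 0) =
      open Classical in if d = 0 then (Fintype.card K : ℤ) else 2 * Fintype.card K - 1 := by
  classical
  rw [← k3_g2 h2 g1 g3 g2 d (by linear_combination hd) hg]
  refine Finset.sum_congr rfl fun p _ => ?_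
  rw [Finset.sum_comm]
  refine Finset.sum_congr rfl fun c _ => Finset.sum_congr rfl fun b _ => ?_
  refine if_congr ⟨fun h => ⟨?_, ?_⟩, fun h => ⟨?_, ?_⟩⟩ rfl rfl
  · linear_combination h.1
  · linear_combination h.2
  · linear_combination h.1
  · linear_combination h.2

/-- MODULE K3: a plane and the cone `p ^ 2 + b c = 0`, the discriminant is a nonzero square.
Proof. `g ≠ 0`. If `g2 = g3 = 0`: `g1 ≠ 0`, so `p = 0`, `b c = 0`: `2 q - 1` points. If `g2 ≠ 0` (the case `g3 ≠ 0` is the same): put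
`b = -(g1 p + g3 c) / g2`: the equation becomes `g2 p ^ 2 - g1 p c - g3 c ^ 2 = 0`, the product of the linear forms
`(2 g2 p - (g1 + d) c) (2 g2 p - (g1 - d) c) / (4 g2)`: two different lines: `2 q - 1` points `(p, c)`. -/
theorem cnt_cone (h2 : (2 : K) ≠ 0) (g1 g2 g3 d : K) (hd : g1 ^ 2 + 4 * g2 * g3 = d ^ 2) (hd0 : d ≠ 0) :
    (open Classical in ∑ p : K, ∑ b : K, ∑ c : K,
      if p ^ 2 + b * c = 0 ∧ g1 * p + g2 * b + g3 * c = 0 then (1 : ℤ) else 0) =
        2 * Fintype.card K - 1 := by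
  classical
  by_cases hg2 : g2 = 0
  · by_cases hg3 : g3 = 0
    · have hg1 : g1 ≠ 0 := by
        intro h
        apply hd0
        have h5 : d ^ 2 = 0 := by rw [← hd, h, hg2]; ring
        exact (pow_eq_zero_iff two_ne_zero).1 h5
      subst hg2
      subst hg3
      rw [Finset.sum_eq_single 0]
      · have h5 : ∀ b c : K, (if (0 : K) ^ 2 + b * c = 0 ∧ g1 * 0 + 0 * b + 0 * c = 0
            then (1 : ℤ) else 0) = if b * c = 0 then 1 else 0 := by
          intro b c
          refine if_congr ⟨fun h => ?_, fun h => ⟨?_, ?_⟩⟩ rfl rfl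
          · linear_combination h.1
          · linear_combination h
          · ring
        rw [Finset.sum_congr rfl fun b _ => Finset.sum_congr rfl fun c _ => h5 b c,
          ← Finset.add_sum_erase _ _ (Finset.mem_univ (0 : K)),
          Finset.sum_congr rfl fun c _ => if_pos (zero_mul c)]
        have h6 : ∀ b ∈ Finset.univ.erase (0 : K), ∑ c : K, (if b * c = 0 then (1 : ℤ) else 0) =
            1 := by
          intro b hb
          rw [Finset.sum_eq_single 0]
          · rw [if_pos (mul_zero b)]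
          · intro c _ hc
            rw [if_neg]
            exact mul_ne_zero (Finset.mem_erase.1 hb).1 hc
          · intro h
            exact absurd (Finset.mem_univ _) h
        rw [Finset.sum_congr rfl h6, Finset.sum_const, Finset.sum_const,
          Finset.card_erase_of_mem (Finset.mem_univ _), Finset.card_univ, nsmul_eq_mul,
          nsmul_eq_mul, Nat.cast_sub Fintype.card_pos]
        push_cast
        ring
      · intro p _ hp
        refine Finset.sum_eq_zero fun b _ => Finset.sum_eq_zero fun c _ => ?_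
        rw [if_neg]
        intro h
        have h5 : g1 * p = 0 := by linear_combination h.2
        exact (mul_ne_zero hg1 hp) h5
      · intro h
        exact absurd (Finset.mem_univ _) h
    · rw [k3_g3 h2 g1 g2 g3 d hd hg3, if_neg hd0]
  · rw [k3_g2 h2 g1 g2 g3 d hd hg2, if_neg hd0]

/-- MODULE K3: the discriminant is zero and the plane is not everything: one line. -/
theorem cnt_cone0 (h2 : (2 : K) ≠ 0) (g1 g2 g3 : K) (hd : g1 ^ 2 + 4 * g2 * g3 = 0)
    (hg : ¬ (g1 = 0 ∧ g2 = 0 ∧ g3 = 0)) :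
    (open Classical in ∑ p : K, ∑ b : K, ∑ c : K,
      if p ^ 2 + b * c = 0 ∧ g1 * p + g2 * b + g3 * c = 0 then (1 : ℤ) else 0) = Fintype.card K := by
  classical
  have hd' : g1 ^ 2 + 4 * g2 * g3 = 0 ^ 2 := by rw [hd]; ring
  by_cases hg2 : g2 = 0
  · by_cases hg3 : g3 = 0
    · exfalso
      apply hg
      refine ⟨?_, hg2, hg3⟩
      have h5 : g1 ^ 2 = 0 := by rw [← hd, hg2]; ring
      exact (pow_eq_zero_iff two_ne_zero).1 h5
    · rw [k3_g3 h2 g1 g2 g3 0 hd' hg3, if_pos rfl]
  · rw [k3_g2 h2 g1 g2 g3 0 hd' hg2, if_pos rfl]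

/-- MODULE K4: the whole cone has `q ^ 2` points. -/
theorem cnt_cone_all : (open Classical in ∑ p : K, ∑ b : K, ∑ c : K,
      if p ^ 2 + b * c = 0 then (1 : ℤ) else 0) = (Fintype.card K : ℤ) ^ 2 := by
  classical
  rw [Finset.sum_comm]
  have h1 : ∀ b : K, ∑ p : K, ∑ c : K, (if p ^ 2 + b * c = 0 then (1 : ℤ) else 0) =
      Fintype.card K := by
    intro b
    have h2 : ∀ p : K, ∑ c : K, (if p ^ 2 + b * c = 0 then (1 : ℤ) else 0) =
        if b ≠ 0 then 1 else if p ^ 2 = 0 then (Fintype.card K : ℤ) else 0 := by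
      intro p
      rw [← cnt_lin]
      refine Finset.sum_congr rfl fun c _ => ?_
      rw [mul_comm b c]
    rw [Finset.sum_congr rfl fun p _ => h2 p]
    by_cases hb : b = 0
    · rw [Finset.sum_congr rfl fun p _ => if_neg (not_not.2 hb), Finset.sum_eq_single 0]
      · rw [if_pos (by ring)]
      · intro p _ hp
        rw [if_neg (pow_ne_zero 2 hp)]
      · intro h
        exact absurd (Finset.mem_univ _) h
    · rw [Finset.sum_congr rfl fun p _ => if_pos hb, Finset.sum_const, Finset.card_univ,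
        nsmul_eq_mul, mul_one]
  rw [Finset.sum_congr rfl fun b _ => h1 b, Finset.sum_const, Finset.card_univ, nsmul_eq_mul, sq]

/-- MODULE K5: the points of `U` in coordinates: `A + D = 2 e` means `A = e + p`, `D = e - p` with
`p ^ 2 + B C = 0`. Proof: `Q5.sum_eq`, the quadric, reindexing `A = e + p`; for given `e, A` there is one `D`. -/
theorem sum_U (g : Q5 K → ℤ) (h2 : (2 : K) ≠ 0) :
    (open Classical in ∑ z : Q5 K, if z.On ∧ z.A + z.D = 2 * z.e then g z else 0) =
    open Classical in ∑ e : K, ∑ p : K, ∑ b : K, ∑ c : K,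
      if p ^ 2 + b * c = 0 ∧ ¬ (e = 0 ∧ p = 0 ∧ b = 0 ∧ c = 0) then g ⟨e + p, b, c, e - p, e⟩ else 0 := by
  classical
  have h3 : (∑ e : K, ∑ p : K, ∑ b : K, ∑ c : K,
      if p ^ 2 + b * c = 0 ∧ ¬ (e = 0 ∧ p = 0 ∧ b = 0 ∧ c = 0) then g ⟨e + p, b, c, e - p, e⟩
        else 0) = ∑ x : K × K × K × K, if x.2.1 ^ 2 + x.2.2.1 * x.2.2.2 = 0 ∧
          ¬ (x.1 = 0 ∧ x.2.1 = 0 ∧ x.2.2.1 = 0 ∧ x.2.2.2 = 0) then
            g ⟨x.1 + x.2.1, x.2.2.1, x.2.2.2, x.1 - x.2.1, x.1⟩ else 0 := by
    simp only [Fintype.sum_prod_type]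
  rw [h3]
  symm
  refine Fintype.sum_of_injective (fun x : K × K × K × K =>
    (⟨x.1 + x.2.1, x.2.2.1, x.2.2.2, x.1 - x.2.1, x.1⟩ : Q5 K)) ?_ _ _ ?_ ?_
  · rintro ⟨e, p, b, c⟩ ⟨e', p', b', c'⟩ h
    simp only [Q5.mk.injEq] at h
    obtain ⟨h4, h5, h6, -, h7⟩ := h
    subst h7
    rw [add_right_inj] at h4
    rw [h4, h5, h6]
  · intro z hz
    rw [if_neg]
    rintro ⟨_, h4⟩
    apply hz
    refine ⟨(z.e, z.A - z.e, z.B, z.C), ?_⟩
    ext
    · show z.e + (z.A - z.e) = z.A
      ring
    · rfl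
    · rfl
    · show z.e - (z.A - z.e) = z.D
      linear_combination -h4
    · rfl
  · rintro ⟨e, p, b, c⟩
    refine if_congr ⟨fun h => ⟨⟨fun h4 => h.2 ?_, ?_⟩, ?_⟩, fun h => ⟨?_, fun h4 => h.1.nz ?_⟩⟩ rfl rfl
    · have h5 : e = 0 := h4.2.2.2.2
      have h6 : e + p = 0 := h4.1
      exact ⟨h5, by linear_combination h6 - h5, h4.2.1, h4.2.2.1⟩
    · have h5 : p ^ 2 + b * c = 0 := h.1
      show (e + p) * (e - p) - b * c = e ^ 2
      linear_combination -h5
    · show e + p + (e - p) = 2 * e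
      ring
    · have h5 : (e + p) * (e - p) - b * c = e ^ 2 := h.1.quad
      show p ^ 2 + b * c = 0
      linear_combination -h5
    · obtain ⟨h5, h6, h7, h8⟩ := h4
      have h5' : e = 0 := h5
      have h6' : p = 0 := h6
      refine ⟨?_, h7, h8, ?_, h5⟩
      · show e + p = 0
        rw [h5', h6', add_zero]
      · show e - p = 0
        rw [h5', h6', sub_zero]

private theorem k6_split (X : K → K → K → K → Prop) (h0 : X 0 0 0 0) :
    (open Classical in ∑ e : K, ∑ p : K, ∑ b : K, ∑ c : K,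
      if p ^ 2 + b * c = 0 ∧ ¬ (e = 0 ∧ p = 0 ∧ b = 0 ∧ c = 0) then
        (if X e p b c then (1 : ℤ) else 0) else 0) =
    (open Classical in ∑ p : K, ∑ b : K, ∑ c : K,
      if p ^ 2 + b * c = 0 then (∑ e : K, if X e p b c then (1 : ℤ) else 0) else 0) - 1 := by
  classical
  have h1 : ∑ e : K, ∑ p : K, ∑ b : K, ∑ c : K,
      (if e = 0 ∧ p = 0 ∧ b = 0 ∧ c = 0 then (1 : ℤ) else 0) = 1 := by
    rw [Finset.sum_eq_single 0]
    · rw [Finset.sum_eq_single 0]
      · rw [Finset.sum_eq_single 0]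
        · rw [Finset.sum_eq_single 0]
          · rw [if_pos ⟨rfl, rfl, rfl, rfl⟩]
          · intro c _ hc
            rw [if_neg fun h => hc h.2.2.2]
          · intro h
            exact absurd (Finset.mem_univ _) h
        · intro b _ hb
          exact Finset.sum_eq_zero fun c _ => if_neg fun h => hb h.2.2.1
        · intro h
          exact absurd (Finset.mem_univ _) h
      · intro p _ hp
        exact Finset.sum_eq_zero fun b _ => Finset.sum_eq_zero fun c _ => if_neg fun h => hp h.2.1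
      · intro h
        exact absurd (Finset.mem_univ _) h
    · intro e _ he
      exact Finset.sum_eq_zero fun p _ => Finset.sum_eq_zero fun b _ =>
        Finset.sum_eq_zero fun c _ => if_neg fun h => he h.1
    · intro h
      exact absurd (Finset.mem_univ _) h
  have h2 : ∀ e p b c : K, (if p ^ 2 + b * c = 0 ∧ ¬ (e = 0 ∧ p = 0 ∧ b = 0 ∧ c = 0) then
      (if X e p b c then (1 : ℤ) else 0) else 0) =
      (if p ^ 2 + b * c = 0 then (if X e p b c then (1 : ℤ) else 0) else 0) -
        (if e = 0 ∧ p = 0 ∧ b = 0 ∧ c = 0 then (1 : ℤ) else 0) := by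
    intro e p b c
    by_cases h3 : e = 0 ∧ p = 0 ∧ b = 0 ∧ c = 0
    · rw [if_neg fun h => h.2 h3, if_pos h3]
      obtain ⟨rfl, rfl, rfl, rfl⟩ := h3
      rw [if_pos (by ring), if_pos h0, sub_self]
    · rw [if_neg h3, sub_zero]
      by_cases h4 : p ^ 2 + b * c = 0
      · rw [if_pos ⟨h4, h3⟩, if_pos h4]
      · rw [if_neg fun h => h4 h.1, if_neg h4]
  rw [Finset.sum_congr rfl fun e _ => Finset.sum_congr rfl fun p _ => Finset.sum_congr rfl
    fun b _ => Finset.sum_congr rfl fun c _ => h2 e p b c]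
  simp only [Finset.sum_sub_distrib]
  rw [h1]
  congr 1
  rw [Finset.sum_comm]
  refine Finset.sum_congr rfl fun p _ => ?_
  rw [Finset.sum_comm]
  refine Finset.sum_congr rfl fun b _ => ?_
  rw [Finset.sum_comm]
  refine Finset.sum_congr rfl fun c _ => ?_
  by_cases h4 : p ^ 2 + b * c = 0
  · simp only [if_pos h4]
  · simp only [if_neg h4, Finset.sum_const_zero]

/-- the left side of the main count -/
private theorem k6_main (h2 : (2 : K) ≠ 0) (ρ : K) (w : Q5 K) :
    (open Classical in ∑ z : Q5 K, if z.On ∧ z.A + z.D = 2 * z.e then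
      (if Lam ρ (z.mul w) = 0 then (1 : ℤ) else 0) else 0) =
    (open Classical in ∑ p : K, ∑ b : K, ∑ c : K,
      if p ^ 2 + b * c = 0 then
        (if Lam ρ w ≠ 0 then (1 : ℤ) else if (ρ * w.A - w.D) * p + (ρ * w.C) * b + w.B * c = 0
          then (Fintype.card K : ℤ) else 0) else 0) - 1 := by
  classical
  rw [sum_U (fun z => if Lam ρ (z.mul w) = 0 then (1 : ℤ) else 0) h2]
  have h3 : ∀ e p b c : K, Lam ρ ((⟨e + p, b, c, e - p, e⟩ : Q5 K).mul w) =
      ((ρ * w.A - w.D) * p + (ρ * w.C) * b + w.B * c) + e * Lam ρ w := by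
    intro e p b c
    simp only [Lam, Q5.mul]
    ring
  simp only [h3]
  rw [k6_split (fun e p b c => ((ρ * w.A - w.D) * p + (ρ * w.C) * b + w.B * c) +
    e * Lam ρ w = 0) (by ring)]
  congr 1
  refine Finset.sum_congr rfl fun p _ => Finset.sum_congr rfl fun b _ =>
    Finset.sum_congr rfl fun c _ => ?_
  rw [cnt_lin]

/-- MODULE K6: MAIN COUNT, `ρ ≠ 0, 1`. For `w` on the quadric the number of `z ∈ U` with `Λ_ρ (z w) = 0` (the `z` with
`z w = 0` are counted) is `q ^ 2 - 1`, plus `q (q - 1)` if `Λ_ρ w = 0` and `e_w ≠ 0`. Proof. Use `sum_U`; write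
`w = (A', B', C', D', e')`, `z = (e + p, b, c, e - p, e)`:
`Λ_ρ (z w) = e Λ_ρ w + G`, `G = p (ρ A' - D') + b ρ C' + c B'`. If `Λ_ρ w ≠ 0`: `e` is determined by `(p, b, c)`, and `(0, 0, 0)` gives
`e = 0`, excluded: `q ^ 2 - 1` (`cnt_cone_all`). If `Λ_ρ w = 0`: `e` is free, the number is
`q #{(p, b, c) on the cone with G = 0} - 1`; the discriminant of `G` is
`(ρ A' - D') ^ 2 + 4 ρ B' C' = (ρ A' - D') ^ 2 + 4 ρ (A' D' - e' ^ 2) = (ρ A' + D') ^ 2 - 4 ρ e' ^ 2`, and `Λ_ρ w = 0` says
`D' + ρ A' = (1 + ρ) e'`, so it is `((1 + ρ) ^ 2 - 4 ρ) e' ^ 2 = ((1 - ρ) e') ^ 2`. If `e' ≠ 0`: `cnt_cone` gives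
`q (2 q - 1) - 1`. If `e' = 0`: `G ≠ 0` (otherwise `ρ A' = D' = - ρ A'` and `B' = C' = 0`, so `w = 0` as `2 ≠ 0`), `cnt_cone0` gives
`q ^ 2 - 1`. -/
theorem cnt_U (h2 : (2 : K) ≠ 0) {ρ : K} (h0 : ρ ≠ 0) (h1 : ρ ≠ 1) {w : Q5 K} (hw : w.On) :
    (open Classical in ∑ z : Q5 K, if z.On ∧ z.A + z.D = 2 * z.e then
      (if Lam ρ (z.mul w) = 0 then (1 : ℤ) else 0) else 0) =
    (Fintype.card K : ℤ) ^ 2 - 1 +
      Fintype.card K * (Fintype.card K - 1) * ic5 (fun w : Q5 K => Lam ρ w = 0 ∧ w.e ≠ 0) w := by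
  classical
  rw [k6_main h2]
  by_cases hL : Lam ρ w = 0
  · have hsum : ∑ p : K, ∑ b : K, ∑ c : K, (if p ^ 2 + b * c = 0 then
        (if Lam ρ w ≠ 0 then (1 : ℤ) else if (ρ * w.A - w.D) * p + (ρ * w.C) * b + w.B * c = 0
          then (Fintype.card K : ℤ) else 0) else 0) =
        Fintype.card K * ∑ p : K, ∑ b : K, ∑ c : K,
          if p ^ 2 + b * c = 0 ∧ (ρ * w.A - w.D) * p + (ρ * w.C) * b + w.B * c = 0
            then (1 : ℤ) else 0 := by
      simp only [Finset.mul_sum]
      refine Finset.sum_congr rfl fun p _ => Finset.sum_congr rfl fun b _ =>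
        Finset.sum_congr rfl fun c _ => ?_
      rw [if_neg (not_not.2 hL)]
      by_cases h4 : p ^ 2 + b * c = 0
      · by_cases h5 : (ρ * w.A - w.D) * p + (ρ * w.C) * b + w.B * c = 0
        · rw [if_pos h4, if_pos h5, if_pos ⟨h4, h5⟩, mul_one]
        · rw [if_pos h4, if_neg h5, if_neg fun h => h5 h.2, mul_zero]
      · rw [if_neg h4, if_neg fun h => h4 h.1, mul_zero]
    rw [hsum]
    have hdisc : (ρ * w.A - w.D) ^ 2 + 4 * (ρ * w.C) * w.B = ((1 - ρ) * w.e) ^ 2 := by
      have h5 : w.D + ρ * w.A = (1 + ρ) * w.e := by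
        unfold Lam at hL
        linear_combination hL
      linear_combination (-4 * ρ) * hw.quad + (w.D + ρ * w.A + (1 + ρ) * w.e) * h5
    by_cases he : w.e = 0
    · have hG : ¬ (ρ * w.A - w.D = 0 ∧ ρ * w.C = 0 ∧ w.B = 0) := by
        rintro ⟨h5, h6, h7⟩
        have h8 : w.D + ρ * w.A = 0 := by
          unfold Lam at hL
          linear_combination hL + (1 + ρ) * he
        have h9 : 2 * w.D = 0 := by linear_combination h8 - h5
        have h10 : w.D = 0 := (mul_eq_zero.1 h9).resolve_left h2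
        have h11 : ρ * w.A = 0 := by linear_combination h8 - h10
        exact hw.nz ⟨(mul_eq_zero.1 h11).resolve_left h0, h7,
          (mul_eq_zero.1 h6).resolve_left h0, h10, he⟩
      rw [cnt_cone0 h2 _ _ _ (by rw [hdisc, he]; ring) hG]
      unfold ic5
      rw [if_neg fun h => h.2 he]
      ring
    · rw [cnt_cone h2 _ _ _ _ hdisc (mul_ne_zero (sub_ne_zero.2 (Ne.symm h1)) he)]
      unfold ic5
      rw [if_pos ⟨hL, he⟩]
      ring
  · have hsum : ∑ p : K, ∑ b : K, ∑ c : K, (if p ^ 2 + b * c = 0 then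
        (if Lam ρ w ≠ 0 then (1 : ℤ) else if (ρ * w.A - w.D) * p + (ρ * w.C) * b + w.B * c = 0
          then (Fintype.card K : ℤ) else 0) else 0) = (Fintype.card K : ℤ) ^ 2 := by
      rw [← cnt_cone_all]
      refine Finset.sum_congr rfl fun p _ => Finset.sum_congr rfl fun b _ =>
        Finset.sum_congr rfl fun c _ => ?_
      rw [if_pos hL]
    rw [hsum]
    unfold ic5
    rw [if_neg fun h => hL h.1]
    ring

private theorem k7_Lam (w : Q5 K) (e p b c : K) :
    Lam 1 ((⟨e + p, b, c, e - p, e⟩ : Q5 K).mul w) =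
      (p * (w.A - w.D) + b * w.C + c * w.B) + e * (w.A + w.D - 2 * w.e) := by
  simp only [Lam, Q5.mul]; ring

open Classical in
private theorem k7_single (g : K → K → K → K → ℤ) :
    ∑ e : K, ∑ p : K, ∑ b : K, ∑ c : K,
      (if e = 0 ∧ p = 0 ∧ b = 0 ∧ c = 0 then g e p b c else 0) = g 0 0 0 0 := by
  rw [Finset.sum_eq_single (0 : K)]
  · rw [Finset.sum_eq_single (0 : K)]
    · rw [Finset.sum_eq_single (0 : K)]
      · rw [Finset.sum_eq_single (0 : K)]
        · simp
        · intro c _ hc; simp [hc]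
        · intro h; exact absurd (Finset.mem_univ _) h
      · intro b _ hb; exact Finset.sum_eq_zero fun c _ => by simp [hb]
      · intro h; exact absurd (Finset.mem_univ _) h
    · intro p _ hp
      exact Finset.sum_eq_zero fun b _ => Finset.sum_eq_zero fun c _ => by simp [hp]
    · intro h; exact absurd (Finset.mem_univ _) h
  · intro e _ he
    exact Finset.sum_eq_zero fun p _ => Finset.sum_eq_zero fun b _ =>
      Finset.sum_eq_zero fun c _ => by simp [he]
  · intro h; exact absurd (Finset.mem_univ _) h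

open Classical in
private theorem k7_sub (g : K → K → K → K → ℤ) :
    ∑ e : K, ∑ p : K, ∑ b : K, ∑ c : K,
      (if p ^ 2 + b * c = 0 ∧ ¬ (e = 0 ∧ p = 0 ∧ b = 0 ∧ c = 0) then g e p b c else 0) =
    ∑ e : K, ∑ p : K, ∑ b : K, ∑ c : K, (if p ^ 2 + b * c = 0 then g e p b c else 0) - g 0 0 0 0 := by
  rw [← k7_single g]
  simp only [← Finset.sum_sub_distrib]
  refine Finset.sum_congr rfl fun e _ => Finset.sum_congr rfl fun p _ =>
    Finset.sum_congr rfl fun b _ => Finset.sum_congr rfl fun c _ => ?_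
  by_cases h : e = 0 ∧ p = 0 ∧ b = 0 ∧ c = 0
  · obtain ⟨h1, h2, h3, h4⟩ := h
    subst h1 h2 h3 h4
    simp
  · simp [h]

open Classical in
private theorem k7_swap (g : K → K → K → K → ℤ) :
    ∑ e : K, ∑ p : K, ∑ b : K, ∑ c : K, (if p ^ 2 + b * c = 0 then g e p b c else 0) =
    ∑ p : K, ∑ b : K, ∑ c : K, (if p ^ 2 + b * c = 0 then ∑ e : K, g e p b c else 0) := by
  rw [Finset.sum_comm]
  refine Finset.sum_congr rfl fun p _ => ?_
  rw [Finset.sum_comm]
  refine Finset.sum_congr rfl fun b _ => ?_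
  rw [Finset.sum_comm]
  refine Finset.sum_congr rfl fun c _ => ?_
  by_cases h : p ^ 2 + b * c = 0
  · simp [h]
  · simp [h]

open Classical in
private theorem k7_lin (a b : K) (hb : b ≠ 0) :
    (∑ t : K, if a + t * b = 0 then (1 : ℤ) else 0) = 1 := by
  rw [Finset.sum_eq_single (-a / b)]
  · rw [if_pos]
    field_simp
    ring
  · intro t _ ht
    rw [if_neg]
    intro h
    apply ht
    field_simp
    linear_combination h
  · intro h; exact absurd (Finset.mem_univ _) h

/-- MODULE K7: MAIN COUNT, `ρ = 1`: `q ^ 2 - 1`, plus `q ^ 3 - q ^ 2` if `w = (e, 0, 0, e, e)`. Proof as in K6: the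
discriminant is `0`; `G = 0` iff `A' = D'`, `B' = C' = 0`, and then `Λ_1 w = A' + D' - 2 e' = 0` gives `A' = e'`. If
`Λ_1 w = 0` and `G ≠ 0`: `q ^ 2 - 1`; if `G = 0`: `q q ^ 2 - 1`. -/
theorem cnt_U1 (h2 : (2 : K) ≠ 0) {w : Q5 K} (hw : w.On) :
    (open Classical in ∑ z : Q5 K, if z.On ∧ z.A + z.D = 2 * z.e then
      (if Lam 1 (z.mul w) = 0 then (1 : ℤ) else 0) else 0) =
    (Fintype.card K : ℤ) ^ 2 - 1 + ((Fintype.card K : ℤ) ^ 3 - (Fintype.card K : ℤ) ^ 2) *
      ic5 (fun w : Q5 K => w.A = w.e ∧ w.B = 0 ∧ w.C = 0 ∧ w.D = w.e) w := by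
  classical
  rw [k6_main h2]
  by_cases hL : Lam 1 w = 0
  · have hsum : ∑ p : K, ∑ b : K, ∑ c : K, (if p ^ 2 + b * c = 0 then
        (if Lam 1 w ≠ 0 then (1 : ℤ) else if (1 * w.A - w.D) * p + (1 * w.C) * b + w.B * c = 0
          then (Fintype.card K : ℤ) else 0) else 0) =
        Fintype.card K * ∑ p : K, ∑ b : K, ∑ c : K,
          if p ^ 2 + b * c = 0 ∧ (1 * w.A - w.D) * p + (1 * w.C) * b + w.B * c = 0
            then (1 : ℤ) else 0 := by
      simp only [Finset.mul_sum]
      refine Finset.sum_congr rfl fun p _ => Finset.sum_congr rfl fun b _ =>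
        Finset.sum_congr rfl fun c _ => ?_
      rw [if_neg (not_not.2 hL)]
      by_cases h4 : p ^ 2 + b * c = 0
      · by_cases h5 : (1 * w.A - w.D) * p + (1 * w.C) * b + w.B * c = 0
        · rw [if_pos h4, if_pos h5, if_pos ⟨h4, h5⟩, mul_one]
        · rw [if_pos h4, if_neg h5, if_neg fun h => h5 h.2, mul_zero]
      · rw [if_neg h4, if_neg fun h => h4 h.1, mul_zero]
    rw [hsum]
    have hL' : w.D + w.A = 2 * w.e := by
      unfold Lam at hL
      linear_combination hL
    by_cases hG : 1 * w.A - w.D = 0 ∧ 1 * w.C = 0 ∧ w.B = 0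
    · obtain ⟨h5, h6, h7⟩ := hG
      have h8 : 2 * (w.A - w.e) = 0 := by linear_combination hL' + h5
      have h9 : w.A - w.e = 0 := (mul_eq_zero.1 h8).resolve_left h2
      have h10 : w.A = w.e ∧ w.B = 0 ∧ w.C = 0 ∧ w.D = w.e :=
        ⟨by linear_combination h9, h7, by linear_combination h6,
          by linear_combination h9 - h5⟩
      have hcone : ∑ p : K, ∑ b : K, ∑ c : K, (if p ^ 2 + b * c = 0 ∧
          (1 * w.A - w.D) * p + (1 * w.C) * b + w.B * c = 0 then (1 : ℤ) else 0) =
          (Fintype.card K : ℤ) ^ 2 := by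
        rw [← cnt_cone_all]
        refine Finset.sum_congr rfl fun p _ => Finset.sum_congr rfl fun b _ =>
          Finset.sum_congr rfl fun c _ => ?_
        refine if_congr ⟨fun h => h.1, fun h => ⟨h, ?_⟩⟩ rfl rfl
        rw [h5, h6, h7]
        ring
      rw [hcone]
      unfold ic5
      rw [if_pos h10]
      ring
    · have hdisc : (1 * w.A - w.D) ^ 2 + 4 * (1 * w.C) * w.B = 0 := by
        linear_combination (-4 : K) * hw.quad + (w.D + w.A + 2 * w.e) * hL'
      rw [cnt_cone0 h2 _ _ _ hdisc hG]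
      unfold ic5
      rw [if_neg]
      · ring
      · rintro ⟨h5, h6, h7, h8⟩
        exact hG ⟨by linear_combination h5 - h8, by linear_combination h7, h6⟩
  · have hsum : ∑ p : K, ∑ b : K, ∑ c : K, (if p ^ 2 + b * c = 0 then
        (if Lam 1 w ≠ 0 then (1 : ℤ) else if (1 * w.A - w.D) * p + (1 * w.C) * b + w.B * c = 0
          then (Fintype.card K : ℤ) else 0) else 0) = (Fintype.card K : ℤ) ^ 2 := by
      rw [← cnt_cone_all]
      refine Finset.sum_congr rfl fun p _ => Finset.sum_congr rfl fun b _ =>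
        Finset.sum_congr rfl fun c _ => ?_
      rw [if_pos hL]
    rw [hsum]
    unfold ic5
    rw [if_neg]
    · ring
    · rintro ⟨h5, h6, h7, h8⟩
      apply hL
      unfold Lam
      rw [h5, h8]
      ring

/-- MODULE K8: the number of elements of `U`: `q ^ 3 - 1` (`sum_U`, `cnt_cone_all`). -/
theorem card_U (h2 : (2 : K) ≠ 0) :
    (open Classical in ∑ z : Q5 K, if z.On ∧ z.A + z.D = 2 * z.e then (1 : ℤ) else 0) =
      (Fintype.card K : ℤ) ^ 3 - 1 := by
  classical
  rw [sum_U (fun _ => 1) h2]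
  have h3 := k6_split (K := K) (fun _ _ _ _ => True) trivial
  simp only [if_true, Finset.sum_const, Finset.card_univ, nsmul_eq_mul, mul_one] at h3
  rw [h3]
  have h4 : ∑ p : K, ∑ b : K, ∑ c : K, (if p ^ 2 + b * c = 0 then (Fintype.card K : ℤ) else 0) =
      Fintype.card K * ∑ p : K, ∑ b : K, ∑ c : K, if p ^ 2 + b * c = 0 then (1 : ℤ) else 0 := by
    simp only [Finset.mul_sum, mul_ite, mul_one, mul_zero]
  rw [h4, cnt_cone_all]
  ring

/-- The points of the transformer of ratio `ρ`. -/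
def inT (ρ : K) (z : Q5 K) : Prop := z.B = 0 ∧ z.A ≠ 0 ∧ z.e = ρ * z.A

/-- MODULE K9: for `ρ ≠ 0, 1` exactly one resistance in front of the ground makes `z` a transformer of ratio
`ρ` if `Λ_ρ z = 0` and `A ≠ e`, and none otherwise. Proof. (⇐) `σ = A + D - 2 e = (1 - ρ) (A - e) ≠ 0`, so `B + r σ = 0` for
exactly one `r`. Let `A' = A + r C`, `D' = D + r C`, `e' = e + r C`, `α = A - e = A' - e'`, `D' - e' = - ρ α`; the quadric for
`s2 r z` is `A' D' = e' ^ 2`, so `(e' + α) (e' - ρ α) = e' ^ 2`, `(1 - ρ) e' = ρ α`, so `ρ A' - e' = ρ α - (1 - ρ) e' = 0`, and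
`A' ≠ 0` (otherwise `e' = 0`, `α = 0`). (⇒) `B' = 0`, `e' = ρ A'`, `A' ≠ 0` give `D' = ρ ^ 2 A'`, and
`Λ_ρ z = D' - e' + ρ (A' - e') = 0`, `A - e = A' - e' = (1 - ρ) A' ≠ 0`. -/
theorem cnt_T (h2 : (2 : K) ≠ 0) {ρ : K} (h0 : ρ ≠ 0) (h1 : ρ ≠ 1) {z : Q5 K} (hz : z.On) :
    ∑ r : K, ic5 (inT ρ) (z.s2 r) = ic5 (fun z : Q5 K => Lam ρ z = 0 ∧ z.A ≠ z.e) z := by
  classical
  have hρ1 : (1 : K) - ρ ≠ 0 := sub_ne_zero.2 (Ne.symm h1)
  have hin : ∀ r : K, inT ρ (z.s2 r) ↔ z.B + r * (z.A + z.D - 2 * z.e) = 0 ∧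
      z.A + r * z.C ≠ 0 ∧ z.e + r * z.C = ρ * (z.A + r * z.C) := fun r => Iff.rfl
  have hquad : ∀ r : K, (z.A + r * z.C) * (z.D + r * z.C) -
      (z.B + r * (z.A + z.D - 2 * z.e)) * z.C = (z.e + r * z.C) ^ 2 := by
    intro r
    linear_combination hz.quad
  by_cases h3 : Lam ρ z = 0 ∧ z.A ≠ z.e
  · obtain ⟨hL, hA⟩ := h3
    have hα : z.A - z.e ≠ 0 := sub_ne_zero.2 hA
    have hL' : z.D - z.e + ρ * (z.A - z.e) = 0 := hL
    have hσ : z.A + z.D - 2 * z.e = (1 - ρ) * (z.A - z.e) := by linear_combination hL'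
    have hσ0 : z.A + z.D - 2 * z.e ≠ 0 := by
      rw [hσ]
      exact mul_ne_zero hρ1 hα
    have hr : ∀ r : K, inT ρ (z.s2 r) ↔ z.B + r * (z.A + z.D - 2 * z.e) = 0 := by
      intro r
      rw [hin]
      refine ⟨fun h => h.1, fun h => ?_⟩
      have h4 := hquad r
      rw [h, zero_mul, sub_zero] at h4
      have h5 : (z.A - z.e) * ((1 - ρ) * (z.e + r * z.C) - ρ * (z.A - z.e)) = 0 := by
        linear_combination h4 - (z.A + r * z.C) * hL'
      have h6 : (1 - ρ) * (z.e + r * z.C) - ρ * (z.A - z.e) = 0 :=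
        (mul_eq_zero.1 h5).resolve_left hα
      have h7 : z.e + r * z.C = ρ * (z.A + r * z.C) := by linear_combination h6
      refine ⟨h, fun h8 => hα ?_, h7⟩
      rw [h8, mul_zero] at h7
      linear_combination h8 - h7
    have h8 : ∀ r : K, ic5 (inT ρ) (z.s2 r) =
        if z.B + r * (z.A + z.D - 2 * z.e) = 0 then (1 : ℤ) else 0 := by
      intro r
      unfold ic5
      exact if_congr (hr r) rfl rfl
    rw [Finset.sum_congr rfl fun r _ => h8 r, cnt_lin, if_pos hσ0]
    unfold ic5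
    rw [if_pos ⟨hL, hA⟩]
  · have h4 : ∀ r : K, ic5 (inT ρ) (z.s2 r) = 0 := by
      intro r
      unfold ic5
      rw [if_neg]
      intro h
      rw [hin] at h
      obtain ⟨h5, h6, h7⟩ := h
      have h8 := hquad r
      rw [h5, zero_mul, sub_zero] at h8
      have h9 : (z.A + r * z.C) * (z.D + r * z.C - ρ ^ 2 * (z.A + r * z.C)) = 0 := by
        linear_combination h8 + (z.e + r * z.C + ρ * (z.A + r * z.C)) * h7
      have h10 : z.D + r * z.C - ρ ^ 2 * (z.A + r * z.C) = 0 :=
        (mul_eq_zero.1 h9).resolve_left h6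
      apply h3
      refine ⟨?_, fun h11 => ?_⟩
      · unfold Lam
        linear_combination h10 - (1 + ρ) * h7
      · have h12 : (1 - ρ) * (z.A + r * z.C) = 0 := by linear_combination h11 + h7
        exact (mul_ne_zero hρ1 h6) h12
    rw [Finset.sum_congr rfl fun r _ => h4 r, Finset.sum_const_zero]
    unfold ic5
    rw [if_neg h3]

open Classical in
/-- The quadratic character. -/
noncomputable def chi (x : K) : ℤ := quadraticChar K x

private theorem k10_ne2 (h2 : (2 : K) ≠ 0) : ringChar K ≠ 2 := by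
  intro h
  apply h2
  have h3 : ((ringChar K : ℕ) : K) = 0 := ringChar.Nat.cast_ringChar
  rw [h] at h3
  exact_mod_cast h3

/-- MODULE K10: `quadraticChar` facts. -/
theorem chi_mul (x y : K) : chi (x * y) = chi x * chi y := by
  classical
  exact map_mul (quadraticChar K) x y

/-- MODULE K10. -/
theorem chi_zero : chi (0 : K) = 0 := by
  classical
  exact MulChar.map_zero (quadraticChar K)

/-- MODULE K10. -/
theorem chi_sq {x : K} (hx : x ≠ 0) : chi (x ^ 2) = 1 := by
  classical
  exact quadraticChar_sq_one' hx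

/-- MODULE K10. -/
theorem chi_mul_self {x : K} (hx : x ≠ 0) : chi x * chi x = 1 := by
  rw [← chi_mul, ← sq]
  exact chi_sq hx

/-- MODULE K10: `quadraticChar_sum_zero`. -/
theorem chi_sum (h2 : (2 : K) ≠ 0) : ∑ x : K, chi x = 0 := by
  classical
  exact quadraticChar_sum_zero (k10_ne2 h2)

/-- MODULE K10: `quadraticChar_card_sqrts`. -/
theorem chi_roots (h2 : (2 : K) ≠ 0) (x : K) :
    (open Classical in ∑ t : K, if t ^ 2 = x then (1 : ℤ) else 0) = chi x + 1 := by
  classical
  have h := quadraticChar_card_sqrts (k10_ne2 h2) x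
  unfold chi
  rw [← h, Finset.sum_boole]
  norm_cast
  congr 1
  ext t
  simp

/-- MODULE K11: Proof. `α ≠ β`: for `x ≠ β`, `chi ((x - α) (x - β)) = chi (1 + (β - α) / (x - β))` (divide by
`(x - β) ^ 2`), and `y = 1 + (β - α) / (x - β)` runs over all `y ≠ 1`: the sum is `0 - chi 1 = -1`. `α = β`: `q - 1`. -/
theorem chi_quad (h2 : (2 : K) ≠ 0) (α β : K) :
    ∑ x : K, chi ((x - α) * (x - β)) = open Classical in if α = β then (Fintype.card K : ℤ) - 1 else -1 := by
  classical
  split_ifs with h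
  · subst h
    have h0 : ∀ x : K, chi ((x - α) * (x - α)) = 1 - (if x = α then 1 else 0) := by
      intro x
      split_ifs with hx
      · subst hx; simp [chi_zero]
      · rw [← sq, chi_sq (sub_ne_zero.2 hx)]; rfl
    simp only [h0, Finset.sum_sub_distrib, Finset.sum_ite_eq', Finset.mem_univ, if_true,
      Finset.sum_const, Finset.card_univ, nsmul_eq_mul, mul_one]
  · have hne : β - α ≠ 0 := sub_ne_zero.2 (Ne.symm h)
    let e : K ≃ K := ((Equiv.inv K).trans (Equiv.mulLeft₀ (β - α) hne)).trans (Equiv.addLeft β)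
    have he : ∀ y : K, e y = β + (β - α) * y⁻¹ := fun y => rfl
    rw [← Equiv.sum_comp e]
    have h0 : ∀ y : K, chi ((e y - α) * (e y - β)) = chi (1 + y) - (if y = 0 then 1 else 0) := by
      intro y
      rw [he]
      split_ifs with hy
      · subst hy
        have h1 : chi (1 + 0 : K) = 1 := by
          have := chi_sq (one_ne_zero : (1 : K) ≠ 0)
          simpa using this
        rw [h1]
        simp [chi_zero]
      · have e1 : (β + (β - α) * y⁻¹ - α) * (β + (β - α) * y⁻¹ - β) = (1 + y) * ((β - α) * y⁻¹) ^ 2 := by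
          field_simp
          ring
        rw [e1, chi_mul, chi_sq (mul_ne_zero hne (inv_ne_zero hy))]
        ring
    simp only [h0, Finset.sum_sub_distrib, Finset.sum_ite_eq', Finset.mem_univ, if_true]
    have h1 : ∑ y : K, chi (1 + y) = 0 := by
      rw [← chi_sum h2]
      exact Equiv.sum_comp (Equiv.addLeft (1 : K)) chi
    rw [h1]
    rfl

/-- MODULE K12: the conic: `q - chi (κ ^ 2 + 4 κ)` points. Proof. `b = 0` iff `p = 0` at the point `(0, 0)`: if `b = 0` then
`p = 0`. For `b ≠ 0` put `p = θ b`: `b (θ ^ 2 + κ θ - κ) = - κ`: one `b ≠ 0` for each `θ` with `θ ^ 2 + κ θ - κ ≠ 0`, and the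
number of the other `θ` is `chi (κ ^ 2 + 4 κ) + 1` (`chi_roots`, `(2 θ + κ) ^ 2 = κ ^ 2 + 4 κ`). Total `1 + q - (chi + 1)`. -/
theorem cnt_conic (h2 : (2 : K) ≠ 0) {κ : K} (hκ : κ ≠ 0) :
    (open Classical in ∑ p : K, ∑ b : K,
      if p ^ 2 + κ * b + κ * p * b - κ * b ^ 2 = 0 then (1 : ℤ) else 0) =
        Fintype.card K - chi (κ ^ 2 + 4 * κ) := by
  classical
  rw [Finset.sum_comm]
  have h0 : ∀ b : K, (∑ p : K, if p ^ 2 + κ * b + κ * p * b - κ * b ^ 2 = 0 then (1 : ℤ) else 0) =
      (if b = 0 then 1 else 0) + ∑ θ : K, if b * (θ ^ 2 + κ * θ - κ) = - κ then (1 : ℤ) else 0 := by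
    intro b
    by_cases hb : b = 0
    · subst hb
      have h1 : ∀ p : K, (if p ^ 2 + κ * 0 + κ * p * 0 - κ * 0 ^ 2 = 0 then (1 : ℤ) else 0) =
          if p = 0 then 1 else 0 := by
        intro p
        congr 1
        simp
      have h3 : ∀ θ : K, (if 0 * (θ ^ 2 + κ * θ - κ) = - κ then (1 : ℤ) else 0) = 0 := by
        intro θ
        rw [if_neg]
        rw [zero_mul]
        intro h
        exact hκ (neg_eq_zero.1 h.symm)
      simp only [h1, h3]
      simp
    · rw [if_neg hb, zero_add]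
      rw [← Equiv.sum_comp (Equiv.mulRight₀ b hb)]
      refine Finset.sum_congr rfl fun θ _ => ?_
      have e1 : ((Equiv.mulRight₀ b hb) θ) = θ * b := rfl
      rw [e1]
      have e2 : (θ * b) ^ 2 + κ * b + κ * (θ * b) * b - κ * b ^ 2 = 0 ↔
          b * (θ ^ 2 + κ * θ - κ) = - κ := by
        constructor
        · intro h
          have h4 : b * (b * (θ ^ 2 + κ * θ - κ) + κ) = 0 := by linear_combination h
          rcases mul_eq_zero.1 h4 with h5 | h5
          · exact absurd h5 hb
          · linear_combination h5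
        · intro h
          linear_combination b * h
      simp only [e2]
  simp only [h0, Finset.sum_add_distrib, Finset.sum_ite_eq', Finset.mem_univ, if_true]
  rw [Finset.sum_comm]
  have h3 : ∀ θ : K, (∑ b : K, if b * (θ ^ 2 + κ * θ - κ) = - κ then (1 : ℤ) else 0) =
      1 - (if θ ^ 2 + κ * θ - κ = 0 then 1 else 0) := by
    intro θ
    split_ifs with hθ
    · rw [hθ]
      have : ∀ b : K, ¬ (b * 0 = - κ) := by
        intro b h
        rw [mul_zero] at h
        exact hκ (neg_eq_zero.1 h.symm)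
      rw [Finset.sum_congr rfl fun b _ => if_neg (this b)]
      simp
    · have : ∀ b : K, (b * (θ ^ 2 + κ * θ - κ) = - κ) ↔ b = - κ / (θ ^ 2 + κ * θ - κ) := by
        intro b
        rw [eq_div_iff hθ]
      simp only [this]
      simp
  simp only [h3, Finset.sum_sub_distrib, Finset.sum_const, Finset.card_univ, nsmul_eq_mul, mul_one]
  have h4 : (∑ θ : K, if θ ^ 2 + κ * θ - κ = 0 then (1 : ℤ) else 0) = chi (κ ^ 2 + 4 * κ) + 1 := by
    rw [← chi_roots h2]
    rw [← Equiv.sum_comp ((Equiv.mulLeft₀ 2 h2).trans (Equiv.addRight κ))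
      (fun t : K => if t ^ 2 = κ ^ 2 + 4 * κ then (1 : ℤ) else 0)]
    refine Finset.sum_congr rfl fun θ _ => ?_
    have e1 : (((Equiv.mulLeft₀ 2 h2).trans (Equiv.addRight κ)) θ) = 2 * θ + κ := rfl
    rw [e1]
    have e2 : θ ^ 2 + κ * θ - κ = 0 ↔ (2 * θ + κ) ^ 2 = κ ^ 2 + 4 * κ := by
      constructor
      · intro h
        linear_combination 4 * h
      · intro h
        have h5 : (2 * 2) * (θ ^ 2 + κ * θ - κ) = 0 := by linear_combination h
        rcases mul_eq_zero.1 h5 with h6 | h6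
        · exact absurd h6 (mul_ne_zero h2 h2)
        · exact h6
    simp only [e2]
  rw [h4]
  ring

/-- MODULE K13: pairs of unipotent matrices `1 + N`, `1 + N'` whose product has the diagonal entries `1`, `1 + κ`.
Proof. Put `B = (1 + p) b' + b (1 - p')`, `C = c (1 + p') + (1 - p) c'` (the other two entries of the product `h`, which has
determinant `1`, so `B C = κ`). For fixed `(p, b, c)` the map `(p', b', c') ↦ (B, C)` is a bijection from the
solutions to the pairs with `B C = κ`, `b C + c B = κ (1 + p)`; the inverse is given by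
`1 + N' = (1 - N) h`: `p' = - p - b C`, `b' = (1 - p) B - b (1 + κ)`, `c' = - c + (1 + p) C`. Now exchange the sums: for each
of the `q - 1` values `B ≠ 0`, `C = κ / B`, put `b = B b1`, `c = c1 / B`: the conditions are `c1 = κ (1 + p - b1)` and
`p ^ 2 + κ b1 + κ p b1 - κ b1 ^ 2 = 0` (`cnt_conic`). -/
theorem cnt_NN (h2 : (2 : K) ≠ 0) {κ : K} (hκ : κ ≠ 0) :
    (open Classical in ∑ p : K, ∑ b : K, ∑ c : K, ∑ p' : K, ∑ b' : K, ∑ c' : K,
      if (p ^ 2 + b * c = 0 ∧ p' ^ 2 + b' * c' = 0) ∧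
        ((1 + p) * (1 + p') + b * c' = 1 ∧ c * b' + (1 - p) * (1 - p') = 1 + κ) then (1 : ℤ) else 0) =
      (Fintype.card K - 1) * (Fintype.card K - chi (κ ^ 2 + 4 * κ)) := by
  classical
  rw [← cnt_conic h2 hκ]
  have hL : (∑ p : K, ∑ b : K, ∑ c : K, ∑ p' : K, ∑ b' : K, ∑ c' : K,
      if (p ^ 2 + b * c = 0 ∧ p' ^ 2 + b' * c' = 0) ∧
        ((1 + p) * (1 + p') + b * c' = 1 ∧ c * b' + (1 - p) * (1 - p') = 1 + κ) then (1 : ℤ) else 0) =
      ∑ x : K × K × K × K × K × K, if (x.1 ^ 2 + x.2.1 * x.2.2.1 = 0 ∧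
        x.2.2.2.1 ^ 2 + x.2.2.2.2.1 * x.2.2.2.2.2 = 0) ∧
        ((1 + x.1) * (1 + x.2.2.2.1) + x.2.1 * x.2.2.2.2.2 = 1 ∧
          x.2.2.1 * x.2.2.2.2.1 + (1 - x.1) * (1 - x.2.2.2.1) = 1 + κ) then (1 : ℤ) else 0 := by
    simp only [Fintype.sum_prod_type]
  have hR : ((Fintype.card K : ℤ) - 1) * (∑ p : K, ∑ b : K,
      if p ^ 2 + κ * b + κ * p * b - κ * b ^ 2 = 0 then (1 : ℤ) else 0) =
      ∑ y : K × K × K, if y.1 ≠ 0 ∧ y.2.1 ^ 2 + κ * y.2.2 + κ * y.2.1 * y.2.2 - κ * y.2.2 ^ 2 = 0
        then (1 : ℤ) else 0 := by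
    have e0 : ((Fintype.card K : ℤ) - 1) = ∑ B : K, if B ≠ 0 then (1 : ℤ) else 0 := by
      have h1 : ∀ B : K, (if B ≠ 0 then (1 : ℤ) else 0) = 1 - (if B = 0 then 1 else 0) := by
        intro B
        by_cases hB : B = 0 <;> simp [hB]
      simp only [h1, Finset.sum_sub_distrib, Finset.sum_ite_eq', Finset.mem_univ, if_true,
        Finset.sum_const, Finset.card_univ, nsmul_eq_mul, mul_one]
    rw [e0, Finset.sum_mul]
    simp only [Fintype.sum_prod_type]
    refine Finset.sum_congr rfl fun B _ => ?_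
    rw [Finset.mul_sum]
    refine Finset.sum_congr rfl fun p _ => ?_
    rw [Finset.mul_sum]
    refine Finset.sum_congr rfl fun b _ => ?_
    by_cases hB : B = 0
    · simp [hB]
    · simp [hB]
  rw [hL, hR, Finset.sum_boole, Finset.sum_boole]
  congr 1
  refine Finset.card_bij'
    (fun x _ => ((1 + x.1) * x.2.2.2.2.1 + x.2.1 * (1 - x.2.2.2.1), x.1,
      x.2.1 / ((1 + x.1) * x.2.2.2.2.1 + x.2.1 * (1 - x.2.2.2.1))))
    (fun y _ => (y.2.1, y.1 * y.2.2, κ * (1 + y.2.1 - y.2.2) / y.1, - y.2.1 - κ * y.2.2,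
      y.1 * ((1 - y.2.1) - (1 + κ) * y.2.2), κ * y.2.2 / y.1)) ?_ ?_ ?_ ?_
  · rintro ⟨p, b, c, p', b', c'⟩ hx
    rw [Finset.mem_filter] at hx ⊢
    obtain ⟨-, ⟨h1, h3⟩, h4, h5⟩ := hx
    dsimp only at h1 h3 h4 h5 ⊢
    have hBC : ((1 + p) * b' + b * (1 - p')) * (c * (1 + p') + (1 - p) * c') = κ := by
      linear_combination (c * b' + (1 - p) * (1 - p')) * h4 + h5 + (1 - (p' ^ 2 + b' * c')) * h1 + h3
    have hB : (1 + p) * b' + b * (1 - p') ≠ 0 := by
      intro h
      rw [h, zero_mul] at hBC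
      exact hκ hBC.symm
    have e1 : p' = - p - b * (c * (1 + p') + (1 - p) * c') := by
      linear_combination (1 + p') * h1 + (1 - p) * h4
    have e2 : c' = - c + (1 + p) * (c * (1 + p') + (1 - p) * c') := by
      linear_combination c' * h1 - c * h4
    have e3 : b * (c * (1 + p') + (1 - p) * c') + c * ((1 + p) * b' + b * (1 - p')) = κ * (1 + p) := by
      linear_combination (1 - p') * h1 + (1 + p) * h5 + e1
    refine ⟨Finset.mem_univ _, hB, ?_⟩
    generalize (1 + p) * b' + b * (1 - p') = B at *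
    generalize c * (1 + p') + (1 - p) * c' = C at *
    have hb : κ * (b / B) = b * C := by
      field_simp
      linear_combination (-b) * hBC
    have : p ^ 2 + κ * (b / B) + κ * p * (b / B) - κ * (b / B) ^ 2 =
      p ^ 2 + b * (c * B) / B := by
      have : c * B = κ * (1 + p) - b * C := by linear_combination e3
      rw [this]
      field_simp
      linear_combination b ^ 2 * hBC
    rw [this]
    field_simp
    exact h1
  · rintro ⟨B, p, b⟩ hy
    rw [Finset.mem_filter] at hy ⊢
    obtain ⟨-, hB, h1⟩ := hy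
    dsimp only at hB h1 ⊢
    refine ⟨Finset.mem_univ _, ⟨?_, ?_⟩, ?_, ?_⟩
    · field_simp
      linear_combination h1
    · field_simp
      linear_combination h1
    · field_simp
      linear_combination (-1) * h1
    · field_simp
      linear_combination (-(1 + κ)) * h1
  · rintro ⟨p, b, c, p', b', c'⟩ hx
    rw [Finset.mem_filter] at hx
    obtain ⟨-, ⟨h1, h3⟩, h4, h5⟩ := hx
    dsimp only at h1 h3 h4 h5 ⊢
    have hBC : ((1 + p) * b' + b * (1 - p')) * (c * (1 + p') + (1 - p) * c') = κ := by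
      linear_combination (c * b' + (1 - p) * (1 - p')) * h4 + h5 + (1 - (p' ^ 2 + b' * c')) * h1 + h3
    have hB : (1 + p) * b' + b * (1 - p') ≠ 0 := by
      intro h
      rw [h, zero_mul] at hBC
      exact hκ hBC.symm
    have e1 : p' = - p - b * (c * (1 + p') + (1 - p) * c') := by
      linear_combination (1 + p') * h1 + (1 - p) * h4
    have e2 : c' = - c + (1 + p) * (c * (1 + p') + (1 - p) * c') := by
      linear_combination c' * h1 - c * h4
    have e3 : b * (c * (1 + p') + (1 - p) * c') + c * ((1 + p) * b' + b * (1 - p')) = κ * (1 + p) := by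
      linear_combination (1 - p') * h1 + (1 + p) * h5 + e1
    have e4 : b' = (1 - p) * ((1 + p) * b' + b * (1 - p')) - b * (1 + κ) := by
      linear_combination b' * h1 - b * h5
    generalize (1 + p) * b' + b * (1 - p') = B at *
    generalize c * (1 + p') + (1 - p) * c' = C at *
    have hb : κ * (b / B) = b * C := by
      field_simp
      linear_combination (-b) * hBC
    refine Prod.ext rfl (Prod.ext ?_ (Prod.ext ?_ (Prod.ext ?_ (Prod.ext ?_ ?_))))
    · dsimp only
      field_simp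
    · dsimp only
      rw [mul_sub, hb]
      field_simp
      linear_combination (-1) * e3
    · dsimp only
      rw [hb]
      exact e1.symm
    · dsimp only
      rw [e4]
      field_simp
    · dsimp only
      rw [hb, e2]
      field_simp
      have hC : C = κ / B := by
        field_simp
        linear_combination hBC
      linear_combination e3 - (1 + p) * hBC
  · rintro ⟨B, p, b⟩ hy
    rw [Finset.mem_filter] at hy
    obtain ⟨-, hB, h1⟩ := hy
    dsimp only at hB h1 ⊢
    have e1 : (1 + p) * (B * ((1 - p) - (1 + κ) * b)) + B * b * (1 - (- p - κ * b)) = B := by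
      linear_combination (-B) * h1
    rw [e1]
    refine Prod.ext rfl (Prod.ext rfl ?_)
    dsimp only
    field_simp

private theorem K14_scale (e : K) (he : e ≠ 0) (g : K → K → K → ℤ) :
    ∑ p : K, ∑ b : K, ∑ c : K, g p b c = ∑ p : K, ∑ b : K, ∑ c : K, g (e * p) (e * b) (e * c) := by
  have h := fun f : K → ℤ => Equiv.sum_comp (Equiv.mulLeft₀ e he) f
  rw [← h]
  refine Finset.sum_congr rfl fun p _ => ?_
  rw [← h]
  refine Finset.sum_congr rfl fun b _ => ?_
  rw [← h]
  rfl

/-- MODULE K14: the value which produces the character. Proof. The condition on `m = z w` gives `m.e ≠ 0`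
(otherwise `m.D = m.e`), so `z.e ≠ 0`, `w.e ≠ 0` and the product is not zero. With `z.e = e`, `w.e = e'`, `sum_U` and the
substitution `(p, b, c) ↦ (e p, e b, e c)` the sum is `(q - 1) ^ 2` times the sum of `cnt_NN` for `κ = - 1 / ρ`
(`m.A = m.e` is the first condition, `m.D - m.e = κ m.e` the second), and
`κ ^ 2 + 4 κ = (1 - 4 ρ) / ρ ^ 2`, `chi (κ ^ 2 + 4 κ) = chi (1 - 4 ρ)`. -/
theorem cnt_UU (h2 : (2 : K) ≠ 0) {ρ : K} (h0 : ρ ≠ 0) :
    (open Classical in ∑ z : Q5 K, if z.On ∧ z.A + z.D = 2 * z.e then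
      (∑ w : Q5 K, if w.On ∧ w.A + w.D = 2 * w.e then
        ic5 (fun w => z.MulNz w) w *
          ic5 (fun m : Q5 K => m.A = m.e ∧ m.e + ρ * (m.D - m.e) = 0 ∧ m.D ≠ m.e) (z.mul w)
        else 0) else 0) =
      (Fintype.card K - 1) ^ 3 * (Fintype.card K - chi (1 - 4 * ρ)) := by
  classical
  have hκ : -(1 / ρ) ≠ 0 := neg_ne_zero.2 (div_ne_zero one_ne_zero h0)
  have hcount := cnt_NN h2 hκ
  have hchi : chi ((-(1 / ρ)) ^ 2 + 4 * (-(1 / ρ))) = chi (1 - 4 * ρ) := by
    have : (-(1 / ρ)) ^ 2 + 4 * (-(1 / ρ)) = (1 - 4 * ρ) * (ρ⁻¹) ^ 2 := by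
      field_simp
      ring
    rw [this, chi_mul, chi_sq (inv_ne_zero h0), mul_one]
  rw [hchi] at hcount
  rw [sum_U _ h2]
  have hin : ∀ e p b c : K, (if p ^ 2 + b * c = 0 ∧ ¬ (e = 0 ∧ p = 0 ∧ b = 0 ∧ c = 0) then
      (∑ w : Q5 K, if w.On ∧ w.A + w.D = 2 * w.e then
        ic5 (fun w => (⟨e + p, b, c, e - p, e⟩ : Q5 K).MulNz w) w *
          ic5 (fun m : Q5 K => m.A = m.e ∧ m.e + ρ * (m.D - m.e) = 0 ∧ m.D ≠ m.e)
            ((⟨e + p, b, c, e - p, e⟩ : Q5 K).mul w)
        else 0) else 0) = ∑ e' : K, ∑ p' : K, ∑ b' : K, ∑ c' : K,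
      (if e ≠ 0 ∧ e' ≠ 0 ∧ (p ^ 2 + b * c = 0 ∧ p' ^ 2 + b' * c' = 0) ∧
        ((e + p) * (e' + p') + b * c' = e * e' ∧
          c * b' + (e - p) * (e' - p') = (1 + -(1 / ρ)) * (e * e')) then (1 : ℤ) else 0) := by
    intro e p b c
    by_cases hc : p ^ 2 + b * c = 0 ∧ ¬ (e = 0 ∧ p = 0 ∧ b = 0 ∧ c = 0)
    · rw [if_pos hc, sum_U _ h2]
      refine Finset.sum_congr rfl fun e' _ => Finset.sum_congr rfl fun p' _ =>
        Finset.sum_congr rfl fun b' _ => Finset.sum_congr rfl fun c' _ => ?_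
      by_cases hX : e ≠ 0 ∧ e' ≠ 0 ∧ (p ^ 2 + b * c = 0 ∧ p' ^ 2 + b' * c' = 0) ∧
        ((e + p) * (e' + p') + b * c' = e * e' ∧
          c * b' + (e - p) * (e' - p') = (1 + -(1 / ρ)) * (e * e'))
      · rw [if_pos hX]
        obtain ⟨x1, x2, ⟨x3, x4⟩, x5, x6⟩ := hX
        have hee : e * e' ≠ 0 := mul_ne_zero x1 x2
        rw [if_pos ⟨x4, fun k => x2 k.1⟩]
        have y1 : (⟨e + p, b, c, e - p, e⟩ : Q5 K).MulNz (⟨e' + p', b', c', e' - p', e'⟩ : Q5 K) :=
          fun k => hee k.2.2.2.2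
        have y2 : (fun m : Q5 K => m.A = m.e ∧ m.e + ρ * (m.D - m.e) = 0 ∧ m.D ≠ m.e)
            ((⟨e + p, b, c, e - p, e⟩ : Q5 K).mul (⟨e' + p', b', c', e' - p', e'⟩ : Q5 K)) := by
          refine ⟨?_, ?_, ?_⟩ <;> simp only [Q5.mul]
          · exact x5
          · rw [x6]
            field_simp
            ring
          · rw [x6]
            intro k
            have : (-(1 / ρ)) * (e * e') = 0 := by linear_combination k
            exact mul_ne_zero hκ hee this
        rw [ic5, ic5, if_pos y1, if_pos y2, mul_one]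
      · rw [if_neg hX]
        by_cases hY : p' ^ 2 + b' * c' = 0 ∧ ¬ (e' = 0 ∧ p' = 0 ∧ b' = 0 ∧ c' = 0)
        · rw [if_pos hY]
          have y2 : ¬ (fun m : Q5 K => m.A = m.e ∧ m.e + ρ * (m.D - m.e) = 0 ∧ m.D ≠ m.e)
            ((⟨e + p, b, c, e - p, e⟩ : Q5 K).mul (⟨e' + p', b', c', e' - p', e'⟩ : Q5 K)) := by
            rintro ⟨k1, k2, k3⟩
            simp only [Q5.mul] at k1 k2 k3
            apply hX
            have hee : e * e' ≠ 0 := by
              intro h
              rw [h] at k2 k3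
              have : c * b' + (e - p) * (e' - p') = 0 := by
                have : ρ * (c * b' + (e - p) * (e' - p')) = 0 := by linear_combination k2
                exact (mul_eq_zero.1 this).resolve_left h0
              exact k3 this
            refine ⟨left_ne_zero_of_mul hee, right_ne_zero_of_mul hee, ⟨hc.1, hY.1⟩, k1, ?_⟩
            field_simp
            linear_combination k2
          rw [ic5, ic5, if_neg y2, mul_zero]
        · rw [if_neg hY]
    · rw [if_neg hc]
      symm
      refine Finset.sum_eq_zero fun e' _ => Finset.sum_eq_zero fun p' _ =>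
        Finset.sum_eq_zero fun b' _ => Finset.sum_eq_zero fun c' _ => ?_
      rw [if_neg]
      rintro ⟨x1, x2, ⟨x3, x4⟩, x5, x6⟩
      exact hc ⟨x3, fun k => x1 k.1⟩
  simp only [hin]
  have hone : ∀ e : K, (∑ p : K, ∑ b : K, ∑ c : K, ∑ e' : K, ∑ p' : K, ∑ b' : K, ∑ c' : K,
      (if e ≠ 0 ∧ e' ≠ 0 ∧ (p ^ 2 + b * c = 0 ∧ p' ^ 2 + b' * c' = 0) ∧
        ((e + p) * (e' + p') + b * c' = e * e' ∧
          c * b' + (e - p) * (e' - p') = (1 + -(1 / ρ)) * (e * e')) then (1 : ℤ) else 0)) =
      (if e ≠ 0 then 1 else 0) * ((Fintype.card K - 1) * ((Fintype.card K - 1) *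
        (Fintype.card K - chi (1 - 4 * ρ)))) := by
    intro e
    by_cases he : e = 0
    · rw [if_neg (by simpa using he), zero_mul]
      refine Finset.sum_eq_zero fun p _ => Finset.sum_eq_zero fun b _ => Finset.sum_eq_zero fun c _ =>
        Finset.sum_eq_zero fun e' _ => Finset.sum_eq_zero fun p' _ =>
        Finset.sum_eq_zero fun b' _ => Finset.sum_eq_zero fun c' _ => ?_
      rw [if_neg]
      rintro ⟨x1, -⟩
      exact x1 he
    · rw [if_pos he, one_mul, K14_scale e he]
      have hs : ∀ p b c e' : K, (∑ p' : K, ∑ b' : K, ∑ c' : K,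
        (if e ≠ 0 ∧ e' ≠ 0 ∧ ((e * p) ^ 2 + (e * b) * (e * c) = 0 ∧ p' ^ 2 + b' * c' = 0) ∧
        ((e + (e * p)) * (e' + p') + (e * b) * c' = e * e' ∧
          (e * c) * b' + (e - (e * p)) * (e' - p') = (1 + -(1 / ρ)) * (e * e')) then (1 : ℤ) else 0)) =
        (if e' ≠ 0 then 1 else 0) * (∑ p' : K, ∑ b' : K, ∑ c' : K,
          if (p ^ 2 + b * c = 0 ∧ p' ^ 2 + b' * c' = 0) ∧
        ((1 + p) * (1 + p') + b * c' = 1 ∧ c * b' + (1 - p) * (1 - p') = 1 + -(1 / ρ))
          then (1 : ℤ) else 0) := by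
        intro p b c e'
        by_cases he' : e' = 0
        · rw [if_neg (by simpa using he'), zero_mul]
          refine Finset.sum_eq_zero fun p' _ =>
            Finset.sum_eq_zero fun b' _ => Finset.sum_eq_zero fun c' _ => ?_
          rw [if_neg]
          rintro ⟨-, x1, -⟩
          exact x1 he'
        · rw [if_pos he', one_mul, K14_scale e' he']
          refine Finset.sum_congr rfl fun p' _ =>
            Finset.sum_congr rfl fun b' _ => Finset.sum_congr rfl fun c' _ => ?_
          have hee : e * e' ≠ 0 := mul_ne_zero he he'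
          have cancel : ∀ t u v : K, t ≠ 0 → (t * u = t * v ↔ u = v) := fun t u v ht =>
            ⟨fun h => mul_left_cancel₀ ht h, fun h => by rw [h]⟩
          have z1 : (e * p) ^ 2 + (e * b) * (e * c) = 0 ↔ p ^ 2 + b * c = 0 := by
            rw [← cancel (e ^ 2) (p ^ 2 + b * c) 0 (pow_ne_zero 2 he)]
            constructor <;> intro h <;> linear_combination h
          have z2 : (e' * p') ^ 2 + (e' * b') * (e' * c') = 0 ↔ p' ^ 2 + b' * c' = 0 := by
            rw [← cancel (e' ^ 2) (p' ^ 2 + b' * c') 0 (pow_ne_zero 2 he')]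
            constructor <;> intro h <;> linear_combination h
          have z3 : (e + (e * p)) * (e' + e' * p') + (e * b) * (e' * c') = e * e' ↔
              (1 + p) * (1 + p') + b * c' = 1 := by
            rw [← cancel (e * e') ((1 + p) * (1 + p') + b * c') 1 hee]
            constructor <;> intro h <;> linear_combination h
          have z4 : (e * c) * (e' * b') + (e - (e * p)) * (e' - e' * p') = (1 + -(1 / ρ)) * (e * e') ↔
              c * b' + (1 - p) * (1 - p') = 1 + -(1 / ρ) := by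
            rw [← cancel (e * e') (c * b' + (1 - p) * (1 - p')) _ hee]
            constructor <;> intro h <;> linear_combination h
          simp only [z1, z2, z3, z4, ne_eq, he, he', not_false_eq_true, true_and]
      simp only [hs]
      have hcard : (∑ e' : K, if e' ≠ 0 then (1 : ℤ) else 0) = Fintype.card K - 1 := by
        have h1 : ∀ B : K, (if B ≠ 0 then (1 : ℤ) else 0) = 1 - (if B = 0 then 1 else 0) := by
          intro B
          by_cases hB : B = 0 <;> simp [hB]
        simp only [h1, Finset.sum_sub_distrib, Finset.sum_ite_eq', Finset.mem_univ, if_true,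
          Finset.sum_const, Finset.card_univ, nsmul_eq_mul, mul_one]
      rw [← hcount, ← hcard]
      simp only [← Finset.sum_mul]
      simp only [← Finset.mul_sum]
  have hswap : (∑ e : K, ∑ p : K, ∑ b : K, ∑ c : K, ∑ e' : K, ∑ p' : K, ∑ b' : K, ∑ c' : K,
      (if e ≠ 0 ∧ e' ≠ 0 ∧ (p ^ 2 + b * c = 0 ∧ p' ^ 2 + b' * c' = 0) ∧
        ((e + p) * (e' + p') + b * c' = e * e' ∧
          c * b' + (e - p) * (e' - p') = (1 + -(1 / ρ)) * (e * e')) then (1 : ℤ) else 0)) =
      ∑ e : K, (if e ≠ 0 then 1 else 0) * ((Fintype.card K - 1) * ((Fintype.card K - 1) *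
        (Fintype.card K - chi (1 - 4 * ρ)))) := Finset.sum_congr rfl fun e _ => hone e
  rw [hswap, ← Finset.sum_mul]
  have hcard : (∑ e' : K, if e' ≠ 0 then (1 : ℤ) else 0) = Fintype.card K - 1 := by
    have h1 : ∀ B : K, (if B ≠ 0 then (1 : ℤ) else 0) = 1 - (if B = 0 then 1 else 0) := by
      intro B
      by_cases hB : B = 0 <;> simp [hB]
    simp only [h1, Finset.sum_sub_distrib, Finset.sum_ite_eq', Finset.mem_univ, if_true,
      Finset.sum_const, Finset.card_univ, nsmul_eq_mul, mul_one]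
  rw [hcard]
  ring

end Pool.Agent.PLN
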