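import Pool.Agent.PLN.Clo

/-!
# Part B, definitions: states with three terminals as points of a quadric

The states of the networks with three terminals (`2` is the ground) are the points `(A, B, C, D, e)` of the
quadric `A D - B C = e ^ 2`, up to scalars: `e (v0, i0) = (A, B; C, D) (v1, - i1)`.  In the forest
polynomials: `B = 0|1|2`, `e = 01|2`, `D - e = 02|1`, `A - e = 12|0`, `C = 012`.  The cascade of two networks is
the product of the matrices.
-/

set_option autoImplicit false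

open scoped BigOperators

namespace Pool.Agent.PLN

/-- The coordinates. -/
@[ext] structure Q5 (K : Type) where
  /-- first entry of the matrix -/
  A : K
  /-- second entry -/
  B : K
  /-- third entry -/
  C : K
  /-- fourth entry -/
  D : K
  /-- the square root of the determinant -/
  e : K

namespace Q5

variable {K : Type}

/-- The coordinates as a product. -/
def eqv (K : Type) : Q5 K ≃ K × K × K × K × K where
  toFun z := (z.A, z.B, z.C, z.D, z.e)
  invFun x := ⟨x.1, x.2.1, x.2.2.1, x.2.2.2.1, x.2.2.2.2⟩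
  left_inv _ := rfl
  right_inv _ := rfl

noncomputable instance instFin [Fintype K] : Fintype (Q5 K) := Fintype.ofEquiv _ (eqv K).symm

theorem sum_eq [Fintype K] {M : Type} [AddCommMonoid M] (g : Q5 K → M) :
    ∑ z : Q5 K, g z = ∑ A : K, ∑ B : K, ∑ C : K, ∑ D : K, ∑ e : K, g ⟨A, B, C, D, e⟩ := by
  rw [← Equiv.sum_comp (eqv K).symm g]
  simp only [Fintype.sum_prod_type]
  rfl

variable [Field K]

/-- The nonzero points of the quadric. -/
structure On (z : Q5 K) : Prop where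
  nz : ¬ (z.A = 0 ∧ z.B = 0 ∧ z.C = 0 ∧ z.D = 0 ∧ z.e = 0)
  quad : z.A * z.D - z.B * z.C = z.e ^ 2

/-- Multiplication by a scalar. -/
def smul (c : K) (z : Q5 K) : Q5 K := ⟨c * z.A, c * z.B, c * z.C, c * z.D, c * z.e⟩

/-- The product. -/
def mul (z w : Q5 K) : Q5 K :=
  ⟨z.A * w.A + z.B * w.C, z.A * w.B + z.B * w.D, z.C * w.A + z.D * w.C, z.C * w.B + z.D * w.D, z.e * w.e⟩

/-- Mirror image: the terminals `0` and `1` change places. -/
def rlz (z : Q5 K) : Q5 K := ⟨z.D, z.B, z.C, z.A, z.e⟩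

/-- Forward rotation. -/
def rfz (z : Q5 K) : Q5 K := ⟨z.A + z.D - 2 * z.e, z.B, z.C, z.A, z.A - z.e⟩

/-- Backward rotation. -/
def rbz (z : Q5 K) : Q5 K := ⟨z.D, z.B, z.C, z.A + z.D - 2 * z.e, z.D - z.e⟩

/-- A conductance between `0` and `2`. -/
def e02 (t : K) (z : Q5 K) : Q5 K := ⟨z.A, z.B, z.C + t * z.A, z.D + t * z.B, z.e⟩

/-- A conductance between `1` and `2`. -/
def e12 (t : K) (z : Q5 K) : Q5 K := ⟨z.A + t * z.B, z.B, z.C + t * z.D, z.D, z.e⟩

/-- A conductance between `0` and `1`. -/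
def e01 (t : K) (z : Q5 K) : Q5 K :=
  ⟨z.A + t * z.B, z.B, z.C + t * (z.A + z.D - 2 * z.e), z.D + t * z.B, z.e + t * z.B⟩

/-- A resistance in front of `0`. -/
def s0 (r : K) (z : Q5 K) : Q5 K := ⟨z.A + r * z.C, z.B + r * z.D, z.C, z.D, z.e⟩

/-- A resistance in front of `1`. -/
def s1 (r : K) (z : Q5 K) : Q5 K := ⟨z.A, z.B + r * z.A, z.C, z.D + r * z.C, z.e⟩

/-- A resistance in front of `2`. -/
def s2 (r : K) (z : Q5 K) : Q5 K :=
  ⟨z.A + r * z.C, z.B + r * (z.A + z.D - 2 * z.e), z.C, z.D + r * z.C, z.e + r * z.C⟩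

theorem On.rlz {z : Q5 K} (h : z.On) : z.rlz.On :=
  ⟨fun k => h.nz ⟨k.2.2.2.1, k.2.1, k.2.2.1, k.1, k.2.2.2.2⟩, by
    simp only [Q5.rlz]; linear_combination h.quad⟩

theorem On.rfz {z : Q5 K} (h : z.On) : z.rfz.On := by
  refine ⟨?_, ?_⟩
  · simp only [Q5.rfz]
    rintro ⟨h1, h2, h3, h4, h5⟩
    have h6 : z.e = 0 := by linear_combination h4 - h5
    exact h.nz ⟨h4, h2, h3, by linear_combination h1 - h4 + 2 * h6, h6⟩
  · simp only [Q5.rfz]; linear_combination h.quad

theorem On.rbz {z : Q5 K} (h : z.On) : z.rbz.On := by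
  refine ⟨?_, ?_⟩
  · simp only [Q5.rbz]
    rintro ⟨h1, h2, h3, h4, h5⟩
    have h6 : z.e = 0 := by linear_combination h1 - h5
    exact h.nz ⟨by linear_combination h4 - h1 + 2 * h6, h2, h3, h1, h6⟩
  · simp only [Q5.rbz]; linear_combination h.quad

theorem On.e02 {z : Q5 K} (h : z.On) (t : K) : (z.e02 t).On := by
  refine ⟨?_, ?_⟩
  · simp only [Q5.e02]
    rintro ⟨h1, h2, h3, h4, h5⟩
    exact h.nz ⟨h1, h2, by linear_combination h3 - t * h1, by linear_combination h4 - t * h2, h5⟩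
  · simp only [Q5.e02]; linear_combination h.quad

theorem On.s0 {z : Q5 K} (h : z.On) (r : K) : (z.s0 r).On := by
  refine ⟨?_, ?_⟩
  · simp only [Q5.s0]
    rintro ⟨h1, h2, h3, h4, h5⟩
    exact h.nz ⟨by linear_combination h1 - r * h3, by linear_combination h2 - r * h4, h3, h4, h5⟩
  · simp only [Q5.s0]; linear_combination h.quad

theorem On.smul {z : Q5 K} (h : z.On) {c : K} (hc : c ≠ 0) : (z.smul c).On := by
  refine ⟨?_, ?_⟩
  · simp only [Q5.smul, mul_eq_zero, hc, false_or]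
    exact h.nz
  · simp only [Q5.smul]; linear_combination c ^ 2 * h.quad

theorem rb_rf (z : Q5 K) : z.rfz.rbz = z := by
  ext <;> simp only [Q5.rfz, Q5.rbz] <;> ring

theorem rf_rb (z : Q5 K) : z.rbz.rfz = z := by
  ext <;> simp only [Q5.rfz, Q5.rbz] <;> ring

theorem rl_rl (z : Q5 K) : z.rlz.rlz = z := rfl

theorem e12_eq (t : K) (z : Q5 K) : z.e12 t = (z.rlz.e02 t).rlz := rfl

theorem s1_eq (r : K) (z : Q5 K) : z.s1 r = (z.rlz.s0 r).rlz := rfl

theorem e01_eq (t : K) (z : Q5 K) : z.e01 t = (z.rfz.e02 t).rbz := by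
  ext <;> simp only [Q5.rfz, Q5.rbz, Q5.e02, Q5.e01] <;> ring

theorem s2_eq (r : K) (z : Q5 K) : z.s2 r = (z.rbz.s0 r).rfz := by
  ext <;> simp only [Q5.rfz, Q5.rbz, Q5.s0, Q5.s2] <;> ring

theorem On.e12 {z : Q5 K} (h : z.On) (t : K) : (z.e12 t).On := by
  rw [e12_eq]; exact (h.rlz.e02 t).rlz

theorem On.e01 {z : Q5 K} (h : z.On) (t : K) : (z.e01 t).On := by
  rw [e01_eq]; exact (h.rfz.e02 t).rbz

theorem On.s1 {z : Q5 K} (h : z.On) (r : K) : (z.s1 r).On := by
  rw [s1_eq]; exact (h.rlz.s0 r).rlz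

theorem On.s2 {z : Q5 K} (h : z.On) (r : K) : (z.s2 r).On := by
  rw [s2_eq]; exact (h.rbz.s0 r).rfz

theorem quad_mul {z w : Q5 K} (hz : z.A * z.D - z.B * z.C = z.e ^ 2)
    (hw : w.A * w.D - w.B * w.C = w.e ^ 2) :
    (z.mul w).A * (z.mul w).D - (z.mul w).B * (z.mul w).C = (z.mul w).e ^ 2 := by
  simp only [Q5.mul]
  linear_combination (w.A * w.D - w.B * w.C) * hz + z.e ^ 2 * hw

/-- The product is not zero. -/
def MulNz (z w : Q5 K) : Prop :=
  ¬ ((z.mul w).A = 0 ∧ (z.mul w).B = 0 ∧ (z.mul w).C = 0 ∧ (z.mul w).D = 0 ∧ (z.mul w).e = 0)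

theorem On.mul {z w : Q5 K} (hz : z.On) (hw : w.On) (h : z.MulNz w) : (z.mul w).On :=
  ⟨h, quad_mul hz.quad hw.quad⟩

end Q5

section

variable {K : Type} [Field K]

/-- The state with given coordinates. -/
def ch (z : Q5 K) : St 3 K where
  carrier := {x | x.2 0 + x.2 1 + x.2 2 = 0 ∧
    z.e * (x.1 0 - x.1 2) = z.A * (x.1 1 - x.1 2) - z.B * x.2 1 ∧
    z.e * x.2 0 = z.C * (x.1 1 - x.1 2) - z.D * x.2 1 ∧
    z.D * (x.1 0 - x.1 2) - z.B * x.2 0 = z.e * (x.1 1 - x.1 2) ∧
    z.A * x.2 0 - z.C * (x.1 0 - x.1 2) = - (z.e * x.2 1)}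
  add_mem' := by
    rintro a b ⟨h1, h2, h3, h4, h5⟩ ⟨k1, k2, k3, k4, k5⟩
    refine ⟨?_, ?_, ?_, ?_, ?_⟩ <;> simp only [Prod.fst_add, Prod.snd_add, Pi.add_apply]
    · linear_combination h1 + k1
    · linear_combination h2 + k2
    · linear_combination h3 + k3
    · linear_combination h4 + k4
    · linear_combination h5 + k5
  zero_mem' := by simp
  smul_mem' := by
    rintro c a ⟨h1, h2, h3, h4, h5⟩
    refine ⟨?_, ?_, ?_, ?_, ?_⟩ <;>
      simp only [Prod.smul_fst, Prod.smul_snd, Pi.smul_apply, smul_eq_mul]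
    · linear_combination c * h1
    · linear_combination c * h2
    · linear_combination c * h3
    · linear_combination c * h4
    · linear_combination c * h5

theorem mem_ch {z : Q5 K} {x : (Fin 3 → K) × (Fin 3 → K)} : x ∈ ch z ↔ x.2 0 + x.2 1 + x.2 2 = 0 ∧
    z.e * (x.1 0 - x.1 2) = z.A * (x.1 1 - x.1 2) - z.B * x.2 1 ∧
    z.e * x.2 0 = z.C * (x.1 1 - x.1 2) - z.D * x.2 1 ∧
    z.D * (x.1 0 - x.1 2) - z.B * x.2 0 = z.e * (x.1 1 - x.1 2) ∧
    z.A * x.2 0 - z.C * (x.1 0 - x.1 2) = - (z.e * x.2 1) := Iff.rfl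

/-- Homogeneous functions of the coordinates. -/
def Hom (φ : Q5 K → ℤ) : Prop := ∀ (c : K) (z : Q5 K), c ≠ 0 → φ (z.smul c) = φ z

open Classical in
/-- The function of the states given by a function of the coordinates. -/
noncomputable def lift (φ : Q5 K → ℤ) (L : St 3 K) : ℤ :=
  if h : ∃ z : Q5 K, z.On ∧ L = ch z then φ h.choose else 0

open Classical in
/-- The indicator function of a condition on the coordinates. -/
noncomputable def ic5 (P : Q5 K → Prop) (z : Q5 K) : ℤ := if P z then 1 else 0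

/-- The cascade of two states. -/
def casS (L M : St 3 K) : St 3 K :=
  rf (n := 2) (mg (n := 2) (cl (n := 4) (wd (n := 2) (m := 2) (rf (n := 2) L) M)))

/-- The cascade is regular. -/
def casR (L M : St 3 K) : Prop :=
  clR (n := 4) (wd (n := 2) (m := 2) (rf (n := 2) L) M) ∧
    mgR (n := 2) (cl (n := 4) (wd (n := 2) (m := 2) (rf (n := 2) L) M))

end

/-- The cascade of two families. -/
noncomputable def Fam.cas (ν μ : Fam 3) : Fam 3 :=
  Fam.rf (n := 2) (Fam.mg (n := 2) (Fam.cl (n := 4) (Fam.wd (n := 2) (m := 2) (Fam.rf (n := 2) ν) μ)))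

/-- The family of the points of the quadric with weights (each point is counted `q - 1` times). -/
noncomputable def cs (w : (F : FF) → Q5 F.K → ℤ) : Fam 3 :=
  fun F f => open Classical in ∑ z : Q5 F.K, if z.On then w F z * f (ch z) else 0

/-- A family which consists of one state. -/
def one5 (z : (F : FF) → Q5 F.K) : Fam 3 := fun F f => f (ch (z F))

/-- The transformers: `v1 = ρ v0`, with a free shunt and the weight `w ρ`. -/
noncomputable def TT (w : (F : FF) → F.K → ℤ) : Fam 3 :=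
  fun F f => open Classical in
    ∑ ρ : F.K, if ρ = 0 then 0 else w F ρ * ∑ s : F.K, f (ch ⟨1, 0, s, ρ ^ 2, ρ⟩)

/-- The good weights. -/
def GW (w : (F : FF) → F.K → ℤ) : Prop := GG 3 (TT w)

/-- The values of the good families at `φ` are scalars. -/
def SP (φ : (F : FF) → Q5 F.K → ℤ) : Prop := ∀ ν : Fam 3, GG 3 ν → Scal fun F => ν F (lift (φ F))

/-- The form whose zeros are the disconnected states of ratio `ρ` (on `e = 0`). -/
def Lam {K : Type} [Field K] (ρ : K) (z : Q5 K) : K := z.D - z.e + ρ * (z.A - z.e)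

/-- The convolution of weights. -/
noncomputable def star (w w' : (F : FF) → F.K → ℤ) (F : FF) (ρ : F.K) : ℤ :=
  open Classical in ∑ σ : F.K, if σ = 0 then 0 else w F σ * w' F (ρ / σ)

end Pool.Agent.PLN
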