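import Pool.Agent.PLN.BSt

/-!
# Part B: values of good families
-/

set_option autoImplicit false

open scoped BigOperators

namespace Pool.Agent.PLN

section

variable {K : Type} [Field K]

/-- MODULE LFT. From `ch_inj`. -/
theorem lift_ch {φ : Q5 K → ℤ} (hφ : Hom φ) {z : Q5 K} (hz : z.On) : lift φ (ch z) = φ z := by
  have h : ∃ w : Q5 K, w.On ∧ ch z = ch w := ⟨z, hz, rfl⟩
  have h0 : lift φ (ch z) = φ h.choose := dif_pos h
  obtain ⟨h1, h2⟩ := h.choose_spec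
  obtain ⟨c, hc, e⟩ := ch_inj hz h1 h2
  rw [h0, e, hφ c z hc]

theorem Hom.add {φ ψ : Q5 K → ℤ} (h : Hom φ) (h' : Hom ψ) : Hom fun z => φ z + ψ z :=
  fun c z hc => by simp only [h c z hc, h' c z hc]

theorem Hom.sub {φ ψ : Q5 K → ℤ} (h : Hom φ) (h' : Hom ψ) : Hom fun z => φ z - ψ z :=
  fun c z hc => by simp only [h c z hc, h' c z hc]

theorem Hom.mulc (a : ℤ) {φ : Q5 K → ℤ} (h : Hom φ) : Hom fun z => a * φ z :=
  fun c z hc => by simp only [h c z hc]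

theorem Hom.const (a : ℤ) : Hom fun _ : Q5 K => a := fun _ _ _ => rfl

theorem Hom.sum {ι : Type} (s : Finset ι) {φ : ι → Q5 K → ℤ} (h : ∀ i, Hom (φ i)) :
    Hom fun z => ∑ i ∈ s, φ i z :=
  fun c z hc => Finset.sum_congr rfl fun i _ => h i c z hc

/-- MODULE HIC. -/
theorem Hom.ic5 {P : Q5 K → Prop} (h : ∀ (c : K) (z : Q5 K), c ≠ 0 → (P (z.smul c) ↔ P z)) :
    Hom (PLN.ic5 P) := by
  intro c z hc
  unfold PLN.ic5
  by_cases hz : P z
  · rw [if_pos hz, if_pos ((h c z hc).2 hz)]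
  · rw [if_neg hz, if_neg fun k => hz ((h c z hc).1 k)]

theorem Hom.e02 {φ : Q5 K → ℤ} (h : Hom φ) (t : K) : Hom fun z => φ (z.e02 t) := by
  intro c z hc
  have e : (z.smul c).e02 t = (z.e02 t).smul c := by
    ext <;> simp only [Q5.smul, Q5.e02] <;> ring
  simp only [e, h c _ hc]

theorem Hom.s0 {φ : Q5 K → ℤ} (h : Hom φ) (t : K) : Hom fun z => φ (z.s0 t) := by
  intro c z hc
  have e : (z.smul c).s0 t = (z.s0 t).smul c := by
    ext <;> simp only [Q5.smul, Q5.s0] <;> ring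
  simp only [e, h c _ hc]

theorem Hom.rfz {φ : Q5 K → ℤ} (h : Hom φ) : Hom fun z => φ z.rfz := by
  intro c z hc
  have e : (z.smul c).rfz = z.rfz.smul c := by
    ext <;> simp only [Q5.smul, Q5.rfz] <;> ring
  simp only [e, h c _ hc]

theorem Hom.rbz {φ : Q5 K → ℤ} (h : Hom φ) : Hom fun z => φ z.rbz := by
  intro c z hc
  have e : (z.smul c).rbz = z.rbz.smul c := by
    ext <;> simp only [Q5.smul, Q5.rbz] <;> ring
  simp only [e, h c _ hc]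

theorem Hom.rlz {φ : Q5 K → ℤ} (h : Hom φ) : Hom fun z => φ z.rlz := by
  intro c z hc
  have e : (z.smul c).rlz = z.rlz.smul c := rfl
  simp only [e, h c _ hc]

end

/-! ### Values -/

/-- Good families only see the states `ch z`. -/
theorem GG_ev {ν : Fam 3} (h : GG 3 ν) (F : FF) {f g : St 3 F.K → ℤ}
    (hfg : ∀ z : Q5 F.K, z.On → f (ch z) = g (ch z)) : ν F f = ν F g := by
  refine GG_supp h F f g fun L hL => ?_
  obtain ⟨z, hz, rfl⟩ := ch_of_good hL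
  exact hfg z hz

/-! ### Operations on good families, in coordinates -/

/-- The family `f ↦ ∑ t, ν (f (op t))`, when the operation is known on the states `ch z`. -/
def OpS (op : (F : FF) → F.K → Q5 F.K → Q5 F.K) (ν μ : Fam 3) : Prop :=
  ∀ (F : FF) (f : St 3 F.K → ℤ) (g : St 3 F.K → ℤ),
    (∀ z : Q5 F.K, z.On → g (ch z) = ∑ t : F.K, f (ch (op F t z))) → μ F f = ν F g

/-- MODULE OPE. `μ = ν.sh`, `sh_ch`, `GG_ev`. -/
theorem op_e02 {ν : Fam 3} (h : GG 3 ν) : ∃ μ : Fam 3, GG 3 μ ∧ OpS (fun _ t z => z.e02 t) ν μ := by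
  refine ⟨ν.sh, GG_sh (n := 1) h, fun F f g hg => GG_ev h F fun z hz => ?_⟩
  rw [hg z hz]
  refine Finset.sum_congr rfl fun t _ => ?_
  rw [sh_ch]

/-- MODULE OPE. `μ = ((ν.rl).sh).rl`. -/
theorem op_e12 {ν : Fam 3} (h : GG 3 ν) : ∃ μ : Fam 3, GG 3 μ ∧ OpS (fun _ t z => z.e12 t) ν μ := by
  refine ⟨((ν.rl).sh).rl, GG_rl (GG_sh (n := 1) (GG_rl h)), fun F f g hg => GG_ev h F fun z hz => ?_⟩
  rw [hg z hz]
  refine Finset.sum_congr rfl fun t _ => ?_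
  beta_reduce
  rw [rl_ch hz, sh_ch, rl_ch (hz.rlz.e02 t), ← Q5.e12_eq]

/-- MODULE OPE. `μ = ((ν.rf).sh).rb`. -/
theorem op_e01 {ν : Fam 3} (h : GG 3 ν) : ∃ μ : Fam 3, GG 3 μ ∧ OpS (fun _ t z => z.e01 t) ν μ := by
  refine ⟨((ν.rf).sh).rb, GG_rb (n := 2) (GG_sh (n := 1) (GG_rf (n := 2) h)),
    fun F f g hg => GG_ev h F fun z hz => ?_⟩
  rw [hg z hz]
  refine Finset.sum_congr rfl fun t _ => ?_
  beta_reduce
  rw [rf_ch hz, sh_ch, rb_ch (hz.rfz.e02 t), ← Q5.e01_eq]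

/-- MODULE OPS. `μ = ν.sp`. -/
theorem op_s0 {ν : Fam 3} (h : GG 3 ν) : ∃ μ : Fam 3, GG 3 μ ∧ OpS (fun _ t z => z.s0 t) ν μ := by
  refine ⟨ν.sp, GG_sp (n := 2) h, fun F f g hg => GG_ev h F fun z hz => ?_⟩
  rw [hg z hz]
  refine Finset.sum_congr rfl fun t _ => ?_
  rw [spk_ch]

/-- MODULE OPS. `μ = ((ν.rl).sp).rl`. -/
theorem op_s1 {ν : Fam 3} (h : GG 3 ν) : ∃ μ : Fam 3, GG 3 μ ∧ OpS (fun _ t z => z.s1 t) ν μ := by
  refine ⟨((ν.rl).sp).rl, GG_rl (GG_sp (n := 2) (GG_rl h)), fun F f g hg => GG_ev h F fun z hz => ?_⟩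
  rw [hg z hz]
  refine Finset.sum_congr rfl fun t _ => ?_
  beta_reduce
  rw [rl_ch hz, spk_ch, rl_ch (hz.rlz.s0 t), ← Q5.s1_eq]

/-- MODULE OPS. `μ = ν.spl`. -/
theorem op_s2 {ν : Fam 3} (h : GG 3 ν) : ∃ μ : Fam 3, GG 3 μ ∧ OpS (fun _ t z => z.s2 t) ν μ := by
  refine ⟨ν.spl, GG_spl (n := 2) h, fun F f g hg => GG_ev h F fun z hz => ?_⟩
  rw [hg z hz]
  refine Finset.sum_congr rfl fun t _ => ?_
  rw [spkl_ch t hz]

/-- MODULE OPC: the cascade. -/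
theorem op_cas {ν κ : Fam 3} (h : GG 3 ν) (h' : GG 3 κ) : ∃ μ : Fam 3, GG 3 μ ∧
    ∀ (F : FF) (f : St 3 F.K → ℤ) (g : Q5 F.K → St 3 F.K → ℤ) (k : St 3 F.K → ℤ),
      (∀ z w : Q5 F.K, z.On → w.On → g z (ch w) = ic5 (fun w => z.MulNz w) w * f (ch (z.mul w))) →
      (∀ z : Q5 F.K, z.On → k (ch z) = κ F (g z)) → μ F f = ν F k := by
  refine ⟨ν.cas κ, ?_, ?_⟩
  · exact GG_rf (n := 2) (GG_mg (n := 2) (GG_cl (n := 3) (GG_wd (n := 2) (m := 2)
      (GG_rf (n := 2) h) h')))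
  · intro F f g k hg hk
    show ν F _ = ν F k
    refine GG_ev h F fun z hz => ?_
    rw [hk z hz]
    show κ F _ = κ F (g z)
    refine GG_ev h' F fun w hw => ?_
    rw [hg z w hz hw]
    have e := casR_ch hz hw
    unfold casR at e
    unfold ic5
    beta_reduce
    by_cases hm : z.MulNz w
    · rw [if_pos (e.2 hm).1, if_pos (e.2 hm).2, if_pos hm, one_mul, ← casS_ch hz hw hm]
      rfl
    · rw [if_neg hm, zero_mul]
      by_cases h1 : clR (n := 4) (wd (n := 2) (m := 2) (rf (n := 2) (ch z)) (ch w))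
      · rw [if_pos h1]
        by_cases h2 : mgR (n := 2) (cl (n := 4) (wd (n := 2) (m := 2) (rf (n := 2) (ch z)) (ch w)))
        · exact absurd (e.1 ⟨h1, h2⟩) hm
        · rw [if_neg h2]
      · rw [if_neg h1]

/-! ### Scalars -/

/-- The values at `φ` of all good families are scalars, and `φ` is homogeneous. -/
structure SPH (φ : (F : FF) → Q5 F.K → ℤ) : Prop where
  hom : ∀ F, Hom (φ F)
  sp : SP φ

private theorem spl_sub {ν : Fam 3} (h : GG 3 ν) (F : FF) (f g : St 3 F.K → ℤ) :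
    ν F (fun L => f L - g L) = ν F f - ν F g := by
  have h1 := GG_add' h F f fun L => -1 * g L
  rw [GG_mul' h F] at h1
  rw [show (fun L => f L - g L) = fun L => f L + -1 * g L from funext fun L => by ring, h1]
  ring

/-- A linear combination of the values. -/
private theorem spl_val {ν : Fam 3} (h : GG 3 ν) (F : FF) {φ : Q5 F.K → ℤ} (hφ : Hom φ)
    {g : St 3 F.K → ℤ} (e : ∀ z : Q5 F.K, z.On → g (ch z) = φ z) : ν F g = ν F (lift φ) :=
  GG_ev h F fun z hz => by rw [e z hz, lift_ch hφ hz]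

/-- MODULE SPL: `GG_ev` and `lift_ch`. -/
theorem SPH_congr {φ ψ : (F : FF) → Q5 F.K → ℤ} (h : SPH φ) (hψ : ∀ F, Hom (ψ F))
    (e : ∀ (F : FF) (z : Q5 F.K), z.On → φ F z = ψ F z) : SPH ψ := by
  refine ⟨hψ, fun ν hν => Scal_congr (h.sp ν hν) fun F => spl_val hν F (hψ F) fun z hz => ?_⟩
  rw [lift_ch (h.hom F) hz, e F z hz]

/-- MODULE SPL. -/
theorem SPH_add {φ ψ : (F : FF) → Q5 F.K → ℤ} (h : SPH φ) (h' : SPH ψ) :
    SPH fun F z => φ F z + ψ F z := by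
  have hH : ∀ F, Hom fun z => φ F z + ψ F z := fun F => (h.hom F).add (h'.hom F)
  refine ⟨hH, fun ν hν => Scal_congr (Scal_add (h.sp ν hν) (h'.sp ν hν)) fun F => ?_⟩
  rw [← GG_add' hν F]
  refine spl_val hν F (hH F) fun z hz => ?_
  rw [lift_ch (h.hom F) hz, lift_ch (h'.hom F) hz]

/-- MODULE SPL. -/
theorem SPH_sub {φ ψ : (F : FF) → Q5 F.K → ℤ} (h : SPH φ) (h' : SPH ψ) :
    SPH fun F z => φ F z - ψ F z := by
  have hH : ∀ F, Hom fun z => φ F z - ψ F z := fun F => (h.hom F).sub (h'.hom F)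
  refine ⟨hH, fun ν hν => Scal_congr (Scal_sub (h.sp ν hν) (h'.sp ν hν)) fun F => ?_⟩
  rw [← spl_sub hν F]
  refine spl_val hν F (hH F) fun z hz => ?_
  rw [lift_ch (h.hom F) hz, lift_ch (h'.hom F) hz]

/-- MODULE SPL. -/
theorem SPH_poly (c : Polynomial ℤ) {φ : (F : FF) → Q5 F.K → ℤ} (h : SPH φ) :
    SPH fun F z => c.eval F.q * φ F z := by
  have hH : ∀ F : FF, Hom fun z => c.eval F.q * φ F z := fun F => (h.hom F).mulc _
  refine ⟨hH, fun ν hν => Scal_congr (Scal_mul (Scal_poly c) (h.sp ν hν)) fun F => ?_⟩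
  rw [← GG_mul' hν F]
  refine spl_val hν F (hH F) fun z hz => ?_
  rw [lift_ch (h.hom F) hz]

/-- MODULE SPL. (`q` and `q - 1` are not zero, so `φ` is homogeneous.) -/
theorem SPH_divq {φ : (F : FF) → Q5 F.K → ℤ} (h : SPH fun F z => F.q * φ F z) : SPH φ := by
  have hH : ∀ F : FF, Hom (φ F) := by
    intro F c z hc
    have h1 : F.q * φ F (z.smul c) = F.q * φ F z := h.hom F c z hc
    have h2 : F.q ≠ 0 := left_ne_zero_of_mul F.q_ne
    exact mul_left_cancel₀ h2 h1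
  refine ⟨hH, fun ν hν => Scal_divq (Scal_congr (h.sp ν hν) fun F => ?_)⟩
  rw [← GG_mul' hν F]
  refine (spl_val hν F (h.hom F) fun z hz => ?_).symm
  rw [lift_ch (hH F) hz]

/-- MODULE SPL. -/
theorem SPH_divq1 {φ : (F : FF) → Q5 F.K → ℤ} (h : SPH fun F z => (F.q - 1) * φ F z) : SPH φ := by
  have hH : ∀ F : FF, Hom (φ F) := by
    intro F c z hc
    have h1 : (F.q - 1) * φ F (z.smul c) = (F.q - 1) * φ F z := h.hom F c z hc
    have h2 : F.q - 1 ≠ 0 := right_ne_zero_of_mul F.q_ne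
    exact mul_left_cancel₀ h2 h1
  refine ⟨hH, fun ν hν => Scal_divq1 (Scal_congr (h.sp ν hν) fun F => ?_)⟩
  rw [← GG_mul' hν F]
  refine (spl_val hν F (h.hom F) fun z hz => ?_).symm
  rw [lift_ch (hH F) hz]

/-- Averaging over an operation. -/
private theorem spo_op {op : (F : FF) → F.K → Q5 F.K → Q5 F.K}
    (hop : ∀ ν : Fam 3, GG 3 ν → ∃ μ : Fam 3, GG 3 μ ∧ OpS op ν μ)
    (hOn : ∀ (F : FF) (t : F.K) (z : Q5 F.K), z.On → (op F t z).On)
    {φ : (F : FF) → Q5 F.K → ℤ} (h : SPH φ) (hH : ∀ (F : FF) (t : F.K), Hom fun z => φ F (op F t z)) :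
    SPH fun F z => ∑ t : F.K, φ F (op F t z) := by
  have hS : ∀ F : FF, Hom fun z => ∑ t : F.K, φ F (op F t z) := fun F => Hom.sum _ (hH F)
  refine ⟨hS, fun ν hν => ?_⟩
  obtain ⟨μ, hμ, ho⟩ := hop ν hν
  refine Scal_congr (h.sp μ hμ) fun F => ho F _ _ fun z hz => ?_
  rw [lift_ch (hS F) hz]
  refine Finset.sum_congr rfl fun t _ => ?_
  rw [lift_ch (h.hom F) (hOn F t z hz)]

/-- MODULE SPO: averaging; `op_e02` etc. and `lift_ch`. -/
theorem SPH_e02 {φ : (F : FF) → Q5 F.K → ℤ} (h : SPH φ) : SPH fun F z => ∑ t : F.K, φ F (z.e02 t) := by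
  exact spo_op (op := fun _ t z => z.e02 t) (fun ν hν => op_e02 hν) (fun F t z hz => hz.e02 t) h
    fun F t => (h.hom F).e02 t

/-- MODULE SPO. -/
theorem SPH_e12 {φ : (F : FF) → Q5 F.K → ℤ} (h : SPH φ) : SPH fun F z => ∑ t : F.K, φ F (z.e12 t) := by
  exact spo_op (op := fun _ t z => z.e12 t) (fun ν hν => op_e12 hν) (fun F t z hz => hz.e12 t) h
    fun F t => ((h.hom F).rlz.e02 t).rlz

/-- MODULE SPO. -/
theorem SPH_e01 {φ : (F : FF) → Q5 F.K → ℤ} (h : SPH φ) : SPH fun F z => ∑ t : F.K, φ F (z.e01 t) := by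
  refine spo_op (op := fun _ t z => z.e01 t) (fun ν hν => op_e01 hν) (fun F t z hz => hz.e01 t) h
    fun F t => ?_
  have h1 := ((h.hom F).rbz.e02 t).rfz
  have h2 : (fun z : Q5 F.K => φ F (z.e01 t)) = fun z => φ F (z.rfz.e02 t).rbz :=
    funext fun z => by rw [Q5.e01_eq]
  rw [h2]
  exact h1

/-- MODULE SPO. -/
theorem SPH_s0 {φ : (F : FF) → Q5 F.K → ℤ} (h : SPH φ) : SPH fun F z => ∑ t : F.K, φ F (z.s0 t) := by
  exact spo_op (op := fun _ t z => z.s0 t) (fun ν hν => op_s0 hν) (fun F t z hz => hz.s0 t) h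
    fun F t => (h.hom F).s0 t

/-- MODULE SPO. -/
theorem SPH_s1 {φ : (F : FF) → Q5 F.K → ℤ} (h : SPH φ) : SPH fun F z => ∑ t : F.K, φ F (z.s1 t) := by
  exact spo_op (op := fun _ t z => z.s1 t) (fun ν hν => op_s1 hν) (fun F t z hz => hz.s1 t) h
    fun F t => ((h.hom F).rlz.s0 t).rlz

/-- MODULE SPO. -/
theorem SPH_s2 {φ : (F : FF) → Q5 F.K → ℤ} (h : SPH φ) : SPH fun F z => ∑ t : F.K, φ F (z.s2 t) := by
  refine spo_op (op := fun _ t z => z.s2 t) (fun ν hν => op_s2 hν) (fun F t z hz => hz.s2 t) h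
    fun F t => ?_
  have h1 := ((h.hom F).rfz.s0 t).rbz
  have h2 : (fun z : Q5 F.K => φ F (z.s2 t)) = fun z => φ F (z.rbz.s0 t).rfz :=
    funext fun z => by rw [Q5.s2_eq]
  rw [h2]
  exact h1

/-- MODULE SPR: rotation and mirror image. -/
theorem SPH_rf {φ : (F : FF) → Q5 F.K → ℤ} (h : SPH φ) : SPH fun F z => φ F z.rfz := by
  have hH : ∀ F : FF, Hom fun z => φ F z.rfz := fun F => (h.hom F).rfz
  refine ⟨hH, fun ν hν => Scal_congr (h.sp (Fam.rf (n := 2) ν) (GG_rf (n := 2) hν)) fun F => ?_⟩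
  refine GG_ev hν F fun z hz => ?_
  rw [rf_ch hz, lift_ch (h.hom F) hz.rfz, lift_ch (hH F) hz]

/-- MODULE SPR. -/
theorem SPH_rb {φ : (F : FF) → Q5 F.K → ℤ} (h : SPH φ) : SPH fun F z => φ F z.rbz := by
  have hH : ∀ F : FF, Hom fun z => φ F z.rbz := fun F => (h.hom F).rbz
  refine ⟨hH, fun ν hν => Scal_congr (h.sp (Fam.rb (n := 2) ν) (GG_rb (n := 2) hν)) fun F => ?_⟩
  refine GG_ev hν F fun z hz => ?_
  rw [rb_ch hz, lift_ch (h.hom F) hz.rbz, lift_ch (hH F) hz]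

/-- MODULE SPR. -/
theorem SPH_rl {φ : (F : FF) → Q5 F.K → ℤ} (h : SPH φ) : SPH fun F z => φ F z.rlz := by
  have hH : ∀ F : FF, Hom fun z => φ F z.rlz := fun F => (h.hom F).rlz
  refine ⟨hH, fun ν hν => Scal_congr (h.sp ν.rl (GG_rl hν)) fun F => ?_⟩
  refine GG_ev hν F fun z hz => ?_
  rw [rl_ch hz, lift_ch (h.hom F) hz.rlz, lift_ch (hH F) hz]

open Classical in
private theorem spb_ic {K : Type} {P : Q5 K → Prop} {Q R : Prop} {z : Q5 K} (h : (Q ∧ R) ↔ P z) : (if Q then (if R then (1 : ℤ) else 0) else 0) = ic5 P z := by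
  unfold ic5
  by_cases hQ : Q
  · by_cases hR : R
    · rw [if_pos hQ, if_pos hR, if_pos (h.1 ⟨hQ, hR⟩)]
    · rw [if_pos hQ, if_neg hR, if_neg fun k => hR (h.2 k).2]
  · rw [if_neg hQ, if_neg fun k => hQ (h.2 k).1]

/-- MODULE SPB1: `Scal_of` for `(ν.mg).mg` and `mgmg`. -/
theorem SPH_B : SPH fun F => ic5 fun z : Q5 F.K => z.B ≠ 0 := by
  have hH : ∀ F : FF, Hom (ic5 fun z : Q5 F.K => z.B ≠ 0) := fun F => Hom.ic5 fun c z hc => by
    show c * z.B ≠ 0 ↔ z.B ≠ 0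
    exact ⟨right_ne_zero_of_mul, mul_ne_zero hc⟩
  refine ⟨hH, fun ν hν => Scal_congr (Scal_of (GG_mg (n := 0) (GG_mg (n := 1) hν))) fun F => ?_⟩
  refine GG_ev hν F fun z hz => ?_
  rw [lift_ch (hH F) hz]
  exact spb_ic (mgmg hz)

/-- MODULE SPB2: `Scal_of` for `(ν.mg).cl` and `mgcl`. -/
theorem SPH_A : SPH fun F => ic5 fun z : Q5 F.K => z.A ≠ 0 := by
  have hH : ∀ F : FF, Hom (ic5 fun z : Q5 F.K => z.A ≠ 0) := fun F => Hom.ic5 fun c z hc => by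
    show c * z.A ≠ 0 ↔ z.A ≠ 0
    exact ⟨right_ne_zero_of_mul, mul_ne_zero hc⟩
  refine ⟨hH, fun ν hν => Scal_congr (Scal_of (GG_cl (n := 0) (GG_mg (n := 1) hν))) fun F => ?_⟩
  refine GG_ev hν F fun z hz => ?_
  rw [lift_ch (hH F) hz]
  exact spb_ic (mgcl hz)

/-- MODULE SPB3: `Scal_of` for `(ν.cl).cl` and `clcl`. -/
theorem SPH_C : SPH fun F => ic5 fun z : Q5 F.K => z.C ≠ 0 := by
  have hH : ∀ F : FF, Hom (ic5 fun z : Q5 F.K => z.C ≠ 0) := fun F => Hom.ic5 fun c z hc => by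
    show c * z.C ≠ 0 ↔ z.C ≠ 0
    exact ⟨right_ne_zero_of_mul, mul_ne_zero hc⟩
  refine ⟨hH, fun ν hν => Scal_congr (Scal_of (GG_cl (n := 0) (GG_cl (n := 1) hν))) fun F => ?_⟩
  refine GG_ev hν F fun z hz => ?_
  rw [lift_ch (hH F) hz]
  exact spb_ic (clcl hz)

end Pool.Agent.PLN
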