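import Pool.Agent.PLN.BEv

/-!
# Part B: some good families
-/

set_option autoImplicit false

open scoped BigOperators

namespace Pool.Agent.PLN

/-! ### Auxiliary lemmas (private) -/

private theorem fam_q (F : FF) : F.q = (Fintype.card F.K : ℤ) := by
  show ((Nat.card F.K : ℕ) : ℤ) = _
  rw [Nat.card_eq_fintype_card]

private theorem fam_mulq1 {n : ℕ} {ν : Fam n} (h : GG n ν) : GG n fun F f => (F.q - 1) * ν F f :=
  GG_congr (GG_sub (GG_mulq h) h) fun F f => by ring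

section

variable {K : Type} [Field K] [Fintype K]

/-- the function `z ↦ ∑ t, f (ch (op t z))` on the states -/
private noncomputable def fam_G (op : K → Q5 K → Q5 K) (f : St 3 K → ℤ) : St 3 K → ℤ :=
  lift fun z => ∑ t : K, f (ch (op t z))

private theorem fam_G_ch {op : K → Q5 K → Q5 K}
    (hop : ∀ t c z, op t (Q5.smul c z) = (op t z).smul c) (f : St 3 K → ℤ) {z : Q5 K} (hz : z.On) :
    fam_G op f (ch z) = ∑ t : K, f (ch (op t z)) := by
  refine lift_ch (φ := fun z => ∑ t : K, f (ch (op t z))) (fun c z hc => ?_) hz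
  show ∑ t : K, f (ch (op t (z.smul c))) = ∑ t : K, f (ch (op t z))
  refine Finset.sum_congr rfl fun t _ => ?_
  rw [hop, ch_smul hc]

/-- the points of a projective line -/
private theorem fam_line (ψ : K → K → ℤ) (hψ : ∀ c x y : K, c ≠ 0 → ψ (c * x) (c * y) = ψ x y) :
    ((Fintype.card K : ℤ) - 1) * ψ 0 1 =
      (∑ t : K, ∑ r : K, ψ (1 + r * t) t) - ψ 1 0 - ((Fintype.card K : ℤ) - 1) * ∑ t : K, ψ 1 t := by
  classical
  have h1 : (∑ t : K, ∑ r : K, ψ (1 + r * t) t) =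
      (Fintype.card K : ℤ) * ψ 1 0 + ((Fintype.card K : ℤ) - 1) * ∑ x : K, ψ x 1 := by
    rw [← Finset.add_sum_erase _ _ (Finset.mem_univ (0 : K))]
    congr 1
    · have h2 : ∀ r : K, ψ (1 + r * 0) 0 = ψ 1 0 := fun r => by rw [mul_zero, add_zero]
      rw [Finset.sum_congr rfl fun r _ => h2 r, Finset.sum_const, Finset.card_univ, nsmul_eq_mul]
    · have h3 : ∀ t ∈ Finset.univ.erase (0 : K), ∑ r : K, ψ (1 + r * t) t = ∑ x : K, ψ x 1 := by
        intro t ht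
        have ht' : t ≠ 0 := Finset.ne_of_mem_erase ht
        rw [← Equiv.sum_comp (Equiv.addRight (t⁻¹ : K)) fun x => ψ x 1]
        refine Finset.sum_congr rfl fun r _ => ?_
        show ψ (1 + r * t) t = ψ (r + t⁻¹) 1
        rw [← hψ t (r + t⁻¹) 1 ht', mul_one, mul_add, mul_inv_cancel₀ ht', mul_comm t r,
          add_comm 1]
      rw [Finset.sum_congr rfl h3, Finset.sum_const, Finset.card_erase_of_mem (Finset.mem_univ _),
        Finset.card_univ, nsmul_eq_mul, Nat.cast_sub (Fintype.card_pos_iff.2 ⟨(0 : K)⟩),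
        Nat.cast_one]
  have h2 : ∑ x : K, ψ x 1 = ψ 0 1 + (∑ t : K, ψ 1 t - ψ 1 0) := by
    rw [← Finset.add_sum_erase _ _ (Finset.mem_univ (0 : K)),
      ← Finset.add_sum_erase Finset.univ (fun t : K => ψ 1 t) (Finset.mem_univ (0 : K)),
      add_sub_cancel_left]
    congr 1
    refine Finset.sum_nbij' (fun x => x⁻¹) (fun x => x⁻¹) ?_ ?_ ?_ ?_ ?_
    · intro x hx
      exact Finset.mem_erase.2 ⟨inv_ne_zero (Finset.ne_of_mem_erase hx), Finset.mem_univ _⟩
    · intro x hx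
      exact Finset.mem_erase.2 ⟨inv_ne_zero (Finset.ne_of_mem_erase hx), Finset.mem_univ _⟩
    · intro x _
      exact inv_inv x
    · intro x _
      exact inv_inv x
    · intro x hx
      have hx' : x ≠ 0 := Finset.ne_of_mem_erase hx
      show ψ x 1 = ψ 1 x⁻¹
      rw [← hψ x 1 x⁻¹ hx', mul_one, mul_inv_cancel₀ hx']
  rw [h1, h2]
  ring

/-- the number of solutions of a linear equation -/
private theorem fam_cnt (a b : K) : (open Classical in ∑ t : K, if a - t * b = 0 then (1 : ℤ) else 0) =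
    open Classical in if b = 0 then (if a = 0 then (Fintype.card K : ℤ) else 0) else 1 := by
  classical
  by_cases hb : b = 0
  · rw [if_pos hb, hb]
    simp only [mul_zero, sub_zero]
    by_cases ha : a = 0
    · simp [ha]
    · simp [ha]
  · rw [if_neg hb, Finset.sum_eq_single (a / b)]
    · rw [div_mul_cancel₀ a hb, sub_self, if_pos rfl]
    · intro t _ ht
      rw [if_neg]
      intro h
      exact ht (eq_div_of_mul_eq hb (sub_eq_zero.1 h).symm)
    · intro h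
      exact absurd (Finset.mem_univ _) h

/-- a set of points of the quadric given by representatives -/
private theorem fam_par {ι : Type} [Fintype ι] (P : Q5 K → Prop) (g : ι → Q5 K)
    (h1 : ∀ i, (g i).On) (h2 : ∀ c i, c ≠ 0 → P ((g i).smul c))
    (h3 : ∀ z : Q5 K, z.On → P z → ∃ c i, c ≠ 0 ∧ z = (g i).smul c)
    (h4 : ∀ c c' i i', c ≠ 0 → c' ≠ 0 → (g i).smul c = (g i').smul c' → c = c' ∧ i = i')
    (f : St 3 K → ℤ) :
    (open Classical in ∑ z : Q5 K, if z.On then ic5 P z * f (ch z) else 0) =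
      ((Fintype.card K : ℤ) - 1) * ∑ i, f (ch (g i)) := by
  classical
  have e1 : (∑ z : Q5 K, if z.On then ic5 P z * f (ch z) else 0) =
      ∑ z ∈ Finset.univ.filter (fun z : Q5 K => z.On ∧ P z), f (ch z) := by
    rw [Finset.sum_filter]
    refine Finset.sum_congr rfl fun z _ => ?_
    by_cases hz : z.On
    · by_cases hp : P z
      · rw [if_pos hz, if_pos ⟨hz, hp⟩]
        unfold ic5
        rw [if_pos hp, one_mul]
      · rw [if_pos hz, if_neg (fun h => hp h.2)]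
        unfold ic5
        rw [if_neg hp, zero_mul]
    · rw [if_neg hz, if_neg (fun h => hz h.1)]
  have e2 : ((Fintype.card K : ℤ) - 1) * ∑ i, f (ch (g i)) =
      ∑ x ∈ (Finset.univ.erase (0 : K)) ×ˢ (Finset.univ : Finset ι), f (ch (g x.2)) := by
    have e3 : (∑ x ∈ (Finset.univ.erase (0 : K)) ×ˢ (Finset.univ : Finset ι), f (ch (g x.2))) =
        ∑ _c ∈ Finset.univ.erase (0 : K), ∑ i : ι, f (ch (g i)) := Finset.sum_product _ _ _
    rw [e3, Finset.sum_const, Finset.card_erase_of_mem (Finset.mem_univ _),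
      Finset.card_univ, nsmul_eq_mul, Nat.cast_sub (Fintype.card_pos_iff.2 ⟨(0 : K)⟩), Nat.cast_one]
  rw [e1, e2]
  symm
  refine Finset.sum_bij (fun x _ => (g x.2).smul x.1) ?_ ?_ ?_ ?_
  · intro x hx
    have hx' := Finset.ne_of_mem_erase (Finset.mem_product.1 hx).1
    exact Finset.mem_filter.2 ⟨Finset.mem_univ _, (h1 x.2).smul hx', h2 _ _ hx'⟩
  · intro x hx y hy hxy
    have hx' := Finset.ne_of_mem_erase (Finset.mem_product.1 hx).1
    have hy' := Finset.ne_of_mem_erase (Finset.mem_product.1 hy).1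
    obtain ⟨k1, k2⟩ := h4 _ _ _ _ hx' hy' hxy
    exact Prod.ext k1 k2
  · intro z hz
    obtain ⟨_, hz1, hz2⟩ := Finset.mem_filter.1 hz
    obtain ⟨c, i, hc, rfl⟩ := h3 z hz1 hz2
    exact ⟨(c, i), Finset.mem_product.2 ⟨Finset.mem_erase.2 ⟨hc, Finset.mem_univ _⟩,
      Finset.mem_univ _⟩, rfl⟩
  · intro x hx
    have hx' := Finset.ne_of_mem_erase (Finset.mem_product.1 hx).1
    rw [ch_smul hx']

end

private theorem fam_op {op : (F : FF) → F.K → Q5 F.K → Q5 F.K}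
    (hop : ∀ F t c z, op F t (Q5.smul c z) = (op F t z).smul c) {ν μ : Fam 3} (h : OpS op ν μ)
    (F : FF) (f : St 3 F.K → ℤ) : μ F f = ν F (fam_G (op F) f) :=
  h F f _ fun _ hz => fam_G_ch (hop F) f hz

private theorem fam_h02 (F : FF) (t c : F.K) (z : Q5 F.K) :
    (z.smul c).e02 t = (z.e02 t).smul c := by
  ext <;> simp only [Q5.smul, Q5.e02] <;> ring

private theorem fam_h12 (F : FF) (t c : F.K) (z : Q5 F.K) :
    (z.smul c).e12 t = (z.e12 t).smul c := by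
  ext <;> simp only [Q5.smul, Q5.e12] <;> ring

private theorem fam_h01 (F : FF) (t c : F.K) (z : Q5 F.K) :
    (z.smul c).e01 t = (z.e01 t).smul c := by
  ext <;> simp only [Q5.smul, Q5.e01] <;> ring

private theorem fam_k0 (F : FF) (t c : F.K) (z : Q5 F.K) :
    (z.smul c).s0 t = (z.s0 t).smul c := by
  ext <;> simp only [Q5.smul, Q5.s0] <;> ring

private theorem fam_k1 (F : FF) (t c : F.K) (z : Q5 F.K) :
    (z.smul c).s1 t = (z.s1 t).smul c := by
  ext <;> simp only [Q5.smul, Q5.s1] <;> ring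

private theorem fam_k2 (F : FF) (t c : F.K) (z : Q5 F.K) :
    (z.smul c).s2 t = (z.s2 t).smul c := by
  ext <;> simp only [Q5.smul, Q5.s2] <;> ring

/-- MODULE FI: three isolated terminals (`GG_iso 2`, `isoS_ch`). -/
theorem GG_O : GG 3 (one5 fun _ => ⟨0, 1, 0, 0, 0⟩) := by
  refine GG_congr (GG_iso 2) fun F f => ?_
  show f (isoS 3 F.K) = f (ch _)
  rw [isoS_ch]

private theorem fam_onO (F : FF) : (⟨0, 1, 0, 0, 0⟩ : Q5 F.K).On :=
  ⟨fun h => one_ne_zero h.2.1, by simp⟩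

/-- a family with a set of states -/
private theorem fam_step {op : (F : FF) → F.K → Q5 F.K → Q5 F.K}
    (hop : ∀ F t c z, op F t (Q5.smul c z) = (op F t z).smul c)
    (hO : ∀ {ν : Fam 3}, GG 3 ν → ∃ μ : Fam 3, GG 3 μ ∧ OpS op ν μ)
    {ι : FF → Type} [∀ F, Fintype (ι F)] (g : (F : FF) → ι F → Q5 F.K)
    (hg : ∀ F i, (g F i).On) (h : GG 3 fun F f => ∑ i : ι F, f (ch (g F i))) :
    GG 3 fun F f => ∑ i : ι F, ∑ t : F.K, f (ch (op F t (g F i))) := by
  obtain ⟨μ, h1, h2⟩ := hO h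
  refine GG_congr h1 fun F f => ?_
  rw [fam_op hop h2 F f]
  exact Finset.sum_congr rfl fun i _ => fam_G_ch (hop F) f (hg F i)

/-- the case of one state -/
private theorem fam_step1 {op : (F : FF) → F.K → Q5 F.K → Q5 F.K}
    (hop : ∀ F t c z, op F t (Q5.smul c z) = (op F t z).smul c)
    (hO : ∀ {ν : Fam 3}, GG 3 ν → ∃ μ : Fam 3, GG 3 μ ∧ OpS op ν μ)
    (z : (F : FF) → Q5 F.K) (hz : ∀ F, (z F).On) (h : GG 3 (one5 z)) :
    GG 3 fun F f => ∑ t : F.K, f (ch (op F t (z F))) := by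
  obtain ⟨μ, h1, h2⟩ := hO h
  refine GG_congr h1 fun F f => ?_
  rw [fam_op hop h2 F f]
  exact fam_G_ch (hop F) f (hz F)

/-- MODULE FT: the triangle of free edges: `op_e02`, `op_e12`, `op_e01` applied to `GG_O`:
`e01 t (e12 u (e02 v O)) = (u + t, 1, u v + t (u + v), v + t, t)` (in some order), and `(t, u, v) ↦ (u + t, v + t, t)` is a
bijection. -/
theorem GG_tri : GG 3 fun F f => ∑ A : F.K, ∑ D : F.K, ∑ e : F.K,
    f (ch (⟨A, 1, A * D - e ^ 2, D, e⟩ : Q5 F.K)) := by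
  have h1 := fam_step1 (op := fun _ t z => z.e02 t) fam_h02 op_e02 _ fam_onO GG_O
  have h2 := fam_step (op := fun _ t z => z.e12 t) fam_h12 op_e12
    (fun F v => (⟨0, 1, 0, 0, 0⟩ : Q5 F.K).e02 v) (fun F v => (fam_onO F).e02 v) h1
  have h2' : GG 3 fun F f => ∑ i : F.K × F.K,
      f (ch (((⟨0, 1, 0, 0, 0⟩ : Q5 F.K).e02 i.1).e12 i.2)) :=
    GG_congr h2 fun F f => by rw [Fintype.sum_prod_type]
  have h3 := fam_step (op := fun _ t z => z.e01 t) fam_h01 op_e01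
    (fun F (i : F.K × F.K) => ((⟨0, 1, 0, 0, 0⟩ : Q5 F.K).e02 i.1).e12 i.2)
    (fun F i => ((fam_onO F).e02 i.1).e12 i.2) h2'
  refine GG_congr h3 fun F f => ?_
  rw [Fintype.sum_prod_type]
  have e1 : ∀ v u t : F.K, (((⟨0, 1, 0, 0, 0⟩ : Q5 F.K).e02 v).e12 u).e01 t =
      ⟨u + t, 1, (u + t) * (v + t) - t ^ 2, v + t, t⟩ := by
    intro v u t
    ext <;> simp only [Q5.e02, Q5.e12, Q5.e01] <;> ring
  have e2 : (∑ v : F.K, ∑ u : F.K, ∑ t : F.K,
      f (ch ((((⟨0, 1, 0, 0, 0⟩ : Q5 F.K).e02 v).e12 u).e01 t))) =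
      ∑ t : F.K, ∑ u : F.K, ∑ v : F.K, f (ch ⟨u + t, 1, (u + t) * (v + t) - t ^ 2, v + t, t⟩) := by
    rw [Finset.sum_comm]
    refine Eq.trans (Finset.sum_congr rfl fun u _ => Finset.sum_comm) ?_
    rw [Finset.sum_comm]
    refine Finset.sum_congr rfl fun t _ => Finset.sum_congr rfl fun u _ =>
      Finset.sum_congr rfl fun v _ => ?_
    rw [e1]
  refine e2.trans ?_
  have e3 : (∑ A : F.K, ∑ D : F.K, ∑ e : F.K, f (ch (⟨A, 1, A * D - e ^ 2, D, e⟩ : Q5 F.K))) =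
      ∑ e : F.K, ∑ A : F.K, ∑ D : F.K, f (ch (⟨A, 1, A * D - e ^ 2, D, e⟩ : Q5 F.K)) := by
    refine Eq.trans (Finset.sum_congr rfl fun A _ => Finset.sum_comm) ?_
    rw [Finset.sum_comm]
  rw [e3]
  refine Finset.sum_congr rfl fun t _ => ?_
  rw [← Equiv.sum_comp (Equiv.addRight t)
    fun A => ∑ D : F.K, f (ch (⟨A, 1, A * D - t ^ 2, D, t⟩ : Q5 F.K))]
  refine Finset.sum_congr rfl fun u _ => ?_
  rw [← Equiv.sum_comp (Equiv.addRight t)
    fun D => f (ch (⟨Equiv.addRight t u, 1, Equiv.addRight t u * D - t ^ 2, D, t⟩ : Q5 F.K))]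
  rfl

/-- MODULE FP: the terminals `0` and `2` are identified. Proof. `s0 r (e02 t O) = (0, 1 + r t, 0, t, 0)`:
for `t = 0` it is `O` (up to a scalar), for `t ≠ 0` it is, up to a scalar, `(0, 1 / t + r, 0, 1, 0)`. So
`∑ r, ∑ t, f (ch (s0 r (e02 t O))) = q f (ch O) + (q - 1) ∑ x, f (ch (0, x, 0, 1, 0))`, and
`∑ x, f (ch (0, x, 0, 1, 0)) = f (ch (0, 0, 0, 1, 0)) + ∑ t ≠ 0, f (ch (0, 1, 0, t, 0))`
`= f (ch (0, 0, 0, 1, 0)) + (∑ t, f (ch (e02 t O))) - f (ch O)`. -/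
theorem GG_P02 : GG 3 (one5 fun _ => ⟨0, 0, 0, 1, 0⟩) := by
  have h1 := fam_step1 (op := fun _ t z => z.e02 t) fam_h02 op_e02 _ fam_onO GG_O
  have h2 := fam_step (op := fun _ t z => z.s0 t) fam_k0 op_s0
    (fun F v => (⟨0, 1, 0, 0, 0⟩ : Q5 F.K).e02 v) (fun F v => (fam_onO F).e02 v) h1
  refine GG_divq1 (GG_congr (GG_sub (GG_sub h2 GG_O) (fam_mulq1 h1)) fun F f => ?_)
  have e0 := fam_line (fun x y : F.K => f (ch ⟨0, x, 0, y, 0⟩)) (fun c x y hc => by
    have e : (⟨0, c * x, 0, c * y, 0⟩ : Q5 F.K) = (⟨0, x, 0, y, 0⟩ : Q5 F.K).smul c := by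
      ext <;> simp only [Q5.smul] <;> ring
    show f (ch ⟨0, c * x, 0, c * y, 0⟩) = f (ch ⟨0, x, 0, y, 0⟩)
    rw [e, ch_smul hc])
  have e1 : ∀ t r : F.K, (⟨0, 1, 0, t, 0⟩ : Q5 F.K).s0 r = ⟨0, 1 + r * t, 0, t, 0⟩ := by
    intro t r
    ext <;> simp only [Q5.s0] <;> ring
  have e2 : ∀ t : F.K, (⟨0, 1, 0, 0, 0⟩ : Q5 F.K).e02 t = ⟨0, 1, 0, t, 0⟩ := by
    intro t
    ext <;> simp only [Q5.e02] <;> ring
  show (∑ t : F.K, ∑ r : F.K, f (ch (((⟨0, 1, 0, 0, 0⟩ : Q5 F.K).e02 t).s0 r))) -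
    f (ch ⟨0, 1, 0, 0, 0⟩) - (F.q - 1) * ∑ t : F.K, f (ch ((⟨0, 1, 0, 0, 0⟩ : Q5 F.K).e02 t)) =
    (F.q - 1) * f (ch ⟨0, 0, 0, 1, 0⟩)
  simp only [e1, e2, fam_q]
  exact e0.symm

private theorem fam_onP02 (F : FF) : (⟨0, 0, 0, 1, 0⟩ : Q5 F.K).On :=
  ⟨fun h => one_ne_zero h.2.2.2.1, by simp⟩

private theorem fam_onP12 (F : FF) : (⟨1, 0, 0, 0, 0⟩ : Q5 F.K).On :=
  ⟨fun h => one_ne_zero h.1, by simp⟩

private theorem fam_onP01 (F : FF) : (⟨1, 0, 0, 1, 1⟩ : Q5 F.K).On :=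
  ⟨fun h => one_ne_zero h.1, by simp⟩

private theorem fam_onP (F : FF) : (⟨0, 0, 1, 0, 0⟩ : Q5 F.K).On :=
  ⟨fun h => one_ne_zero h.2.2.1, by simp⟩

/-- MODULE FP2: rotation (or mirror image) of `GG_P02`. -/
theorem GG_P12 : GG 3 (one5 fun _ => ⟨1, 0, 0, 0, 0⟩) := by
  refine GG_congr (GG_rl GG_P02) fun F f => ?_
  show f (rl (ch _)) = f (ch _)
  rw [rl_ch (fam_onP02 F)]
  rfl

/-- MODULE FP2. -/
theorem GG_P01 : GG 3 (one5 fun _ => ⟨1, 0, 0, 1, 1⟩) := by
  refine GG_congr (GG_rf (n := 2) GG_P12) fun F f => ?_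
  show f (rf (n := 2) (ch _)) = f (ch _)
  rw [rf_ch (fam_onP12 F)]
  have e : (⟨1, 0, 0, 0, 0⟩ : Q5 F.K).rfz = ⟨1, 0, 0, 1, 1⟩ := by
    ext <;> simp only [Q5.rfz] <;> ring
  rw [e]

/-- MODULE FQ: all terminals are identified. Proof. As in FP: `s1 r (e12 t P02) = (0, 0, t, 1 + r t, 0)`:
`∑ r, ∑ t, f = q f (ch P02) + (q - 1) ∑ x, f (ch (0, 0, 1, x, 0))`, and
`∑ x, f (ch (0, 0, 1, x, 0)) = f (ch (0, 0, 1, 0, 0)) + (∑ t, f (ch (e12 t P02))) - f (ch P02)`. -/
theorem GG_P : GG 3 (one5 fun _ => ⟨0, 0, 1, 0, 0⟩) := by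
  have h1 := fam_step1 (op := fun _ t z => z.e12 t) fam_h12 op_e12 _ fam_onP02 GG_P02
  have h2 := fam_step (op := fun _ t z => z.s1 t) fam_k1 op_s1
    (fun F v => (⟨0, 0, 0, 1, 0⟩ : Q5 F.K).e12 v) (fun F v => (fam_onP02 F).e12 v) h1
  refine GG_divq1 (GG_congr (GG_sub (GG_sub h2 GG_P02) (fam_mulq1 h1)) fun F f => ?_)
  have e0 := fam_line (fun x y : F.K => f (ch ⟨0, 0, y, x, 0⟩)) (fun c x y hc => by
    have e : (⟨0, 0, c * y, c * x, 0⟩ : Q5 F.K) = (⟨0, 0, y, x, 0⟩ : Q5 F.K).smul c := by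
      ext <;> simp only [Q5.smul] <;> ring
    show f (ch ⟨0, 0, c * y, c * x, 0⟩) = f (ch ⟨0, 0, y, x, 0⟩)
    rw [e, ch_smul hc])
  have e1 : ∀ t r : F.K, (⟨0, 0, t, 1, 0⟩ : Q5 F.K).s1 r = ⟨0, 0, t, 1 + r * t, 0⟩ := by
    intro t r
    ext <;> simp only [Q5.s1] <;> ring
  have e2 : ∀ t : F.K, (⟨0, 0, 0, 1, 0⟩ : Q5 F.K).e12 t = ⟨0, 0, t, 1, 0⟩ := by
    intro t
    ext <;> simp only [Q5.e12] <;> ring
  show (∑ t : F.K, ∑ r : F.K, f (ch (((⟨0, 0, 0, 1, 0⟩ : Q5 F.K).e12 t).s1 r))) -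
    f (ch ⟨0, 0, 0, 1, 0⟩) - (F.q - 1) * ∑ t : F.K, f (ch ((⟨0, 0, 0, 1, 0⟩ : Q5 F.K).e12 t)) =
    (F.q - 1) * f (ch ⟨0, 0, 1, 0, 0⟩)
  simp only [e1, e2, fam_q]
  exact e0.symm

/-- MODULE FS: the star of free resistances: `op_s2`, `op_s0`, `op_s1` applied to `GG_P`:
`s1 c (s0 b (s2 a P)) = (a + b, a b + c (a + b), 1, a + c, a)`. -/
theorem GG_star : GG 3 fun F f => ∑ A : F.K, ∑ D : F.K, ∑ e : F.K,
    f (ch (⟨A, A * D - e ^ 2, 1, D, e⟩ : Q5 F.K)) := by
  have h1 := fam_step1 (op := fun _ t z => z.s2 t) fam_k2 op_s2 _ fam_onP GG_P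
  have h2 := fam_step (op := fun _ t z => z.s0 t) fam_k0 op_s0
    (fun F v => (⟨0, 0, 1, 0, 0⟩ : Q5 F.K).s2 v) (fun F v => (fam_onP F).s2 v) h1
  have h2' : GG 3 fun F f => ∑ i : F.K × F.K,
      f (ch (((⟨0, 0, 1, 0, 0⟩ : Q5 F.K).s2 i.1).s0 i.2)) :=
    GG_congr h2 fun F f => by rw [Fintype.sum_prod_type]
  have h3 := fam_step (op := fun _ t z => z.s1 t) fam_k1 op_s1
    (fun F (i : F.K × F.K) => ((⟨0, 0, 1, 0, 0⟩ : Q5 F.K).s2 i.1).s0 i.2)
    (fun F i => ((fam_onP F).s2 i.1).s0 i.2) h2'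
  refine GG_congr h3 fun F f => ?_
  rw [Fintype.sum_prod_type]
  have e1 : ∀ a b c : F.K, (((⟨0, 0, 1, 0, 0⟩ : Q5 F.K).s2 a).s0 b).s1 c =
      ⟨b + a, (b + a) * (c + a) - a ^ 2, 1, c + a, a⟩ := by
    intro a b c
    ext <;> simp only [Q5.s2, Q5.s0, Q5.s1] <;> ring
  have e3 : (∑ A : F.K, ∑ D : F.K, ∑ e : F.K, f (ch (⟨A, A * D - e ^ 2, 1, D, e⟩ : Q5 F.K))) =
      ∑ e : F.K, ∑ A : F.K, ∑ D : F.K, f (ch (⟨A, A * D - e ^ 2, 1, D, e⟩ : Q5 F.K)) := by
    refine Eq.trans (Finset.sum_congr rfl fun A _ => Finset.sum_comm) ?_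
    rw [Finset.sum_comm]
  rw [e3]
  refine Finset.sum_congr rfl fun a _ => ?_
  rw [← Equiv.sum_comp (Equiv.addRight a)
    fun A => ∑ D : F.K, f (ch (⟨A, A * D - a ^ 2, 1, D, a⟩ : Q5 F.K))]
  refine Finset.sum_congr rfl fun b _ => ?_
  rw [← Equiv.sum_comp (Equiv.addRight a)
    fun D => f (ch (⟨Equiv.addRight a b, Equiv.addRight a b * D - a ^ 2, 1, D, a⟩ : Q5 F.K))]
  refine Finset.sum_congr rfl fun c _ => ?_
  show f (ch ((((⟨0, 0, 1, 0, 0⟩ : Q5 F.K).s2 a).s0 b).s1 c)) =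
    f (ch ⟨b + a, (b + a) * (c + a) - a ^ 2, 1, c + a, a⟩)
  rw [e1]

/-- MODULE FU: `0` and `1` identified, free conductance to `2`: `op_e02` of `GG_P01`. -/
theorem GG_T1 : GG 3 fun F f => ∑ s : F.K, f (ch (⟨1, 0, s, 1, 1⟩ : Q5 F.K)) := by
  have h1 := fam_step1 (op := fun _ t z => z.e02 t) fam_h02 op_e02 _ fam_onP01 GG_P01
  refine GG_congr h1 fun F f => Finset.sum_congr rfl fun s _ => ?_
  have e : (⟨1, 0, 0, 1, 1⟩ : Q5 F.K).e02 s = ⟨1, 0, s, 1, 1⟩ := by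
    ext <;> simp only [Q5.e02] <;> ring
  rw [e]

/-- MODULE FU: `op_e02` of `GG_P12`. -/
theorem GG_T0 : GG 3 fun F f => ∑ s : F.K, f (ch (⟨1, 0, s, 0, 0⟩ : Q5 F.K)) := by
  have h1 := fam_step1 (op := fun _ t z => z.e02 t) fam_h02 op_e02 _ fam_onP12 GG_P12
  refine GG_congr h1 fun F f => Finset.sum_congr rfl fun s _ => ?_
  have e : (⟨1, 0, 0, 0, 0⟩ : Q5 F.K).e02 s = ⟨1, 0, s, 0, 0⟩ := by
    ext <;> simp only [Q5.e02] <;> ring
  rw [e]

/-- MODULE FU: `op_e12` of `GG_P02`. -/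
theorem GG_Ti : GG 3 fun F f => ∑ s : F.K, f (ch (⟨0, 0, s, 1, 0⟩ : Q5 F.K)) := by
  have h1 := fam_step1 (op := fun _ t z => z.e12 t) fam_h12 op_e12 _ fam_onP02 GG_P02
  refine GG_congr h1 fun F f => Finset.sum_congr rfl fun s _ => ?_
  have e : (⟨0, 0, 0, 1, 0⟩ : Q5 F.K).e12 s = ⟨0, 0, s, 1, 0⟩ := by
    ext <;> simp only [Q5.e12] <;> ring
  rw [e]

/-- MODULE FU: `op_e01` of `GG_O`: only an edge between `0` and `1`. -/
theorem GG_E01 : GG 3 fun F f => ∑ t : F.K, f (ch (⟨t, 1, 0, t, t⟩ : Q5 F.K)) := by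
  have h1 := fam_step1 (op := fun _ t z => z.e01 t) fam_h01 op_e01 _ fam_onO GG_O
  refine GG_congr h1 fun F f => Finset.sum_congr rfl fun s _ => ?_
  have e : (⟨0, 1, 0, 0, 0⟩ : Q5 F.K).e01 s = ⟨s, 1, 0, s, s⟩ := by
    ext <;> simp only [Q5.e01] <;> ring
  rw [e]

/-! ### Weighted points of the quadric -/

/-- MODULE CSE: `∑ t, g_t` for the linear maps `e02 t`: the sum over `z` is reindexed by the bijection
`e02 (-t)` of the quadric. -/
theorem cs_e02 {w : (F : FF) → Q5 F.K → ℤ} (h : GG 3 (cs w)) :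
    GG 3 (cs fun F z => ∑ t : F.K, w F (z.e02 (-t))) := by
  classical
  obtain ⟨μ, h1, h2⟩ := op_e02 h
  refine GG_congr h1 fun F f => ?_
  rw [fam_op fam_h02 h2 F f]
  have e1 : cs w F (fam_G (fun t z => z.e02 t) f) =
      ∑ z : Q5 F.K, ∑ t : F.K, if z.On then w F z * f (ch (z.e02 t)) else 0 := by
    unfold cs
    refine Finset.sum_congr rfl fun z _ => ?_
    by_cases hz : z.On
    · simp only [if_pos hz]
      rw [fam_G_ch (fam_h02 F) f hz, Finset.mul_sum]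
    · simp only [if_neg hz]
      rw [Finset.sum_const_zero]
  have e2 : cs (fun F z => ∑ t : F.K, w F (z.e02 (-t))) F f =
      ∑ z : Q5 F.K, ∑ t : F.K, if z.On then w F (z.e02 (-t)) * f (ch z) else 0 := by
    unfold cs
    refine Finset.sum_congr rfl fun z _ => ?_
    by_cases hz : z.On
    · simp only [if_pos hz]
      rw [Finset.sum_mul]
    · simp only [if_neg hz]
      rw [Finset.sum_const_zero]
  rw [e1, e2, Finset.sum_comm]
  conv_rhs => rw [Finset.sum_comm]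
  refine Finset.sum_congr rfl fun t _ => ?_
  have k1 : ∀ (t : F.K) (z : Q5 F.K), (z.e02 t).e02 (-t) = z := by
    intro t z
    ext <;> simp only [Q5.e02] <;> ring
  have k2 : ∀ (t : F.K) (z : Q5 F.K), (z.e02 (-t)).e02 t = z := by
    intro t z
    ext <;> simp only [Q5.e02] <;> ring
  refine Finset.sum_nbij' (fun z => z.e02 t) (fun z => z.e02 (-t)) (fun _ _ => Finset.mem_univ _)
    (fun _ _ => Finset.mem_univ _) (fun z _ => k1 t z) (fun z _ => k2 t z) ?_
  intro z _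
  by_cases hz : z.On
  · rw [if_pos hz, if_pos (hz.e02 t), k1]
  · rw [if_neg hz, if_neg]
    intro h3
    have h4 := h3.e02 (-t)
    rw [k1] at h4
    exact hz h4

/-- MODULE CSE. -/
theorem cs_e01 {w : (F : FF) → Q5 F.K → ℤ} (h : GG 3 (cs w)) :
    GG 3 (cs fun F z => ∑ t : F.K, w F (z.e01 (-t))) := by
  classical
  obtain ⟨μ, h1, h2⟩ := op_e01 h
  refine GG_congr h1 fun F f => ?_
  rw [fam_op fam_h01 h2 F f]
  have e1 : cs w F (fam_G (fun t z => z.e01 t) f) =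
      ∑ z : Q5 F.K, ∑ t : F.K, if z.On then w F z * f (ch (z.e01 t)) else 0 := by
    unfold cs
    refine Finset.sum_congr rfl fun z _ => ?_
    by_cases hz : z.On
    · simp only [if_pos hz]
      rw [fam_G_ch (fam_h01 F) f hz, Finset.mul_sum]
    · simp only [if_neg hz]
      rw [Finset.sum_const_zero]
  have e2 : cs (fun F z => ∑ t : F.K, w F (z.e01 (-t))) F f =
      ∑ z : Q5 F.K, ∑ t : F.K, if z.On then w F (z.e01 (-t)) * f (ch z) else 0 := by
    unfold cs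
    refine Finset.sum_congr rfl fun z _ => ?_
    by_cases hz : z.On
    · simp only [if_pos hz]
      rw [Finset.sum_mul]
    · simp only [if_neg hz]
      rw [Finset.sum_const_zero]
  rw [e1, e2, Finset.sum_comm]
  conv_rhs => rw [Finset.sum_comm]
  refine Finset.sum_congr rfl fun t _ => ?_
  have k1 : ∀ (t : F.K) (z : Q5 F.K), (z.e01 t).e01 (-t) = z := by
    intro t z
    ext <;> simp only [Q5.e01] <;> ring
  have k2 : ∀ (t : F.K) (z : Q5 F.K), (z.e01 (-t)).e01 t = z := by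
    intro t z
    ext <;> simp only [Q5.e01] <;> ring
  refine Finset.sum_nbij' (fun z => z.e01 t) (fun z => z.e01 (-t)) (fun _ _ => Finset.mem_univ _)
    (fun _ _ => Finset.mem_univ _) (fun z _ => k1 t z) (fun z _ => k2 t z) ?_
  intro z _
  by_cases hz : z.On
  · rw [if_pos hz, if_pos (hz.e01 t), k1]
  · rw [if_neg hz, if_neg]
    intro h3
    have h4 := h3.e01 (-t)
    rw [k1] at h4
    exact hz h4

theorem cs_add {w w' : (F : FF) → Q5 F.K → ℤ} (h : GG 3 (cs w)) (h' : GG 3 (cs w')) :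
    GG 3 (cs fun F z => w F z + w' F z) := by
  refine GG_congr (GG_add h h') fun F f => ?_
  unfold cs
  rw [← Finset.sum_add_distrib]
  refine Finset.sum_congr rfl fun z _ => ?_
  split_ifs
  · ring
  · ring

theorem cs_mulp (c : Polynomial ℤ) {w : (F : FF) → Q5 F.K → ℤ} (h : GG 3 (cs w)) :
    GG 3 (cs fun F z => c.eval F.q * w F z) := by
  refine GG_congr (GG_mulp c h) fun F f => ?_
  unfold cs
  rw [Finset.mul_sum]
  refine Finset.sum_congr rfl fun z _ => ?_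
  split_ifs
  · ring
  · ring

theorem cs_congr {w w' : (F : FF) → Q5 F.K → ℤ} (h : GG 3 (cs w))
    (e : ∀ (F : FF) (z : Q5 F.K), z.On → w F z = w' F z) : GG 3 (cs w') := by
  refine GG_congr h fun F f => ?_
  unfold cs
  refine Finset.sum_congr rfl fun z _ => ?_
  split_ifs with hz
  · rw [e F z hz]
  · rfl

/-- MODULE CSB: `(q - 1)` times `GG_tri` (`z = B (A', 1, A' D' - e' ^ 2, D', e')`, `ch_smul`). -/
theorem cs_B : GG 3 (cs fun F => ic5 fun z : Q5 F.K => z.B ≠ 0) := by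
  refine GG_congr (fam_mulq1 GG_tri) fun F f => ?_
  have e := fam_par (fun z : Q5 F.K => z.B ≠ 0)
    (fun i : F.K × F.K × F.K => (⟨i.1, 1, i.1 * i.2.1 - i.2.2 ^ 2, i.2.1, i.2.2⟩ : Q5 F.K))
    (fun i => ⟨fun h => one_ne_zero h.2.1, by
      show i.1 * i.2.1 - 1 * (i.1 * i.2.1 - i.2.2 ^ 2) = i.2.2 ^ 2
      ring⟩)
    (fun c i hc => by
      show c * 1 ≠ 0
      rwa [mul_one])
    (fun z hz hB => ⟨z.B, (z.A / z.B, z.D / z.B, z.e / z.B), hB, by
      have hq := hz.quad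
      have hB' : z.B ≠ 0 := hB
      ext
      · show z.A = z.B * (z.A / z.B)
        field_simp
      · show z.B = z.B * 1
        rw [mul_one]
      · show z.C = z.B * (z.A / z.B * (z.D / z.B) - (z.e / z.B) ^ 2)
        field_simp
        linear_combination -hq
      · show z.D = z.B * (z.D / z.B)
        field_simp
      · show z.e = z.B * (z.e / z.B)
        field_simp⟩)
    (fun c c' i i' hc hc' h => by
      have k2 : c * 1 = c' * 1 := congrArg Q5.B h
      rw [mul_one, mul_one] at k2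
      subst k2
      have k1 : c * i.1 = c * i'.1 := congrArg Q5.A h
      have k3 : c * i.2.1 = c * i'.2.1 := congrArg Q5.D h
      have k4 : c * i.2.2 = c * i'.2.2 := congrArg Q5.e h
      exact ⟨rfl, Prod.ext (mul_left_cancel₀ hc k1) (Prod.ext (mul_left_cancel₀ hc k3)
        (mul_left_cancel₀ hc k4))⟩) f
  rw [Fintype.sum_prod_type] at e
  simp only [Fintype.sum_prod_type] at e
  rw [fam_q]
  exact e.symm

/-- MODULE CSB: `(q - 1)` times `GG_star`. -/
theorem cs_C : GG 3 (cs fun F => ic5 fun z : Q5 F.K => z.C ≠ 0) := by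
  refine GG_congr (fam_mulq1 GG_star) fun F f => ?_
  have e := fam_par (fun z : Q5 F.K => z.C ≠ 0)
    (fun i : F.K × F.K × F.K => (⟨i.1, i.1 * i.2.1 - i.2.2 ^ 2, 1, i.2.1, i.2.2⟩ : Q5 F.K))
    (fun i => ⟨fun h => one_ne_zero h.2.2.1, by
      show i.1 * i.2.1 - (i.1 * i.2.1 - i.2.2 ^ 2) * 1 = i.2.2 ^ 2
      ring⟩)
    (fun c i hc => by
      show c * 1 ≠ 0
      rwa [mul_one])
    (fun z hz hC => ⟨z.C, (z.A / z.C, z.D / z.C, z.e / z.C), hC, by
      have hq := hz.quad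
      have hC' : z.C ≠ 0 := hC
      ext
      · show z.A = z.C * (z.A / z.C)
        field_simp
      · show z.B = z.C * (z.A / z.C * (z.D / z.C) - (z.e / z.C) ^ 2)
        field_simp
        linear_combination -hq
      · show z.C = z.C * 1
        rw [mul_one]
      · show z.D = z.C * (z.D / z.C)
        field_simp
      · show z.e = z.C * (z.e / z.C)
        field_simp⟩)
    (fun c c' i i' hc hc' h => by
      have k2 : c * 1 = c' * 1 := congrArg Q5.C h
      rw [mul_one, mul_one] at k2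
      subst k2
      have k1 : c * i.1 = c * i'.1 := congrArg Q5.A h
      have k3 : c * i.2.1 = c * i'.2.1 := congrArg Q5.D h
      have k4 : c * i.2.2 = c * i'.2.2 := congrArg Q5.e h
      exact ⟨rfl, Prod.ext (mul_left_cancel₀ hc k1) (Prod.ext (mul_left_cancel₀ hc k3)
        (mul_left_cancel₀ hc k4))⟩) f
  rw [Fintype.sum_prod_type] at e
  simp only [Fintype.sum_prod_type] at e
  rw [fam_q]
  exact e.symm

private theorem fam_ic {K : Type} {P : Q5 K → Prop} {z : Q5 K} :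
    (P z → ic5 P z = 1) ∧ (¬ P z → ic5 P z = 0) := by
  unfold ic5
  exact ⟨fun h => if_pos h, fun h => if_neg h⟩

/-- `A + D = 2 e` and `B C = 0` on the quadric: `A = D = e` -/
private theorem fam_AD {K : Type} [Field K] {z : Q5 K} (hz : z.On) (h : z.A + z.D = 2 * z.e)
    (hBC : z.B * z.C = 0) : z.A = z.e ∧ z.D = z.e := by
  have h1 : (z.A - z.e) ^ 2 = 0 := by
    have hq := hz.quad
    have h2 : z.D = 2 * z.e - z.A := by linear_combination h
    rw [h2, hBC] at hq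
    linear_combination -hq
  have h2 : z.A - z.e = 0 := pow_eq_zero_iff (two_ne_zero) |>.1 h1
  exact ⟨sub_eq_zero.1 h2, by linear_combination h - h2⟩

/-- MODULE CSS: `A + D = 2 e`, `C = 0` and the quadric give `A = D = e`: the points `(e, B, 0, e, e)`: `(q - 1)` times
`GG_E01` plus `(q - 1)` times `GG_P01`. -/
theorem cs_sC : GG 3 (cs fun F => ic5 fun z : Q5 F.K => z.A + z.D = 2 * z.e ∧ z.C = 0) := by
  have hA : GG 3 (cs fun F => ic5 fun z : Q5 F.K => (z.A + z.D = 2 * z.e ∧ z.C = 0) ∧ z.B ≠ 0) := by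
    refine GG_congr (fam_mulq1 GG_E01) fun F f => ?_
    have e := fam_par (fun z : Q5 F.K => (z.A + z.D = 2 * z.e ∧ z.C = 0) ∧ z.B ≠ 0)
      (fun t : F.K => (⟨t, 1, 0, t, t⟩ : Q5 F.K))
      (fun t => ⟨fun h => one_ne_zero h.2.1, by
        show t * t - 1 * 0 = t ^ 2
        ring⟩)
      (fun c t hc => ⟨⟨by
        show c * t + c * t = 2 * (c * t)
        ring, mul_zero c⟩, by
        show c * 1 ≠ 0
        rwa [mul_one]⟩)
      (fun z hz h => ⟨z.B, z.e / z.B, h.2, by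
        have hB : z.B ≠ 0 := h.2
        obtain ⟨k1, k2⟩ := fam_AD hz h.1.1 (by rw [h.1.2, mul_zero])
        ext
        · show z.A = z.B * (z.e / z.B)
          rw [k1]
          field_simp
        · show z.B = z.B * 1
          rw [mul_one]
        · show z.C = z.B * 0
          rw [h.1.2, mul_zero]
        · show z.D = z.B * (z.e / z.B)
          rw [k2]
          field_simp
        · show z.e = z.B * (z.e / z.B)
          field_simp⟩)
      (fun c c' i i' hc hc' h => by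
        have k2 : c * 1 = c' * 1 := congrArg Q5.B h
        rw [mul_one, mul_one] at k2
        subst k2
        have k1 : c * i = c * i' := congrArg Q5.A h
        exact ⟨rfl, mul_left_cancel₀ hc k1⟩) f
    rw [fam_q]
    exact e.symm
  have hB : GG 3 (cs fun F => ic5 fun z : Q5 F.K => (z.A + z.D = 2 * z.e ∧ z.C = 0) ∧ z.B = 0) := by
    refine GG_congr (fam_mulq1 GG_P01) fun F f => ?_
    have e := fam_par (fun z : Q5 F.K => (z.A + z.D = 2 * z.e ∧ z.C = 0) ∧ z.B = 0)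
      (fun _ : Unit => (⟨1, 0, 0, 1, 1⟩ : Q5 F.K)) (fun _ => fam_onP01 F)
      (fun c t hc => ⟨⟨by
        show c * 1 + c * 1 = 2 * (c * 1)
        ring, mul_zero c⟩, mul_zero c⟩)
      (fun z hz h => ⟨z.e, (), by
        intro he
        obtain ⟨k1, k2⟩ := fam_AD hz h.1.1 (by rw [h.1.2, mul_zero])
        exact hz.nz ⟨by rw [k1, he], h.2, h.1.2, by rw [k2, he], he⟩, by
        obtain ⟨k1, k2⟩ := fam_AD hz h.1.1 (by rw [h.1.2, mul_zero])
        ext
        · show z.A = z.e * 1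
          rw [k1, mul_one]
        · show z.B = z.e * 0
          rw [h.2, mul_zero]
        · show z.C = z.e * 0
          rw [h.1.2, mul_zero]
        · show z.D = z.e * 1
          rw [k2, mul_one]
        · show z.e = z.e * 1
          rw [mul_one]⟩)
      (fun c c' i i' hc hc' h => by
        have k2 : c * 1 = c' * 1 := congrArg Q5.A h
        rw [mul_one, mul_one] at k2
        exact ⟨k2, rfl⟩) f
    rw [fam_q]
    refine Eq.trans ?_ e.symm
    rw [Fintype.sum_unique]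
    rfl
  refine cs_congr (cs_add hA hB) fun F z _ => ?_
  by_cases h : z.A + z.D = 2 * z.e ∧ z.C = 0
  · by_cases hb : z.B = 0
    · rw [fam_ic.2 (fun k => k.2 hb), fam_ic.1 ⟨h, hb⟩, fam_ic.1 h, zero_add]
    · rw [fam_ic.1 ⟨h, hb⟩, fam_ic.2 (fun k => hb k.2), fam_ic.1 h, add_zero]
  · rw [fam_ic.2 (fun k => h k.1), fam_ic.2 (fun k => h k.1), fam_ic.2 h, add_zero]

/-- MODULE CSS: the points `(e, 0, C, e, e)`: `(q - 1)` times `GG_T1` plus `(q - 1)` times `GG_P`. -/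
theorem cs_sB : GG 3 (cs fun F => ic5 fun z : Q5 F.K => z.A + z.D = 2 * z.e ∧ z.B = 0) := by
  have hA : GG 3 (cs fun F => ic5 fun z : Q5 F.K => (z.A + z.D = 2 * z.e ∧ z.B = 0) ∧ z.e ≠ 0) := by
    refine GG_congr (fam_mulq1 GG_T1) fun F f => ?_
    have e := fam_par (fun z : Q5 F.K => (z.A + z.D = 2 * z.e ∧ z.B = 0) ∧ z.e ≠ 0)
      (fun s : F.K => (⟨1, 0, s, 1, 1⟩ : Q5 F.K))
      (fun s => ⟨fun h => one_ne_zero h.1, by
        show (1 : F.K) * 1 - 0 * s = 1 ^ 2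
        ring⟩)
      (fun c t hc => ⟨⟨by
        show c * 1 + c * 1 = 2 * (c * 1)
        ring, mul_zero c⟩, by
        show c * 1 ≠ 0
        rwa [mul_one]⟩)
      (fun z hz h => ⟨z.e, z.C / z.e, h.2, by
        have he : z.e ≠ 0 := h.2
        obtain ⟨k1, k2⟩ := fam_AD hz h.1.1 (by rw [h.1.2, zero_mul])
        ext
        · show z.A = z.e * 1
          rw [k1, mul_one]
        · show z.B = z.e * 0
          rw [h.1.2, mul_zero]
        · show z.C = z.e * (z.C / z.e)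
          field_simp
        · show z.D = z.e * 1
          rw [k2, mul_one]
        · show z.e = z.e * 1
          rw [mul_one]⟩)
      (fun c c' i i' hc hc' h => by
        have k2 : c * 1 = c' * 1 := congrArg Q5.A h
        rw [mul_one, mul_one] at k2
        subst k2
        have k1 : c * i = c * i' := congrArg Q5.C h
        exact ⟨rfl, mul_left_cancel₀ hc k1⟩) f
    rw [fam_q]
    exact e.symm
  have hB : GG 3 (cs fun F => ic5 fun z : Q5 F.K => (z.A + z.D = 2 * z.e ∧ z.B = 0) ∧ z.e = 0) := by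
    refine GG_congr (fam_mulq1 GG_P) fun F f => ?_
    have e := fam_par (fun z : Q5 F.K => (z.A + z.D = 2 * z.e ∧ z.B = 0) ∧ z.e = 0)
      (fun _ : Unit => (⟨0, 0, 1, 0, 0⟩ : Q5 F.K)) (fun _ => fam_onP F)
      (fun c t hc => ⟨⟨by
        show c * 0 + c * 0 = 2 * (c * 0)
        ring, mul_zero c⟩, mul_zero c⟩)
      (fun z hz h => ⟨z.C, (), by
        intro hC
        obtain ⟨k1, k2⟩ := fam_AD hz h.1.1 (by rw [h.1.2, zero_mul])
        exact hz.nz ⟨by rw [k1, h.2], h.1.2, hC, by rw [k2, h.2], h.2⟩, by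
        obtain ⟨k1, k2⟩ := fam_AD hz h.1.1 (by rw [h.1.2, zero_mul])
        ext
        · show z.A = z.C * 0
          rw [k1, h.2, mul_zero]
        · show z.B = z.C * 0
          rw [h.1.2, mul_zero]
        · show z.C = z.C * 1
          rw [mul_one]
        · show z.D = z.C * 0
          rw [k2, h.2, mul_zero]
        · show z.e = z.C * 0
          rw [h.2, mul_zero]⟩)
      (fun c c' i i' hc hc' h => by
        have k2 : c * 1 = c' * 1 := congrArg Q5.C h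
        rw [mul_one, mul_one] at k2
        exact ⟨k2, rfl⟩) f
    rw [fam_q]
    refine Eq.trans ?_ e.symm
    rw [Fintype.sum_unique]
    rfl
  refine cs_congr (cs_add hA hB) fun F z _ => ?_
  by_cases h : z.A + z.D = 2 * z.e ∧ z.B = 0
  · by_cases hb : z.e = 0
    · rw [fam_ic.2 (fun k => k.2 hb), fam_ic.1 ⟨h, hb⟩, fam_ic.1 h, zero_add]
    · rw [fam_ic.1 ⟨h, hb⟩, fam_ic.2 (fun k => hb k.2), fam_ic.1 h, add_zero]
  · rw [fam_ic.2 (fun k => h k.1), fam_ic.2 (fun k => h k.1), fam_ic.2 h, add_zero]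

private theorem fam_csub {w w' : (F : FF) → Q5 F.K → ℤ} (h : GG 3 (cs w)) (h' : GG 3 (cs w')) :
    GG 3 (cs fun F z => w F z - w' F z) := by
  refine cs_congr (cs_add h (cs_mulp (-1) h')) fun F z _ => ?_
  rw [Polynomial.eval_neg, Polynomial.eval_one]
  ring

private theorem fam_cmulq {w : (F : FF) → Q5 F.K → ℤ} (h : GG 3 (cs w)) :
    GG 3 (cs fun F z => F.q * w F z) := by
  refine cs_congr (cs_mulp Polynomial.X h) fun F z _ => ?_
  rw [Polynomial.eval_X]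

/-- the weight `q - 1 + [σ = 0]` -/
private theorem fam_V : GG 3 (cs fun F z =>
    (F.q - 1) + ic5 (fun z : Q5 F.K => z.A + z.D = 2 * z.e) z) := by
  classical
  refine cs_congr (cs_add (cs_e01 cs_C) (fam_cmulq cs_sC)) fun F z _ => ?_
  have e1 : ∀ t : F.K, ic5 (fun z : Q5 F.K => z.C ≠ 0) (z.e01 (-t)) =
      1 - if z.C - t * (z.A + z.D - 2 * z.e) = 0 then (1 : ℤ) else 0 := by
    intro t
    have e2 : (z.e01 (-t)).C = z.C - t * (z.A + z.D - 2 * z.e) := by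
      simp only [Q5.e01]
      ring
    by_cases h : z.C - t * (z.A + z.D - 2 * z.e) = 0
    · rw [if_pos h, fam_ic.2 (fun k => k (by rw [e2, h]))]
      ring
    · rw [if_neg h, fam_ic.1 (fun k => h (by rw [← e2, k]))]
      ring
  rw [Finset.sum_congr rfl fun t _ => e1 t, Finset.sum_sub_distrib, fam_cnt, Finset.sum_const,
    Finset.card_univ, nsmul_eq_mul, mul_one, ← fam_q]
  by_cases hs : z.A + z.D = 2 * z.e
  · have hs' : z.A + z.D - 2 * z.e = 0 := sub_eq_zero.2 hs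
    by_cases hC : z.C = 0
    · rw [if_pos hs', if_pos hC, fam_ic.1 ⟨hs, hC⟩, fam_ic.1 hs]
      ring
    · rw [if_pos hs', if_neg hC, fam_ic.2 (fun k => hC k.2), fam_ic.1 hs]
      ring
  · have hs' : z.A + z.D - 2 * z.e ≠ 0 := fun k => hs (sub_eq_zero.1 k)
    rw [if_neg hs', fam_ic.2 (fun k => hs k.1), fam_ic.2 hs]
    ring

private theorem fam_one : GG 3 (cs fun _ _ => 1) := by
  classical
  refine GG_div ?_
  have h1 := fam_csub (fam_csub (cs_e02 fam_V) cs_B) (fam_cmulq cs_sB)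
  have h2 : GG 3 (cs fun F _ => F.q * (F.q - 1)) := by
    refine cs_congr h1 fun F z _ => ?_
    have e1 : ∀ t : F.K, (F.q - 1) + ic5 (fun z : Q5 F.K => z.A + z.D = 2 * z.e) (z.e02 (-t)) =
        (F.q - 1) + if (z.A + z.D - 2 * z.e) - t * z.B = 0 then (1 : ℤ) else 0 := by
      intro t
      have e2 : (z.e02 (-t)).A + (z.e02 (-t)).D - 2 * (z.e02 (-t)).e =
          (z.A + z.D - 2 * z.e) - t * z.B := by
        simp only [Q5.e02]
        ring
      congr 1
      by_cases h : (z.A + z.D - 2 * z.e) - t * z.B = 0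
      · have k : (z.e02 (-t)).A + (z.e02 (-t)).D = 2 * (z.e02 (-t)).e := sub_eq_zero.1 (e2.trans h)
        rw [if_pos h, (fam_ic (P := fun z : Q5 F.K => z.A + z.D = 2 * z.e)).1 k]
      · have k : ¬ (z.e02 (-t)).A + (z.e02 (-t)).D = 2 * (z.e02 (-t)).e :=
          fun k => h (by rw [← e2, sub_eq_zero.2 k])
        rw [if_neg h, (fam_ic (P := fun z : Q5 F.K => z.A + z.D = 2 * z.e)).2 k]
    show (∑ t : F.K, ((F.q - 1) + ic5 (fun z : Q5 F.K => z.A + z.D = 2 * z.e) (z.e02 (-t)))) -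
      ic5 (fun z : Q5 F.K => z.B ≠ 0) z -
      F.q * ic5 (fun z : Q5 F.K => z.A + z.D = 2 * z.e ∧ z.B = 0) z = F.q * (F.q - 1)
    rw [Finset.sum_congr rfl fun t _ => e1 t, Finset.sum_add_distrib, fam_cnt, Finset.sum_const,
      Finset.card_univ, nsmul_eq_mul, ← fam_q]
    by_cases hB : z.B = 0
    · by_cases hs : z.A + z.D = 2 * z.e
      · have hs' : z.A + z.D - 2 * z.e = 0 := sub_eq_zero.2 hs
        rw [if_pos hB, if_pos hs', fam_ic.2 (fun k => k hB), fam_ic.1 ⟨hs, hB⟩]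
        ring
      · have hs' : z.A + z.D - 2 * z.e ≠ 0 := fun k => hs (sub_eq_zero.1 k)
        rw [if_pos hB, if_neg hs', fam_ic.2 (fun k => k hB), fam_ic.2 (fun k => hs k.1)]
        ring
    · rw [if_neg hB, fam_ic.1 hB, fam_ic.2 (fun k => hB k.2)]
      ring
  refine GG_congr h2 fun F f => ?_
  unfold cs
  rw [Finset.mul_sum]
  refine Finset.sum_congr rfl fun z _ => ?_
  by_cases hz : z.On
  · rw [if_pos hz, if_pos hz, one_mul]
  · rw [if_neg hz, if_neg hz, mul_zero]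

/-- MODULE CS1. Proof. `w1 z = #{t : C - t σ ≠ 0} = (q - 1) + [σ = 0] - q [σ = 0, C = 0]` with `σ = A + D - 2 e`, from
`cs_e01` of `cs_C` (`e01 (-t)` changes `C` to `C - t σ`; use only the points of the quadric); adding `q` times `cs_sC`:
`V = (q - 1) + [σ = 0]` is good. `cs_e02` of `V`: `σ (e02 (-t) z) = σ - t B`, so
`∑ t, V = (q - 1) q + [B ≠ 0] + q [B = 0, σ = 0]`; subtract `cs_B` and `q` times `cs_sB`: `(q - 1) q` times the constant
weight `1` is good; divide (`GG_div`). -/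
theorem cs_one : GG 3 (cs fun _ _ => 1) :=
  fam_one

/-- MODULE CS1: `V - (q - 1)`. -/
theorem cs_U : GG 3 (cs fun F => ic5 fun z : Q5 F.K => z.A + z.D = 2 * z.e) := by
  refine cs_congr (fam_csub fam_V (cs_mulp (Polynomial.X - 1) cs_one)) fun F z _ => ?_
  rw [Polynomial.eval_sub, Polynomial.eval_X, Polynomial.eval_one]
  ring

end Pool.Agent.PLN
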