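import Pool.Agent.PLN.BFam
import Pool.Agent.PLN.BCnt

/-!
# Part B: values of good families which are scalars
-/

set_option autoImplicit false

open scoped BigOperators

namespace Pool.Agent.PLN

/-- MODULE SA: mirror image of `SPH_A`. -/
theorem SPH_D : SPH fun F => ic5 fun z : Q5 F.K => z.D ≠ 0 := by
  exact SPH_rl SPH_A

/-- MODULE SA: rotation of `SPH_A`: the coordinate `A` of `z.rfz` is `A + D - 2 e`. -/
theorem SPH_sig : SPH fun F => ic5 fun z : Q5 F.K => z.A + z.D - 2 * z.e ≠ 0 := by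
  exact SPH_rf SPH_A

private theorem ST_homO {K : Type} [Field K] :
    Hom (ic5 fun z : Q5 K => z.A = 0 ∧ z.C = 0 ∧ z.D = 0 ∧ z.e = 0) := by
  refine Hom.ic5 fun c z hc => ?_
  simp only [Q5.smul, mul_eq_zero, hc, false_or]

private theorem ST_ic {K : Type} {P Q : Q5 K → Prop} {z w : Q5 K} (h : P z ↔ Q w) :
    ic5 P z = ic5 Q w := by
  classical
  unfold ic5
  by_cases h1 : P z
  · rw [if_pos h1, if_pos (h.1 h1)]
  · rw [if_neg h1, if_neg (fun h2 => h1 (h.2 h2))]

private theorem ST_not {K : Type} (P : Q5 K → Prop) (z : Q5 K) :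
    ic5 (fun z => ¬ P z) z = 1 - ic5 P z := by
  classical
  unfold ic5
  by_cases h1 : P z
  · rw [if_neg (not_not.2 h1), if_pos h1]
    norm_num
  · rw [if_pos h1, if_neg h1]
    norm_num

private theorem ST_q (F : FF) : F.q = (Fintype.card F.K : ℤ) := by
  change (Nat.card F.K : ℤ) = (Fintype.card F.K : ℤ)
  rw [Nat.card_eq_fintype_card]

private theorem ST_const (F : FF) (a : ℤ) : ∑ _t : F.K, a = F.q * a := by
  rw [Finset.sum_const, Finset.card_univ, nsmul_eq_mul, ST_q]

/-- The sum (1). -/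
private theorem ST_first : SPH fun F z => (F.q ^ 3 - F.q ^ 2) +
    F.q ^ 2 * ic5 (fun z : Q5 F.K => z.A = 0 ∧ z.C = 0 ∧ z.D = 0 ∧ z.e = 0) z := by
  refine SPH_congr (SPH_s2 (SPH_s1 (SPH_s0 SPH_B)))
    (fun F => (Hom.const _).add (Hom.mulc _ ST_homO)) fun F z hz => ?_
  have h1 := cnt_spk hz
  have h2 : ∀ a b c : F.K, ic5 (fun z : Q5 F.K => z.B ≠ 0) (((z.s2 a).s1 b).s0 c) =
      1 - ic5 (fun z : Q5 F.K => z.B = 0) (((z.s2 a).s1 b).s0 c) := fun a b c => ST_not _ _
  simp only [h2, Finset.sum_sub_distrib, ST_const]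
  rw [h1, ST_q]
  ring

/-- The number of the triples for which the result is the point `O`. -/
private theorem ST_cnt {K : Type} [Field K] [Fintype K] {z : Q5 K} (hz : z.On) :
    ∑ a : K, ∑ b : K, ∑ c : K, ic5 (fun z : Q5 K => z.A = 0 ∧ z.C = 0 ∧ z.D = 0 ∧ z.e = 0)
      (((z.e02 a).e12 b).e01 c) = ic5 (fun z : Q5 K => z.B ≠ 0) z := by
  classical
  by_cases hB : z.B = 0
  · have h0 : ic5 (fun z : Q5 K => z.B ≠ 0) z = 0 := by
      unfold ic5
      rw [if_neg (not_not.2 hB)]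
    rw [h0]
    refine Finset.sum_eq_zero fun a _ => Finset.sum_eq_zero fun b _ =>
      Finset.sum_eq_zero fun c _ => ?_
    unfold ic5
    rw [if_neg]
    rintro ⟨h1, h2, h3, h4⟩
    simp only [Q5.e02, Q5.e12, Q5.e01, hB, mul_zero, add_zero] at h1 h2 h3 h4
    rw [h1, h3, h4] at h2
    exact hz.nz ⟨h1, hB, by linear_combination h2, h3, h4⟩
  · have h0 : ic5 (fun z : Q5 K => z.B ≠ 0) z = 1 := by
      unfold ic5
      rw [if_pos hB]
    rw [h0]
    have key : ∀ a b c : K, ic5 (fun z : Q5 K => z.A = 0 ∧ z.C = 0 ∧ z.D = 0 ∧ z.e = 0)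
        (((z.e02 a).e12 b).e01 c) = if c = -z.e / z.B then (if b = (-z.A + z.e) / z.B then
          (if a = (-z.D + z.e) / z.B then 1 else 0) else 0) else 0 := by
      intro a b c
      have hon := ((hz.e02 a).e12 b).e01 c
      unfold ic5
      by_cases h1 : c = -z.e / z.B ∧ b = (-z.A + z.e) / z.B ∧ a = (-z.D + z.e) / z.B
      · rw [if_pos h1.1, if_pos h1.2.1, if_pos h1.2.2]
        have e1 : (((z.e02 a).e12 b).e01 c).A = 0 := by
          simp only [Q5.e02, Q5.e12, Q5.e01]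
          rw [h1.1, h1.2.1]
          field_simp
          ring
        have e2 : (((z.e02 a).e12 b).e01 c).D = 0 := by
          simp only [Q5.e02, Q5.e12, Q5.e01]
          rw [h1.1, h1.2.2]
          field_simp
          ring
        have e3 : (((z.e02 a).e12 b).e01 c).e = 0 := by
          simp only [Q5.e02, Q5.e12, Q5.e01]
          rw [h1.1]
          field_simp
          ring
        have e4 : (((z.e02 a).e12 b).e01 c).C = 0 := by
          have h2 := hon.quad
          rw [e1, e2, e3] at h2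
          have h3 : (((z.e02 a).e12 b).e01 c).B = z.B := rfl
          rw [h3] at h2
          have h4 : z.B * (((z.e02 a).e12 b).e01 c).C = 0 := by linear_combination -h2
          exact (mul_eq_zero.1 h4).resolve_left hB
        rw [if_pos ⟨e1, e4, e2, e3⟩]
      · rw [if_neg]
        · by_cases hc : c = -z.e / z.B
          · rw [if_pos hc]
            by_cases hb : b = (-z.A + z.e) / z.B
            · rw [if_pos hb, if_neg (fun ha => h1 ⟨hc, hb, ha⟩)]
            · rw [if_neg hb]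
          · rw [if_neg hc]
        · rintro ⟨h2, -, h4, h5⟩
          simp only [Q5.e02, Q5.e12, Q5.e01] at h2 h4 h5
          refine h1 ⟨?_, ?_, ?_⟩
          · rw [eq_div_iff hB]
            linear_combination h5
          · rw [eq_div_iff hB]
            linear_combination h2 - h5
          · rw [eq_div_iff hB]
            linear_combination h4 - h5
    simp only [key]
    rw [Finset.sum_eq_single ((-z.D + z.e) / z.B)]
    · rw [Finset.sum_eq_single ((-z.A + z.e) / z.B)]
      · rw [Finset.sum_eq_single (-z.e / z.B)]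
        · rw [if_pos rfl, if_pos rfl, if_pos rfl]
        · intro c _ hc
          rw [if_neg hc]
        · intro h
          exact absurd (Finset.mem_univ _) h
      · intro b _ hb
        refine Finset.sum_eq_zero fun c _ => ?_
        rw [if_neg hb]
        simp
      · intro h
        exact absurd (Finset.mem_univ _) h
    · intro a _ ha
      refine Finset.sum_eq_zero fun b _ => Finset.sum_eq_zero fun c _ => ?_
      rw [if_neg ha]
      simp
    · intro h
      exact absurd (Finset.mem_univ _) h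

/-- MODULE ST: the total mass. Proof. `1 - [B = 0]` averaged with `s2`, `s1`, `s0` (`SPH_s0 (SPH_s1 ..)`, so that the sum is the
one of `cnt_spk`): `(q ^ 3 - q ^ 2) + q ^ 2 [z = O]` is in `SPH` (1). Averaging (1) with `e02`, `e12`, `e01` gives
`(q ^ 3 - q ^ 2) q ^ 3 + q ^ 2 #{t : e.. z = O}`, and the number of the triples for which the result is `O = (0, B, 0, 0, 0)` is
`[B ≠ 0]`: the three parameters are determined by `A, D, e`, and `C = 0` follows from the quadric. So
`q ^ 5 (q - 1) + q ^ 2 [B ≠ 0]` is in `SPH`; subtract `q ^ 2` times `SPH_B` and divide. -/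
theorem SPH_one : SPH fun _ _ => 1 := by
  have h1 : SPH fun F z => F.q ^ 5 * (F.q - 1) +
      F.q ^ 2 * ic5 (fun z : Q5 F.K => z.B ≠ 0) z := by
    refine SPH_congr (SPH_e02 (SPH_e12 (SPH_e01 ST_first)))
      (fun F => (Hom.const _).add (Hom.mulc _ (SPH_B.hom F))) fun F z hz => ?_
    simp only [Finset.sum_add_distrib, ST_const, ← Finset.mul_sum]
    rw [ST_cnt hz]
    ring
  have h2 : SPH fun F z => F.q * (F.q * (F.q * (F.q * (F.q * ((F.q - 1) * 1))))) := by
    refine SPH_congr (SPH_sub h1 (SPH_poly (Polynomial.X ^ 2) SPH_B))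
      (fun F => Hom.const _) fun F z hz => ?_
    rw [Polynomial.eval_pow, Polynomial.eval_X]
    ring
  exact SPH_divq1 (SPH_divq (SPH_divq (SPH_divq (SPH_divq (SPH_divq h2)))))

/-- MODULE ST: from (1) of `SPH_one`. -/
theorem SPH_O : SPH fun F => ic5 fun z : Q5 F.K => z.A = 0 ∧ z.C = 0 ∧ z.D = 0 ∧ z.e = 0 := by
  have h2 : SPH fun F z => F.q * (F.q *
      ic5 (fun z : Q5 F.K => z.A = 0 ∧ z.C = 0 ∧ z.D = 0 ∧ z.e = 0) z) := by
    refine SPH_congr (SPH_sub ST_first (SPH_poly (Polynomial.X ^ 3 - Polynomial.X ^ 2) SPH_one))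
      (fun F => Hom.mulc _ (Hom.mulc _ ST_homO)) fun F z hz => ?_
    rw [Polynomial.eval_sub, Polynomial.eval_pow, Polynomial.eval_pow, Polynomial.eval_X]
    ring
  exact SPH_divq (SPH_divq h2)

/-- MODULE SQ: all terminals identified. Proof. `[C ≠ 0]` averaged with `e02`, `e12`, `e01`: the coordinate `C` of
`((z.e01 a).e12 b).e02 c` is `C + a σ2 + b D + c A + (a b + a c + b c) B`; this is `cnt_spk` for the dual point
`(D, C, B, A, e)` (exchange `B` and `C`, `A` and `D`), so the number of zeros is `q ^ 2`, except for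
`A = B = D = e = 0`. Subtract multiples of `SPH_one`. -/
theorem SPH_P : SPH fun F => ic5 fun z : Q5 F.K => z.A = 0 ∧ z.B = 0 ∧ z.D = 0 ∧ z.e = 0 := by
  have hhom : ∀ F : FF, Hom (ic5 fun z : Q5 F.K => z.A = 0 ∧ z.B = 0 ∧ z.D = 0 ∧ z.e = 0) := by
    intro F
    refine Hom.ic5 fun c z hc => ?_
    simp only [Q5.smul, mul_eq_zero, hc, false_or]
  have h1 : SPH fun F z => (F.q ^ 3 - F.q ^ 2) +
      F.q ^ 2 * ic5 (fun z : Q5 F.K => z.A = 0 ∧ z.B = 0 ∧ z.D = 0 ∧ z.e = 0) z := by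
    refine SPH_congr (SPH_e01 (SPH_e12 (SPH_e02 SPH_C)))
      (fun F => (Hom.const _).add (Hom.mulc _ (hhom F))) fun F z hz => ?_
    have hz' : (⟨z.D, z.C, z.B, z.A, z.e⟩ : Q5 F.K).On := by
      refine ⟨fun h => hz.nz ⟨h.2.2.2.1, h.2.2.1, h.2.1, h.1, h.2.2.2.2⟩, ?_⟩
      linear_combination hz.quad
    have h1 := cnt_spk hz'
    have h2 : ∀ a b c : F.K, ic5 (fun z : Q5 F.K => z.C ≠ 0) (((z.e01 a).e12 b).e02 c) =
        1 - ic5 (fun z : Q5 F.K => z.B = 0)
          ((((⟨z.D, z.C, z.B, z.A, z.e⟩ : Q5 F.K).s2 a).s1 b).s0 c) := by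
      intro a b c
      rw [ST_not (fun z : Q5 F.K => z.C = 0)]
      congr 1
      refine ST_ic ?_
      simp only [Q5.e01, Q5.e12, Q5.e02, Q5.s2, Q5.s1, Q5.s0]
      have e : z.C + a * (z.A + z.D - 2 * z.e) + b * (z.D + a * z.B) +
          c * (z.A + a * z.B + b * z.B) = z.C + a * (z.D + z.A - 2 * z.e) +
          b * (z.D + a * z.B) + c * (z.A + a * z.B + b * z.B) := by ring
      rw [e]
    simp only [h2, Finset.sum_sub_distrib, ST_const]
    rw [h1, ST_q]
    have h3 : ic5 (fun z : Q5 F.K => z.A = 0 ∧ z.C = 0 ∧ z.D = 0 ∧ z.e = 0)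
        (⟨z.D, z.C, z.B, z.A, z.e⟩ : Q5 F.K) =
        ic5 (fun z : Q5 F.K => z.A = 0 ∧ z.B = 0 ∧ z.D = 0 ∧ z.e = 0) z := by
      refine ST_ic ?_
      tauto
    rw [h3]
    ring
  have h2 : SPH fun F z => F.q * (F.q *
      ic5 (fun z : Q5 F.K => z.A = 0 ∧ z.B = 0 ∧ z.D = 0 ∧ z.e = 0) z) := by
    refine SPH_congr (SPH_sub h1 (SPH_poly (Polynomial.X ^ 3 - Polynomial.X ^ 2) SPH_one))
      (fun F => Hom.mulc _ (Hom.mulc _ (hhom F))) fun F z hz => ?_
    rw [Polynomial.eval_sub, Polynomial.eval_pow, Polynomial.eval_pow, Polynomial.eval_X]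
    ring
  exact SPH_divq (SPH_divq h2)

private theorem SR_lin {K : Type} [Field K] [Fintype K] (z : Q5 K) (s b : K) (f : K → Q5 K)
    (P Q R : Q5 K → Prop) (hP : ∀ r, P (f r) ↔ b + r * s ≠ 0) (hQ : Q z ↔ s = 0 ∧ b = 0)
    (hR : R z ↔ s ≠ 0) : ∑ r : K, ic5 P (f r) + (Fintype.card K : ℤ) * ic5 Q z =
      (Fintype.card K : ℤ) - ic5 R z := by
  classical
  have h1 := cnt_lin b s
  have h2 : ∑ r : K, ic5 P (f r) =
      (Fintype.card K : ℤ) - ∑ r : K, (if b + r * s = 0 then (1 : ℤ) else 0) := by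
    have h3 : ∀ r : K, ic5 P (f r) = 1 - (if b + r * s = 0 then (1 : ℤ) else 0) := by
      intro r
      unfold ic5
      by_cases h4 : b + r * s = 0
      · rw [if_neg (fun h5 => (hP r).1 h5 h4), if_pos h4]
        norm_num
      · rw [if_pos ((hP r).2 h4), if_neg h4]
        norm_num
    rw [Finset.sum_congr rfl fun r _ => h3 r, Finset.sum_sub_distrib]
    simp
  rw [h2]
  unfold ic5
  by_cases hs : s = 0
  · rw [if_neg (fun h => hR.1 h hs)]
    by_cases hb : b = 0
    · rw [if_neg (not_not.2 hs), if_pos hb] at h1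
      rw [if_pos (hQ.2 ⟨hs, hb⟩)]
      linarith
    · rw [if_neg (not_not.2 hs), if_neg hb] at h1
      rw [if_neg (fun h => hb (hQ.1 h).2)]
      linarith
  · rw [if_pos hs] at h1
    rw [if_pos (hR.2 hs), if_neg (fun h => hs (hQ.1 h).1)]
    linarith

/-- MODULE SR: `[σ = 0, B = 0]`, `σ = A + D - 2 e`. Proof. `[B ≠ 0]` averaged with `s2` is `(q - 1) [σ ≠ 0] + q [σ = 0] [B ≠ 0]`
(`cnt_lin`; `s2` does not change `σ`); so `[σ = 0, B ≠ 0]` is in `SPH`, and `[σ = 0, B = 0] = 1 - [σ ≠ 0] - [σ = 0, B ≠ 0]`. -/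
theorem SPH_sB : SPH fun F => ic5 fun z : Q5 F.K => z.A + z.D - 2 * z.e = 0 ∧ z.B = 0 := by
  have hhom : ∀ F : FF, Hom (ic5 fun z : Q5 F.K => z.A + z.D - 2 * z.e = 0 ∧ z.B = 0) := by
    intro F
    refine Hom.ic5 fun c z hc => ?_
    have e : c * z.A + c * z.D - 2 * (c * z.e) = c * (z.A + z.D - 2 * z.e) := by ring
    simp only [Q5.smul, e, mul_eq_zero, hc, false_or]
  have h2 : SPH fun F z => F.q *
      ic5 (fun z : Q5 F.K => z.A + z.D - 2 * z.e = 0 ∧ z.B = 0) z := by
    refine SPH_congr (SPH_sub (SPH_sub (SPH_poly Polynomial.X SPH_one) SPH_sig) (SPH_s2 SPH_B))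
      (fun F => Hom.mulc _ (hhom F)) fun F z hz => ?_
    rw [Polynomial.eval_X]
    have h3 := SR_lin z (z.A + z.D - 2 * z.e) z.B (fun r => z.s2 r)
      (fun z : Q5 F.K => z.B ≠ 0) (fun z : Q5 F.K => z.A + z.D - 2 * z.e = 0 ∧ z.B = 0)
      (fun z : Q5 F.K => z.A + z.D - 2 * z.e ≠ 0) (fun r => Iff.rfl) Iff.rfl Iff.rfl
    rw [← ST_q] at h3
    linarith
  exact SPH_divq h2

/-- MODULE SR: the same with `[C ≠ 0]` and `e01`. -/
theorem SPH_sC : SPH fun F => ic5 fun z : Q5 F.K => z.A + z.D - 2 * z.e = 0 ∧ z.C = 0 := by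
  have hhom : ∀ F : FF, Hom (ic5 fun z : Q5 F.K => z.A + z.D - 2 * z.e = 0 ∧ z.C = 0) := by
    intro F
    refine Hom.ic5 fun c z hc => ?_
    have e : c * z.A + c * z.D - 2 * (c * z.e) = c * (z.A + z.D - 2 * z.e) := by ring
    simp only [Q5.smul, e, mul_eq_zero, hc, false_or]
  have h2 : SPH fun F z => F.q *
      ic5 (fun z : Q5 F.K => z.A + z.D - 2 * z.e = 0 ∧ z.C = 0) z := by
    refine SPH_congr (SPH_sub (SPH_sub (SPH_poly Polynomial.X SPH_one) SPH_sig) (SPH_e01 SPH_C))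
      (fun F => Hom.mulc _ (hhom F)) fun F z hz => ?_
    rw [Polynomial.eval_X]
    have h3 := SR_lin z (z.A + z.D - 2 * z.e) z.C (fun r => z.e01 r)
      (fun z : Q5 F.K => z.C ≠ 0) (fun z : Q5 F.K => z.A + z.D - 2 * z.e = 0 ∧ z.C = 0)
      (fun z : Q5 F.K => z.A + z.D - 2 * z.e ≠ 0) (fun r => Iff.rfl) Iff.rfl Iff.rfl
    rw [← ST_q] at h3
    linarith
  exact SPH_divq h2

/-- MODULE SR2: rotations of `SPH_sB`: the coordinate `σ` of `z.rfz` is `(A + D - 2 e) + A - 2 (A - e) = D`. -/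
theorem SPH_BD : SPH fun F => ic5 fun z : Q5 F.K => z.D = 0 ∧ z.B = 0 := by
  refine SPH_congr (SPH_rf SPH_sB) (fun F => ?_) fun F z _ => ST_ic ?_
  · refine Hom.ic5 fun c z hc => ?_
    simp only [Q5.smul, mul_eq_zero, hc, false_or]
  · simp only [Q5.rfz]
    have e : z.A + z.D - 2 * z.e + z.A - 2 * (z.A - z.e) = z.D := by ring
    rw [e]

/-- MODULE SR2: mirror image of `SPH_BD`. -/
theorem SPH_BA : SPH fun F => ic5 fun z : Q5 F.K => z.A = 0 ∧ z.B = 0 := by
  exact SPH_rl SPH_BD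

/-! ### The operator `U` -/

/-- The function of `U_op`. -/
private noncomputable def UOP_f {K : Type} [Field K] [Fintype K] (φ : Q5 K → ℤ) (z w : Q5 K) : ℤ :=
  ic5 (fun w => z.MulNz w) w * φ (z.mul w)

private theorem UOP_mulr {K : Type} [Field K] (c : K) (z w : Q5 K) :
    z.mul (w.smul c) = (z.mul w).smul c := by
  ext <;> simp only [Q5.smul, Q5.mul] <;> ring

private theorem UOP_mull {K : Type} [Field K] (c : K) (z w : Q5 K) :
    (z.smul c).mul w = (z.mul w).smul c := by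
  ext <;> simp only [Q5.smul, Q5.mul] <;> ring

private theorem UOP_nzr {K : Type} [Field K] {c : K} (hc : c ≠ 0) (z w : Q5 K) :
    z.MulNz (w.smul c) ↔ z.MulNz w := by
  unfold Q5.MulNz
  rw [UOP_mulr]
  simp only [Q5.smul, mul_eq_zero, hc, false_or]

private theorem UOP_nzl {K : Type} [Field K] {c : K} (hc : c ≠ 0) (z w : Q5 K) :
    (z.smul c).MulNz w ↔ z.MulNz w := by
  unfold Q5.MulNz
  rw [UOP_mull]
  simp only [Q5.smul, mul_eq_zero, hc, false_or]

private theorem UOP_hom {K : Type} [Field K] [Fintype K] {φ : Q5 K → ℤ} (hφ : Hom φ) (z : Q5 K) :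
    Hom (UOP_f φ z) := by
  intro c w hc
  unfold UOP_f
  rw [UOP_mulr, hφ c _ hc]
  congr 1
  exact ST_ic (UOP_nzr hc z w)

private theorem UOP_left {K : Type} [Field K] [Fintype K] {φ : Q5 K → ℤ} (hφ : Hom φ) {c : K}
    (hc : c ≠ 0) (z : Q5 K) : UOP_f φ (z.smul c) = UOP_f φ z := by
  funext w
  unfold UOP_f
  rw [UOP_mull, hφ c _ hc]
  congr 1
  unfold ic5
  by_cases h : z.MulNz w
  · rw [if_pos h, if_pos ((UOP_nzl hc z w).2 h)]
  · rw [if_neg h, if_neg (fun h1 => h ((UOP_nzl hc z w).1 h1))]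

private theorem UOP_lift {K : Type} [Field K] {ι : Type} (s : Finset ι) (c : ι → Prop)
    [DecidablePred c] (h : ι → Q5 K → ℤ) (L : St 3 K) :
    lift (fun w => ∑ i ∈ s, if c i then h i w else 0) L =
      ∑ i ∈ s, if c i then lift (h i) L else 0 := by
  classical
  unfold lift
  by_cases hL : ∃ z : Q5 K, z.On ∧ L = ch z
  · simp only [dif_pos hL]
  · simp only [dif_neg hL, ite_self, Finset.sum_const_zero]

private theorem UOP_zero {ν : Fam 3} (h : GG 3 ν) (F : FF) : ν F (fun _ => 0) = 0 := by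
  have h1 := GG_mul' h F 0 (fun _ => 0)
  simp only [mul_zero, zero_mul] at h1
  exact h1

/-- MODULE UOP: for a good family `ν` let `U ν` be the cascade of `cs_U` and `ν`. For homogeneous `φ` the
number `(U ν) (lift φ)` is the value of `ν` at `w ↦ ∑ z ∈ U, [z w ≠ 0] φ (z w)` (`op_cas`, `lift_ch`). -/
theorem U_op {ν : Fam 3} (h : GG 3 ν) : ∃ μ : Fam 3, GG 3 μ ∧ ∀ (F : FF) (φ : Q5 F.K → ℤ), Hom φ →
    μ F (lift φ) = ν F (lift fun w => open Classical in ∑ z : Q5 F.K, if z.On ∧ z.A + z.D = 2 * z.e then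
      ic5 (fun w => z.MulNz w) w * φ (z.mul w) else 0) := by
  obtain ⟨μ, hμ, hop⟩ := op_cas cs_U h
  refine ⟨μ, hμ, fun F φ hφ => ?_⟩
  classical
  rw [hop F (lift φ) (fun z => lift (UOP_f φ z)) (lift fun z => ν F (lift (UOP_f φ z))) ?_ ?_]
  · unfold cs
    have h1 : ν F (lift fun w => ∑ z : Q5 F.K, if z.On ∧ z.A + z.D = 2 * z.e then
        ic5 (fun w => z.MulNz w) w * φ (z.mul w) else 0) =
        ∑ z : Q5 F.K, if z.On ∧ z.A + z.D = 2 * z.e then ν F (lift (UOP_f φ z)) else 0 := by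
      have h2 : (lift fun w => ∑ z : Q5 F.K, if z.On ∧ z.A + z.D = 2 * z.e then
          ic5 (fun w => z.MulNz w) w * φ (z.mul w) else 0) =
          fun L => ∑ z : Q5 F.K, if z.On ∧ z.A + z.D = 2 * z.e then lift (UOP_f φ z) L else 0 := by
        funext L
        exact UOP_lift Finset.univ (fun z : Q5 F.K => z.On ∧ z.A + z.D = 2 * z.e)
          (fun z => UOP_f φ z) L
      rw [h2, GG_sum' h F]
      refine Finset.sum_congr rfl fun z _ => ?_
      by_cases hz : z.On ∧ z.A + z.D = 2 * z.e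
      · rw [if_pos hz]
        simp only [if_pos hz]
      · rw [if_neg hz]
        simp only [if_neg hz]
        exact UOP_zero h F
    have h3 : ν F (lift fun w => open Classical in ∑ z : Q5 F.K,
        if z.On ∧ z.A + z.D = 2 * z.e then ic5 (fun w => z.MulNz w) w * φ (z.mul w) else 0) =
        ∑ z : Q5 F.K, if z.On ∧ z.A + z.D = 2 * z.e then ν F (lift (UOP_f φ z)) else 0 := h1
    rw [h3]
    refine Finset.sum_congr rfl fun z _ => ?_
    by_cases hz : z.On
    · rw [if_pos hz, lift_ch (fun c w hc => by rw [UOP_left hφ hc]) hz]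
      unfold ic5
      dsimp only
      by_cases hz' : z.A + z.D = 2 * z.e
      · rw [if_pos hz', if_pos ⟨hz, hz'⟩, one_mul]
      · rw [if_neg hz', if_neg (fun h => hz' h.2), zero_mul]
    · rw [if_neg hz, if_neg (fun h => hz h.1)]
  · intro z w hz hw
    rw [lift_ch (UOP_hom hφ z) hw]
    unfold UOP_f
    by_cases hnz : z.MulNz w
    · rw [lift_ch hφ (hz.mul hw hnz)]
    · have h0 : ic5 (fun w => z.MulNz w) w = 0 := by
        unfold ic5
        rw [if_neg hnz]
      rw [h0, zero_mul, zero_mul]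
  · intro z hz
    exact lift_ch (fun c w hc => by rw [UOP_left hφ hc]) hz

/-- The number of `z ∈ U` with `z w = 0`. -/
noncomputable def irr {K : Type} [Field K] [Fintype K] (w : Q5 K) : ℤ :=
  open Classical in ∑ z : Q5 K, if z.On ∧ z.A + z.D = 2 * z.e then 1 - ic5 (fun w => z.MulNz w) w else 0

private theorem UIR_SPH {φ : (F : FF) → Q5 F.K → ℤ} (h : SPH φ) : SPH fun F w =>
    open Classical in ∑ z : Q5 F.K, if z.On ∧ z.A + z.D = 2 * z.e then
      ic5 (fun w => z.MulNz w) w * φ F (z.mul w) else 0 := by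
  classical
  refine ⟨fun F => ?_, fun ν hν => ?_⟩
  · intro c w hc
    refine Finset.sum_congr rfl fun z _ => ?_
    by_cases hz : z.On ∧ z.A + z.D = 2 * z.e
    · rw [if_pos hz, if_pos hz]
      exact UOP_hom (h.hom F) z c w hc
    · rw [if_neg hz, if_neg hz]
  · obtain ⟨μ, hμ, hop⟩ := U_op hν
    exact Scal_congr (h.sp μ hμ) fun F => hop F (φ F) (h.hom F)

private theorem UIR_hom {K : Type} [Field K] [Fintype K] : Hom (K := K) irr := by
  intro c w hc
  unfold irr
  refine Finset.sum_congr rfl fun z _ => ?_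
  have h1 : ic5 (fun w => z.MulNz w) (w.smul c) = ic5 (fun w => z.MulNz w) w :=
    ST_ic (UOP_nzr hc z w)
  rw [h1]

/-- MODULE UIR: `(U ν) (1)` is the value of `ν` at `(q ^ 3 - 1) - irr` (`card_U`). -/
theorem SPH_irr : SPH fun _ w => irr w := by
  classical
  refine SPH_congr (SPH_sub (SPH_poly (Polynomial.X ^ 3 - 1) SPH_one) (UIR_SPH SPH_one))
    (fun F => UIR_hom) fun F w _ => ?_
  rw [Polynomial.eval_sub, Polynomial.eval_pow, Polynomial.eval_X, Polynomial.eval_one, mul_one,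
    ST_q, ← card_U F.two_ne, ← Finset.sum_sub_distrib]
  unfold irr
  refine Finset.sum_congr rfl fun z _ => ?_
  by_cases hz : z.On ∧ z.A + z.D = 2 * z.e
  · rw [if_pos hz, if_pos hz, if_pos hz, mul_one]
  · rw [if_neg hz, if_neg hz, if_neg hz, sub_zero]

/-- MODULE UP: only the point `01|2`. Proof. For `φ = [σ = 0] = [Λ_1 = 0]` the sum of `U_op` is `cnt_U1` minus `irr`
(if `z w = 0` then `Λ_1 (z w) = 0`). `SPH_sig`, `SPH_one`, `SPH_irr`, divide by `q ^ 2 (q - 1)`. -/
theorem SPH_P01 : SPH fun F => ic5 fun z : Q5 F.K => z.A = z.e ∧ z.B = 0 ∧ z.C = 0 ∧ z.D = z.e := by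
  classical
  have hs : SPH fun F => ic5 fun z : Q5 F.K => z.A + z.D - 2 * z.e = 0 := by
    refine SPH_congr (SPH_sub SPH_one SPH_sig) (fun F => ?_) fun F z _ => ?_
    · refine Hom.ic5 fun c z hc => ?_
      have e : c * z.A + c * z.D - 2 * (c * z.e) = c * (z.A + z.D - 2 * z.e) := by ring
      simp only [Q5.smul, e, mul_eq_zero, hc, false_or]
    · rw [ST_not (fun z : Q5 F.K => z.A + z.D - 2 * z.e = 0)]
      ring
  have h2 : SPH fun F z => F.q * (F.q * ((F.q - 1) *
      ic5 (fun z : Q5 F.K => z.A = z.e ∧ z.B = 0 ∧ z.C = 0 ∧ z.D = z.e) z)) := by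
    refine SPH_congr (SPH_add (SPH_sub (UIR_SPH hs) (SPH_poly (Polynomial.X ^ 2 - 1) SPH_one))
      SPH_irr) (fun F => Hom.mulc _ (Hom.mulc _ (Hom.mulc _ ?_))) fun F w hw => ?_
    · refine Hom.ic5 fun c z hc => ?_
      simp only [Q5.smul, mul_eq_zero, hc, false_or, mul_right_inj' hc]
    · have h3 := cnt_U1 F.two_ne hw
      have h4 : (∑ z : Q5 F.K, if z.On ∧ z.A + z.D = 2 * z.e then
          ic5 (fun w => z.MulNz w) w * ic5 (fun z : Q5 F.K => z.A + z.D - 2 * z.e = 0) (z.mul w)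
            else 0) + irr w = ∑ z : Q5 F.K, if z.On ∧ z.A + z.D = 2 * z.e then
          (if Lam 1 (z.mul w) = 0 then (1 : ℤ) else 0) else 0 := by
        unfold irr
        rw [← Finset.sum_add_distrib]
        refine Finset.sum_congr rfl fun z _ => ?_
        by_cases hz : z.On ∧ z.A + z.D = 2 * z.e
        · rw [if_pos hz, if_pos hz, if_pos hz]
          have h5 : Lam 1 (z.mul w) = (z.mul w).A + (z.mul w).D - 2 * (z.mul w).e := by
            unfold Lam
            ring
          by_cases hnz : z.MulNz w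
          · have h6 : ic5 (fun w => z.MulNz w) w = 1 := by
              unfold ic5
              rw [if_pos hnz]
            rw [h6, h5]
            unfold ic5
            ring
          · have h6 : ic5 (fun w => z.MulNz w) w = 0 := by
              unfold ic5
              rw [if_neg hnz]
            have h7 : Lam 1 (z.mul w) = 0 := by
              rw [h5]
              unfold Q5.MulNz at hnz
              rw [not_not] at hnz
              rw [hnz.1, hnz.2.2.2.1, hnz.2.2.2.2]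
              ring
            rw [h6, if_pos h7]
            ring
        · rw [if_neg hz, if_neg hz, if_neg hz, add_zero]
      have h5 : (∑ z : Q5 F.K, if z.On ∧ z.A + z.D = 2 * z.e then
          ic5 (fun w => z.MulNz w) w * ic5 (fun z : Q5 F.K => z.A + z.D - 2 * z.e = 0) (z.mul w)
            else 0) + irr w = F.q ^ 2 - 1 + (F.q ^ 3 - F.q ^ 2) *
      ic5 (fun w : Q5 F.K => w.A = w.e ∧ w.B = 0 ∧ w.C = 0 ∧ w.D = w.e) w := by
        rw [h4, ST_q]
        exact h3
      rw [Polynomial.eval_sub, Polynomial.eval_pow, Polynomial.eval_X, Polynomial.eval_one]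
      linarith
  exact SPH_divq1 (SPH_divq (SPH_divq h2))

/-- MODULE UY: `A = e = D`. Proof: then `B C = 0` by the quadric, and `A = e = D` iff (`σ = 0` and (`B = 0` or `C = 0`)): indeed
`σ = 0`, `B C = 0` give `(A - D) ^ 2 = (A + D) ^ 2 - 4 A D = 4 e ^ 2 - 4 e ^ 2 = 0`. So it is
`SPH_sB + SPH_sC - [σ = 0, B = C = 0]`, and the last one is `SPH_P01`. -/
theorem SPH_Y : SPH fun F => ic5 fun z : Q5 F.K => z.A = z.e ∧ z.D = z.e := by
  classical
  refine SPH_congr (SPH_sub (SPH_add SPH_sB SPH_sC) SPH_P01) (fun F => ?_) fun F z hz => ?_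
  · refine Hom.ic5 fun c z hc => ?_
    simp only [Q5.smul, mul_right_inj' hc]
  · have hq := hz.quad
    have h2 := F.two_ne
    unfold ic5
    by_cases hY : z.A = z.e ∧ z.D = z.e
    · obtain ⟨hA, hD⟩ := hY
      have hBC : z.B * z.C = 0 := by
        rw [hA, hD] at hq
        linear_combination -hq
      have hs : z.A + z.D - 2 * z.e = 0 := by
        rw [hA, hD]
        ring
      rcases mul_eq_zero.1 hBC with hB | hC
      · by_cases hC : z.C = 0
        · rw [if_pos ⟨hs, hB⟩, if_pos ⟨hs, hC⟩, if_pos ⟨hA, hB, hC, hD⟩, if_pos ⟨hA, hD⟩]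
          norm_num
        · rw [if_pos ⟨hs, hB⟩, if_neg (fun h => hC h.2), if_neg (fun h => hC h.2.2.1),
            if_pos ⟨hA, hD⟩]
          norm_num
      · by_cases hB : z.B = 0
        · rw [if_pos ⟨hs, hB⟩, if_pos ⟨hs, hC⟩, if_pos ⟨hA, hB, hC, hD⟩, if_pos ⟨hA, hD⟩]
          norm_num
        · rw [if_neg (fun h => hB h.2), if_pos ⟨hs, hC⟩, if_neg (fun h => hB h.2.1),
            if_pos ⟨hA, hD⟩]
          norm_num
    · have key : ¬ (z.A + z.D - 2 * z.e = 0 ∧ z.B * z.C = 0) := by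
        rintro ⟨h3, h4⟩
        apply hY
        have h5 : (z.A - z.D) ^ 2 = 0 := by
          linear_combination (z.A + z.D + 2 * z.e) * h3 - 4 * hq - 4 * h4
        have h6 : z.A - z.D = 0 := pow_eq_zero_iff (two_ne_zero) |>.1 h5
        have h7 : (2 : F.K) * (z.A - z.e) = 0 := by linear_combination h3 + h6
        have h8 : z.A - z.e = 0 := (mul_eq_zero.1 h7).resolve_left h2
        exact ⟨by linear_combination h8, by linear_combination h8 - h6⟩
      rw [if_neg (fun h => key ⟨h.1, by rw [h.2, zero_mul]⟩),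
        if_neg (fun h => key ⟨h.1, by rw [h.2, mul_zero]⟩),
        if_neg (fun h => hY ⟨h.1, h.2.2.2⟩), if_neg hY]
      norm_num

end Pool.Agent.PLN
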