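import Pool.Agent.PLN.BDefs

/-!
# Part B: operations on the states with three terminals, in coordinates

All formulas of this file were checked by computer for the field with five elements.
-/

set_option autoImplicit false

open scoped BigOperators

namespace Pool.Agent.PLN

variable {K : Type} [Field K]

private theorem BST_mem {z : Q5 K} {p i : Fin 3 → K} (p0 p1 p2 i0 i1 i2 : K) (h0 : p 0 = p0)
    (h1 : p 1 = p1) (h2 : p 2 = p2) (k0 : i 0 = i0) (k1 : i 1 = i1) (k2 : i 2 = i2) :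
    ((p, i) : (Fin 3 → K) × (Fin 3 → K)) ∈ ch z ↔ i0 + i1 + i2 = 0 ∧
      z.e * (p0 - p2) = z.A * (p1 - p2) - z.B * i1 ∧
      z.e * i0 = z.C * (p1 - p2) - z.D * i1 ∧
      z.D * (p0 - p2) - z.B * i0 = z.e * (p1 - p2) ∧
      z.A * i0 - z.C * (p0 - p2) = - (z.e * i1) := by
  subst h0 h1 h2 k0 k1 k2
  exact mem_ch

private theorem BST_of {k : ℕ} {L : St k K} {x y : (Fin k → K) × (Fin k → K)} (h : y ∈ L)
    (h1 : ∀ j, y.1 j = x.1 j) (h2 : ∀ j, y.2 j = x.2 j) : x ∈ L :=
  (Prod.ext (funext h1) (funext h2) : y = x) ▸ h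

/-- MODULE CHS. Proof: the five equations are multiplied by `c`. -/
theorem ch_smul {c : K} (hc : c ≠ 0) (z : Q5 K) : ch (z.smul c) = ch z := by
  ext x
  rw [mem_ch, mem_ch]
  simp only [Q5.smul]
  constructor
  · rintro ⟨h0, h1, h2, h3, h4⟩
    exact ⟨h0, mul_left_cancel₀ hc (by linear_combination h1), mul_left_cancel₀ hc (by linear_combination h2),
      mul_left_cancel₀ hc (by linear_combination h3), mul_left_cancel₀ hc (by linear_combination h4)⟩
  · rintro ⟨h0, h1, h2, h3, h4⟩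
    exact ⟨h0, by linear_combination c * h1, by linear_combination c * h2, by linear_combination c * h3,
      by linear_combination c * h4⟩

private theorem CHX_aux {A B C D e v0 v1 i0 i1 w0 w1 j0 j1 : K}
    (nz : ¬ (A = 0 ∧ B = 0 ∧ C = 0 ∧ D = 0 ∧ e = 0))
    (h1 : e * v0 = A * v1 - B * i1) (h2 : e * i0 = C * v1 - D * i1)
    (h3 : D * v0 - B * i0 = e * v1) (h4 : A * i0 - C * v0 = - (e * i1))
    (k1 : e * w0 = A * w1 - B * j1) (k2 : e * j0 = C * w1 - D * j1)
    (k3 : D * w0 - B * j0 = e * w1) (k4 : A * j0 - C * w0 = - (e * j1)) :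
    v0 * j0 + v1 * j1 - w0 * i0 - w1 * i1 = 0 := by
  by_cases he : e = 0
  · subst he
    simp only [zero_mul, neg_zero] at h1 h2 h3 h4 k1 k2 k3 k4
    have hA : A * (v0 * j0 + v1 * j1 - w0 * i0 - w1 * i1) = 0 := by
      linear_combination v0 * k4 - w0 * h4 - j1 * h1 + i1 * k1
    have hB : B * (v0 * j0 + v1 * j1 - w0 * i0 - w1 * i1) = 0 := by
      linear_combination (-v0) * k3 + w0 * h3 - w1 * h1 + v1 * k1
    have hC : C * (v0 * j0 + v1 * j1 - w0 * i0 - w1 * i1) = 0 := by
      linear_combination (-j0) * h4 + i0 * k4 - j1 * h2 + i1 * k2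
    have hD : D * (v0 * j0 + v1 * j1 - w0 * i0 - w1 * i1) = 0 := by
      linear_combination j0 * h3 - i0 * k3 + v1 * k2 - w1 * h2
    by_contra hne
    have f : ∀ t : K, t * (v0 * j0 + v1 * j1 - w0 * i0 - w1 * i1) = 0 → t = 0 :=
      fun t ht => (mul_eq_zero.1 ht).resolve_right hne
    exact nz ⟨f A hA, f B hB, f C hC, f D hD, rfl⟩
  · have h : e ^ 2 * (v0 * j0 + v1 * j1 - w0 * i0 - w1 * i1) = 0 := by
      linear_combination e * j0 * h1 - e * i0 * k1 + e * v1 * k4 - e * w1 * h4 +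
        B * j1 * h2 - B * i1 * k2 + C * v1 * k1 - C * w1 * h1
    exact (mul_eq_zero.1 h).resolve_left (pow_ne_zero 2 he)

/-- MODULE CHX: the state is isotropic. -/
theorem ch_isot {z : Q5 K} (hz : z.On) {x y : (Fin 3 → K) × (Fin 3 → K)} (hx : x ∈ ch z) (hy : y ∈ ch z) :
    ∑ j, (x.1 j * y.2 j - y.1 j * x.2 j) = 0 := by
  obtain ⟨h0, h1, h2, h3, h4⟩ := hx
  obtain ⟨k0, k1, k2, k3, k4⟩ := hy
  have := CHX_aux hz.nz h1 h2 h3 h4 k1 k2 k3 k4
  rw [Fin.sum_univ_three]
  linear_combination this + x.1 2 * k0 - y.1 2 * h0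

private theorem CHG_mem {L : St 3 K} (h : Good L) {x : (Fin 3 → K) × (Fin 3 → K)} :
    x ∈ L ↔ ∀ y ∈ L, x.1 0 * y.2 0 + x.1 1 * y.2 1 + x.1 2 * y.2 2 - y.1 0 * x.2 0 - y.1 1 * x.2 1
      - y.1 2 * x.2 2 = 0 := by
  rw [h.lag x]
  refine forall₂_congr fun y _ => ?_
  rw [Fin.sum_univ_three]
  constructor
  · intro k; linear_combination k
  · intro k; linear_combination k

/-- the Pluecker coordinates are not all zero -/
private theorem CHG_pl {L : St 3 K} (h : Good L) : ∃ x ∈ L, ∃ y ∈ L,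
    ¬ ((x.1 0 - x.1 2) * y.2 1 - x.2 1 * (y.1 0 - y.1 2) = 0 ∧
      (x.1 0 - x.1 2) * (y.1 1 - y.1 2) - (x.1 1 - x.1 2) * (y.1 0 - y.1 2) = 0 ∧
      x.2 0 * y.2 1 - x.2 1 * y.2 0 = 0 ∧
      x.2 0 * (y.1 1 - y.1 2) - (x.1 1 - x.1 2) * y.2 0 = 0 ∧
      (x.1 1 - x.1 2) * y.2 1 - x.2 1 * (y.1 1 - y.1 2) = 0) := by
  by_contra hcon
  push Not at hcon
  have key : ∀ x ∈ L, ∀ y ∈ L, (x.1 0 - x.1 2) * y.2 1 - x.2 1 * (y.1 0 - y.1 2) = 0 ∧
      (x.1 0 - x.1 2) * (y.1 1 - y.1 2) - (x.1 1 - x.1 2) * (y.1 0 - y.1 2) = 0 ∧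
      x.2 0 * y.2 1 - x.2 1 * y.2 0 = 0 ∧
      x.2 0 * (y.1 1 - y.1 2) - (x.1 1 - x.1 2) * y.2 0 = 0 ∧
      (x.1 1 - x.1 2) * y.2 1 - x.2 1 * (y.1 1 - y.1 2) = 0 := hcon
  have hsum : ∀ y ∈ L, y.2 0 + y.2 1 + y.2 2 = 0 := by
    intro y hy
    have := h.sum hy
    rwa [Fin.sum_univ_three] at this
  have z1 : ∀ x ∈ L, x.1 0 - x.1 2 = 0 ∧ x.1 1 - x.1 2 = 0 ∧ x.2 0 = 0 ∧ x.2 1 = 0 := by
    intro x hx
    have m1 : ((![0, 0, 0] : Fin 3 → K), (![x.1 1 - x.1 2, -(x.1 0 - x.1 2),
        (x.1 0 - x.1 2) - (x.1 1 - x.1 2)] : Fin 3 → K)) ∈ L := by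
      rw [CHG_mem h]
      intro y hy
      have := (key x hx y hy).2.1
      simp
      linear_combination this
    have m2 : ((![x.2 1, - x.2 0, 0] : Fin 3 → K), (![0, 0, 0] : Fin 3 → K)) ∈ L := by
      rw [CHG_mem h]
      intro y hy
      have := (key x hx y hy).2.2.1
      simp
      linear_combination -this
    have k1 := key x hx _ m1
    have k2 := key x hx _ m2
    simp only [Matrix.cons_val_zero, Matrix.cons_val_one, Matrix.cons_val, sub_zero, mul_zero,
      zero_sub] at k1 k2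
    have sq : ∀ t : K, t * t = 0 → t = 0 := fun t ht => mul_self_eq_zero.1 ht
    obtain ⟨k11, k12, k13, k14, k15⟩ := k1
    obtain ⟨k21, k22, k23, k24, k25⟩ := k2
    have hv1 : x.1 1 - x.1 2 = 0 := sq _ (by linear_combination -k14)
    have hi1 : x.2 1 = 0 := sq _ (by linear_combination -k21)
    have hv0 : x.1 0 - x.1 2 = 0 := sq _ (by linear_combination -k11)
    have hi0 : x.2 0 = 0 := sq _ (by linear_combination -k24)
    exact ⟨hv0, hv1, hi0, hi1⟩
  have m3 : ((![1, 0, 0] : Fin 3 → K), (![0, 0, 0] : Fin 3 → K)) ∈ L := by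
    rw [CHG_mem h]
    intro y hy
    have := (z1 y hy).2.2.1
    simp
    exact this
  have := (z1 _ m3).1
  simp at this

theorem ch_of_good {L : St 3 K} (h : Good L) : ∃ z : Q5 K, z.On ∧ L = ch z := by
  obtain ⟨x, hx, y, hy, hne⟩ := CHG_pl h
  have hsum : ∀ y ∈ L, y.2 0 + y.2 1 + y.2 2 = 0 := by
    intro y hy
    have := h.sum hy
    rwa [Fin.sum_univ_three] at this
  have w := (CHG_mem h).1 hx y hy
  have sx := hsum x hx
  have sy := hsum y hy
  have w' : (x.1 0 - x.1 2) * y.2 0 + (x.1 1 - x.1 2) * y.2 1 - (y.1 0 - y.1 2) * x.2 0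
      - (y.1 1 - y.1 2) * x.2 1 = 0 := by
    linear_combination w - x.1 2 * sy + y.1 2 * sx
  set z : Q5 K := ⟨(x.1 0 - x.1 2) * y.2 1 - x.2 1 * (y.1 0 - y.1 2),
    (x.1 0 - x.1 2) * (y.1 1 - y.1 2) - (x.1 1 - x.1 2) * (y.1 0 - y.1 2),
    x.2 0 * y.2 1 - x.2 1 * y.2 0,
    x.2 0 * (y.1 1 - y.1 2) - (x.1 1 - x.1 2) * y.2 0,
    (x.1 1 - x.1 2) * y.2 1 - x.2 1 * (y.1 1 - y.1 2)⟩ with hzdef
  have hz : z.On := by
    refine ⟨hne, ?_⟩
    simp only [hzdef]
    linear_combination (-((x.1 1 - x.1 2) * y.2 1 - x.2 1 * (y.1 1 - y.1 2))) * w'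
  have sub : ∀ u ∈ L, u ∈ ch z := by
    intro u hu
    have su := hsum u hu
    have ux := (CHG_mem h).1 hu x hx
    have uy := (CHG_mem h).1 hu y hy
    have ux' : (u.1 0 - u.1 2) * x.2 0 + (u.1 1 - u.1 2) * x.2 1 - (x.1 0 - x.1 2) * u.2 0
        - (x.1 1 - x.1 2) * u.2 1 = 0 := by
      linear_combination ux - u.1 2 * sx + x.1 2 * su
    have uy' : (u.1 0 - u.1 2) * y.2 0 + (u.1 1 - u.1 2) * y.2 1 - (y.1 0 - y.1 2) * u.2 0
        - (y.1 1 - y.1 2) * u.2 1 = 0 := by
      linear_combination uy - u.1 2 * sy + y.1 2 * su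
    refine ⟨su, ?_, ?_, ?_, ?_⟩
    · simp only [hzdef]
      linear_combination (u.1 0 - u.1 2) * w' - (x.1 0 - x.1 2) * uy' + (y.1 0 - y.1 2) * ux'
    · simp only [hzdef]
      linear_combination u.2 0 * w' - x.2 0 * uy' + y.2 0 * ux'
    · simp only [hzdef]
      linear_combination (y.1 1 - y.1 2) * ux' - (x.1 1 - x.1 2) * uy'
    · simp only [hzdef]
      linear_combination -y.2 1 * ux' + x.2 1 * uy'
  refine ⟨z, hz, le_antisymm sub fun u hu => ?_⟩
  rw [h.lag u]
  intro v hv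
  exact ch_isot hz hu (sub v hv)

private theorem CHI_mem {z : Q5 K} {v0 v1 i0 i1 : K} :
    ((![v0, v1, 0] : Fin 3 → K), (![i0, i1, -(i0 + i1)] : Fin 3 → K)) ∈ ch z ↔
      z.e * v0 = z.A * v1 - z.B * i1 ∧ z.e * i0 = z.C * v1 - z.D * i1 ∧
      z.D * v0 - z.B * i0 = z.e * v1 ∧ z.A * i0 - z.C * v0 = - (z.e * i1) := by
  rw [mem_ch]
  simp only [Matrix.cons_val_zero, Matrix.cons_val_one, Matrix.cons_val, sub_zero]
  constructor
  · rintro ⟨-, h⟩
    exact h
  · intro h
    exact ⟨by ring, h⟩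

theorem ch_inj {z w : Q5 K} (hz : z.On) (hw : w.On) (h : ch z = ch w) :
    ∃ c : K, c ≠ 0 ∧ w = z.smul c := by
  obtain ⟨A, B, C, D, e⟩ := z
  obtain ⟨a, b, c, d, f⟩ := w
  have q := hz.quad
  have nz := hz.nz
  have nw := hw.nz
  simp only at q nz nw
  have m1 : ((![A, e, 0] : Fin 3 → K), (![C, 0, -(C + 0)] : Fin 3 → K)) ∈
      ch (⟨a, b, c, d, f⟩ : Q5 K) := by
    rw [← h, CHI_mem]
    exact ⟨by ring, by ring, by linear_combination q, by ring⟩
  have m2 : ((![B, 0, 0] : Fin 3 → K), (![D, -e, -(D + -e)] : Fin 3 → K)) ∈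
      ch (⟨a, b, c, d, f⟩ : Q5 K) := by
    rw [← h, CHI_mem]
    exact ⟨by ring, by ring, by ring, by linear_combination q⟩
  have m3 : ((![e, D, 0] : Fin 3 → K), (![0, C, -(0 + C)] : Fin 3 → K)) ∈
      ch (⟨a, b, c, d, f⟩ : Q5 K) := by
    rw [← h, CHI_mem]
    exact ⟨by linear_combination -q, by ring, by ring, by ring⟩
  have m4 : ((![0, -B, 0] : Fin 3 → K), (![e, -A, -(e + -A)] : Fin 3 → K)) ∈
      ch (⟨a, b, c, d, f⟩ : Q5 K) := by
    rw [← h, CHI_mem]
    exact ⟨by ring, by linear_combination -q, by ring, by ring⟩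
  rw [CHI_mem] at m1 m2 m3 m4
  obtain ⟨a1, a2, a3, a4⟩ := m1
  obtain ⟨b1, b2, b3, b4⟩ := m2
  obtain ⟨c1, c2, c3, c4⟩ := m3
  obtain ⟨d1, d2, d3, d4⟩ := m4
  simp only at a1 a2 a3 a4 b1 b2 b3 b4 c1 c2 c3 c4 d1 d2 d3 d4
  -- the minors
  have AB : a * B = b * A := by linear_combination d1
  have AC : a * C = c * A := by linear_combination a4
  have AD : a * D = d * A := by linear_combination -c1 - a3
  have Ae : a * e = f * A := by linear_combination -a1
  have BC : b * C = c * B := by linear_combination b4 + c1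
  have BD : b * D = d * B := by linear_combination -b3
  have Be : b * e = f * B := by linear_combination -b1
  have CD : c * D = d * C := by linear_combination -c2
  have Ce : c * e = f * C := by linear_combination -a2
  have De : d * e = f * D := by linear_combination c3
  -- the factor
  have key : ∃ t : K, a = t * A ∧ b = t * B ∧ c = t * C ∧ d = t * D ∧ f = t * e := by
    by_cases hA : A = 0
    · by_cases hB : B = 0
      · by_cases hC : C = 0
        · by_cases hD : D = 0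
          · have he : e ≠ 0 := fun he => nz ⟨hA, hB, hC, hD, he⟩
            refine ⟨f / e, ?_, ?_, ?_, ?_, ?_⟩ <;> field_simp <;> assumption
          · refine ⟨d / D, ?_, ?_, ?_, ?_, ?_⟩ <;> field_simp <;> first | assumption | (symm; assumption)
        · refine ⟨c / C, ?_, ?_, ?_, ?_, ?_⟩ <;> field_simp <;> first | assumption | (symm; assumption)
      · refine ⟨b / B, ?_, ?_, ?_, ?_, ?_⟩ <;> field_simp <;> first | assumption | (symm; assumption)
    · refine ⟨a / A, ?_, ?_, ?_, ?_, ?_⟩ <;> field_simp <;> first | assumption | (symm; assumption)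
  obtain ⟨t, t1, t2, t3, t4, t5⟩ := key
  refine ⟨t, ?_, ?_⟩
  · rintro rfl
    exact nw ⟨by rw [t1, zero_mul], by rw [t2, zero_mul], by rw [t3, zero_mul], by rw [t4, zero_mul],
      by rw [t5, zero_mul]⟩
  · simp only [Q5.smul, t1, t2, t3, t4, t5]

/-- MODULE CHE. -/
theorem sh_ch (t : K) (z : Q5 K) : sh (n := 1) t (ch z) = ch (z.e02 t) := by
  ext x
  have m : x ∈ sh (n := 1) t (ch z) ↔ ((x.1, x.2 - (t * (x.1 (Fin.last (1 + 1)) - x.1 0)) •
    (Pi.single (Fin.last (1 + 1)) 1 - Pi.single 0 1 : Fin (1 + 2) → K)) :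
      (Fin 3 → K) × (Fin 3 → K)) ∈ ch z := Iff.rfl
  refine (m.trans (BST_mem (x.1 0) (x.1 1) (x.1 2) (x.2 0 + t * (x.1 2 - x.1 0)) (x.2 1)
    (x.2 2 - t * (x.1 2 - x.1 0)) (by rfl) (by rfl) (by rfl) (by simp) (by simp) (by simp))).trans ?_
  rw [mem_ch]
  simp only [Q5.e02]
  constructor
  · rintro ⟨h0, h1, h2, h3, h4⟩
    exact ⟨by linear_combination h0, by linear_combination h1, by linear_combination h2 + t * h1,
      by linear_combination h3, by linear_combination h4⟩
  · rintro ⟨h0, h1, h2, h3, h4⟩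
    exact ⟨by linear_combination h0, by linear_combination h1, by linear_combination h2 - t * h1,
      by linear_combination h3, by linear_combination h4⟩

/-- MODULE CHRF. The equations for the ground `0` (old) instead of `2`; use the quadric for the converse. -/
theorem rf_ch {z : Q5 K} (hz : z.On) : rf (n := 2) (ch z) = ch z.rfz := by
  ext x
  have m : x ∈ rf (n := 2) (ch z) ↔ (((Fin.cons (x.1 (Fin.last 2)) (Fin.init x.1) : Fin (2 + 1) → K),
    (Fin.cons (x.2 (Fin.last 2)) (Fin.init x.2) : Fin (2 + 1) → K)) : (Fin 3 → K) × (Fin 3 → K)) ∈ ch z :=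
    Iff.rfl
  refine (m.trans (BST_mem (x.1 2) (x.1 0) (x.1 1) (x.2 2) (x.2 0) (x.2 1) (by rfl) (by rfl) (by rfl)
    (by rfl) (by rfl) (by rfl))).trans ?_
  rw [mem_ch]
  simp only [Q5.rfz]
  constructor
  · rintro ⟨h0, h1, h2, h3, h4⟩
    exact ⟨by linear_combination h0, by linear_combination h3 - h1 + z.B * h0,
      by linear_combination -h4 + z.A * h0, by linear_combination -h1,
      by linear_combination h2 - h4 + (z.A - z.e) * h0⟩
  · rintro ⟨h0, h1, h2, h3, h4⟩
    exact ⟨by linear_combination h0, by linear_combination -h3,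
      by linear_combination h4 - h2 + z.e * h0,
      by linear_combination h1 - h3 - z.B * h0, by linear_combination z.A * h0 - h2⟩

/-- MODULE CHRB. From `rf_ch`, `rb_rf` and `rb (rf L) = L`, or directly. -/
theorem rb_ch {z : Q5 K} (hz : z.On) : rb (n := 2) (ch z) = ch z.rbz := by
  ext x
  have m : x ∈ rb (n := 2) (ch z) ↔ (((Fin.snoc (Fin.tail x.1) (x.1 0) : Fin (2 + 1) → K),
    (Fin.snoc (Fin.tail x.2) (x.2 0) : Fin (2 + 1) → K)) : (Fin 3 → K) × (Fin 3 → K)) ∈ ch z :=
    Iff.rfl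
  refine (m.trans (BST_mem (x.1 1) (x.1 2) (x.1 0) (x.2 1) (x.2 2) (x.2 0) (by rfl) (by rfl) (by rfl)
    (by rfl) (by rfl) (by rfl))).trans ?_
  rw [mem_ch]
  simp only [Q5.rbz]
  constructor
  · rintro ⟨h0, h1, h2, h3, h4⟩
    exact ⟨by linear_combination h0, by linear_combination -h3,
      by linear_combination h4 - h2 + (z.D - z.e) * h0,
      by linear_combination h1 - h3 - z.B * h0,
      by linear_combination -h2 + z.D * h0⟩
  · rintro ⟨h0, h1, h2, h3, h4⟩
    exact ⟨by linear_combination h0, by linear_combination h3 - h1 + z.B * h0,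
      by linear_combination z.D * h0 - h4,
      by linear_combination -h1, by linear_combination h2 - h4 + z.e * h0⟩

/-- MODULE CHRL. -/
theorem rl_ch {z : Q5 K} (hz : z.On) : rl (ch z) = ch z.rlz := by
  ext x
  have m : x ∈ rl (ch z) ↔ ((![x.1 1, x.1 0, x.1 2], ![x.2 1, x.2 0, x.2 2]) :
    (Fin 3 → K) × (Fin 3 → K)) ∈ ch z := Iff.rfl
  refine (m.trans (BST_mem (x.1 1) (x.1 0) (x.1 2) (x.2 1) (x.2 0) (x.2 2) (by rfl) (by rfl) (by rfl)
    (by rfl) (by rfl) (by rfl))).trans ?_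
  rw [mem_ch]
  simp only [Q5.rlz]
  constructor
  · rintro ⟨h0, h1, h2, h3, h4⟩
    exact ⟨by linear_combination h0, by linear_combination -h3, by linear_combination h4,
      by linear_combination -h1, by linear_combination h2⟩
  · rintro ⟨h0, h1, h2, h3, h4⟩
    exact ⟨by linear_combination h0, by linear_combination -h3, by linear_combination h4,
      by linear_combination -h1, by linear_combination h2⟩

/-- MODULE CHSP. -/
theorem spk_ch (r : K) (z : Q5 K) : spk (n := 2) r (ch z) = ch (z.s0 r) := by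
  ext x
  have m : x ∈ spk (n := 2) r (ch z) ↔ ((x.1 - Pi.single 0 (r * x.2 0), x.2) :
    (Fin 3 → K) × (Fin 3 → K)) ∈ ch z := Iff.rfl
  refine (m.trans (BST_mem (x.1 0 - r * x.2 0) (x.1 1) (x.1 2) (x.2 0) (x.2 1) (x.2 2) (by simp) (by simp)
    (by simp) (by rfl) (by rfl) (by rfl))).trans ?_
  rw [mem_ch]
  simp only [Q5.s0]
  constructor
  · rintro ⟨h0, h1, h2, h3, h4⟩
    exact ⟨h0, by linear_combination h1 + r * h2, by linear_combination h2, by linear_combination h3,
      by linear_combination h4⟩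
  · rintro ⟨h0, h1, h2, h3, h4⟩
    exact ⟨h0, by linear_combination h1 - r * h2, by linear_combination h2, by linear_combination h3,
      by linear_combination h4⟩

/-- MODULE CHSL. -/
theorem spkl_ch (r : K) {z : Q5 K} (hz : z.On) : spkl (n := 2) r (ch z) = ch (z.s2 r) := by
  ext x
  have m : x ∈ spkl (n := 2) r (ch z) ↔ ((x.1 - Pi.single (Fin.last 2) (r * x.2 (Fin.last 2)), x.2) :
    (Fin 3 → K) × (Fin 3 → K)) ∈ ch z := Iff.rfl
  refine (m.trans (BST_mem (x.1 0) (x.1 1) (x.1 2 - r * x.2 2) (x.2 0) (x.2 1) (x.2 2) (by simp) (by simp)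
    (by simp) (by rfl) (by rfl) (by rfl))).trans ?_
  rw [mem_ch]
  simp only [Q5.s2]
  constructor
  · rintro ⟨h0, h1, h2, h3, h4⟩
    exact ⟨h0, by linear_combination h1 + r * h2 - r * h4 + r * (z.A - z.e) * h0,
      by linear_combination h2 + r * z.C * h0,
      by linear_combination h3 + r * h2 - r * h4 - r * (z.D - z.e) * h0,
      by linear_combination h4 + r * z.C * h0⟩
  · rintro ⟨h0, h1, h2, h3, h4⟩
    exact ⟨h0, by linear_combination h1 - r * h2 + r * h4 - r * (z.A - z.e) * h0,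
      by linear_combination h2 - r * z.C * h0,
      by linear_combination h3 - r * h2 + r * h4 + r * (z.D - z.e) * h0,
      by linear_combination h4 - r * z.C * h0⟩

private theorem MEMC_wd {L M : St 3 K} (p i : Fin 5 → K) :
    ((p, i) : (Fin 5 → K) × (Fin 5 → K)) ∈ wd (n := 2) (m := 2) (rf (n := 2) L) M ↔ ∃ c' : K,
      ((![p 2, p 0, p 1] : Fin 3 → K), (![i 2, i 0 - c', i 1] : Fin 3 → K)) ∈ L ∧
      ((![p 0, p 3, p 4] : Fin 3 → K), (![c', i 3, i 4] : Fin 3 → K)) ∈ M := by
  constructor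
  · rintro ⟨c', h1, h2⟩
    exact ⟨c', BST_of (L := L) h1 (fun j => by fin_cases j <;> rfl)
      (fun j => by fin_cases j <;> first | rfl | exact sub_zero _),
      BST_of (L := M) h2 (fun j => by fin_cases j <;> rfl) (fun j => by fin_cases j <;> rfl)⟩
  · rintro ⟨c', h1, h2⟩
    exact ⟨c', BST_of (L := L) h1 (fun j => by fin_cases j <;> rfl)
      (fun j => by fin_cases j <;> first | rfl | exact (sub_zero _).symm),
      BST_of (L := M) h2 (fun j => by fin_cases j <;> rfl) (fun j => by fin_cases j <;> rfl)⟩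

/-- MODULE MEMC: the elements of the cascade. -/
theorem mem_casS {L M : St 3 K} {x : (Fin 3 → K) × (Fin 3 → K)} : x ∈ casS L M ↔
    ∃ a c c' : K, ((![x.1 0, a, x.1 2] : Fin 3 → K), (![x.2 0, -c', x.2 2 - c] : Fin 3 → K)) ∈ L ∧
      ((![a, x.1 1, x.1 2] : Fin 3 → K), (![c', x.2 1, c] : Fin 3 → K)) ∈ M := by
  have m : x ∈ casS L M ↔ ∃ c a : K, (((Fin.cons a (Fin.snoc (Fin.cons (x.1 (Fin.last 2)) (Fin.init x.1) :
      Fin (2 + 1) → K) ((Fin.cons (x.1 (Fin.last 2)) (Fin.init x.1) : Fin (2 + 1) → K) 0) :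
      Fin (2 + 2) → K) : Fin (4 + 1) → K),
      (Fin.cons 0 (Fin.snoc ((Fin.cons (x.2 (Fin.last 2)) (Fin.init x.2) : Fin (2 + 1) → K) - Pi.single 0 c)
        c : Fin (2 + 2) → K) : Fin (4 + 1) → K)) : (Fin 5 → K) × (Fin 5 → K)) ∈
      wd (n := 2) (m := 2) (rf (n := 2) L) M := Iff.rfl
  rw [m]
  constructor
  · rintro ⟨c, a, h⟩
    obtain ⟨c', h1, h2⟩ := (MEMC_wd _ _).1 h
    exact ⟨a, c, c', BST_of h1 (fun j => by fin_cases j <;> rfl)
      (fun j => by fin_cases j <;> first | rfl | exact sub_zero _ | exact zero_sub _),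
      BST_of h2 (fun j => by fin_cases j <;> rfl)
      (fun j => by fin_cases j <;> first | rfl | exact sub_zero _)⟩
  · rintro ⟨a, c, c', h1, h2⟩
    refine ⟨c, a, (MEMC_wd _ _).2 ⟨c', BST_of h1 (fun j => by fin_cases j <;> rfl)
      (fun j => by fin_cases j <;> first | rfl | exact (sub_zero _).symm | exact (zero_sub _).symm),
      BST_of h2 (fun j => by fin_cases j <;> rfl)
      (fun j => by fin_cases j <;> first | rfl | exact (sub_zero _).symm)⟩⟩

private theorem CASR_iff {z w : Q5 K} : casR (ch z) (ch w) ↔ ∀ a c : K,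
    (z.A * a = z.B * c ∧ z.C * a = z.D * c ∧ z.e * a = 0 ∧ z.e * c = 0) →
    (w.e * a = 0 ∧ w.e * c = 0 ∧ w.D * a + w.B * c = 0 ∧ w.A * c + w.C * a = 0) → a = 0 ∧ c = 0 := by
  have m1 : ∀ a c c' : K, (((![0, a, 0] : Fin 3 → K), (![0, -c', -c] : Fin 3 → K)) :
      (Fin 3 → K) × (Fin 3 → K)) ∈ ch z ↔
      -c' - c = 0 ∧ z.A * a + z.B * c' = 0 ∧ z.C * a + z.D * c' = 0 ∧ z.e * a = 0 ∧ z.e * c' = 0 := by
    intro a c c'
    refine (BST_mem 0 a 0 0 (-c') (-c) (by rfl) (by rfl) (by rfl) (by rfl) (by rfl) (by rfl)).trans ?_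
    constructor
    · rintro ⟨h0, h1, h2, h3, h4⟩
      exact ⟨by linear_combination h0, by linear_combination -h1, by linear_combination -h2,
        by linear_combination -h3, by linear_combination -h4⟩
    · rintro ⟨h0, h1, h2, h3, h4⟩
      exact ⟨by linear_combination h0, by linear_combination -h1, by linear_combination -h2,
        by linear_combination -h3, by linear_combination -h4⟩
  have m2 : ∀ a c c' : K, (((![a, 0, 0] : Fin 3 → K), (![c', 0, c] : Fin 3 → K)) :
      (Fin 3 → K) × (Fin 3 → K)) ∈ ch w ↔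
      c' + c = 0 ∧ w.e * a = 0 ∧ w.e * c' = 0 ∧ w.D * a - w.B * c' = 0 ∧ w.A * c' - w.C * a = 0 := by
    intro a c c'
    refine (BST_mem a 0 0 c' 0 c (by rfl) (by rfl) (by rfl) (by rfl) (by rfl) (by rfl)).trans ?_
    constructor
    · rintro ⟨h0, h1, h2, h3, h4⟩
      exact ⟨by linear_combination h0, by linear_combination h1, by linear_combination h2,
        by linear_combination h3, by linear_combination h4⟩
    · rintro ⟨h0, h1, h2, h3, h4⟩
      exact ⟨by linear_combination h0, by linear_combination h1, by linear_combination h2,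
        by linear_combination h3, by linear_combination h4⟩
  have m3 : ∀ a : K, (((Fin.cons a 0 : Fin (4 + 1) → K), (0 : Fin (4 + 1) → K)) :
      (Fin 5 → K) × (Fin 5 → K)) ∈ wd (n := 2) (m := 2) (rf (n := 2) (ch z)) (ch w) ↔ ∃ c' : K,
      (((![0, a, 0] : Fin 3 → K), (![0, -c', -0] : Fin 3 → K)) : (Fin 3 → K) × (Fin 3 → K)) ∈ ch z ∧
      (((![a, 0, 0] : Fin 3 → K), (![c', 0, 0] : Fin 3 → K)) : (Fin 3 → K) × (Fin 3 → K)) ∈ ch w := by
    intro a
    refine (MEMC_wd _ _).trans (exists_congr fun c' => and_congr ?_ ?_)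
    · refine iff_of_eq (congrArg (fun y : (Fin 3 → K) × (Fin 3 → K) => y ∈ ch z)
        (Prod.ext (funext fun j => ?_) (funext fun j => ?_))) <;> fin_cases j <;>
        first | rfl | exact zero_sub _ | exact neg_zero.symm
    · refine iff_of_eq (congrArg (fun y : (Fin 3 → K) × (Fin 3 → K) => y ∈ ch w)
        (Prod.ext (funext fun j => ?_) (funext fun j => ?_))) <;> fin_cases j <;> rfl
  have m4 : ∀ c : K, (((0 : Fin (2 + 2) → K), (Fin.snoc (-Pi.single 0 c) c : Fin (2 + 2) → K)) :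
      (Fin 4 → K) × (Fin 4 → K)) ∈ cl (n := 4) (wd (n := 2) (m := 2) (rf (n := 2) (ch z)) (ch w)) ↔
      ∃ a c' : K,
      (((![0, a, 0] : Fin 3 → K), (![0, -c', -c] : Fin 3 → K)) : (Fin 3 → K) × (Fin 3 → K)) ∈ ch z ∧
      (((![a, 0, 0] : Fin 3 → K), (![c', 0, c] : Fin 3 → K)) : (Fin 3 → K) × (Fin 3 → K)) ∈ ch w := by
    intro c
    refine exists_congr fun a => (MEMC_wd _ _).trans (exists_congr fun c' => and_congr ?_ ?_)
    · refine iff_of_eq (congrArg (fun y : (Fin 3 → K) × (Fin 3 → K) => y ∈ ch z)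
        (Prod.ext (funext fun j => ?_) (funext fun j => ?_))) <;> fin_cases j <;>
        first | rfl | exact neg_zero | exact zero_sub _
    · refine iff_of_eq (congrArg (fun y : (Fin 3 → K) × (Fin 3 → K) => y ∈ ch w)
        (Prod.ext (funext fun j => ?_) (funext fun j => ?_))) <;> fin_cases j <;>
        first | rfl | exact neg_zero
  have m5 : casR (ch z) (ch w) ↔ (∀ a : K, (((Fin.cons a 0 : Fin (4 + 1) → K), (0 : Fin (4 + 1) → K)) :
      (Fin 5 → K) × (Fin 5 → K)) ∈ wd (n := 2) (m := 2) (rf (n := 2) (ch z)) (ch w) → a = 0) ∧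
    ∀ c : K, (((0 : Fin (2 + 2) → K), (Fin.snoc (-Pi.single 0 c) c : Fin (2 + 2) → K)) :
      (Fin 4 → K) × (Fin 4 → K)) ∈ cl (n := 4) (wd (n := 2) (m := 2) (rf (n := 2) (ch z)) (ch w)) →
      c = 0 := Iff.rfl
  rw [m5]
  constructor
  · rintro ⟨h1, h2⟩ a c ⟨k1, k2, k3, k4⟩ ⟨l1, l2, l3, l4⟩
    have hc : c = 0 := h2 c ((m4 c).2 ⟨a, -c, (m1 a c (-c)).2 ⟨by ring, by linear_combination k1,
      by linear_combination k2, k3, by linear_combination -k4⟩, (m2 a c (-c)).2 ⟨by ring, l1,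
      by linear_combination -l2, by linear_combination l3, by linear_combination -l4⟩⟩)
    subst hc
    exact ⟨h1 a ((m3 a).2 ⟨0, (m1 a 0 0).2 ⟨by ring, by linear_combination k1, by linear_combination k2, k3,
      by ring⟩, (m2 a 0 0).2 ⟨by ring, l1, by ring, by linear_combination l3,
      by linear_combination -l4⟩⟩), rfl⟩
  · intro h
    refine ⟨fun a ha => ?_, fun c hc => ?_⟩
    · obtain ⟨c', hk, hl⟩ := (m3 a).1 ha
      obtain ⟨k0, k1, k2, k3, k4⟩ := (m1 a 0 c').1 hk
      obtain ⟨l0, l1, l2, l3, l4⟩ := (m2 a 0 c').1 hl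
      exact (h a (-c') ⟨by linear_combination k1, by linear_combination k2, k3,
        by linear_combination -k4⟩ ⟨l1, by linear_combination -l2, by linear_combination l3,
        by linear_combination -l4⟩).1
    · obtain ⟨a, c', hk, hl⟩ := (m4 c).1 hc
      obtain ⟨k0, k1, k2, k3, k4⟩ := (m1 a c c').1 hk
      obtain ⟨l0, l1, l2, l3, l4⟩ := (m2 a c c').1 hl
      have hc' : -c' = 0 := (h a (-c') ⟨by linear_combination k1, by linear_combination k2, k3,
        by linear_combination -k4⟩ ⟨l1, by linear_combination -l2, by linear_combination l3,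
        by linear_combination -l4⟩).2
      linear_combination l0 + hc'

private theorem CASR_lin {z w : Q5 K} (hz : z.On) (hw : w.On) : (∀ a c : K,
    (z.A * a = z.B * c ∧ z.C * a = z.D * c ∧ z.e * a = 0 ∧ z.e * c = 0) →
    (w.e * a = 0 ∧ w.e * c = 0 ∧ w.D * a + w.B * c = 0 ∧ w.A * c + w.C * a = 0) → a = 0 ∧ c = 0) ↔
    z.MulNz w := by
  have q1 := hz.quad
  have q2 := hw.quad
  unfold Q5.MulNz
  simp only [Q5.mul]
  constructor
  · rintro h ⟨m1, m2, m3, m4, m5⟩
    have he : z.e = 0 := by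
      by_contra he
      have e' : w.e = 0 := (mul_eq_zero.1 m5).resolve_left he
      have hd : z.A * z.D - z.B * z.C ≠ 0 := by
        rw [q1]
        exact pow_ne_zero 2 he
      refine hw.nz ⟨?_, ?_, ?_, ?_, e'⟩ <;> refine (mul_eq_zero.1 ?_).resolve_left hd
      · linear_combination z.D * m1 - z.B * m3
      · linear_combination z.D * m2 - z.B * m4
      · linear_combination z.A * m3 - z.C * m1
      · linear_combination z.A * m4 - z.C * m2
    have he' : w.e = 0 := by
      by_contra he'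
      have hd : w.A * w.D - w.B * w.C ≠ 0 := by
        rw [q2]
        exact pow_ne_zero 2 he'
      refine hz.nz ⟨?_, ?_, ?_, ?_, he⟩ <;> refine (mul_eq_zero.1 ?_).resolve_left hd
      · linear_combination w.D * m1 - w.C * m2
      · linear_combination w.A * m2 - w.B * m1
      · linear_combination w.D * m3 - w.C * m4
      · linear_combination w.A * m4 - w.B * m3
    have k1 := h w.A (-w.C) ⟨by linear_combination m1, by linear_combination m3, by rw [he]; ring,
      by rw [he]; ring⟩ ⟨by rw [he']; ring, by rw [he']; ring, by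
        rw [he'] at q2; linear_combination q2, by ring⟩
    have k2 := h w.B (-w.D) ⟨by linear_combination m2, by linear_combination m4, by rw [he]; ring,
      by rw [he]; ring⟩ ⟨by rw [he']; ring, by rw [he']; ring, by ring, by
        rw [he'] at q2; linear_combination -q2⟩
    exact hw.nz ⟨k1.1, k2.1, neg_eq_zero.1 k1.2, neg_eq_zero.1 k2.2, he'⟩
  · rintro h a c ⟨k1, k2, k3, k4⟩ ⟨l1, l2, l3, l4⟩
    by_contra hac
    refine h ?_
    by_cases ha : a = 0
    · have hc : c ≠ 0 := fun hc => hac ⟨ha, hc⟩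
      have he : z.e = 0 := (mul_eq_zero.1 k4).resolve_right hc
      refine ⟨?_, ?_, ?_, ?_, by rw [he]; ring⟩ <;> refine (mul_eq_zero.1 ?_).resolve_left hc
      · linear_combination z.A * l4 - w.C * k1
      · linear_combination z.A * l3 - w.D * k1
      · linear_combination z.C * l4 - w.C * k2
      · linear_combination z.C * l3 - w.D * k2
    · have he : z.e = 0 := (mul_eq_zero.1 k3).resolve_right ha
      refine ⟨?_, ?_, ?_, ?_, by rw [he]; ring⟩ <;> refine (mul_eq_zero.1 ?_).resolve_left ha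
      · linear_combination z.B * l4 + w.A * k1
      · linear_combination z.B * l3 + w.B * k1
      · linear_combination z.D * l4 + w.A * k2
      · linear_combination z.D * l3 + w.B * k2

/-- MODULE CASR: the cascade is regular if and only if the product is not zero. Proof. Unfolding, the
cascade is irregular if and only if there are `a, c` not both zero with `((0, a, 0), (0, c, -c)) ∈ ch z` and
`((a, 0, 0), (-c, 0, c)) ∈ ch w` (as the currents have sum zero, the current `c'` of `mem_casS` is `-c`), that is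
`A a - B c = 0`, `C a - D c = 0`, `e a = 0`, `e c = 0` for `z`, and `e' a = 0`, `e' c = 0`, `D' a + B' c = 0`, `A' c + C' a = 0` for
`w`. If `e ≠ 0` or `e' ≠ 0` then `a = c = 0`, and the product is not zero: if for instance `e ≠ 0` then `m` is
invertible, so `m m' = 0` and `e e' = 0` give `w = 0`. If `e = e' = 0`: both matrices have rank one; `(a, -c)` is in the
kernel of `m` and `(a, -c)` is in the kernel of the adjugate of `m'`, which is the image of `m'`; such a vector
`≠ 0` exists iff `m m' = 0`. -/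
theorem casR_ch {z w : Q5 K} (hz : z.On) (hw : w.On) : casR (ch z) (ch w) ↔ z.MulNz w := by
  rw [CASR_iff, CASR_lin hz hw]

private theorem CASS_lin {z w : Q5 K} (hz : z.On) (hw : w.On) (h : z.MulNz w) (p1 p2 v1 v2 : K)
    (h1 : z.e * w.e * p1 = (z.A * w.A + z.B * w.C) * v1 + (z.A * w.B + z.B * w.D) * v2)
    (h2 : z.e * w.e * p2 = (z.C * w.A + z.D * w.C) * v1 + (z.C * w.B + z.D * w.D) * v2)
    (h3 : (z.C * w.B + z.D * w.D) * p1 - (z.A * w.B + z.B * w.D) * p2 = z.e * w.e * v1)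
    (h4 : (z.A * w.A + z.B * w.C) * p2 - (z.C * w.A + z.D * w.C) * p1 = z.e * w.e * v2) :
    ∃ u1 u2 : K, z.e * p1 = z.A * u1 + z.B * u2 ∧ z.e * p2 = z.C * u1 + z.D * u2 ∧
      z.D * p1 - z.B * p2 = z.e * u1 ∧ z.A * p2 - z.C * p1 = z.e * u2 ∧
      w.e * u1 = w.A * v1 + w.B * v2 ∧ w.e * u2 = w.C * v1 + w.D * v2 ∧
      w.D * u1 - w.B * u2 = w.e * v1 ∧ w.A * u2 - w.C * u1 = w.e * v2 := by
  have q1 := hz.quad
  have q2 := hw.quad
  by_cases he : z.e = 0
  · by_cases he' : w.e = 0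
    · refine ⟨0, 0, ?_⟩
      rw [he] at q1
      rw [he'] at q2
      rw [he, he'] at h1 h2 h3 h4
      rw [he, he']
      have key : ∀ y1 y2 : K, z.A * y1 + z.B * y2 = 0 → z.C * y1 + z.D * y2 = 0 →
          y1 * w.C = y2 * w.A → y1 * w.D = y2 * w.B → y1 = 0 ∧ y2 = 0 := by
        intro y1 y2 g1 g2 g3 g4
        by_contra hy
        refine h ?_
        simp only [Q5.mul]
        by_cases hy1 : y1 = 0
        · have hy2 : y2 ≠ 0 := fun hy2 => hy ⟨hy1, hy2⟩
          refine ⟨?_, ?_, ?_, ?_, by rw [he]; ring⟩ <;> refine (mul_eq_zero.1 ?_).resolve_left hy2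
          · linear_combination w.C * g1 - z.A * g3
          · linear_combination w.D * g1 - z.A * g4
          · linear_combination w.C * g2 - z.C * g3
          · linear_combination w.D * g2 - z.C * g4
        · refine ⟨?_, ?_, ?_, ?_, by rw [he]; ring⟩ <;> refine (mul_eq_zero.1 ?_).resolve_left hy1
          · linear_combination w.A * g1 + z.B * g3
          · linear_combination w.B * g1 + z.B * g4
          · linear_combination w.A * g2 + z.D * g3
          · linear_combination w.B * g2 + z.D * g4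
      have k1 := key (w.A * v1 + w.B * v2) (w.C * v1 + w.D * v2) (by linear_combination -h1)
        (by linear_combination -h2) (by linear_combination -v2 * q2) (by linear_combination v1 * q2)
      have k2 := key (z.D * p1 - z.B * p2) (z.A * p2 - z.C * p1) (by linear_combination p1 * q1)
        (by linear_combination p2 * q1) (by linear_combination -h4) (by linear_combination h3)
      exact ⟨by ring, by ring, by linear_combination k2.1, by linear_combination k2.2,
        by linear_combination -k1.1, by linear_combination -k1.2, by ring, by ring⟩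
    · obtain ⟨u1, hu1⟩ : ∃ u1, w.e * u1 = w.A * v1 + w.B * v2 := ⟨(w.A * v1 + w.B * v2) / w.e,
        mul_div_cancel₀ _ he'⟩
      obtain ⟨u2, hu2⟩ : ∃ u2, w.e * u2 = w.C * v1 + w.D * v2 := ⟨(w.C * v1 + w.D * v2) / w.e,
        mul_div_cancel₀ _ he'⟩
      refine ⟨u1, u2, ?_, ?_, ?_, ?_, hu1, hu2, ?_, ?_⟩
      · refine mul_left_cancel₀ he' ?_
        linear_combination h1 - z.A * hu1 - z.B * hu2
      · refine mul_left_cancel₀ he' ?_
        linear_combination h2 - z.C * hu1 - z.D * hu2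
      · refine mul_left_cancel₀ (pow_ne_zero 2 he') ?_
        linear_combination w.A * h3 + w.B * h4 - (z.D * p1 - z.B * p2) * q2 - z.e * w.e * hu1
      · refine mul_left_cancel₀ (pow_ne_zero 2 he') ?_
        linear_combination w.C * h3 + w.D * h4 - (z.A * p2 - z.C * p1) * q2 - z.e * w.e * hu2
      · refine mul_left_cancel₀ he' ?_
        linear_combination w.D * hu1 - w.B * hu2 + v1 * q2
      · refine mul_left_cancel₀ he' ?_
        linear_combination w.A * hu2 - w.C * hu1 + v2 * q2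
  · obtain ⟨u1, hu1⟩ : ∃ u1, z.e * u1 = z.D * p1 - z.B * p2 := ⟨(z.D * p1 - z.B * p2) / z.e,
      mul_div_cancel₀ _ he⟩
    obtain ⟨u2, hu2⟩ : ∃ u2, z.e * u2 = z.A * p2 - z.C * p1 := ⟨(z.A * p2 - z.C * p1) / z.e,
      mul_div_cancel₀ _ he⟩
    refine ⟨u1, u2, ?_, ?_, hu1.symm, hu2.symm, ?_, ?_, ?_, ?_⟩
    · refine mul_left_cancel₀ he ?_
      linear_combination -p1 * q1 - z.A * hu1 - z.B * hu2
    · refine mul_left_cancel₀ he ?_
      linear_combination -p2 * q1 - z.C * hu1 - z.D * hu2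
    · refine mul_left_cancel₀ (pow_ne_zero 2 he) ?_
      linear_combination z.D * h1 - z.B * h2 + (w.A * v1 + w.B * v2) * q1 + z.e * w.e * hu1
    · refine mul_left_cancel₀ (pow_ne_zero 2 he) ?_
      linear_combination z.A * h2 - z.C * h1 + (w.C * v1 + w.D * v2) * q1 + z.e * w.e * hu2
    · refine mul_left_cancel₀ he ?_
      linear_combination h3 + w.D * hu1 - w.B * hu2
    · refine mul_left_cancel₀ he ?_
      linear_combination h4 + w.A * hu2 - w.C * hu1

/-- MODULE CASS: the cascade is the product. Proof (`mem_casS`). With `p = (v0, i0)`, `u = (a - x2, c')`,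
`w = (v1, -i1)` (potentials relative to the ground): membership is `e p = m u`, `adj(m) p = e u`, `e' u = m' w`,
`adj(m') u = e' w` (and the sums of the currents, which determine `c`). If it holds then `e e' p = m m' w` and
`adj(m m') p = e e' w`. Conversely if `e ≠ 0` take `u = adj(m) p / e`; if `e' ≠ 0` take `u = m' w / e'`; if
`e = e' = 0` take `u = 0`: `m m' ≠ 0`, `m m' w = 0` give `m' w = 0` (otherwise the image of `m'` is spanned by
`m' w` and `m m' = 0`), and in the same way `adj(m) p = 0`. -/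
theorem casS_ch {z w : Q5 K} (hz : z.On) (hw : w.On) (h : z.MulNz w) :
    casS (ch z) (ch w) = ch (z.mul w) := by
  ext x
  rw [mem_casS, mem_ch]
  constructor
  · rintro ⟨a, c, c', hL, hM⟩
    obtain ⟨a0, a1, a2, a3, a4⟩ : _ ∧ _ ∧ _ ∧ _ ∧ _ := (BST_mem (p := ![x.1 0, a, x.1 2])
      (i := ![x.2 0, -c', x.2 2 - c]) (x.1 0) a (x.1 2) (x.2 0) (-c') (x.2 2 - c) rfl rfl rfl rfl rfl rfl).1 hL
    obtain ⟨b0, b1, b2, b3, b4⟩ : _ ∧ _ ∧ _ ∧ _ ∧ _ := (BST_mem (p := ![a, x.1 1, x.1 2])
      (i := ![c', x.2 1, c]) a (x.1 1) (x.1 2) c' (x.2 1) c rfl rfl rfl rfl rfl rfl).1 hM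
    simp only [Q5.mul]
    refine ⟨by linear_combination a0 + b0, ?_, ?_, ?_, ?_⟩
    · linear_combination w.e * a1 + z.A * b1 + z.B * b2
    · linear_combination w.e * a2 + z.C * b1 + z.D * b2
    · linear_combination w.D * a3 - w.B * a4 + z.e * b3
    · linear_combination -w.C * a3 + w.A * a4 + z.e * b4
  · rintro ⟨h0, h1, h2, h3, h4⟩
    obtain ⟨u1, u2, k1, k2, k3, k4, k5, k6, k7, k8⟩ := CASS_lin hz hw h (x.1 0 - x.1 2) (x.2 0)
      (x.1 1 - x.1 2) (-x.2 1) (by simp only [Q5.mul] at h1; linear_combination h1)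
      (by simp only [Q5.mul] at h2; linear_combination h2)
      (by simp only [Q5.mul] at h3; linear_combination h3)
      (by simp only [Q5.mul] at h4; linear_combination h4)
    refine ⟨u1 + x.1 2, -(u2 + x.2 1), u2, ?_, ?_⟩
    · refine (BST_mem (x.1 0) (u1 + x.1 2) (x.1 2) (x.2 0) (-u2) (x.2 2 - -(u2 + x.2 1)) (by rfl) (by rfl)
        (by rfl) (by rfl) (by rfl) (by rfl)).2 ?_
      exact ⟨by linear_combination h0, by linear_combination k1, by linear_combination k2,
        by linear_combination k3, by linear_combination k4⟩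
    · refine (BST_mem (u1 + x.1 2) (x.1 1) (x.1 2) u2 (x.2 1) (-(u2 + x.2 1)) (by rfl) (by rfl)
        (by rfl) (by rfl) (by rfl) (by rfl)).2 ?_
      exact ⟨by ring, by linear_combination k5, by linear_combination k6,
        by linear_combination k7, by linear_combination k8⟩

/-- MODULE CTS. -/
theorem ctS_ch (s : K) : ctS s = ch (⟨1, 0, s, 1, -1⟩ : Q5 K) := by
  ext x
  have m : x ∈ ctS s ↔ x.1 0 + x.1 1 = 2 * x.1 2 ∧ x.2 0 + x.2 1 + x.2 2 = 0 ∧
    x.2 0 - x.2 1 = s * (x.1 0 - x.1 2) := Iff.rfl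
  rw [m, mem_ch]
  constructor
  · rintro ⟨h1, h2, h3⟩
    exact ⟨h2, by linear_combination -h1, by linear_combination -h3 - s * h1,
      by linear_combination h1, by linear_combination h3⟩
  · rintro ⟨h0, h1, h2, h3, h4⟩
    exact ⟨by linear_combination h3, h0, by linear_combination h4⟩

/-- MODULE ISO. -/
theorem isoS_ch : isoS 3 K = ch (⟨0, 1, 0, 0, 0⟩ : Q5 K) := by
  ext x
  have m : x ∈ isoS 3 K ↔ x.2 = 0 := Iff.rfl
  rw [m, mem_ch]
  constructor
  · intro h
    rw [h]
    simp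
  · rintro ⟨h0, h1, h2, h3, h4⟩
    dsimp only at h1 h3
    have e1 : x.2 1 = 0 := by linear_combination h1
    have e0 : x.2 0 = 0 := by linear_combination -h3
    have e2 : x.2 2 = 0 := by linear_combination h0 - e0 - e1
    funext j
    fin_cases j
    · exact e0
    · exact e1
    · exact e2

/-- MODULE MGMG: all terminals are identified. -/
theorem mgmg {z : Q5 K} (hz : z.On) :
    (mgR (n := 1) (ch z) ∧ mgR (n := 0) (mg (n := 1) (ch z))) ↔ z.B ≠ 0 := by
  have m1 : ∀ c : K, (((0 : Fin 3 → K), (Fin.snoc (-Pi.single 0 c) c : Fin (1 + 2) → K)) :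
      (Fin 3 → K) × (Fin 3 → K)) ∈ ch z ↔ z.e * c = 0 ∧ z.B * c = 0 ∧ z.A * c = 0 := by
    intro c
    refine (BST_mem 0 0 0 (-c) 0 c (by rfl) (by rfl) (by rfl) (by rfl) (by exact neg_zero)
      (by rfl)).trans ?_
    constructor
    · rintro ⟨h0, h1, h2, h3, h4⟩
      exact ⟨by linear_combination -h2, by linear_combination h3, by linear_combination -h4⟩
    · rintro ⟨h1, h2, h3⟩
      exact ⟨by ring, by ring, by linear_combination -h1, by linear_combination h2,
        by linear_combination -h3⟩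
  have m2 : ∀ c : K, ((0 : Fin 2 → K), (Fin.snoc (-Pi.single 0 c) c : Fin (0 + 2) → K)) ∈
      mg (n := 1) (ch z) ↔ ∃ d : K, z.B * c = 0 ∧ z.e * (c + d) = z.D * c ∧ z.B * (c + d) = 0 ∧
        z.A * (c + d) = z.e * c := by
    intro c
    have m3 : ((0 : Fin 2 → K), (Fin.snoc (-Pi.single 0 c) c : Fin (0 + 2) → K)) ∈
      mg (n := 1) (ch z) ↔ ∃ d : K, ((Fin.snoc (0 : Fin 2 → K) ((0 : Fin 2 → K) 0) : Fin (1 + 2) → K),
        (Fin.snoc ((Fin.snoc (-Pi.single 0 c) c : Fin (0 + 2) → K) - Pi.single 0 d) d :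
          Fin (1 + 2) → K)) ∈ ch z := Iff.rfl
    rw [m3]
    refine exists_congr fun d => ?_
    refine (BST_mem 0 0 0 (-c - d) c d (by rfl) (by rfl) (by rfl) (by rfl) (by exact sub_zero _)
      (by rfl)).trans ?_
    constructor
    · rintro ⟨h0, h1, h2, h3, h4⟩
      exact ⟨by linear_combination h1, by linear_combination -h2, by linear_combination h3,
        by linear_combination -h4⟩
    · rintro ⟨h1, h2, h3, h4⟩
      exact ⟨by ring, by linear_combination h1, by linear_combination -h2, by linear_combination h3,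
        by linear_combination -h4⟩
  constructor
  · rintro ⟨h1, h2⟩ hB
    have h3 : z.A = 0 := h2 z.A ((m2 z.A).2 ⟨z.e - z.A, by rw [hB]; ring,
      by have := hz.quad; rw [hB] at this; linear_combination -this, by rw [hB]; ring, by ring⟩)
    have h4 : z.e = 0 := by
      have h5 := hz.quad
      rw [hB, h3] at h5
      exact pow_eq_zero_iff (two_ne_zero) |>.1 (by linear_combination -h5)
    exact one_ne_zero (h1 1 ((m1 1).2 ⟨by rw [h4]; ring, by rw [hB]; ring, by rw [h3]; ring⟩))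
  · intro hB
    refine ⟨fun c hc => ?_, fun c hc => ?_⟩
    · exact (mul_eq_zero.1 ((m1 c).1 hc).2.1).resolve_left hB
    · obtain ⟨d, hd, -⟩ := (m2 c).1 hc
      exact (mul_eq_zero.1 hd).resolve_left hB

/-- MODULE MGCL: the terminals `2` and `0` are identified and closed. Proof. `mgR` fails iff `A = B = e = 0`.
`clR` fails iff there are `a ≠ 0` and `c` with `((a, 0, a), (-c, 0, c)) ∈ ch z`: `A a = 0`, `e c = C a`, `B c = -(e a)`, `A c = 0`.
If `A = 0` then `e ^ 2 = - B C`, so the system `e c = C a`, `B c = - e a` has a solution `(a, c) ≠ 0`. -/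
theorem mgcl {z : Q5 K} (hz : z.On) :
    (mgR (n := 1) (ch z) ∧ clR (n := 1) (mg (n := 1) (ch z))) ↔ z.A ≠ 0 := by
  have m1 : ∀ c : K, (((0 : Fin 3 → K), (Fin.snoc (-Pi.single 0 c) c : Fin (1 + 2) → K)) :
      (Fin 3 → K) × (Fin 3 → K)) ∈ ch z ↔ z.e * c = 0 ∧ z.B * c = 0 ∧ z.A * c = 0 := by
    intro c
    refine (BST_mem 0 0 0 (-c) 0 c (by rfl) (by rfl) (by rfl) (by rfl) (by exact neg_zero)
      (by rfl)).trans ?_
    constructor
    · rintro ⟨h0, h1, h2, h3, h4⟩
      exact ⟨by linear_combination -h2, by linear_combination h3, by linear_combination -h4⟩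
    · rintro ⟨h1, h2, h3⟩
      exact ⟨by ring, by ring, by linear_combination -h1, by linear_combination h2,
        by linear_combination -h3⟩
  have m2 : ∀ a : K, ((Fin.cons a 0 : Fin (1 + 1) → K), (0 : Fin (1 + 1) → K)) ∈
      mg (n := 1) (ch z) ↔ ∃ d : K, z.A * a = 0 ∧ z.e * d = z.C * a ∧ z.B * d = -(z.e * a) ∧
        z.A * d = 0 := by
    intro a
    have m3 : ((Fin.cons a 0 : Fin (1 + 1) → K), (0 : Fin (1 + 1) → K)) ∈
      mg (n := 1) (ch z) ↔ ∃ d : K, ((Fin.snoc (Fin.cons a 0 : Fin (1 + 1) → K)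
        ((Fin.cons a 0 : Fin (1 + 1) → K) 0) : Fin (1 + 2) → K),
        (Fin.snoc ((0 : Fin (1 + 1) → K) - Pi.single 0 d) d : Fin (1 + 2) → K)) ∈ ch z := Iff.rfl
    rw [m3]
    refine exists_congr fun d => ?_
    refine (BST_mem a 0 a (-d) 0 d (by rfl) (by rfl) (by rfl) (by exact zero_sub _) (by exact sub_zero _)
      (by rfl)).trans ?_
    constructor
    · rintro ⟨h0, h1, h2, h3, h4⟩
      exact ⟨by linear_combination h1, by linear_combination -h2, by linear_combination h3,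
        by linear_combination -h4⟩
    · rintro ⟨h1, h2, h3, h4⟩
      exact ⟨by ring, by linear_combination h1, by linear_combination -h2, by linear_combination h3,
        by linear_combination -h4⟩
  constructor
  · rintro ⟨h1, h2⟩ hA
    have h3 : z.B = 0 := h2 z.B ((m2 z.B).2 ⟨-z.e, by rw [hA]; ring,
      by have := hz.quad; rw [hA] at this; linear_combination this, by ring, by rw [hA]; ring⟩)
    have h4 : z.e = 0 := by
      have h5 := hz.quad
      rw [hA, h3] at h5
      exact pow_eq_zero_iff (two_ne_zero) |>.1 (by linear_combination -h5)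
    exact one_ne_zero (h1 1 ((m1 1).2 ⟨by rw [h4]; ring, by rw [h3]; ring, by rw [hA]; ring⟩))
  · intro hA
    refine ⟨fun c hc => ?_, fun c hc => ?_⟩
    · exact (mul_eq_zero.1 ((m1 c).1 hc).2.2).resolve_left hA
    · obtain ⟨d, hd, -⟩ := (m2 c).1 hc
      exact (mul_eq_zero.1 hd).resolve_left hA

/-- MODULE CLCL: the terminals `0` and `1` are closed. Proof. `clR (ch z)` fails iff `e = C = D = 0`; `clR (cl (ch z))` fails
iff there are `a`, `b ≠ 0` with `((a, b, 0), 0) ∈ ch z`: `e a = A b`, `C b = 0`, `D a = e b`, `C a = 0`. -/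
theorem clcl {z : Q5 K} (hz : z.On) :
    (clR (n := 2) (ch z) ∧ clR (n := 1) (cl (n := 2) (ch z))) ↔ z.C ≠ 0 := by
  have m1 : ∀ a : K, ((Fin.cons a 0 : Fin (2 + 1) → K), (0 : Fin (2 + 1) → K)) ∈ ch z ↔
      z.e * a = 0 ∧ z.D * a = 0 ∧ z.C * a = 0 := by
    intro a
    refine (BST_mem a 0 0 0 0 0 (by rfl) (by rfl) (by rfl) (by rfl) (by rfl) (by rfl)).trans ?_
    constructor
    · rintro ⟨h0, h1, h2, h3, h4⟩
      exact ⟨by linear_combination h1, by linear_combination h3, by linear_combination -h4⟩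
    · rintro ⟨h1, h2, h3⟩
      exact ⟨by ring, by linear_combination h1, by ring, by linear_combination h2,
        by linear_combination -h3⟩
  have m2 : ∀ b : K, ((Fin.cons b 0 : Fin (1 + 1) → K), (0 : Fin (1 + 1) → K)) ∈
      cl (n := 2) (ch z) ↔ ∃ a : K, z.e * a = z.A * b ∧ z.C * b = 0 ∧ z.D * a = z.e * b ∧
        z.C * a = 0 := by
    intro b
    have m3 : ((Fin.cons b 0 : Fin (1 + 1) → K), (0 : Fin (1 + 1) → K)) ∈
      cl (n := 2) (ch z) ↔ ∃ a : K, ((Fin.cons a (Fin.cons b 0 : Fin (1 + 1) → K) : Fin (2 + 1) → K),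
        (Fin.cons 0 (0 : Fin (1 + 1) → K) : Fin (2 + 1) → K)) ∈ ch z := Iff.rfl
    rw [m3]
    refine exists_congr fun a => ?_
    refine (BST_mem a b 0 0 0 0 (by rfl) (by rfl) (by rfl) (by rfl) (by rfl) (by rfl)).trans ?_
    constructor
    · rintro ⟨h0, h1, h2, h3, h4⟩
      exact ⟨by linear_combination h1, by linear_combination -h2, by linear_combination h3,
        by linear_combination -h4⟩
    · rintro ⟨h1, h2, h3, h4⟩
      exact ⟨by ring, by linear_combination h1, by linear_combination -h2, by linear_combination h3,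
        by linear_combination -h4⟩
  constructor
  · rintro ⟨h1, h2⟩ hC
    have h3 : z.D = 0 := h2 z.D ((m2 z.D).2 ⟨z.e,
      by have := hz.quad; rw [hC] at this; linear_combination -this, by rw [hC]; ring, by ring,
      by rw [hC]; ring⟩)
    have h4 : z.e = 0 := by
      have h5 := hz.quad
      rw [hC, h3] at h5
      exact pow_eq_zero_iff (two_ne_zero) |>.1 (by linear_combination -h5)
    exact one_ne_zero (h1 1 ((m1 1).2 ⟨by rw [h4]; ring, by rw [h3]; ring, by rw [hC]; ring⟩))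
  · intro hC
    refine ⟨fun c hc => ?_, fun c hc => ?_⟩
    · exact (mul_eq_zero.1 ((m1 c).1 hc).2.2).resolve_left hC
    · obtain ⟨d, -, hd, -⟩ := (m2 c).1 hc
      exact (mul_eq_zero.1 hd).resolve_left hC

end Pool.Agent.PLN
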