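import Pool.Agent.PLN.BSc

/-!
# Part B: good weights
-/

set_option autoImplicit false

open scoped BigOperators

namespace Pool.Agent.PLN

/-! ### Linear structure -/

/-- MODULE GWA. -/
theorem GW_congr {w w' : (F : FF) → F.K → ℤ} (h : GW w)
    (e : ∀ (F : FF) (ρ : F.K), ρ ≠ 0 → w F ρ = w' F ρ) : GW w' := by
  refine GG_congr h fun F f => ?_
  unfold TT
  refine Finset.sum_congr rfl fun ρ _ => ?_
  split_ifs with h0
  · rfl
  · rw [e F ρ h0]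

/-- MODULE GWA. -/
theorem GW_add {w w' : (F : FF) → F.K → ℤ} (h : GW w) (h' : GW w') :
    GW fun F ρ => w F ρ + w' F ρ := by
  refine GG_congr (GG_add h h') fun F f => ?_
  unfold TT
  rw [← Finset.sum_add_distrib]
  refine Finset.sum_congr rfl fun ρ _ => ?_
  split_ifs
  · ring
  · ring

/-- MODULE GWA. -/
theorem GW_sub {w w' : (F : FF) → F.K → ℤ} (h : GW w) (h' : GW w') :
    GW fun F ρ => w F ρ - w' F ρ := by
  refine GG_congr (GG_sub h h') fun F f => ?_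
  unfold TT
  rw [← Finset.sum_sub_distrib]
  refine Finset.sum_congr rfl fun ρ _ => ?_
  split_ifs
  · ring
  · ring

private theorem GWA_mul (c : ℤ) (w w' : (F : FF) → F.K → ℤ) (F : FF)
    (hw : ∀ ρ, w' F ρ = c * w F ρ) (f : St 3 F.K → ℤ) : c * TT w F f = TT w' F f := by
  unfold TT
  rw [Finset.mul_sum]
  refine Finset.sum_congr rfl fun ρ _ => ?_
  rw [hw]
  split_ifs
  · ring
  · ring

/-- MODULE GWA. -/
theorem GW_scal {s : FF → ℤ} (hs : Scal s) {w : (F : FF) → F.K → ℤ} (h : GW w) :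
    GW fun F ρ => s F * w F ρ :=
  GG_congr (GG_scal hs h) fun F f => GWA_mul (s F) w _ F (fun _ => rfl) f

/-- MODULE GWA. -/
theorem GW_divq {w : (F : FF) → F.K → ℤ} (h : GW fun F ρ => F.q * w F ρ) : GW w :=
  GG_divq (GG_congr h fun F f => (GWA_mul F.q w _ F (fun _ => rfl) f).symm)

/-- MODULE GWA. -/
theorem GW_divq1 {w : (F : FF) → F.K → ℤ} (h : GW fun F ρ => (F.q - 1) * w F ρ) : GW w :=
  GG_divq1 (GG_congr h fun F f => (GWA_mul (F.q - 1) w _ F (fun _ => rfl) f).symm)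

private theorem GW1_card (F : FF) : (Fintype.card F.K : ℤ) = F.q := by
  show (Fintype.card F.K : ℤ) = (Nat.card F.K : ℤ)
  rw [Nat.card_eq_fintype_card]

private theorem GW1_pos {K : Type} {P : Q5 K → Prop} {z : Q5 K} (h : P z) : ic5 P z = 1 := if_pos h

private theorem GW1_neg {K : Type} {P : Q5 K → Prop} {z : Q5 K} (h : ¬ P z) : ic5 P z = 0 := if_neg h

/-- The nonzero elements. -/
private theorem GW1_cardnz (F : FF) (c : ℤ) :
    (open Classical in ∑ a : F.K, if a = 0 then (0 : ℤ) else c) = (F.q - 1) * c := by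
  classical
  rw [← GW1_card F]
  have h1 : ∀ a : F.K, (if a = 0 then (0 : ℤ) else c) = c - if a = 0 then c else 0 := by
    intro a
    split_ifs <;> ring
  rw [Finset.sum_congr rfl fun a _ => h1 a, Finset.sum_sub_distrib, Finset.sum_ite_eq',
    if_pos (Finset.mem_univ _), Finset.sum_const, Finset.card_univ, nsmul_eq_mul]
  ring

/-- Dilation. -/
private theorem GW1_dil {K M : Type} [Field K] [Fintype K] [AddCommMonoid M] {c : K} (hc : c ≠ 0)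
    (g : K → M) : ∑ x : K, g (c * x) = ∑ x : K, g x :=
  Equiv.sum_comp (Equiv.mulLeft₀ c hc) g

/-- Translation. -/
private theorem GW1_tr {K M : Type} [Field K] [Fintype K] [AddCommMonoid M] (c : K)
    (g : K → M) : ∑ x : K, g (c + x) = ∑ x : K, g x :=
  Equiv.sum_comp (Equiv.addLeft c) g

/-- The points with `B = 0`. -/
private theorem GW1_sum {K : Type} [Field K] [Fintype K] (q : ℤ)
    (hq : ∀ c : ℤ, (open Classical in ∑ a : K, if a = 0 then (0 : ℤ) else c) = (q - 1) * c)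
    (g : Q5 K → ℤ) (hg : ∀ (c : K) (z : Q5 K), c ≠ 0 → g (z.smul c) = g z) :
    (open Classical in ∑ z : Q5 K, if z.On then (if z.B = 0 then g z else 0) else 0) =
      (q - 1) * ((∑ ρ : K, ∑ s : K, g ⟨1, 0, s, ρ ^ 2, ρ⟩) + (∑ s : K, g ⟨0, 0, s, 1, 0⟩) +
        g ⟨0, 0, 1, 0, 0⟩) := by
  classical
  rw [Q5.sum_eq]
  -- `B = 0`
  have h1 : ∀ A B : K, (∑ C : K, ∑ D : K, ∑ e : K, if (⟨A, B, C, D, e⟩ : Q5 K).On then
      (if (⟨A, B, C, D, e⟩ : Q5 K).B = 0 then g ⟨A, B, C, D, e⟩ else 0) else 0) =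
      if B = 0 then ∑ C : K, ∑ D : K, ∑ e : K, (if (⟨A, 0, C, D, e⟩ : Q5 K).On then
        g ⟨A, 0, C, D, e⟩ else 0) else 0 := by
    intro A B
    by_cases hB : B = 0
    · subst hB
      rw [if_pos rfl]
      refine Finset.sum_congr rfl fun C _ => Finset.sum_congr rfl fun D _ =>
        Finset.sum_congr rfl fun e _ => ?_
      rw [if_pos rfl]
    · rw [if_neg hB]
      refine Finset.sum_eq_zero fun C _ => Finset.sum_eq_zero fun D _ =>
        Finset.sum_eq_zero fun e _ => ?_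
      rw [if_neg hB]
      exact ite_self _
  have h2 : ∀ A : K, (∑ B : K, ∑ C : K, ∑ D : K, ∑ e : K, if (⟨A, B, C, D, e⟩ : Q5 K).On then
      (if (⟨A, B, C, D, e⟩ : Q5 K).B = 0 then g ⟨A, B, C, D, e⟩ else 0) else 0) =
      ∑ C : K, ∑ D : K, ∑ e : K, (if (⟨A, 0, C, D, e⟩ : Q5 K).On then
        g ⟨A, 0, C, D, e⟩ else 0) := by
    intro A
    rw [Finset.sum_congr rfl fun B _ => h1 A B, Finset.sum_ite_eq', if_pos (Finset.mem_univ _)]
  rw [Finset.sum_congr rfl fun A _ => h2 A]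
  -- `A ≠ 0`
  have h3 : ∀ A : K, A ≠ 0 → (∑ C : K, ∑ D : K, ∑ e : K, (if (⟨A, 0, C, D, e⟩ : Q5 K).On then
        g ⟨A, 0, C, D, e⟩ else 0)) = ∑ ρ : K, ∑ s : K, g ⟨1, 0, s, ρ ^ 2, ρ⟩ := by
    intro A hA
    have h4 : ∀ C : K, (∑ D : K, ∑ e : K, (if (⟨A, 0, C, D, e⟩ : Q5 K).On then
        g ⟨A, 0, C, D, e⟩ else 0)) = ∑ ρ : K, g ⟨1, 0, A⁻¹ * C, ρ ^ 2, ρ⟩ := by
      intro C
      rw [Finset.sum_comm, ← GW1_dil hA]
      refine Finset.sum_congr rfl fun ρ _ => ?_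
      rw [← GW1_dil hA]
      have h5 : ∀ x : K, (if (⟨A, 0, C, A * x, A * ρ⟩ : Q5 K).On then
          g ⟨A, 0, C, A * x, A * ρ⟩ else 0) =
          if x = ρ ^ 2 then g ⟨1, 0, A⁻¹ * C, ρ ^ 2, ρ⟩ else 0 := by
        intro x
        have h6 : (⟨A, 0, C, A * x, A * ρ⟩ : Q5 K).On ↔ x = ρ ^ 2 := by
          constructor
          · intro h
            have h7 := h.quad
            simp only [zero_mul, sub_zero] at h7
            have h8 : A ^ 2 * (x - ρ ^ 2) = 0 := by linear_combination h7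
            rcases mul_eq_zero.1 h8 with h9 | h9
            · exact absurd (pow_eq_zero_iff two_ne_zero |>.1 h9) hA
            · exact sub_eq_zero.1 h9
          · intro h
            refine ⟨fun k => hA k.1, ?_⟩
            simp only [zero_mul, sub_zero]
            rw [h]
            ring
        by_cases hx : x = ρ ^ 2
        · rw [if_pos (h6.2 hx), if_pos hx, hx, ← hg A ⟨1, 0, A⁻¹ * C, ρ ^ 2, ρ⟩ hA]
          congr 1
          ext <;> simp only [Q5.smul]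
          · rw [mul_one]
          · rw [mul_zero]
          · rw [mul_inv_cancel_left₀ hA]
        · rw [if_neg fun h => hx (h6.1 h), if_neg hx]
      rw [Finset.sum_congr rfl fun x _ => h5 x, Finset.sum_ite_eq', if_pos (Finset.mem_univ _)]
    rw [Finset.sum_congr rfl fun C _ => h4 C, Finset.sum_comm]
    refine Finset.sum_congr rfl fun ρ _ => ?_
    exact GW1_dil (inv_ne_zero hA) fun s => g ⟨1, 0, s, ρ ^ 2, ρ⟩
  -- `A = 0`
  have h10 : ∀ C D : K, (∑ e : K, (if (⟨0, 0, C, D, e⟩ : Q5 K).On then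
        g ⟨0, 0, C, D, e⟩ else 0)) = if D = 0 then (if C = 0 then 0 else g ⟨0, 0, 1, 0, 0⟩) else
          g ⟨0, 0, D⁻¹ * C, 1, 0⟩ := by
    intro C D
    have h11 : ∀ e : K, (if (⟨0, 0, C, D, e⟩ : Q5 K).On then
        g ⟨0, 0, C, D, e⟩ else 0) = if e = 0 then (if D = 0 ∧ C = 0 then 0 else
          g ⟨0, 0, C, D, 0⟩) else 0 := by
      intro e
      by_cases he : e = 0
      · subst he
        rw [if_pos rfl]
        by_cases hCD : D = 0 ∧ C = 0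
        · rw [if_pos hCD, if_neg]
          exact fun h => h.nz ⟨rfl, rfl, hCD.2, hCD.1, rfl⟩
        · rw [if_neg hCD, if_pos]
          refine ⟨fun k => hCD ⟨k.2.2.2.1, k.2.2.1⟩, ?_⟩
          simp only [zero_mul, sub_zero]
          ring
      · rw [if_neg he, if_neg]
        intro h
        have h7 := h.quad
        simp only [zero_mul, sub_zero] at h7
        exact he ((pow_eq_zero_iff two_ne_zero).1 h7.symm)
    rw [Finset.sum_congr rfl fun e _ => h11 e, Finset.sum_ite_eq', if_pos (Finset.mem_univ _)]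
    by_cases hD : D = 0
    · rw [if_pos hD]
      by_cases hC : C = 0
      · rw [if_pos ⟨hD, hC⟩, if_pos hC]
      · rw [if_neg fun k => hC k.2, if_neg hC, hD, ← hg C ⟨0, 0, 1, 0, 0⟩ hC]
        congr 1
        ext <;> simp only [Q5.smul, mul_one, mul_zero]
    · rw [if_neg hD, if_neg fun k => hD k.1, ← hg D ⟨0, 0, D⁻¹ * C, 1, 0⟩ hD]
      congr 1
      ext <;> simp only [Q5.smul, mul_one, mul_zero]
      rw [mul_inv_cancel_left₀ hD]
  have h12 : ∀ D : K, (∑ C : K, ∑ e : K, (if (⟨0, 0, C, D, e⟩ : Q5 K).On then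
        g ⟨0, 0, C, D, e⟩ else 0)) = (if D = 0 then (q - 1) * g ⟨0, 0, 1, 0, 0⟩ else 0) +
          if D = 0 then 0 else ∑ s : K, g ⟨0, 0, s, 1, 0⟩ := by
    intro D
    rw [Finset.sum_congr rfl fun C _ => h10 C D]
    by_cases hD : D = 0
    · simp only [if_pos hD, add_zero]
      exact hq _
    · simp only [if_neg hD, zero_add]
      exact GW1_dil (inv_ne_zero hD) fun s => g ⟨0, 0, s, 1, 0⟩
  have h13 : (∑ C : K, ∑ D : K, ∑ e : K, (if (⟨0, 0, C, D, e⟩ : Q5 K).On then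
        g ⟨0, 0, C, D, e⟩ else 0)) = (q - 1) * g ⟨0, 0, 1, 0, 0⟩ +
          (q - 1) * ∑ s : K, g ⟨0, 0, s, 1, 0⟩ := by
    rw [Finset.sum_comm, Finset.sum_congr rfl fun D _ => h12 D, Finset.sum_add_distrib,
      Finset.sum_ite_eq', if_pos (Finset.mem_univ _), hq]
  have h14 : ∀ A : K, (∑ C : K, ∑ D : K, ∑ e : K, (if (⟨A, 0, C, D, e⟩ : Q5 K).On then
        g ⟨A, 0, C, D, e⟩ else 0)) = (if A = 0 then ((q - 1) * g ⟨0, 0, 1, 0, 0⟩ +
          (q - 1) * ∑ s : K, g ⟨0, 0, s, 1, 0⟩) else 0) +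
          if A = 0 then 0 else ∑ ρ : K, ∑ s : K, g ⟨1, 0, s, ρ ^ 2, ρ⟩ := by
    intro A
    by_cases hA : A = 0
    · subst hA
      rw [if_pos rfl, if_pos rfl, add_zero]
      exact h13
    · rw [if_neg hA, if_neg hA, zero_add]
      exact h3 A hA
  rw [Finset.sum_congr rfl fun A _ => h14 A, Finset.sum_add_distrib,
      Finset.sum_ite_eq', if_pos (Finset.mem_univ _), hq]
  ring

/-- MODULE GW1: the weight `1`. Proof. `cs_one` minus `cs_B` gives the points of the quadric with `B = 0`: `A D = e ^ 2`. If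
`A ≠ 0` the point is `A (1, 0, s, ρ ^ 2, ρ)` with `ρ = e / A`, `s = C / A`; if `A = 0` then `e = 0`, and it is
`D (0, 0, s, 1, 0)` or `C (0, 0, 1, 0, 0)`. So `cs_one - cs_B = (q - 1) (TT 1 + GG_T0 + GG_Ti + GG_P)`. -/
theorem GW_one : GW fun _ _ => 1 := by
  classical
  have h1 : GG 3 fun F f => (F.q - 1) * ((∑ ρ : F.K, ∑ s : F.K, f (ch ⟨1, 0, s, ρ ^ 2, ρ⟩)) +
      (∑ s : F.K, f (ch ⟨0, 0, s, 1, 0⟩)) + f (ch ⟨0, 0, 1, 0, 0⟩)) := by
    refine GG_congr (GG_sub cs_one cs_B) fun F f => ?_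
    rw [← GW1_sum F.q (GW1_cardnz F) (fun z => f (ch z)) fun c z hc => by rw [ch_smul hc]]
    unfold cs
    rw [← Finset.sum_sub_distrib]
    refine Finset.sum_congr rfl fun z _ => ?_
    by_cases hz : z.On
    · rw [if_pos hz, if_pos hz, if_pos hz]
      beta_reduce
      by_cases hB : z.B = 0
      · rw [if_pos hB, GW1_neg (P := fun z : Q5 F.K => z.B ≠ 0) fun h => h hB]
        ring
      · rw [if_neg hB, GW1_pos (P := fun z : Q5 F.K => z.B ≠ 0) hB]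
        ring
    · rw [if_neg hz, if_neg hz, if_neg hz, sub_zero]
  refine GG_congr (GG_sub (GG_sub (GG_sub (GG_divq1 h1) GG_Ti) GG_P) GG_T0) fun F f => ?_
  unfold TT one5
  have h2 : (∑ ρ : F.K, ∑ s : F.K, f (ch ⟨1, 0, s, ρ ^ 2, ρ⟩)) =
      (∑ ρ : F.K, if ρ = 0 then (∑ s : F.K, f (ch ⟨1, 0, s, 0, 0⟩)) else 0) +
      ∑ ρ : F.K, if ρ = 0 then 0 else 1 * ∑ s : F.K, f (ch ⟨1, 0, s, ρ ^ 2, ρ⟩) := by
    rw [← Finset.sum_add_distrib]
    refine Finset.sum_congr rfl fun ρ _ => ?_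
    split_ifs with h
    · rw [add_zero, h]
      norm_num
    · rw [zero_add, one_mul]
  rw [h2, Finset.sum_ite_eq', if_pos (Finset.mem_univ _)]
  ring

/-- Weights with the value `0` at `1`. -/
noncomputable def off1 (w : (F : FF) → F.K → ℤ) (F : FF) (ρ : F.K) : ℤ :=
  open Classical in if ρ = 1 then 0 else w F ρ

/-- The weight of one point. -/
noncomputable def dl (c : (F : FF) → F.K) (F : FF) (ρ : F.K) : ℤ :=
  open Classical in if ρ = c F then 1 else 0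

/-- MODULE GW1: `GG_T1`. -/
theorem GW_d1 : GW (dl fun _ => 1) := by
  classical
  refine GG_congr GG_T1 fun F f => ?_
  unfold TT dl
  have h1 : ∀ ρ : F.K, (if ρ = 0 then 0 else (if ρ = 1 then (1 : ℤ) else 0) *
      ∑ s : F.K, f (ch ⟨1, 0, s, ρ ^ 2, ρ⟩)) =
      if ρ = 1 then ∑ s : F.K, f (ch ⟨1, 0, s, 1, 1⟩) else 0 := by
    intro ρ
    by_cases h : ρ = 1
    · subst h
      rw [if_neg one_ne_zero, if_pos rfl, if_pos rfl, one_mul, one_pow]
    · rw [if_neg h, if_neg h, zero_mul, ite_self]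
  rw [Finset.sum_congr rfl fun ρ _ => h1 ρ, Finset.sum_ite_eq', if_pos (Finset.mem_univ _)]

private theorem GW2_on {K : Type} [Field K] (s ρ : K) : (⟨1, 0, s, ρ ^ 2, ρ⟩ : Q5 K).On :=
  ⟨fun k => one_ne_zero k.1, by show 1 * ρ ^ 2 - 0 * s = ρ ^ 2; ring⟩

private theorem GW2_const (F : FF) (c : ℤ) : ∑ _s : F.K, c = F.q * c := by
  rw [Finset.sum_const, Finset.card_univ, nsmul_eq_mul, GW1_card F]

/-- MODULE GW2: `SPH_sB` for `TT w`: the value is `q w(1)` (for `z = (1, 0, s, ρ ^ 2, ρ)` the condition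
is `(1 - ρ) ^ 2 = 0`). -/
theorem GW_val {w : (F : FF) → F.K → ℤ} (h : GW w) : Scal fun F => w F 1 := by
  classical
  refine Scal_divq (Scal_congr (SPH_sB.sp (TT w) h) fun F => ?_)
  unfold TT
  have h1 : ∀ ρ : F.K, (if ρ = 0 then 0 else w F ρ * ∑ s : F.K,
      lift (ic5 fun z : Q5 F.K => z.A + z.D - 2 * z.e = 0 ∧ z.B = 0)
        (ch (⟨1, 0, s, ρ ^ 2, ρ⟩ : Q5 F.K))) = if ρ = 1 then F.q * w F 1 else 0 := by
    intro ρ
    have h2 : ∀ s : F.K, lift (ic5 fun z : Q5 F.K => z.A + z.D - 2 * z.e = 0 ∧ z.B = 0)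
        (ch (⟨1, 0, s, ρ ^ 2, ρ⟩ : Q5 F.K)) = if ρ = 1 then 1 else 0 := by
      intro s
      rw [lift_ch (SPH_sB.hom F) (GW2_on s ρ)]
      unfold ic5
      have h3 : (1 + ρ ^ 2 - 2 * ρ = 0 ∧ (0 : F.K) = 0) ↔ ρ = 1 := by
        constructor
        · rintro ⟨h, -⟩
          have h4 : (ρ - 1) ^ 2 = 0 := by linear_combination h
          exact sub_eq_zero.1 ((pow_eq_zero_iff two_ne_zero).1 h4)
        · rintro rfl
          exact ⟨by ring, rfl⟩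
      by_cases hρ : ρ = 1
      · rw [if_pos hρ]
        exact if_pos (h3.2 hρ)
      · rw [if_neg hρ]
        exact if_neg fun k => hρ (h3.1 k)
    rw [Finset.sum_congr rfl fun s _ => h2 s, GW2_const F]
    by_cases hρ : ρ = 1
    · subst hρ
      rw [if_neg one_ne_zero, if_pos rfl, if_pos rfl]
      ring
    · rw [if_neg hρ, if_neg hρ, mul_zero, mul_zero, ite_self]
  rw [Finset.sum_congr rfl fun ρ _ => h1 ρ, Finset.sum_ite_eq', if_pos (Finset.mem_univ _)]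

/-- MODULE GW2: `SPH_one` for `TT w`: the value is `q` times the sum. -/
theorem GW_sum {w : (F : FF) → F.K → ℤ} (h : GW w) :
    Scal fun F => open Classical in ∑ ρ : F.K, if ρ = 0 then 0 else w F ρ := by
  classical
  refine Scal_divq (Scal_congr (SPH_one.sp (TT w) h) fun F => ?_)
  unfold TT
  rw [Finset.mul_sum]
  refine Finset.sum_congr rfl fun ρ _ => ?_
  have h2 : ∀ s : F.K, lift (fun _ => 1) (ch (⟨1, 0, s, ρ ^ 2, ρ⟩ : Q5 F.K)) = 1 :=
    fun s => lift_ch (SPH_one.hom F) (GW2_on s ρ)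
  rw [Finset.sum_congr rfl fun s _ => h2 s, GW2_const F]
  split_ifs
  · ring
  · ring

/-- MODULE GW2: `w` minus `w 1` times the weight `δ_1`. -/
theorem GW_off {w : (F : FF) → F.K → ℤ} (h : GW w) : GW (off1 w) := by
  classical
  refine GW_congr (GW_sub h (GW_scal (GW_val h) GW_d1)) fun F ρ _ => ?_
  unfold off1 dl
  by_cases hρ : ρ = 1
  · rw [if_pos hρ, if_pos hρ, hρ]
    ring
  · rw [if_neg hρ, if_neg hρ]
    ring

/-- MODULE GW2. -/
theorem GW_on {w : (F : FF) → F.K → ℤ} (h : GW (off1 w)) (h1 : Scal fun F => w F 1) : GW w := by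
  classical
  refine GW_congr (GW_add h (GW_scal h1 GW_d1)) fun F ρ _ => ?_
  unfold off1 dl
  by_cases hρ : ρ = 1
  · rw [if_pos hρ, if_pos hρ, hρ]
    ring
  · rw [if_neg hρ, if_neg hρ]
    ring

/-! ### Operations on weights -/

/-- MODULE GW3: mirror image of `TT w`: `rl` maps `(1, 0, s, ρ ^ 2, ρ)` to `(ρ ^ 2, 0, s, 1, ρ)`, which is
`ρ ^ 2 (1, 0, s / ρ ^ 2, 1 / ρ ^ 2, 1 / ρ)`. -/
theorem GW_inv {w : (F : FF) → F.K → ℤ} (h : GW w) : GW fun F ρ => w F ρ⁻¹ := by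
  classical
  refine GG_congr (GG_rl h) fun F f => ?_
  unfold Fam.rl TT
  rw [← Equiv.sum_comp (Equiv.inv F.K)]
  refine Finset.sum_congr rfl fun ρ _ => ?_
  rw [Equiv.inv_apply]
  by_cases hρ : ρ = 0
  · rw [if_pos hρ, if_pos (by rw [hρ, inv_zero])]
  · rw [if_neg hρ, if_neg (inv_ne_zero hρ)]
    congr 1
    have h1 : ∀ s : F.K, rl (ch (⟨1, 0, s, ρ⁻¹ ^ 2, ρ⁻¹⟩ : Q5 F.K)) =
        ch (⟨1, 0, ρ ^ 2 * s, ρ ^ 2, ρ⟩ : Q5 F.K) := by
      intro s
      rw [rl_ch (GW2_on s ρ⁻¹), ← ch_smul (pow_ne_zero 2 hρ)]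
      congr 1
      ext <;> simp only [Q5.smul, Q5.rlz]
      · rw [inv_pow, mul_inv_cancel₀ (pow_ne_zero 2 hρ)]
      · rw [mul_zero]
      · rw [mul_one]
      · rw [sq, mul_inv_cancel_right₀ hρ]
    rw [Finset.sum_congr rfl fun s _ => congrArg f (h1 s)]
    exact GW1_dil (pow_ne_zero 2 hρ) fun s => f (ch (⟨1, 0, s, ρ ^ 2, ρ⟩ : Q5 F.K))

/-- MODULE GW4: rotation of `TT w`: `rfz` maps `(1, 0, s, ρ ^ 2, ρ)` to `((1 - ρ) ^ 2, 0, s, 1, 1 - ρ)`, which for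
`ρ ≠ 1` is `(1 - ρ) ^ 2` times the transformer of ratio `σ = 1 / (1 - ρ)`; here `ρ = 1 - 1 / σ`. For `ρ = 1` it is the
point `(0, 0, s, 1, 0)` of `GG_Ti`, with the scalar coefficient `w 1` (`GW_val`). -/
theorem GW_rot {w : (F : FF) → F.K → ℤ} (h : GW w) : GW (off1 fun F ρ => w F (1 - ρ⁻¹)) := by
  classical
  refine GG_congr (GG_sub (GG_rf h) (GG_scal (GW_val h) GG_Ti)) fun F f => ?_
  unfold Fam.rf TT off1
  rw [sub_eq_iff_eq_add]
  -- `ρ = 1 - σ⁻¹`; for `σ = 0` the value is `1`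
  let e : F.K ≃ F.K := (Equiv.inv F.K).trans (Equiv.subLeft 1)
  have he : ∀ σ, e σ = 1 - σ⁻¹ := fun _ => rfl
  rw [← Equiv.sum_comp e]
  have h1 : ∀ σ : F.K, (if e σ = 0 then 0 else w F (e σ) * ∑ s : F.K,
      f (rf (n := 2) (ch (⟨1, 0, s, e σ ^ 2, e σ⟩ : Q5 F.K)))) =
      (if σ = 0 then 0 else (if σ = 1 then 0 else w F (1 - σ⁻¹)) *
        ∑ s : F.K, f (ch (⟨1, 0, s, σ ^ 2, σ⟩ : Q5 F.K))) +
      if σ = 0 then w F 1 * ∑ s : F.K, f (ch (⟨0, 0, s, 1, 0⟩ : Q5 F.K)) else 0 := by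
    intro σ
    rw [he]
    by_cases h0 : σ = 0
    · subst h0
      rw [if_pos rfl, if_pos rfl, inv_zero, sub_zero, if_neg one_ne_zero, zero_add]
      congr 1
      refine Finset.sum_congr rfl fun s _ => ?_
      rw [rf_ch (GW2_on s 1)]
      congr 2
      ext <;> simp only [Q5.rfz]
      · ring
      · ring
    · rw [if_neg h0, if_neg h0, add_zero]
      by_cases h1 : σ = 1
      · subst h1
        rw [if_pos rfl, inv_one, sub_self, if_pos rfl, zero_mul]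
      · have h2 : 1 - σ⁻¹ ≠ 0 := by
          intro h3
          apply h1
          rw [← inv_inv σ, ← sub_eq_zero.1 h3, inv_one]
        rw [if_neg h1, if_neg h2]
        congr 1
        have h4 : ∀ s : F.K, rf (n := 2) (ch (⟨1, 0, s, (1 - σ⁻¹) ^ 2, 1 - σ⁻¹⟩ : Q5 F.K)) =
            ch (⟨1, 0, σ ^ 2 * s, σ ^ 2, σ⟩ : Q5 F.K) := by
          intro s
          rw [rf_ch (GW2_on s _), ← ch_smul (pow_ne_zero 2 h0)]
          congr 1
          ext <;> simp only [Q5.smul, Q5.rfz]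
          · field_simp
            ring
          · rw [mul_zero]
          · rw [mul_one]
          · field_simp
            ring
        rw [Finset.sum_congr rfl fun s _ => congrArg f (h4 s)]
        exact GW1_dil (pow_ne_zero 2 h0) fun s => f (ch (⟨1, 0, s, σ ^ 2, σ⟩ : Q5 F.K))
  rw [Finset.sum_congr rfl fun σ _ => h1 σ, Finset.sum_add_distrib, Finset.sum_ite_eq',
    if_pos (Finset.mem_univ _)]

private theorem GW5_smul {K : Type} [Field K] {c : K} (hc : c ≠ 0) (z w : Q5 K) :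
    ic5 (fun w => z.MulNz w) (w.smul c) = ic5 (fun w => z.MulNz w) w ∧
      ic5 (fun w => (z.smul c).MulNz w) w = ic5 (fun w => z.MulNz w) w := by
  have h1 : z.mul (w.smul c) = (z.mul w).smul c := by
    ext <;> simp only [Q5.smul, Q5.mul] <;> ring
  have h2 : (z.smul c).mul w = (z.mul w).smul c := by
    ext <;> simp only [Q5.smul, Q5.mul] <;> ring
  have h3 : ∀ x : Q5 K, ((x.smul c).A = 0 ∧ (x.smul c).B = 0 ∧ (x.smul c).C = 0 ∧
      (x.smul c).D = 0 ∧ (x.smul c).e = 0) ↔ (x.A = 0 ∧ x.B = 0 ∧ x.C = 0 ∧ x.D = 0 ∧ x.e = 0) := by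
    intro x
    simp only [Q5.smul, mul_eq_zero, hc, false_or]
  have h4 : z.MulNz (w.smul c) ↔ z.MulNz w := by
    unfold Q5.MulNz
    rw [h1, h3]
  have h5 : (z.smul c).MulNz w ↔ z.MulNz w := by
    unfold Q5.MulNz
    rw [h2, h3]
  constructor
  · by_cases h : z.MulNz w
    · rw [GW1_pos (P := fun w => z.MulNz w) h, GW1_pos (P := fun w => z.MulNz w) (h4.2 h)]
    · rw [GW1_neg (P := fun w => z.MulNz w) h,
        GW1_neg (P := fun w => z.MulNz w) fun k => h (h4.1 k)]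
  · by_cases h : z.MulNz w
    · rw [GW1_pos (P := fun w => z.MulNz w) h, GW1_pos (P := fun w => (z.smul c).MulNz w) (h5.2 h)]
    · rw [GW1_neg (P := fun w => z.MulNz w) h,
        GW1_neg (P := fun w => (z.smul c).MulNz w) fun k => h (h5.1 k)]

private theorem GW5_mul {K : Type} [Field K] (c : K) (z w : Q5 K) :
    z.mul (w.smul c) = (z.mul w).smul c ∧ (z.smul c).mul w = (z.mul w).smul c := by
  constructor
  · ext <;> simp only [Q5.smul, Q5.mul] <;> ring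
  · ext <;> simp only [Q5.smul, Q5.mul] <;> ring

/-- The function of `w` in a cascade. -/
private noncomputable def GW5_g {K : Type} [Field K] (φ : Q5 K → ℤ) (z w : Q5 K) : ℤ :=
  ic5 (fun w => z.MulNz w) w * φ (z.mul w)

private theorem GW5_hom {K : Type} [Field K] {φ : Q5 K → ℤ} (h : Hom φ) (z : Q5 K) :
    Hom (GW5_g φ z) := by
  intro c w hc
  unfold GW5_g
  rw [(GW5_smul hc z w).1, (GW5_mul c z w).1, h c _ hc]

private theorem GW5_hom' {K : Type} [Field K] {φ : Q5 K → ℤ} (h : Hom φ) (c : K) (hc : c ≠ 0)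
    (z : Q5 K) : GW5_g φ (z.smul c) = GW5_g φ z := by
  funext w
  unfold GW5_g
  rw [(GW5_smul hc z w).2, (GW5_mul c z w).2, h c _ hc]

/-- The cascade of two families. -/
private theorem GW5_cas {ν κ : Fam 3} (h : GG 3 ν) (h' : GG 3 κ) : ∃ μ : Fam 3, GG 3 μ ∧
    ∀ (F : FF) (f : St 3 F.K → ℤ), μ F f = ν F (lift fun z => κ F (lift (GW5_g (fun m => f (ch m)) z))) := by
  obtain ⟨μ, hμ, hμ'⟩ := op_cas h h'
  refine ⟨μ, hμ, fun F f => ?_⟩
  have hf : Hom (fun m : Q5 F.K => f (ch m)) := fun c z hc => by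
    beta_reduce
    rw [ch_smul hc]
  refine hμ' F f (fun z => lift (GW5_g (fun m => f (ch m)) z)) _ ?_ ?_
  · intro z w hz hw
    rw [lift_ch (GW5_hom hf z) hw]
    rfl
  · intro z hz
    rw [lift_ch ?_ hz]
    intro c z hc
    beta_reduce
    rw [GW5_hom' hf c hc]

private theorem GW5_homT {K : Type} [Field K] [Fintype K] (κ : (St 3 K → ℤ) → ℤ) {φ : Q5 K → ℤ}
    (h : Hom φ) : Hom fun z => κ (lift (GW5_g φ z)) := by
  intro c z hc
  beta_reduce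
  rw [GW5_hom' h c hc]

/-- MODULE GW5: the cascade (`op_cas`) of `TT w` and `TT w'` is `q` times `TT (star w w')`: the product of
`(1, 0, s, ρ ^ 2, ρ)` and `(1, 0, s', ρ' ^ 2, ρ')` is `(1, 0, s + ρ ^ 2 s', (ρ ρ') ^ 2, ρ ρ')`, it is never zero. -/
theorem GW_star {w w' : (F : FF) → F.K → ℤ} (h : GW w) (h' : GW w') : GW (star w w') := by
  classical
  obtain ⟨μ, hμ, hμ'⟩ := GW5_cas h h'
  refine GG_divq (GG_congr hμ fun F f => ?_)
  rw [hμ']
  have hf : Hom (fun m : Q5 F.K => f (ch m)) := fun c z hc => by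
    beta_reduce
    rw [ch_smul hc]
  -- the value at `ρ`, `s`
  have h1 : ∀ ρ s : F.K, lift (fun z => TT w' F (lift (GW5_g (fun m => f (ch m)) z)))
      (ch (⟨1, 0, s, ρ ^ 2, ρ⟩ : Q5 F.K)) = ∑ ρ' : F.K, if ρ' = 0 then 0 else w' F ρ' *
        ∑ s' : F.K, f (ch (⟨1, 0, s + ρ ^ 2 * s', (ρ * ρ') ^ 2, ρ * ρ'⟩ : Q5 F.K)) := by
    intro ρ s
    rw [lift_ch (GW5_homT (TT w' F) hf) (GW2_on s ρ)]
    unfold TT
    refine Finset.sum_congr rfl fun ρ' _ => ?_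
    by_cases hρ' : ρ' = 0
    · rw [if_pos hρ', if_pos hρ']
    · rw [if_neg hρ', if_neg hρ']
      congr 1
      refine Finset.sum_congr rfl fun s' _ => ?_
      rw [lift_ch (GW5_hom hf _) (GW2_on s' ρ')]
      unfold GW5_g
      have h2 : (⟨1, 0, s, ρ ^ 2, ρ⟩ : Q5 F.K).mul ⟨1, 0, s', ρ' ^ 2, ρ'⟩ =
          ⟨1, 0, s + ρ ^ 2 * s', (ρ * ρ') ^ 2, ρ * ρ'⟩ := by
        ext <;> simp only [Q5.mul] <;> ring
      rw [GW1_pos (P := fun w => (⟨1, 0, s, ρ ^ 2, ρ⟩ : Q5 F.K).MulNz w), h2, one_mul]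
      intro k
      rw [h2] at k
      exact one_ne_zero k.1
  have h3 : ∀ ρ τ : F.K, ∑ s : F.K, ∑ s' : F.K, f (ch (⟨1, 0, s + ρ ^ 2 * s', τ ^ 2, τ⟩ : Q5 F.K)) =
      F.q * ∑ s : F.K, f (ch (⟨1, 0, s, τ ^ 2, τ⟩ : Q5 F.K)) := by
    intro ρ τ
    rw [Finset.sum_comm, ← GW2_const F]
    refine Finset.sum_congr rfl fun s' _ => ?_
    rw [← GW1_tr (ρ ^ 2 * s') fun s => f (ch (⟨1, 0, s, τ ^ 2, τ⟩ : Q5 F.K))]
    refine Finset.sum_congr rfl fun s _ => ?_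
    rw [add_comm]
  have h4 : ∀ ρ : F.K, ρ ≠ 0 → ∑ s : F.K, lift (fun z => TT w' F (lift (GW5_g (fun m => f (ch m)) z)))
      (ch (⟨1, 0, s, ρ ^ 2, ρ⟩ : Q5 F.K)) = F.q * ∑ τ : F.K, if τ = 0 then 0 else w' F (τ / ρ) *
        ∑ s : F.K, f (ch (⟨1, 0, s, τ ^ 2, τ⟩ : Q5 F.K)) := by
    intro ρ hρ
    rw [Finset.sum_congr rfl fun s _ => h1 ρ s, Finset.sum_comm,
      ← GW1_dil hρ fun τ => if τ = 0 then 0 else w' F (τ / ρ) *
        ∑ s : F.K, f (ch (⟨1, 0, s, τ ^ 2, τ⟩ : Q5 F.K)), Finset.mul_sum]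
    refine Finset.sum_congr rfl fun ρ' _ => ?_
    by_cases hρ' : ρ' = 0
    · simp only [hρ', if_true, mul_zero, Finset.sum_const_zero]
    · simp only [if_neg hρ', if_neg (mul_ne_zero hρ hρ'), ← Finset.mul_sum]
      rw [h3, mul_div_cancel_left₀ _ hρ]
      ring
  unfold TT star
  have h5 : ∀ ρ : F.K, (if ρ = 0 then 0 else w F ρ * ∑ s : F.K,
      lift (fun z => TT w' F (lift (GW5_g (fun m => f (ch m)) z)))
      (ch (⟨1, 0, s, ρ ^ 2, ρ⟩ : Q5 F.K))) = F.q * ∑ τ : F.K, if τ = 0 then 0 else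
        (if ρ = 0 then 0 else w F ρ * w' F (τ / ρ)) *
        ∑ s : F.K, f (ch (⟨1, 0, s, τ ^ 2, τ⟩ : Q5 F.K)) := by
    intro ρ
    by_cases hρ : ρ = 0
    · simp only [hρ, if_true, zero_mul, ite_self, Finset.sum_const_zero, mul_zero]
    · rw [if_neg hρ, h4 ρ hρ, mul_left_comm]
      congr 1
      rw [Finset.mul_sum]
      refine Finset.sum_congr rfl fun τ _ => ?_
      rw [if_neg hρ]
      split_ifs
      · ring
      · ring
  show ∑ ρ : F.K, (if ρ = 0 then 0 else w F ρ * ∑ s : F.K,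
      lift (fun z => TT w' F (lift (GW5_g (fun m => f (ch m)) z)))
      (ch (⟨1, 0, s, ρ ^ 2, ρ⟩ : Q5 F.K))) = _
  rw [Finset.sum_congr rfl fun ρ _ => h5 ρ, ← Finset.mul_sum, Finset.sum_comm]
  congr 1
  refine Finset.sum_congr rfl fun τ _ => ?_
  by_cases hτ : τ = 0
  · simp only [hτ, if_true, Finset.sum_const_zero]
  · simp only [if_neg hτ, Finset.sum_mul]

/-! ### Weights from good families -/

private theorem TR1_hom {K : Type} [Field K] [Fintype K] (op : K → Q5 K → Q5 K)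
    (hop : ∀ (t c : K) (z : Q5 K), op t (z.smul c) = (op t z).smul c) {φ : Q5 K → ℤ} (h : Hom φ) :
    Hom fun z => ∑ t : K, φ (op t z) := by
  intro c z hc
  beta_reduce
  refine Finset.sum_congr rfl fun t _ => ?_
  rw [hop, h c _ hc]

private theorem TR1_e02 {K : Type} [Field K] (t c : K) (z : Q5 K) :
    (z.smul c).e02 t = (z.e02 t).smul c := by
  ext <;> simp only [Q5.smul, Q5.e02] <;> ring

private theorem TR1_e12 {K : Type} [Field K] (t c : K) (z : Q5 K) :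
    (z.smul c).e12 t = (z.e12 t).smul c := by
  ext <;> simp only [Q5.smul, Q5.e12] <;> ring

private theorem TR1_e01 {K : Type} [Field K] (t c : K) (z : Q5 K) :
    (z.smul c).e01 t = (z.e01 t).smul c := by
  ext <;> simp only [Q5.smul, Q5.e01] <;> ring

/-- MODULE TR1: `op_e01` after `op_e12` after `op_e02`. -/
theorem op_tri {ν : Fam 3} (h : GG 3 ν) : ∃ μ : Fam 3, GG 3 μ ∧
    ∀ (F : FF) (f : St 3 F.K → ℤ) (g : St 3 F.K → ℤ),
      (∀ z : Q5 F.K, z.On → g (ch z) = ∑ a : F.K, ∑ b : F.K, ∑ c : F.K,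
        f (ch (((z.e02 a).e12 b).e01 c))) → μ F f = ν F g := by
  obtain ⟨μ1, h1, k1⟩ := op_e02 h
  obtain ⟨μ2, h2, k2⟩ := op_e12 h1
  obtain ⟨μ3, h3, k3⟩ := op_e01 h2
  refine ⟨μ3, h3, fun F f g hg => ?_⟩
  have hf : Hom (fun m : Q5 F.K => f (ch m)) := fun c z hc => by
    beta_reduce
    rw [ch_smul hc]
  have hf1 : Hom (fun z : Q5 F.K => ∑ c : F.K, f (ch (z.e01 c))) :=
    TR1_hom (fun t z => z.e01 t) TR1_e01 hf
  have hf2 : Hom (fun z : Q5 F.K => ∑ b : F.K, ∑ c : F.K, f (ch ((z.e12 b).e01 c))) :=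
    TR1_hom (fun t z => z.e12 t) TR1_e12 hf1
  rw [k3 F f (lift fun z : Q5 F.K => ∑ c : F.K, f (ch (z.e01 c))) fun z hz => lift_ch hf1 hz,
    k2 F _ (lift fun z : Q5 F.K => ∑ b : F.K, ∑ c : F.K, f (ch ((z.e12 b).e01 c))) fun z hz => by
      rw [lift_ch hf2 hz]
      exact Finset.sum_congr rfl fun b _ => (lift_ch hf1 (hz.e12 b)).symm,
    k1 F _ g fun z hz => by
      rw [hg z hz]
      exact Finset.sum_congr rfl fun a _ => (lift_ch hf2 (hz.e02 a)).symm]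

private theorem TR2_const (F : FF) (c : ℤ) : ∑ _a : F.K, ∑ _b : F.K, c = F.q ^ 2 * c := by
  rw [GW2_const F, GW2_const F]
  ring

/-- MODULE TR2: pointwise. Proof. `((z.e02 a).e12 b).e01 c` has the coordinates `A + (b + c) B`, `B`, `D + (a + c) B`, `e + c B`, and
`C + a A + b D + a b B + c σ` where `σ = A + D - 2 e + (a + b) B`. If `B ≠ 0`: dividing by `B`, the triple `(A, D, e) / B` takes each value once
(and `C` is given by the quadric). If `B = 0`: `A, D, e` do not change and `C` becomes `C + a A + b D + c (A + D - 2 e)`; `A D = e ^ 2`. If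
`A ≠ 0` or `D ≠ 0` it takes each value `q ^ 2` times; divide by `A` (transformer of ratio `e / A`), or, if `A = 0`, by `D`. If
`A = D = 0` then `e = 0`: all `q ^ 3` terms are `f (ch (0, 0, 1, 0, 0))`. -/
theorem tri_sum (F : FF) (f : St 3 F.K → ℤ) {z : Q5 F.K} (hz : z.On) :
    ∑ a : F.K, ∑ b : F.K, ∑ c : F.K, f (ch (((z.e02 a).e12 b).e01 c)) =
      ic5 (fun z : Q5 F.K => z.B ≠ 0) z *
        (∑ A : F.K, ∑ D : F.K, ∑ e : F.K, f (ch (⟨A, 1, A * D - e ^ 2, D, e⟩ : Q5 F.K))) +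
      F.q ^ 2 * (∑ ρ : F.K, ic5 (inT ρ) z * ∑ s : F.K, f (ch (⟨1, 0, s, ρ ^ 2, ρ⟩ : Q5 F.K))) +
      F.q ^ 2 * (ic5 (fun z : Q5 F.K => z.A = 0 ∧ z.B = 0 ∧ z.D ≠ 0) z *
        ∑ s : F.K, f (ch (⟨0, 0, s, 1, 0⟩ : Q5 F.K))) +
      F.q ^ 3 * (ic5 (fun z : Q5 F.K => z.A = 0 ∧ z.B = 0 ∧ z.D = 0 ∧ z.e = 0) z *
        f (ch (⟨0, 0, 1, 0, 0⟩ : Q5 F.K))) := by
  classical
  have hq := hz.quad
  by_cases hB : z.B = 0
  · -- `B = 0`
    rw [GW1_neg (P := fun z : Q5 F.K => z.B ≠ 0) fun k => k hB, zero_mul, zero_add]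
    have hq' : z.A * z.D = z.e ^ 2 := by rw [← hq, hB]; ring
    have h1 : ∀ a b c : F.K, ((z.e02 a).e12 b).e01 c =
        ⟨z.A, 0, z.C + a * z.A + b * z.D + c * (z.A + z.D - 2 * z.e), z.D, z.e⟩ := by
      intro a b c
      ext <;> simp only [Q5.e02, Q5.e12, Q5.e01, hB] <;> ring
    by_cases hA : z.A = 0
    · have he : z.e = 0 := by
        rw [hA, zero_mul] at hq'
        exact (pow_eq_zero_iff two_ne_zero).1 hq'.symm
      have h2 : ∀ ρ : F.K, ic5 (inT ρ) z = 0 := fun ρ => GW1_neg fun k => k.2.1 hA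
      have h3 : ∑ ρ : F.K, ic5 (inT ρ) z * ∑ s : F.K, f (ch (⟨1, 0, s, ρ ^ 2, ρ⟩ : Q5 F.K)) = 0 :=
        Finset.sum_eq_zero fun ρ _ => by rw [h2, zero_mul]
      rw [h3, mul_zero, zero_add]
      by_cases hD : z.D = 0
      · -- one point
        have hC : z.C ≠ 0 := fun hC => hz.nz ⟨hA, hB, hC, hD, he⟩
        rw [GW1_neg (P := fun z : Q5 F.K => z.A = 0 ∧ z.B = 0 ∧ z.D ≠ 0) fun k => k.2.2 hD,
          GW1_pos (P := fun z : Q5 F.K => z.A = 0 ∧ z.B = 0 ∧ z.D = 0 ∧ z.e = 0) ⟨hA, hB, hD, he⟩,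
          zero_mul, mul_zero, zero_add, one_mul]
        have h4 : ∀ a b c : F.K, f (ch (((z.e02 a).e12 b).e01 c)) =
            f (ch (⟨0, 0, 1, 0, 0⟩ : Q5 F.K)) := by
          intro a b c
          rw [h1, ← ch_smul hC (⟨0, 0, 1, 0, 0⟩ : Q5 F.K)]
          congr 2
          ext <;> simp only [Q5.smul, hA, hD, he] <;> ring
        rw [Finset.sum_congr rfl fun a _ => Finset.sum_congr rfl fun b _ =>
          Finset.sum_congr rfl fun c _ => h4 a b c, GW2_const, TR2_const]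
        ring
      · rw [GW1_pos (P := fun z : Q5 F.K => z.A = 0 ∧ z.B = 0 ∧ z.D ≠ 0) ⟨hA, hB, hD⟩,
          GW1_neg (P := fun z : Q5 F.K => z.A = 0 ∧ z.B = 0 ∧ z.D = 0 ∧ z.e = 0) fun k => hD k.2.2.1,
          zero_mul, mul_zero, add_zero, one_mul]
        have h4 : ∀ a c : F.K, ∑ b : F.K, f (ch (((z.e02 a).e12 b).e01 c)) =
            ∑ s : F.K, f (ch (⟨0, 0, s, 1, 0⟩ : Q5 F.K)) := by
          intro a c
          rw [← GW1_tr (z.D⁻¹ * z.C + c) fun s => f (ch (⟨0, 0, s, 1, 0⟩ : Q5 F.K))]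
          refine Finset.sum_congr rfl fun b _ => ?_
          rw [h1, ← ch_smul hD (⟨0, 0, z.D⁻¹ * z.C + c + b, 1, 0⟩ : Q5 F.K)]
          congr 2
          ext <;> simp only [Q5.smul, hA, he]
          · ring
          · ring
          · field_simp
            ring
          · ring
          · ring
        rw [Finset.sum_congr rfl fun a _ => Finset.sum_comm, Finset.sum_congr rfl fun a _ =>
          Finset.sum_congr rfl fun c _ => h4 a c, TR2_const]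
    · -- a transformer
      rw [GW1_neg (P := fun z : Q5 F.K => z.A = 0 ∧ z.B = 0 ∧ z.D ≠ 0) fun k => hA k.1,
        GW1_neg (P := fun z : Q5 F.K => z.A = 0 ∧ z.B = 0 ∧ z.D = 0 ∧ z.e = 0) fun k => hA k.1,
        zero_mul, zero_mul, mul_zero, mul_zero, add_zero, add_zero]
      have h2 : ∀ ρ : F.K, ic5 (inT ρ) z * ∑ s : F.K, f (ch (⟨1, 0, s, ρ ^ 2, ρ⟩ : Q5 F.K)) =
          if ρ = z.A⁻¹ * z.e then ∑ s : F.K, f (ch (⟨1, 0, s, (z.A⁻¹ * z.e) ^ 2, z.A⁻¹ * z.e⟩ : Q5 F.K))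
          else 0 := by
        intro ρ
        by_cases hρ : ρ = z.A⁻¹ * z.e
        · rw [if_pos hρ, GW1_pos (P := inT ρ) ⟨hB, hA, by rw [hρ]; field_simp⟩, one_mul, hρ]
        · rw [if_neg hρ, GW1_neg (P := inT ρ) fun k => hρ (by rw [k.2.2]; field_simp), zero_mul]
      rw [Finset.sum_congr rfl fun ρ _ => h2 ρ, Finset.sum_ite_eq', if_pos (Finset.mem_univ _)]
      have h4 : ∀ b c : F.K, ∑ a : F.K, f (ch (((z.e02 a).e12 b).e01 c)) =
          ∑ s : F.K, f (ch (⟨1, 0, s, (z.A⁻¹ * z.e) ^ 2, z.A⁻¹ * z.e⟩ : Q5 F.K)) := by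
        intro b c
        rw [← GW1_tr (z.A⁻¹ * (z.C + b * z.D + c * (z.A + z.D - 2 * z.e)))
          fun s => f (ch (⟨1, 0, s, (z.A⁻¹ * z.e) ^ 2, z.A⁻¹ * z.e⟩ : Q5 F.K))]
        refine Finset.sum_congr rfl fun a _ => ?_
        rw [h1, ← ch_smul hA (⟨1, 0, z.A⁻¹ * (z.C + b * z.D + c * (z.A + z.D - 2 * z.e)) + a,
          (z.A⁻¹ * z.e) ^ 2, z.A⁻¹ * z.e⟩ : Q5 F.K)]
        congr 2
        ext <;> simp only [Q5.smul]
        · ring
        · ring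
        · field_simp
          ring
        · field_simp
          linear_combination hq'
        · field_simp
      have h5 : ∑ a : F.K, ∑ b : F.K, ∑ c : F.K, f (ch (((z.e02 a).e12 b).e01 c)) =
          ∑ b : F.K, ∑ c : F.K, ∑ a : F.K, f (ch (((z.e02 a).e12 b).e01 c)) := by
        rw [Finset.sum_comm]
        exact Finset.sum_congr rfl fun b _ => Finset.sum_comm
      rw [h5, Finset.sum_congr rfl fun b _ => Finset.sum_congr rfl fun c _ => h4 b c, TR2_const]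
  · -- `B ≠ 0`
    rw [GW1_pos (P := fun z : Q5 F.K => z.B ≠ 0) hB,
      GW1_neg (P := fun z : Q5 F.K => z.A = 0 ∧ z.B = 0 ∧ z.D ≠ 0) fun k => hB k.2.1,
      GW1_neg (P := fun z : Q5 F.K => z.A = 0 ∧ z.B = 0 ∧ z.D = 0 ∧ z.e = 0) fun k => hB k.2.1]
    have h0 : ∑ ρ : F.K, ic5 (inT ρ) z * ∑ s : F.K, f (ch (⟨1, 0, s, ρ ^ 2, ρ⟩ : Q5 F.K)) = 0 :=
      Finset.sum_eq_zero fun ρ _ => by rw [GW1_neg (P := inT ρ) fun k => hB k.1, zero_mul]
    rw [h0]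
    simp only [zero_mul, mul_zero, add_zero, one_mul]
    have h1 : ∀ a b c : F.K, f (ch (((z.e02 a).e12 b).e01 c)) =
        f (ch (⟨z.B⁻¹ * z.A + c + b, 1, (z.B⁻¹ * z.A + c + b) * (z.B⁻¹ * z.D + c + a) -
          (z.B⁻¹ * z.e + c) ^ 2, z.B⁻¹ * z.D + c + a, z.B⁻¹ * z.e + c⟩ : Q5 F.K)) := by
      intro a b c
      rw [← ch_smul hB (⟨z.B⁻¹ * z.A + c + b, 1, (z.B⁻¹ * z.A + c + b) * (z.B⁻¹ * z.D + c + a) -
          (z.B⁻¹ * z.e + c) ^ 2, z.B⁻¹ * z.D + c + a, z.B⁻¹ * z.e + c⟩ : Q5 F.K)]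
      congr 2
      ext <;> simp only [Q5.smul, Q5.e02, Q5.e12, Q5.e01]
      · field_simp
        ring
      · ring
      · field_simp
        linear_combination -hq
      · field_simp
        ring
      · field_simp
    let G : F.K → F.K → F.K → ℤ := fun A D e => f (ch (⟨A, 1, A * D - e ^ 2, D, e⟩ : Q5 F.K))
    have h2 : ∑ a : F.K, ∑ b : F.K, ∑ c : F.K, f (ch (((z.e02 a).e12 b).e01 c)) =
        ∑ c : F.K, ∑ a : F.K, ∑ b : F.K,
          G (z.B⁻¹ * z.A + c + b) (z.B⁻¹ * z.D + c + a) (z.B⁻¹ * z.e + c) := by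
      rw [Finset.sum_congr rfl fun a _ => Finset.sum_comm, Finset.sum_comm]
      exact Finset.sum_congr rfl fun c _ => Finset.sum_congr rfl fun a _ =>
        Finset.sum_congr rfl fun b _ => h1 a b c
    rw [h2]
    have h3 : ∀ c : F.K, ∑ a : F.K, ∑ b : F.K,
          G (z.B⁻¹ * z.A + c + b) (z.B⁻¹ * z.D + c + a) (z.B⁻¹ * z.e + c) =
        ∑ A : F.K, ∑ D : F.K, G A D (z.B⁻¹ * z.e + c) := by
      intro c
      rw [Finset.sum_congr rfl fun a _ => GW1_tr (z.B⁻¹ * z.A + c)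
          fun A => G A (z.B⁻¹ * z.D + c + a) (z.B⁻¹ * z.e + c),
        GW1_tr (z.B⁻¹ * z.D + c) fun D => ∑ A : F.K, G A D (z.B⁻¹ * z.e + c), Finset.sum_comm]
    rw [Finset.sum_congr rfl fun c _ => h3 c,
      GW1_tr (z.B⁻¹ * z.e) fun e => ∑ A : F.K, ∑ D : F.K, G A D e, Finset.sum_comm]
    exact Finset.sum_congr rfl fun A _ => Finset.sum_comm

private theorem TN1_inT {K : Type} [Field K] (ρ : K) : Hom (ic5 (inT ρ)) := by
  refine Hom.ic5 fun c z hc => ?_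
  simp only [inT, Q5.smul, mul_eq_zero, hc, false_or, ne_eq]
  refine and_congr_right fun _ => and_congr_right fun _ => ?_
  rw [mul_left_comm]
  exact ⟨fun h => mul_left_cancel₀ hc h, fun h => by rw [h]⟩

/-- Indicator functions. -/
private theorem TN1_ic {K : Type} {P Q R : Q5 K → Prop} {z : Q5 K} (h : P z ↔ Q z ∨ R z)
    (h' : ¬ (Q z ∧ R z)) : ic5 P z = ic5 Q z + ic5 R z := by
  by_cases hQ : Q z
  · rw [GW1_pos hQ, GW1_neg fun k => h' ⟨hQ, k⟩, GW1_pos (h.2 (Or.inl hQ)), add_zero]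
  · by_cases hR : R z
    · rw [GW1_neg hQ, GW1_pos hR, GW1_pos (h.2 (Or.inr hR)), zero_add]
    · rw [GW1_neg hQ, GW1_neg hR, GW1_neg fun k => (h.1 k).elim hQ hR, zero_add]

private theorem TN1_Ti : SPH fun F => ic5 fun z : Q5 F.K => z.A = 0 ∧ z.B = 0 ∧ z.D ≠ 0 := by
  refine SPH_congr (SPH_sub SPH_BA SPH_P) (fun F => Hom.ic5 fun c z hc => ?_) fun F z hz => ?_
  · simp only [Q5.smul, mul_eq_zero, hc, false_or, ne_eq]
  · rw [sub_eq_iff_eq_add]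
    refine TN1_ic ⟨?_, ?_⟩ fun k => k.1.2.2 k.2.2.2.1
    · rintro ⟨hA, hB⟩
      by_cases hD : z.D = 0
      · have hq := hz.quad
        rw [hA, hB, zero_mul, zero_mul, sub_zero] at hq
        exact Or.inr ⟨hA, hB, hD, (pow_eq_zero_iff two_ne_zero).1 hq.symm⟩
      · exact Or.inl ⟨hA, hB, hD⟩
    · rintro (k | k)
      · exact ⟨k.1, k.2.1⟩
      · exact ⟨k.1, k.2.1⟩

private theorem TN1_T0 : SPH fun F => ic5 (inT (0 : F.K)) := by
  refine SPH_congr (SPH_sub SPH_BD SPH_P) (fun F => TN1_inT 0) fun F z hz => ?_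
  rw [sub_eq_iff_eq_add]
  have hq := hz.quad
  refine TN1_ic ⟨?_, ?_⟩ fun k => k.1.2.1 k.2.1
  · rintro ⟨hD, hB⟩
    rw [hD, hB, zero_mul, mul_zero, sub_zero] at hq
    have he := (pow_eq_zero_iff two_ne_zero).1 hq.symm
    by_cases hA : z.A = 0
    · exact Or.inr ⟨hA, hB, hD, he⟩
    · exact Or.inl ⟨hB, hA, by rw [he, zero_mul]⟩
  · rintro (k | k)
    · obtain ⟨hB, hA, he⟩ := k
      rw [he, hB, zero_mul, zero_mul, sub_zero, zero_pow two_ne_zero] at hq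
      exact ⟨(mul_eq_zero.1 hq).resolve_left hA, hB⟩
    · exact ⟨k.2.2.1, k.2.1⟩

private theorem TN1_lin {ν : Fam 3} (h : GG 3 ν) (F : FF) (a c d : ℤ) (b : F.K → ℤ)
    (φ1 φ3 φ4 : St 3 F.K → ℤ) (φ2 : F.K → St 3 F.K → ℤ) :
    ν F (fun L => a * φ1 L + (∑ ρ : F.K, b ρ * φ2 ρ L) + c * φ3 L + d * φ4 L) =
      a * ν F φ1 + (∑ ρ : F.K, b ρ * ν F (φ2 ρ)) + c * ν F φ3 + d * ν F φ4 := by
  rw [GG_add' h F, GG_add' h F, GG_add' h F, GG_mul' h F, GG_mul' h F, GG_mul' h F,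
      GG_sum' h F, Finset.sum_congr rfl fun ρ _ => GG_mul' h F (b ρ) (φ2 ρ)]

/-- MODULE TN1. Proof. `op_tri` and `tri_sum` (with `GG_ev`, `GG_add'`, `GG_mul'`, `GG_sum'`):
`μ f = ν [B ≠ 0] GG_tri + q ^ 2 ∑ ρ, ν [inT ρ] T_ρ + q ^ 2 ν [A = B = 0, D ≠ 0] GG_Ti + q ^ 3 ν [P] GG_P`. The values of `ν` at `[B ≠ 0]` (`SPH_B`),
`[A = B = 0, D ≠ 0] = [A = B = 0] - [P]` (`SPH_BA`, `SPH_P`), `[P]`, `[inT 0] = [D = B = 0] - [P]` (`SPH_BD`) are scalars. -/
theorem GW_inT {ν : Fam 3} (h : GG 3 ν) : GW fun F ρ => ν F (lift (ic5 (inT ρ))) := by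
  classical
  obtain ⟨μ, hμ, hμ'⟩ := op_tri h
  have key : ∀ (F : FF) (f : St 3 F.K → ℤ), μ F f =
      ν F (lift (ic5 fun z : Q5 F.K => z.B ≠ 0)) *
        (∑ A : F.K, ∑ D : F.K, ∑ e : F.K, f (ch (⟨A, 1, A * D - e ^ 2, D, e⟩ : Q5 F.K))) +
      (F.q * (F.q * ∑ ρ : F.K, ν F (lift (ic5 (inT ρ))) *
        ∑ s : F.K, f (ch (⟨1, 0, s, ρ ^ 2, ρ⟩ : Q5 F.K)))) +
      F.q * (F.q * (ν F (lift (ic5 fun z : Q5 F.K => z.A = 0 ∧ z.B = 0 ∧ z.D ≠ 0)) *
        ∑ s : F.K, f (ch (⟨0, 0, s, 1, 0⟩ : Q5 F.K)))) +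
      F.q * (F.q * (F.q * (ν F (lift (ic5 fun z : Q5 F.K => z.A = 0 ∧ z.B = 0 ∧ z.D = 0 ∧ z.e = 0)) *
        f (ch (⟨0, 0, 1, 0, 0⟩ : Q5 F.K))))) := by
    intro F f
    rw [hμ' F f (fun L =>
      (∑ A : F.K, ∑ D : F.K, ∑ e : F.K, f (ch (⟨A, 1, A * D - e ^ 2, D, e⟩ : Q5 F.K))) *
        lift (ic5 fun z : Q5 F.K => z.B ≠ 0) L +
      (∑ ρ : F.K, (F.q ^ 2 * ∑ s : F.K, f (ch (⟨1, 0, s, ρ ^ 2, ρ⟩ : Q5 F.K))) *
        lift (ic5 (inT ρ)) L) +
      (F.q ^ 2 * ∑ s : F.K, f (ch (⟨0, 0, s, 1, 0⟩ : Q5 F.K))) *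
        lift (ic5 fun z : Q5 F.K => z.A = 0 ∧ z.B = 0 ∧ z.D ≠ 0) L +
      (F.q ^ 3 * f (ch (⟨0, 0, 1, 0, 0⟩ : Q5 F.K))) *
        lift (ic5 fun z : Q5 F.K => z.A = 0 ∧ z.B = 0 ∧ z.D = 0 ∧ z.e = 0) L) ?_,
      TN1_lin h F]
    · have h1 : ∑ ρ : F.K, (F.q ^ 2 * ∑ s : F.K, f (ch (⟨1, 0, s, ρ ^ 2, ρ⟩ : Q5 F.K))) *
          ν F (lift (ic5 (inT ρ))) = F.q * (F.q * ∑ ρ : F.K, ν F (lift (ic5 (inT ρ))) *
            ∑ s : F.K, f (ch (⟨1, 0, s, ρ ^ 2, ρ⟩ : Q5 F.K))) := by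
        rw [Finset.mul_sum, Finset.mul_sum]
        exact Finset.sum_congr rfl fun ρ _ => by ring
      rw [h1]
      ring
    · intro z hz
      have h1 : ∑ ρ : F.K, (F.q ^ 2 * ∑ s : F.K, f (ch (⟨1, 0, s, ρ ^ 2, ρ⟩ : Q5 F.K))) *
          lift (ic5 (inT ρ)) (ch z) = F.q ^ 2 * ∑ ρ : F.K, ic5 (inT ρ) z *
            ∑ s : F.K, f (ch (⟨1, 0, s, ρ ^ 2, ρ⟩ : Q5 F.K)) := by
        rw [Finset.mul_sum]
        exact Finset.sum_congr rfl fun ρ _ => by rw [lift_ch (TN1_inT ρ) hz]; ring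
      rw [tri_sum F f hz, lift_ch (SPH_B.hom F) hz, lift_ch (TN1_Ti.hom F) hz,
        lift_ch (SPH_P.hom F) hz, h1]
      ring
  refine GW_divq (GW_divq (GG_congr (GG_sub (GG_sub (GG_sub (GG_sub hμ
    (GG_scal (SPH_B.sp ν h) GG_tri)) (GG_mulq (GG_mulq (GG_scal (TN1_T0.sp ν h) GG_T0))))
    (GG_mulq (GG_mulq (GG_scal (TN1_Ti.sp ν h) GG_Ti))))
    (GG_mulq (GG_mulq (GG_mulq (GG_scal (SPH_P.sp ν h) GG_P))))) fun F f => ?_))
  rw [key F f]
  unfold TT one5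
  have h2 : (F.q * (F.q * ∑ ρ : F.K, ν F (lift (ic5 (inT ρ))) *
        ∑ s : F.K, f (ch (⟨1, 0, s, ρ ^ 2, ρ⟩ : Q5 F.K)))) =
      (∑ ρ : F.K, if ρ = 0 then F.q * (F.q * (ν F (lift (ic5 (inT (0 : F.K)))) *
        ∑ s : F.K, f (ch (⟨1, 0, s, 0, 0⟩ : Q5 F.K)))) else 0) +
      ∑ ρ : F.K, if ρ = 0 then 0 else F.q * (F.q * ν F (lift (ic5 (inT ρ)))) *
        ∑ s : F.K, f (ch (⟨1, 0, s, ρ ^ 2, ρ⟩ : Q5 F.K)) := by
    rw [← Finset.sum_add_distrib, Finset.mul_sum, Finset.mul_sum]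
    refine Finset.sum_congr rfl fun ρ _ => ?_
    split_ifs with h0
    · rw [h0, zero_pow two_ne_zero, add_zero]
    · ring
  rw [h2, Finset.sum_ite_eq', if_pos (Finset.mem_univ _)]
  ring

private theorem TN2_add {ν : Fam 3} (h : GG 3 ν) (F : FF) {φ ψ χ : Q5 F.K → ℤ} (hφ : Hom φ)
    (hψ : Hom ψ) (hχ : Hom χ) (e : ∀ z : Q5 F.K, z.On → φ z = ψ z + χ z) :
    ν F (lift φ) = ν F (lift ψ) + ν F (lift χ) := by
  rw [← GG_add' h F]
  refine GG_ev h F fun z hz => ?_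
  rw [lift_ch hφ hz, lift_ch hψ hz, lift_ch hχ hz, e z hz]

private theorem TN2_smul {K : Type} [Field K] (c : K) (z : Q5 K) :
    (z.smul c).A = c * z.A ∧ (z.smul c).B = c * z.B ∧ (z.smul c).C = c * z.C ∧
      (z.smul c).D = c * z.D ∧ (z.smul c).e = c * z.e := ⟨rfl, rfl, rfl, rfl, rfl⟩

private theorem TN2_Lam {K : Type} [Field K] (ρ : K) {c : K} (hc : c ≠ 0) (z : Q5 K) :
    Lam ρ (z.smul c) = 0 ↔ Lam ρ z = 0 := by
  have h : Lam ρ (z.smul c) = c * Lam ρ z := by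
    simp only [Lam, Q5.smul]
    ring
  rw [h, mul_eq_zero, or_iff_right hc]

private theorem TN2_eq {K : Type} [Field K] {c : K} (hc : c ≠ 0) (x y : K) :
    c * x = c * y ↔ x = y := ⟨fun h => mul_left_cancel₀ hc h, fun h => by rw [h]⟩

private theorem TN2_homL {K : Type} [Field K] (ρ : K) : Hom (ic5 fun z : Q5 K => Lam ρ z = 0) :=
  Hom.ic5 fun _ z hc => TN2_Lam ρ hc z

private theorem TN2_homLA {K : Type} [Field K] (ρ : K) :
    Hom (ic5 fun z : Q5 K => Lam ρ z = 0 ∧ z.A ≠ z.e) :=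
  Hom.ic5 fun _ z hc => and_congr (TN2_Lam ρ hc z) (not_congr (TN2_eq hc z.A z.e))

/-- A scalar off `1`. -/
private theorem TN2_scal {s : FF → ℤ} (h : Scal s) : GW (off1 fun F _ => s F) :=
  GW_off (GW_congr (GW_scal h GW_one) fun _ _ _ => mul_one _)

private theorem TN2_off {w w' w'' : (F : FF) → F.K → ℤ} (h : GW (off1 w')) (h' : GW (off1 w''))
    (e : ∀ (F : FF) (ρ : F.K), ρ ≠ 0 → ρ ≠ 1 → w F ρ = w' F ρ + w'' F ρ) : GW (off1 w) := by
  classical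
  refine GW_congr (GW_add h h') fun F ρ h0 => ?_
  unfold off1
  by_cases h1 : ρ = 1
  · simp only [if_pos h1, add_zero]
  · simp only [if_neg h1, e F ρ h0 h1]

private theorem TN2_offc {w w' : (F : FF) → F.K → ℤ} (h : GW (off1 w'))
    (e : ∀ (F : FF) (ρ : F.K), ρ ≠ 0 → ρ ≠ 1 → w F ρ = w' F ρ) : GW (off1 w) := by
  classical
  refine GW_congr h fun F ρ h0 => ?_
  unfold off1
  by_cases h1 : ρ = 1
  · simp only [if_pos h1]
  · simp only [if_neg h1, e F ρ h0 h1]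

private theorem TN2_offs {w w' w'' : (F : FF) → F.K → ℤ} (h : GW (off1 w')) (h' : GW (off1 w''))
    (e : ∀ (F : FF) (ρ : F.K), ρ ≠ 0 → ρ ≠ 1 → w F ρ = w' F ρ - w'' F ρ) : GW (off1 w) := by
  classical
  refine GW_congr (GW_sub h h') fun F ρ h0 => ?_
  unfold off1
  by_cases h1 : ρ = 1
  · simp only [if_pos h1, sub_zero]
  · simp only [if_neg h1, e F ρ h0 h1]

/-- MODULE TN2. Proof. `GW_inT` for the family of `op_s2`, `cnt_T`, `GW_off`: this is the weight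
`off1 (ν [Λ_ρ = 0, A ≠ e])`. And `[Λ_ρ = 0, A = e] = [A = e, D = e]` is a scalar (`SPH_Y`). -/
theorem GW_Lam {ν : Fam 3} (h : GG 3 ν) :
    GW (off1 fun F ρ => ν F (lift (ic5 fun z : Q5 F.K => Lam ρ z = 0))) := by
  obtain ⟨μ, hμ, hμ'⟩ := op_s2 h
  have h1 : GW (off1 fun F ρ => ν F (lift (ic5 fun z : Q5 F.K => Lam ρ z = 0 ∧ z.A ≠ z.e))) := by
    refine TN2_offc (GW_off (GW_inT hμ)) fun F ρ h0 h1 => ?_
    refine (hμ' F _ _ fun z hz => ?_).symm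
    rw [lift_ch (TN2_homLA ρ) hz, ← cnt_T F.two_ne h0 h1 hz]
    exact Finset.sum_congr rfl fun r _ => (lift_ch (TN1_inT ρ) (hz.s2 r)).symm
  refine TN2_off h1 (TN2_scal (SPH_Y.sp ν h)) fun F ρ h0 h1 => ?_
  refine TN2_add h F (TN2_homL ρ) (TN2_homLA ρ) (SPH_Y.hom F) fun z hz => ?_
  refine TN1_ic ⟨fun k => ?_, ?_⟩ fun k => k.1.2 k.2.1
  · by_cases hA : z.A = z.e
    · right
      unfold Lam at k
      rw [hA, sub_self, mul_zero, add_zero, sub_eq_zero] at k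
      exact ⟨hA, k⟩
    · exact Or.inl ⟨k, hA⟩
  · rintro (k | k)
    · exact k.1
    · unfold Lam
      rw [k.1, k.2, sub_self, mul_zero, add_zero]

private theorem TN3_homLe {K : Type} [Field K] (ρ : K) :
    Hom (ic5 fun z : Q5 K => Lam ρ z = 0 ∧ z.e ≠ 0) := by
  refine Hom.ic5 fun c z hc => and_congr (TN2_Lam ρ hc z) (not_congr ?_)
  show c * z.e = 0 ↔ z.e = 0
  rw [mul_eq_zero, or_iff_right hc]

private theorem TN3_homLe' {K : Type} [Field K] (ρ : K) :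
    Hom (ic5 fun z : Q5 K => Lam ρ z = 0 ∧ z.e = 0) := by
  refine Hom.ic5 fun c z hc => and_congr (TN2_Lam ρ hc z) ?_
  show c * z.e = 0 ↔ z.e = 0
  rw [mul_eq_zero, or_iff_right hc]

/-- The sum over `U`. -/
private theorem TN3_sum (F : FF) {ρ : F.K} (h0 : ρ ≠ 0) (h1 : ρ ≠ 1) {w : Q5 F.K} (hw : w.On) :
    (open Classical in ∑ z : Q5 F.K, if z.On ∧ z.A + z.D = 2 * z.e then
      ic5 (fun w => z.MulNz w) w * ic5 (fun z : Q5 F.K => Lam ρ z = 0) (z.mul w) else 0) =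
    (F.q ^ 2 - 1) + F.q * (F.q - 1) * ic5 (fun w : Q5 F.K => Lam ρ w = 0 ∧ w.e ≠ 0) w - irr w := by
  classical
  rw [← GW1_card F, ← cnt_U F.two_ne h0 h1 hw]
  unfold irr
  rw [← Finset.sum_sub_distrib]
  refine Finset.sum_congr rfl fun z _ => ?_
  by_cases hz : z.On ∧ z.A + z.D = 2 * z.e
  · rw [if_pos hz, if_pos hz, if_pos hz]
    by_cases hm : z.MulNz w
    · rw [GW1_pos (P := fun w => z.MulNz w) hm]
      by_cases hL : Lam ρ (z.mul w) = 0
      · rw [GW1_pos (P := fun z : Q5 F.K => Lam ρ z = 0) hL, if_pos hL]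
        ring
      · rw [GW1_neg (P := fun z : Q5 F.K => Lam ρ z = 0) hL, if_neg hL]
        ring
    · rw [GW1_neg (P := fun w => z.MulNz w) hm, if_pos]
      · ring
      · unfold Q5.MulNz at hm
        rw [not_not] at hm
        unfold Lam
        rw [hm.1, hm.2.2.2.1, hm.2.2.2.2]
        ring
  · rw [if_neg hz, if_neg hz, if_neg hz, sub_zero]

/-- MODULE TN3. Proof. `GW_Lam` for `μ` of `U_op`: if `z w = 0` then `Λ_ρ (z w) = 0`, so by `cnt_U` for `ρ ≠ 0, 1` the value is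
`ν` at `(q ^ 2 - 1) + q (q - 1) [Λ_ρ = 0, e ≠ 0] - irr`. Subtract scalars (`SPH_one`, `SPH_irr`), divide by `q (q - 1)`; subtract from
`GW_Lam`. -/
theorem GW_Le {ν : Fam 3} (h : GG 3 ν) :
    GW (off1 fun F ρ => ν F (lift (ic5 fun z : Q5 F.K => Lam ρ z = 0 ∧ z.e = 0))) := by
  obtain ⟨μ, hμ, hμ'⟩ := U_op h
  -- the scalar
  have hs : Scal fun F => (F.q ^ 2 - 1) * ν F (lift fun _ => 1) - ν F (lift fun w => irr w) := by
    refine Scal_sub (Scal_congr (Scal_mul (Scal_poly (Polynomial.X ^ 2 - 1)) (SPH_one.sp ν h))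
      fun F => ?_) (SPH_irr.sp ν h)
    rw [Polynomial.eval_sub, Polynomial.eval_pow, Polynomial.eval_X, Polynomial.eval_one]
  have h1 : GW (off1 fun F ρ => F.q * ((F.q - 1) *
      ν F (lift (ic5 fun z : Q5 F.K => Lam ρ z = 0 ∧ z.e ≠ 0)))) := by
    refine TN2_offs (GW_Lam hμ) (TN2_scal hs) fun F ρ h0 h1 => ?_
    rw [hμ' F _ (TN2_homL ρ)]
    have h2 : (ν F (lift fun w => open Classical in ∑ z : Q5 F.K, if z.On ∧ z.A + z.D = 2 * z.e then
        ic5 (fun w => z.MulNz w) w * ic5 (fun z : Q5 F.K => Lam ρ z = 0) (z.mul w) else 0)) =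
        (F.q ^ 2 - 1) * ν F (lift fun _ => 1) +
          F.q * (F.q - 1) * ν F (lift (ic5 fun z : Q5 F.K => Lam ρ z = 0 ∧ z.e ≠ 0)) +
          (-1) * ν F (lift fun w => irr w) := by
      rw [← GG_mul' h F, ← GG_mul' h F, ← GG_mul' h F, ← GG_add' h F, ← GG_add' h F]
      refine GG_ev h F fun w hw => ?_
      rw [lift_ch (SPH_one.hom F) hw, lift_ch (TN3_homLe ρ) hw, lift_ch (SPH_irr.hom F) hw,
        lift_ch ?_ hw, TN3_sum F h0 h1 hw]
      · ring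
      · intro c z hc
        refine Finset.sum_congr rfl fun z' _ => ?_
        rw [(GW5_smul hc z' z).1, (GW5_mul c z' z).1, TN2_homL ρ c _ hc]
    rw [h2]
    ring
  have h2 : GW (off1 fun F ρ => ν F (lift (ic5 fun z : Q5 F.K => Lam ρ z = 0 ∧ z.e ≠ 0))) := by
    refine GW_divq1 (GW_divq (GW_congr h1 fun F ρ _ => ?_))
    classical
    unfold off1
    split_ifs
    · ring
    · rfl
  refine TN2_offs (GW_Lam h) h2 fun F ρ h0 h1 => ?_
  rw [eq_sub_iff_add_eq]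
  refine (TN2_add h F (TN2_homL ρ) (TN3_homLe' ρ) (TN3_homLe ρ) fun z hz => ?_).symm
  refine TN1_ic ⟨fun k => ?_, ?_⟩ fun k => k.2.2 k.1.2
  · by_cases he : z.e = 0
    · exact Or.inl ⟨k, he⟩
    · exact Or.inr ⟨k, he⟩
  · rintro (k | k)
    · exact k.1
    · exact k.1

private theorem TN4_hom {K : Type} [Field K] (ρ : K) :
    Hom (ic5 fun z : Q5 K => z.A = z.e ∧ z.e + ρ * (z.D - z.e) = 0) := by
  refine Hom.ic5 fun c z hc => and_congr (TN2_eq hc z.A z.e) ?_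
  have h : (z.smul c).e + ρ * ((z.smul c).D - (z.smul c).e) = c * (z.e + ρ * (z.D - z.e)) := by
    simp only [Q5.smul]
    ring
  rw [h, mul_eq_zero, or_iff_right hc]

/-- MODULE TN4: rotation of `GW_Le`: `Λ_ρ z.rfz = e + ρ (D - e)` and the coordinate `e` of `z.rfz` is `A - e`. -/
theorem GW_Lr {ν : Fam 3} (h : GG 3 ν) :
    GW (off1 fun F ρ => ν F (lift (ic5 fun z : Q5 F.K => z.A = z.e ∧ z.e + ρ * (z.D - z.e) = 0))) := by
  refine TN2_offc (GW_Le (GG_rf h)) fun F ρ h0 h1 => ?_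
  show _ = ν F fun L => lift (ic5 fun z : Q5 F.K => Lam ρ z = 0 ∧ z.e = 0) (rf (n := 2) L)
  refine GG_ev h F fun z hz => ?_
  rw [rf_ch hz, lift_ch (TN4_hom ρ) hz, lift_ch (TN3_homLe' ρ) hz.rfz]
  have e1 : Lam ρ z.rfz = z.e + ρ * (z.D - z.e) := by
    simp only [Lam, Q5.rfz]
    ring
  have e2 : z.rfz.e = 0 ↔ z.A = z.e := sub_eq_zero
  by_cases k : z.A = z.e ∧ z.e + ρ * (z.D - z.e) = 0
  · rw [GW1_pos (P := fun z : Q5 F.K => z.A = z.e ∧ z.e + ρ * (z.D - z.e) = 0) k,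
      GW1_pos (P := fun z : Q5 F.K => Lam ρ z = 0 ∧ z.e = 0) ⟨e1.trans k.2, e2.2 k.1⟩]
  · rw [GW1_neg (P := fun z : Q5 F.K => z.A = z.e ∧ z.e + ρ * (z.D - z.e) = 0) k,
      GW1_neg (P := fun z : Q5 F.K => Lam ρ z = 0 ∧ z.e = 0) fun j => k ⟨e2.1 j.2, e1.symm.trans j.1⟩]

private theorem TN5_hom {K : Type} [Field K] (ρ : K) :
    Hom (ic5 fun z : Q5 K => z.A = z.e ∧ z.e + ρ * (z.D - z.e) = 0 ∧ z.D ≠ z.e) := by
  refine Hom.ic5 fun c z hc => and_congr (TN2_eq hc z.A z.e)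
    (and_congr ?_ (not_congr (TN2_eq hc z.D z.e)))
  have h : (z.smul c).e + ρ * ((z.smul c).D - (z.smul c).e) = c * (z.e + ρ * (z.D - z.e)) := by
    simp only [Q5.smul]
    ring
  rw [h, mul_eq_zero, or_iff_right hc]

/-- MODULE TN5: with the condition `D ≠ e`. Proof. If `A = e`, `D = e`, `e + ρ (D - e) = 0` then `A = D = e = 0` and `B C = 0`: it is
`[O] + [P]` (`SPH_O`, `SPH_P`). -/
theorem GW_Lr' {ν : Fam 3} (h : GG 3 ν) :
    GW (off1 fun F ρ => ν F (lift (ic5 fun z : Q5 F.K =>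
      z.A = z.e ∧ z.e + ρ * (z.D - z.e) = 0 ∧ z.D ≠ z.e))) := by
  have h1 := SPH_add SPH_O SPH_P
  refine TN2_offs (GW_Lr h) (TN2_scal (h1.sp ν h)) fun F ρ h0 _ => ?_
  rw [eq_sub_iff_add_eq]
  refine (TN2_add h F (TN4_hom ρ) (TN5_hom ρ) (h1.hom F) fun z hz => ?_).symm
  rw [← TN1_ic (P := fun z : Q5 F.K => z.A = 0 ∧ z.D = 0 ∧ z.e = 0)]
  · refine TN1_ic ⟨fun k => ?_, ?_⟩ fun k => k.1.2.2 (k.2.2.1.trans k.2.2.2.symm)
    · by_cases hD : z.D = z.e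
      · right
        have he : z.e = 0 := by
          have := k.2
          rwa [hD, sub_self, mul_zero, add_zero] at this
        exact ⟨k.1.trans he, hD.trans he, he⟩
      · exact Or.inl ⟨k.1, k.2, hD⟩
    · rintro (k | k)
      · exact ⟨k.1, k.2.1⟩
      · refine ⟨k.1.trans k.2.2.symm, ?_⟩
        rw [k.2.1, k.2.2]
        ring
  · constructor
    · rintro ⟨hA, hD, he⟩
      have hq := hz.quad
      rw [hA, he, zero_mul, zero_sub, zero_pow two_ne_zero, neg_eq_zero, mul_eq_zero] at hq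
      rcases hq with hB | hC
      · exact Or.inr ⟨hA, hB, hD, he⟩
      · exact Or.inl ⟨hA, hC, hD, he⟩
    · rintro (k | k)
      · exact ⟨k.1, k.2.2.1, k.2.2.2⟩
      · exact ⟨k.1, k.2.2.1, k.2.2.2⟩
  · rintro ⟨k, l⟩
    exact hz.nz ⟨k.1, l.2.1, k.2.1, k.2.2.1, k.2.2.2⟩

private theorem TN6_cs (F : FF) (f : St 3 F.K → ℤ) :
    cs (fun F => ic5 fun z : Q5 F.K => z.A + z.D = 2 * z.e) F f =
      open Classical in ∑ z : Q5 F.K, if z.On ∧ z.A + z.D = 2 * z.e then f (ch z) else 0 := by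
  classical
  unfold cs
  refine Finset.sum_congr rfl fun z _ => ?_
  beta_reduce
  by_cases hz : z.On
  · by_cases hz' : z.A + z.D = 2 * z.e
    · rw [if_pos hz, if_pos ⟨hz, hz'⟩, GW1_pos (P := fun z : Q5 F.K => z.A + z.D = 2 * z.e) hz',
        one_mul]
    · rw [if_pos hz, if_neg fun k => hz' k.2,
        GW1_neg (P := fun z : Q5 F.K => z.A + z.D = 2 * z.e) hz', zero_mul]
  · rw [if_neg hz, if_neg fun k => hz k.1]

/-- MODULE TN6. Proof. `GW_Lr'` for the cascade (`op_cas`) of `cs_U` and `cs_U`: the value is the sum of `cnt_UU`, that is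
`(q - 1) ^ 3 (q - chi (1 - 4 ρ))`; subtract `(q - 1) ^ 3 q` times `off1 1`, divide by `(q - 1) ^ 3`. -/
theorem GW_X1 : GW (off1 fun _ ρ => chi (1 - 4 * ρ)) := by
  classical
  obtain ⟨μ, hμ, hμ'⟩ := GW5_cas cs_U cs_U
  have h1 : ∀ (F : FF) (ρ : F.K), ρ ≠ 0 → μ F (lift (ic5 fun z : Q5 F.K =>
      z.A = z.e ∧ z.e + ρ * (z.D - z.e) = 0 ∧ z.D ≠ z.e)) =
      (F.q - 1) ^ 3 * (F.q - chi (1 - 4 * ρ)) := by
    intro F ρ h0
    rw [hμ', ← GW1_card F, ← cnt_UU F.two_ne h0]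
    have hf : Hom (fun m : Q5 F.K => lift (ic5 fun z : Q5 F.K =>
        z.A = z.e ∧ z.e + ρ * (z.D - z.e) = 0 ∧ z.D ≠ z.e) (ch m)) := fun c z hc => by
      beta_reduce
      rw [ch_smul hc]
    rw [TN6_cs]
    refine Finset.sum_congr rfl fun z _ => ?_
    by_cases hz : z.On ∧ z.A + z.D = 2 * z.e
    · rw [if_pos hz, if_pos hz, lift_ch (GW5_homT (fun f => cs (fun F => ic5
        fun z : Q5 F.K => z.A + z.D = 2 * z.e) F f) hf) hz.1, TN6_cs]
      refine Finset.sum_congr rfl fun w _ => ?_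
      by_cases hw : w.On ∧ w.A + w.D = 2 * w.e
      · rw [if_pos hw, if_pos hw, lift_ch (GW5_hom hf z) hw.1]
        unfold GW5_g
        beta_reduce
        by_cases hm : z.MulNz w
        · rw [lift_ch (TN5_hom ρ) (hz.1.mul hw.1 hm)]
        · rw [GW1_neg (P := fun w => z.MulNz w) hm, zero_mul, zero_mul]
      · rw [if_neg hw, if_neg hw]
    · rw [if_neg hz, if_neg hz]
  have h2 : GW (off1 fun F ρ => (F.q - 1) ^ 3 * chi (1 - 4 * ρ)) := by
    refine TN2_offs (TN2_scal (s := fun F => (F.q - 1) ^ 3 * F.q) ?_) (GW_Lr' hμ)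
      fun F ρ h0 _ => ?_
    · refine Scal_congr (Scal_poly ((Polynomial.X - 1) ^ 3 * Polynomial.X)) fun F => ?_
      rw [Polynomial.eval_mul, Polynomial.eval_pow, Polynomial.eval_sub, Polynomial.eval_X,
        Polynomial.eval_one]
    · rw [h1 F ρ h0]
      ring
  refine GW_divq1 (GW_divq1 (GW_divq1 (GW_congr h2 fun F ρ _ => ?_)))
  unfold off1
  split_ifs
  · ring
  · ring

end Pool.Agent.PLN
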