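import Pool.Agent.PLN.NetDeg

/-!
# Planar networks: closure properties of the class `GG`
-/

set_option autoImplicit false

open scoped BigOperators

namespace Pool.Agent.PLN

open Pool.Agent.KG

variable {n m : ℕ}

/-! ### Linear structure -/

theorem GG_congr {ν μ : Fam n} (h : GG n ν) (e : ∀ F f, ν F f = μ F f) : GG n μ := by
  have : ν = μ := funext fun F => funext fun f => e F f
  exact this ▸ h

theorem GG_zero : GG n fun _ _ => 0 := SpM.zero

theorem GG_add {ν μ : Fam n} (h : GG n ν) (h' : GG n μ) : GG n fun F f => ν F f + μ F f := SpM.add h h'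

theorem GG_mulp (c : Polynomial ℤ) {ν : Fam n} (h : GG n ν) : GG n fun F f => c.eval F.q * ν F f :=
  SpM.mulp c h

theorem GG_zsmul (c : ℤ) {ν : Fam n} (h : GG n ν) : GG n fun F f => c * ν F f :=
  GG_congr (GG_mulp (Polynomial.C c) h) fun F f => by rw [Polynomial.eval_C]

theorem GG_mulq {ν : Fam n} (h : GG n ν) : GG n fun F f => F.q * ν F f :=
  GG_congr (GG_mulp Polynomial.X h) fun F f => by rw [Polynomial.eval_X]

theorem GG_neg {ν : Fam n} (h : GG n ν) : GG n fun F f => -ν F f :=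
  GG_congr (GG_zsmul (-1) h) fun F f => by ring

theorem GG_sub {ν μ : Fam n} (h : GG n ν) (h' : GG n μ) : GG n fun F f => ν F f - μ F f :=
  GG_congr (GG_add h (GG_neg h')) fun F f => by ring

theorem GG_div {ν : Fam n} (h : GG n fun F f => F.q * (F.q - 1) * ν F f) : GG n ν := SpM.div h

theorem GG_divq {ν : Fam n} (h : GG n fun F f => F.q * ν F f) : GG n ν :=
  GG_div (GG_congr (GG_sub (GG_mulq h) h) fun F f => by ring)

theorem GG_divq1 {ν : Fam n} (h : GG n fun F f => (F.q - 1) * ν F f) : GG n ν :=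
  GG_div (GG_congr (GG_mulq h) fun F f => by ring)

/-! ### Properties of good families -/

theorem FF.q_ge (F : FF) : 2 ≤ F.q := by
  have h : 1 < Nat.card F.K := Finite.one_lt_card
  show (2 : ℤ) ≤ (Nat.card F.K : ℤ)
  exact_mod_cast h

theorem FF.q_ne (F : FF) : F.q * (F.q - 1) ≠ 0 := by
  have h := F.q_ge
  exact mul_ne_zero (by omega) (by omega)

theorem GG_add' {ν : Fam n} (h : GG n ν) (F : FF) (f g : St n F.K → ℤ) :
    ν F (fun L => f L + g L) = ν F f + ν F g := by
  induction h with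
  | base h => obtain ⟨N, -, -, rfl⟩ := h; exact fn_add N F f g
  | zero => rfl
  | add _ _ h1 h2 => beta_reduce; rw [h1, h2]; ring
  | mulp c _ h1 => beta_reduce; rw [h1]; ring
  | div _ h1 =>
    beta_reduce at h1
    exact mul_left_cancel₀ F.q_ne (by rw [h1]; ring)

theorem GG_mul' {ν : Fam n} (h : GG n ν) (F : FF) (c : ℤ) (f : St n F.K → ℤ) :
    ν F (fun L => c * f L) = c * ν F f := by
  induction h with
  | base h => obtain ⟨N, -, -, rfl⟩ := h; exact fn_mul N F c f
  | zero => rw [mul_zero]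
  | add _ _ h1 h2 => beta_reduce; rw [h1, h2]; ring
  | mulp c _ h1 => beta_reduce; rw [h1]; ring
  | div _ h1 =>
    beta_reduce at h1
    exact mul_left_cancel₀ F.q_ne (by rw [h1]; ring)

theorem GG_sum' {ν : Fam n} (h : GG n ν) (F : FF) {ι : Type} (s : Finset ι) (f : ι → St n F.K → ℤ) :
    ν F (fun L => ∑ i ∈ s, f i L) = ∑ i ∈ s, ν F (f i) := by
  classical
  induction s using Finset.induction_on with
  | empty =>
    have h1 := GG_mul' h F 0 fun _ => 0
    simp only [zero_mul] at h1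
    simpa using h1
  | insert a s ha ih =>
    rw [Finset.sum_insert ha, ← ih, ← GG_add' h F]
    congr 1
    funext L
    rw [Finset.sum_insert ha]

/-- The states of a network contain the constant potentials, with zero currents; the currents have sum
zero; they are Lagrangian. -/
structure Good {K : Type} [Field K] (L : St n K) : Prop where
  cst : ∀ c : K, ((fun _ => c : Fin n → K), (0 : Fin n → K)) ∈ L
  lag : ∀ z, z ∈ L ↔ ∀ x ∈ L, ∑ j, (z.1 j * x.2 j - x.1 j * z.2 j) = 0

theorem Good.sum {K : Type} [Field K] {L : St n K} (h : Good L) {x : (Fin n → K) × (Fin n → K)}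
    (hx : x ∈ L) : ∑ j, x.2 j = 0 := by
  have h1 := (h.lag x).1 hx _ (h.cst 1)
  simpa using h1

private theorem good_kd {K : Type} [Field K] {V : Type} [Fintype V] (g : V → K) (a : V) :
    ∑ v, g v * ((kd a v : ℤ) : K) = g a := by
  classical
  rw [Finset.sum_eq_single a]
  · simp [kd]
  · intro b _ hb
    rw [show kd a b = 0 from if_neg fun h => hb h.symm]
    simp
  · intro h
    exact absurd (Finset.mem_univ a) h

private theorem good_green {K : Type} [Field K] (N : Net n) (y : N.E → K) (g φ : N.V → K) :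
    ∑ v, g v * N.lp y φ v =
      ∑ e, y e * (φ (N.s e) - φ (N.t e)) * (g (N.s e) - g (N.t e)) := by
  unfold Net.lp
  simp only [Finset.mul_sum]
  rw [Finset.sum_comm]
  refine Finset.sum_congr rfl fun e _ => ?_
  have h1 : ∀ v, g v * (y e * (φ (N.s e) - φ (N.t e)) * ((ic N.s N.t e v : ℤ) : K)) =
      y e * (φ (N.s e) - φ (N.t e)) * (g v * ((kd (N.s e) v : ℤ) : K)) -
      y e * (φ (N.s e) - φ (N.t e)) * (g v * ((kd (N.t e) v : ℤ) : K)) := by
    intro v
    unfold ic
    push_cast
    ring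
  rw [Finset.sum_congr rfl fun v _ => h1 v, Finset.sum_sub_distrib, ← Finset.mul_sum,
    ← Finset.mul_sum, good_kd, good_kd]
  ring

private theorem good_symm {K : Type} [Field K] (N : Net n) (y : N.E → K) (g φ : N.V → K) :
    ∑ v, g v * N.lp y φ v = ∑ v, φ v * N.lp y g v := by
  rw [good_green, good_green]
  exact Finset.sum_congr rfl fun e _ => by ring

private theorem good_bd {K : Type} [Field K] (N : Net n) (g : N.V → K) (i : Fin n → K) :
    ∑ v, g v * ∑ j, ((kd (N.tm j) v : ℤ) : K) * i j = ∑ j, g (N.tm j) * i j := by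
  simp only [Finset.mul_sum]
  rw [Finset.sum_comm]
  refine Finset.sum_congr rfl fun j _ => ?_
  rw [← good_kd g (N.tm j), Finset.sum_mul]
  exact Finset.sum_congr rfl fun v _ => by ring

/-- MODULE GOOD: the states of a network are good.

`cst`: constant potentials.  `lag` (→): Green's identity, `∑ v, (φ v * lp ψ v - ψ v * lp φ v) = 0`, and
`∑ v, φ v * lp ψ v = ∑ j, φ (tm j) * i j`.  (←) Fredholm alternative for the linear map
`T φ = (φ ∘ tm, lp y φ)`, `(V → K) → (Fin n → K) × (V → K)`, and the vector `b = (z.1, v ↦ ∑ j, kd (tm j) v * z.2 j)`: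
`b` is in the range iff every linear functional which vanishes on the range vanishes at `b`
(`Submodule.exists_le_ker_of_notMem` or dual annihilators).  Such a functional is `(a, β)`, `∑ a j * u j +
∑ v, β v * w v`; it vanishes on the range iff `lp β v = - ∑ j, kd (tm j) v * a j` (`lp` is symmetric), i.e. iff
`x = (β ∘ tm, -a)` is in the state, and its value at `b` is `∑ (a j * z.1 j + β (tm j) * z.2 j) =
- ∑ (z.1 j * x.2 j - x.1 j * z.2 j)`. -/
theorem Rel_good {K : Type} [Field K] (N : Net n) (y : N.E → K) : Good (N.Rel y) := by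
  classical
  constructor
  · intro c
    refine ⟨fun _ => c, rfl, fun v => ?_⟩
    simp [Net.lp]
  · intro z
    constructor
    · rintro ⟨φ, h1, h2⟩ x ⟨ψ, h3, h4⟩
      have e1 : ∑ v, φ v * N.lp y ψ v = ∑ j, z.1 j * x.2 j := by
        rw [Finset.sum_congr rfl fun v _ => by rw [h4 v], good_bd, h1]
        rfl
      have e2 : ∑ v, ψ v * N.lp y φ v = ∑ j, x.1 j * z.2 j := by
        rw [Finset.sum_congr rfl fun v _ => by rw [h2 v], good_bd, h3]
        rfl
      rw [Finset.sum_sub_distrib, ← e1, ← e2, good_symm, sub_self]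
    · intro hz
      let T : (N.V → K) →ₗ[K] (Fin n → K) × (N.V → K) :=
        { toFun := fun φ => (φ ∘ N.tm, N.lp y φ)
          map_add' := fun φ ψ => by
            refine Prod.ext rfl ?_
            funext v
            show N.lp y (φ + ψ) v = N.lp y φ v + N.lp y ψ v
            simp only [Net.lp, Pi.add_apply, ← Finset.sum_add_distrib]
            exact Finset.sum_congr rfl fun e _ => by ring
          map_smul' := fun c φ => by
            refine Prod.ext rfl ?_
            funext v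
            show N.lp y (c • φ) v = c * N.lp y φ v
            simp only [Net.lp, Pi.smul_apply, smul_eq_mul, Finset.mul_sum]
            exact Finset.sum_congr rfl fun e _ => by ring }
      let b : (Fin n → K) × (N.V → K) := (z.1, fun v => ∑ j, ((kd (N.tm j) v : ℤ) : K) * z.2 j)
      by_contra hn
      have hb : b ∉ LinearMap.range T := by
        rintro ⟨φ, hφ⟩
        exact hn ⟨φ, (congrArg Prod.fst hφ).symm, fun v => congrFun (congrArg Prod.snd hφ) v⟩
      obtain ⟨f, hf2, hf1⟩ := Submodule.exists_le_ker_of_notMem hb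
      let a : Fin n → K := fun j => f (Pi.single j 1, 0)
      let β : N.V → K := fun v => f (0, Pi.single v 1)
      have hf : ∀ u w, f (u, w) = ∑ j, u j * a j + ∑ v, w v * β v := by
        intro u w
        have h1 : (u, w) = LinearMap.inl K (Fin n → K) (N.V → K) u +
            LinearMap.inr K (Fin n → K) (N.V → K) w := by
          simp
        have h2 : ∀ g : (Fin n → K) →ₗ[K] K, g u = ∑ j, u j * g (Pi.single j 1) := by
          intro g
          conv_lhs => rw [← LinearMap.sum_single_apply (fun _ => K) u]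
          rw [map_sum]
          refine Finset.sum_congr rfl fun j _ => ?_
          have h3 : (Pi.single j (u j) : Fin n → K) = u j • Pi.single j 1 := by
            rw [← Pi.single_smul, smul_eq_mul, mul_one]
          rw [h3, map_smul, smul_eq_mul]
        have h2' : ∀ g : (N.V → K) →ₗ[K] K, g w = ∑ j, w j * g (Pi.single j 1) := by
          intro g
          conv_lhs => rw [← LinearMap.sum_single_apply (fun _ => K) w]
          rw [map_sum]
          refine Finset.sum_congr rfl fun j _ => ?_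
          have h3 : (Pi.single j (w j) : N.V → K) = w j • Pi.single j 1 := by
            rw [← Pi.single_smul, smul_eq_mul, mul_one]
          rw [h3, map_smul, smul_eq_mul]
        rw [h1, map_add]
        exact congrArg₂ (· + ·) (h2 (f.comp (LinearMap.inl K (Fin n → K) (N.V → K))))
          (h2' (f.comp (LinearMap.inr K (Fin n → K) (N.V → K))))
      have hβ : ∀ v, N.lp y β v = ∑ j, ((kd (N.tm j) v : ℤ) : K) * (-a j) := by
        intro v
        have h1 : f (T (Pi.single v 1)) = 0 := LinearMap.mem_ker.1 (hf1 ⟨_, rfl⟩)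
        have h2 := hf (Pi.single v 1 ∘ N.tm) (N.lp y (Pi.single v 1))
        have h3 : f (T (Pi.single v 1)) = f (Pi.single v 1 ∘ N.tm, N.lp y (Pi.single v 1)) := rfl
        rw [← h3, h1] at h2
        have h4 : ∑ u, N.lp y (Pi.single v 1) u * β u = N.lp y β v := by
          rw [Finset.sum_congr rfl fun u _ => mul_comm _ _, good_symm, Finset.sum_eq_single v]
          · rw [Pi.single_eq_same, one_mul]
          · intro b _ hb
            rw [Pi.single_eq_of_ne hb, zero_mul]
          · intro h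
            exact absurd (Finset.mem_univ v) h
        rw [h4] at h2
        have h5 : ∑ j, (Pi.single v 1 ∘ N.tm : Fin n → K) j * a j =
            ∑ j, ((kd (N.tm j) v : ℤ) : K) * a j := by
          refine Finset.sum_congr rfl fun j _ => ?_
          congr 1
          show (Pi.single v 1 : N.V → K) (N.tm j) = _
          by_cases h : N.tm j = v
          · rw [h, Pi.single_eq_same, show kd v v = 1 from if_pos rfl]
            simp
          · rw [Pi.single_eq_of_ne h, show kd (N.tm j) v = 0 from if_neg h]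
            simp
        rw [h5] at h2
        simp only [mul_neg, Finset.sum_neg_distrib]
        linear_combination -h2
      have h1 := hz (β ∘ N.tm, -a) ⟨β, rfl, hβ⟩
      apply hf2
      rw [show b = (z.1, fun v => ∑ j, ((kd (N.tm j) v : ℤ) : K) * z.2 j) from rfl, hf]
      have h2 : ∑ v, (∑ j, ((kd (N.tm j) v : ℤ) : K) * z.2 j) * β v = ∑ j, β (N.tm j) * z.2 j := by
        rw [← good_bd]
        exact Finset.sum_congr rfl fun v _ => mul_comm _ _
      have h3 : ∑ j, (z.1 j * -a j - β (N.tm j) * z.2 j) = 0 := h1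
      rw [Finset.sum_sub_distrib] at h3
      simp only [mul_neg, Finset.sum_neg_distrib] at h3
      rw [h2]
      linear_combination -h3

/-- Good families are supported on the good states. -/
theorem GG_supp {ν : Fam n} (h : GG n ν) (F : FF) (f g : St n F.K → ℤ)
    (hfg : ∀ L, Good L → f L = g L) : ν F f = ν F g := by
  induction h with
  | base h =>
    obtain ⟨N, -, -, rfl⟩ := h
    unfold Net.fn
    refine Finset.sum_congr rfl fun y _ => ?_
    rw [hfg _ (Rel_good N y)]
  | zero => rfl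
  | add _ _ h1 h2 => beta_reduce; rw [h1, h2]
  | mulp c _ h1 => beta_reduce; rw [h1]
  | div _ h1 => exact mul_left_cancel₀ F.q_ne h1

/-- MODULE SCL1: `scl c (N.Rel y) = N.Rel (c • y)`, `N.Reg (c • y) ↔ N.Reg y`. -/
theorem fn_scl (N : Net n) (F : FF) (c : F.K) (hc : c ≠ 0) (f : St n F.K → ℤ) :
    N.fn F (fun L => f (scl c L)) = N.fn F f := by
  classical
  have hl : ∀ (y : N.E → F.K) (φ : N.V → F.K) (v : N.V), N.lp (c • y) φ v = c * N.lp y φ v := by
    intro y φ v
    simp only [Net.lp, Pi.smul_apply, smul_eq_mul, Finset.mul_sum]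
    exact Finset.sum_congr rfl fun e _ => by ring
  have hl' : ∀ (y : N.E → F.K) (φ : N.V → F.K) (v : N.V), N.lp y (c • φ) v = c * N.lp y φ v := by
    intro y φ v
    simp only [Net.lp, Pi.smul_apply, smul_eq_mul, Finset.mul_sum]
    exact Finset.sum_congr rfl fun e _ => by ring
  have hrel : ∀ y : N.E → F.K, scl c (N.Rel y) = N.Rel (c • y) := by
    intro y
    ext x
    constructor
    · rintro ⟨φ, h1, h2⟩
      have h1 : c • x.1 = φ ∘ N.tm := h1
      refine ⟨c⁻¹ • φ, ?_, fun v => ?_⟩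
      · funext j
        have h3 : c * x.1 j = φ (N.tm j) := congrFun h1 j
        show x.1 j = c⁻¹ * φ (N.tm j)
        rw [← h3, inv_mul_cancel_left₀ hc]
      · rw [hl, ← hl', smul_inv_smul₀ hc]
        exact h2 v
    · rintro ⟨φ, h1, h2⟩
      refine ⟨c • φ, ?_, fun v => ?_⟩
      · show c • x.1 = (c • φ) ∘ N.tm
        rw [h1]
        rfl
      · rw [hl', ← hl]
        exact h2 v
  have hreg : ∀ y : N.E → F.K, N.Reg (c • y) ↔ N.Reg y := by
    intro y
    constructor
    · intro h φ h1 h2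
      exact h φ h1 fun v => by rw [hl, h2, mul_zero]
    · intro h φ h1 h2
      exact h φ h1 fun v => by
        have h3 := h2 v
        rw [hl] at h3
        exact (mul_eq_zero.1 h3).resolve_left hc
  unfold Net.fn
  rw [← Equiv.sum_comp (MulAction.toPerm (Units.mk0 c hc) : Equiv.Perm (N.E → F.K))
    (fun y => if N.Reg y then f (N.Rel y) else 0)]
  refine Finset.sum_congr rfl fun y _ => ?_
  have h1 : (MulAction.toPerm (Units.mk0 c hc) : Equiv.Perm (N.E → F.K)) y = c • y := rfl
  rw [h1]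
  by_cases h : N.Reg y
  · rw [if_pos h, if_pos ((hreg y).2 h), ← hrel]
  · rw [if_neg h, if_neg fun h' => h ((hreg y).1 h')]

/-- Good families are homogeneous. -/
theorem GG_scl {ν : Fam n} (h : GG n ν) (F : FF) (c : F.K) (hc : c ≠ 0) (f : St n F.K → ℤ) :
    ν F (fun L => f (scl c L)) = ν F f := by
  induction h with
  | base h => obtain ⟨N, -, -, rfl⟩ := h; exact fn_scl N F c hc f
  | zero => rfl
  | add _ _ h1 h2 => beta_reduce; rw [h1, h2]
  | mulp c _ h1 => beta_reduce; rw [h1]
  | div _ h1 => exact mul_left_cancel₀ F.q_ne h1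

/-! ### Operations -/

theorem GG_of_OK2' {n : ℕ} (hn : 0 < n) (N : Net n) (h : N.OK 2) : GG n N.fn := by
  obtain _ | n := n
  · exact absurd hn (lt_irrefl 0)
  · exact GG_of_OK2 N h

theorem GG_iso (n : ℕ) : GG (n + 1) (isoF (n + 1)) := by
  refine SpM.base ⟨Net.iso n, ?_, (OK_iso n).2, (fn_iso n).symm⟩
  exact ⟨(OK_iso n).1.noloop, (OK_iso n).1.deg3, fun j => ((OK_iso n).1.degt j).trans (Nat.zero_le 1)⟩

theorem GG_sh {ν : Fam (n + 2)} (h : GG (n + 2) ν) : GG (n + 2) ν.sh := by
  refine SpM_map Fam.sh rfl (fun _ _ => rfl) (fun _ _ => rfl) ?_ h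
  rintro ν ⟨N, h1, h2, rfl⟩
  rw [← fn_edge]
  exact GG_of_OK2 _ (OK_edge h1)

theorem GG_rf {ν : Fam (n + 1)} (h : GG (n + 1) ν) : GG (n + 1) ν.rf := by
  refine SpM_map Fam.rf rfl (fun _ _ => rfl) (fun _ _ => rfl) ?_ h
  rintro ν ⟨N, h1, h2, rfl⟩
  exact SpM.base ⟨N.rf, OK_rf h1, Fresh_rf h2, (fn_rf N).symm⟩

theorem GG_rb {ν : Fam (n + 1)} (h : GG (n + 1) ν) : GG (n + 1) ν.rb := by
  refine SpM_map Fam.rb rfl (fun _ _ => rfl) (fun _ _ => rfl) ?_ h
  rintro ν ⟨N, h1, h2, rfl⟩
  exact SpM.base ⟨N.rb, OK_rb h1, Fresh_rb h2, (fn_rb N).symm⟩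

theorem GG_cl {ν : Fam (n + 2)} (h : GG (n + 2) ν) : GG (n + 1) ν.cl := by
  classical
  refine SpM_map Fam.cl rfl (fun _ _ => rfl) (fun _ _ => rfl) ?_ h
  rintro ν ⟨N, h1, h2, rfl⟩
  by_cases hg : N.gp (Fin.last (n + 1)) = N.gp 0
  · rw [fn_cl_null N hg]
    exact SpM.zero
  · exact SpM.base ⟨N.close hg, OK_close hg h1, Fresh_close hg h2, (fn_close N hg).symm⟩

theorem GG_mg {ν : Fam (n + 2)} (h : GG (n + 2) ν) : GG (n + 1) ν.mg := by
  classical
  refine SpM_map Fam.mg rfl (fun _ _ => rfl) (fun _ _ => rfl) ?_ h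
  rintro ν ⟨N, h1, h2, rfl⟩
  rw [← fn_merge]
  exact GG_of_OK2 _ (OK_merge h1 h2)

theorem GG_wd {ν : Fam (n + 1)} {μ : Fam (m + 1)} (h : GG (n + 1) ν) (h' : GG (m + 1) μ) :
    GG (n + 1 + m) (ν.wd μ) := by
  have key : ∀ M : Net (m + 1), M.OK 1 → GG (n + 1 + m) (ν.wd M.fn) := by
    intro M hM
    refine SpM_map (fun ν : Fam (n + 1) => ν.wd M.fn) rfl (fun _ _ => rfl) (fun _ _ => rfl) ?_ h
    rintro ν ⟨N, h1, h2, rfl⟩
    show GG (n + 1 + m) (N.fn.wd M.fn)
    rw [← fn_wedge]
    exact GG_of_OK2' (by omega) _ (OK_wedge h1 hM)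
  refine SpM_map (fun μ : Fam (m + 1) => ν.wd μ) ?_ ?_ ?_ ?_ h'
  · funext F f
    show ν F (fun _ => 0) = 0
    have h1 := GG_mul' h F 0 fun _ => 0
    simpa using h1
  · intro μ μ'
    funext F f
    exact GG_add' h F _ _
  · intro c μ
    funext F f
    exact GG_mul' h F (c F) _
  · rintro μ ⟨M, h1, h2, rfl⟩
    exact key M h1

theorem GG_rl {ν : Fam 3} (h : GG 3 ν) : GG 3 ν.rl := by
  refine SpM_map Fam.rl rfl (fun _ _ => rfl) (fun _ _ => rfl) ?_ h
  rintro ν ⟨N, h1, h2, rfl⟩
  exact SpM.base ⟨N.refl, OK_refl h1, Fresh_refl h2, (fn_refl N).symm⟩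

theorem GG_spike {ν : Fam (n + 1)} (h : GG (n + 1) ν) : GG (n + 1) ν.spike :=
  GG_cl (GG_sh (GG_wd (m := 1) h (GG_iso 1)))

theorem GG_cut {ν : Fam (n + 1)} (h : GG (n + 1) ν) : GG (n + 1) ν.cut :=
  GG_cl (GG_wd (m := 1) h (GG_iso 1))

open Classical in
theorem GG_sp {ν : Fam (n + 1)} (h : GG (n + 1) ν) : GG (n + 1) ν.sp := by
  refine GG_congr (GG_add h (GG_sub (GG_rb (GG_spike h)) (GG_rb (GG_cut h)))) fun F f => ?_
  have h1 : ν.spike.rb F f = ν F fun L => (if clR L then f (rb (cut L)) else 0) +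
      ∑ r : F.K, if r = 0 then 0 else f (rb (rf (spk r L))) := spike_eq ν F fun L => f (rb L)
  have h2 : ν.cut.rb F f = ν F fun L => if clR L then f (rb (cut L)) else 0 :=
    cut_eq ν F fun L => f (rb L)
  rw [h1, h2, GG_add' h F, add_sub_cancel_left, ← GG_add' h F]
  unfold Fam.sp
  congr 1
  funext L
  rw [← Finset.add_sum_erase _ _ (Finset.mem_univ (0 : F.K)), spk_zero,
    ← Finset.add_sum_erase Finset.univ (fun r : F.K => f (spk r L)) (Finset.mem_univ (0 : F.K)), spk_zero,
    if_pos rfl, zero_add]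
  congr 1
  refine Finset.sum_congr rfl fun r hr => ?_
  rw [if_neg (Finset.ne_of_mem_erase hr), rb_rf]

/-- MODULE SPKL. -/
theorem spkl_eq {K : Type} [Field K] (r : K) (L : St (n + 1) K) : spkl r L = rf (spk r (rb L)) := by
  ext x
  have h1 : (Fin.snoc (Fin.tail ((Fin.cons (x.1 (Fin.last n)) (Fin.init x.1) : Fin (n + 1) → K) -
      Pi.single 0 (r * (Fin.cons (x.2 (Fin.last n)) (Fin.init x.2) : Fin (n + 1) → K) 0)))
      (((Fin.cons (x.1 (Fin.last n)) (Fin.init x.1) : Fin (n + 1) → K) -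
      Pi.single 0 (r * (Fin.cons (x.2 (Fin.last n)) (Fin.init x.2) : Fin (n + 1) → K) 0) :
        Fin (n + 1) → K) 0) : Fin (n + 1) → K) =
      x.1 - Pi.single (Fin.last n) (r * x.2 (Fin.last n)) := by
    funext j
    refine Fin.lastCases ?_ (fun j => ?_) j
    · simp
    · simp [Fin.tail, Fin.init, (Fin.castSucc_lt_last j).ne]
  have h2 : (Fin.snoc (Fin.tail (Fin.cons (x.2 (Fin.last n)) (Fin.init x.2) : Fin (n + 1) → K))
      ((Fin.cons (x.2 (Fin.last n)) (Fin.init x.2) : Fin (n + 1) → K) 0) : Fin (n + 1) → K) =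
      x.2 := by
    funext j
    refine Fin.lastCases ?_ (fun j => ?_) j
    · simp
    · simp [Fin.tail, Fin.init]
  show (x.1 - Pi.single (Fin.last n) (r * x.2 (Fin.last n)), x.2) ∈ L ↔
    ((Fin.snoc (Fin.tail ((Fin.cons (x.1 (Fin.last n)) (Fin.init x.1) : Fin (n + 1) → K) -
      Pi.single 0 (r * (Fin.cons (x.2 (Fin.last n)) (Fin.init x.2) : Fin (n + 1) → K) 0)))
      (((Fin.cons (x.1 (Fin.last n)) (Fin.init x.1) : Fin (n + 1) → K) -
      Pi.single 0 (r * (Fin.cons (x.2 (Fin.last n)) (Fin.init x.2) : Fin (n + 1) → K) 0) :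
        Fin (n + 1) → K) 0) : Fin (n + 1) → K),
    (Fin.snoc (Fin.tail (Fin.cons (x.2 (Fin.last n)) (Fin.init x.2) : Fin (n + 1) → K))
      ((Fin.cons (x.2 (Fin.last n)) (Fin.init x.2) : Fin (n + 1) → K) 0) : Fin (n + 1) → K)) ∈ L
  rw [h1, h2]

theorem GG_spl {ν : Fam (n + 1)} (h : GG (n + 1) ν) : GG (n + 1) ν.spl := by
  refine GG_congr (GG_rf (GG_sp (GG_rb h))) fun F f => ?_
  unfold Fam.rf Fam.sp Fam.rb Fam.spl
  simp only [spkl_eq]

/-- MODULE RESW: `wd_iso_res`, `wd_iso_iso`, `spkl_res`. -/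
theorem wd_iso_res {K : Type} [Field K] (r : K) : wd (n := 0) (m := 1) (isoS 1 K) (resS r) = resS r := by
  ext x
  constructor
  · rintro ⟨c, h1, h2, h3⟩
    have e1 : x.2 0 - c = 0 := congrFun (show ((fun j => x.2 (Fin.castAdd 1 j)) -
      Pi.single 0 c : Fin 1 → K) = 0 from h1) 0
    have e2 : c + x.2 1 = 0 := h2
    have e3 : x.1 0 - x.1 1 = r * c := h3
    have e4 : x.2 0 = c := sub_eq_zero.1 e1
    exact ⟨by rw [e4, e2], by rw [e3, e4]⟩
  · rintro ⟨h1, h2⟩
    refine ⟨x.2 0, ?_, ?_, ?_⟩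
    · show ((fun j => x.2 (Fin.castAdd 1 j)) - Pi.single 0 (x.2 0) : Fin 1 → K) = 0
      funext j
      rw [Subsingleton.elim j 0]
      show x.2 0 - (Pi.single 0 (x.2 0) : Fin 1 → K) 0 = 0
      rw [Pi.single_eq_same, sub_self]
    · exact h1
    · exact h2

theorem wd_iso_iso {K : Type} [Field K] : wd (n := 0) (m := 1) (isoS 1 K) (isoS 2 K) = isoS 2 K := by
  ext x
  constructor
  · rintro ⟨c, h1, h2⟩
    have e1 : x.2 0 - c = 0 := congrFun (show ((fun j => x.2 (Fin.castAdd 1 j)) -
      Pi.single 0 c : Fin 1 → K) = 0 from h1) 0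
    have h3 : (Fin.cons c (fun j => x.2 (Fin.natAdd 1 j)) : Fin 2 → K) = 0 := h2
    have e2 : c = 0 := congrFun h3 0
    have e3 : x.2 1 = 0 := congrFun h3 1
    show x.2 = 0
    funext j
    fin_cases j
    · show x.2 0 = 0
      rw [sub_eq_zero.1 e1, e2]
    · exact e3
  · intro h
    have h : x.2 = 0 := h
    refine ⟨0, ?_, ?_⟩
    · show ((fun j => x.2 (Fin.castAdd 1 j)) - Pi.single 0 0 : Fin 1 → K) = 0
      funext j
      rw [h]
      simp
    · show (Fin.cons 0 (fun j => x.2 (Fin.natAdd 1 j)) : Fin 2 → K) = 0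
      funext j
      rw [h]
      refine Fin.cases ?_ (fun j => ?_) j <;> simp

theorem spkl_res {K : Type} [Field K] (r r' : K) : spkl r' (resS r) = resS (r + r') := by
  ext x
  have h1 : (x.1 - Pi.single (Fin.last 1) (r' * x.2 (Fin.last 1)) : Fin 2 → K) 0 = x.1 0 := by
    simp
  have h2 : (x.1 - Pi.single (Fin.last 1) (r' * x.2 (Fin.last 1)) : Fin 2 → K) 1 =
      x.1 1 - r' * x.2 1 := by
    show x.1 1 - (Pi.single (1 : Fin 2) (r' * x.2 1) : Fin 2 → K) 1 = _
    rw [Pi.single_eq_same]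
  have h3 : x ∈ spkl r' (resS r) ↔ x.2 0 + x.2 1 = 0 ∧
      (x.1 - Pi.single (Fin.last 1) (r' * x.2 (Fin.last 1)) : Fin 2 → K) 0 -
      (x.1 - Pi.single (Fin.last 1) (r' * x.2 (Fin.last 1)) : Fin 2 → K) 1 = r * x.2 0 := Iff.rfl
  have h4 : x ∈ resS (r + r') ↔ x.2 0 + x.2 1 = 0 ∧ x.1 0 - x.1 1 = (r + r') * x.2 0 := Iff.rfl
  rw [h3, h4, h1, h2]
  constructor
  · rintro ⟨e1, e2⟩
    exact ⟨e1, by linear_combination e2 - r' * e1⟩
  · rintro ⟨e1, e2⟩
    exact ⟨e1, by linear_combination e2 + r' * e1⟩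

/-- MODULE RESF: `(q - 1) * resF = (f ↦ ∑ r ≠ 0, f (resS r)).spl`, and that family is
`(isoF 2).sh - isoF 2`. -/
theorem GG_res : GG 2 resF := by
  classical
  -- conductors
  have h1 : GG 2 fun F f => ∑ r : F.K, if r = 0 then 0 else f (resS r) := by
    refine GG_congr (GG_sub (GG_sh (GG_iso 1)) (GG_iso 1)) fun F f => ?_
    show (∑ y : F.K, f (sh y (isoS 2 F.K))) - f (isoS 2 F.K) = _
    rw [← Finset.add_sum_erase _ _ (Finset.mem_univ (0 : F.K)), sh_zero, add_sub_cancel_left,
      ← Finset.add_sum_erase Finset.univ (fun r : F.K => if r = 0 then 0 else f (resS r))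
        (Finset.mem_univ (0 : F.K)), if_pos rfl, zero_add]
    have h2 : ∀ y : F.K, y ≠ 0 → sh y (isoS 2 F.K) = resS y⁻¹ := by
      intro y hy
      have h3 := sh_wd (n := 0) y hy (isoS 1 F.K)
      rw [wd_iso_iso, wd_iso_res] at h3
      exact h3
    refine Finset.sum_nbij' (fun y => y⁻¹) (fun y => y⁻¹) ?_ ?_ ?_ ?_ ?_
    · intro y hy
      exact Finset.mem_erase.2 ⟨inv_ne_zero (Finset.ne_of_mem_erase hy), Finset.mem_univ _⟩
    · intro y hy
      exact Finset.mem_erase.2 ⟨inv_ne_zero (Finset.ne_of_mem_erase hy), Finset.mem_univ _⟩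
    · intro y _
      exact inv_inv y
    · intro y _
      exact inv_inv y
    · intro y hy
      rw [h2 y (Finset.ne_of_mem_erase hy), if_neg (inv_ne_zero (Finset.ne_of_mem_erase hy))]
  refine GG_divq1 (GG_congr (GG_spl h1) fun F f => ?_)
  show (∑ r : F.K, if r = 0 then 0 else ∑ r' : F.K, f (spkl r' (resS r))) =
    (F.q - 1) * ∑ r : F.K, f (resS r)
  have h3 : ∀ r : F.K, (if r = 0 then (0 : ℤ) else ∑ r' : F.K, f (spkl r' (resS r))) =
      if r = 0 then 0 else ∑ r' : F.K, f (resS r') := by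
    intro r
    by_cases hr : r = 0
    · rw [if_pos hr, if_pos hr]
    · rw [if_neg hr, if_neg hr]
      simp only [spkl_res]
      exact Equiv.sum_comp (Equiv.addLeft r) fun r' => f (resS r')
  rw [Finset.sum_congr rfl fun r _ => h3 r, ← Finset.add_sum_erase _ _ (Finset.mem_univ (0 : F.K)),
    if_pos rfl, zero_add, Finset.sum_congr rfl fun r hr => if_neg (Finset.ne_of_mem_erase hr),
    Finset.sum_const, Finset.card_erase_of_mem (Finset.mem_univ _), Finset.card_univ, nsmul_eq_mul]
  congr 1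
  have h4 : 1 ≤ Fintype.card F.K := Fintype.card_pos
  rw [Nat.cast_sub h4, Nat.cast_one, ← Nat.card_eq_fintype_card]
  rfl

/-! ### Scalars -/

/-- MODULE SC0: the state of a network with one terminal (by `Good.sum` the current is zero). -/
theorem good_one {K : Type} [Field K] (L : St 1 K) (h : Good L) : L = isoS 1 K := by
  ext x
  constructor
  · intro hx
    have h1 := h.sum hx
    rw [Fin.sum_univ_one] at h1
    show x.2 = 0
    funext j
    rw [Subsingleton.elim j 0]
    exact h1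
  · intro hx
    have hx : x.2 = 0 := hx
    have h1 := h.cst (x.1 0)
    have h2 : x = ((fun _ => x.1 0 : Fin 1 → K), (0 : Fin 1 → K)) := by
      refine Prod.ext ?_ hx
      funext j
      rw [Subsingleton.elim j 0]
    rw [h2]
    exact h1

theorem GG_one {ν : Fam 1} (h : GG 1 ν) (F : FF) (f : St 1 F.K → ℤ) :
    ν F f = (ν F fun _ => 1) * f (isoS 1 F.K) := by
  rw [GG_supp h F f (fun _ => f (isoS 1 F.K) * 1) fun L hL => by rw [good_one L hL, mul_one],
    GG_mul' h F, mul_comm]

/-- A closed network gives a scalar. -/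
theorem Scal_of {ν : Fam 1} (h : GG 1 ν) : Scal fun F => ν F fun _ => 1 :=
  GG_congr h fun F f => GG_one h F f

/-- MODULE SC2: `wd L (isoS 1 K) = L`. -/
theorem wd_iso_one {K : Type} [Field K] (L : St (n + 1) K) : wd (m := 0) L (isoS 1 K) = L := by
  ext x
  constructor
  · rintro ⟨c, h1, h2⟩
    have h3 : (Fin.cons c (fun j => x.2 (Fin.natAdd (n + 1) j)) : Fin 1 → K) = 0 := h2
    have e2 : c = 0 := congrFun h3 0
    rw [e2, Pi.single_zero, sub_zero] at h1
    exact h1
  · intro h
    refine ⟨0, ?_, ?_⟩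
    · rw [Pi.single_zero, sub_zero]
      exact h
    · show (Fin.cons 0 (fun j => x.2 (Fin.natAdd (n + 1) j)) : Fin 1 → K) = 0
      funext j
      have h1 : j = (0 : Fin 1) := Subsingleton.elim (α := Fin 1) j 0
      rw [h1]
      rfl

theorem GG_scal {s : FF → ℤ} (hs : Scal s) {ν : Fam (n + 1)} (h : GG (n + 1) ν) :
    GG (n + 1) fun F f => s F * ν F f := by
  refine GG_congr (GG_wd (m := 0) h hs) fun F f => ?_
  show ν F (fun L => s F * f (wd (m := 0) L (isoS 1 F.K))) = s F * ν F f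
  rw [GG_mul' h F]
  congr 2
  funext L
  rw [wd_iso_one]

theorem Scal_congr {s t : FF → ℤ} (h : Scal s) (e : ∀ F, s F = t F) : Scal t := by
  have : s = t := funext e
  exact this ▸ h

theorem Scal_add {s t : FF → ℤ} (h : Scal s) (h' : Scal t) : Scal fun F => s F + t F :=
  GG_congr (GG_add h h') fun F f => by ring

theorem Scal_poly (c : Polynomial ℤ) : Scal fun F => c.eval F.q :=
  GG_mulp c (GG_iso 0)

theorem Scal_mul {s t : FF → ℤ} (h : Scal s) (h' : Scal t) : Scal fun F => s F * t F :=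
  GG_congr (GG_scal h h') fun F f => by ring

theorem Scal_neg {s : FF → ℤ} (h : Scal s) : Scal fun F => -s F :=
  GG_congr (GG_neg h) fun F f => by ring

theorem Scal_sub {s t : FF → ℤ} (h : Scal s) (h' : Scal t) : Scal fun F => s F - t F :=
  GG_congr (GG_sub h h') fun F f => by ring

theorem Scal_divq {s : FF → ℤ} (h : Scal fun F => F.q * s F) : Scal s :=
  GG_divq (GG_congr h fun F f => by ring)

theorem Scal_divq1 {s : FF → ℤ} (h : Scal fun F => (F.q - 1) * s F) : Scal s :=
  GG_divq1 (GG_congr h fun F f => by ring)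

end Pool.Agent.PLN
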