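import Pool.Agent.PLN.Clo

/-!
# Planar networks: three center taps are a crossing
-/

set_option autoImplicit false

open scoped BigOperators

namespace Pool.Agent.PLN

open Pool.Agent.KG

variable {n m : ℕ}

/-! ### Membership in terms of `Fin.cons` and `Fin.snoc` -/

section

variable {K : Type} [Field K]

theorem mem_rf_snoc (L : St (n + 1) K) (v i : Fin n → K) (z j : K) :
    ((Fin.snoc v z : Fin (n + 1) → K), (Fin.snoc i j : Fin (n + 1) → K)) ∈ rf L ↔
      ((Fin.cons z v : Fin (n + 1) → K), (Fin.cons j i : Fin (n + 1) → K)) ∈ L := by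
  show ((Fin.cons ((Fin.snoc v z : Fin (n + 1) → K) (Fin.last n)) (Fin.init (Fin.snoc v z : Fin (n + 1) → K)) :
      Fin (n + 1) → K), (Fin.cons ((Fin.snoc i j : Fin (n + 1) → K) (Fin.last n))
      (Fin.init (Fin.snoc i j : Fin (n + 1) → K)) : Fin (n + 1) → K)) ∈ L ↔ _
  rw [Fin.snoc_last, Fin.snoc_last, Fin.init_snoc, Fin.init_snoc]

theorem mem_rb_cons (L : St (n + 1) K) (v i : Fin n → K) (z j : K) :
    ((Fin.cons z v : Fin (n + 1) → K), (Fin.cons j i : Fin (n + 1) → K)) ∈ rb L ↔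
      ((Fin.snoc v z : Fin (n + 1) → K), (Fin.snoc i j : Fin (n + 1) → K)) ∈ L := Iff.rfl

theorem mem_cl (L : St (n + 1) K) (v i : Fin n → K) :
    (v, i) ∈ cl L ↔ ∃ a : K, ((Fin.cons a v : Fin (n + 1) → K), (Fin.cons 0 i : Fin (n + 1) → K)) ∈ L :=
  Iff.rfl

/-- The vector `b, w, a`. -/
abbrev vec2 (b : K) (w : Fin n → K) (a : K) : Fin (n + 2) → K := Fin.cons b (Fin.snoc w a : Fin (n + 1) → K)

omit [Field K] in
theorem vec2_eq (v : Fin (n + 2) → K) : ∃ b w a, v = vec2 b w a := by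
  refine ⟨v 0, Fin.init (Fin.tail v), v (Fin.last (n + 1)), ?_⟩
  have h1 : v (Fin.last (n + 1)) = Fin.tail v (Fin.last n) := rfl
  rw [vec2, h1, Fin.snoc_init_self, Fin.cons_self_tail]

omit [Field K] in
private theorem CM_zero (b a : K) (w : Fin n → K) : vec2 b w a 0 = b := rfl

omit [Field K] in
private theorem CM_last (b a : K) (w : Fin n → K) : vec2 b w a (Fin.last (n + 1)) = a := by
  rw [← Fin.succ_last, vec2, Fin.cons_succ, Fin.snoc_last]

omit [Field K] in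
private theorem CM_mid (b a : K) (w : Fin n → K) (j : Fin n) :
    vec2 b w a j.castSucc.succ = w j := by
  rw [vec2, Fin.cons_succ, Fin.snoc_castSucc]

/-- MODULE CM1: `mem_sh`, `mem_cr`. -/
theorem mem_sh (y : K) (L : St (n + 2) K) (b a ib ia : K) (w iw : Fin n → K) :
    (vec2 b w a, vec2 ib iw ia) ∈ sh y L ↔
      (vec2 b w a, vec2 (ib + y * (a - b)) iw (ia - y * (a - b))) ∈ L := by
  have h1 : (vec2 b w a, vec2 ib iw ia) ∈ sh y L ↔
      (vec2 b w a, vec2 ib iw ia - (y * (vec2 b w a (Fin.last (n + 1)) - vec2 b w a 0)) •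
        (Pi.single (Fin.last (n + 1)) 1 - Pi.single 0 1 : Fin (n + 2) → K)) ∈ L := Iff.rfl
  have h2 : vec2 ib iw ia - (y * (vec2 b w a (Fin.last (n + 1)) - vec2 b w a 0)) •
      (Pi.single (Fin.last (n + 1)) 1 - Pi.single 0 1 : Fin (n + 2) → K) =
      vec2 (ib + y * (a - b)) iw (ia - y * (a - b)) := by
    rw [CM_last, CM_zero]
    ext j
    rw [Pi.sub_apply, Pi.smul_apply, Pi.sub_apply, smul_eq_mul]
    refine Fin.cases ?_ (fun j => Fin.lastCases ?_ (fun j => ?_) j) j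
    · rw [CM_zero, CM_zero, Pi.single_eq_of_ne Fin.last_pos.ne, Pi.single_eq_same]
      ring
    · rw [Fin.succ_last, CM_last, CM_last, Pi.single_eq_same,
        Pi.single_eq_of_ne (Fin.last_pos.ne' : Fin.last (n + 1) ≠ 0)]
      ring
    · rw [CM_mid, CM_mid, Pi.single_eq_of_ne (Fin.succ_ne_zero _), Pi.single_eq_of_ne]
      · ring
      · rw [← Fin.succ_last]
        exact fun h => (Fin.castSucc_lt_last j).ne (Fin.succ_injective _ h)
  rw [h1, h2]

theorem mem_cr (L : St (n + 2) K) (b a ib ia : K) (w iw : Fin n → K) :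
    (vec2 b w a, vec2 ib iw ia) ∈ cr L ↔ (vec2 a w b, vec2 ia iw ib) ∈ L := by
  have h1 : ∀ (b a : K) (w : Fin n → K),
      vec2 b w a ∘ Equiv.swap (Fin.last (n + 1)) 0 = vec2 a w b := by
    intro b a w
    ext j
    rw [Function.comp_apply]
    refine Fin.cases ?_ (fun j => Fin.lastCases ?_ (fun j => ?_) j) j
    · rw [Equiv.swap_apply_right, CM_last, CM_zero]
    · rw [Fin.succ_last, Equiv.swap_apply_left, CM_zero, CM_last]
    · rw [Equiv.swap_apply_of_ne_of_ne, CM_mid, CM_mid]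
      · rw [← Fin.succ_last]
        exact fun h => (Fin.castSucc_lt_last j).ne (Fin.succ_injective _ h)
      · exact Fin.succ_ne_zero _
  have h2 : (vec2 b w a, vec2 ib iw ia) ∈ cr L ↔
      (vec2 b w a ∘ Equiv.swap (Fin.last (n + 1)) 0,
        vec2 ib iw ia ∘ Equiv.swap (Fin.last (n + 1)) 0) ∈ L := Iff.rfl
  rw [h2, h1, h1]

/-! ### Attaching a network with three terminals between the last terminal and the terminal `0` -/

/-- `M` is attached to `L` with its terminal `0` at the terminal `0` and its terminal `1` at the last terminal;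
its terminal `2` is the new last terminal. -/
def att (L : St (n + 2) K) (M : St 3 K) : St (n + 3) K := rf (rf (mg (rb (rb (wd (m := 2) L M)))))

/-- The attachment is regular. -/
def attR (L : St (n + 2) K) (M : St 3 K) : Prop := mgR (rb (rb (wd (m := 2) L M)))

omit [Field K] in
private theorem CM_cs {k : ℕ} (a b : K) (w : Fin k → K) :
    (Fin.cons a (Fin.snoc w b : Fin (k + 1) → K) : Fin (k + 2) → K) =
      Fin.snoc (Fin.cons a w : Fin (k + 1) → K) b := Fin.cons_snoc_eq_snoc_cons a w b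

/-- Membership in `rb (rb (wd L M))`; the potentials are `τ_1, τ_2, t_0, …, t_{n+1}`. -/
private theorem CM_rb (L : St (n + 2) K) (M : St 3 K) (p x b a j ix ib k : K) (w iw : Fin n → K) :
    ((Fin.snoc (Fin.cons p (Fin.cons x (Fin.cons b w : Fin (n + 1) → K) : Fin (n + 2) → K) :
        Fin (n + 3) → K) a : Fin (n + 4) → K),
      (Fin.snoc (Fin.cons j (Fin.cons ix (Fin.cons ib iw : Fin (n + 1) → K) : Fin (n + 2) → K) :
        Fin (n + 3) → K) k : Fin (n + 4) → K)) ∈ rb (rb (wd (m := 2) L M)) ↔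
      ∃ c : K, (vec2 b w a, vec2 (ib - c) iw k) ∈ L ∧ (![b, p, x], ![c, j, ix]) ∈ M := by
  have e1 : ∀ (p x b a : K) (w : Fin n → K),
      (Fin.snoc (Fin.cons p (Fin.cons x (Fin.cons b w : Fin (n + 1) → K) : Fin (n + 2) → K) :
        Fin (n + 3) → K) a : Fin (n + 4) → K) = Fin.cons p (Fin.cons x (vec2 b w a) :
          Fin (n + 3) → K) := by
    intro p x b a w
    rw [← CM_cs, ← CM_cs, ← CM_cs]
  have e2 : ∀ (x p : K) (v : Fin (n + 2) → K),
      (Fin.snoc (Fin.cons x v : Fin (n + 3) → K) p : Fin (n + 4) → K) =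
        Fin.cons x (Fin.snoc v p : Fin (n + 3) → K) := fun x p v => (CM_cs x p v).symm
  rw [e1, e1, mem_rb_cons, e2, e2, mem_rb_cons]
  have h1 : ∀ (b w a p x) (j : Fin (n + 2)), (Fin.snoc (Fin.snoc (vec2 (n := n) b w a) p :
      Fin (n + 3) → K) x : Fin (n + 4) → K) (Fin.castAdd 2 j) = vec2 b w a j := by
    intro b w a p x j
    have h2 : (Fin.castAdd 2 j : Fin (n + 4)) = j.castSucc.castSucc := rfl
    rw [h2, Fin.snoc_castSucc, Fin.snoc_castSucc]
  have h3 : ∀ (b : K) (v : Fin (n + 2) → K) (p x : K), (Fin.cons b (fun j : Fin 2 =>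
      (Fin.snoc (Fin.snoc v p : Fin (n + 3) → K) x : Fin (n + 4) → K)
        (Fin.natAdd (n + 2) j)) : Fin 3 → K) = ![b, p, x] := by
    intro b v p x
    ext j
    fin_cases j
    · rfl
    · have h2 : (Fin.natAdd (n + 2) (0 : Fin 2) : Fin (n + 4)) = (Fin.last (n + 2)).castSucc := rfl
      change (Fin.snoc (Fin.snoc v p : Fin (n + 3) → K) x : Fin (n + 4) → K)
        (Fin.natAdd (n + 2) (0 : Fin 2)) = p
      rw [h2, Fin.snoc_castSucc, Fin.snoc_last]
    · have h2 : (Fin.natAdd (n + 2) (1 : Fin 2) : Fin (n + 4)) = Fin.last (n + 3) := rfl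
      change (Fin.snoc (Fin.snoc v p : Fin (n + 3) → K) x : Fin (n + 4) → K)
        (Fin.natAdd (n + 2) (1 : Fin 2)) = x
      rw [h2, Fin.snoc_last]
  have h4 : ∀ c : K, vec2 ib iw k - Pi.single 0 c = vec2 (ib - c) iw k := by
    intro c
    ext i
    refine Fin.cases ?_ (fun i => ?_) i
    · rw [Pi.sub_apply, Pi.single_eq_same, CM_zero, CM_zero]
    · rw [Pi.sub_apply, Pi.single_eq_of_ne (Fin.succ_ne_zero i), vec2, vec2, Fin.cons_succ,
        Fin.cons_succ, sub_zero]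
  have h5 : ((Fin.snoc (Fin.snoc (vec2 b w a) p : Fin (n + 3) → K) x : Fin (n + 4) → K),
      (Fin.snoc (Fin.snoc (vec2 ib iw k) j : Fin (n + 3) → K) ix : Fin (n + 4) → K)) ∈
        wd (m := 2) L M ↔ ∃ c : K,
      ((fun l : Fin (n + 2) => (Fin.snoc (Fin.snoc (vec2 b w a) p : Fin (n + 3) → K) x :
        Fin (n + 4) → K) (Fin.castAdd 2 l)),
      (fun l : Fin (n + 2) => (Fin.snoc (Fin.snoc (vec2 ib iw k) j : Fin (n + 3) → K) ix :
        Fin (n + 4) → K) (Fin.castAdd 2 l)) - Pi.single 0 c) ∈ L ∧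
      ((Fin.cons ((Fin.snoc (Fin.snoc (vec2 b w a) p : Fin (n + 3) → K) x :
        Fin (n + 4) → K) (Fin.castAdd 2 0)) (fun l : Fin 2 =>
      (Fin.snoc (Fin.snoc (vec2 b w a) p : Fin (n + 3) → K) x : Fin (n + 4) → K)
        (Fin.natAdd (n + 2) l)) : Fin 3 → K),
      (Fin.cons c (fun l : Fin 2 =>
      (Fin.snoc (Fin.snoc (vec2 ib iw k) j : Fin (n + 3) → K) ix : Fin (n + 4) → K)
        (Fin.natAdd (n + 2) l)) : Fin 3 → K)) ∈ M := Iff.rfl
  refine h5.trans (exists_congr fun c => ?_)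
  rw [h3, h3, funext (h1 b w a p x), funext (h1 ib iw k j ix), h4, h1, CM_zero]

/-- MODULE CM2.  The terminals of `wd L M` are `t_0, …, t_{n+1}, τ_1, τ_2`, those of `rb (rb _)` are
`τ_1, τ_2, t_0, …, t_{n+1}`. -/
theorem mem_att (L : St (n + 2) K) (M : St 3 K) (b a x ib ia ix : K) (w iw : Fin n → K) :
    ((Fin.snoc (vec2 b w a) x : Fin (n + 3) → K), (Fin.snoc (vec2 ib iw ia) ix : Fin (n + 3) → K)) ∈ att L M ↔
      ∃ c d : K, (vec2 b w a, vec2 (ib - c) iw (ia - d)) ∈ L ∧ (![b, a, x], ![c, d, ix]) ∈ M := by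
  have e1 : ∀ (x b a : K) (w : Fin n → K), (Fin.cons x (vec2 b w a) : Fin (n + 3) → K) =
      Fin.snoc (Fin.cons x (Fin.cons b w : Fin (n + 1) → K) : Fin (n + 2) → K) a := by
    intro x b a w
    rw [vec2, CM_cs, CM_cs]
  rw [att, mem_rf_snoc, e1, e1, mem_rf_snoc]
  have e2 : ∀ (R : Fin (n + 2) → K) (c : K), (Fin.cons ia R : Fin (n + 3) → K) - Pi.single 0 c =
      Fin.cons (ia - c) R := by
    intro R c
    ext j
    refine Fin.cases ?_ (fun j => ?_) j
    · rw [Pi.sub_apply, Pi.single_eq_same, Fin.cons_zero, Fin.cons_zero]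
    · rw [Pi.sub_apply, Pi.single_eq_of_ne (Fin.succ_ne_zero j), Fin.cons_succ, Fin.cons_succ,
        sub_zero]
  have e3 : ((Fin.cons a (Fin.cons x (Fin.cons b w : Fin (n + 1) → K) : Fin (n + 2) → K) :
      Fin (n + 3) → K), (Fin.cons ia (Fin.cons ix (Fin.cons ib iw : Fin (n + 1) → K) :
        Fin (n + 2) → K) : Fin (n + 3) → K)) ∈ mg (rb (rb (wd (m := 2) L M))) ↔ ∃ c : K,
      ((Fin.snoc (Fin.cons a (Fin.cons x (Fin.cons b w : Fin (n + 1) → K) : Fin (n + 2) → K) :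
        Fin (n + 3) → K) a : Fin (n + 4) → K),
      (Fin.snoc ((Fin.cons ia (Fin.cons ix (Fin.cons ib iw : Fin (n + 1) → K) :
        Fin (n + 2) → K) : Fin (n + 3) → K) - Pi.single 0 c) c : Fin (n + 4) → K)) ∈
        rb (rb (wd (m := 2) L M)) := Iff.rfl
  rw [e3]
  constructor
  · rintro ⟨c', h⟩
    rw [e2, CM_rb] at h
    obtain ⟨c, h1, h2⟩ := h
    refine ⟨c, ia - c', ?_, h2⟩
    rw [sub_sub_cancel]
    exact h1
  · rintro ⟨c, d, h1, h2⟩
    refine ⟨ia - d, ?_⟩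
    rw [e2, CM_rb]
    refine ⟨c, h1, ?_⟩
    rw [sub_sub_cancel]
    exact h2

/-- MODULE CM3. -/
theorem attR_of (L : St (n + 2) K) (M : St 3 K)
    (h : ∀ c d : K, ((0 : Fin 3 → K), (![c, d, 0] : Fin 3 → K)) ∈ M → c = 0 ∧ d = 0) : attR L M := by
  intro c hc
  have h1 : (0 : Fin (n + 4) → K) =
      Fin.snoc (Fin.cons 0 (Fin.cons 0 (Fin.cons 0 (0 : Fin n → K) : Fin (n + 1) → K) :
        Fin (n + 2) → K) : Fin (n + 3) → K) 0 := by
    ext l
    refine Fin.lastCases ?_ (fun l => ?_) l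
    · rw [Fin.snoc_last]
      rfl
    · rw [Fin.snoc_castSucc]
      refine Fin.cases rfl (fun l => ?_) l
      refine Fin.cases rfl (fun l => ?_) l
      refine Fin.cases rfl (fun l => ?_) l
      rfl
  have h2 : (-Pi.single 0 c : Fin (n + 3) → K) =
      Fin.cons (-c) (Fin.cons 0 (Fin.cons 0 (0 : Fin n → K) : Fin (n + 1) → K) :
        Fin (n + 2) → K) := by
    ext l
    refine Fin.cases ?_ (fun l => ?_) l
    · rw [Pi.neg_apply, Pi.single_eq_same]
      rfl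
    · rw [Pi.neg_apply, Pi.single_eq_of_ne (Fin.succ_ne_zero l), neg_zero]
      refine Fin.cases rfl (fun l => ?_) l
      refine Fin.cases rfl (fun l => ?_) l
      rfl
  have h3 : ((0 : Fin (n + 4) → K), (Fin.snoc (-Pi.single 0 c : Fin (n + 3) → K) c :
      Fin (n + 4) → K)) ∈ rb (rb (wd (m := 2) L M)) := hc
  rw [h1, h2, CM_rb] at h3
  obtain ⟨c₀, -, h4⟩ := h3
  have h5 : (![0, 0, 0] : Fin 3 → K) = 0 := by
    ext l
    fin_cases l <;> rfl
  rw [h5] at h4
  exact neg_eq_zero.1 (h c₀ (-c) h4).2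

/-- MODULE CM4: `mem_ct`, `mem_rf_ct`, `mem_rb_ct`: the center tap and its rotations. -/
theorem mem_ct (s : K) (a b c ia ib ic : K) :
    ((![a, b, c] : Fin 3 → K), (![ia, ib, ic] : Fin 3 → K)) ∈ ctS s ↔
      a + b = 2 * c ∧ ia + ib + ic = 0 ∧ ia - ib = s * (a - c) := by
  exact Iff.rfl

theorem mem_rf_ct (s : K) (a b c ia ib ic : K) :
    ((![b, c, a] : Fin 3 → K), (![ib, ic, ia] : Fin 3 → K)) ∈ rf (ctS s) ↔
      a + b = 2 * c ∧ ia + ib + ic = 0 ∧ ia - ib = s * (a - c) := by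
  exact Iff.rfl

theorem mem_rb_ct (s : K) (a b c ia ib ic : K) :
    ((![c, a, b] : Fin 3 → K), (![ic, ia, ib] : Fin 3 → K)) ∈ rb (ctS s) ↔
      a + b = 2 * c ∧ ia + ib + ic = 0 ∧ ia - ib = s * (a - c) := by
  exact Iff.rfl

/-- MODULE CM5: `attR_ct`, `attR_rf_ct`, `attR_rb_ct` (`attR_of`, `mem_ct`, `mem_rf_ct`, `mem_rb_ct`). -/
theorem attR_ct (h2 : (2 : K) ≠ 0) (s : K) (L : St (n + 2) K) : attR L (ctS s) := by
  refine attR_of L _ fun c d h => ?_
  have h5 : (![0, 0, 0] : Fin 3 → K) = 0 := by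
    ext l
    fin_cases l <;> rfl
  rw [← h5, mem_ct] at h
  obtain ⟨-, h3, h4⟩ := h
  have h6 : (2 : K) * c = 0 := by linear_combination h3 + h4
  have h7 : c = 0 := (mul_eq_zero.1 h6).resolve_left h2
  exact ⟨h7, by linear_combination h3 - h7⟩

theorem attR_rf_ct (h2 : (2 : K) ≠ 0) (s : K) (L : St (n + 2) K) : attR L (rf (ctS s)) := by
  refine attR_of L _ fun c d h => ?_
  have h5 : (![0, 0, 0] : Fin 3 → K) = 0 := by
    ext l
    fin_cases l <;> rfl
  rw [← h5, mem_rf_ct] at h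
  obtain ⟨-, h3, h4⟩ := h
  have h7 : c = 0 := by linear_combination -h4
  exact ⟨h7, by linear_combination h3 - h7⟩

theorem attR_rb_ct (h2 : (2 : K) ≠ 0) (s : K) (L : St (n + 2) K) : attR L (rb (ctS s)) := by
  refine attR_of L _ fun c d h => ?_
  have h5 : (![0, 0, 0] : Fin 3 → K) = 0 := by
    ext l
    fin_cases l <;> rfl
  rw [← h5, mem_rb_ct] at h
  obtain ⟨-, h3, h4⟩ := h
  have h7 : d = 0 := by linear_combination h4
  exact ⟨by linear_combination h3 - h7, h7⟩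

/-! ### The gadget -/

/-- First step: `b, w, a ↦ b, w, a, c`, and `b, w, a, c, b'`, and `c, b', b, w, a`. -/
def gad1 (r s : K) (L : St (n + 2) K) : St (n + 4) K := rb (rb (att (att L (ctS r)) (rf (ctS s))))

/-- Second step: `c, b', b, w, a, a'`. -/
def gad2 (r s t : K) (L : St (n + 2) K) : St (n + 5) K := att (gad1 r s L) (rb (ctS t))

/-- Third step: close `c`: `b', b, w, a, a'`, and `b, w, a, a', b'`. -/
def gad3 (r s t : K) (L : St (n + 2) K) : St (n + 4) K := rf (cl (gad2 r s t L))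

/-- Close `b`: `w, a, a', b'`, and `a, a', b', w`. -/
def gad4 (r s t : K) (L : St (n + 2) K) : St (n + 3) K := rb (rb (rb (cl (gad3 r s t L))))

/-- Close `a`: `a', b', w`, and `b', w, a'`. -/
def gad5 (r s t : K) (L : St (n + 2) K) : St (n + 2) K := rf (cl (gad4 r s t L))

/-- MODULE CG1: membership in `gad2`: the potentials are `c, b', b, w, a, a'`.

By `mem_att` (three times), `mem_rb_cons`, and `mem_ct`, `mem_rf_ct`, `mem_rb_ct`.  First tap: terminals
`b, a`, center `c`, currents `x, y, z`; second tap: terminals `b', b` and center `c`, currents `ib'`, `x'`, `z'`;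
third tap: terminals `a, a'` and center `c`, currents `y''`, `ia'`, `z''`. -/
theorem mem_gad2 (r s t : K) (L : St (n + 2) K) (c b' b a a' ic ib' ib ia ia' : K) (w iw : Fin n → K) :
    ((Fin.snoc (Fin.cons c (Fin.cons b' (vec2 b w a))) a' : Fin (n + 5) → K),
      (Fin.snoc (Fin.cons ic (Fin.cons ib' (vec2 ib iw ia))) ia' : Fin (n + 5) → K)) ∈ gad2 r s t L ↔
      ∃ x y z x' z' y'' z'' : K, (vec2 b w a, vec2 (ib - x - x') iw (ia - y - y'')) ∈ L ∧
        (b + a = 2 * c ∧ x + y + z = 0 ∧ x - y = r * (b - c)) ∧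
        (b' + b = 2 * c ∧ ib' + x' + z' = 0 ∧ ib' - x' = s * (b' - c)) ∧
        (a + a' = 2 * c ∧ y'' + ia' + z'' = 0 ∧ y'' - ia' = t * (a - c)) ∧ ic = z + z' + z'' := by
  have e1 : ∀ (c b' b a : K) (w : Fin n → K),
      (Fin.cons c (Fin.cons b' (vec2 b w a) : Fin (n + 3) → K) : Fin (n + 4) → K) =
        vec2 c (Fin.cons b' (Fin.cons b w : Fin (n + 1) → K) : Fin (n + 2) → K) a := by
    intro c b' b a w
    rw [vec2, vec2, CM_cs, CM_cs]
  have e2 : ∀ (b a x : K) (w : Fin n → K), (Fin.snoc (vec2 b w a) x : Fin (n + 3) → K) =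
      vec2 b (Fin.snoc w a : Fin (n + 1) → K) x := by
    intro b a x w
    rw [vec2, vec2, ← CM_cs]
  have e3 : ∀ (x y : K) (v : Fin (n + 2) → K),
      (Fin.snoc (Fin.cons x v : Fin (n + 3) → K) y : Fin (n + 4) → K) =
        Fin.cons x (Fin.snoc v y : Fin (n + 3) → K) := fun x y v => (CM_cs x y v).symm
  have h1 : ∀ (b' c b a ib' ic ib ia : K) (w iw : Fin n → K),
      (vec2 c (Fin.cons b' (Fin.cons b w : Fin (n + 1) → K) : Fin (n + 2) → K) a,
        vec2 ic (Fin.cons ib' (Fin.cons ib iw : Fin (n + 1) → K) : Fin (n + 2) → K) ia) ∈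
        gad1 r s L ↔ ∃ c₁ d₁ c₂ d₂ : K, (vec2 b w a, vec2 (ib - c₁ - c₂) iw (ia - d₂)) ∈ L ∧
          (b + a = 2 * c ∧ c₂ + d₂ + (ic - d₁) = 0 ∧ c₂ - d₂ = r * (b - c)) ∧
          (b' + b = 2 * c ∧ ib' + c₁ + d₁ = 0 ∧ ib' - c₁ = s * (b' - c)) := by
    intro b' c b a ib' ic ib ia w iw
    rw [gad1, ← e1, ← e1, mem_rb_cons, e3, e3, mem_rb_cons, e2, e2, mem_att]
    constructor
    · rintro ⟨c₁, d₁, h2, h3⟩
      rw [mem_rf_ct] at h3
      rw [← e2, ← e2, mem_att] at h2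
      obtain ⟨c₂, d₂, h4, h5⟩ := h2
      rw [mem_ct] at h5
      exact ⟨c₁, d₁, c₂, d₂, h4, h5, h3⟩
    · rintro ⟨c₁, d₁, c₂, d₂, h4, h5, h3⟩
      refine ⟨c₁, d₁, ?_, ?_⟩
      · rw [← e2, ← e2, mem_att]
        exact ⟨c₂, d₂, h4, (mem_ct r b a c c₂ d₂ (ic - d₁)).2 h5⟩
      · exact (mem_rf_ct s b' b c ib' c₁ d₁).2 h3
  rw [gad2, e1, e1, mem_att]
  constructor
  · rintro ⟨c₀, d₀, h2, h3⟩
    rw [mem_rb_ct] at h3
    rw [h1] at h2
    obtain ⟨c₁, d₁, c₂, d₂, h4, h5, h6⟩ := h2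
    refine ⟨c₂, d₂, ic - c₀ - d₁, c₁, d₁, d₀, c₀, ?_, h5, h6, h3, by ring⟩
    rw [sub_right_comm ib, sub_right_comm ia]
    exact h4
  · rintro ⟨x, y, z, x', z', y'', z'', h4, h5, h6, h3, h7⟩
    refine ⟨z'', y'', ?_, (mem_rb_ct t a a' c y'' ia' z'').2 h3⟩
    rw [h1]
    refine ⟨x', z', x, y, ?_, ⟨h5.1, ?_, h5.2.2⟩, h6⟩
    · rw [sub_right_comm ib, sub_right_comm ia]
      exact h4
    · linear_combination h5.2.1 + h7

omit [Field K] in
private theorem CM_last' (b a : K) (w : Fin n → K) :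
    vec2 b w a (Fin.last n).succ = a := by
  rw [vec2, Fin.cons_succ, Fin.snoc_last]

omit [Field K] in
private theorem CM_mid' (b a : K) (w : Fin n → K) (j : Fin n) :
    vec2 b w a j.castSucc.succ = w j := by
  rw [vec2, Fin.cons_succ, Fin.snoc_castSucc]

private theorem CG_vec (c : K) : (Fin.snoc (Fin.cons c (Fin.cons 0 (vec2 0 (0 : Fin n → K) 0) :
    Fin (n + 3) → K) : Fin (n + 4) → K) 0 : Fin (n + 5) → K) = Fin.cons c 0 := by
  rw [← CM_cs]
  congr 1
  ext l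
  refine Fin.lastCases ?_ (fun l => ?_) l
  · rw [Fin.snoc_last]
    rfl
  · rw [Fin.snoc_castSucc]
    refine Fin.cases rfl (fun l => ?_) l
    refine Fin.cases rfl (fun l => ?_) l
    refine Fin.lastCases ?_ (fun l => ?_) l
    · rw [Fin.cons_succ, CM_last']
      rfl
    · rw [Fin.cons_succ, CM_mid']
      rfl

private theorem CG_cons0 {k : ℕ} : (Fin.cons (0 : K) (0 : Fin k → K) : Fin (k + 1) → K) = 0 := by
  ext j
  exact Fin.cases rfl (fun _ => rfl) j

/-- MODULE CG2: the closings are regular (potentials: `c` is the mean of `a` and `b`, `a' = b`, `b' = a`). -/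
theorem clR_gad2 (h2 : (2 : K) ≠ 0) (r s t : K) (L : St (n + 2) K) : clR (gad2 r s t L) := by
  intro c hc
  have h1 : ((Fin.snoc (Fin.cons c (Fin.cons 0 (vec2 0 (0 : Fin n → K) 0) : Fin (n + 3) → K) :
      Fin (n + 4) → K) 0 : Fin (n + 5) → K),
    (Fin.snoc (Fin.cons 0 (Fin.cons 0 (vec2 0 (0 : Fin n → K) 0) : Fin (n + 3) → K) :
      Fin (n + 4) → K) 0 : Fin (n + 5) → K)) ∈ gad2 r s t L := by
    rw [CG_vec, CG_vec, CG_cons0]
    exact hc
  rw [mem_gad2] at h1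
  obtain ⟨x, y, z, x', z', y'', z'', -, h3, -⟩ := h1
  have h4 : (2 : K) * c = 0 := by linear_combination -h3.1
  exact (mul_eq_zero.1 h4).resolve_left h2

private theorem CG_gad3 (r s t : K) (L : St (n + 2) K) (b' b a a' ib' ib ia ia' : K)
    (w iw : Fin n → K) :
    ((Fin.snoc (Fin.snoc (vec2 b w a) a' : Fin (n + 3) → K) b' : Fin (n + 4) → K),
      (Fin.snoc (Fin.snoc (vec2 ib iw ia) ia' : Fin (n + 3) → K) ib' : Fin (n + 4) → K)) ∈
        gad3 r s t L ↔ ∃ c : K,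
      ((Fin.snoc (Fin.cons c (Fin.cons b' (vec2 b w a))) a' : Fin (n + 5) → K),
      (Fin.snoc (Fin.cons 0 (Fin.cons ib' (vec2 ib iw ia))) ia' : Fin (n + 5) → K)) ∈
        gad2 r s t L := by
  rw [gad3, mem_rf_snoc, mem_cl]
  refine exists_congr fun c => ?_
  rw [CM_cs, CM_cs, CM_cs, CM_cs]

private theorem CG_sn (b : K) : (Fin.snoc (Fin.snoc (vec2 b (0 : Fin n → K) 0) 0 :
    Fin (n + 3) → K) 0 : Fin (n + 4) → K) = Fin.cons b 0 := by
  ext l
  refine Fin.lastCases ?_ (fun l => ?_) l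
  · rw [Fin.snoc_last, ← Fin.succ_last, Fin.cons_succ]
    rfl
  · rw [Fin.snoc_castSucc]
    refine Fin.lastCases ?_ (fun l => ?_) l
    · rw [Fin.snoc_last, ← Fin.succ_last, ← Fin.succ_castSucc, Fin.cons_succ]
      rfl
    · rw [Fin.snoc_castSucc]
      refine Fin.cases rfl (fun l => ?_) l
      rw [← Fin.succ_castSucc, ← Fin.succ_castSucc, Fin.cons_succ]
      refine Fin.lastCases ?_ (fun l => ?_) l
      · rw [CM_last']
        rfl
      · rw [CM_mid']
        rfl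

theorem clR_gad3 (h2 : (2 : K) ≠ 0) (r s t : K) (L : St (n + 2) K) : clR (gad3 r s t L) := by
  intro b hb
  have h1 : ((Fin.snoc (Fin.snoc (vec2 b (0 : Fin n → K) 0) 0 : Fin (n + 3) → K) 0 :
      Fin (n + 4) → K), (Fin.snoc (Fin.snoc (vec2 0 (0 : Fin n → K) 0) 0 : Fin (n + 3) → K) 0 :
        Fin (n + 4) → K)) ∈ gad3 r s t L := by
    rw [CG_sn, CG_sn, CG_cons0]
    exact hb
  rw [CG_gad3] at h1
  obtain ⟨c, h1⟩ := h1
  rw [mem_gad2] at h1
  obtain ⟨x, y, z, x', z', y'', z'', -, h3, h4, h5, -⟩ := h1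
  have h6 : (2 : K) * c = 0 := by linear_combination -h5.1
  linear_combination h3.1 + h6

private theorem CG_gad4 (r s t : K) (L : St (n + 2) K) (b' a a' ib' ia ia' : K)
    (w iw : Fin n → K) :
    ((Fin.cons a (Fin.cons a' (Fin.cons b' w : Fin (n + 1) → K) : Fin (n + 2) → K) :
      Fin (n + 3) → K),
      (Fin.cons ia (Fin.cons ia' (Fin.cons ib' iw : Fin (n + 1) → K) : Fin (n + 2) → K) :
      Fin (n + 3) → K)) ∈ gad4 r s t L ↔ ∃ b c : K,
      ((Fin.snoc (Fin.cons c (Fin.cons b' (vec2 b w a))) a' : Fin (n + 5) → K),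
      (Fin.snoc (Fin.cons 0 (Fin.cons ib' (vec2 0 iw ia))) ia' : Fin (n + 5) → K)) ∈
        gad2 r s t L := by
  have e1 : ∀ (a a' b' : K) (w : Fin n → K),
      (Fin.snoc (Fin.cons a' (Fin.cons b' w : Fin (n + 1) → K) : Fin (n + 2) → K) a :
        Fin (n + 3) → K) = Fin.cons a' (Fin.cons b' (Fin.snoc w a : Fin (n + 1) → K) :
          Fin (n + 2) → K) := by
    intro a a' b' w
    rw [← CM_cs, ← CM_cs]
  have e2 : ∀ (a' b' : K) (v : Fin (n + 1) → K),
      (Fin.snoc (Fin.cons b' v : Fin (n + 2) → K) a' : Fin (n + 3) → K) =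
        Fin.cons b' (Fin.snoc v a' : Fin (n + 2) → K) := fun a' b' v => (CM_cs b' a' v).symm
  have e3 : ∀ (b a a' b' : K) (w : Fin n → K),
      (Fin.cons b (Fin.snoc (Fin.snoc (Fin.snoc w a : Fin (n + 1) → K) a' : Fin (n + 2) → K) b' :
        Fin (n + 3) → K) : Fin (n + 4) → K) =
      Fin.snoc (Fin.snoc (vec2 b w a) a' : Fin (n + 3) → K) b' := by
    intro b a a' b' w
    rw [vec2, CM_cs, CM_cs]
  rw [gad4, mem_rb_cons, e1, e1, mem_rb_cons, e2, e2, mem_rb_cons, mem_cl]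
  refine exists_congr fun b => ?_
  rw [← CG_gad3, e3, e3]

theorem clR_gad4 (h2 : (2 : K) ≠ 0) (r s t : K) (L : St (n + 2) K) : clR (gad4 r s t L) := by
  intro a ha
  have h1 : ((Fin.cons a (Fin.cons 0 (Fin.cons 0 (0 : Fin n → K) : Fin (n + 1) → K) :
      Fin (n + 2) → K) : Fin (n + 3) → K),
    (Fin.cons 0 (Fin.cons 0 (Fin.cons 0 (0 : Fin n → K) : Fin (n + 1) → K) :
      Fin (n + 2) → K) : Fin (n + 3) → K)) ∈ gad4 r s t L := by
    rw [CG_cons0, CG_cons0, CG_cons0]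
    exact ha
  rw [CG_gad4] at h1
  obtain ⟨b, c, h1⟩ := h1
  rw [mem_gad2] at h1
  obtain ⟨x, y, z, x', z', y'', z'', -, h3, h4, h5, -⟩ := h1
  have h6 : (2 : K) * c = 0 := by linear_combination h3.1 - h4.1 - h5.1
  linear_combination h5.1 + h6

/-- MODULE CG3: the gadget is a crossing with a conductance `(r + s + t) / 4` between the two wires.

For `x = (vec2 b' w a', vec2 ib' iw ia')` (`vec2_eq`): `x ∈ gad5` iff there are `a`, `b`, `c` such that
`(c, b', b, w, a, a'; 0, ib', 0, iw, 0, ia')` is in `gad2`.  By `mem_gad2`: `c = (a + b) / 2`, `b' = a`, `a' = b`;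
with `D = (a - b) / 2` and `S = r + s + t` the equations of the currents give `- x - x' = ia' + S D / 2` and
`- y - y'' = ib' - S D / 2`.  Compare with `mem_sh`, `mem_cr`. -/
theorem gad5_eq (h2 : (2 : K) ≠ 0) (r s t : K) (L : St (n + 2) K) :
    gad5 r s t L = sh ((r + s + t) / 4) (cr L) := by
  have h4 : (4 : K) ≠ 0 := by
    have h5 : (4 : K) = 2 * 2 := by norm_num
    rw [h5]
    exact mul_ne_zero h2 h2
  ext ⟨v, i⟩
  obtain ⟨b', w, a', rfl⟩ := vec2_eq v
  obtain ⟨ib', iw, ia', rfl⟩ := vec2_eq i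
  have e1 : ∀ (b a : K) (w : Fin n → K), vec2 b w a =
      Fin.snoc (Fin.cons b w : Fin (n + 1) → K) a := fun b a w => CM_cs b a w
  have h1 : (vec2 b' w a', vec2 ib' iw ia') ∈ gad5 r s t L ↔ ∃ a b c : K,
      ((Fin.snoc (Fin.cons c (Fin.cons b' (vec2 b w a))) a' : Fin (n + 5) → K),
      (Fin.snoc (Fin.cons 0 (Fin.cons ib' (vec2 0 iw 0))) ia' : Fin (n + 5) → K)) ∈
        gad2 r s t L := by
    rw [gad5, e1, e1, mem_rf_snoc, mem_cl]
    exact exists_congr fun a => CG_gad4 r s t L b' a a' ib' 0 ia' w iw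
  rw [h1, mem_sh, mem_cr]
  constructor
  · rintro ⟨a, b, c, h⟩
    rw [mem_gad2] at h
    obtain ⟨x, y, z, x', z', y'', z'', hL, ⟨p1, p2, p3⟩, ⟨p4, p5, p6⟩, ⟨p7, p8, p9⟩, p10⟩ := h
    have q1 : b' = a := by linear_combination p4 - p1
    have q2 : a' = b := by linear_combination p7 - p1
    subst q1 q2
    have q3 : 0 - x - x' = ia' - (r + s + t) / 4 * (a' - b') := by
      field_simp
      have q4 : (2 : K) * (4 * (0 - x - x') - (ia' * 4 - (r + s + t) * (a' - b'))) = 0 := by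
        linear_combination (-4 : K) * p2 - 4 * p3 - 4 * p5 + 4 * p6 - 4 * p8 + 4 * p9 -
          4 * p10 + (-2 * r + 2 * s + 2 * t) * p1
      have q5 := (mul_eq_zero.1 q4).resolve_left h2
      linear_combination q5
    have q6 : 0 - y - y'' = ib' + (r + s + t) / 4 * (a' - b') := by
      field_simp
      have q4 : (2 : K) * (4 * (0 - y - y'') - (ib' * 4 + (r + s + t) * (a' - b'))) = 0 := by
        linear_combination (-4 : K) * p2 + 4 * p3 - 4 * p5 - 4 * p6 - 4 * p8 - 4 * p9 -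
          4 * p10 + (2 * r - 2 * s - 2 * t) * p1
      have q5 := (mul_eq_zero.1 q4).resolve_left h2
      linear_combination q5
    rw [← q3, ← q6]
    exact hL
  · intro hL
    refine ⟨b', a', (a' + b') / 2, ?_⟩
    rw [mem_gad2]
    have q0 : (a' + b') = 2 * ((a' + b') / 2) := by field_simp
    refine ⟨-ib' - ia' + (s - t - r) * (b' - a') / 4, -ib' - ia' + (s - t + r) * (b' - a') / 4,
      2 * ib' + 2 * ia' - (s - t) * (b' - a') / 2, ib' - s * (b' - a') / 2,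
      -2 * ib' + s * (b' - a') / 2, ia' + t * (b' - a') / 2, -2 * ia' - t * (b' - a') / 2,
      ?_, ⟨?_, ?_, ?_⟩, ⟨?_, ?_, ?_⟩, ⟨?_, ?_, ?_⟩, ?_⟩
    · have q3 : 0 - (-ib' - ia' + (s - t - r) * (b' - a') / 4) - (ib' - s * (b' - a') / 2) =
          ia' - (r + s + t) / 4 * (a' - b') := by
        field_simp
        ring
      have q6 : 0 - (-ib' - ia' + (s - t + r) * (b' - a') / 4) - (ia' + t * (b' - a') / 2) =
          ib' + (r + s + t) / 4 * (a' - b') := by
        field_simp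
        ring
      rw [q3, q6]
      exact hL
    all_goals field_simp
    all_goals ring

end

/-! ### Families -/

/-- Attaching. -/
noncomputable def Fam.att (ν : Fam (n + 2)) (τ : Fam 3) : Fam (n + 3) :=
  ((((ν.wd (m := 2) τ).rb).rb).mg.rf).rf

theorem GG_att {ν : Fam (n + 2)} {τ : Fam 3} (h : GG (n + 2) ν) (h' : GG 3 τ) : GG (n + 3) (ν.att τ) :=
  GG_rf (GG_rf (GG_mg (GG_rb (GG_rb (GG_wd (m := 2) h h')))))

/-- The gadget. -/
noncomputable def Fam.gad (ν : Fam (n + 2)) : Fam (n + 2) :=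
  ((((((((((ν.att ctF).att ctF.rf).rb).rb).att ctF.rb).cl).rf).cl).rb.rb.rb).cl).rf

theorem GG_gad (hct : GG 3 ctF) {ν : Fam (n + 2)} (h : GG (n + 2) ν) : GG (n + 2) ν.gad :=
  GG_rf (GG_cl (GG_rb (GG_rb (GG_rb (GG_cl (GG_rf (GG_cl (GG_att (GG_rb (GG_rb (GG_att (GG_att h hct)
    (GG_rf hct)))) (GG_rb hct)))))))))

/-- MODULE CF1: unfold everything; all the conditions hold by `attR_ct`, `attR_rf_ct`, `attR_rb_ct`,
`clR_gad2`, `clR_gad3`, `clR_gad4`. -/
theorem gad_eq (ν : Fam (n + 2)) (F : FF) (f : St (n + 2) F.K → ℤ) :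
    ν.gad F f = ν F fun L => ∑ r : F.K, ∑ s : F.K, ∑ t : F.K, f (gad5 r s t L) := by
  classical
  have h0 : ν.gad F f = ν F fun L => ∑ r : F.K, if attR L (ctS r) then
      ∑ s : F.K, if attR (att L (ctS r)) (rf (ctS s)) then
      ∑ t : F.K, if attR (gad1 r s L) (rb (ctS t)) then
        if clR (gad2 r s t L) then if clR (gad3 r s t L) then if clR (gad4 r s t L) then
          f (gad5 r s t L) else 0 else 0 else 0 else 0 else 0 else 0 := rfl
  rw [h0]
  congr 1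
  funext L
  refine Finset.sum_congr rfl fun r _ => ?_
  rw [if_pos (attR_ct F.two_ne r L)]
  refine Finset.sum_congr rfl fun s _ => ?_
  rw [if_pos (attR_rf_ct F.two_ne s _)]
  refine Finset.sum_congr rfl fun t _ => ?_
  rw [if_pos (attR_rb_ct F.two_ne t _), if_pos (clR_gad2 F.two_ne r s t L),
    if_pos (clR_gad3 F.two_ne r s t L), if_pos (clR_gad4 F.two_ne r s t L)]

/-- MODULE CF2: `∑ r s t, g ((r + s + t) / 4) = q ^ 2 * ∑ y, g y`. -/
theorem sum_three (F : FF) (g : F.K → ℤ) :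
    ∑ r : F.K, ∑ s : F.K, ∑ t : F.K, g ((r + s + t) / 4) = F.q ^ 2 * ∑ y : F.K, g y := by
  have h4 : (4 : F.K) ≠ 0 := by
    have h5 : (4 : F.K) = 2 * 2 := by norm_num
    rw [h5]
    exact mul_ne_zero F.two_ne F.two_ne
  have h1 : ∀ r s : F.K, ∑ t : F.K, g ((r + s + t) / 4) = ∑ y : F.K, g y := fun r s =>
    Equiv.sum_comp ((Equiv.addLeft (r + s)).trans (Equiv.divRight₀ 4 h4)) g
  have h2 : ∀ c : ℤ, ∑ _r : F.K, c = F.q * c := by
    intro c
    rw [Finset.sum_const, Finset.card_univ, nsmul_eq_mul]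
    unfold FF.q FinField.q
    rw [Nat.card_eq_fintype_card]
  rw [Finset.sum_congr rfl fun r _ => (Finset.sum_congr rfl fun s _ => h1 r s), h2, h2]
  ring

/-- The crossing with a free conductance between the two wires. -/
theorem GG_cr_sh (hct : GG 3 ctF) {ν : Fam (n + 2)} (h : GG (n + 2) ν) : GG (n + 2) ν.cr.sh := by
  refine GG_divq (GG_divq (GG_congr (GG_gad hct h) fun F f => ?_))
  rw [gad_eq]
  have h1 : ∀ L : St (n + 2) F.K, ∑ r : F.K, ∑ s : F.K, ∑ t : F.K, f (gad5 r s t L) =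
      F.q ^ 2 * ∑ y : F.K, f (sh y (cr L)) := by
    intro L
    rw [← sum_three F fun y => f (sh y (cr L))]
    simp only [gad5_eq F.two_ne]
  simp only [h1]
  rw [GG_mul' h F]
  show _ = F.q * (F.q * ν F fun L => ∑ y : F.K, f (sh y (cr L)))
  ring

end Pool.Agent.PLN
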