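import Pool.Agent.PLN.Defs

/-!
# Planar networks: more definitions
-/

set_option autoImplicit false

open scoped BigOperators

namespace Pool.Agent.PLN

open Pool.Agent.KG

/-- `ν` does not change if a resistance is put in front of the last terminal. -/
def InvL {n : ℕ} (ν : Fam (n + 1)) : Prop :=
  ∀ (F : FF) (r : F.K) (f : St (n + 1) F.K → ℤ), ν F (fun L => f (spkl r L)) = ν F f

/-- A resistor with two terminals. -/
def resS {K : Type} [Field K] (r : K) : St 2 K where
  carrier := {x | x.2 0 + x.2 1 = 0 ∧ x.1 0 - x.1 1 = r * x.2 0}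
  add_mem' := by
    rintro a b ⟨h1, h2⟩ ⟨h3, h4⟩
    refine ⟨?_, ?_⟩ <;> simp only [Prod.fst_add, Prod.snd_add, Pi.add_apply]
    · linear_combination h1 + h3
    · linear_combination h2 + h4
  zero_mem' := by simp
  smul_mem' := by
    rintro c a ⟨h1, h2⟩
    refine ⟨?_, ?_⟩ <;> simp only [Prod.smul_fst, Prod.smul_snd, Pi.smul_apply, smul_eq_mul]
    · linear_combination c * h1
    · linear_combination c * h2

/-- The free resistance. -/
noncomputable def resF : Fam 2 := fun F f => ∑ r : F.K, f (resS r)

end Pool.Agent.PLN
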