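import Pool.Agent.PLN.CrA
import Pool.Agent.PLN.Itf0

/-!
# Planar networks: the crossing, by an identity in the group ring of `SL₂`

The group `SL₂` acts on the pair (difference of the potentials of the terminal `0` and the last terminal,
current at the terminal `0`); resistances in front of the terminal `0` are the upper unitriangular matrices
`uu r`, conductances between the two terminals are the lower unitriangular matrices `ww y`.
-/

set_option autoImplicit false

open scoped BigOperators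

namespace Pool.Agent.PLN

open Pool.Agent.KG

variable {n : ℕ}

section

variable {K : Type} [Field K]

/-- `SL₂`. -/
abbrev SL (K : Type) [Field K] : Type := Matrix.SpecialLinearGroup (Fin 2) K

/-- Upper unitriangular matrices. -/
def uu (r : K) : SL K := ⟨!![1, r; 0, 1], by simp⟩

/-- Lower unitriangular matrices. -/
def ww (y : K) : SL K := ⟨!![1, 0; y, 1], by simp⟩

private theorem mem_of' {L : St n K} {x y : (Fin n → K) × (Fin n → K)} (h : y ∈ L) (h1 : y.1 = x.1)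
    (h2 : y.2 = x.2) : x ∈ L := (Prod.ext h1 h2 : y = x) ▸ h

/-- The matrix `(a, b; c, d)` acts on `D = v_0 - v_last` and `i_0`; `v_last` and `i_0 + i_last` are fixed. -/
def com (a b c d : K) (L : St (n + 2) K) : St (n + 2) K where
  carrier := {x | (x.1 + Pi.single 0 ((a - 1) * (x.1 0 - x.1 (Fin.last _)) + b * x.2 0),
    x.2 + (c * (x.1 0 - x.1 (Fin.last _)) + (d - 1) * x.2 0) •
      (Pi.single 0 1 - Pi.single (Fin.last _) 1 : Fin (n + 2) → K)) ∈ L}
  add_mem' := by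
    intro x y hx hy
    refine mem_of' (L.add_mem hx hy) ?_ ?_ <;> ext j
    · simp only [Prod.fst_add, Prod.snd_add, Pi.add_apply, Pi.single_apply]
      split_ifs <;> ring
    · simp only [Prod.fst_add, Prod.snd_add, Pi.add_apply, Pi.smul_apply, Pi.sub_apply, smul_eq_mul]
      ring
  zero_mem' := by
    refine mem_of' L.zero_mem ?_ ?_ <;> simp
  smul_mem' := by
    intro e x hx
    refine mem_of' (L.smul_mem e hx) ?_ ?_ <;> ext j
    · simp only [Prod.smul_fst, Prod.smul_snd, Pi.add_apply, Pi.smul_apply, Pi.single_apply, smul_eq_mul]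
      split_ifs <;> ring
    · simp only [Prod.smul_fst, Prod.smul_snd, Pi.add_apply, Pi.smul_apply, Pi.sub_apply, smul_eq_mul]
      ring

/-- The action of `SL₂` on the states. -/
def act (g : SL K) (L : St (n + 2) K) : St (n + 2) K :=
  com (g⁻¹ 0 0) (g⁻¹ 0 1) (g⁻¹ 1 0) (g⁻¹ 1 1) L

/-- The transformation of the vectors. -/
private def CB1_T (a b c d : K) (x : (Fin (n + 2) → K) × (Fin (n + 2) → K)) :
    (Fin (n + 2) → K) × (Fin (n + 2) → K) :=
  (x.1 + Pi.single 0 ((a - 1) * (x.1 0 - x.1 (Fin.last _)) + b * x.2 0),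
    x.2 + (c * (x.1 0 - x.1 (Fin.last _)) + (d - 1) * x.2 0) •
      (Pi.single 0 1 - Pi.single (Fin.last _) 1 : Fin (n + 2) → K))

private theorem CB1_TT (a b c d a' b' c' d' : K) (x : (Fin (n + 2) → K) × (Fin (n + 2) → K)) :
    CB1_T a' b' c' d' (CB1_T a b c d x) =
      CB1_T (a' * a + b' * c) (a' * b + b' * d) (c' * a + d' * c) (c' * b + d' * d) x := by
  have h0 : (0 : Fin (n + 2)) ≠ Fin.last (n + 1) := (Fin.last_pos).ne
  obtain ⟨y, hy⟩ : ∃ y, y = CB1_T a b c d x := ⟨_, rfl⟩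
  have h1 : y.1 = x.1 + Pi.single 0 ((a - 1) * (x.1 0 - x.1 (Fin.last _)) + b * x.2 0) := by
    rw [hy]
    rfl
  have h2 : y.2 = x.2 + (c * (x.1 0 - x.1 (Fin.last _)) + (d - 1) * x.2 0) •
      (Pi.single 0 1 - Pi.single (Fin.last _) 1 : Fin (n + 2) → K) := by
    rw [hy]
    rfl
  have h3 : y.1 0 = x.1 0 + ((a - 1) * (x.1 0 - x.1 (Fin.last _)) + b * x.2 0) := by
    rw [h1, Pi.add_apply, Pi.single_eq_same]
  have h4 : y.1 (Fin.last _) = x.1 (Fin.last _) := by
    rw [h1, Pi.add_apply, Pi.single_eq_of_ne h0.symm, add_zero]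
  have h5 : y.2 0 = x.2 0 + (c * (x.1 0 - x.1 (Fin.last _)) + (d - 1) * x.2 0) := by
    rw [h2, Pi.add_apply, Pi.smul_apply, Pi.sub_apply, Pi.single_eq_same, Pi.single_eq_of_ne h0,
      smul_eq_mul]
    ring
  rw [← hy]
  unfold CB1_T
  rw [h3, h4, h5, h1, h2]
  refine Prod.ext ?_ ?_
  · funext j
    simp only [Pi.add_apply, Pi.single_apply]
    split_ifs <;> ring
  · funext j
    simp only [Pi.add_apply, Pi.smul_apply, Pi.sub_apply, smul_eq_mul]
    ring

private theorem CB1_com (a b c d a' b' c' d' : K) (L : St (n + 2) K) :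
    com a b c d (com a' b' c' d' L) =
      com (a' * a + b' * c) (a' * b + b' * d) (c' * a + d' * c) (c' * b + d' * d) L := by
  ext x
  change CB1_T a' b' c' d' (CB1_T a b c d x) ∈ L ↔
    CB1_T (a' * a + b' * c) (a' * b + b' * d) (c' * a + d' * c) (c' * b + d' * d) x ∈ L
  rw [CB1_TT]

/-- MODULE CB1: `act_mul`, `act_uu`, `act_ww`. -/
theorem act_mul (g h : SL K) (L : St (n + 2) K) : act (g * h) L = act g (act h L) := by
  unfold act
  rw [CB1_com, mul_inv_rev]
  have h1 : ∀ i j, ((h⁻¹ * g⁻¹ : SL K) : Matrix (Fin 2) (Fin 2) K) i j =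
      h⁻¹ i 0 * g⁻¹ 0 j + h⁻¹ i 1 * g⁻¹ 1 j := by
    intro i j
    rw [Matrix.SpecialLinearGroup.coe_mul, Matrix.mul_apply, Fin.sum_univ_two]
  rw [h1, h1, h1, h1]

private theorem CB1_cu (r : K) : ((uu r : SL K) : Matrix (Fin 2) (Fin 2) K) = !![1, r; 0, 1] := rfl

private theorem CB1_cw (y : K) : ((ww y : SL K) : Matrix (Fin 2) (Fin 2) K) = !![1, 0; y, 1] := rfl

private theorem CB1_uu (r : K) : ((uu r)⁻¹ : SL K) = uu (-r) := by
  rw [inv_eq_iff_mul_eq_one]
  apply Subtype.ext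
  rw [Matrix.SpecialLinearGroup.coe_mul, CB1_cu, CB1_cu, Matrix.SpecialLinearGroup.coe_one]
  ext i j
  fin_cases i <;> fin_cases j <;> simp [Matrix.mul_apply, Fin.sum_univ_two]

private theorem CB1_ww (y : K) : ((ww y)⁻¹ : SL K) = ww (-y) := by
  rw [inv_eq_iff_mul_eq_one]
  apply Subtype.ext
  rw [Matrix.SpecialLinearGroup.coe_mul, CB1_cw, CB1_cw, Matrix.SpecialLinearGroup.coe_one]
  ext i j
  fin_cases i <;> fin_cases j <;> simp [Matrix.mul_apply, Fin.sum_univ_two]

private theorem CB1_mem {L : St n K} {u v : (Fin n → K) × (Fin n → K)} (h : u = v) :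
    u ∈ L ↔ v ∈ L := by
  rw [h]

theorem act_uu (r : K) (L : St (n + 2) K) : act (uu r) L = spk r L := by
  have e : act (uu r) L = com 1 (-r) 0 1 L := by
    unfold act
    rw [CB1_uu]
    rfl
  rw [e]
  ext x
  change ((x.1 + Pi.single 0 ((1 - 1) * (x.1 0 - x.1 (Fin.last _)) + (-r) * x.2 0),
    x.2 + (0 * (x.1 0 - x.1 (Fin.last _)) + (1 - 1) * x.2 0) •
      (Pi.single 0 1 - Pi.single (Fin.last _) 1 : Fin (n + 2) → K)) :
        (Fin (n + 2) → K) × (Fin (n + 2) → K)) ∈ L ↔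
    ((x.1 - Pi.single 0 (r * x.2 0), x.2) : (Fin (n + 2) → K) × (Fin (n + 2) → K)) ∈ L
  apply CB1_mem
  refine Prod.ext ?_ ?_
  · funext j
    simp only [Pi.add_apply, Pi.sub_apply, Pi.single_apply]
    split_ifs <;> ring
  · funext j
    simp only [Pi.add_apply, Pi.smul_apply, Pi.sub_apply, smul_eq_mul]
    ring

theorem act_ww (y : K) (L : St (n + 2) K) : act (ww y) L = sh y L := by
  have e : act (ww y) L = com 1 0 (-y) 1 L := by
    unfold act
    rw [CB1_ww]
    rfl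
  rw [e]
  ext x
  change ((x.1 + Pi.single 0 ((1 - 1) * (x.1 0 - x.1 (Fin.last _)) + 0 * x.2 0),
    x.2 + ((-y) * (x.1 0 - x.1 (Fin.last _)) + (1 - 1) * x.2 0) •
      (Pi.single 0 1 - Pi.single (Fin.last _) 1 : Fin (n + 2) → K)) :
        (Fin (n + 2) → K) × (Fin (n + 2) → K)) ∈ L ↔
    ((x.1, x.2 - (y * (x.1 (Fin.last _) - x.1 0)) •
    (Pi.single (Fin.last _) 1 - Pi.single 0 1 : Fin (n + 2) → K)) :
      (Fin (n + 2) → K) × (Fin (n + 2) → K)) ∈ L
  apply CB1_mem
  refine Prod.ext ?_ ?_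
  · funext j
    simp only [Pi.add_apply, Pi.single_apply]
    split_ifs <;> ring
  · funext j
    simp only [Pi.add_apply, Pi.smul_apply, Pi.sub_apply, smul_eq_mul]
    ring

open Classical in
/-- The functions `a` for `γ ≠ 0`, `b` for `γ = 0`, `b + e` for `γ = 0` and `α = 1`. -/
noncomputable def PP (a b e : ℤ) (g : SL K) : ℤ :=
  (if g 1 0 ≠ 0 then a else b) + (if g 1 0 = 0 ∧ g 0 0 = 1 then e else 0)

/-- One more factor. -/
def NN [Fintype K] (N : SL K → ℤ) (g : SL K) : ℤ := ∑ y : K, ∑ r : K, N ((uu r * ww y)⁻¹ * g)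

private theorem CB2_ent (r y : K) (g : SL K) :
    ((uu r * ww y)⁻¹ * g : SL K) 0 0 = g 0 0 - r * g 1 0 ∧
    ((uu r * ww y)⁻¹ * g : SL K) 1 0 = g 1 0 - y * (g 0 0 - r * g 1 0) := by
  rw [mul_inv_rev, CB1_uu, CB1_ww, Matrix.SpecialLinearGroup.coe_mul,
    Matrix.SpecialLinearGroup.coe_mul, CB1_cu, CB1_cw]
  constructor
  · simp [Matrix.mul_apply, Fin.sum_univ_two]
    ring
  · simp [Matrix.mul_apply, Fin.sum_univ_two]
    ring

open Classical in
private theorem CB2_lin [Fintype K] {α γ : K} (hα : α ≠ 0) (a b e : ℤ) :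
    ∑ y : K, ((if γ - y * α ≠ 0 then a else b) + (if γ - y * α = 0 ∧ α = 1 then e else 0)) =
      ((Fintype.card K : ℤ) - 1) * a + b + (if α = 1 then e else 0) := by
  have h1 : ∀ y : K, ((if γ - y * α ≠ 0 then a else b) + (if γ - y * α = 0 ∧ α = 1 then e else 0)) =
      a + (if y = γ / α then (b - a + (if α = 1 then e else 0)) else 0) := by
    intro y
    by_cases hy : y = γ / α
    · have h2 : γ - y * α = 0 := by
        rw [hy, div_mul_cancel₀ _ hα, sub_self]
      rw [if_neg (not_not.2 h2), if_pos hy]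
      by_cases h3 : α = 1
      · rw [if_pos ⟨h2, h3⟩, if_pos h3]
        ring
      · rw [if_neg fun h4 => h3 h4.2, if_neg h3]
        ring
    · have h2 : γ - y * α ≠ 0 := by
        intro h3
        apply hy
        rw [eq_div_iff hα]
        exact (sub_eq_zero.1 h3).symm
      rw [if_pos h2, if_neg hy, if_neg fun h4 => h2 h4.1]
  rw [Finset.sum_congr rfl fun y _ => h1 y, Finset.sum_add_distrib, Finset.sum_ite_eq',
    if_pos (Finset.mem_univ _), Finset.sum_const, Finset.card_univ, nsmul_eq_mul]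
  ring

/-- MODULE CB2: `g' = (uu r * ww y)⁻¹ * g` has `α' = α - r γ`, `γ' = γ - y α'`.

If `γ ≠ 0`: `γ' = 0` for `q - 1` pairs (`α' ≠ 0`, `y = γ / α'`), one of which has `α' = 1`.
If `γ = 0`: `α' = α ≠ 0`; `γ' = 0` iff `y = 0`: `q` pairs. -/
theorem NN_PP [Fintype K] (a b e : ℤ) (g : SL K) :
    NN (PP a b e) g = PP (((Fintype.card K : ℤ) ^ 2 - Fintype.card K + 1) * a +
      ((Fintype.card K : ℤ) - 1) * b + e) (((Fintype.card K : ℤ) ^ 2 - Fintype.card K) * a +
      (Fintype.card K : ℤ) * b) ((Fintype.card K : ℤ) * e) g := by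
  classical
  have h1 : NN (PP a b e) g = ∑ r : K, ∑ y : K,
      ((if g 1 0 - y * (g 0 0 - r * g 1 0) ≠ 0 then a else b) +
        (if g 1 0 - y * (g 0 0 - r * g 1 0) = 0 ∧ g 0 0 - r * g 1 0 = 1 then e else 0)) := by
    unfold NN
    rw [Finset.sum_comm]
    refine Finset.sum_congr rfl fun r _ => Finset.sum_congr rfl fun y _ => ?_
    unfold PP
    obtain ⟨h2, h3⟩ := CB2_ent r y g
    rw [h2, h3]
  rw [h1]
  by_cases hγ : g 1 0 = 0
  · have hα : g 0 0 ≠ 0 := by
      intro h2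
      have h3 := g.det_coe
      rw [Matrix.det_fin_two, h2, hγ] at h3
      simp at h3
    have h2 : ∀ r : K, ∑ y : K, ((if g 1 0 - y * (g 0 0 - r * g 1 0) ≠ 0 then a else b) +
        (if g 1 0 - y * (g 0 0 - r * g 1 0) = 0 ∧ g 0 0 - r * g 1 0 = 1 then e else 0)) =
        ((Fintype.card K : ℤ) - 1) * a + b + (if g 0 0 = 1 then e else 0) := by
      intro r
      have h3 : g 0 0 - r * g 1 0 = g 0 0 := by
        rw [hγ, mul_zero, sub_zero]
      rw [h3]
      exact CB2_lin hα a b e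
    rw [Finset.sum_congr rfl fun r _ => h2 r, Finset.sum_const, Finset.card_univ, nsmul_eq_mul]
    unfold PP
    rw [if_neg (not_not.2 hγ)]
    by_cases h3 : g 0 0 = 1
    · rw [if_pos h3, if_pos ⟨hγ, h3⟩]
      ring
    · rw [if_neg h3, if_neg fun h4 => h3 h4.2]
      ring
  · obtain ⟨σ, hσ⟩ : ∃ σ : K ≃ K, ∀ r, σ r = g 0 0 - r * g 1 0 := by
      refine ⟨{ toFun := fun r => g 0 0 - r * g 1 0, invFun := fun α => (g 0 0 - α) / g 1 0,
                left_inv := ?_, right_inv := ?_ }, fun _ => rfl⟩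
      · intro r
        change (g 0 0 - (g 0 0 - r * g 1 0)) / g 1 0 = r
        rw [sub_sub_cancel, mul_div_assoc, div_self hγ, mul_one]
      · intro α
        change g 0 0 - (g 0 0 - α) / g 1 0 * g 1 0 = α
        rw [div_mul_cancel₀ _ hγ, sub_sub_cancel]
    have h2 : ∑ r : K, ∑ y : K, ((if g 1 0 - y * (g 0 0 - r * g 1 0) ≠ 0 then a else b) +
        (if g 1 0 - y * (g 0 0 - r * g 1 0) = 0 ∧ g 0 0 - r * g 1 0 = 1 then e else 0)) =
        ∑ α : K, ∑ y : K, ((if g 1 0 - y * α ≠ 0 then a else b) +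
        (if g 1 0 - y * α = 0 ∧ α = 1 then e else 0)) := by
      refine Fintype.sum_equiv σ _ _ fun r => ?_
      rw [hσ]
    have h3 : ∀ α : K, ∑ y : K, ((if g 1 0 - y * α ≠ 0 then a else b) +
        (if g 1 0 - y * α = 0 ∧ α = 1 then e else 0)) =
        (((Fintype.card K : ℤ) - 1) * a + b) + (if α = 1 then e else 0) +
          (if α = 0 then a - b else 0) := by
      intro α
      by_cases hα : α = 0
      · subst hα
        have h4 : ∀ y : K, ((if g 1 0 - y * 0 ≠ 0 then a else b) +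
            (if g 1 0 - y * 0 = 0 ∧ (0 : K) = 1 then e else 0)) = a := by
          intro y
          rw [mul_zero, sub_zero, if_pos hγ, if_neg fun h5 => hγ h5.1, add_zero]
        rw [Finset.sum_congr rfl fun y _ => h4 y, Finset.sum_const, Finset.card_univ, nsmul_eq_mul,
          if_neg zero_ne_one, if_pos rfl]
        ring
      · rw [CB2_lin hα, if_neg hα]
        ring
    rw [h2, Finset.sum_congr rfl fun α _ => h3 α, Finset.sum_add_distrib, Finset.sum_add_distrib,
      Finset.sum_ite_eq', Finset.sum_ite_eq', if_pos (Finset.mem_univ _), if_pos (Finset.mem_univ _),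
      Finset.sum_const, Finset.card_univ, nsmul_eq_mul]
    unfold PP
    rw [if_pos hγ, if_neg fun h4 => hγ h4.1]
    ring

/-- A free conductance, followed by a free resistance. -/
def tt [Fintype K] (f : St (n + 2) K → ℤ) (L : St (n + 2) K) : ℤ := ∑ y : K, ∑ r : K, f (spk r (sh y L))

/-- MODULE CB3: substitution in the sum over the group. -/
theorem sum_NN [Fintype K] [Fintype (SL K)] (N : SL K → ℤ) (f : St (n + 2) K → ℤ) (L : St (n + 2) K) :
    ∑ g : SL K, N g * tt f (act g L) = ∑ g : SL K, NN N g * f (act g L) := by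
  unfold tt NN
  simp only [Finset.mul_sum, Finset.sum_mul]
  rw [Finset.sum_comm]
  refine Eq.trans ?_ Finset.sum_comm
  refine Finset.sum_congr rfl fun y _ => ?_
  rw [Finset.sum_comm]
  refine Eq.trans ?_ Finset.sum_comm
  refine Finset.sum_congr rfl fun r _ => ?_
  refine Fintype.sum_equiv (Equiv.mulLeft (uu r * ww y)) _ _ fun g => ?_
  rw [Equiv.coe_mulLeft, inv_mul_cancel_left, act_mul, act_mul, act_uu, act_ww]

/-- MODULE CB4: `uu` is a bijection from `K` to the matrices with `γ = 0` and `α = 1`. -/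
theorem sum_PP [Fintype K] [Fintype (SL K)] (φ : SL K → ℤ) :
    ∑ g : SL K, PP 0 0 1 g * φ g = ∑ r : K, φ (uu r) := by
  classical
  have h1 : ∀ g : SL K, PP 0 0 1 g * φ g = if g 1 0 = 0 ∧ g 0 0 = 1 then φ g else 0 := by
    intro g
    unfold PP
    by_cases h2 : g 1 0 = 0 ∧ g 0 0 = 1
    · rw [if_pos h2, if_pos h2, ite_self, zero_add, one_mul]
    · rw [if_neg h2, if_neg h2, ite_self, zero_add, zero_mul]
  rw [Finset.sum_congr rfl fun g _ => h1 g, ← Finset.sum_filter]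
  symm
  refine Finset.sum_bij (fun r _ => uu r) ?_ ?_ ?_ ?_
  · intro r _
    rw [Finset.mem_filter]
    exact ⟨Finset.mem_univ _, rfl, rfl⟩
  · intro r _ r' _ h
    have h2 : (uu r : SL K) 0 1 = (uu r' : SL K) 0 1 := by rw [h]
    exact h2
  · intro g hg
    rw [Finset.mem_filter] at hg
    obtain ⟨-, h2, h3⟩ := hg
    refine ⟨g 0 1, Finset.mem_univ _, ?_⟩
    have h4 : g 1 1 = 1 := by
      have h5 := g.det_coe
      rw [Matrix.det_fin_two, h2, h3, one_mul, mul_zero, sub_zero] at h5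
      exact h5
    ext i j
    fin_cases i <;> fin_cases j
    · exact h3.symm
    · rfl
    · exact h2.symm
    · exact h4.symm
  · intro r _
    rfl

end

/-- `q`. -/
theorem FF.q_card (F : FF) : F.q = (Fintype.card F.K : ℤ) := by
  show (Nat.card F.K : ℤ) = _
  rw [Nat.card_eq_fintype_card]

/-- MODULE CB5.  `q * μ (tt ... (tt f)) = μ (fun L => ∑ g, N_k g * f (act g L))` with `N_0 = PP 0 0 1`,
`N_1 = PP 1 0 q`, `N_2 = PP (q ^ 2 + 1) (q ^ 2 - q) (q ^ 2)`,
`N_3 = PP (q ^ 4 + q ^ 2 + 1) ((q ^ 2 - q) * (q ^ 2 + q + 1)) (q ^ 3)`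
(`hinv`, `act_uu`, `sum_PP`, `sum_NN`, `NN_PP`), and
`q ^ 3 * N_0 - (q ^ 3 + q ^ 2 + q) * N_1 + (q ^ 2 + q + 1) * N_2 - N_3 = 0`. -/
theorem sl2_identity (F : FF) (μ : (St (n + 2) F.K → ℤ) → ℤ)
    (hadd : ∀ f g, μ (fun L => f L + g L) = μ f + μ g) (hmul : ∀ (c : ℤ) (f), μ (fun L => c * f L) = c * μ f)
    (hinv : ∀ (r : F.K) (f), μ (fun L => f (spk r L)) = μ f) (f : St (n + 2) F.K → ℤ) :
    F.q ^ 3 * μ f = (F.q ^ 3 + F.q ^ 2 + F.q) * μ (tt f) - (F.q ^ 2 + F.q + 1) * μ (tt (tt f)) +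
      μ (tt (tt (tt f))) := by
  classical
  have hfin : Fintype (SL F.K) := Fintype.ofFinite _
  have h0 : μ (fun _ => 0) = 0 := by
    have h1 := hmul 0 (fun _ => 0)
    simpa using h1
  have hsum : ∀ {ι : Type} (s : Finset ι) (G : ι → St (n + 2) F.K → ℤ),
      μ (fun L => ∑ i ∈ s, G i L) = ∑ i ∈ s, μ (G i) := by
    intro ι s G
    induction s using Finset.induction_on with
    | empty => simpa using h0
    | insert i s hi ih =>
      rw [Finset.sum_insert hi, ← ih, ← hadd]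
      congr 1
      funext L
      rw [Finset.sum_insert hi]
  -- the sum over the group
  have hA : ∀ G : St (n + 2) F.K → ℤ, F.q * μ G =
      μ (fun L => ∑ g : SL F.K, PP 0 0 1 g * G (act g L)) := by
    intro G
    have h1 : (fun L => ∑ g : SL F.K, PP 0 0 1 g * G (act g L)) = fun L => ∑ r : F.K, G (spk r L) := by
      funext L
      rw [sum_PP fun g => G (act g L)]
      refine Finset.sum_congr rfl fun r _ => ?_
      rw [act_uu]
    rw [h1, hsum Finset.univ fun r L => G (spk r L)]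
    have h2 : ∀ r ∈ (Finset.univ : Finset F.K), μ (fun L => G (spk r L)) = μ G := fun r _ => hinv r G
    rw [Finset.sum_congr rfl h2, Finset.sum_const, Finset.card_univ, nsmul_eq_mul, FF.q_card]
  have hB : ∀ (N : SL F.K → ℤ) (G : St (n + 2) F.K → ℤ),
      (fun L => ∑ g : SL F.K, N g * tt G (act g L)) = fun L => ∑ g : SL F.K, NN N g * G (act g L) :=
    fun N G => funext fun L => sum_NN N G L
  obtain ⟨q, hq⟩ : ∃ q : ℤ, q = F.q := ⟨_, rfl⟩
  have hcard : (Fintype.card F.K : ℤ) = q := by rw [hq, FF.q_card]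
  have hN1 : NN (PP 0 0 1 : SL F.K → ℤ) = PP 1 0 q := by
    funext g
    rw [NN_PP, hcard]
    congr 1 <;> ring
  have hN2 : NN (PP 1 0 q : SL F.K → ℤ) = PP (q ^ 2 + 1) (q ^ 2 - q) (q ^ 2) := by
    funext g
    rw [NN_PP, hcard]
    congr 1 <;> ring
  have hN3 : NN (PP (q ^ 2 + 1) (q ^ 2 - q) (q ^ 2) : SL F.K → ℤ) =
      PP (q ^ 4 + q ^ 2 + 1) ((q ^ 2 - q) * (q ^ 2 + q + 1)) (q ^ 3) := by
    funext g
    rw [NN_PP, hcard]
    congr 1 <;> ring
  have e0 := hA f
  have e1 := hA (tt f)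
  have e2 := hA (tt (tt f))
  have e3 := hA (tt (tt (tt f)))
  rw [hB, hN1] at e1
  rw [hB, hN1, hB, hN2] at e2
  rw [hB, hN1, hB, hN2, hB, hN3] at e3
  have hlin : ∀ (c : ℤ) (N : SL F.K → ℤ), c * μ (fun L => ∑ g : SL F.K, N g * f (act g L)) =
      μ (fun L => ∑ g : SL F.K, (c * N g) * f (act g L)) := by
    intro c N
    rw [← hmul]
    congr 1
    funext L
    rw [Finset.mul_sum]
    refine Finset.sum_congr rfl fun g _ => ?_
    ring
  have had2 : ∀ (N M : SL F.K → ℤ), μ (fun L => ∑ g : SL F.K, N g * f (act g L)) +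
      μ (fun L => ∑ g : SL F.K, M g * f (act g L)) =
      μ (fun L => ∑ g : SL F.K, (N g + M g) * f (act g L)) := by
    intro N M
    rw [← hadd]
    congr 1
    funext L
    rw [← Finset.sum_add_distrib]
    refine Finset.sum_congr rfl fun g _ => ?_
    ring
  have hq0 : q ≠ 0 := by
    rw [hq, FF.q_card]
    have : 0 < Fintype.card F.K := Fintype.card_pos
    exact_mod_cast this.ne'
  rw [← hq] at e0 e1 e2 e3 ⊢
  have hfinal : q ^ 3 * (q * μ f) - (q ^ 3 + q ^ 2 + q) * (q * μ (tt f)) +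
      (q ^ 2 + q + 1) * (q * μ (tt (tt f))) - q * μ (tt (tt (tt f))) = 0 := by
    rw [e0, e1, e2, e3]
    have h1 : ∀ A B C D : ℤ, q ^ 3 * A - (q ^ 3 + q ^ 2 + q) * B + (q ^ 2 + q + 1) * C - D =
      q ^ 3 * A + (- (q ^ 3 + q ^ 2 + q)) * B + (q ^ 2 + q + 1) * C + (-1) * D :=
      fun A B C D => by ring
    rw [h1, hlin, hlin, hlin, hlin, had2, had2, had2]
    refine Eq.trans ?_ h0
    congr 1
    funext L
    refine Finset.sum_eq_zero fun g _ => ?_
    have h2 : q ^ 3 * PP 0 0 1 g + (- (q ^ 3 + q ^ 2 + q)) * PP 1 0 q g +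
        (q ^ 2 + q + 1) * PP (q ^ 2 + 1) (q ^ 2 - q) (q ^ 2) g +
        (-1) * PP (q ^ 4 + q ^ 2 + 1) ((q ^ 2 - q) * (q ^ 2 + q + 1)) (q ^ 3) g = 0 := by
      unfold PP
      split_ifs <;> ring
    rw [h2, zero_mul]
  have h2 : q * (q ^ 3 * μ f - ((q ^ 3 + q ^ 2 + q) * μ (tt f) - (q ^ 2 + q + 1) * μ (tt (tt f)) +
      μ (tt (tt (tt f))))) = 0 := by
    linear_combination hfinal
  rcases mul_eq_zero.1 h2 with h3 | h3
  · exact absurd h3 hq0
  · linear_combination h3

/-- MODULE CB6. -/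
theorem spk_cr {K : Type} [Field K] (r : K) (L : St (n + 2) K) : spk r (cr L) = cr (spkl r L) := by
  ext x
  change (((x.1 - Pi.single 0 (r * x.2 0)) ∘ Equiv.swap (Fin.last _) 0,
      x.2 ∘ Equiv.swap (Fin.last _) 0) : (Fin (n + 2) → K) × (Fin (n + 2) → K)) ∈ L ↔
    ((x.1 ∘ Equiv.swap (Fin.last _) 0 - Pi.single (Fin.last (n + 1))
      (r * (x.2 ∘ Equiv.swap (Fin.last _) 0) (Fin.last (n + 1))), x.2 ∘ Equiv.swap (Fin.last _) 0) :
      (Fin (n + 2) → K) × (Fin (n + 2) → K)) ∈ L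
  apply CB1_mem
  refine Prod.ext ?_ rfl
  funext j
  change (x.1 - Pi.single 0 (r * x.2 0) : Fin (n + 2) → K) (Equiv.swap (Fin.last _) 0 j) =
    x.1 (Equiv.swap (Fin.last _) 0 j) - (Pi.single (Fin.last (n + 1))
      (r * x.2 (Equiv.swap (Fin.last _) 0 (Fin.last (n + 1)))) : Fin (n + 2) → K) j
  rw [Pi.sub_apply, Equiv.swap_apply_left]
  congr 1
  by_cases hj : j = Fin.last (n + 1)
  · rw [hj, Equiv.swap_apply_left, Pi.single_eq_same, Pi.single_eq_same]
  · rw [Pi.single_eq_of_ne hj]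
    have h1 : Equiv.swap (Fin.last (n + 1)) 0 j ≠ 0 := by
      intro h2
      apply hj
      have h3 := congrArg (Equiv.swap (Fin.last (n + 1)) 0) h2
      rw [Equiv.swap_apply_self, Equiv.swap_apply_right] at h3
      exact h3
    rw [Pi.single_eq_of_ne h1]

open Polynomial in
/-- The crossing. -/
theorem GG_cr_of (hct : GG 3 ctF) {ν : Fam (n + 2)} (h : GG (n + 2) ν) (hs : InvL ν) :
    GG (n + 2) ν.cr := by
  have h1 : GG (n + 2) ν.cr.sh.sp := GG_sp (GG_cr_sh hct h)
  have h2 : GG (n + 2) ν.cr.sh.sp.sh.sp := GG_sp (GG_sh h1)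
  have h3 : GG (n + 2) ν.cr.sh.sp.sh.sp.sh.sp := GG_sp (GG_sh h2)
  refine GG_divq (GG_divq (GG_divq (GG_congr (GG_add (GG_sub (GG_mulp (X ^ 3 + X ^ 2 + X) h1)
    (GG_mulp (X ^ 2 + X + 1) h2)) h3) fun F f => ?_)))
  have key := sl2_identity F (ν.cr F) (fun f g => GG_add' h F _ _) (fun c f => GG_mul' h F _ _)
    (fun r f => by
      show ν F (fun L => f (spk r (cr L))) = ν F fun L => f (cr L)
      simp only [spk_cr]
      exact hs F r fun L => f (cr L)) f
  simp only [eval_add, eval_pow, eval_X, eval_one]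
  calc _ = F.q ^ 3 * ν.cr F f := key.symm
    _ = _ := by ring

end Pool.Agent.PLN
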