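import Pool.Agent.PLN.Pc

/-!
# Planar networks and their states: definitions

Nothing in this file is used in the statement of the final theorem (see `Pc.lean`).

A planar network with `n` terminals is a graph drawn in a disc, the terminals are distinct vertices on the
boundary in cyclic order `0, …, n - 1`; `gp j` is the face which touches the boundary between the terminals
`j` and `j + 1`.  Its state at a choice of conductances in a field is the relation between the potentials
and the currents at the terminals.
-/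

set_option autoImplicit false

open scoped BigOperators

namespace Pool.Agent.PLN

open Pool.Agent.KG

/-- A finite field of characteristic different from `2` and `3`. -/
structure FF where
  /-- the field -/
  F : FinField
  two_ne : (2 : F.K) ≠ 0
  three_ne : (3 : F.K) ≠ 0

/-- The underlying type. -/
abbrev FF.K (F : FF) : Type := F.F.K

/-- The number of elements. -/
noncomputable abbrev FF.q (F : FF) : ℤ := F.F.q

noncomputable instance instFT (F : FF) : Fintype F.K := Fintype.ofFinite _

/-! ### States -/

/-- States with `n` terminals: a linear relation between the potentials `x.1` and the currents `x.2`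
(flowing into the network) at the terminals. -/
abbrev St (n : ℕ) (K : Type) [Field K] : Type := Submodule K ((Fin n → K) × (Fin n → K))

section

variable {n m : ℕ} {K : Type} [Field K]

private theorem mem_of {L : St n K} {x y : (Fin n → K) × (Fin n → K)} (h : y ∈ L) (h1 : y.1 = x.1)
    (h2 : y.2 = x.2) : x ∈ L := (Prod.ext h1 h2 : y = x) ▸ h

/-- A conductance `y` between the last terminal and the terminal `0`. -/
def sh (y : K) (L : St (n + 2) K) : St (n + 2) K where
  carrier := {x | (x.1, x.2 - (y * (x.1 (Fin.last _) - x.1 0)) •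
    (Pi.single (Fin.last _) 1 - Pi.single 0 1 : Fin (n + 2) → K)) ∈ L}
  add_mem' := by
    intro a b ha hb
    refine mem_of (L.add_mem ha hb) rfl ?_
    ext j
    simp only [Prod.snd_add, Prod.fst_add, Pi.add_apply, Pi.sub_apply, Pi.smul_apply, smul_eq_mul]
    ring
  zero_mem' := by
    refine mem_of L.zero_mem rfl ?_
    ext j
    simp
  smul_mem' := by
    intro c a ha
    refine mem_of (L.smul_mem c ha) rfl ?_
    ext j
    simp only [Prod.smul_snd, Prod.smul_fst, Pi.sub_apply, Pi.smul_apply, smul_eq_mul]
    ring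

/-- Forward rotation: the new terminal `j` is the old terminal `j + 1`, the new last one is the old `0`. -/
def rf (L : St (n + 1) K) : St (n + 1) K where
  carrier := {x | ((Fin.cons (x.1 (Fin.last n)) (Fin.init x.1) : Fin (n + 1) → K),
    (Fin.cons (x.2 (Fin.last n)) (Fin.init x.2) : Fin (n + 1) → K)) ∈ L}
  add_mem' := by
    intro a b ha hb
    refine mem_of (L.add_mem ha hb) ?_ ?_ <;>
      (ext j; refine Fin.cases ?_ (fun j => ?_) j <;> simp [Fin.init])
  zero_mem' := by
    refine mem_of L.zero_mem ?_ ?_ <;>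
      (ext j; refine Fin.cases ?_ (fun j => ?_) j <;> simp [Fin.init])
  smul_mem' := by
    intro c a ha
    refine mem_of (L.smul_mem c ha) ?_ ?_ <;>
      (ext j; refine Fin.cases ?_ (fun j => ?_) j <;> simp [Fin.init])

/-- Backward rotation: the new terminal `0` is the old last one, the new `j + 1` is the old `j`. -/
def rb (L : St (n + 1) K) : St (n + 1) K where
  carrier := {x | ((Fin.snoc (Fin.tail x.1) (x.1 0) : Fin (n + 1) → K),
    (Fin.snoc (Fin.tail x.2) (x.2 0) : Fin (n + 1) → K)) ∈ L}
  add_mem' := by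
    intro a b ha hb
    refine mem_of (L.add_mem ha hb) ?_ ?_ <;>
      (ext j; refine Fin.lastCases ?_ (fun j => ?_) j <;> simp [Fin.tail])
  zero_mem' := by
    refine mem_of L.zero_mem ?_ ?_ <;>
      (ext j; refine Fin.lastCases ?_ (fun j => ?_) j <;> simp [Fin.tail])
  smul_mem' := by
    intro c a ha
    refine mem_of (L.smul_mem c ha) ?_ ?_ <;>
      (ext j; refine Fin.lastCases ?_ (fun j => ?_) j <;> simp [Fin.tail])

/-- The terminal `0` becomes an interior vertex. -/
def cl (L : St (n + 1) K) : St n K where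
  carrier := {x | ∃ a : K, ((Fin.cons a x.1 : Fin (n + 1) → K), (Fin.cons 0 x.2 : Fin (n + 1) → K)) ∈ L}
  add_mem' := by
    rintro a b ⟨u, ha⟩ ⟨v, hb⟩
    refine ⟨u + v, mem_of (L.add_mem ha hb) ?_ ?_⟩ <;>
      (ext j; refine Fin.cases ?_ (fun j => ?_) j <;> simp)
  zero_mem' := by
    refine ⟨0, mem_of L.zero_mem ?_ ?_⟩ <;>
      (ext j; refine Fin.cases ?_ (fun j => ?_) j <;> simp)
  smul_mem' := by
    rintro c a ⟨u, ha⟩
    refine ⟨c * u, mem_of (L.smul_mem c ha) ?_ ?_⟩ <;>
      (ext j; refine Fin.cases ?_ (fun j => ?_) j <;> simp)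

/-- Closing the terminal `0` is regular: the potential of `0` is determined. -/
def clR (L : St (n + 1) K) : Prop :=
  ∀ a : K, ((Fin.cons a 0 : Fin (n + 1) → K), (0 : Fin (n + 1) → K)) ∈ L → a = 0

/-- The last terminal is identified with the terminal `0`. -/
def mg (L : St (n + 2) K) : St (n + 1) K where
  carrier := {x | ∃ c : K, ((Fin.snoc x.1 (x.1 0) : Fin (n + 2) → K),
    (Fin.snoc (x.2 - Pi.single 0 c) c : Fin (n + 2) → K)) ∈ L}
  add_mem' := by
    rintro a b ⟨u, ha⟩ ⟨v, hb⟩
    refine ⟨u + v, mem_of (L.add_mem ha hb) ?_ ?_⟩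
    · ext j
      refine Fin.lastCases ?_ (fun j => ?_) j <;> simp
    · ext j
      refine Fin.lastCases ?_ (fun j => ?_) j
      · simp
      · simp only [Prod.snd_add, Pi.add_apply, Fin.snoc_castSucc, Pi.sub_apply, Pi.single_add]
        ring
  zero_mem' := by
    refine ⟨0, mem_of L.zero_mem ?_ ?_⟩ <;>
      (ext j; refine Fin.lastCases ?_ (fun j => ?_) j <;> simp)
  smul_mem' := by
    rintro c a ⟨u, ha⟩
    refine ⟨c * u, mem_of (L.smul_mem c ha) ?_ ?_⟩
    · ext j
      refine Fin.lastCases ?_ (fun j => ?_) j <;> simp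
    · ext j
      refine Fin.lastCases ?_ (fun j => ?_) j
      · simp
      · simp only [Prod.smul_snd, Pi.smul_apply, Fin.snoc_castSucc, Pi.sub_apply, smul_eq_mul, mul_sub]
        congr 1
        rw [← smul_eq_mul, ← smul_eq_mul, ← Pi.smul_apply, ← Pi.single_smul]

/-- The identification is regular: there is no current around the new face. -/
def mgR (L : St (n + 2) K) : Prop :=
  ∀ c : K, ((0 : Fin (n + 2) → K), (Fin.snoc (-Pi.single 0 c) c : Fin (n + 2) → K)) ∈ L → c = 0

/-- Two networks are glued along their terminals `0`; the new terminals are those of the first one,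
followed by the terminals `1, …, m` of the second one. -/
def wd (L : St (n + 1) K) (M : St (m + 1) K) : St (n + 1 + m) K where
  carrier := {x | ∃ c : K, ((fun j => x.1 (Fin.castAdd m j) : Fin (n + 1) → K),
      ((fun j => x.2 (Fin.castAdd m j)) - Pi.single 0 c : Fin (n + 1) → K)) ∈ L ∧
    ((Fin.cons (x.1 (Fin.castAdd m 0)) (fun j => x.1 (Fin.natAdd (n + 1) j)) : Fin (m + 1) → K),
      (Fin.cons c (fun j => x.2 (Fin.natAdd (n + 1) j)) : Fin (m + 1) → K)) ∈ M}
  add_mem' := by
    rintro a b ⟨u, ha, ha'⟩ ⟨v, hb, hb'⟩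
    refine ⟨u + v, mem_of (L.add_mem ha hb) rfl ?_,
      mem_of (M.add_mem ha' hb') ?_ ?_⟩
    · ext j
      simp only [Prod.snd_add, Pi.add_apply, Pi.sub_apply, Pi.single_add]
      ring
    · ext j
      refine Fin.cases ?_ (fun j => ?_) j <;> simp
    · ext j
      refine Fin.cases ?_ (fun j => ?_) j <;> simp
  zero_mem' := by
    refine ⟨0, mem_of L.zero_mem rfl ?_,
      mem_of M.zero_mem ?_ ?_⟩
    · ext j
      simp
    · ext j
      refine Fin.cases ?_ (fun j => ?_) j <;> simp
    · ext j
      refine Fin.cases ?_ (fun j => ?_) j <;> simp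
  smul_mem' := by
    rintro c a ⟨u, ha, ha'⟩
    refine ⟨c * u, mem_of (L.smul_mem c ha) rfl ?_,
      mem_of (M.smul_mem c ha') ?_ ?_⟩
    · ext j
      simp only [Prod.smul_snd, Pi.smul_apply, Pi.sub_apply, smul_eq_mul, mul_sub]
      congr 1
      rw [← smul_eq_mul, ← smul_eq_mul, ← Pi.smul_apply, ← Pi.single_smul]
    · ext j
      refine Fin.cases ?_ (fun j => ?_) j <;> simp
    · ext j
      refine Fin.cases ?_ (fun j => ?_) j <;> simp

/-- The last terminal and the terminal `0` change places. -/
def cr (L : St (n + 2) K) : St (n + 2) K where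
  carrier := {x | (x.1 ∘ Equiv.swap (Fin.last _) 0, x.2 ∘ Equiv.swap (Fin.last _) 0) ∈ L}
  add_mem' := fun ha hb => L.add_mem ha hb
  zero_mem' := L.zero_mem
  smul_mem' := fun c _ ha => L.smul_mem c ha

/-- A resistance `r` in front of the terminal `0`. -/
def spk (r : K) (L : St (n + 1) K) : St (n + 1) K where
  carrier := {x | (x.1 - Pi.single 0 (r * x.2 0), x.2) ∈ L}
  add_mem' := by
    intro a b ha hb
    refine mem_of (L.add_mem ha hb) ?_ rfl
    ext j
    simp only [Prod.fst_add, Prod.snd_add, Pi.add_apply, Pi.sub_apply, mul_add, Pi.single_add]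
    ring
  zero_mem' := by
    refine mem_of L.zero_mem ?_ rfl
    ext j
    simp
  smul_mem' := by
    intro c a ha
    refine mem_of (L.smul_mem c ha) ?_ rfl
    ext j
    simp only [Prod.smul_fst, Prod.smul_snd, Pi.smul_apply, Pi.sub_apply, smul_eq_mul, mul_sub]
    congr 1
    rw [← smul_eq_mul, ← Pi.smul_apply, ← Pi.single_smul, smul_eq_mul]
    congr 1
    ring

/-- A resistance `r` in front of the last terminal. -/
def spkl (r : K) (L : St (n + 1) K) : St (n + 1) K where
  carrier := {x | (x.1 - Pi.single (Fin.last n) (r * x.2 (Fin.last n)), x.2) ∈ L}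
  add_mem' := by
    intro a b ha hb
    refine mem_of (L.add_mem ha hb) ?_ rfl
    ext j
    simp only [Prod.fst_add, Prod.snd_add, Pi.add_apply, Pi.sub_apply, mul_add, Pi.single_add]
    ring
  zero_mem' := by
    refine mem_of L.zero_mem ?_ rfl
    ext j
    simp
  smul_mem' := by
    intro c a ha
    refine mem_of (L.smul_mem c ha) ?_ rfl
    ext j
    simp only [Prod.smul_fst, Prod.smul_snd, Pi.smul_apply, Pi.sub_apply, smul_eq_mul, mul_sub]
    congr 1
    rw [← smul_eq_mul, ← Pi.smul_apply, ← Pi.single_smul, smul_eq_mul]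
    congr 1
    ring

/-- Mirror image for three terminals: the terminals `0` and `1` change places. -/
def rl (L : St 3 K) : St 3 K where
  carrier := {x | (![x.1 1, x.1 0, x.1 2], ![x.2 1, x.2 0, x.2 2]) ∈ L}
  add_mem' := by
    intro a b ha hb
    refine mem_of (L.add_mem ha hb) ?_ ?_ <;>
      (ext j; fin_cases j <;> simp)
  zero_mem' := by
    refine mem_of L.zero_mem ?_ ?_ <;>
      (ext j; fin_cases j <;> simp)
  smul_mem' := by
    intro c a ha
    refine mem_of (L.smul_mem c ha) ?_ ?_ <;>
      (ext j; fin_cases j <;> simp)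

/-- `n` isolated terminals. -/
def isoS (n : ℕ) (K : Type) [Field K] : St n K where
  carrier := {x | x.2 = 0}
  add_mem' := by
    intro a b ha hb
    show a.2 + b.2 = 0
    rw [show a.2 = 0 from ha, show b.2 = 0 from hb, add_zero]
  zero_mem' := rfl
  smul_mem' := by
    intro c a ha
    show c • a.2 = 0
    rw [show a.2 = 0 from ha, smul_zero]

/-- The center tap: the terminal `2` is the center of the winding `0 - 1`, with a shunt `s`. -/
def ctS (s : K) : St 3 K where
  carrier := {x | x.1 0 + x.1 1 = 2 * x.1 2 ∧ x.2 0 + x.2 1 + x.2 2 = 0 ∧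
    x.2 0 - x.2 1 = s * (x.1 0 - x.1 2)}
  add_mem' := by
    rintro a b ⟨h1, h2, h3⟩ ⟨h4, h5, h6⟩
    refine ⟨?_, ?_, ?_⟩ <;> simp only [Prod.fst_add, Prod.snd_add, Pi.add_apply]
    · linear_combination h1 + h4
    · linear_combination h2 + h5
    · linear_combination h3 + h6
  zero_mem' := by simp
  smul_mem' := by
    rintro c a ⟨h1, h2, h3⟩
    refine ⟨?_, ?_, ?_⟩ <;> simp only [Prod.smul_fst, Prod.smul_snd, Pi.smul_apply, smul_eq_mul]
    · linear_combination c * h1
    · linear_combination c * h2
    · linear_combination c * h3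

/-- All conductances are multiplied by `c`. -/
def scl (c : K) (L : St n K) : St n K where
  carrier := {x | (c • x.1, x.2) ∈ L}
  add_mem' := by
    intro a b ha hb
    exact mem_of (L.add_mem ha hb) (smul_add _ _ _).symm rfl
  zero_mem' := by
    exact mem_of L.zero_mem (smul_zero _).symm rfl
  smul_mem' := by
    intro d a ha
    exact mem_of (L.smul_mem d ha) (smul_comm _ _ _) rfl

end

/-! ### Families of functionals -/

/-- A family of functionals: for every field a functional on the functions of the states. -/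
abbrev Fam (n : ℕ) : Type 1 := (F : FF) → (St n F.K → ℤ) → ℤ

/-- Free edge between the last terminal and the terminal `0`. -/
noncomputable def Fam.sh {n : ℕ} (ν : Fam (n + 2)) : Fam (n + 2) :=
  fun F f => ν F fun L => ∑ y : F.K, f (PLN.sh y L)

/-- Forward rotation. -/
def Fam.rf {n : ℕ} (ν : Fam (n + 1)) : Fam (n + 1) := fun F f => ν F fun L => f (PLN.rf L)

/-- Backward rotation. -/
def Fam.rb {n : ℕ} (ν : Fam (n + 1)) : Fam (n + 1) := fun F f => ν F fun L => f (PLN.rb L)

open Classical in
/-- Close the terminal `0`. -/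
noncomputable def Fam.cl {n : ℕ} (ν : Fam (n + 1)) : Fam n :=
  fun F f => ν F fun L => if clR L then f (PLN.cl L) else 0

open Classical in
/-- Identify the last terminal and the terminal `0`. -/
noncomputable def Fam.mg {n : ℕ} (ν : Fam (n + 2)) : Fam (n + 1) :=
  fun F f => ν F fun L => if mgR L then f (PLN.mg L) else 0

/-- Gluing along the terminals `0`. -/
def Fam.wd {n m : ℕ} (ν : Fam (n + 1)) (μ : Fam (m + 1)) : Fam (n + 1 + m) :=
  fun F f => ν F fun L => μ F fun M => f (PLN.wd L M)

/-- Mirror image. -/
def Fam.rl (ν : Fam 3) : Fam 3 := fun F f => ν F fun L => f (PLN.rl L)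

/-- The last terminal and the terminal `0` change places. -/
def Fam.cr {n : ℕ} (ν : Fam (n + 2)) : Fam (n + 2) := fun F f => ν F fun L => f (PLN.cr L)

/-- Free resistance in front of the terminal `0`. -/
noncomputable def Fam.sp {n : ℕ} (ν : Fam (n + 1)) : Fam (n + 1) :=
  fun F f => ν F fun L => ∑ r : F.K, f (PLN.spk r L)

/-- Free resistance in front of the last terminal. -/
noncomputable def Fam.spl {n : ℕ} (ν : Fam (n + 1)) : Fam (n + 1) :=
  fun F f => ν F fun L => ∑ r : F.K, f (PLN.spkl r L)

/-- Isolated terminals. -/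
def isoF (n : ℕ) : Fam n := fun F f => f (isoS n F.K)

/-- The center tap with a free shunt. -/
noncomputable def ctF : Fam 3 := fun F f => ∑ s : F.K, f (ctS s)

/-- The `ℤ[q]`-combinations of a set of families, with denominators `q` and `q - 1`. -/
inductive SpM {n : ℕ} (B : Set (Fam n)) : Fam n → Prop
  | base {ν : Fam n} : ν ∈ B → SpM B ν
  | zero : SpM B fun _ _ => 0
  | add {ν μ : Fam n} : SpM B ν → SpM B μ → SpM B fun F f => ν F f + μ F f
  | mulp (c : Polynomial ℤ) {ν : Fam n} : SpM B ν → SpM B fun F f => c.eval F.q * ν F f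
  | div {ν : Fam n} : (SpM B fun F f => F.q * (F.q - 1) * ν F f) → SpM B ν

/-! ### Planar networks -/

/-- The boundary term of the terminals `tm` and the gaps `gp`. -/
noncomputable def bt {n : ℕ} {V D : Type} (tm : Fin n → V) (gp : Fin n → D) (v : V) (d : D) : ℤ :=
  ∑ j, kd (gp j) d * (kd (tm j) v - kd (tm (finRotate n j)) v)

/-- The vertices `a` and `b` are joined by an edge. -/
def Adj1 {V E : Type} (s t : E → V) (a b : V) : Prop := ∃ e, (s e = a ∧ t e = b) ∨ (s e = b ∧ t e = a)

/-- A planar network with `n` terminals: a graph `s, t : E → V`, the terminals `tm`, the dual graph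
`l, r : E → D` (the faces to the left and to the right of an edge) and the faces `gp j` between the
terminals `j` and `j + 1` at the boundary. -/
structure Net (n : ℕ) where
  /-- vertices -/
  V : Type
  /-- edges -/
  E : Type
  /-- faces -/
  D : Type
  [fV : Fintype V]
  [fE : Fintype E]
  [fD : Fintype D]
  s : E → V
  t : E → V
  l : E → D
  r : E → D
  /-- terminals -/
  tm : Fin n → V
  /-- gaps -/
  gp : Fin n → D
  inj : Function.Injective tm
  /-- the boundary of a face -/
  chain : ∀ (v : V) (d : D), ∑ e, ic s t e v * ic l r e d + bt tm gp v d = 0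
  /-- Euler's formula -/
  euler : Fintype.card V + Fintype.card D = Fintype.card E + n + 1
  /-- the dual graph is connected -/
  dconn : ∀ a b : D, Relation.ReflTransGen (Adj1 l r) a b

attribute [instance] Net.fV Net.fE Net.fD

namespace Net

variable {n : ℕ} (N : Net n) {K : Type} [Field K]

/-- The current which flows out of the vertex `v` along the edges. -/
noncomputable def lp (y : N.E → K) (φ : N.V → K) (v : N.V) : K :=
  ∑ e, y e * (φ (N.s e) - φ (N.t e)) * ((ic N.s N.t e v : ℤ) : K)

/-- The state. -/
noncomputable def Rel (y : N.E → K) : St n K where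
  carrier := {x | ∃ φ : N.V → K, x.1 = φ ∘ N.tm ∧
    ∀ v, N.lp y φ v = ∑ j, ((kd (N.tm j) v : ℤ) : K) * x.2 j}
  add_mem' := by
    rintro a b ⟨φ, h1, h2⟩ ⟨ψ, h3, h4⟩
    refine ⟨φ + ψ, ?_, fun v => ?_⟩
    · rw [Prod.fst_add, h1, h3]
      rfl
    · have h5 : N.lp y (φ + ψ) v = N.lp y φ v + N.lp y ψ v := by
        simp only [lp, Pi.add_apply, ← Finset.sum_add_distrib]
        exact Finset.sum_congr rfl fun e _ => by ring
      rw [h5, h2, h4, ← Finset.sum_add_distrib]
      refine Finset.sum_congr rfl fun j _ => ?_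
      rw [Prod.snd_add, Pi.add_apply, mul_add]
  zero_mem' := ⟨0, rfl, fun v => by simp [lp]⟩
  smul_mem' := by
    rintro c a ⟨φ, h1, h2⟩
    refine ⟨c • φ, ?_, fun v => ?_⟩
    · rw [Prod.smul_fst, h1]
      rfl
    · have h5 : N.lp y (c • φ) v = c * N.lp y φ v := by
        simp only [lp, Pi.smul_apply, smul_eq_mul, Finset.mul_sum]
        exact Finset.sum_congr rfl fun e _ => by ring
      rw [h5, h2, Finset.mul_sum]
      refine Finset.sum_congr rfl fun j _ => ?_
      rw [Prod.smul_snd, Pi.smul_apply, smul_eq_mul]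
      ring

/-- The potentials of the interior vertices are determined. -/
def Reg (y : N.E → K) : Prop := ∀ φ : N.V → K, φ ∘ N.tm = 0 → (∀ v, N.lp y φ v = 0) → φ = 0

open Classical in
/-- The family of functionals of a network. -/
noncomputable def fn (N : Net n) : Fam n :=
  fun F f => ∑ y : N.E → F.K, if N.Reg y then f (N.Rel y) else 0

/-- No loops, all degrees at most three, the terminals have degree at most `k`. -/
structure OK (k : ℕ) : Prop where
  noloop : ∀ e, N.s e ≠ N.t e
  deg3 : ∀ v, deg N.s N.t v ≤ 3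
  degt : ∀ j, deg N.s N.t (N.tm j) ≤ k

/-- No edge joins two terminals. -/
def Fresh : Prop := ∀ e i j, ¬ (N.s e = N.tm i ∧ N.t e = N.tm j)

end Net

/-- The good families: combinations of the families of the planar networks without loops, with all degrees
at most three, terminals of degree at most one, and no edge between two terminals. -/
def GG (n : ℕ) : Fam n → Prop := SpM {ν | ∃ N : Net n, N.OK 1 ∧ N.Fresh ∧ ν = N.fn}

/-- The good functions of finite fields. -/
def Scal (s : FF → ℤ) : Prop := GG 1 fun F f => s F * f (isoS 1 F.K)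

end Pool.Agent.PLN
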