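import Pool.Agent.PLN.Clo
import Pool.Agent.PLN.Itf0
import Pool.Agent.KGU.Final

/-!
# Planar networks: closed networks and Kirchhoff polynomials of planar graphs
-/

set_option autoImplicit false

open scoped BigOperators

namespace Pool.Agent.PLN

open Pool.Agent.KG

/-- The `ℤ[q]`-combinations of a set of functions, with denominators `q` and `q - 1`. -/
inductive SpF (B : Set (FF → ℤ)) : (FF → ℤ) → Prop
  | base {f : FF → ℤ} : f ∈ B → SpF B f
  | one : SpF B fun _ => 1
  | add {f g : FF → ℤ} : SpF B f → SpF B g → SpF B fun F => f F + g F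
  | mulp (c : Polynomial ℤ) {f : FF → ℤ} : SpF B f → SpF B fun F => c.eval F.q * f F
  | div {f : FF → ℤ} : (SpF B fun F => F.q * (F.q - 1) * f F) → SpF B f

/-- The functions `nk` of the planar multigraphs without loops of maximal degree three. -/
def PlanarLe3 : Set (FF → ℤ) :=
  {f | ∃ (n m k : ℕ) (s t : Fin m → Fin n) (l r : Fin m → Fin k), (∀ v, deg s t v ≤ 3) ∧
    (∀ e, s e ≠ t e) ∧ Dual s t l r ∧ f = fun F => nk s t F.F}

private theorem KIRR_cast {V E : Type} {K : Type} [Field K] (s t : E → V) (e : E) (v : V) :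
    ((ic s t e v : ℤ) : K) =
      open Classical in ((if s e = v then 1 else 0) - (if t e = v then 1 else 0) : K) := by
  unfold ic kd
  push_cast
  rfl

private theorem KIRR_sum {V E : Type} [Fintype V] {K : Type} [Field K] (s t : E → V) (e : E)
    (φ : V → K) : ∑ v, ((ic s t e v : ℤ) : K) * φ v = φ (s e) - φ (t e) := by
  classical
  simp only [KIRR_cast, sub_mul, Finset.sum_sub_distrib, ite_mul, one_mul, zero_mul,
    Finset.sum_ite_eq, Finset.mem_univ, if_true]

/-- the bijection between `V` and `Option {v // v ≠ a}` -/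
private noncomputable def KIRR_f {V : Type} (a : V) : V ≃ Option {v : V // v ≠ a} :=
  open Classical in
  { toFun := fun v => if h : v = a then none else some ⟨v, h⟩
    invFun := fun o => o.elim a (fun v => v.1)
    left_inv := fun v => by
      by_cases h : v = a
      · simp [h]
      · simp [h]
    right_inv := fun o => by
      rcases o with _ | v
      · simp
      · simp [v.2] }

private theorem KIRR_f_some {V : Type} (a : V) (x : V) (v : {v : V // v ≠ a}) :
    KIRR_f a x = some v ↔ x = v.1 := by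
  rw [← Equiv.eq_symm_apply]
  exact Iff.rfl

private theorem KIRR_inc {V E : Type} {K : Type} [Field K] (s t : E → V) (a : V) (e : E)
    (v : {v : V // v ≠ a}) :
    inc (K := K) (KIRR_f a ∘ s) (KIRR_f a ∘ t) e v = ((ic s t e v.1 : ℤ) : K) := by
  classical
  rw [KIRR_cast]
  unfold inc
  simp only [Function.comp_apply, KIRR_f_some]

private theorem KIRR_split {V : Type} [Fintype V] {K : Type} [AddCommMonoid K] (a : V)
    [Fintype {v : V // v ≠ a}] (g : V → K) : ∑ v, g v = g a + ∑ v : {v : V // v ≠ a}, g v.1 := by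
  classical
  rw [← Finset.add_sum_erase Finset.univ g (Finset.mem_univ a)]
  congr 1
  refine (Finset.sum_subtype _ (fun v => ?_) g)
  simp

/-- MODULE KIRR: the regular conductances of a closed network.  Ground `tm 0`: choose `V ≃ Option n'`,
`n' = {v // v ≠ tm 0}`; `kir_eq_det`; `det ≠ 0` iff only `0` is in the kernel of the reduced Laplacian; the
equation at the ground vertex follows from the others (the sum of all `lp` is zero). -/
theorem Reg_iff_kir (N : Net 1) {K : Type} [Field K] (y : N.E → K) : N.Reg y ↔ kir N.s N.t y ≠ 0 := by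
  classical
  set a : N.V := N.tm 0 with ha
  have h1 : kir N.s N.t y = (lap (KIRR_f a ∘ N.s) (KIRR_f a ∘ N.t) y).det := by
    rw [← kir_eq_det, kir_eq_tht, kir_eq_tht,
      tht_iso (KIRR_f a) (Equiv.refl N.E) N.s N.t (KIRR_f a ∘ N.s) (KIRR_f a ∘ N.t)
        (fun _ => rfl) (fun _ => rfl)]
    rfl
  have h2 : ∀ φ : N.V → K, φ a = 0 → ∀ u : {v : N.V // v ≠ a},
      ((lap (KIRR_f a ∘ N.s) (KIRR_f a ∘ N.t) y).mulVec fun v => φ v.1) u = N.lp y φ u.1 := by
    intro φ hφ u
    have h3 : ∀ e, ∑ v : {v : N.V // v ≠ a}, ((ic N.s N.t e v.1 : ℤ) : K) * φ v.1 =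
        φ (N.s e) - φ (N.t e) := by
      intro e
      rw [← KIRR_sum N.s N.t e φ, KIRR_split a, hφ, mul_zero, zero_add]
    show ∑ v : {v : N.V // v ≠ a}, (∑ e, y e * inc (KIRR_f a ∘ N.s) (KIRR_f a ∘ N.t) e u *
      inc (KIRR_f a ∘ N.s) (KIRR_f a ∘ N.t) e v) * φ v.1 = _
    unfold Net.lp
    simp only [KIRR_inc, Finset.sum_mul]
    rw [Finset.sum_comm]
    refine Finset.sum_congr rfl fun e _ => ?_
    rw [← h3 e, Finset.mul_sum, Finset.sum_mul]
    exact Finset.sum_congr rfl fun v _ => by ring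
  have h3 : ∀ φ : N.V → K, ∑ v, N.lp y φ v = 0 := by
    intro φ
    unfold Net.lp
    rw [Finset.sum_comm]
    refine Finset.sum_eq_zero fun e _ => ?_
    rw [← Finset.mul_sum]
    have h4 := KIRR_sum N.s N.t e (fun _ => (1 : K))
    simp only [mul_one, sub_self] at h4
    rw [h4, mul_zero]
  rw [h1, ne_eq, ← Matrix.exists_mulVec_eq_zero_iff]
  constructor
  · rintro h ⟨x, hx, hx'⟩
    apply hx
    set φ : N.V → K := fun v => if h : v = a then 0 else x ⟨v, h⟩ with hφ
    have hφa : φ a = 0 := by simp [hφ]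
    have hφx : (fun v : {v : N.V // v ≠ a} => φ v.1) = x := by
      funext v
      simp only [hφ]
      rw [dif_neg v.2]
    have h5 : ∀ v : {v : N.V // v ≠ a}, N.lp y φ v.1 = 0 := by
      intro v
      rw [← h2 φ hφa v, hφx, hx']
      rfl
    have h6 : N.lp y φ a = 0 := by
      have h7 := h3 φ
      rw [KIRR_split a, Finset.sum_eq_zero (fun v _ => h5 v), add_zero] at h7
      exact h7
    have h8 := h φ (by
      funext j
      rw [Subsingleton.elim j 0]
      exact hφa) (fun v => by
      by_cases hv : v = a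
      · rw [hv]
        exact h6
      · exact h5 ⟨v, hv⟩)
    rw [← hφx, h8]
    rfl
  · intro h φ hφ hl
    have hφa : φ a = 0 := congrFun hφ 0
    by_contra hne
    apply h
    refine ⟨fun v => φ v.1, ?_, ?_⟩
    · intro h0
      apply hne
      funext v
      by_cases hv : v = a
      · rw [hv, hφa]
        rfl
      · exact congrFun h0 ⟨v, hv⟩
    · funext u
      rw [h2 φ hφa u, hl]
      rfl

private theorem TREE_exit {V E : Type} (s t : E → V) (W : Finset V) {a b : V} (ha : a ∈ W)
    (h : Relation.ReflTransGen (Adj1 s t) a b) :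
    b ∈ W ∨ ∃ x ∈ W, ∃ z, z ∉ W ∧ Adj1 s t x z := by
  induction h with
  | refl => exact Or.inl ha
  | tail _ hbc ih =>
    rename_i b c _
    rcases ih with ih | ih
    · by_cases hc : c ∈ W
      · exact Or.inl hc
      · exact Or.inr ⟨b, ih, c, hc, hbc⟩
    · exact Or.inr ih

private theorem TREE_grow {V E : Type} [Fintype V] [Fintype E] (s t : E → V) (a : V)
    (h : ∀ a b : V, Relation.ReflTransGen (Adj1 s t) a b) (k : ℕ) (hk : k < Fintype.card V) :
    ∃ (W : Finset V) (T : Finset E), W.card = k + 1 ∧ T.card ≤ k ∧ a ∈ W ∧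
      ∀ v ∈ W, Relation.ReflTransGen
        (fun a b => ∃ e ∈ T, (s e = a ∧ t e = b) ∨ (s e = b ∧ t e = a)) a v := by
  classical
  induction k with
  | zero =>
    refine ⟨{a}, ∅, rfl, le_refl _, Finset.mem_singleton_self a, fun v hv => ?_⟩
    rw [Finset.mem_singleton.1 hv]
  | succ k ih =>
    obtain ⟨W, T, h1, h2, h3, h4⟩ := ih (by omega)
    have h5 : ∃ b, b ∉ W := by
      by_contra hcon
      push Not at hcon
      have h6 : W = Finset.univ := Finset.eq_univ_of_forall hcon
      rw [h6, Finset.card_univ] at h1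
      omega
    obtain ⟨b, hb⟩ := h5
    obtain ⟨x, hx, z, hz, e, he⟩ := (TREE_exit s t W h3 (h a b)).resolve_left hb
    refine ⟨insert z W, insert e T, ?_, ?_, Finset.mem_insert_of_mem h3, fun v hv => ?_⟩
    · rw [Finset.card_insert_of_notMem hz, h1]
    · exact (Finset.card_insert_le _ _).trans (Nat.succ_le_succ h2)
    · have h7 : ∀ v ∈ W, Relation.ReflTransGen
          (fun a b => ∃ e' ∈ insert e T, (s e' = a ∧ t e' = b) ∨ (s e' = b ∧ t e' = a)) a v := by
        intro v hv
        refine Relation.ReflTransGen.mono ?_ _ _ (h4 v hv)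
        rintro c d ⟨e', he', h8⟩
        exact ⟨e', Finset.mem_insert_of_mem he', h8⟩
      rcases Finset.mem_insert.1 hv with rfl | hv
      · exact (h7 x hx).tail ⟨e, Finset.mem_insert_self _ _, he⟩
      · exact h7 v hv

/-- MODULE TREE: a connected graph has a spanning tree (`SimpleGraph.Connected.exists_isTree_le`, or a
connected set of edges of minimal cardinality). -/
theorem exists_tree {V E : Type} [Fintype V] [Fintype E] [Nonempty V] (s t : E → V)
    (h : ∀ a b : V, Relation.ReflTransGen (Adj1 s t) a b) : ∃ T, IsTree s t T := by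
  classical
  obtain ⟨a⟩ := (inferInstance : Nonempty V)
  have hV : 0 < Fintype.card V := Fintype.card_pos_iff.2 ⟨a⟩
  obtain ⟨W, T, h1, h2, h3, h4⟩ := TREE_grow s t a h (Fintype.card V - 1) (by omega)
  have hW : W = Finset.univ := by
    apply Finset.eq_univ_of_card
    omega
  have hs : Std.Symm (fun a b => ∃ e ∈ T, (s e = a ∧ t e = b) ∨ (s e = b ∧ t e = a)) :=
    ⟨fun c d ⟨e, he, h5⟩ => ⟨e, he, h5.symm⟩⟩
  have h5 : ∀ u v : V, Relation.ReflTransGen
      (fun a b => ∃ e ∈ T, (s e = a ∧ t e = b) ∨ (s e = b ∧ t e = a)) u v := by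
    intro u v
    have hu := h4 u (by rw [hW]; exact Finset.mem_univ u)
    have hv := h4 v (by rw [hW]; exact Finset.mem_univ v)
    exact (Relation.ReflTransGen.stdSymm.symm _ _ hu).trans hv
  have h6 := card_le_of_conn s t T h5
  exact ⟨T, by omega, h5⟩

private theorem PLE_kd {X Y : Type} (f : X ≃ Y) (a b : X) : kd (f a) (f b) = kd a b := by
  classical
  unfold kd
  simp only [f.injective.eq_iff]

/-- MODULE PLE: for a closed network without loops and with degrees at most three the function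
`nk` is in `PlanarLe3` (enumerate `V`, `E`, `D` by `Fin`; `nk_iso'`, `deg_iso`, `isTree_iso`; `chain` with
`bt = 0` for one terminal, `euler`, `exists_tree`). -/
theorem net_PlanarLe3 (N : Net 1) (h : N.OK 1) : (fun F : FF => nk N.s N.t F.F) ∈ PlanarLe3 := by
  classical
  have f := Fintype.equivFin N.V
  have g := Fintype.equivFin N.E
  have d := Fintype.equivFin N.D
  have hs : ∀ e, (f ∘ N.s ∘ g.symm) (g e) = f (N.s e) := fun e => by simp
  have ht : ∀ e, (f ∘ N.t ∘ g.symm) (g e) = f (N.t e) := fun e => by simp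
  have hl : ∀ e, (d ∘ N.l ∘ g.symm) (g e) = d (N.l e) := fun e => by simp
  have hr : ∀ e, (d ∘ N.r ∘ g.symm) (g e) = d (N.r e) := fun e => by simp
  refine ⟨Fintype.card N.V, Fintype.card N.E, Fintype.card N.D, f ∘ N.s ∘ g.symm,
    f ∘ N.t ∘ g.symm, d ∘ N.l ∘ g.symm, d ∘ N.r ∘ g.symm, ?_, ?_, ⟨?_, ?_, ?_⟩, ?_⟩
  · intro v
    obtain ⟨u, rfl⟩ := f.surjective v
    rw [deg_iso f g N.s N.t _ _ hs ht]
    exact h.deg3 u
  · intro e hc
    exact h.noloop (g.symm e) (f.injective hc)
  · intro v w
    obtain ⟨u, rfl⟩ := f.surjective v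
    obtain ⟨c, rfl⟩ := d.surjective w
    have h1 := N.chain u c
    have h2 : bt N.tm N.gp u c = 0 := by
      unfold bt
      refine Finset.sum_eq_zero fun j _ => ?_
      have hj : finRotate 1 j = j := Subsingleton.elim _ _
      rw [hj, sub_self, mul_zero]
    rw [h2, add_zero] at h1
    rw [← h1]
    refine (Equiv.sum_comp g _).symm.trans (Finset.sum_congr rfl fun e _ => ?_)
    unfold ic
    rw [hs, ht, hl, hr, PLE_kd, PLE_kd, PLE_kd, PLE_kd]
  · have h1 := N.euler
    simp only [Fintype.card_fin]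
    omega
  · have : Nonempty N.D := ⟨N.gp 0⟩
    obtain ⟨T, hT⟩ := exists_tree N.l N.r N.dconn
    exact ⟨_, (isTree_iso d g N.l N.r _ _ hl hr T).2 hT⟩
  · funext F
    exact (congrFun (KGU.nk_iso' f g N.s N.t _ _ hs ht) F.F).symm

private theorem SPF_congr {B : Set (FF → ℤ)} {f g : FF → ℤ} (h : ∀ F, f F = g F) (hf : SpF B f) :
    SpF B g := by
  have h1 : f = g := funext h
  rwa [← h1]

private theorem SPF_base (N : Net 1) (F : FF) :
    N.fn F (fun _ => 1) = F.q ^ Fintype.card N.E - nk N.s N.t F.F := by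
  classical
  unfold Net.fn nk NK
  have h1 : ∀ y : N.E → F.K, (if N.Reg y then (1 : ℤ) else 0) =
      1 - (if kir N.s N.t y = 0 then 1 else 0) := by
    intro y
    by_cases h : kir N.s N.t y = 0
    · rw [if_pos h, if_neg (fun h2 => (Reg_iff_kir N y).1 h2 h), sub_self]
    · rw [if_neg h, if_pos ((Reg_iff_kir N y).2 h), sub_zero]
  rw [Finset.sum_congr rfl fun y _ => h1 y, Finset.sum_sub_distrib, Finset.sum_const,
    Finset.sum_boole]
  congr 1
  · rw [Finset.card_univ, Fintype.card_fun, nsmul_eq_mul, mul_one]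
    unfold FF.q FinField.q
    rw [Nat.card_eq_fintype_card]
    push_cast
    rfl
  · rw [Nat.card_eq_fintype_card, Fintype.card_subtype]

/-- MODULE SPF.  Induction on `GG 1 ν` for `fun F => ν F (fun _ => 1)`; for a network it is
`q ^ |E| - nk`. -/
theorem SpF_of_GG {ν : Fam 1} (h : GG 1 ν) : SpF PlanarLe3 fun F => ν F fun _ => 1 := by
  unfold GG at h
  induction h with
  | base hν =>
    obtain ⟨N, hN, _, rfl⟩ := hν
    have h1 : SpF PlanarLe3 fun F : FF =>
        (Polynomial.X ^ Fintype.card N.E : Polynomial ℤ).eval F.q * 1 := SpF.mulp _ SpF.one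
    have h2 : SpF PlanarLe3 fun F : FF => (-1 : Polynomial ℤ).eval F.q * nk N.s N.t F.F :=
      SpF.mulp _ (SpF.base (net_PlanarLe3 N hN))
    refine SPF_congr (fun F => ?_) (SpF.add h1 h2)
    rw [SPF_base, Polynomial.eval_pow, Polynomial.eval_X, Polynomial.eval_neg, Polynomial.eval_one]
    ring
  | zero =>
    refine SPF_congr (fun F => ?_) (SpF.mulp 0 (SpF.one (B := PlanarLe3)))
    rw [Polynomial.eval_zero, zero_mul]
  | add _ _ h1 h2 => exact SpF.add h1 h2
  | mulp c _ h1 => exact SpF.mulp c h1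
  | div _ h1 => exact SpF.div h1

theorem SpF_of_Scal {s : FF → ℤ} (h : Scal s) : SpF PlanarLe3 s := by
  have h1 := SpF_of_GG h
  simpa using h1

end Pool.Agent.PLN
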