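import Pool.Agent.PLN.Refr

/-!
# Planar networks: degrees of the operations
-/

set_option autoImplicit false

open scoped BigOperators

namespace Pool.Agent.PLN

open Pool.Agent.KG

variable {n m k : ℕ}

private theorem ND_refl_tm (N : Net 3) (j : Fin 3) :
    N.refl.tm j = N.tm ((Equiv.swap 0 1 : Fin 3 ≃ Fin 3) j) := by
  fin_cases j <;> rfl

private theorem ND_le1 {V W E : Type} [Finite E] (s t : E → V) (f : V → W) (w : W) (a : V)
    (h : ∀ x, f x = w → x = a) : deg (fun e => f (s e)) (fun e => f (t e)) w ≤ deg s t a :=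
  add_le_add (Set.ncard_le_ncard (fun _ he => h _ he) (Set.toFinite _))
    (Set.ncard_le_ncard (fun _ he => h _ he) (Set.toFinite _))

private theorem ND_le2 {V W E : Type} [Finite E] (s t : E → V) (f : V → W) (w : W) (a b : V)
    (h : ∀ x, f x = w → x = a ∨ x = b) :
    deg (fun e => f (s e)) (fun e => f (t e)) w ≤ deg s t a + deg s t b := by
  have key : ∀ r : E → V, {e | f (r e) = w}.ncard ≤ {e | r e = a}.ncard + {e | r e = b}.ncard :=
    fun r => (Set.ncard_le_ncard (t := {e | r e = a} ∪ {e | r e = b}) (fun _ he => h _ he)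
      (Set.toFinite _)).trans (Set.ncard_union_le _ _)
  have h1 := key s
  have h2 := key t
  unfold deg
  exact (add_le_add h1 h2).trans (by omega)

private theorem ND_zero {V W E : Type} (s t : E → V) (f : V → W) (w : W)
    (h : ∀ x, f x ≠ w) : deg (fun e => f (s e)) (fun e => f (t e)) w = 0 := by
  unfold deg
  simp [h]

private theorem ND_sum {W E E' : Type} [Finite E] [Finite E'] (s t : E → W) (s' t' : E' → W) (w : W) :
    deg (Sum.elim s s') (Sum.elim t t') w ≤ deg s t w + deg s' t' w := by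
  have key : ∀ (r : E → W) (r' : E' → W),
      {e | Sum.elim r r' e = w}.ncard ≤ {e | r e = w}.ncard + {e | r' e = w}.ncard := by
    intro r r'
    have h1 : {e | Sum.elim r r' e = w} = Sum.inl '' {e | r e = w} ∪ Sum.inr '' {e | r' e = w} := by
      ext e
      cases e <;> simp
    rw [h1, ← Set.ncard_image_of_injective {e | r e = w} (Sum.inl_injective (β := E')),
      ← Set.ncard_image_of_injective {e | r' e = w} (Sum.inr_injective (α := E))]
    exact Set.ncard_union_le _ _
  have h1 := key s s'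
  have h2 := key t t'
  unfold deg
  omega

/-- MODULE ND1: rotations and mirror image. -/
theorem OK_rf {N : Net (n + 1)} (h : N.OK k) : N.rf.OK k := by
  exact ⟨h.noloop, h.deg3, fun j => h.degt _⟩

theorem Fresh_rf {N : Net (n + 1)} (h : N.Fresh) : N.rf.Fresh := by
  exact fun e i j => h e _ _

theorem OK_rb {N : Net (n + 1)} (h : N.OK k) : N.rb.OK k := by
  exact ⟨h.noloop, h.deg3, fun j => h.degt _⟩

theorem Fresh_rb {N : Net (n + 1)} (h : N.Fresh) : N.rb.Fresh := by
  exact fun e i j => h e _ _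

theorem OK_refl {N : Net 3} (h : N.OK k) : N.refl.OK k := by
  refine ⟨h.noloop, h.deg3, fun j => ?_⟩
  rw [ND_refl_tm]
  exact h.degt _

theorem Fresh_refl {N : Net 3} (h : N.Fresh) : N.refl.Fresh := by
  intro e i j
  rw [ND_refl_tm, ND_refl_tm]
  exact h e _ _

/-- MODULE ND2.  `tm last ≠ tm 0`; the degrees of these two are one more (`KG.deg_ae`). -/
theorem OK_edge {N : Net (n + 2)} (h : N.OK 1) : N.edge.OK 2 := by
  classical
  have hne := mg_ne N
  have hd : ∀ v : N.V, deg N.edge.s N.edge.t v =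
      deg N.s N.t v + (if v = N.tm (Fin.last (n + 1)) then 1 else 0) + (if v = N.tm 0 then 1 else 0) :=
    fun v => by
      have h1 := deg_ae N.s N.t (N.tm (Fin.last (n + 1))) (N.tm 0) v
      refine Eq.trans h1 ?_
      congr
  have hle : ∀ v : N.V, deg N.s N.t v ≤ 1 → deg N.edge.s N.edge.t v ≤ 2 := by
    intro v hv
    rw [hd]
    by_cases h1 : v = N.tm 0
    · rw [if_pos h1, if_neg (fun h2 => hne (h1.symm.trans h2))]
      omega
    · rw [if_neg h1]
      split_ifs <;> omega
  have hle3 : ∀ v : N.V, v ≠ N.tm 0 → v ≠ N.tm (Fin.last (n + 1)) → deg N.edge.s N.edge.t v ≤ 3 := by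
    intro v h1 h2
    rw [hd, if_neg h1, if_neg h2]
    exact h.deg3 v
  refine ⟨fun e => ?_, fun v => ?_, fun j => hle _ (h.degt j)⟩
  · cases e with
    | none => exact hne.symm
    | some e => exact h.noloop e
  · by_cases h1 : v = N.tm 0
    · have h2 := hle v (by rw [h1]; exact h.degt 0)
      omega
    · by_cases h2 : v = N.tm (Fin.last (n + 1))
      · have h3 := hle v (by rw [h2]; exact h.degt _)
        omega
      · exact hle3 v h1 h2

/-- MODULE ND3. -/
theorem OK_close {N : Net (n + 2)} (hg : N.gp (Fin.last (n + 1)) ≠ N.gp 0) (h : N.OK k) :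
    (N.close hg).OK k := by
  exact ⟨h.noloop, h.deg3, fun j => h.degt _⟩

theorem Fresh_close {N : Net (n + 2)} (hg : N.gp (Fin.last (n + 1)) ≠ N.gp 0) (h : N.Fresh) :
    (N.close hg).Fresh := by
  exact fun e i j => h e _ _

/-- MODULE ND4.  There is no edge between `tm last` and `tm 0` (`Fresh`), so no new loops; the degree of the
common vertex is the sum of two numbers `≤ 1`. -/
theorem OK_merge {N : Net (n + 2)} (h : N.OK 1) (hf : N.Fresh) : N.merge.OK 2 := by
  have hm : ∀ (x : N.V) (v : {v : N.V // v ≠ N.tm (Fin.last (n + 1))}), mgMap N x = v →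
      x = v.1 ∨ (x = N.tm (Fin.last (n + 1)) ∧ v.1 = N.tm 0) := by
    intro x v hx
    unfold mgMap at hx
    split_ifs at hx with h1
    · exact Or.inr ⟨h1, by rw [← hx]⟩
    · exact Or.inl (by rw [← hx])
  have h0 : ∀ v : {v : N.V // v ≠ N.tm (Fin.last (n + 1))}, v.1 = N.tm 0 →
      deg N.merge.s N.merge.t v ≤ 2 := by
    intro v hv
    have h1 : deg N.merge.s N.merge.t v ≤ deg N.s N.t v.1 + deg N.s N.t (N.tm (Fin.last (n + 1))) :=
      ND_le2 N.s N.t (mgMap N) v v.1 _ fun x hx => (hm x v hx).imp_right fun h2 => h2.1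
    have h2 := h.degt 0
    have h3 := h.degt (Fin.last (n + 1))
    rw [hv] at h1
    omega
  have h1 : ∀ v : {v : N.V // v ≠ N.tm (Fin.last (n + 1))}, v.1 ≠ N.tm 0 →
      deg N.merge.s N.merge.t v ≤ deg N.s N.t v.1 := fun v hv =>
    ND_le1 N.s N.t (mgMap N) v v.1 fun x hx => (hm x v hx).resolve_right fun h2 => hv h2.2
  refine ⟨fun e he => ?_, fun v => ?_, fun j => ?_⟩
  · have he' : mgMap N (N.s e) = mgMap N (N.t e) := he
    rcases hm _ _ he' with h2 | ⟨h2, h3⟩
    · rcases hm _ _ he'.symm with h4 | ⟨h4, h5⟩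
      · by_cases h6 : N.s e = N.tm (Fin.last (n + 1))
        · exact (mgMap N (N.t e)).2 (h2.symm.trans h6)
        · have h7 : (mgMap N (N.s e)).1 = N.s e := by
            unfold mgMap
            rw [dif_neg h6]
          exact h.noloop e (h7.symm.trans h4.symm)
      · have h6 : (mgMap N (N.s e)).1 = N.s e := by
          rw [he', ← h2]
        exact hf e 0 (Fin.last (n + 1)) ⟨h6.symm.trans h5, h4⟩
    · rcases hm _ _ he'.symm with h4 | ⟨h4, h5⟩
      · rw [he'] at h4
        exact hf e (Fin.last (n + 1)) 0 ⟨h2, h4.trans h3⟩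
      · exact h.noloop e (h2.trans h4.symm)
  · by_cases hv : v.1 = N.tm 0
    · have h2 := h0 v hv
      omega
    · exact (h1 v hv).trans (h.deg3 v.1)
  · by_cases hv : (N.merge.tm j).1 = N.tm 0
    · exact h0 _ hv
    · have h2 := (h1 _ hv).trans (h.degt j.castSucc)
      omega

/-- MODULE ND5. -/
theorem OK_wedge {N : Net (n + 1)} {M : Net (m + 1)} (h : N.OK 1) (h' : M.OK 1) : (N.wedge M).OK 2 := by
  have hs : ∀ v : N.V ⊕ {v : M.V // v ≠ M.tm 0}, deg (N.wedge M).s (N.wedge M).t v ≤
      deg (fun e => (Sum.inl (N.s e) : N.V ⊕ {v : M.V // v ≠ M.tm 0})) (fun e => Sum.inl (N.t e)) v +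
      deg (fun e => wdV N M (M.s e)) (fun e => wdV N M (M.t e)) v := fun v =>
    ND_sum _ _ _ _ v
  have hw0 : ∀ x : M.V, ∀ u : N.V, wdV N M x = Sum.inl u → x = M.tm 0 ∧ u = N.tm 0 := by
    intro x u hx
    unfold wdV at hx
    split_ifs at hx with h1
    · exact ⟨h1, (Sum.inl_injective hx).symm⟩
  have hw1 : ∀ (x : M.V) (w : {v : M.V // v ≠ M.tm 0}), wdV N M x = Sum.inr w → x = w.1 := by
    intro x w hx
    unfold wdV at hx
    split_ifs at hx with h1
    rw [← Sum.inr_injective hx]
  have hi : ∀ u : N.V, u ≠ N.tm 0 → deg (N.wedge M).s (N.wedge M).t (Sum.inl u) ≤ deg N.s N.t u := by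
    intro u hu
    have h1 := hs (Sum.inl u)
    have h2 := ND_le1 N.s N.t (Sum.inl : N.V → N.V ⊕ {v : M.V // v ≠ M.tm 0}) (Sum.inl u) u
      fun x hx => Sum.inl_injective hx
    have h3 := ND_zero M.s M.t (wdV N M) (Sum.inl u) fun x hx => hu (hw0 x u hx).2
    exact h1.trans (by rw [h3, add_zero]; exact h2)
  have hz : deg (N.wedge M).s (N.wedge M).t (Sum.inl (N.tm 0)) ≤ 2 := by
    have h1 := hs (Sum.inl (N.tm 0))
    have h2 := ND_le1 N.s N.t (Sum.inl : N.V → N.V ⊕ {v : M.V // v ≠ M.tm 0}) (Sum.inl (N.tm 0))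
      (N.tm 0) fun x hx => Sum.inl_injective hx
    have h3 := ND_le1 M.s M.t (wdV N M) (Sum.inl (N.tm 0)) (M.tm 0) fun x hx => (hw0 x _ hx).1
    have h4 := h.degt 0
    have h5 := h'.degt 0
    exact h1.trans ((add_le_add (h2.trans h4) (h3.trans h5)))
  have hr : ∀ w : {v : M.V // v ≠ M.tm 0}, deg (N.wedge M).s (N.wedge M).t (Sum.inr w) ≤
      deg M.s M.t w.1 := by
    intro w
    have h1 := hs (Sum.inr w)
    have h2 := ND_zero N.s N.t (Sum.inl : N.V → N.V ⊕ {v : M.V // v ≠ M.tm 0}) (Sum.inr w)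
      fun x hx => absurd hx Sum.inl_ne_inr
    have h3 := ND_le1 M.s M.t (wdV N M) (Sum.inr w) w.1 fun x hx => hw1 x w hx
    refine h1.trans ?_
    rw [show deg (fun e => (Sum.inl (N.s e) : N.V ⊕ {v : M.V // v ≠ M.tm 0}))
      (fun e => Sum.inl (N.t e)) (Sum.inr w) = 0 from h2, zero_add]
    exact h3
  refine ⟨fun e => ?_, fun v => ?_, fun j => ?_⟩
  · cases e with
    | inl e => exact fun he => h.noloop e (Sum.inl_injective he)
    | inr e =>
      intro he
      have he' : wdV N M (M.s e) = wdV N M (M.t e) := he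
      cases h1 : wdV N M (M.t e) with
      | inl u =>
        rw [h1] at he'
        exact h'.noloop e ((hw0 _ _ he').1.trans (hw0 _ _ h1).1.symm)
      | inr w =>
        rw [h1] at he'
        exact h'.noloop e ((hw1 _ _ he').trans (hw1 _ _ h1).symm)
  · cases v with
    | inl u =>
      by_cases hu : u = N.tm 0
      · rw [hu]
        exact hz.trans (by norm_num)
      · exact (hi u hu).trans (h.deg3 u)
    | inr w => exact (hr w).trans (h'.deg3 w.1)
  · have key : ∀ v : N.V ⊕ {v : M.V // v ≠ M.tm 0}, ((∃ i, v = Sum.inl (N.tm i)) ∨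
        ∃ i : Fin m, v = wdV N M (M.tm i.succ)) → deg (N.wedge M).s (N.wedge M).t v ≤ 2 := by
      rintro v (⟨i, rfl⟩ | ⟨i, rfl⟩)
      · by_cases hu : N.tm i = N.tm 0
        · rw [hu]
          exact hz
        · have h1 := (hi _ hu).trans (h.degt i)
          omega
      · have h1 : M.tm i.succ ≠ M.tm 0 := fun h1 => Fin.succ_ne_zero i (M.inj h1)
        have h2 : wdV N M (M.tm i.succ) = Sum.inr ⟨M.tm i.succ, h1⟩ := dif_neg h1
        rw [h2]
        have h3 := (hr ⟨M.tm i.succ, h1⟩).trans (h'.degt i.succ)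
        omega
    refine key _ ?_
    refine Fin.addCases (fun i => ?_) (fun i => ?_) j
    · exact Or.inl ⟨i, Fin.append_left (fun j => Sum.inl (N.tm j)) (fun j => wdV N M (M.tm j.succ)) i⟩
    · exact Or.inr ⟨i, Fin.append_right (fun j => Sum.inl (N.tm j)) (fun j => wdV N M (M.tm j.succ)) i⟩

end Pool.Agent.PLN
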