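import Pool.Agent.PLN.Defs

/-!
# Planar networks: the operations

For every operation the dual graph is carried along; `_chain`, `_euler`, `_dconn` are the conditions.
-/

set_option autoImplicit false

open scoped BigOperators

namespace Pool.Agent.PLN

open Pool.Agent.KG

variable {n m : ℕ}

/-! ### Auxiliary lemmas -/

private theorem NOPS_kd {X : Type} [Fintype X] (φ : X → ℤ) (x : X) : ∑ v, φ v * kd x v = φ x := by
  classical
  simp [kd]

private theorem NOPS_fun {k : ℕ} (N : Net k) (φ : N.V → ℤ) (ψ : N.D → ℤ) :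
    ∑ e, (φ (N.s e) - φ (N.t e)) * (ψ (N.l e) - ψ (N.r e)) +
      ∑ j, ψ (N.gp j) * (φ (N.tm j) - φ (N.tm (finRotate k j))) = 0 := by
  have hv : ∀ x, φ x = ∑ v, φ v * kd x v := fun x => (NOPS_kd φ x).symm
  have hd : ∀ x, ψ x = ∑ d, ψ d * kd x d := fun x => (NOPS_kd ψ x).symm
  have h1 : ∀ e, (φ (N.s e) - φ (N.t e)) * (ψ (N.l e) - ψ (N.r e)) =
      ∑ v, ∑ d, φ v * ψ d * (ic N.s N.t e v * ic N.l N.r e d) := by
    intro e
    rw [hv (N.s e), hv (N.t e), hd (N.l e), hd (N.r e), ← Finset.sum_sub_distrib,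
      ← Finset.sum_sub_distrib, Finset.sum_mul_sum]
    refine Finset.sum_congr rfl fun v _ => Finset.sum_congr rfl fun d _ => ?_
    unfold ic
    ring
  have h2 : ∀ j, ψ (N.gp j) * (φ (N.tm j) - φ (N.tm (finRotate k j))) =
      ∑ v, ∑ d, φ v * ψ d * (kd (N.gp j) d * (kd (N.tm j) v - kd (N.tm (finRotate k j)) v)) := by
    intro j
    rw [hv (N.tm j), hv (N.tm (finRotate k j)), hd (N.gp j), ← Finset.sum_sub_distrib, mul_comm,
      Finset.sum_mul_sum]
    refine Finset.sum_congr rfl fun v _ => Finset.sum_congr rfl fun d _ => ?_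
    ring
  rw [Finset.sum_congr rfl fun e _ => h1 e, Finset.sum_congr rfl fun j _ => h2 j, Finset.sum_comm,
    Finset.sum_comm (s := (Finset.univ : Finset (Fin k))), ← Finset.sum_add_distrib]
  refine Finset.sum_eq_zero fun v _ => ?_
  rw [Finset.sum_comm, Finset.sum_comm (s := (Finset.univ : Finset (Fin k))), ← Finset.sum_add_distrib]
  refine Finset.sum_eq_zero fun d _ => ?_
  rw [← Finset.mul_sum, ← Finset.mul_sum, ← mul_add]
  have h3 := N.chain v d
  unfold bt at h3
  rw [h3, mul_zero]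

private theorem NOPS_sum_rot {k : ℕ} (G A : Fin (k + 1) → ℤ) :
    ∑ j, G j * (A j - A (finRotate (k + 1) j)) =
      ∑ j : Fin k, G j.castSucc * (A j.castSucc - A j.succ) +
        G (Fin.last k) * (A (Fin.last k) - A 0) := by
  rw [Fin.sum_univ_castSucc, finRotate_last]
  congr 1
  refine Finset.sum_congr rfl fun j _ => ?_
  rw [finRotate_succ_apply, Fin.coeSucc_eq_succ]

private theorem NOPS_append {k p : ℕ} (A G : Fin (k + 1) → ℤ) (B H : Fin (p + 1) → ℤ) (h0 : B 0 = A 0)
    (h1 : H 0 = G (Fin.last k)) :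
    ∑ j, Fin.append G (fun j => H j.succ) j * (Fin.append A (fun j => B j.succ) j -
      Fin.append A (fun j => B j.succ) (finRotate (k + 1 + p) j)) =
    ∑ j, G j * (A j - A (finRotate (k + 1) j)) + ∑ j, H j * (B j - B (finRotate (p + 1) j)) := by
  cases p with
  | zero =>
    have e1 : (Fin.append G (fun j : Fin 0 => H j.succ)) = G := by
      funext j
      exact Fin.append_left (n := 0) G (fun j : Fin 0 => H j.succ) j
    have e2 : (Fin.append A (fun j : Fin 0 => B j.succ)) = A := by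
      funext j
      exact Fin.append_left (n := 0) A (fun j : Fin 0 => B j.succ) j
    have e3 : ∑ j, H j * (B j - B (finRotate (0 + 1) j)) = 0 := by
      simp
    rw [e1, e2, e3]
    exact (add_zero _).symm
  | succ p =>
    have key := NOPS_sum_rot (k := k + 1 + p) (Fin.append G (fun j => H j.succ) : Fin (k + 1 + (p + 1)) → ℤ)
      (Fin.append A (fun j => B j.succ) : Fin (k + 1 + (p + 1)) → ℤ)
    refine key.trans ?_
    rw [NOPS_sum_rot G A, NOPS_sum_rot H B, Fin.sum_univ_add, Fin.sum_univ_castSucc, Fin.sum_univ_succ]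
    have a1 : ∀ (X : Fin (k + 1) → ℤ) (Y : Fin (p + 1) → ℤ) (i : Fin (k + 1)),
        (Fin.append X Y : Fin (k + 1 + (p + 1)) → ℤ) (Fin.castAdd p i).castSucc = X i := fun X Y i =>
      Fin.append_left X Y i
    have a2 : ∀ (X : Fin (k + 1) → ℤ) (Y : Fin (p + 1) → ℤ) (i : Fin k),
        (Fin.append X Y : Fin (k + 1 + (p + 1)) → ℤ) (Fin.castAdd p i.castSucc).succ = X i.succ :=
      fun X Y i => Fin.append_left X Y i.succ
    have a3 : ∀ (X : Fin (k + 1) → ℤ) (Y : Fin (p + 1) → ℤ),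
        (Fin.append X Y : Fin (k + 1 + (p + 1)) → ℤ) (Fin.castAdd p (Fin.last k)).succ = Y 0 :=
      fun X Y => Fin.append_right X Y 0
    have a4 : ∀ (X : Fin (k + 1) → ℤ) (Y : Fin (p + 1) → ℤ) (i : Fin p),
        (Fin.append X Y : Fin (k + 1 + (p + 1)) → ℤ) (Fin.natAdd (k + 1) i).castSucc = Y i.castSucc :=
      fun X Y i => Fin.append_right X Y i.castSucc
    have a5 : ∀ (X : Fin (k + 1) → ℤ) (Y : Fin (p + 1) → ℤ) (i : Fin p),
        (Fin.append X Y : Fin (k + 1 + (p + 1)) → ℤ) (Fin.natAdd (k + 1) i).succ = Y i.succ :=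
      fun X Y i => Fin.append_right X Y i.succ
    have a6 : ∀ (X : Fin (k + 1) → ℤ) (Y : Fin (p + 1) → ℤ),
        (Fin.append X Y : Fin (k + 1 + (p + 1)) → ℤ) (Fin.last (k + 1 + p)) = Y (Fin.last p) :=
      fun X Y => Fin.append_right X Y (Fin.last p)
    have a7 : ∀ (X : Fin (k + 1) → ℤ) (Y : Fin (p + 1) → ℤ),
        (Fin.append X Y : Fin (k + 1 + (p + 1)) → ℤ) 0 = X 0 :=
      fun X Y => Fin.append_left X Y 0
    simp only [a1, a2, a3, a4, a5, a6]
    rw [a7]
    simp only [Fin.succ_last, Nat.succ_eq_add_one, Fin.castSucc_zero, Fin.succ_castSucc, h0, h1]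
    ring

private theorem NOPS_lift {X Y : Type} {R : X → X → Prop} {S : Y → Y → Prop} (f : X → Y)
    (h : ∀ x y, R x y → Relation.ReflTransGen S (f x) (f y)) {a b : X}
    (hab : Relation.ReflTransGen R a b) : Relation.ReflTransGen S (f a) (f b) := by
  induction hab with
  | refl => exact Relation.ReflTransGen.refl
  | tail _ h2 ih => exact ih.trans (h _ _ h2)

private theorem NOPS_symm {X : Type} {R : X → X → Prop} (hs : ∀ x y, R x y → R y x) {a b : X}
    (hab : Relation.ReflTransGen R a b) : Relation.ReflTransGen R b a := by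
  induction hab with
  | refl => exact Relation.ReflTransGen.refl
  | tail _ h2 ih => exact Relation.ReflTransGen.head (hs _ _ h2) ih

private theorem NOPS_center {X : Type} {R : X → X → Prop} (hs : ∀ x y, R x y → R y x) (c : X)
    (hc : ∀ x, Relation.ReflTransGen R c x) (a b : X) : Relation.ReflTransGen R a b :=
  (NOPS_symm hs (hc a)).trans (hc b)

/-! ### Isolated terminals -/

/-- MODULE NISO.  The boundary sum telescopes around the circle (`finRotate` is a permutation:
`Equiv.sum_comp`). -/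
theorem iso_chain (n : ℕ) (v : Fin (n + 1)) (d : Unit) :
    ∑ e : Empty, ic (Empty.elim : Empty → Fin (n + 1)) Empty.elim e v *
      ic (Empty.elim : Empty → Unit) Empty.elim e d +
    bt (id : Fin (n + 1) → Fin (n + 1)) (fun _ => ()) v d = 0 := by
  have h : ∑ j : Fin (n + 1), kd (finRotate (n + 1) j) v = ∑ j : Fin (n + 1), kd j v :=
    Equiv.sum_comp (finRotate (n + 1)) fun j => kd j v
  simp only [bt, kd, if_true, one_mul, id, Finset.univ_eq_empty, Finset.sum_empty, zero_add,
    Finset.sum_sub_distrib] at h ⊢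
  rw [h, sub_self]

/-- `n + 1` isolated terminals. -/
def Net.iso (n : ℕ) : Net (n + 1) where
  V := Fin (n + 1)
  E := Empty
  D := Unit
  s := Empty.elim
  t := Empty.elim
  l := Empty.elim
  r := Empty.elim
  tm := id
  gp := fun _ => ()
  inj := Function.injective_id
  chain := iso_chain n
  euler := by simp
  dconn := fun a b => Relation.ReflTransGen.refl

/-! ### Rotations -/

/-- MODULE NROT (with `rb_chain`). -/
theorem rf_chain (N : Net (n + 1)) (v : N.V) (d : N.D) :
    ∑ e, ic N.s N.t e v * ic N.l N.r e d +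
      bt (N.tm ∘ finRotate (n + 1)) (N.gp ∘ finRotate (n + 1)) v d = 0 := by
  have h : bt (N.tm ∘ finRotate (n + 1)) (N.gp ∘ finRotate (n + 1)) v d = bt N.tm N.gp v d :=
    Equiv.sum_comp (finRotate (n + 1)) fun j =>
      kd (N.gp j) d * (kd (N.tm j) v - kd (N.tm (finRotate (n + 1) j)) v)
  rw [h]
  exact N.chain v d

/-- Forward rotation. -/
def Net.rf (N : Net (n + 1)) : Net (n + 1) where
  V := N.V
  E := N.E
  D := N.D
  s := N.s
  t := N.t
  l := N.l
  r := N.r
  tm := N.tm ∘ finRotate (n + 1)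
  gp := N.gp ∘ finRotate (n + 1)
  inj := N.inj.comp (Equiv.injective _)
  chain := rf_chain N
  euler := N.euler
  dconn := N.dconn

theorem rb_chain (N : Net (n + 1)) (v : N.V) (d : N.D) :
    ∑ e, ic N.s N.t e v * ic N.l N.r e d +
      bt (N.tm ∘ (finRotate (n + 1)).symm) (N.gp ∘ (finRotate (n + 1)).symm) v d = 0 := by
  have h : bt (N.tm ∘ (finRotate (n + 1)).symm) (N.gp ∘ (finRotate (n + 1)).symm) v d =
      bt N.tm N.gp v d := by
    refine Eq.trans ?_ (Equiv.sum_comp (finRotate (n + 1)).symm fun j =>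
      kd (N.gp j) d * (kd (N.tm j) v - kd (N.tm (finRotate (n + 1) j)) v))
    refine Finset.sum_congr rfl fun j _ => ?_
    simp only [Function.comp, Equiv.symm_apply_apply, Equiv.apply_symm_apply]
  rw [h]
  exact N.chain v d

/-- Backward rotation. -/
def Net.rb (N : Net (n + 1)) : Net (n + 1) where
  V := N.V
  E := N.E
  D := N.D
  s := N.s
  t := N.t
  l := N.l
  r := N.r
  tm := N.tm ∘ (finRotate (n + 1)).symm
  gp := N.gp ∘ (finRotate (n + 1)).symm
  inj := N.inj.comp (Equiv.injective _)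
  chain := rb_chain N
  euler := N.euler
  dconn := N.dconn

/-! ### A new edge between the last terminal and the terminal `0` -/

open Classical in
/-- The gaps after the new edge: the last gap is the new face. -/
noncomputable def edgeGp (N : Net (n + 2)) (j : Fin (n + 2)) : Option N.D :=
  if j = Fin.last (n + 1) then none else some (N.gp j)

/-- MODULE NEDGE (with `edge_dconn`). -/
theorem edge_chain (N : Net (n + 2)) (v : N.V) (d : Option N.D) :
    ∑ e, ic (ae (N.tm (Fin.last (n + 1))) N.s) (ae (N.tm 0) N.t) e v *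
      ic (ae (some (N.gp (Fin.last (n + 1)))) (some ∘ N.l)) (ae none (some ∘ N.r)) e d +
    bt N.tm (edgeGp N) v d = 0 := by
  have hc := NOPS_fun N (fun x => kd x v) fun y => kd (some y) d
  have hb : bt N.tm (edgeGp N) v d + (kd (some (N.gp (Fin.last (n + 1)))) d - kd none d) *
      (kd (N.tm (Fin.last (n + 1))) v - kd (N.tm 0) v) =
      ∑ j, kd (some (N.gp j)) d * (kd (N.tm j) v - kd (N.tm (finRotate (n + 2) j)) v) := by
    unfold bt
    rw [NOPS_sum_rot (fun j => kd (edgeGp N j) d) (fun j => kd (N.tm j) v),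
      NOPS_sum_rot (fun j => kd (some (N.gp j)) d) (fun j => kd (N.tm j) v)]
    have h1 : ∀ j : Fin (n + 1), edgeGp N j.castSucc = some (N.gp j.castSucc) := fun j =>
      if_neg (Fin.castSucc_lt_last j).ne
    have h2 : edgeGp N (Fin.last (n + 1)) = none := if_pos rfl
    simp only [h1, h2]
    ring
  rw [Fintype.sum_option]
  have h3 : ic (ae (N.tm (Fin.last (n + 1))) N.s) (ae (N.tm 0) N.t) none v *
      ic (ae (some (N.gp (Fin.last (n + 1)))) (some ∘ N.l)) (ae none (some ∘ N.r)) none d =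
      (kd (some (N.gp (Fin.last (n + 1)))) d - kd none d) *
      (kd (N.tm (Fin.last (n + 1))) v - kd (N.tm 0) v) := mul_comm _ _
  have h4 : ∀ e : N.E, ic (ae (N.tm (Fin.last (n + 1))) N.s) (ae (N.tm 0) N.t) (some e) v *
      ic (ae (some (N.gp (Fin.last (n + 1)))) (some ∘ N.l)) (ae none (some ∘ N.r)) (some e) d =
      (kd (N.s e) v - kd (N.t e) v) * (kd (some (N.l e)) d - kd (some (N.r e)) d) := fun e => rfl
  rw [h3, Finset.sum_congr rfl fun e _ => h4 e]
  linarith

theorem edge_dconn (N : Net (n + 2)) (a b : Option N.D) :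
    Relation.ReflTransGen (Adj1 (ae (some (N.gp (Fin.last (n + 1)))) (some ∘ N.l)) (ae none (some ∘ N.r)))
      a b := by
  have hsym : ∀ x y : Option N.D,
      Adj1 (ae (some (N.gp (Fin.last (n + 1)))) (some ∘ N.l)) (ae none (some ∘ N.r)) x y →
      Adj1 (ae (some (N.gp (Fin.last (n + 1)))) (some ∘ N.l)) (ae none (some ∘ N.r)) y x :=
    fun x y ⟨e, he⟩ => ⟨e, he.symm⟩
  refine NOPS_center hsym (some (N.gp (Fin.last (n + 1)))) (fun x => ?_) a b
  cases x with
  | none => exact Relation.ReflTransGen.single ⟨none, Or.inl ⟨rfl, rfl⟩⟩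
  | some x =>
    refine NOPS_lift some (fun c d h => Relation.ReflTransGen.single ?_) (N.dconn (N.gp (Fin.last (n + 1))) x)
    obtain ⟨e, h | h⟩ := h
    · exact ⟨some e, Or.inl ⟨congrArg some h.1, congrArg some h.2⟩⟩
    · exact ⟨some e, Or.inr ⟨congrArg some h.1, congrArg some h.2⟩⟩

/-- A new edge between the last terminal and the terminal `0`. -/
noncomputable def Net.edge (N : Net (n + 2)) : Net (n + 2) where
  V := N.V
  E := Option N.E
  D := Option N.D
  s := ae (N.tm (Fin.last (n + 1))) N.s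
  t := ae (N.tm 0) N.t
  l := ae (some (N.gp (Fin.last (n + 1)))) (some ∘ N.l)
  r := ae none (some ∘ N.r)
  tm := N.tm
  gp := edgeGp N
  inj := N.inj
  chain := edge_chain N
  euler := by
    have h := N.euler
    rw [Fintype.card_option, Fintype.card_option]
    omega
  dconn := edge_dconn N

/-! ### The terminal `0` becomes interior -/

open Classical in
/-- The faces `gp last` and `gp 0` are united. -/
noncomputable def clMap (N : Net (n + 2)) (h : N.gp (Fin.last (n + 1)) ≠ N.gp 0) (d : N.D) :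
    {d : N.D // d ≠ N.gp 0} :=
  if h' : d = N.gp 0 then ⟨N.gp (Fin.last (n + 1)), h⟩ else ⟨d, h'⟩

/-- MODULE NCL (with `close_dconn`). -/
theorem close_chain (N : Net (n + 2)) (h : N.gp (Fin.last (n + 1)) ≠ N.gp 0) (v : N.V)
    (d : {d : N.D // d ≠ N.gp 0}) :
    ∑ e, ic N.s N.t e v * ic (clMap N h ∘ N.l) (clMap N h ∘ N.r) e d +
    bt (fun j : Fin (n + 1) => N.tm j.succ) (fun j => clMap N h (N.gp j.succ)) v d = 0 := by
  have hc := NOPS_fun N (fun x => kd x v) fun y => kd (clMap N h y) d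
  have h0 : clMap N h (N.gp 0) = clMap N h (N.gp (Fin.last (n + 1))) := by
    unfold clMap
    rw [dif_pos rfl, dif_neg h]
  have hb : bt (fun j : Fin (n + 1) => N.tm j.succ) (fun j => clMap N h (N.gp j.succ)) v d =
      ∑ j, kd (clMap N h (N.gp j)) d * (kd (N.tm j) v - kd (N.tm (finRotate (n + 2) j)) v) := by
    unfold bt
    rw [NOPS_sum_rot (fun j => kd (clMap N h (N.gp j.succ)) d) (fun j => kd (N.tm j.succ) v),
      NOPS_sum_rot (fun j => kd (clMap N h (N.gp j)) d) (fun j => kd (N.tm j) v), Fin.sum_univ_succ]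
    simp only [Fin.succ_last, Fin.castSucc_zero, Fin.succ_castSucc, h0]
    ring
  rw [hb]
  exact hc

theorem close_dconn (N : Net (n + 2)) (h : N.gp (Fin.last (n + 1)) ≠ N.gp 0)
    (a b : {d : N.D // d ≠ N.gp 0}) :
    Relation.ReflTransGen (Adj1 (clMap N h ∘ N.l) (clMap N h ∘ N.r)) a b := by
  have h1 : ∀ x : {d : N.D // d ≠ N.gp 0}, clMap N h x.1 = x := fun x => by
    unfold clMap
    rw [dif_neg x.2]
  rw [← h1 a, ← h1 b]
  refine NOPS_lift (clMap N h) (fun c d hcd => Relation.ReflTransGen.single ?_) (N.dconn a.1 b.1)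
  obtain ⟨e, he | he⟩ := hcd
  · exact ⟨e, Or.inl ⟨congrArg (clMap N h) he.1, congrArg (clMap N h) he.2⟩⟩
  · exact ⟨e, Or.inr ⟨congrArg (clMap N h) he.1, congrArg (clMap N h) he.2⟩⟩

open Classical in
/-- The terminal `0` becomes interior. -/
noncomputable def Net.close (N : Net (n + 2)) (h : N.gp (Fin.last (n + 1)) ≠ N.gp 0) : Net (n + 1) where
  V := N.V
  E := N.E
  D := {d : N.D // d ≠ N.gp 0}
  s := N.s
  t := N.t
  l := clMap N h ∘ N.l
  r := clMap N h ∘ N.r
  tm := fun j => N.tm j.succ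
  gp := fun j => clMap N h (N.gp j.succ)
  inj := fun a b hab => Fin.succ_injective _ (N.inj hab)
  chain := close_chain N h
  euler := by
    have h1 := N.euler
    have h2 : Fintype.card {d : N.D // d ≠ N.gp 0} = Fintype.card N.D - 1 := Set.card_ne_eq _
    have h3 : 0 < Fintype.card N.D := Fintype.card_pos_iff.2 ⟨N.gp 0⟩
    omega
  dconn := close_dconn N h

/-! ### The last terminal is identified with the terminal `0` -/

theorem mg_ne (N : Net (n + 2)) : N.tm 0 ≠ N.tm (Fin.last (n + 1)) := fun h =>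
  absurd (N.inj h) (Fin.last_pos).ne

open Classical in
/-- The vertices `tm 0` and `tm last` are identified. -/
noncomputable def mgMap (N : Net (n + 2)) (v : N.V) : {v : N.V // v ≠ N.tm (Fin.last (n + 1))} :=
  if h' : v = N.tm (Fin.last (n + 1)) then ⟨N.tm 0, mg_ne N⟩ else ⟨v, h'⟩

theorem mgMap_ne (N : Net (n + 2)) (j : Fin (n + 1)) : N.tm j.castSucc ≠ N.tm (Fin.last (n + 1)) :=
  fun h => absurd (N.inj h) (Fin.castSucc_lt_last j).ne

/-- MODULE NMG. -/
theorem merge_chain (N : Net (n + 2)) (v : {v : N.V // v ≠ N.tm (Fin.last (n + 1))}) (d : N.D) :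
    ∑ e, ic (mgMap N ∘ N.s) (mgMap N ∘ N.t) e v * ic N.l N.r e d +
    bt (fun j : Fin (n + 1) => (⟨N.tm j.castSucc, mgMap_ne N j⟩ :
      {v : N.V // v ≠ N.tm (Fin.last (n + 1))})) (fun j => N.gp j.castSucc) v d = 0 := by
  have hc := NOPS_fun N (fun x => kd (mgMap N x) v) fun y => kd y d
  have h0 : mgMap N (N.tm (Fin.last (n + 1))) = mgMap N (N.tm 0) := by
    unfold mgMap
    rw [dif_pos rfl, dif_neg (mg_ne N)]
  have h1 : ∀ j : Fin (n + 1), (⟨N.tm j.castSucc, mgMap_ne N j⟩ :
      {v : N.V // v ≠ N.tm (Fin.last (n + 1))}) = mgMap N (N.tm j.castSucc) := fun j => by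
    unfold mgMap
    rw [dif_neg (mgMap_ne N j)]
  have hb : bt (fun j : Fin (n + 1) => (⟨N.tm j.castSucc, mgMap_ne N j⟩ :
      {v : N.V // v ≠ N.tm (Fin.last (n + 1))})) (fun j => N.gp j.castSucc) v d =
      ∑ j, kd (N.gp j) d * (kd (mgMap N (N.tm j)) v - kd (mgMap N (N.tm (finRotate (n + 2) j))) v) := by
    unfold bt
    simp only [h1]
    rw [NOPS_sum_rot (fun j : Fin (n + 1) => kd (N.gp j.castSucc) d)
        (fun j => kd (mgMap N (N.tm j.castSucc)) v),
      NOPS_sum_rot (fun j => kd (N.gp j) d) (fun j => kd (mgMap N (N.tm j)) v), Fin.sum_univ_castSucc]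
    simp only [Fin.succ_last, Nat.succ_eq_add_one, Fin.castSucc_zero, Fin.succ_castSucc, h0]
    ring
  rw [hb]
  exact hc

open Classical in
/-- The last terminal is identified with the terminal `0`. -/
noncomputable def Net.merge (N : Net (n + 2)) : Net (n + 1) where
  V := {v : N.V // v ≠ N.tm (Fin.last (n + 1))}
  E := N.E
  D := N.D
  s := mgMap N ∘ N.s
  t := mgMap N ∘ N.t
  l := N.l
  r := N.r
  tm := fun j => ⟨N.tm j.castSucc, mgMap_ne N j⟩
  gp := fun j => N.gp j.castSucc
  inj := fun a b hab => Fin.castSucc_injective _ (N.inj (Subtype.ext_iff.1 hab))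
  chain := merge_chain N
  euler := by
    have h1 := N.euler
    have h2 : Fintype.card {v : N.V // v ≠ N.tm (Fin.last (n + 1))} = Fintype.card N.V - 1 :=
      Set.card_ne_eq _
    have h3 : 0 < Fintype.card N.V := Fintype.card_pos_iff.2 ⟨N.tm 0⟩
    omega
  dconn := N.dconn

/-! ### Two networks are glued along their terminals `0` -/

open Classical in
/-- The vertices of the second network. -/
noncomputable def wdV (N : Net (n + 1)) (M : Net (m + 1)) (v : M.V) : N.V ⊕ {v : M.V // v ≠ M.tm 0} :=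
  if h : v = M.tm 0 then Sum.inl (N.tm 0) else Sum.inr ⟨v, h⟩

open Classical in
/-- The faces of the second network. -/
noncomputable def wdD (N : Net (n + 1)) (M : Net (m + 1)) (d : M.D) : N.D ⊕ {d : M.D // d ≠ M.gp 0} :=
  if h : d = M.gp 0 then Sum.inl (N.gp (Fin.last n)) else Sum.inr ⟨d, h⟩

/-- The terminals. -/
noncomputable def wdTm (N : Net (n + 1)) (M : Net (m + 1)) :
    Fin (n + 1 + m) → N.V ⊕ {v : M.V // v ≠ M.tm 0} :=
  Fin.append (fun j => Sum.inl (N.tm j)) fun j => wdV N M (M.tm j.succ)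

/-- The gaps. -/
noncomputable def wdGp (N : Net (n + 1)) (M : Net (m + 1)) :
    Fin (n + 1 + m) → N.D ⊕ {d : M.D // d ≠ M.gp 0} :=
  Fin.append (fun j => Sum.inl (N.gp j)) fun j => wdD N M (M.gp j.succ)

/-- MODULE NWD1 (with `wedge_dconn`). -/
theorem wedge_inj (N : Net (n + 1)) (M : Net (m + 1)) : Function.Injective (wdTm N M) := by
  have h1 : ∀ j : Fin m, M.tm j.succ ≠ M.tm 0 := fun j h => Fin.succ_ne_zero j (M.inj h)
  intro i j
  refine Fin.addCases (fun i => ?_) (fun i => ?_) i <;>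
    refine Fin.addCases (fun j => ?_) (fun j => ?_) j
  · intro h
    simp only [wdTm, Fin.append_left, Sum.inl.injEq] at h
    rw [N.inj h]
  · intro h
    simp only [wdTm, Fin.append_left, Fin.append_right, wdV, dif_neg (h1 j), reduceCtorEq] at h
  · intro h
    simp only [wdTm, Fin.append_left, Fin.append_right, wdV, dif_neg (h1 i), reduceCtorEq] at h
  · intro h
    simp only [wdTm, Fin.append_right, wdV, dif_neg (h1 i), dif_neg (h1 j), Sum.inr.injEq,
      Subtype.mk.injEq] at h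
    rw [Fin.succ_injective _ (M.inj h)]

/-- MODULE NWD2.  The cyclic order is `t_0, …, t_n, t'_1, …, t'_m`; the gap `n` of `N` and the gap `0` of `M`
are the same face. -/
theorem wedge_chain (N : Net (n + 1)) (M : Net (m + 1)) (v : N.V ⊕ {v : M.V // v ≠ M.tm 0})
    (d : N.D ⊕ {d : M.D // d ≠ M.gp 0}) :
    ∑ e, ic (Sum.elim (fun e => Sum.inl (N.s e)) fun e => wdV N M (M.s e))
        (Sum.elim (fun e => Sum.inl (N.t e)) fun e => wdV N M (M.t e)) e v *
      ic (Sum.elim (fun e => Sum.inl (N.l e)) fun e => wdD N M (M.l e))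
        (Sum.elim (fun e => Sum.inl (N.r e)) fun e => wdD N M (M.r e)) e d +
    bt (wdTm N M) (wdGp N M) v d = 0 := by
  have hN := NOPS_fun N (fun x => kd (Sum.inl x) v) fun y => kd (Sum.inl y) d
  have hM := NOPS_fun M (fun x => kd (wdV N M x) v) fun y => kd (wdD N M y) d
  have h0 : wdV N M (M.tm 0) = Sum.inl (N.tm 0) := dif_pos rfl
  have h1 : wdD N M (M.gp 0) = Sum.inl (N.gp (Fin.last n)) := dif_pos rfl
  have hb : bt (wdTm N M) (wdGp N M) v d =
      ∑ j, kd (Sum.inl (N.gp j)) d * (kd (Sum.inl (N.tm j)) v -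
        kd (Sum.inl (N.tm (finRotate (n + 1) j))) v) +
      ∑ j, kd (wdD N M (M.gp j)) d * (kd (wdV N M (M.tm j)) v -
        kd (wdV N M (M.tm (finRotate (m + 1) j))) v) := by
    refine Eq.trans ?_ (NOPS_append (fun j => kd (Sum.inl (N.tm j)) v) (fun j => kd (Sum.inl (N.gp j)) d)
      (fun j => kd (wdV N M (M.tm j)) v) (fun j => kd (wdD N M (M.gp j)) d) (by rw [h0]) (by rw [h1]))
    have h2 : ∀ j, kd (wdTm N M j) v = Fin.append (fun j => kd (Sum.inl (N.tm j)) v)
        (fun j => kd (wdV N M (M.tm j.succ)) v) j := by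
      intro j
      refine Fin.addCases (fun j => ?_) (fun j => ?_) j
      · simp only [wdTm, Fin.append_left]
      · simp only [wdTm, Fin.append_right]
    have h3 : ∀ j, kd (wdGp N M j) d = Fin.append (fun j => kd (Sum.inl (N.gp j)) d)
        (fun j => kd (wdD N M (M.gp j.succ)) d) j := by
      intro j
      refine Fin.addCases (fun j => ?_) (fun j => ?_) j
      · simp only [wdGp, Fin.append_left]
      · simp only [wdGp, Fin.append_right]
    unfold bt
    exact Finset.sum_congr rfl fun j _ => by rw [h2, h2, h3]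
  rw [Fintype.sum_sum_type, hb]
  have h4 : ∀ e : N.E, ic (Sum.elim (fun e => Sum.inl (N.s e)) fun e => wdV N M (M.s e))
        (Sum.elim (fun e => Sum.inl (N.t e)) fun e => wdV N M (M.t e)) (Sum.inl e) v *
      ic (Sum.elim (fun e => Sum.inl (N.l e)) fun e => wdD N M (M.l e))
        (Sum.elim (fun e => Sum.inl (N.r e)) fun e => wdD N M (M.r e)) (Sum.inl e) d =
      (kd (Sum.inl (N.s e)) v - kd (Sum.inl (N.t e)) v) *
        (kd (Sum.inl (N.l e)) d - kd (Sum.inl (N.r e)) d) := fun e => rfl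
  have h5 : ∀ e : M.E, ic (Sum.elim (fun e => Sum.inl (N.s e)) fun e => wdV N M (M.s e))
        (Sum.elim (fun e => Sum.inl (N.t e)) fun e => wdV N M (M.t e)) (Sum.inr e) v *
      ic (Sum.elim (fun e => Sum.inl (N.l e)) fun e => wdD N M (M.l e))
        (Sum.elim (fun e => Sum.inl (N.r e)) fun e => wdD N M (M.r e)) (Sum.inr e) d =
      (kd (wdV N M (M.s e)) v - kd (wdV N M (M.t e)) v) *
        (kd (wdD N M (M.l e)) d - kd (wdD N M (M.r e)) d) := fun e => rfl
  rw [Finset.sum_congr rfl fun e _ => h4 e, Finset.sum_congr rfl fun e _ => h5 e]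
  linarith

theorem wedge_dconn (N : Net (n + 1)) (M : Net (m + 1)) (a b : N.D ⊕ {d : M.D // d ≠ M.gp 0}) :
    Relation.ReflTransGen (Adj1 (Sum.elim (fun e => Sum.inl (N.l e)) fun e => wdD N M (M.l e))
        (Sum.elim (fun e => Sum.inl (N.r e)) fun e => wdD N M (M.r e))) a b := by
  have hsym : ∀ x y : N.D ⊕ {d : M.D // d ≠ M.gp 0},
      Adj1 (Sum.elim (fun e => Sum.inl (N.l e)) fun e => wdD N M (M.l e))
        (Sum.elim (fun e => Sum.inl (N.r e)) fun e => wdD N M (M.r e)) x y →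
      Adj1 (Sum.elim (fun e => Sum.inl (N.l e)) fun e => wdD N M (M.l e))
        (Sum.elim (fun e => Sum.inl (N.r e)) fun e => wdD N M (M.r e)) y x :=
    fun x y ⟨e, he⟩ => ⟨e, he.symm⟩
  refine NOPS_center hsym (Sum.inl (N.gp (Fin.last n))) (fun x => ?_) a b
  cases x with
  | inl x =>
    refine NOPS_lift Sum.inl (fun c d h => Relation.ReflTransGen.single ?_) (N.dconn (N.gp (Fin.last n)) x)
    obtain ⟨e, h | h⟩ := h
    · exact ⟨Sum.inl e, Or.inl ⟨congrArg Sum.inl h.1, congrArg Sum.inl h.2⟩⟩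
    · exact ⟨Sum.inl e, Or.inr ⟨congrArg Sum.inl h.1, congrArg Sum.inl h.2⟩⟩
  | inr x =>
    have h0 : wdD N M (M.gp 0) = Sum.inl (N.gp (Fin.last n)) := dif_pos rfl
    have h1 : wdD N M x.1 = Sum.inr x := dif_neg x.2
    rw [← h0, ← h1]
    refine NOPS_lift (wdD N M) (fun c d h => Relation.ReflTransGen.single ?_) (M.dconn (M.gp 0) x.1)
    obtain ⟨e, h | h⟩ := h
    · exact ⟨Sum.inr e, Or.inl ⟨congrArg (wdD N M) h.1, congrArg (wdD N M) h.2⟩⟩
    · exact ⟨Sum.inr e, Or.inr ⟨congrArg (wdD N M) h.1, congrArg (wdD N M) h.2⟩⟩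

open Classical in
/-- Two networks are glued along their terminals `0`. -/
noncomputable def Net.wedge (N : Net (n + 1)) (M : Net (m + 1)) : Net (n + 1 + m) where
  V := N.V ⊕ {v : M.V // v ≠ M.tm 0}
  E := N.E ⊕ M.E
  D := N.D ⊕ {d : M.D // d ≠ M.gp 0}
  s := Sum.elim (fun e => Sum.inl (N.s e)) fun e => wdV N M (M.s e)
  t := Sum.elim (fun e => Sum.inl (N.t e)) fun e => wdV N M (M.t e)
  l := Sum.elim (fun e => Sum.inl (N.l e)) fun e => wdD N M (M.l e)
  r := Sum.elim (fun e => Sum.inl (N.r e)) fun e => wdD N M (M.r e)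
  tm := wdTm N M
  gp := wdGp N M
  inj := wedge_inj N M
  chain := wedge_chain N M
  euler := by
    have h1 := N.euler
    have h2 := M.euler
    have h3 : Fintype.card {v : M.V // v ≠ M.tm 0} = Fintype.card M.V - 1 := Set.card_ne_eq _
    have h4 : Fintype.card {d : M.D // d ≠ M.gp 0} = Fintype.card M.D - 1 := Set.card_ne_eq _
    have h5 : 0 < Fintype.card M.V := Fintype.card_pos_iff.2 ⟨M.tm 0⟩
    have h6 : 0 < Fintype.card M.D := Fintype.card_pos_iff.2 ⟨M.gp 0⟩
    rw [Fintype.card_sum, Fintype.card_sum, Fintype.card_sum, h3, h4]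
    omega
  dconn := wedge_dconn N M

/-! ### Mirror image of a network with three terminals -/

/-- MODULE NRL. -/
theorem refl_chain (N : Net 3) (v : N.V) (d : N.D) :
    ∑ e, ic N.s N.t e v * ic N.r N.l e d +
    bt (![N.tm 1, N.tm 0, N.tm 2] : Fin 3 → N.V) (![N.gp 0, N.gp 2, N.gp 1] : Fin 3 → N.D) v d = 0 := by
  have hc := N.chain v d
  have h1 : ∑ e, ic N.s N.t e v * ic N.r N.l e d = -∑ e, ic N.s N.t e v * ic N.l N.r e d := by
    rw [← Finset.sum_neg_distrib]
    refine Finset.sum_congr rfl fun e _ => ?_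
    unfold ic
    ring
  have r0 : finRotate 3 0 = 1 := rfl
  have r1 : finRotate 3 1 = 2 := rfl
  have r2 : finRotate 3 2 = 0 := rfl
  have h2 : bt (![N.tm 1, N.tm 0, N.tm 2] : Fin 3 → N.V) (![N.gp 0, N.gp 2, N.gp 1] : Fin 3 → N.D) v d =
      -bt N.tm N.gp v d := by
    unfold bt
    rw [Fin.sum_univ_three, Fin.sum_univ_three, r0, r1, r2]
    show kd (N.gp 0) d * (kd (N.tm 1) v - kd (N.tm 0) v) + kd (N.gp 2) d *
      (kd (N.tm 0) v - kd (N.tm 2) v) + kd (N.gp 1) d * (kd (N.tm 2) v - kd (N.tm 1) v) = _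
    ring
  rw [h1, h2, ← neg_add, hc, neg_zero]

theorem refl_inj (N : Net 3) : Function.Injective (![N.tm 1, N.tm 0, N.tm 2] : Fin 3 → N.V) := by
  have h : (![N.tm 1, N.tm 0, N.tm 2] : Fin 3 → N.V) = N.tm ∘ (Equiv.swap 0 1 : Fin 3 ≃ Fin 3) := by
    funext j
    fin_cases j <;> rfl
  rw [h]
  exact N.inj.comp (Equiv.injective _)

theorem refl_dconn (N : Net 3) (a b : N.D) : Relation.ReflTransGen (Adj1 N.r N.l) a b := by
  refine NOPS_lift id (fun x y hxy => Relation.ReflTransGen.single ?_) (N.dconn a b)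
  obtain ⟨e, h | h⟩ := hxy
  · exact ⟨e, Or.inr ⟨h.2, h.1⟩⟩
  · exact ⟨e, Or.inl ⟨h.2, h.1⟩⟩

/-- Mirror image of a network with three terminals. -/
def Net.refl (N : Net 3) : Net 3 where
  V := N.V
  E := N.E
  D := N.D
  s := N.s
  t := N.t
  l := N.r
  r := N.l
  tm := ![N.tm 1, N.tm 0, N.tm 2]
  gp := ![N.gp 0, N.gp 2, N.gp 1]
  inj := refl_inj N
  chain := refl_chain N
  euler := N.euler
  dconn := refl_dconn N

end Pool.Agent.PLN
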