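import Pool.Agent.PLN.NetOps

/-!
# Planar networks: the families of functionals of the operations
-/

set_option autoImplicit false

open scoped BigOperators

namespace Pool.Agent.PLN

open Pool.Agent.KG

variable {n m : ℕ}

/-! ### Isolated terminals -/

private theorem siso_kd_eq {X : Type} (a : X) : kd a a = 1 := by
  classical
  exact if_pos rfl

private theorem siso_kd_ne {X : Type} {a b : X} (h : a ≠ b) : kd a b = 0 := by
  classical
  exact if_neg h

private theorem siso_inst {α : Type} (i₁ i₂ : Fintype α) (f : α → ℤ) :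
    @Finset.sum α ℤ _ (@Finset.univ α i₁) f = @Finset.sum α ℤ _ (@Finset.univ α i₂) f := by
  rw [Subsingleton.elim i₁ i₂]

private theorem siso_rel {K : Type} [Field K] (n : ℕ) (y : Empty → K) :
    (Net.iso n).Rel y = isoS (n + 1) K := by
  ext x
  have h1 : ∀ (φ : Fin (n + 1) → K) (v : Fin (n + 1)), (Net.iso n).lp y φ v = 0 := by
    intro φ v
    unfold Net.lp
    exact Finset.sum_eq_zero fun e _ => Empty.elim e
  have h2 : ∀ v : Fin (n + 1), ∑ j, ((kd ((Net.iso n).tm j) v : ℤ) : K) * x.2 j = x.2 v := by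
    intro v
    rw [Finset.sum_eq_single v]
    · show ((kd v v : ℤ) : K) * x.2 v = x.2 v
      rw [siso_kd_eq, Int.cast_one, one_mul]
    · intro j _ hj
      show ((kd j v : ℤ) : K) * x.2 j = 0
      rw [siso_kd_ne hj, Int.cast_zero, zero_mul]
    · intro h
      exact absurd (Finset.mem_univ _) h
  constructor
  · rintro ⟨φ, -, h⟩
    show x.2 = 0
    funext v
    exact ((h1 φ v).symm.trans ((h v).trans (h2 v))).symm
  · intro h
    refine ⟨x.1, rfl, fun v => ?_⟩
    refine (h1 _ v).trans (Eq.trans ?_ (h2 v).symm)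
    exact (congrFun (show x.2 = 0 from h) v).symm

/-- MODULE SISO.  There is one `y : Empty → K`, it is regular, the state is `x.2 = 0` (`lp = 0`; take `v = j` in
the sum). -/
theorem fn_iso (n : ℕ) : (Net.iso n).fn = isoF (n + 1) := by
  classical
  funext F f
  have h1 : (Net.iso n).fn F f = ∑ y : Empty → F.K,
      if (Net.iso n).Reg y then f ((Net.iso n).Rel y) else 0 := by
    unfold Net.fn
    exact siso_inst _ _ _
  rw [h1, Fintype.sum_unique, if_pos, siso_rel]
  · rfl
  · intro φ h _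
    exact h

/-! ### Rotations -/

section

variable {K : Type} [Field K]

private theorem srot_last (n : ℕ) : finRotate (n + 1) (Fin.last n) = 0 := by
  rw [finRotate_apply, Fin.last_add_one]

private theorem srot_castSucc (n : ℕ) (j : Fin n) :
    finRotate (n + 1) j.castSucc = j.succ := by
  rw [finRotate_apply, Fin.coeSucc_eq_succ]

private theorem srot_cons (w : Fin (n + 1) → K) (j : Fin (n + 1)) :
    (Fin.cons (w (Fin.last n)) (Fin.init w) : Fin (n + 1) → K) (finRotate (n + 1) j) = w j := by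
  refine Fin.lastCases ?_ (fun j => ?_) j
  · rw [srot_last, Fin.cons_zero]
  · rw [srot_castSucc, Fin.cons_succ]
    rfl

private theorem srot_snoc (w : Fin (n + 1) → K) (j : Fin (n + 1)) :
    (Fin.snoc (Fin.tail w) (w 0) : Fin (n + 1) → K) j = w (finRotate (n + 1) j) := by
  refine Fin.lastCases ?_ (fun j => ?_) j
  · rw [srot_last, Fin.snoc_last]
  · rw [srot_castSucc, Fin.snoc_castSucc]
    rfl

/-- MODULE SROT: `Rel_rf`, `Rel_rb`, `Reg_rf`, `Reg_rb`, `fn_rf`, `fn_rb`.  The new potentials are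
`x.1 = φ ∘ tm ∘ finRotate`, so the old ones `Fin.cons (x.1 last) (Fin.init x.1) = φ ∘ tm` (check at `0` and at
`succ`; `finRotate` of `last` is `0`, of `castSucc j` it is `succ j`); the sum over `j` is reindexed. -/
theorem Rel_rf (N : Net (n + 1)) (y : N.E → K) : N.rf.Rel y = rf (N.Rel y) := by
  ext x
  have hs : ∀ v, ∑ j, ((kd (N.tm j) v : ℤ) : K) *
      (Fin.cons (x.2 (Fin.last n)) (Fin.init x.2) : Fin (n + 1) → K) j =
      ∑ j, ((kd (N.tm (finRotate (n + 1) j)) v : ℤ) : K) * x.2 j := by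
    intro v
    rw [← Equiv.sum_comp (finRotate (n + 1))]
    refine Finset.sum_congr rfl fun j _ => ?_
    rw [srot_cons]
  constructor
  · rintro ⟨φ, h1, h2⟩
    refine ⟨φ, ?_, fun v => (h2 v).trans (hs v).symm⟩
    funext j
    obtain ⟨i, rfl⟩ := (finRotate (n + 1)).surjective j
    exact (srot_cons x.1 i).trans (congrFun h1 i)
  · rintro ⟨φ, h1, h2⟩
    refine ⟨φ, ?_, fun v => (h2 v).trans (hs v)⟩
    funext i
    exact (srot_cons x.1 i).symm.trans (congrFun h1 (finRotate (n + 1) i))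

theorem Rel_rb (N : Net (n + 1)) (y : N.E → K) : N.rb.Rel y = rb (N.Rel y) := by
  ext x
  have hs : ∀ v, ∑ j, ((kd (N.tm j) v : ℤ) : K) *
      (Fin.snoc (Fin.tail x.2) (x.2 0) : Fin (n + 1) → K) j =
      ∑ j, ((kd (N.tm ((finRotate (n + 1)).symm j)) v : ℤ) : K) * x.2 j := by
    intro v
    rw [← Equiv.sum_comp (finRotate (n + 1)) (fun j =>
      ((kd (N.tm ((finRotate (n + 1)).symm j)) v : ℤ) : K) * x.2 j)]
    refine Finset.sum_congr rfl fun j _ => ?_
    rw [srot_snoc, Equiv.symm_apply_apply]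
  constructor
  · rintro ⟨φ, h1, h2⟩
    refine ⟨φ, ?_, fun v => (h2 v).trans (hs v).symm⟩
    funext j
    refine (srot_snoc x.1 j).trans ((congrFun h1 (finRotate (n + 1) j)).trans ?_)
    show φ (N.tm ((finRotate (n + 1)).symm (finRotate (n + 1) j))) = φ (N.tm j)
    rw [Equiv.symm_apply_apply]
  · rintro ⟨φ, h1, h2⟩
    refine ⟨φ, ?_, fun v => (h2 v).trans (hs v)⟩
    funext i
    have h3 := (srot_snoc x.1 ((finRotate (n + 1)).symm i)).symm.trans
      (congrFun h1 ((finRotate (n + 1)).symm i))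
    rw [Equiv.apply_symm_apply] at h3
    exact h3

theorem Reg_rf (N : Net (n + 1)) (y : N.E → K) : N.rf.Reg y ↔ N.Reg y := by
  constructor
  · intro h φ h1 h2
    refine h φ ?_ h2
    funext j
    exact congrFun h1 (finRotate (n + 1) j)
  · intro h φ h1 h2
    refine h φ ?_ h2
    funext j
    obtain ⟨i, rfl⟩ := (finRotate (n + 1)).surjective j
    exact congrFun h1 i

theorem Reg_rb (N : Net (n + 1)) (y : N.E → K) : N.rb.Reg y ↔ N.Reg y := by
  constructor
  · intro h φ h1 h2
    refine h φ ?_ h2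
    funext j
    exact congrFun h1 ((finRotate (n + 1)).symm j)
  · intro h φ h1 h2
    refine h φ ?_ h2
    funext j
    obtain ⟨i, rfl⟩ := (finRotate (n + 1)).symm.surjective j
    exact congrFun h1 i

end

theorem fn_rf (N : Net (n + 1)) : N.rf.fn = N.fn.rf := by
  classical
  funext F f
  unfold Fam.rf Net.fn
  refine Finset.sum_congr rfl fun y _ => ?_
  show (if N.rf.Reg y then f (N.rf.Rel y) else 0) = if N.Reg y then f (rf (N.Rel y)) else 0
  by_cases h : N.Reg y
  · rw [if_pos h, if_pos ((Reg_rf N y).2 h)]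
    exact congrArg f (Rel_rf N y)
  · rw [if_neg h, if_neg fun h' => h ((Reg_rf N y).1 h')]

theorem fn_rb (N : Net (n + 1)) : N.rb.fn = N.fn.rb := by
  classical
  funext F f
  unfold Fam.rb Net.fn
  refine Finset.sum_congr rfl fun y _ => ?_
  show (if N.rb.Reg y then f (N.rb.Rel y) else 0) = if N.Reg y then f (rb (N.Rel y)) else 0
  by_cases h : N.Reg y
  · rw [if_pos h, if_pos ((Reg_rb N y).2 h)]
    exact congrArg f (Rel_rb N y)
  · rw [if_neg h, if_neg fun h' => h ((Reg_rb N y).1 h')]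

/-! ### New edge -/

section

variable {K : Type} [Field K]

/-- MODULE SEDGE: `lp_edge`, `Reg_edge`, `Rel_edge`, `fn_edge`.  `Fintype.sum_option`.  For `Rel_edge` the
currents change by the current in the new edge.  For `Reg_edge`: if the potentials vanish at the terminals
there is no current in the new edge.  For `fn_edge` split the sum over `Option N.E → K` as a sum over
`K × (N.E → K)` (`KG.sum_option` in `KG/Cnt.lean` is such a lemma). -/
theorem lp_edge (N : Net (n + 2)) (y : Option N.E → K) (φ : N.V → K) (v : N.V) :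
    N.edge.lp y φ v = y none * (φ (N.tm (Fin.last (n + 1))) - φ (N.tm 0)) *
      (((kd (N.tm (Fin.last (n + 1))) v : ℤ) : K) - ((kd (N.tm 0) v : ℤ) : K)) +
      N.lp (fun e => y (some e)) φ v := by
  have h1 : N.edge.lp y φ v = ∑ e : Option N.E,
      y e * (φ (N.edge.s e) - φ (N.edge.t e)) * ((ic N.edge.s N.edge.t e v : ℤ) : K) := rfl
  rw [h1, Fintype.sum_option]
  congr 1
  show _ * ((kd (N.tm (Fin.last (n + 1))) v - kd (N.tm 0) v : ℤ) : K) = _
  rw [Int.cast_sub]
  rfl

theorem Reg_edge (N : Net (n + 2)) (y : Option N.E → K) :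
    N.edge.Reg y ↔ N.Reg fun e => y (some e) := by
  have h0 : ∀ φ : N.V → K, φ ∘ N.tm = 0 → ∀ v, N.edge.lp y φ v =
      N.lp (fun e => y (some e)) φ v := by
    intro φ h v
    have h1 : ∀ j, φ (N.tm j) = 0 := fun j => congrFun h j
    refine (lp_edge N y φ v).trans ?_
    rw [h1, h1, sub_self, mul_zero, zero_mul, zero_add]
  exact ⟨fun h φ h1 h2 => h φ h1 fun v => (h0 φ h1 v).trans (h2 v),
    fun h φ h1 h2 => h φ h1 fun v => (h0 φ h1 v).symm.trans (h2 v)⟩

theorem Rel_edge (N : Net (n + 2)) (y : Option N.E → K) :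
    N.edge.Rel y = sh (y none) (N.Rel fun e => y (some e)) := by
  ext x
  have hs : ∀ v, ∑ j, ((kd (N.tm j) v : ℤ) : K) *
      (x.2 - (y none * (x.1 (Fin.last _) - x.1 0)) •
        (Pi.single (Fin.last _) 1 - Pi.single 0 1 : Fin (n + 2) → K)) j =
      (∑ j, ((kd (N.tm j) v : ℤ) : K) * x.2 j) - y none * (x.1 (Fin.last _) - x.1 0) *
        (((kd (N.tm (Fin.last (n + 1))) v : ℤ) : K) - ((kd (N.tm 0) v : ℤ) : K)) := by
    intro v
    have h1 : ∀ i : Fin (n + 2), ∑ j, ((kd (N.tm j) v : ℤ) : K) *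
        (Pi.single i 1 : Fin (n + 2) → K) j = ((kd (N.tm i) v : ℤ) : K) := by
      intro i
      rw [Finset.sum_eq_single i]
      · rw [Pi.single_eq_same, mul_one]
      · intro j _ hj
        rw [Pi.single_eq_of_ne hj, mul_zero]
      · intro h
        exact absurd (Finset.mem_univ _) h
    rw [← h1 (Fin.last (n + 1)), ← h1 0, ← Finset.sum_sub_distrib, Finset.mul_sum,
      ← Finset.sum_sub_distrib]
    refine Finset.sum_congr rfl fun j _ => ?_
    rw [Pi.sub_apply, Pi.smul_apply, Pi.sub_apply, smul_eq_mul]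
    ring
  constructor
  · rintro ⟨φ, h1, h2⟩
    have h1' : ∀ j, x.1 j = φ (N.tm j) := fun j => congrFun h1 j
    refine ⟨φ, h1, fun v => ?_⟩
    refine Eq.trans ?_ (hs v).symm
    have h3 := (lp_edge N y φ v).symm.trans (h2 v)
    rw [h1', h1']
    rw [eq_sub_iff_add_eq, add_comm]
    exact h3
  · rintro ⟨φ, h1, h2⟩
    have h1' : ∀ j, x.1 j = φ (N.tm j) := fun j => congrFun h1 j
    refine ⟨φ, h1, fun v => ?_⟩
    have h3 := (h2 v).trans (hs v)
    rw [h1', h1', eq_sub_iff_add_eq, add_comm] at h3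
    exact (lp_edge N y φ v).trans h3

end

theorem fn_edge (N : Net (n + 2)) : N.edge.fn = N.fn.sh := by
  classical
  funext F f
  have h1 : N.edge.fn F f = ∑ y : Option N.E → F.K,
      if N.edge.Reg y then f (N.edge.Rel y) else 0 := by
    unfold Net.fn
    exact siso_inst _ _ _
  rw [h1, Fintype.sum_equiv (Equiv.piOptionEquivProd (β := fun _ : Option N.E => F.K)) _
    (fun y : F.K × (N.E → F.K) => if N.Reg y.2 then f (sh y.1 (N.Rel y.2)) else 0)]
  · rw [Fintype.sum_prod_type_right]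
    unfold Fam.sh Net.fn
    refine (siso_inst _ _ _).trans (Finset.sum_congr rfl fun y _ => ?_)
    show (∑ a : F.K, if N.Reg y then f (sh a (N.Rel y)) else 0) = if N.Reg y then _ else 0
    by_cases hy : N.Reg y
    · simp only [if_pos hy]
    · simp only [if_neg hy, Finset.sum_const_zero]
  · intro y
    show _ = if N.Reg (fun e => y (some e)) then
      f (sh (y none) (N.Rel fun e => y (some e))) else 0
    by_cases h2 : N.Reg (fun e => y (some e))
    · rw [if_pos ((Reg_edge N y).2 h2), if_pos h2]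
      exact congrArg f (Rel_edge N y)
    · rw [if_neg fun h => h2 ((Reg_edge N y).1 h), if_neg h2]

/-! ### Closing a terminal -/

section

variable {K : Type} [Field K]

private theorem SCL_sum (N : Net (n + 2)) (v : N.V) (z : Fin (n + 1) → K) :
    ∑ j : Fin (n + 2), ((kd (N.tm j) v : ℤ) : K) * (Fin.cons 0 z : Fin (n + 2) → K) j =
      ∑ j : Fin (n + 1), ((kd (N.tm j.succ) v : ℤ) : K) * z j := by
  rw [Fin.sum_univ_succ, Fin.cons_zero, mul_zero, zero_add]
  refine Finset.sum_congr rfl fun j _ => ?_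
  rw [Fin.cons_succ]

omit [Field K] in
private theorem SCL_cong {u w : Fin (n + 1) → K} (a : K) (h : u = w) :
    (Fin.cons a u : Fin (n + 2) → K) = Fin.cons a w := by
  rw [h]

omit [Field K] in
private theorem SCL_cons (N : Net (n + 2)) (φ : N.V → K) :
    (Fin.cons (φ (N.tm 0)) (fun j : Fin (n + 1) => φ (N.tm j.succ)) : Fin (n + 2) → K) = φ ∘ N.tm := by
  funext j
  refine Fin.cases ?_ (fun j => ?_) j
  · rw [Fin.cons_zero]
    rfl
  · rw [Fin.cons_succ]
    rfl

/-- MODULE SCL: `Rel_close`, `Reg_close`, `fn_close`.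

`Rel_close`: `x` is in the left side iff there is `φ` with `x.1 = φ ∘ tm ∘ succ` and the currents `x.2`; put
`a = φ (tm 0)`; `Fin.sum_univ_succ`.  `Reg_close`: (→) if `φ ∘ tm = 0` then `φ ∘ tm ∘ succ = 0`; if
`(Fin.cons a 0, 0)` is in `Rel` by `φ`, then `φ = 0`, so `a = φ (tm 0) = 0`.  (←) if `φ ∘ tm ∘ succ = 0` and
`lp φ = 0` then `(Fin.cons (φ (tm 0)) 0, 0)` is in `Rel`. -/
theorem Rel_close (N : Net (n + 2)) (h : N.gp (Fin.last (n + 1)) ≠ N.gp 0) (y : N.E → K) :
    (N.close h).Rel y = cl (N.Rel y) := by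
  ext x
  constructor
  · rintro ⟨φ, h1, h2⟩
    refine ⟨φ (N.tm 0), φ, ?_, fun v => ?_⟩
    · rw [← SCL_cons N φ]
      exact SCL_cong _ h1
    · have h3 := h2 v
      refine h3.trans ?_
      exact (SCL_sum N v x.2).symm
  · rintro ⟨a, φ, h1, h2⟩
    refine ⟨φ, ?_, fun v => ?_⟩
    · funext j
      have h3 := congrFun h1 j.succ
      change (Fin.cons a x.1 : Fin (n + 2) → K) j.succ = φ (N.tm j.succ) at h3
      rw [Fin.cons_succ] at h3
      exact h3
    · have h3 := h2 v
      refine h3.trans ?_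
      exact SCL_sum N v x.2

theorem Reg_close (N : Net (n + 2)) (h : N.gp (Fin.last (n + 1)) ≠ N.gp 0) (y : N.E → K) :
    (N.close h).Reg y ↔ N.Reg y ∧ clR (N.Rel y) := by
  constructor
  · intro hR
    refine ⟨fun φ h1 h2 => hR φ ?_ h2, fun a ha => ?_⟩
    · funext j
      exact congrFun h1 j.succ
    · obtain ⟨φ, h1, h2⟩ := ha
      have h3 : φ = 0 := by
        refine hR φ ?_ ?_
        · funext j
          have h4 := congrFun h1 j.succ
          change (Fin.cons a 0 : Fin (n + 2) → K) j.succ = φ (N.tm j.succ) at h4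
          rw [Fin.cons_succ] at h4
          exact h4.symm
        · intro v
          refine (h2 v).trans ?_
          refine Finset.sum_eq_zero fun j _ => ?_
          exact mul_zero _
      have h4 := congrFun h1 0
      change (Fin.cons a 0 : Fin (n + 2) → K) 0 = φ (N.tm 0) at h4
      rw [Fin.cons_zero, h3] at h4
      exact h4
  · rintro ⟨hR, hc⟩ φ h1 h2
    have h3 : φ (N.tm 0) = 0 := by
      refine hc _ ⟨φ, ?_, fun v => ?_⟩
      · rw [← SCL_cons N φ]
        exact SCL_cong _ h1.symm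
      · refine (h2 v).trans (Finset.sum_eq_zero fun j _ => ?_).symm
        exact mul_zero _
    refine hR φ ?_ h2
    rw [← SCL_cons N φ, h3]
    have h4 : (fun j : Fin (n + 1) => φ (N.tm j.succ)) = 0 := h1
    rw [h4]
    funext j
    refine Fin.cases ?_ (fun j => ?_) j
    · rfl
    · rfl

end

theorem fn_close (N : Net (n + 2)) (h : N.gp (Fin.last (n + 1)) ≠ N.gp 0) : (N.close h).fn = N.fn.cl := by
  classical
  funext F f
  change (∑ y : N.E → F.K, if (N.close h).Reg y then f ((N.close h).Rel y) else 0) =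
    ∑ y : N.E → F.K, if N.Reg y then (if clR (N.Rel y) then f (PLN.cl (N.Rel y)) else 0) else 0
  refine Finset.sum_congr rfl fun y _ => ?_
  by_cases h1 : N.Reg y
  · by_cases h2 : clR (N.Rel y)
    · rw [if_pos ((Reg_close N h y).2 ⟨h1, h2⟩), if_pos h1, if_pos h2]
      exact congrArg f (Rel_close N h y)
    · rw [if_neg fun h3 => h2 ((Reg_close N h y).1 h3).2, if_pos h1, if_neg h2]
  · rw [if_neg fun h3 => h1 ((Reg_close N h y).1 h3).1, if_neg h1]

section

variable {K : Type} [Field K] {E D : Type} [Fintype E] [Fintype D]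

/-- MODULE RANK.  The cycle space of a connected graph.  The linear map `K^E → K^D`,
`x ↦ (d ↦ ∑ e, x e * ic l r e d)` is the transpose of `ψ ↦ (e ↦ ψ (l e) - ψ (r e))`, whose kernel consists of the
constants (`ReflTransGen.head_induction_on` / `lift`), so its rank is `|D| - 1`; use `Matrix.rank_transpose` and
`LinearMap.finrank_range_add_finrank_ker` for both maps. -/
theorem cyc_finrank (l r : E → D) [Nonempty D]
    (h : ∀ a b : D, Relation.ReflTransGen (Adj1 l r) a b) (W : Submodule K (E → K))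
    (hW : ∀ x ∈ W, ∀ d, ∑ e, x e * ((ic l r e d : ℤ) : K) = 0) :
    Module.finrank K W + Fintype.card D ≤ Fintype.card E + 1 := by
  classical
  obtain ⟨M, hM⟩ : ∃ M : Matrix D E K, ∀ d e, M d e = ((ic l r e d : ℤ) : K) :=
    ⟨fun d e => ((ic l r e d : ℤ) : K), fun _ _ => rfl⟩
  have h1 : W ≤ LinearMap.ker M.mulVecLin := by
    intro x hx
    rw [LinearMap.mem_ker, Matrix.mulVecLin_apply]
    funext d
    have h2 : (M.mulVec x) d = ∑ e, M d e * x e := rfl
    rw [h2, Pi.zero_apply, ← hW x hx d]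
    refine Finset.sum_congr rfl fun e _ => ?_
    rw [hM, mul_comm]
  have h2 : Module.finrank K (LinearMap.range M.mulVecLin) +
      Module.finrank K (LinearMap.ker M.mulVecLin) = Fintype.card E := by
    rw [LinearMap.finrank_range_add_finrank_ker, Module.finrank_fintype_fun_eq_card]
  have h3 : Module.finrank K (LinearMap.range M.transpose.mulVecLin) +
      Module.finrank K (LinearMap.ker M.transpose.mulVecLin) = Fintype.card D := by
    rw [LinearMap.finrank_range_add_finrank_ker, Module.finrank_fintype_fun_eq_card]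
  have h4 : Module.finrank K (LinearMap.range M.transpose.mulVecLin) =
      Module.finrank K (LinearMap.range M.mulVecLin) := Matrix.rank_transpose M
  have hk : ∀ ψ : D → K, ψ ∈ LinearMap.ker M.transpose.mulVecLin → ∀ a b, ψ a = ψ b := by
    intro ψ hψ a b
    rw [LinearMap.mem_ker, Matrix.mulVecLin_apply] at hψ
    have h5 : ∀ e, ψ (l e) = ψ (r e) := by
      intro e
      have h6 : (M.transpose.mulVec ψ) e = ∑ d, M d e * ψ d := rfl
      rw [hψ, Pi.zero_apply] at h6
      have h7 : ∑ d, M d e * ψ d = ψ (l e) - ψ (r e) := by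
        have h8 : ∀ d, M d e * ψ d = (if l e = d then ψ d else 0) - (if r e = d then ψ d else 0) := by
          intro d
          rw [hM]
          unfold ic kd
          by_cases ha : l e = d <;> by_cases hb : r e = d <;> simp [ha, hb]
        rw [Finset.sum_congr rfl fun d _ => h8 d, Finset.sum_sub_distrib, Finset.sum_ite_eq,
          Finset.sum_ite_eq, if_pos (Finset.mem_univ _), if_pos (Finset.mem_univ _)]
      rw [h7] at h6
      exact sub_eq_zero.1 h6.symm
    induction h a b with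
    | refl => rfl
    | tail _ hbc ih =>
      rw [ih]
      obtain ⟨e, ⟨h6, h7⟩ | ⟨h6, h7⟩⟩ := hbc
      · rw [← h6, ← h7, h5]
      · rw [← h6, ← h7, h5]
  have h5 : Module.finrank K (LinearMap.ker M.transpose.mulVecLin) ≤ 1 := by
    have h6 : LinearMap.ker M.transpose.mulVecLin ≤ Submodule.span K {(1 : D → K)} := by
      intro ψ hψ
      rw [Submodule.mem_span_singleton]
      refine ⟨ψ (Classical.arbitrary D), ?_⟩
      funext d
      rw [Pi.smul_apply, Pi.one_apply, smul_eq_mul, mul_one]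
      exact hk ψ hψ _ _
    refine (Submodule.finrank_mono h6).trans ?_
    refine (finrank_span_le_card _).trans ?_
    simp
  have h6 := Submodule.finrank_mono h1
  omega

/-- MODULE NULL.  If the faces on both sides of the terminal `0` are the same, the terminal `0` cannot be
closed.  Let `W` be the space of the `φ : V → K` which vanish at the terminals `tm j.succ`, of dimension
`|V| - (n + 1)`.  The map `φ ↦ (e ↦ φ (s e) - φ (t e))` maps it into the cycle space of `l`, `r`: by `chain`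
`∑ e, (φ (s e) - φ (t e)) * ic l r e d = ∑ v, φ v * ∑ e, ic s t e v * ic l r e d = - ∑ v, φ v * bt tm gp v d =
- φ (tm 0) * (kd (gp 0) d - kd (gp last) d) = 0`.  By `cyc_finrank` and `euler` the dimension of the image is at
most `|E| + 1 - |D| = |V| - (n + 1) - 1 < dim W`, so there is `φ ≠ 0` in `W` with `φ (s e) = φ (t e)` for all
`e`, hence `lp y φ = 0`; this contradicts `Reg` and `clR` as in `Reg_close`. -/
theorem null_close (N : Net (n + 2)) (h : N.gp (Fin.last (n + 1)) = N.gp 0) (y : N.E → K) :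
    ¬ (N.Reg y ∧ clR (N.Rel y)) := by
  classical
  rintro ⟨hR, hc⟩
  obtain ⟨T, hT⟩ : ∃ T : (N.V → K) →ₗ[K] (N.E → K), ∀ φ e, T φ e = φ (N.s e) - φ (N.t e) := by
    refine ⟨{ toFun := fun φ e => φ (N.s e) - φ (N.t e), map_add' := ?_, map_smul' := ?_ },
      fun _ _ => rfl⟩
    · intro a b
      funext e
      simp only [Pi.add_apply]
      ring
    · intro c a
      funext e
      simp only [Pi.smul_apply, smul_eq_mul, RingHom.id_apply]
      ring
  obtain ⟨R, hRR⟩ : ∃ R : (N.V → K) →ₗ[K] (Fin (n + 1) → K), ∀ φ j, R φ j = φ (N.tm j.succ) := by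
    refine ⟨{ toFun := fun φ j => φ (N.tm j.succ), map_add' := ?_, map_smul' := ?_ },
      fun _ _ => rfl⟩
    · intro a b
      rfl
    · intro c a
      rfl
  have h1 : Module.finrank K (LinearMap.range R) + Module.finrank K (LinearMap.ker R) =
      Fintype.card N.V := by
    rw [LinearMap.finrank_range_add_finrank_ker, Module.finrank_fintype_fun_eq_card]
  have h2 : Module.finrank K (LinearMap.range R) ≤ n + 1 := by
    refine (Submodule.finrank_le _).trans ?_
    rw [Module.finrank_fintype_fun_eq_card, Fintype.card_fin]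
  have : Nonempty N.D := ⟨N.gp 0⟩
  -- the image consists of cycles
  have hcyc : ∀ x ∈ (LinearMap.ker R).map T, ∀ d, ∑ e, x e * ((ic N.l N.r e d : ℤ) : K) = 0 := by
    intro x hx d
    obtain ⟨φ, hφ, rfl⟩ := Submodule.mem_map.1 hx
    have hφ0 : ∀ j : Fin (n + 1), φ (N.tm j.succ) = 0 := by
      intro j
      rw [← hRR φ j, LinearMap.mem_ker.1 hφ]
      rfl
    have hkd : ∀ a : N.V, ∑ v, φ v * ((kd a v : ℤ) : K) = φ a := by
      intro a
      have h8 : ∀ v, φ v * ((kd a v : ℤ) : K) = if a = v then φ v else 0 := by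
        intro v
        unfold kd
        by_cases ha : a = v <;> simp [ha]
      rw [Finset.sum_congr rfl fun v _ => h8 v, Finset.sum_ite_eq, if_pos (Finset.mem_univ _)]
    have h3 : ∀ e, T φ e = ∑ v, φ v * ((ic N.s N.t e v : ℤ) : K) := by
      intro e
      rw [hT, ← hkd (N.s e), ← hkd (N.t e), ← Finset.sum_sub_distrib]
      refine Finset.sum_congr rfl fun v _ => ?_
      unfold ic
      push_cast
      ring
    have h4 : ∑ e, T φ e * ((ic N.l N.r e d : ℤ) : K) =
        ∑ v, φ v * ((∑ e, ic N.s N.t e v * ic N.l N.r e d : ℤ) : K) := by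
      push_cast
      simp only [h3, Finset.sum_mul, Finset.mul_sum]
      rw [Finset.sum_comm]
      refine Finset.sum_congr rfl fun v _ => Finset.sum_congr rfl fun e _ => ?_
      ring
    have h5 : ∀ v, (∑ e, ic N.s N.t e v * ic N.l N.r e d) = - bt N.tm N.gp v d := by
      intro v
      have := N.chain v d
      omega
    have h6 : ∑ v, φ v * ((bt N.tm N.gp v d : ℤ) : K) =
        ∑ j : Fin (n + 2), ((kd (N.gp j) d : ℤ) : K) * (φ (N.tm j) - φ (N.tm (finRotate _ j))) := by
      unfold bt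
      push_cast
      simp only [Finset.mul_sum]
      rw [Finset.sum_comm]
      refine Finset.sum_congr rfl fun j _ => ?_
      rw [← hkd (N.tm j), ← hkd (N.tm (finRotate _ j)), ← Finset.sum_sub_distrib, Finset.mul_sum]
      refine Finset.sum_congr rfl fun v _ => ?_
      ring
    have h7 : ∑ j : Fin (n + 2), ((kd (N.gp j) d : ℤ) : K) * (φ (N.tm j) - φ (N.tm (finRotate _ j))) =
        0 := by
      have h8 : ∀ j : Fin (n + 2), ((kd (N.gp j) d : ℤ) : K) *
          (φ (N.tm j) - φ (N.tm (finRotate _ j))) =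
          (if j = 0 then ((kd (N.gp 0) d : ℤ) : K) * φ (N.tm 0) else 0) -
            (if j = Fin.last (n + 1) then ((kd (N.gp 0) d : ℤ) : K) * φ (N.tm 0) else 0) := by
        intro j
        by_cases hj : j = Fin.last (n + 1)
        · subst hj
          have h9 : (Fin.last (n + 1)) ≠ 0 := (Fin.last_pos).ne'
          have h10 : φ (N.tm (Fin.last (n + 1))) = 0 := by
            have := hφ0 (Fin.last n)
            rwa [Fin.succ_last] at this
          rw [finRotate_last, if_neg h9, if_pos rfl, h10, h]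
          ring
        · have h9 : finRotate (n + 2) j ≠ 0 := by
            intro h10
            apply hj
            apply (finRotate (n + 2)).injective
            rw [h10, finRotate_last]
          have h10 : φ (N.tm (finRotate (n + 2) j)) = 0 := by
            obtain ⟨k, hk⟩ := Fin.exists_succ_eq.2 h9
            rw [← hk]
            exact hφ0 k
          rw [if_neg hj, h10]
          by_cases hj0 : j = 0
          · subst hj0
            rw [if_pos rfl]
            ring
          · obtain ⟨k, hk⟩ := Fin.exists_succ_eq.2 hj0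
            rw [if_neg hj0, ← hk, hφ0 k]
            ring
      rw [Finset.sum_congr rfl fun j _ => h8 j, Finset.sum_sub_distrib, Finset.sum_ite_eq',
        Finset.sum_ite_eq', if_pos (Finset.mem_univ _), if_pos (Finset.mem_univ _), sub_self]
    rw [h4]
    have h8 : ∑ v, φ v * ((∑ e, ic N.s N.t e v * ic N.l N.r e d : ℤ) : K) =
        - ∑ v, φ v * ((bt N.tm N.gp v d : ℤ) : K) := by
      rw [← Finset.sum_neg_distrib]
      refine Finset.sum_congr rfl fun v _ => ?_
      rw [h5]
      push_cast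
      ring
    rw [h8, h6, h7, neg_zero]
  have h3 := cyc_finrank N.l N.r N.dconn ((LinearMap.ker R).map T) hcyc
  have h4 := N.euler
  -- a nonzero potential without currents
  obtain ⟨φ, hφ1, hφ2, hφ3⟩ : ∃ φ ∈ LinearMap.ker R, T φ = 0 ∧ φ ≠ 0 := by
    by_contra hcon
    push Not at hcon
    have hinj : Function.Injective (T.domRestrict (LinearMap.ker R)) := by
      rw [← LinearMap.ker_eq_bot, LinearMap.ker_eq_bot']
      intro m hm
      apply Subtype.ext
      exact hcon m.1 m.2 hm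
    have h5 : Module.finrank K ((LinearMap.ker R).map T) = Module.finrank K (LinearMap.ker R) := by
      rw [← LinearMap.range_domRestrict]
      exact LinearMap.finrank_range_of_inj hinj
    omega
  have hφ0 : ∀ j : Fin (n + 1), φ (N.tm j.succ) = 0 := by
    intro j
    rw [← hRR φ j, LinearMap.mem_ker.1 hφ1]
    rfl
  have hlp : ∀ v, N.lp y φ v = 0 := by
    intro v
    refine Finset.sum_eq_zero fun e _ => ?_
    have h5 := congrFun hφ2 e
    rw [hT, Pi.zero_apply] at h5
    rw [h5, mul_zero, zero_mul]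
  have h5 : φ (N.tm 0) = 0 := by
    refine hc _ ⟨φ, ?_, fun v => ?_⟩
    · rw [← SCL_cons N φ]
      refine SCL_cong _ ?_
      funext j
      exact (hφ0 j).symm
    · refine (hlp v).trans (Finset.sum_eq_zero fun j _ => ?_).symm
      exact mul_zero _
  apply hφ3
  refine hR φ ?_ hlp
  funext j
  refine Fin.cases ?_ (fun j => ?_) j
  · exact h5
  · exact hφ0 j

end

theorem fn_cl_null (N : Net (n + 2)) (h : N.gp (Fin.last (n + 1)) = N.gp 0) :
    N.fn.cl = fun _ _ => 0 := by
  classical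
  funext F f
  unfold Fam.cl Net.fn
  refine Finset.sum_eq_zero fun y _ => ?_
  by_cases h1 : N.Reg y
  · by_cases h2 : clR (N.Rel y)
    · exact absurd ⟨h1, h2⟩ (null_close N h y)
    · rw [if_pos h1]
      exact if_neg h2
  · rw [if_neg h1]

/-! ### Identification -/

section

variable {K : Type} [Field K]

private theorem SMG_kd (N : Net (n + 2)) (u : N.V) (v : {v : N.V // v ≠ N.tm (Fin.last (n + 1))}) :
    kd (mgMap N u) v = kd u v.1 + kd (N.tm 0) v.1 * kd u (N.tm (Fin.last (n + 1))) := by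
  unfold mgMap kd
  by_cases hu : u = N.tm (Fin.last (n + 1))
  · have h1 : ¬ N.tm (Fin.last (n + 1)) = v.1 := fun h => v.2 h.symm
    rw [dif_pos hu, hu, if_neg h1, if_pos rfl, mul_one, zero_add]
    by_cases h2 : N.tm 0 = v.1
    · rw [if_pos h2, if_pos (Subtype.ext h2)]
    · rw [if_neg h2, if_neg fun h3 => h2 (Subtype.ext_iff.1 h3)]
  · rw [dif_neg hu, if_neg hu, mul_zero, add_zero]
    by_cases h2 : u = v.1
    · rw [if_pos h2, if_pos (Subtype.ext h2)]
    · rw [if_neg h2, if_neg fun h3 => h2 (Subtype.ext_iff.1 h3)]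

private theorem SMG_sum (N : Net (n + 2)) (v : N.V) (z : Fin (n + 1) → K) (c : K) :
    ∑ j : Fin (n + 2), ((kd (N.tm j) v : ℤ) : K) * (Fin.snoc (z - Pi.single 0 c) c : Fin (n + 2) → K) j =
      ∑ j : Fin (n + 1), ((kd (N.tm j.castSucc) v : ℤ) : K) * z j - ((kd (N.tm 0) v : ℤ) : K) * c +
        ((kd (N.tm (Fin.last (n + 1))) v : ℤ) : K) * c := by
  rw [Fin.sum_univ_castSucc, Fin.snoc_last]
  congr 1
  have h1 : ∀ j : Fin (n + 1), ((kd (N.tm j.castSucc) v : ℤ) : K) *
      (Fin.snoc (z - Pi.single 0 c) c : Fin (n + 2) → K) j.castSucc =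
      ((kd (N.tm j.castSucc) v : ℤ) : K) * z j -
        (if j = 0 then ((kd (N.tm 0) v : ℤ) : K) * c else 0) := by
    intro j
    rw [Fin.snoc_castSucc, Pi.sub_apply]
    by_cases hj : j = 0
    · subst hj
      rw [Pi.single_eq_same, if_pos rfl, Fin.castSucc_zero]
      ring
    · rw [Pi.single_eq_of_ne hj, if_neg hj]
      ring
  rw [Finset.sum_congr rfl fun j _ => h1 j, Finset.sum_sub_distrib, Finset.sum_ite_eq',
    if_pos (Finset.mem_univ _)]

private theorem SMG_last (N : Net (n + 2)) (z : Fin (n + 1) → K) :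
    ∑ j : Fin (n + 1), ((kd (N.tm j.castSucc) (N.tm (Fin.last (n + 1))) : ℤ) : K) * z j = 0 := by
  refine Finset.sum_eq_zero fun j _ => ?_
  have h1 : kd (N.tm j.castSucc) (N.tm (Fin.last (n + 1))) = 0 := if_neg (mgMap_ne N j)
  rw [h1, Int.cast_zero, zero_mul]

private theorem SMG_k0 (N : Net (n + 2)) : kd (N.tm 0) (N.tm (Fin.last (n + 1))) = 0 :=
  if_neg (mg_ne N)

private theorem SMG_k1 (N : Net (n + 2)) :
    kd (N.tm (Fin.last (n + 1))) (N.tm (Fin.last (n + 1))) = 1 := if_pos rfl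

private theorem SMG_k2 (N : Net (n + 2)) {v : N.V} (hv : v ≠ N.tm (Fin.last (n + 1))) :
    kd (N.tm (Fin.last (n + 1))) v = 0 := if_neg fun h => hv h.symm

private theorem SMG_val (N : Net (n + 2)) {v : N.V} (hv : v ≠ N.tm (Fin.last (n + 1))) :
    mgMap N v = ⟨v, hv⟩ := dif_neg hv

private theorem SMG_vl (N : Net (n + 2)) : mgMap N (N.tm (Fin.last (n + 1))) = ⟨N.tm 0, mg_ne N⟩ :=
  dif_pos rfl

omit [Field K] in
private theorem SMG_res (N : Net (n + 2)) (φ : N.V → K) (h : φ (N.tm (Fin.last (n + 1))) = φ (N.tm 0)) :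
    (fun u => (fun v : {v : N.V // v ≠ N.tm (Fin.last (n + 1))} => φ v.1) (mgMap N u)) = φ := by
  funext u
  by_cases hu : u = N.tm (Fin.last (n + 1))
  · rw [hu, SMG_vl, h]
  · rw [SMG_val N hu]

/-- MODULE SMG: `lp_merge`, `Rel_merge`, `Reg_merge`, `fn_merge`.

Let `φ = φ' ∘ mgMap N`; every `φ : V → K` with `φ (tm last) = φ (tm 0)` is of this form.  `lp_merge` because
`kd (mgMap N u) v` is `kd u v` if `v ≠ tm 0`, and `kd u (tm 0) + kd u (tm last)` if `v = tm 0`.  `Rel_merge`: the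
`c` is `lp y φ (tm last)`.  `Reg_merge`: (→) for `Reg` take `φ' = φ` restricted; for `mgR`: the potential `φ` of
the element vanishes at the terminals and the restriction `φ'` has `lp = 0` (`-c + c = 0`), so `φ' = 0`,
`φ = 0` and `c = lp φ (tm last) = 0`.  (←) `φ' ∘ tm' = 0` and `lp φ' = 0`: `φ` vanishes at the terminals,
`lp φ = 0` except at `tm 0` and `tm last`, where it is `-c` and `c`; `mgR` gives `c = 0`. -/
theorem lp_merge (N : Net (n + 2)) (y : N.E → K) (φ : {v : N.V // v ≠ N.tm (Fin.last (n + 1))} → K)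
    (v : {v : N.V // v ≠ N.tm (Fin.last (n + 1))}) :
    N.merge.lp y φ v = N.lp y (fun u => φ (mgMap N u)) v.1 +
      ((kd (N.tm 0) v.1 : ℤ) : K) * N.lp y (fun u => φ (mgMap N u)) (N.tm (Fin.last (n + 1))) := by
  unfold Net.lp
  rw [Finset.mul_sum, ← Finset.sum_add_distrib]
  refine Finset.sum_congr rfl fun e _ => ?_
  have h1 : ic N.merge.s N.merge.t e v = ic N.s N.t e v.1 +
      kd (N.tm 0) v.1 * ic N.s N.t e (N.tm (Fin.last (n + 1))) := by
    have h2 : ic N.merge.s N.merge.t e v = kd (mgMap N (N.s e)) v - kd (mgMap N (N.t e)) v := rfl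
    rw [h2, SMG_kd, SMG_kd]
    unfold ic
    ring
  rw [h1]
  have h3 : φ (N.merge.s e) - φ (N.merge.t e) = φ (mgMap N (N.s e)) - φ (mgMap N (N.t e)) := rfl
  rw [h3]
  push_cast
  ring

private theorem SMG_sumL (N : Net (n + 2)) (z : Fin (n + 1) → K)
    (v : {v : N.V // v ≠ N.tm (Fin.last (n + 1))}) :
    ∑ j : Fin (n + 1), ((kd (N.merge.tm j) v : ℤ) : K) * z j =
      ∑ j : Fin (n + 1), ((kd (N.tm j.castSucc) v.1 : ℤ) : K) * z j := by
  refine Finset.sum_congr rfl fun j _ => ?_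
  have h5 : kd (N.merge.tm j) v = kd (N.tm j.castSucc) v.1 := by
    unfold kd
    by_cases h6 : N.tm j.castSucc = v.1
    · rw [if_pos h6]
      exact if_pos (Subtype.ext h6)
    · rw [if_neg h6]
      exact if_neg fun h7 => h6 (Subtype.ext_iff.1 h7)
  rw [h5]

private theorem SMG_memL (N : Net (n + 2)) (y : N.E → K) (x : (Fin (n + 1) → K) × (Fin (n + 1) → K)) :
    x ∈ (N.merge.Rel y : St (n + 1) K) ↔
      ∃ φ : {v : N.V // v ≠ N.tm (Fin.last (n + 1))} → K,
      (∀ j : Fin (n + 1), x.1 j = φ ⟨N.tm j.castSucc, mgMap_ne N j⟩) ∧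
      ∀ v : {v : N.V // v ≠ N.tm (Fin.last (n + 1))}, N.lp y (fun u => φ (mgMap N u)) v.1 +
        ((kd (N.tm 0) v.1 : ℤ) : K) * N.lp y (fun u => φ (mgMap N u)) (N.tm (Fin.last (n + 1))) =
        ∑ j : Fin (n + 1), ((kd (N.tm j.castSucc) v.1 : ℤ) : K) * x.2 j := by
  constructor
  · rintro ⟨φ, h1, h2⟩
    refine ⟨φ, fun j => congrFun h1 j, fun v => ?_⟩
    exact (lp_merge N y φ v).symm.trans ((h2 v).trans (SMG_sumL N x.2 v))
  · rintro ⟨φ, h1, h2⟩
    refine ⟨φ, funext h1, fun v => ?_⟩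
    exact (lp_merge N y φ v).trans ((h2 v).trans (SMG_sumL N x.2 v).symm)

private theorem SMG_memR (N : Net (n + 2)) (y : N.E → K) (z w : Fin (n + 1) → K) (c : K) :
    ((Fin.snoc z (z 0) : Fin (n + 2) → K), (Fin.snoc (w - Pi.single 0 c) c : Fin (n + 2) → K)) ∈
      N.Rel y ↔ ∃ φ : N.V → K, (∀ j : Fin (n + 1), z j = φ (N.tm j.castSucc)) ∧
      z 0 = φ (N.tm (Fin.last (n + 1))) ∧
      ∀ v, N.lp y φ v = ∑ j : Fin (n + 1), ((kd (N.tm j.castSucc) v : ℤ) : K) * w j -
        ((kd (N.tm 0) v : ℤ) : K) * c + ((kd (N.tm (Fin.last (n + 1))) v : ℤ) : K) * c := by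
  constructor
  · rintro ⟨φ, h1, h2⟩
    refine ⟨φ, fun j => ?_, ?_, fun v => (h2 v).trans (SMG_sum N v w c)⟩
    · have h3 := congrFun h1 j.castSucc
      change (Fin.snoc z (z 0) : Fin (n + 2) → K) j.castSucc = φ (N.tm j.castSucc) at h3
      rw [Fin.snoc_castSucc] at h3
      exact h3
    · have h3 := congrFun h1 (Fin.last (n + 1))
      change (Fin.snoc z (z 0) : Fin (n + 2) → K) (Fin.last (n + 1)) =
        φ (N.tm (Fin.last (n + 1))) at h3
      rw [Fin.snoc_last] at h3
      exact h3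
  · rintro ⟨φ, h1, h2, h3⟩
    refine ⟨φ, ?_, fun v => (h3 v).trans (SMG_sum N v w c).symm⟩
    funext j
    refine Fin.lastCases ?_ (fun j => ?_) j
    · change (Fin.snoc z (z 0) : Fin (n + 2) → K) (Fin.last (n + 1)) =
        φ (N.tm (Fin.last (n + 1)))
      rw [Fin.snoc_last]
      exact h2
    · change (Fin.snoc z (z 0) : Fin (n + 2) → K) j.castSucc = φ (N.tm j.castSucc)
      rw [Fin.snoc_castSucc]
      exact h1 j

private theorem SMG_regL (N : Net (n + 2)) (y : N.E → K) : N.merge.Reg y ↔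
    ∀ φ : {v : N.V // v ≠ N.tm (Fin.last (n + 1))} → K,
      (∀ j : Fin (n + 1), φ ⟨N.tm j.castSucc, mgMap_ne N j⟩ = 0) →
      (∀ v : {v : N.V // v ≠ N.tm (Fin.last (n + 1))}, N.lp y (fun u => φ (mgMap N u)) v.1 +
        ((kd (N.tm 0) v.1 : ℤ) : K) * N.lp y (fun u => φ (mgMap N u)) (N.tm (Fin.last (n + 1))) = 0) →
      φ = 0 := by
  constructor
  · intro h φ h1 h2
    exact h φ (funext h1) fun v => (lp_merge N y φ v).trans (h2 v)
  · intro h φ h1 h2
    exact h φ (fun j => congrFun h1 j) fun v => (lp_merge N y φ v).symm.trans (h2 v)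

theorem Rel_merge (N : Net (n + 2)) (y : N.E → K) : N.merge.Rel y = mg (N.Rel y) := by
  ext x
  refine (SMG_memL N y x).trans ?_
  constructor
  · rintro ⟨φ, h1, h2⟩
    refine ⟨N.lp y (fun u => φ (mgMap N u)) (N.tm (Fin.last (n + 1))), ?_⟩
    refine (SMG_memR N y x.1 x.2 _).2 ⟨fun u => φ (mgMap N u), fun j => ?_, ?_, fun v => ?_⟩
    · rw [h1]
      exact congrArg φ (SMG_val N (mgMap_ne N j)).symm
    · rw [h1]
      exact congrArg φ (SMG_vl N).symm
    · by_cases hv : v = N.tm (Fin.last (n + 1))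
      · rw [hv, SMG_last, SMG_k0, SMG_k1, Int.cast_zero, Int.cast_one]
        ring
      · have h3 := h2 ⟨v, hv⟩
        rw [← h3, SMG_k2 N hv, Int.cast_zero]
        ring
  · rintro ⟨c, hc⟩
    obtain ⟨φ, h1, h2, h3⟩ := (SMG_memR N y x.1 x.2 c).1 hc
    have hl : φ (N.tm (Fin.last (n + 1))) = φ (N.tm 0) := by
      rw [← h2, h1]
      rfl
    have hc' : N.lp y φ (N.tm (Fin.last (n + 1))) = c := by
      rw [h3, SMG_last, SMG_k0, SMG_k1, Int.cast_zero, Int.cast_one]
      ring
    refine ⟨fun v => φ v.1, h1, fun v => ?_⟩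
    rw [SMG_res N φ hl, hc', h3, SMG_k2 N v.2, Int.cast_zero]
    ring

theorem Reg_merge (N : Net (n + 2)) (y : N.E → K) : N.merge.Reg y ↔ N.Reg y ∧ mgR (N.Rel y) := by
  refine (SMG_regL N y).trans ?_
  have hz : (Fin.snoc (0 : Fin (n + 1) → K) ((0 : Fin (n + 1) → K) 0) : Fin (n + 2) → K) = 0 := by
    funext j
    refine Fin.lastCases ?_ (fun j => ?_) j
    · rw [Fin.snoc_last]
      rfl
    · rw [Fin.snoc_castSucc]
      rfl
  have hmR : ∀ c : K, ((0 : Fin (n + 2) → K), (Fin.snoc (-Pi.single 0 c) c : Fin (n + 2) → K)) ∈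
      N.Rel y ↔ ∃ φ : N.V → K, (∀ j, φ (N.tm j) = 0) ∧
      ∀ v, N.lp y φ v = - (((kd (N.tm 0) v : ℤ) : K) * c) +
        ((kd (N.tm (Fin.last (n + 1))) v : ℤ) : K) * c := by
    intro c
    have h1 := SMG_memR N y (0 : Fin (n + 1) → K) (0 : Fin (n + 1) → K) c
    rw [hz, zero_sub] at h1
    refine h1.trans ?_
    have h2 : ∀ v, ∑ j : Fin (n + 1), ((kd (N.tm j.castSucc) v : ℤ) : K) *
        (0 : Fin (n + 1) → K) j = 0 := fun v => Finset.sum_eq_zero fun j _ => mul_zero _
    constructor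
    · rintro ⟨φ, h3, h4, h5⟩
      refine ⟨φ, fun j => ?_, fun v => ?_⟩
      · refine Fin.lastCases ?_ (fun j => ?_) j
        · exact h4.symm
        · exact (h3 j).symm
      · rw [h5, h2, zero_sub]
    · rintro ⟨φ, h3, h4⟩
      refine ⟨φ, fun j => (h3 _).symm, (h3 _).symm, fun v => ?_⟩
      rw [h4, h2, zero_sub]
  constructor
  · intro hR
    have key : ∀ φ : N.V → K, (∀ j, φ (N.tm j) = 0) → ∀ c : K,
        (∀ v, N.lp y φ v = - (((kd (N.tm 0) v : ℤ) : K) * c) +
          ((kd (N.tm (Fin.last (n + 1))) v : ℤ) : K) * c) → φ = 0 := by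
      intro φ h3 c h2
      have hl : φ (N.tm (Fin.last (n + 1))) = φ (N.tm 0) := by rw [h3, h3]
      have h4 : (fun v : {v : N.V // v ≠ N.tm (Fin.last (n + 1))} => φ v.1) = 0 := by
        refine hR _ (fun j => h3 _) fun v => ?_
        rw [SMG_res N φ hl, h2, h2, SMG_k2 N v.2, SMG_k0, SMG_k1, Int.cast_zero, Int.cast_one]
        ring
      rw [← SMG_res N φ hl, h4]
      rfl
    refine ⟨fun φ h1 h2 => key φ (fun j => congrFun h1 j) 0 fun v => ?_, fun c hc => ?_⟩
    · rw [h2, mul_zero, mul_zero, neg_zero, add_zero]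
    · obtain ⟨φ, h1, h3⟩ := (hmR c).1 hc
      have h4 := key φ h1 c h3
      have h5 := h3 (N.tm (Fin.last (n + 1)))
      rw [SMG_k0, SMG_k1, h4, Int.cast_zero, Int.cast_one] at h5
      have h6 : N.lp y (0 : N.V → K) (N.tm (Fin.last (n + 1))) = 0 := by
        refine Finset.sum_eq_zero fun e _ => ?_
        rw [Pi.zero_apply, Pi.zero_apply, sub_zero, mul_zero, zero_mul]
      rw [h6] at h5
      linear_combination -h5
  · rintro ⟨hR, hc⟩ φ h1 h2
    have hl : ∀ j, φ (mgMap N (N.tm j)) = 0 := by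
      intro j
      refine Fin.lastCases ?_ (fun j => ?_) j
      · rw [SMG_vl]
        exact h1 0
      · rw [SMG_val N (mgMap_ne N j)]
        exact h1 j
    obtain ⟨c, hcc⟩ : ∃ c, c = N.lp y (fun u => φ (mgMap N u)) (N.tm (Fin.last (n + 1))) := ⟨_, rfl⟩
    have h3 : ∀ v, N.lp y (fun u => φ (mgMap N u)) v = - (((kd (N.tm 0) v : ℤ) : K) * c) +
        ((kd (N.tm (Fin.last (n + 1))) v : ℤ) : K) * c := by
      intro v
      by_cases hv : v = N.tm (Fin.last (n + 1))
      · rw [hv, SMG_k0, SMG_k1, ← hcc, Int.cast_zero, Int.cast_one]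
        ring
      · have h4 := h2 ⟨v, hv⟩
        rw [← hcc] at h4
        rw [SMG_k2 N hv, Int.cast_zero]
        linear_combination h4
    have h4 : c = 0 := hc c ((hmR c).2 ⟨fun u => φ (mgMap N u), hl, h3⟩)
    have h5 : (fun u => φ (mgMap N u)) = 0 := by
      refine hR _ (funext hl) fun v => ?_
      rw [h3, h4, mul_zero, mul_zero, neg_zero, add_zero]
    funext v
    have h6 := congrFun h5 v.1
    have h7 : φ (mgMap N v.1) = 0 := h6
    rw [SMG_val N v.2] at h7
    exact h7

end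

theorem fn_merge (N : Net (n + 2)) : N.merge.fn = N.fn.mg := by
  classical
  funext F f
  change (∑ y : N.E → F.K, if N.merge.Reg y then f (N.merge.Rel y) else 0) =
    ∑ y : N.E → F.K, if N.Reg y then (if mgR (N.Rel y) then f (PLN.mg (N.Rel y)) else 0) else 0
  refine Finset.sum_congr rfl fun y _ => ?_
  by_cases h1 : N.Reg y
  · by_cases h2 : mgR (N.Rel y)
    · rw [if_pos ((Reg_merge N y).2 ⟨h1, h2⟩), if_pos h1, if_pos h2]
      exact congrArg f (Rel_merge N y)
    · rw [if_neg fun h3 => h2 ((Reg_merge N y).1 h3).2, if_pos h1, if_neg h2]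
  · rw [if_neg fun h3 => h1 ((Reg_merge N y).1 h3).1, if_neg h1]

/-! ### Gluing -/

section

variable {K : Type} [Field K]

private theorem swd_kd_eq {X : Type} (a : X) : kd a a = 1 := by
  classical
  exact if_pos rfl

private theorem swd_kd_ne {X : Type} {a b : X} (h : a ≠ b) : kd a b = 0 := by
  classical
  exact if_neg h

private theorem swd_kd_inl {X Y : Type} (a b : X) : kd (Sum.inl a : X ⊕ Y) (Sum.inl b) = kd a b := by
  by_cases h : a = b
  · rw [h, swd_kd_eq, swd_kd_eq]
  · rw [swd_kd_ne h, swd_kd_ne fun h' => h (Sum.inl_injective h')]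

private theorem swd_kd_inl_inr {X Y : Type} (a : X) (b : Y) :
    kd (Sum.inl a : X ⊕ Y) (Sum.inr b) = 0 := swd_kd_ne Sum.inl_ne_inr

private theorem swd_wdV_zero (N : Net (n + 1)) (M : Net (m + 1)) :
    wdV N M (M.tm 0) = Sum.inl (N.tm 0) := by
  classical
  exact dif_pos rfl

private theorem swd_wdV_ne (N : Net (n + 1)) (M : Net (m + 1)) {u : M.V} (h : u ≠ M.tm 0) :
    wdV N M u = Sum.inr ⟨u, h⟩ := by
  classical
  exact dif_neg h

private theorem swd_kd_wdV_inl (N : Net (n + 1)) (M : Net (m + 1)) (u : M.V) (v : N.V) :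
    kd (wdV N M u) (Sum.inl v) = kd u (M.tm 0) * kd (N.tm 0) v := by
  by_cases h : u = M.tm 0
  · rw [h, swd_wdV_zero, swd_kd_inl, swd_kd_eq, one_mul]
  · rw [swd_wdV_ne N M h, swd_kd_ne Sum.inr_ne_inl, swd_kd_ne h, zero_mul]

private theorem swd_kd_wdV_inr (N : Net (n + 1)) (M : Net (m + 1)) (u : M.V)
    (v : {v : M.V // v ≠ M.tm 0}) : kd (wdV N M u) (Sum.inr v) = kd u v.1 := by
  by_cases h : u = M.tm 0
  · rw [h, swd_wdV_zero, swd_kd_inl_inr, swd_kd_ne v.2.symm]
  · rw [swd_wdV_ne N M h]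
    by_cases h1 : u = v.1
    · have h2 : (⟨u, h⟩ : {v : M.V // v ≠ M.tm 0}) = v := Subtype.ext h1
      rw [h2, swd_kd_eq, h1, swd_kd_eq]
    · rw [swd_kd_ne h1, swd_kd_ne fun h2 => h1 (congrArg Subtype.val (Sum.inr_injective h2))]

/-- MODULE SWD1: `lp_wedge`.  Potentials `φ` on `V'` are pairs `φ₁ = φ ∘ inl`, `φ₂ = φ ∘ wdV N M` with
`φ₂ (tm 0) = φ₁ (tm 0)`. -/
theorem lp_wedge_inl (N : Net (n + 1)) (M : Net (m + 1)) (y : N.E ⊕ M.E → K)
    (φ : N.V ⊕ {v : M.V // v ≠ M.tm 0} → K) (v : N.V) :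
    (N.wedge M).lp y φ (Sum.inl v) = N.lp (fun e => y (Sum.inl e)) (fun u => φ (Sum.inl u)) v +
      ((kd (N.tm 0) v : ℤ) : K) * M.lp (fun e => y (Sum.inr e)) (fun u => φ (wdV N M u)) (M.tm 0) := by
  have h1 : (N.wedge M).lp y φ (Sum.inl v) = ∑ e : N.E ⊕ M.E,
      y e * (φ ((N.wedge M).s e) - φ ((N.wedge M).t e)) *
        ((ic (N.wedge M).s (N.wedge M).t e (Sum.inl v) : ℤ) : K) := rfl
  rw [h1, Fintype.sum_sum_type]
  congr 1
  · refine Finset.sum_congr rfl fun e _ => ?_
    show y (Sum.inl e) * (φ (Sum.inl (N.s e)) - φ (Sum.inl (N.t e))) *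
      ((kd (Sum.inl (N.s e) : N.V ⊕ {v : M.V // v ≠ M.tm 0}) (Sum.inl v) -
        kd (Sum.inl (N.t e) : N.V ⊕ {v : M.V // v ≠ M.tm 0}) (Sum.inl v) : ℤ) : K) = _
    rw [swd_kd_inl, swd_kd_inl]
    rfl
  · unfold Net.lp
    rw [Finset.mul_sum]
    refine Finset.sum_congr rfl fun e _ => ?_
    show y (Sum.inr e) * (φ (wdV N M (M.s e)) - φ (wdV N M (M.t e))) *
      ((kd (wdV N M (M.s e)) (Sum.inl v) - kd (wdV N M (M.t e)) (Sum.inl v) : ℤ) : K) = _
    rw [swd_kd_wdV_inl, swd_kd_wdV_inl]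
    unfold ic
    push_cast
    ring

theorem lp_wedge_inr (N : Net (n + 1)) (M : Net (m + 1)) (y : N.E ⊕ M.E → K)
    (φ : N.V ⊕ {v : M.V // v ≠ M.tm 0} → K) (v : {v : M.V // v ≠ M.tm 0}) :
    (N.wedge M).lp y φ (Sum.inr v) = M.lp (fun e => y (Sum.inr e)) (fun u => φ (wdV N M u)) v.1 := by
  have h1 : (N.wedge M).lp y φ (Sum.inr v) = ∑ e : N.E ⊕ M.E,
      y e * (φ ((N.wedge M).s e) - φ ((N.wedge M).t e)) *
        ((ic (N.wedge M).s (N.wedge M).t e (Sum.inr v) : ℤ) : K) := rfl
  rw [h1, Fintype.sum_sum_type]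
  have h2 : ∑ e : N.E, y (Sum.inl e) * (φ ((N.wedge M).s (Sum.inl e)) -
      φ ((N.wedge M).t (Sum.inl e))) *
        ((ic (N.wedge M).s (N.wedge M).t (Sum.inl e) (Sum.inr v) : ℤ) : K) = 0 := by
    refine Finset.sum_eq_zero fun e _ => ?_
    show _ * ((kd (Sum.inl (N.s e) : N.V ⊕ {v : M.V // v ≠ M.tm 0}) (Sum.inr v) -
        kd (Sum.inl (N.t e) : N.V ⊕ {v : M.V // v ≠ M.tm 0}) (Sum.inr v) : ℤ) : K) = 0
    rw [swd_kd_inl_inr, swd_kd_inl_inr, sub_zero, Int.cast_zero, mul_zero]
  refine (congrArg₂ (· + ·) h2 (Finset.sum_congr rfl fun e _ => ?_)).trans (zero_add _)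
  show y (Sum.inr e) * (φ (wdV N M (M.s e)) - φ (wdV N M (M.t e))) *
      ((kd (wdV N M (M.s e)) (Sum.inr v) - kd (wdV N M (M.t e)) (Sum.inr v) : ℤ) : K) = _
  rw [swd_kd_wdV_inr, swd_kd_wdV_inr]
  rfl

private theorem swd_tm_left (N : Net (n + 1)) (M : Net (m + 1)) (j : Fin (n + 1)) :
    wdTm N M (Fin.castAdd m j) = Sum.inl (N.tm j) := Fin.append_left _ _ _

private theorem swd_tm_right (N : Net (n + 1)) (M : Net (m + 1)) (j : Fin m) :
    wdTm N M (Fin.natAdd (n + 1) j) = wdV N M (M.tm j.succ) := Fin.append_right _ _ _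

private theorem swd_succ_ne (M : Net (m + 1)) (j : Fin m) : M.tm j.succ ≠ M.tm 0 :=
  fun h => Fin.succ_ne_zero j (M.inj h)

private theorem swd_sum_inl (N : Net (n + 1)) (M : Net (m + 1)) (z : Fin (n + 1 + m) → K)
    (v : N.V) : ∑ j, ((kd (wdTm N M j) (Sum.inl v) : ℤ) : K) * z j =
      ∑ j, ((kd (N.tm j) v : ℤ) : K) * z (Fin.castAdd m j) := by
  rw [Fin.sum_univ_add]
  have h1 : ∑ j : Fin m, ((kd (wdTm N M (Fin.natAdd (n + 1) j)) (Sum.inl v) : ℤ) : K) *
      z (Fin.natAdd (n + 1) j) = 0 := by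
    refine Finset.sum_eq_zero fun j _ => ?_
    rw [swd_tm_right, swd_kd_wdV_inl, swd_kd_ne (swd_succ_ne M j), zero_mul, Int.cast_zero,
      zero_mul]
  rw [h1, add_zero]
  refine Finset.sum_congr rfl fun j _ => ?_
  rw [swd_tm_left, swd_kd_inl]

private theorem swd_sum_inr (N : Net (n + 1)) (M : Net (m + 1)) (z : Fin (n + 1 + m) → K)
    (v : {v : M.V // v ≠ M.tm 0}) : ∑ j, ((kd (wdTm N M j) (Sum.inr v) : ℤ) : K) * z j =
      ∑ j : Fin m, ((kd (M.tm j.succ) v.1 : ℤ) : K) * z (Fin.natAdd (n + 1) j) := by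
  rw [Fin.sum_univ_add]
  have h1 : ∑ j : Fin (n + 1), ((kd (wdTm N M (Fin.castAdd m j)) (Sum.inr v) : ℤ) : K) *
      z (Fin.castAdd m j) = 0 := by
    refine Finset.sum_eq_zero fun j _ => ?_
    rw [swd_tm_left, swd_kd_inl_inr, Int.cast_zero, zero_mul]
  rw [h1, zero_add]
  refine Finset.sum_congr rfl fun j _ => ?_
  rw [swd_tm_right, swd_kd_wdV_inr]

private theorem swd_sum_cons (M : Net (m + 1)) (c : K) (z : Fin m → K) (v : M.V) :
    ∑ j, ((kd (M.tm j) v : ℤ) : K) * (Fin.cons c z : Fin (m + 1) → K) j =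
      ((kd (M.tm 0) v : ℤ) : K) * c + ∑ j : Fin m, ((kd (M.tm j.succ) v : ℤ) : K) * z j := by
  rw [Fin.sum_univ_succ, Fin.cons_zero]
  congr 1

private theorem swd_sum_single (N : Net (n + 1)) (z : Fin (n + 1) → K) (c : K) (v : N.V) :
    ∑ j, ((kd (N.tm j) v : ℤ) : K) * (z - Pi.single 0 c : Fin (n + 1) → K) j =
      (∑ j, ((kd (N.tm j) v : ℤ) : K) * z j) - ((kd (N.tm 0) v : ℤ) : K) * c := by
  have h1 : ∀ j, ((kd (N.tm j) v : ℤ) : K) * (z - Pi.single 0 c : Fin (n + 1) → K) j =
      ((kd (N.tm j) v : ℤ) : K) * z j -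
        ((kd (N.tm j) v : ℤ) : K) * (Pi.single 0 c : Fin (n + 1) → K) j := by
    intro j
    rw [Pi.sub_apply, mul_sub]
  rw [Finset.sum_congr rfl fun j _ => h1 j, Finset.sum_sub_distrib]
  congr 1
  rw [Finset.sum_eq_single 0]
  · rw [Pi.single_eq_same]
  · intro j _ hj
    rw [Pi.single_eq_of_ne hj, mul_zero]
  · intro h
    exact absurd (Finset.mem_univ _) h

/-- MODULE SWD2.  `c = M.lp φ₂ (tm 0)` is the current into the second network at the common terminal;
`Fin.sum_univ_add`, `Fin.append_left`, `Fin.append_right`. -/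
theorem Rel_wedge (N : Net (n + 1)) (M : Net (m + 1)) (y : N.E ⊕ M.E → K) :
    (N.wedge M).Rel y = wd (N.Rel fun e => y (Sum.inl e)) (M.Rel fun e => y (Sum.inr e)) := by
  ext x
  constructor
  · rintro ⟨φ, h1, h2⟩
    have h3 : ∀ j, x.1 j = φ (wdTm N M j) := fun j => congrFun h1 j
    have h4 : ∀ v, (N.wedge M).lp y φ v = ∑ j, ((kd (wdTm N M j) v : ℤ) : K) * x.2 j := h2
    refine ⟨M.lp (fun e => y (Sum.inr e)) (fun u => φ (wdV N M u)) (M.tm 0),
      ⟨fun u => φ (Sum.inl u), ?_, fun v => ?_⟩, ⟨fun u => φ (wdV N M u), ?_, fun v => ?_⟩⟩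
    · funext j
      show x.1 (Fin.castAdd m j) = φ (Sum.inl (N.tm j))
      rw [h3, swd_tm_left]
    · have h5 := (lp_wedge_inl N M y φ v).symm.trans
        ((h4 (Sum.inl v)).trans (swd_sum_inl N M x.2 v))
      refine Eq.trans ?_ (swd_sum_single N _ _ v).symm
      rw [← h5]
      ring
    · funext j
      refine Fin.cases ?_ (fun j => ?_) j
      · show x.1 (Fin.castAdd m 0) = φ (wdV N M (M.tm 0))
        rw [h3, swd_tm_left, swd_wdV_zero]
      · show x.1 (Fin.natAdd (n + 1) j) = φ (wdV N M (M.tm j.succ))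
        rw [h3, swd_tm_right]
    · refine Eq.trans ?_ (swd_sum_cons M _ _ v).symm
      by_cases hv : v = M.tm 0
      · have h5 : ∑ j : Fin m, ((kd (M.tm j.succ) v : ℤ) : K) * x.2 (Fin.natAdd (n + 1) j) = 0 := by
          refine Finset.sum_eq_zero fun j _ => ?_
          rw [hv, swd_kd_ne (swd_succ_ne M j), Int.cast_zero, zero_mul]
        rw [h5, add_zero, hv, swd_kd_eq, Int.cast_one, one_mul]
      · have h5 := (lp_wedge_inr N M y φ ⟨v, hv⟩).symm.trans
          ((h4 (Sum.inr ⟨v, hv⟩)).trans (swd_sum_inr N M x.2 ⟨v, hv⟩))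
        rw [swd_kd_ne (Ne.symm hv), Int.cast_zero, zero_mul, zero_add]
        exact h5
  · rintro ⟨c, ⟨φ₁, h1, h2⟩, ⟨φ₂, h3, h4⟩⟩
    have h1' : ∀ j, x.1 (Fin.castAdd m j) = φ₁ (N.tm j) := fun j => congrFun h1 j
    have h30 : x.1 (Fin.castAdd m 0) = φ₂ (M.tm 0) := congrFun h3 0
    have h3' : ∀ j : Fin m, x.1 (Fin.natAdd (n + 1) j) = φ₂ (M.tm j.succ) :=
      fun j => congrFun h3 j.succ
    have h2' : ∀ v, N.lp (fun e => y (Sum.inl e)) φ₁ v =
        (∑ j, ((kd (N.tm j) v : ℤ) : K) * x.2 (Fin.castAdd m j)) -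
          ((kd (N.tm 0) v : ℤ) : K) * c :=
      fun v => (h2 v).trans (swd_sum_single N _ _ v)
    have h4' : ∀ v, M.lp (fun e => y (Sum.inr e)) φ₂ v = ((kd (M.tm 0) v : ℤ) : K) * c +
        ∑ j : Fin m, ((kd (M.tm j.succ) v : ℤ) : K) * x.2 (Fin.natAdd (n + 1) j) :=
      fun v => (h4 v).trans (swd_sum_cons M _ _ v)
    let φ : N.V ⊕ {v : M.V // v ≠ M.tm 0} → K := Sum.elim φ₁ fun v => φ₂ v.1
    have hφ : (fun u => φ (wdV N M u)) = φ₂ := by
      funext u
      by_cases hu : u = M.tm 0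
      · rw [hu, swd_wdV_zero]
        show φ₁ (N.tm 0) = φ₂ (M.tm 0)
        rw [← h1', h30]
      · rw [swd_wdV_ne N M hu]
        rfl
    refine ⟨φ, ?_, ?_⟩
    · funext j
      show x.1 j = φ (wdTm N M j)
      refine Fin.addCases (fun j => ?_) (fun j => ?_) j
      · rw [swd_tm_left, h1']
        rfl
      · rw [swd_tm_right, h3']
        exact (congrFun hφ (M.tm j.succ)).symm
    · intro v
      show (N.wedge M).lp y φ v = ∑ j, ((kd (wdTm N M j) v : ℤ) : K) * x.2 j
      rcases v with v | v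
      · rw [lp_wedge_inl, swd_sum_inl, hφ]
        have h5 := h4' (M.tm 0)
        have h6 : ∑ j : Fin m, ((kd (M.tm j.succ) (M.tm 0) : ℤ) : K) *
            x.2 (Fin.natAdd (n + 1) j) = 0 := by
          refine Finset.sum_eq_zero fun j _ => ?_
          rw [swd_kd_ne (swd_succ_ne M j), Int.cast_zero, zero_mul]
        rw [h6, add_zero, swd_kd_eq, Int.cast_one, one_mul] at h5
        have h7 := h2' v
        rw [h5]
        show N.lp (fun e => y (Sum.inl e)) φ₁ v + _ = _
        rw [h7]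
        ring
      · rw [lp_wedge_inr, swd_sum_inr, hφ, h4', swd_kd_ne (Ne.symm v.2), Int.cast_zero, zero_mul,
          zero_add]

private theorem swd_lp_zero {k : ℕ} (N : Net k) (y : N.E → K) (v : N.V) : N.lp y 0 v = 0 := by
  unfold Net.lp
  refine Finset.sum_eq_zero fun e _ => ?_
  rw [Pi.zero_apply, Pi.zero_apply, sub_self, mul_zero, zero_mul]

private theorem swd_lp_sum {k : ℕ} (N : Net k) (y : N.E → K) (φ : N.V → K) :
    ∑ v, N.lp y φ v = 0 := by
  classical
  unfold Net.lp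
  rw [Finset.sum_comm]
  refine Finset.sum_eq_zero fun e _ => ?_
  rw [← Finset.mul_sum, ← Int.cast_sum]
  have h1 : ∀ a : N.V, ∑ v, kd a v = 1 := by
    intro a
    rw [Finset.sum_eq_single a]
    · exact swd_kd_eq a
    · intro b _ hb
      exact swd_kd_ne (Ne.symm hb)
    · intro h
      exact absurd (Finset.mem_univ _) h
  have h2 : ∑ v, ic N.s N.t e v = 0 := by
    unfold ic
    rw [Finset.sum_sub_distrib, h1, h1, sub_self]
  rw [h2, Int.cast_zero, mul_zero]

/-- MODULE SWD3.  (→) extend by `0`.  (←) `φ₁` and `φ₂` vanish at the terminals; the currents at the other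
terminals are zero, and the sum of all the `lp` of a network is zero, so `M.lp φ₂ (tm 0) = 0` and then
`N.lp φ₁ (tm 0) = 0`. -/
theorem Reg_wedge (N : Net (n + 1)) (M : Net (m + 1)) (y : N.E ⊕ M.E → K) :
    (N.wedge M).Reg y ↔ N.Reg (fun e => y (Sum.inl e)) ∧ M.Reg fun e => y (Sum.inr e) := by
  have key : (N.wedge M).Reg y ↔ ∀ φ : N.V ⊕ {v : M.V // v ≠ M.tm 0} → K,
      (∀ j, φ (wdTm N M j) = 0) → (∀ v, (N.wedge M).lp y φ v = 0) → φ = 0 :=
    ⟨fun h φ h1 h2 => h φ (funext h1) h2, fun h φ h1 h2 => h φ (congrFun h1) h2⟩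
  rw [key]
  constructor
  · intro h
    constructor
    · intro φ₁ h1 h2
      have h1' : ∀ j, φ₁ (N.tm j) = 0 := fun j => congrFun h1 j
      let φ : N.V ⊕ {v : M.V // v ≠ M.tm 0} → K := Sum.elim φ₁ fun _ => 0
      have hφ : (fun u => φ (wdV N M u)) = 0 := by
        funext u
        by_cases hu : u = M.tm 0
        · rw [hu, swd_wdV_zero]
          exact h1' 0
        · rw [swd_wdV_ne N M hu]
          rfl
      have h3 := h φ (fun j => ?_) (fun v => ?_)
      · funext u
        exact congrFun h3 (Sum.inl u)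
      · refine Fin.addCases (fun j => ?_) (fun j => ?_) j
        · rw [swd_tm_left]
          exact h1' j
        · rw [swd_tm_right]
          exact congrFun hφ _
      · rcases v with v | v
        · rw [lp_wedge_inl, hφ, swd_lp_zero, mul_zero, add_zero]
          exact h2 v
        · rw [lp_wedge_inr, hφ, swd_lp_zero]
    · intro φ₂ h1 h2
      have h1' : ∀ j, φ₂ (M.tm j) = 0 := fun j => congrFun h1 j
      let φ : N.V ⊕ {v : M.V // v ≠ M.tm 0} → K := Sum.elim (fun _ => 0) fun v => φ₂ v.1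
      have hφ : (fun u => φ (wdV N M u)) = φ₂ := by
        funext u
        by_cases hu : u = M.tm 0
        · rw [hu, swd_wdV_zero, h1' 0]
          rfl
        · rw [swd_wdV_ne N M hu]
          rfl
      have h3 := h φ (fun j => ?_) (fun v => ?_)
      · funext u
        by_cases hu : u = M.tm 0
        · rw [hu, h1' 0]
          rfl
        · exact congrFun h3 (Sum.inr ⟨u, hu⟩)
      · refine Fin.addCases (fun j => ?_) (fun j => ?_) j
        · rw [swd_tm_left]
          rfl
        · rw [swd_tm_right]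
          exact (congrFun hφ _).trans (h1' _)
      · rcases v with v | v
        · rw [lp_wedge_inl, hφ, h2, mul_zero, add_zero]
          exact swd_lp_zero N _ v
        · rw [lp_wedge_inr, hφ]
          exact h2 v.1
  · rintro ⟨hN, hM⟩ φ h1 h2
    have hN0 : ∀ j, φ (Sum.inl (N.tm j)) = 0 := by
      intro j
      rw [← swd_tm_left N M j]
      exact h1 _
    have hM0 : ∀ j, φ (wdV N M (M.tm j)) = 0 := by
      intro j
      refine Fin.cases ?_ (fun j => ?_) j
      · rw [swd_wdV_zero]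
        exact hN0 0
      · rw [← swd_tm_right N M j]
        exact h1 _
    have h3 : ∀ v, v ≠ M.tm 0 →
        M.lp (fun e => y (Sum.inr e)) (fun u => φ (wdV N M u)) v = 0 := by
      intro v hv
      have h4 := h2 (Sum.inr ⟨v, hv⟩)
      rw [lp_wedge_inr] at h4
      exact h4
    have h5 : M.lp (fun e => y (Sum.inr e)) (fun u => φ (wdV N M u)) (M.tm 0) = 0 := by
      have h6 := swd_lp_sum M (fun e => y (Sum.inr e)) (fun u => φ (wdV N M u))
      rwa [Finset.sum_eq_single (M.tm 0) (fun v _ hv => h3 v hv)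
        (fun h => absurd (Finset.mem_univ _) h)] at h6
    have h6 : (fun u => φ (wdV N M u)) = 0 := hM _ (funext hM0) fun v => by
      by_cases hv : v = M.tm 0
      · rw [hv]
        exact h5
      · exact h3 v hv
    have h7 : (fun u => φ (Sum.inl u)) = 0 := hN _ (funext hN0) fun v => by
      have h8 := h2 (Sum.inl v)
      rw [lp_wedge_inl, h5, mul_zero, add_zero] at h8
      exact h8
    funext v
    rcases v with v | v
    · exact congrFun h7 v
    · have h8 := congrFun h6 v.1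
      have h9 : wdV N M v.1 = Sum.inr v := swd_wdV_ne N M v.2
      have h10 : φ (wdV N M v.1) = 0 := h8
      rw [h9] at h10
      exact h10

end

private theorem swd_inst {α : Type} (i₁ i₂ : Fintype α) (f : α → ℤ) :
    @Finset.sum α ℤ _ (@Finset.univ α i₁) f = @Finset.sum α ℤ _ (@Finset.univ α i₂) f := by
  rw [Subsingleton.elim i₁ i₂]

/-- MODULE SWD4 (`Equiv.sumArrowEquivProdArrow`). -/
theorem fn_wedge (N : Net (n + 1)) (M : Net (m + 1)) : (N.wedge M).fn = N.fn.wd M.fn := by
  classical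
  funext F f
  have h1 : (N.wedge M).fn F f = ∑ y : N.E ⊕ M.E → F.K,
      if (N.wedge M).Reg y then f ((N.wedge M).Rel y) else 0 := by
    unfold Net.fn
    exact swd_inst _ _ _
  rw [h1, Fintype.sum_equiv (Equiv.sumArrowEquivProdArrow N.E M.E F.K) _
    (fun y : (N.E → F.K) × (M.E → F.K) => if N.Reg y.1 then
      (if M.Reg y.2 then f (wd (N.Rel y.1) (M.Rel y.2)) else 0) else 0)]
  · rw [Fintype.sum_prod_type]
    unfold Fam.wd Net.fn
    refine (swd_inst _ _ _).trans (Finset.sum_congr rfl fun y _ => ?_)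
    show (∑ z : M.E → F.K, if N.Reg y then
      (if M.Reg z then f (wd (N.Rel y) (M.Rel z)) else 0) else 0) = if N.Reg y then _ else 0
    by_cases hy : N.Reg y
    · simp only [if_pos hy]
    · simp only [if_neg hy, Finset.sum_const_zero]
  · intro y
    rw [Rel_wedge]
    show _ = if N.Reg (fun e => y (Sum.inl e)) then
      (if M.Reg (fun e => y (Sum.inr e)) then
        f (wd (N.Rel fun e => y (Sum.inl e)) (M.Rel fun e => y (Sum.inr e))) else 0) else 0
    by_cases h2 : N.Reg (fun e => y (Sum.inl e))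
    · by_cases h3 : M.Reg (fun e => y (Sum.inr e))
      · rw [if_pos ((Reg_wedge N M y).2 ⟨h2, h3⟩), if_pos h2, if_pos h3]
      · rw [if_neg fun h => h3 ((Reg_wedge N M y).1 h).2, if_pos h2, if_neg h3]
    · rw [if_neg fun h => h2 ((Reg_wedge N M y).1 h).1, if_neg h2]

/-! ### Mirror image -/

private theorem srl_rel {K : Type} [Field K] (N : Net 3) (y : N.E → K) :
    N.refl.Rel y = rl (N.Rel y) := by
  ext x
  constructor
  · rintro ⟨φ, h1, h2⟩
    have h10 : x.1 0 = φ (N.tm 1) := congrFun h1 0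
    have h11 : x.1 1 = φ (N.tm 0) := congrFun h1 1
    have h12 : x.1 2 = φ (N.tm 2) := congrFun h1 2
    refine ⟨φ, ?_, fun v => ?_⟩
    · funext j
      fin_cases j
      · exact h11
      · exact h10
      · exact h12
    · have h3 := h2 v
      rw [Fin.sum_univ_three] at h3 ⊢
      refine Eq.trans h3 ?_
      show ((kd (N.tm 1) v : ℤ) : K) * x.2 0 + ((kd (N.tm 0) v : ℤ) : K) * x.2 1 +
          ((kd (N.tm 2) v : ℤ) : K) * x.2 2 =
        ((kd (N.tm 0) v : ℤ) : K) * x.2 1 + ((kd (N.tm 1) v : ℤ) : K) * x.2 0 +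
          ((kd (N.tm 2) v : ℤ) : K) * x.2 2
      ring
  · rintro ⟨φ, h1, h2⟩
    have h10 : x.1 1 = φ (N.tm 0) := congrFun h1 0
    have h11 : x.1 0 = φ (N.tm 1) := congrFun h1 1
    have h12 : x.1 2 = φ (N.tm 2) := congrFun h1 2
    refine ⟨φ, ?_, fun v => ?_⟩
    · funext j
      fin_cases j
      · exact h11
      · exact h10
      · exact h12
    · have h3 := h2 v
      rw [Fin.sum_univ_three] at h3 ⊢
      refine Eq.trans h3 ?_
      show ((kd (N.tm 0) v : ℤ) : K) * x.2 1 + ((kd (N.tm 1) v : ℤ) : K) * x.2 0 +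
          ((kd (N.tm 2) v : ℤ) : K) * x.2 2 =
        ((kd (N.tm 1) v : ℤ) : K) * x.2 0 + ((kd (N.tm 0) v : ℤ) : K) * x.2 1 +
          ((kd (N.tm 2) v : ℤ) : K) * x.2 2
      ring

private theorem srl_reg {K : Type} [Field K] (N : Net 3) (y : N.E → K) :
    N.refl.Reg y ↔ N.Reg y := by
  have h0 : ∀ φ : N.V → K, φ ∘ N.refl.tm = 0 ↔ φ ∘ N.tm = 0 := by
    intro φ
    constructor
    · intro h
      funext j
      fin_cases j
      · exact congrFun h 1
      · exact congrFun h 0
      · exact congrFun h 2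
    · intro h
      funext j
      fin_cases j
      · exact congrFun h 1
      · exact congrFun h 0
      · exact congrFun h 2
  exact ⟨fun h φ h1 h2 => h φ ((h0 φ).2 h1) h2, fun h φ h1 h2 => h φ ((h0 φ).1 h1) h2⟩

/-- MODULE SRL. -/
theorem fn_refl (N : Net 3) : N.refl.fn = N.fn.rl := by
  classical
  funext F f
  unfold Fam.rl Net.fn
  refine Fintype.sum_equiv (Equiv.refl _) _ _ fun y => ?_
  show (if N.refl.Reg y then f (N.refl.Rel y) else 0) = if N.Reg y then f (rl (N.Rel y)) else 0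
  by_cases h : N.Reg y
  · rw [if_pos h, if_pos ((srl_reg N y).2 h)]
    exact congrArg f (srl_rel N y)
  · rw [if_neg h, if_neg fun h' => h ((srl_reg N y).1 h')]

end Pool.Agent.PLN
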