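import Pool.Agent.PLN.Itf

/-!
# Planar graphs: from maximal degree three to 3-regular graphs (part E1)
-/

set_option autoImplicit false

open scoped BigOperators

namespace Pool.Agent.PLN

open Pool.Agent.KG Pool.Agent.KGU

section

variable {B : Set (FF → ℤ)} {f g : FF → ℤ}

theorem SpF.congr (hf : SpF B f) (h : ∀ F, f F = g F) : SpF B g := by
  have : f = g := funext h
  exact this ▸ hf

theorem SpF.neg (hf : SpF B f) : SpF B fun F => -f F :=
  (SpF.mulp (-1) hf).congr fun F => by simp

theorem SpF.sub (hf : SpF B f) (hg : SpF B g) : SpF B fun F => f F - g F :=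
  (hf.add hg.neg).congr fun F => by ring

theorem SpF.poly (c : Polynomial ℤ) : SpF B fun F => c.eval F.q :=
  (SpF.mulp c SpF.one).congr fun F => by ring

theorem SpF.divq (hf : SpF B fun F => F.q * f F) : SpF B f := by
  refine SpF.div ((SpF.mulp (Polynomial.X - 1) hf).congr fun F => ?_)
  simp only [Polynomial.eval_sub, Polynomial.eval_X, Polynomial.eval_one]
  ring

theorem SpF.divq1 (hf : SpF B fun F => (F.q - 1) * f F) : SpF B f := by
  refine SpF.div ((SpF.mulp Polynomial.X hf).congr fun F => ?_)
  rw [Polynomial.eval_X]
  ring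

theorem SpF.divq_pow (K : ℕ) (hf : SpF B fun F => F.q ^ K * f F) : SpF B f := by
  induction K with
  | zero => exact hf.congr fun F => by rw [pow_zero, one_mul]
  | succ K ih => exact ih (SpF.divq (hf.congr fun F => by rw [pow_succ]; ring))

theorem SpF.trans {B' : Set (FF → ℤ)} (h : ∀ g ∈ B, SpF B' g) (hf : SpF B f) : SpF B' f := by
  induction hf with
  | base hg => exact h _ hg
  | one => exact SpF.one
  | add _ _ h1 h2 => exact h1.add h2
  | mulp c _ h1 => exact h1.mulp c
  | div _ h1 => exact h1.div

end

private theorem rtg_mono {X : Type} {r p : X → X → Prop} (h : ∀ a b, r a b → p a b) {a b : X}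
    (hab : Relation.ReflTransGen r a b) : Relation.ReflTransGen p a b :=
  Relation.ReflTransGen.mono h _ _ hab

private theorem rtg_lift {X Y : Type} {r : X → X → Prop} {p : Y → Y → Prop} (f : X → Y)
    (h : ∀ a b, r a b → p (f a) (f b)) {a b : X} (hab : Relation.ReflTransGen r a b) :
    Relation.ReflTransGen p (f a) (f b) :=
  Relation.ReflTransGen.lift f h _ _ hab

/-! ### The Kronecker symbol -/

theorem kd_self {X : Type} (a : X) : kd a a = 1 := if_pos rfl

theorem kd_ne {X : Type} {a b : X} (h : a ≠ b) : kd a b = 0 := if_neg h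

theorem kd_inj {X Y : Type} (f : X → Y) (hf : Function.Injective f) (a b : X) : kd (f a) (f b) = kd a b := by
  by_cases h : a = b
  · rw [h, kd_self, kd_self]
  · rw [kd_ne h, kd_ne fun h' => h (hf h')]

theorem kd_some {X : Type} (a b : X) : kd (some a) (some b) = kd a b :=
  kd_inj some (Option.some_injective X) a b

theorem kd_some_none {X : Type} (a : X) : kd (some a) none = 0 := kd_ne (Option.some_ne_none a)

theorem kd_none_some {X : Type} (a : X) : kd none (some a) = 0 := kd_ne (Option.some_ne_none a).symm

/-! ### Dual graphs -/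

section

variable {V E D V' E' D' : Type} [Fintype V] [Fintype E] [Fintype D] [Fintype V'] [Fintype E'] [Fintype D']
  {s t : E → V} {l r : E → D}

theorem Dual.conn (h : Dual s t l r) (a b : D) : Relation.ReflTransGen (Adj1 l r) a b := by
  obtain ⟨T, -, hT⟩ := h.dconn
  exact rtg_mono (fun x y ⟨e, _, he⟩ => ⟨e, he⟩) (hT a b)

theorem Dual.nonempty (h : Dual s t l r) : Nonempty D := by
  obtain ⟨T, hT, -⟩ := h.dconn
  exact Fintype.card_pos_iff.1 (by omega)

theorem Dual.mk' [Nonempty D] (h1 : ∀ (v : V) (d : D), ∑ e, ic s t e v * ic l r e d = 0)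
    (h2 : Fintype.card V + Fintype.card D = Fintype.card E + 2)
    (h3 : ∀ a b : D, Relation.ReflTransGen (Adj1 l r) a b) : Dual s t l r :=
  ⟨h1, h2, exists_tree l r h3⟩

/-- Transport. -/
theorem Dual.iso (h : Dual s t l r) (e : V ≃ V') (g : E ≃ E') (k : D ≃ D') :
    Dual (e ∘ s ∘ g.symm) (e ∘ t ∘ g.symm) (k ∘ l ∘ g.symm) (k ∘ r ∘ g.symm) := by
  have := h.nonempty
  have : Nonempty D' := this.map k
  refine Dual.mk' (fun v d => ?_) ?_ fun a b => ?_
  · rw [← g.sum_comp, ← h.chain (e.symm v) (k.symm d)]
    refine Finset.sum_congr rfl fun x _ => ?_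
    have h1 : ∀ u : V, kd (e u) v = kd u (e.symm v) := fun u => by
      rw [← kd_inj e e.injective, e.apply_symm_apply]
    have h2 : ∀ u : D, kd (k u) d = kd u (k.symm d) := fun u => by
      rw [← kd_inj k k.injective, k.apply_symm_apply]
    unfold ic
    simp only [Function.comp_apply, g.symm_apply_apply, h1, h2]
  · rw [← Fintype.card_congr e, ← Fintype.card_congr g, ← Fintype.card_congr k]
    exact h.euler
  · have h1 := h.conn (k.symm a) (k.symm b)
    have h2 := rtg_lift (p := Adj1 (k ∘ l ∘ g.symm) (k ∘ r ∘ g.symm)) k
      (fun x y hxy => by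
        obtain ⟨e, he | he⟩ := hxy
        · exact ⟨g e, Or.inl ⟨by simp [he.1], by simp [he.2]⟩⟩
        · exact ⟨g e, Or.inr ⟨by simp [he.1], by simp [he.2]⟩⟩) h1
    rwa [k.apply_symm_apply, k.apply_symm_apply] at h2

/-- An end vertex joined by an edge. -/
theorem Dual.pend (h : Dual s t l r) (a : V) (d : D) :
    Dual (ae (some a) (some ∘ s)) (ae none (some ∘ t)) (ae d l) (ae d r) := by
  have := h.nonempty
  refine Dual.mk' (fun v d' => ?_) ?_ fun x y => ?_
  · rw [Fintype.sum_option]
    have h1 : ic (ae d l) (ae d r) none d' = 0 := sub_self _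
    rw [h1, mul_zero, zero_add]
    rcases v with _ | v
    · refine Finset.sum_eq_zero fun e _ => ?_
      have h2 : ic (ae (some a) (some ∘ s)) (ae none (some ∘ t)) (some e) none = 0 := by
        show kd (some (s e)) none - kd (some (t e)) none = 0
        rw [kd_some_none, kd_some_none, sub_self]
      rw [h2, zero_mul]
    · rw [← h.chain v d']
      refine Finset.sum_congr rfl fun e _ => ?_
      show (kd (some (s e)) (some v) - kd (some (t e)) (some v)) * _ = (kd (s e) v - kd (t e) v) * _
      rw [kd_some, kd_some]
      rfl
  · have := h.euler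
    simp only [Fintype.card_option]
    omega
  · exact rtg_mono (fun x y ⟨e, he⟩ => ⟨some e, he⟩) (h.conn x y)

/-- The faces to the left in the graph with a triangle. -/
def triL (l : E → D) : Option (Option (Option (Option E))) → Option (Option D) :=
  ae (some none) (ae none (ae none (ae none (some ∘ some ∘ l))))

/-- The faces to the right in the graph with a triangle. -/
def triR (d : D) (r : E → D) : Option (Option (Option (Option E))) → Option (Option D) :=
  ae (some (some d)) (ae (some none) (ae (some (some d)) (ae (some (some d)) (some ∘ some ∘ r))))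

/-- A triangle with one doubled side. -/
theorem Dual.tri (h : Dual s t l r) (a : V) (d : D) :
    Dual (trS a s) (trT a t) (triL l) (triR d r) := by
  have := h.nonempty
  refine Dual.mk' (fun v d' => ?_) ?_ fun x y => ?_
  · simp only [Fintype.sum_option]
    have h1 : ∑ e : E, ic (trS a s) (trT a t) (some (some (some (some e)))) v *
        ic (triL l) (triR d r) (some (some (some (some e)))) d' = 0 := by
      show ∑ e : E, (kd (some (some (s e))) v - kd (some (some (t e))) v) *
        (kd (some (some (l e))) d' - kd (some (some (r e))) d') = 0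
      rcases v with _ | _ | v
      · refine Finset.sum_eq_zero fun e _ => ?_
        rw [kd_some_none, kd_some_none, sub_self, zero_mul]
      · refine Finset.sum_eq_zero fun e _ => ?_
        rw [kd_some, kd_some, kd_some_none, kd_some_none, sub_self, zero_mul]
      · rcases d' with _ | _ | d'
        · refine Finset.sum_eq_zero fun e _ => ?_
          rw [kd_some_none (some (l e)), kd_some_none (some (r e)), sub_self, mul_zero]
        · refine Finset.sum_eq_zero fun e _ => ?_
          rw [kd_some (some (l e)), kd_some (some (r e)), kd_some_none (l e), kd_some_none (r e),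
            sub_self, mul_zero]
        · simp only [kd_some]
          exact h.chain v d'
    rw [h1]
    show (kd none v - kd (some none) v) * (kd (some none) d' - kd (some (some d)) d') +
      ((kd none v - kd (some none) v) * (kd none d' - kd (some none) d') +
      ((kd (some (some a)) v - kd none v) * (kd none d' - kd (some (some d)) d') +
      ((kd (some none) v - kd (some (some a)) v) * (kd none d' - kd (some (some d)) d') + 0))) = 0
    ring
  · have := h.euler
    simp only [Fintype.card_option]
    omega
  · -- every face is connected with the old ones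
    have h1 : ∀ x y : D, Relation.ReflTransGen (Adj1 (triL l) (triR d r)) (some (some x)) (some (some y)) := by
      intro x y
      refine rtg_lift (fun z => some (some z)) (fun u v huv => ?_) (h.conn x y)
      obtain ⟨e, he | he⟩ := huv
      · exact ⟨some (some (some (some e))), Or.inl ⟨congrArg (fun z => some (some z)) he.1,
          congrArg (fun z => some (some z)) he.2⟩⟩
      · exact ⟨some (some (some (some e))), Or.inr ⟨congrArg (fun z => some (some z)) he.1,
          congrArg (fun z => some (some z)) he.2⟩⟩
    have h2 : ∀ x, Relation.ReflTransGen (Adj1 (triL l) (triR d r)) x (some (some d)) := by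
      rintro (_ | _ | x)
      · exact Relation.ReflTransGen.single ⟨some (some none), Or.inl ⟨rfl, rfl⟩⟩
      · exact Relation.ReflTransGen.single ⟨none, Or.inl ⟨rfl, rfl⟩⟩
      · exact h1 x d
    have h3 : ∀ x, Relation.ReflTransGen (Adj1 (triL l) (triR d r)) (some (some d)) x := by
      rintro (_ | _ | x)
      · exact Relation.ReflTransGen.single ⟨some (some none), Or.inr ⟨rfl, rfl⟩⟩
      · exact Relation.ReflTransGen.single ⟨none, Or.inr ⟨rfl, rfl⟩⟩
      · exact h1 d x
    exact (h2 x).trans (h3 y)

end

/-- The functions of the planar cubic graphs. -/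
def PlanarReg3 : Set (FF → ℤ) := {f | ∃ G : PlanarCubic, f = fun F => nk G.s G.t F.F}

private theorem preg3_aux (N : ℕ) : ∀ (V E D : Type) [Fintype V] [Fintype E] [Fintype D]
    (s t : E → V) (l r : E → D), Dual s t l r →
    (∀ v, deg s t v ≤ 3) → (∀ e, s e ≠ t e) → (∑ v, (3 - deg s t v) = N) →
      SpF PlanarReg3 fun F => nk s t F.F := by
  classical
  induction N with
  | zero =>
    intro V E D _ _ _ s t l r hd h hl hN
    by_cases hT : ∃ T, IsTree s t T
    · have h3 : ∀ v, deg s t v = 3 := by
        intro v
        have h1 := (Finset.sum_eq_zero_iff.1 hN) v (Finset.mem_univ v)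
        have := h v
        omega
      let e := Fintype.equivFin V
      let g := Fintype.equivFin E
      let k := Fintype.equivFin D
      obtain ⟨T, hT⟩ := hT
      refine SpF.base ⟨⟨Fintype.card V, Fintype.card E, Fintype.card D, e ∘ s ∘ g.symm,
        e ∘ t ∘ g.symm, k ∘ l ∘ g.symm, k ∘ r ∘ g.symm, ?_, ?_, ?_, ?_⟩, ?_⟩
      · intro v
        have := deg_iso e g s t (e ∘ s ∘ g.symm) (e ∘ t ∘ g.symm) (fun i => by simp) (fun i => by simp)
          (e.symm v)
        rw [Equiv.apply_symm_apply] at this
        rw [this]
        exact h3 _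
      · intro i hi
        exact hl (g.symm i) (e.injective hi)
      · exact ⟨T.map g.toEmbedding, (isTree_iso e g s t (e ∘ s ∘ g.symm) (e ∘ t ∘ g.symm)
          (fun i => by simp) (fun i => by simp) T).2 hT⟩
      · exact hd.iso e g k
      · funext F
        exact congrFun (nk_iso' e g s t (e ∘ s ∘ g.symm) (e ∘ t ∘ g.symm) (fun i => by simp)
          (fun i => by simp)).symm F.F
    · refine (SpF.poly (Polynomial.X ^ Fintype.card E)).congr fun F => ?_
      rw [nk_disc s t hT]
      simp
  | succ N IH =>
    intro V E D _ _ _ s t l r hd h hl hN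
    obtain ⟨a, -, ha⟩ : ∃ a ∈ Finset.univ, 3 - deg s t a ≠ 0 := by
      by_contra hcon
      push Not at hcon
      rw [Finset.sum_eq_zero hcon] at hN
      omega
    obtain ⟨d⟩ := hd.nonempty
    -- the pendant graph and the graph with the triangle
    have p0 : deg (ae (some a) (some ∘ s)) (ae none (some ∘ t)) none = 1 := by
      have h3 : deg (some ∘ s) (some ∘ t) none = 0 := deg_none s t
      rw [KG.deg_ae, h3]
      simp
    have p1 : ∀ v, deg (ae (some a) (some ∘ s)) (ae none (some ∘ t)) (some v) =
        deg s t v + if v = a then 1 else 0 := by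
      intro v
      have h3 : deg (some ∘ s) (some ∘ t) (some v) = deg s t v := deg_some s t v
      rw [KG.deg_ae, h3]
      simp
    have pd := hd.pend a d
    set s₁ := ae (some a) (some ∘ s) with hs1
    set t₁ := ae none (some ∘ t) with ht1
    have td := pd.tri none d
    have q0 : deg (trS none s₁) (trT none t₁) none = 3 := by
      have h1 : deg (some ∘ ae none (some ∘ s₁)) (some ∘ ae (some none) (some ∘ t₁)) none = 0 :=
        deg_none (ae none (some ∘ s₁)) (ae (some none) (some ∘ t₁))
      unfold trS trT
      rw [KG.deg_ae, KG.deg_ae, KG.deg_ae, h1]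
      simp
    have q1 : deg (trS none s₁) (trT none t₁) (some none) = 3 := by
      have h1 : deg (some ∘ ae none (some ∘ s₁)) (some ∘ ae (some none) (some ∘ t₁)) (some none) =
        deg (ae none (some ∘ s₁)) (ae (some none) (some ∘ t₁)) none :=
        deg_some (ae none (some ∘ s₁)) (ae (some none) (some ∘ t₁)) none
      have h2 : deg (some ∘ s₁) (some ∘ t₁) none = 0 := deg_none s₁ t₁
      unfold trS trT
      rw [KG.deg_ae, KG.deg_ae, KG.deg_ae, h1, KG.deg_ae, h2]
      simp
    have q2 : ∀ v, deg (trS none s₁) (trT none t₁) (some (some v)) =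
        deg s₁ t₁ v + if v = none then 2 else 0 := by
      intro v
      have h1 : deg (some ∘ ae none (some ∘ s₁)) (some ∘ ae (some none) (some ∘ t₁)) (some (some v)) =
        deg (ae none (some ∘ s₁)) (ae (some none) (some ∘ t₁)) (some v) :=
        deg_some (ae none (some ∘ s₁)) (ae (some none) (some ∘ t₁)) (some v)
      have h2 : deg (some ∘ s₁) (some ∘ t₁) (some v) = deg s₁ t₁ v := deg_some s₁ t₁ v
      unfold trS trT
      rw [KG.deg_ae, KG.deg_ae, KG.deg_ae, h1, KG.deg_ae, h2]
      simp only [reduceCtorEq, if_false, add_zero, Option.some.injEq]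
      by_cases hv : v = none
      · simp [hv]
      · simp [hv]
    have d1 : ∀ v, deg (trS none s₁) (trT none t₁) v ≤ 3 := by
      rintro (_ | _ | _ | v)
      · exact q0.le
      · exact q1.le
      · rw [q2, p0, if_pos rfl]
      · rw [q2, p1]
        have := h v
        by_cases hv : v = a
        · subst hv
          simp
          omega
        · simp [hv]
          omega
    have l1 : ∀ e, trS none s₁ e ≠ trT none t₁ e := by
      rintro (_ | _ | _ | _ | _ | e)
      · exact (Option.some_ne_none _).symm
      · exact (Option.some_ne_none _).symm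
      · exact Option.some_ne_none _
      · show (some none : Option (Option (Option V))) ≠ some (some none)
        simp
      · show (some (some (some a)) : Option (Option (Option V))) ≠ some (some none)
        simp
      · show (some (some (some (s e))) : Option (Option (Option V))) ≠ some (some (some (t e)))
        simpa using hl e
    have hsum : ∑ v, (3 - deg (trS none s₁) (trT none t₁) v) = N := by
      rw [Fintype.sum_option, Fintype.sum_option, Fintype.sum_option, q0, q1, q2, p0, if_pos rfl]
      have h1 : ∀ v : V, 3 - deg (trS none s₁) (trT none t₁) (some (some (some v))) =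
          3 - (deg s t v + if v = a then 1 else 0) := by
        intro v
        rw [q2, p1]
        simp
      rw [Finset.sum_congr rfl fun v _ => h1 v]
      have h2 : ∑ v, (3 - (deg s t v + if v = a then 1 else 0)) + 1 = ∑ v, (3 - deg s t v) := by
        rw [← Finset.add_sum_erase _ _ (Finset.mem_univ a), ← Finset.add_sum_erase _ _ (Finset.mem_univ a)]
        have h3 : ∑ v ∈ Finset.univ.erase a, (3 - (deg s t v + if v = a then 1 else 0)) =
            ∑ v ∈ Finset.univ.erase a, (3 - deg s t v) := by
          refine Finset.sum_congr rfl fun v hv => ?_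
          rw [if_neg (Finset.ne_of_mem_erase hv), add_zero]
        rw [h3, if_pos rfl]
        omega
      omega
    have s1 := IH (Option (Option (Option V))) _ _ (trS none s₁) (trT none t₁) _ _ td d1 l1 hsum
    have hpoly : SpF PlanarReg3 fun F => F.q ^ (Fintype.card E + 5) -
        (F.q ^ 4 - F.q ^ 3) * (F.q - 1) * F.q ^ Fintype.card E :=
      (SpF.poly (Polynomial.X ^ (Fintype.card E + 5) -
        (Polynomial.X ^ 4 - Polynomial.X ^ 3) * (Polynomial.X - 1) *
          Polynomial.X ^ Fintype.card E : Polynomial ℤ)).congr fun F => by simp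
    refine SpF.divq_pow 3 (SpF.divq1 (SpF.divq1 ((s1.sub hpoly).congr fun F => ?_)))
    have h1 := nk_tri none s₁ t₁ F.F
    have h2 := nk_pend a s t F.F
    rw [← hs1, ← ht1] at h2
    rw [Fintype.card_option] at h1
    rw [h1, h2]
    ring

/-- PART E1: from maximal degree three to 3-regular graphs. -/
theorem planar_reg3' {f : FF → ℤ} (h : SpF PlanarLe3 f) : SpF PlanarReg3 f := by
  refine SpF.trans ?_ h
  rintro g ⟨n, m, k, s, t, l, r, h1, h2, h3, rfl⟩
  exact preg3_aux _ _ _ _ s t l r h3 h1 h2 rfl

end Pool.Agent.PLN
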