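import Pool.Agent.KGU.Final

/-!
# Euler factors at finitely many primes (part E2)
-/

set_option autoImplicit false

open scoped BigOperators

namespace Pool.Agent.PLN

open Pool.Agent.HGC Pool.Agent.HGM Pool.Agent.HGC.LocWAux

open Classical in
/-- The Euler factor `(1 - α p₀^(-s))⁻¹`. -/
theorem continues_single_pow (p₀ : Nat.Primes) (α : ℂ) :
    Continues fun p r => if p = p₀ then α ^ r else 0 := by
  have hp0 : (0 : ℝ) < ((p₀ : ℕ) : ℝ) := by exact_mod_cast p₀.2.pos
  have hp1 : (1 : ℝ) < ((p₀ : ℕ) : ℝ) := by exact_mod_cast p₀.2.one_lt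
  have hlog : 0 < Real.log ((p₀ : ℕ) : ℝ) := Real.log_pos hp1
  have hpc : ((p₀ : ℕ) : ℂ) ≠ 0 := prime_cast_ne p₀
  refine ⟨Real.log ‖α‖ / Real.log ((p₀ : ℕ) : ℝ),
    fun s => (1 - α * ((p₀ : ℕ) : ℂ) ^ (-s))⁻¹, ?_, fun s hs => ?_⟩
  · intro s
    have h1 : AnalyticAt ℂ (fun s : ℂ => 1 - α * ((p₀ : ℕ) : ℂ) ^ (-s)) s := by
      have hd : Differentiable ℂ fun s : ℂ => 1 - α * ((p₀ : ℕ) : ℂ) ^ (-s) := by
        intro z
        refine DifferentiableAt.const_sub (DifferentiableAt.const_mul ?_ _) _
        exact DifferentiableAt.const_cpow (by fun_prop) (Or.inl hpc)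
      exact hd.analyticAt s
    exact h1.meromorphicAt.inv
  · set z : ℂ := α * ((p₀ : ℕ) : ℂ) ^ (-s) with hz
    have hz1 : ‖z‖ < 1 := by
      rw [hz, norm_mul, Complex.norm_natCast_cpow_of_pos p₀.2.pos, Complex.neg_re, Real.rpow_neg hp0.le]
      by_cases hα : α = 0
      · rw [hα, norm_zero, zero_mul]
        exact one_pos
      · have h2 : 0 < ‖α‖ := norm_pos_iff.2 hα
        have h3 : 0 < ((p₀ : ℕ) : ℝ) ^ s.re := Real.rpow_pos_of_pos hp0 _
        rw [← div_eq_mul_inv, div_lt_one h3, Real.lt_rpow_iff_log_lt h2 hp0]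
        rwa [div_lt_iff₀ hlog] at hs
    have h1z : (1 : ℂ) - z ≠ 0 := by
      intro h
      have : z = 1 := by linear_combination -h
      rw [this, norm_one] at hz1
      exact lt_irrefl _ hz1
    have hterm : ∀ n : ℕ, term (fun p r => if p = p₀ then α ^ r else 0) s (p₀, n) =
        z ^ (n + 1) / (n + 1) := by
      intro n
      simp only [term, if_true]
      have e2 : ((p₀ : ℕ) : ℂ) ^ (-(((n + 1 : ℕ) : ℂ) * s)) = (((p₀ : ℕ) : ℂ) ^ (-s)) ^ (n + 1) := by
        rw [← Complex.cpow_nat_mul]
        congr 1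
        ring
      rw [e2, ← mul_pow, ← hz]
      push_cast
      rfl
    have hinj : Function.Injective fun n : ℕ => (p₀, n) := fun a b h => (Prod.mk.inj h).2
    have hzero : ∀ x ∉ Set.range (fun n : ℕ => (p₀, n)),
        term (fun p r => if p = p₀ then α ^ r else 0) s x = 0 := by
      rintro ⟨p, n⟩ hx
      have hp : p ≠ p₀ := fun h => hx ⟨n, by rw [h]⟩
      simp only [term, if_neg hp, zero_mul, zero_div]
    have hs1 : HasSum (term (fun p r => if p = p₀ then α ^ r else 0) s) (-Complex.log (1 - z)) := by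
      rw [← hinj.hasSum_iff hzero]
      have h2 : (term (fun p r => if p = p₀ then α ^ r else 0) s ∘ fun n : ℕ => (p₀, n)) =
          fun n : ℕ => z ^ (n + 1) / (n + 1) := funext hterm
      rw [h2]
      exact Complex.hasSum_taylorSeries_neg_log' hz1
    refine ⟨hs1.summable, ?_⟩
    show (1 - z)⁻¹ = _
    rw [hs1.tsum_eq, Complex.exp_neg, Complex.exp_log h1z]

theorem continues_zero'' : Continues fun _ _ => 0 := continues_zero admissible_continues

open Classical in
theorem continues_single (p₀ : Nat.Primes) (c : ℂ →₀ ℤ) :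
    Continues fun p r => if p = p₀ then ev c r else 0 := by
  induction c using Finsupp.induction_linear with
  | zero =>
    refine continues_congr (fun p r _ => ?_) continues_zero''
    rw [ev_zero, ite_self]
  | add c d hc hd =>
    refine continues_congr (fun p r _ => ?_) (continues_add hc hd)
    by_cases h : p = p₀
    · rw [if_pos h, if_pos h, if_pos h, ev_add]
    · rw [if_neg h, if_neg h, if_neg h, add_zero]
  | single a m =>
    refine continues_congr (fun p r _ => ?_) (KGU.continues_zsmul m (continues_single_pow p₀ a))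
    by_cases h : p = p₀
    · rw [if_pos h, if_pos h, ev_single]
    · rw [if_neg h, if_neg h, mul_zero]

open Classical in
/-- Euler factors at a finite set of primes, given by a spectrum. -/
theorem continues_finite (T : Set Nat.Primes) (hT : T.Finite) (μ : Nat.Primes → ℂ →₀ ℤ) :
    Continues fun p r => if p ∈ T then ev (μ p) r else 0 := by
  induction T, hT using Set.Finite.induction_on with
  | empty => exact continues_congr (fun p r _ => by rw [if_neg (Set.notMem_empty p)]) continues_zero''
  | @insert a T ha _ ih =>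
    refine continues_congr (fun p r _ => ?_) (continues_add (continues_single a (μ a)) ih)
    by_cases h : p = a
    · subst h
      have h1 : p ∈ insert p T := Set.mem_insert p T
      rw [if_pos rfl, if_neg ha, add_zero]
      exact (if_pos h1).symm
    · have h1 : p ∈ insert a T ↔ p ∈ T := by
        rw [Set.mem_insert_iff]
        tauto
      rw [if_neg h, zero_add]
      by_cases h2 : p ∈ T
      · exact (if_pos h2).trans (if_pos (h1.2 h2)).symm
      · exact (if_neg h2).trans (if_neg fun h3 => h2 (h1.1 h3)).symm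

open Classical in
/-- More bad primes: the Euler factors which are left out. -/
theorem continues_lfun_union {S T : Set Nat.Primes} (hT : T.Finite) (μ : Nat.Primes → ℂ →₀ ℤ) (w : ℤ)
    (h : Continues (lfun S (fun _ _ => 0) μ w 0)) : Continues (lfun (S ∪ T) (fun _ _ => 0) μ w 0) := by
  have h1 := continues_finite (T \ S) (hT.sdiff) fun p => wt (p : ℕ) w (μ p)
  have h2 := continues_neg (KGU.continues_zsmul (((w.negOnePow : ℤˣ) : ℤ)) h1)
  refine continues_congr (fun p r _ => ?_) (continues_add h h2)
  unfold lfun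
  by_cases hS : p ∈ S
  · have hU : p ∈ S ∪ T := Or.inl hS
    have hD : p ∉ T \ S := fun h => h.2 hS
    simp only [if_pos hS, if_pos hU, if_neg hD]
    ring
  · by_cases hp : p ∈ T
    · have hU : p ∈ S ∪ T := Or.inr hp
      have hD : p ∈ T \ S := ⟨hp, hS⟩
      simp only [if_neg hS, if_pos hU, if_pos hD, weightPart_eq]
      push_cast
      ring
    · have hU : p ∉ S ∪ T := fun h => Or.elim h hS hp
      have hD : p ∉ T \ S := fun h => hp h.1
      simp only [if_neg hS, if_neg hU, if_neg hD]
      push_cast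
      ring

open Classical in
/-- The Euler factors at `S ∪ T` which belong to `lfun S φ μ i e`. -/
theorem continues_lfun_at {S T : Set Nat.Primes} (hT : T.Finite) (φ : PF) (μ : Nat.Primes → ℂ →₀ ℤ)
    (i e : ℤ) (hφ : Continues fun p r => if p ∈ S then φ p r else 0) :
    Continues fun p r => if p ∈ S ∪ T then lfun S φ μ i e p r else 0 := by
  have h1 := continues_finite (T \ S) (hT.sdiff) fun p => wt (p : ℕ) i (μ p)
  have h2 := continues_finite (T \ S) (hT.sdiff) fun p => Finsupp.single (((p : ℕ) : ℂ) ^ (i / 2)) 1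
  have h3 := KGU.continues_zsmul (((i.negOnePow : ℤˣ) : ℤ)) h1
  have h4 := continues_neg (KGU.continues_zsmul e h2)
  refine continues_congr (fun p r _ => ?_) (continues_add hφ (continues_add h3 h4))
  unfold lfun
  by_cases hS : p ∈ S
  · have hU : p ∈ S ∪ T := Or.inl hS
    have hD : p ∉ T \ S := fun h => h.2 hS
    simp only [if_pos hS, if_pos hU, if_neg hD]
    ring
  · by_cases hp : p ∈ T
    · have hU : p ∈ S ∪ T := Or.inr hp
      have hD : p ∈ T \ S := ⟨hp, hS⟩
      simp only [if_neg hS, if_pos hU, if_pos hD, weightPart_eq, ev_single]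
      push_cast
      ring
    · have hU : p ∉ S ∪ T := fun h => Or.elim h hS hp
      have hD : p ∉ T \ S := fun h => hp h.1
      simp only [if_neg hS, if_neg hU, if_neg hD]
      ring

end Pool.Agent.PLN
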