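import Pool.Agent.PLN.PSingle
import Pool.Agent.PLN.PReg3

/-!
# Transfer without the primes 2 and 3 (part E2)
-/

set_option autoImplicit false

open scoped BigOperators

namespace Pool.Agent.PLN

open Pool.Agent.KG Pool.Agent.KGU Pool.Agent.HGC Pool.Agent.HGM Pool.Agent.GPM Pool.Agent.HGC.LocWAux

/-- The primes `2` and `3`. -/
def Bad : Set Nat.Primes := {p | (p : ℕ) = 2 ∨ (p : ℕ) = 3}

theorem Bad_finite : Bad.Finite := by
  refine ((Set.finite_singleton (⟨2, Nat.prime_two⟩ : Nat.Primes)).union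
    (Set.finite_singleton (⟨3, Nat.prime_three⟩ : Nat.Primes))).subset ?_
  rintro p (h | h)
  · exact Or.inl (Subtype.ext h)
  · exact Or.inr (Subtype.ext h)

open Classical in
/-- The function is set to zero at the primes `2` and `3`. -/
noncomputable def tr (f : PF) : PF := fun p r => if p ∈ Bad then 0 else f p r

theorem tr_bad (f : PF) {p : Nat.Primes} (h : p ∈ Bad) (r : ℕ) : tr f p r = 0 := if_pos h

theorem tr_good (f : PF) {p : Nat.Primes} (h : p ∉ Bad) (r : ℕ) : tr f p r = f p r := if_neg h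

/-- The functions `g i`, and `1`, set to zero at `2` and `3`. -/
noncomputable def fam {ι : Type} (g : ι → PF) : Option ι → PF := fun o =>
  o.elim (tr fun _ _ => 1) fun i => tr (g i)

/-- The field with `p ^ r` elements. -/
noncomputable def gfF (p : Nat.Primes) (r : ℕ) (h : p ∉ Bad) : FF where
  F := gf p r
  two_ne := by
    have : Fact (p : ℕ).Prime := ⟨p.2⟩
    have : CharP (gf p r).K (p : ℕ) := inferInstanceAs (CharP (GaloisField p r) p)
    intro h2
    have h3 : ((2 : ℕ) : (gf p r).K) = 0 := by exact_mod_cast h2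
    rw [CharP.cast_eq_zero_iff (gf p r).K (p : ℕ)] at h3
    exact h (Or.inl ((Nat.prime_dvd_prime_iff_eq p.2 Nat.prime_two).1 h3))
  three_ne := by
    have : Fact (p : ℕ).Prime := ⟨p.2⟩
    have : CharP (gf p r).K (p : ℕ) := inferInstanceAs (CharP (GaloisField p r) p)
    intro h2
    have h3 : ((3 : ℕ) : (gf p r).K) = 0 := by exact_mod_cast h2
    rw [CharP.cast_eq_zero_iff (gf p r).K (p : ℕ)] at h3
    exact h (Or.inr ((Nat.prime_dvd_prime_iff_eq p.2 Nat.prime_three).1 h3))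

open Classical in
/-- The function of prime powers of a function of finite fields of characteristic `≥ 5`. -/
noncomputable def toPF' (f : FF → ℤ) : PF := fun p r => if h : p ∈ Bad then 0 else ((f (gfF p r h) : ℤ) : ℂ)

theorem toPF'_bad (f : FF → ℤ) {p : Nat.Primes} (h : p ∈ Bad) (r : ℕ) : toPF' f p r = 0 := dif_pos h

theorem toPF'_good (f : FF → ℤ) {p : Nat.Primes} (h : p ∉ Bad) (r : ℕ) :
    toPF' f p r = ((f (gfF p r h) : ℤ) : ℂ) := dif_neg h

theorem tr_toPF (f : FinField → ℤ) (p : Nat.Primes) (r : ℕ) :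
    toPF' (fun F => f F.F) p r = tr (toPF f) p r := by
  by_cases h : p ∈ Bad
  · rw [toPF'_bad _ h, tr_bad _ h]
  · rw [toPF'_good _ h, tr_good _ h]
    rfl

theorem gfF_q (p : Nat.Primes) (r : ℕ) (hr : 1 ≤ r) (h : p ∉ Bad) : (gfF p r h).q = ((p : ℕ) : ℤ) ^ r :=
  gf_q p r hr

section

variable {ι : Type} {g : ι → PF}

theorem Bd_tr {f : PF} (h : Bd f) : Bd (tr f) := by
  obtain ⟨A, C, hC⟩ := h
  refine ⟨A, C, fun p r hr => le_trans ?_ (hC p r hr)⟩
  by_cases hp : p ∈ Bad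
  · rw [tr_bad _ hp, norm_zero]
    exact norm_nonneg _
  · rw [tr_good _ hp]

theorem Bd_fam (hg : ∀ i, Bd (g i)) : ∀ o, Bd (fam g o) := by
  rintro (_ | i)
  · exact Bd_tr Bd.one
  · exact Bd_tr (hg i)

theorem InB_tr_poly (R : Polynomial ℤ) : InB (fam g) (tr (pq R)) := by
  refine ((InB.base (g := fam g) none).pmul R).congr fun p r _ => ?_
  show pq R p r * tr (fun _ _ => 1) p r = tr (pq R) p r
  by_cases hp : p ∈ Bad
  · rw [tr_bad _ hp, tr_bad _ hp, mul_zero]
  · rw [tr_good _ hp, tr_good _ hp, mul_one]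

/-- The functions of the class `SpF B`. -/
theorem inB_of_spF {B : Set (FF → ℤ)} (hg : ∀ i, Bd (g i))
    (hb : ∀ f ∈ B, InB (fam g) (toPF' f)) {f : FF → ℤ} (hf : SpF B f) : InB (fam g) (toPF' f) := by
  induction hf with
  | base h => exact hb _ h
  | one =>
    refine (InB_tr_poly 1).congr fun p r _ => ?_
    by_cases hp : p ∈ Bad
    · rw [tr_bad _ hp, toPF'_bad _ hp]
    · rw [tr_good _ hp, toPF'_good _ hp]
      simp [pq]
  | add _ _ h1 h2 =>
    refine (h1.add h2).congr fun p r _ => ?_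
    by_cases hp : p ∈ Bad
    · rw [toPF'_bad _ hp, toPF'_bad _ hp, toPF'_bad _ hp, add_zero]
    · rw [toPF'_good _ hp, toPF'_good _ hp, toPF'_good _ hp]
      push_cast
      rfl
  | mulp c _ h =>
    refine (h.pmul c).congr fun p r hr => ?_
    by_cases hp : p ∈ Bad
    · rw [toPF'_bad _ hp, toPF'_bad _ hp, mul_zero]
    · rw [toPF'_good _ hp, toPF'_good _ hp, gfF_q p r hr hp, pq]
      push_cast
      rfl
  | div _ h =>
    have hm : (Polynomial.X * (Polynomial.X - 1) : Polynomial ℤ).Monic := by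
      have := Polynomial.monic_X_sub_C (1 : ℤ)
      exact Polynomial.monic_X.mul (by simpa using this)
    refine InB.div_monic (Bd_fam hg) hm (h.congr fun p r hr => ?_)
    by_cases hp : p ∈ Bad
    · rw [toPF'_bad _ hp, toPF'_bad _ hp, mul_zero]
    · rw [toPF'_good _ hp, toPF'_good _ hp, gfF_q p r hr hp, pq]
      simp only [Polynomial.eval_mul, Polynomial.eval_X, Polynomial.eval_sub, Polynomial.eval_one]
      push_cast
      ring

/-- The functions of the class `Sp B`. -/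
theorem inB_of_sp' {B : Set (FinField → ℤ)} (hg : ∀ i, Bd (g i))
    (hb : ∀ f ∈ B, InB (fam g) (tr (toPF f))) {f : FinField → ℤ} (hf : Sp B f) :
    InB (fam g) (tr (toPF f)) := by
  induction hf with
  | base h => exact hb _ h
  | one =>
    refine (InB_tr_poly 1).congr fun p r _ => ?_
    by_cases hp : p ∈ Bad
    · rw [tr_bad _ hp, tr_bad _ hp]
    · rw [tr_good _ hp, tr_good _ hp]
      simp [pq, toPF]
  | add _ _ h1 h2 =>
    refine (h1.add h2).congr fun p r _ => ?_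
    by_cases hp : p ∈ Bad
    · rw [tr_bad _ hp, tr_bad _ hp, tr_bad _ hp, add_zero]
    · rw [tr_good _ hp, tr_good _ hp, tr_good _ hp]
      simp [toPF]
  | mulp c _ h =>
    refine (h.pmul c).congr fun p r hr => ?_
    by_cases hp : p ∈ Bad
    · rw [tr_bad _ hp, tr_bad _ hp, mul_zero]
    · rw [tr_good _ hp, tr_good _ hp]
      simp only [toPF, pq]
      rw [gf_q p r hr]
      push_cast
      rfl
  | div m hm _ h =>
    refine InB.div_monic (Bd_fam hg) hm (h.congr fun p r hr => ?_)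
    by_cases hp : p ∈ Bad
    · rw [tr_bad _ hp, tr_bad _ hp, mul_zero]
    · rw [tr_good _ hp, tr_good _ hp]
      simp only [toPF, pq]
      rw [gf_q p r hr]
      push_cast
      rfl

/-- Transfer from affine schemes. -/
theorem inB_of_inW' (hg : ∀ (n m : ℕ) (P : Fin m → MvPolynomial (Fin n) ℤ),
    InB (fam g) (tr (countPF (affCount P)))) {f : PF} (hf : InW f) : InB (fam g) (tr f) := by
  refine InB.limit fun D => ?_
  obtain ⟨z, ⟨K, n, m, P, R, hz⟩, C, hC⟩ := hf D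
  refine ⟨tr z, InB.divq_pow K (InB.congr (fun p r hr => ?_) ((hg n m P).add (InB_tr_poly R))), |C|,
    fun p r hr => ?_⟩
  · by_cases hp : p ∈ Bad
    · rw [tr_bad _ hp, tr_bad _ hp, tr_bad _ hp, mul_zero, add_zero]
    · rw [tr_good _ hp, tr_good _ hp, tr_good _ hp, hz p r hr, pq]
  · by_cases hp : p ∈ Bad
    · rw [tr_bad _ hp, tr_bad _ hp, sub_zero, norm_zero, zero_mul]
      exact abs_nonneg C
    · rw [tr_good _ hp, tr_good _ hp]
      exact (hC p r hr).trans (le_abs_self C)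

end

/-! ### Spectra -/

open Classical in
/-- The spectrum is set to zero at the primes `2` and `3`. -/
noncomputable def trS (μ : Nat.Primes → ℂ →₀ ℤ) : Nat.Primes → ℂ →₀ ℤ := fun p => if p ∈ Bad then 0 else μ p

theorem trS_spec {f : PF} {μ : Nat.Primes → ℂ →₀ ℤ} (h : IsSpectrum f μ) : IsSpectrum (tr f) (trS μ) := by
  intro p r hr
  by_cases hp : p ∈ Bad
  · rw [tr_bad _ hp, trS, if_pos hp, Finsupp.sum_zero_index]
  · rw [tr_good _ hp, trS, if_neg hp]
    exact h p r hr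

theorem trS_weight (μ : Nat.Primes → ℂ →₀ ℤ) (w : ℤ) {p : Nat.Primes} (hp : p ∉ Bad) (r : ℕ) :
    weightPart (trS μ) w p r = weightPart μ w p r := by
  rw [weightPart_eq, weightPart_eq, trS, if_neg hp]

/-- The spectrum of `1`. -/
noncomputable def oneS : Nat.Primes → ℂ →₀ ℤ := fun _ => Finsupp.single 1 1

theorem oneS_spec : IsSpectrum (fun _ _ => 1) oneS := by
  intro p r _
  unfold oneS
  rw [Finsupp.sum_single_index (by simp)]
  simp

theorem oneS_weight (w : ℤ) (p : Nat.Primes) (r : ℕ) :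
    weightPart oneS w p r = if w = 0 then 1 else 0 := by
  have hp : (1 : ℝ) < ((p : ℕ) : ℝ) := by exact_mod_cast p.2.one_lt
  rw [weightPart_eq]
  unfold oneS
  by_cases h : w = 0
  · rw [if_pos h, wt_single_pos (by rw [h]; simp), ev_single]
    simp
  · rw [if_neg h, wt_single_neg, ev_zero]
    rw [norm_one]
    intro h1
    have h2 : ((p : ℕ) : ℝ) ^ ((w : ℝ) / 2) = ((p : ℕ) : ℝ) ^ (0 : ℝ) := by rw [← h1, Real.rpow_zero]
    have h3 := (Real.rpow_right_inj (by linarith) hp.ne').1 h2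
    apply h
    have h4 : (w : ℝ) = 0 := by linarith
    exact_mod_cast h4

section

variable {ι : Type} {g : ι → PF}

/-- The formula for the weight parts at the primes `≥ 5`. -/
theorem weights_flat' {f : PF} (hf : InB (fam g) (tr f)) :
    ∃ (K N : ℕ) (G : Fin N → ι) (a : Fin N → ℤ) (b : Fin N → ℕ) (κ : ℤ → ℤ), (∀ i, Odd i → κ i = 0) ∧
      ∀ (μ : Nat.Primes → ℂ →₀ ℤ) (ν : Fin N → Nat.Primes → ℂ →₀ ℤ), IsSpectrum f μ →
        (∀ k, IsSpectrum (g (G k)) (ν k)) → ∀ w : ℤ, 0 ≤ w → ∀ p : Nat.Primes, p ∉ Bad →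
          ∀ r : ℕ, 1 ≤ r →
          (((p : ℕ) : ℂ) ^ r) ^ K * weightPart μ w p r =
            (κ w : ℂ) * ((((p : ℕ) : ℂ) ^ r) ^ K * (((p : ℕ) : ℂ) ^ (w / 2)) ^ r) +
            ∑ k, (a k : ℂ) * ((((p : ℕ) : ℂ) ^ r) ^ b k * weightPart (ν k) (w + 2 * K - 2 * b k) p r) := by
  classical
  obtain ⟨K, N, G, a, b, κ, hκ, h⟩ := weights_flat hf
  let T : Finset (Fin N) := Finset.univ.filter fun k => (G k).isSome
  let e : T ≃ Fin T.card := T.equivFin
  have hT : ∀ k : Fin T.card, (G (e.symm k).1).isSome := fun k => (Finset.mem_filter.1 (e.symm k).2).2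
  refine ⟨K, T.card, fun k => (G (e.symm k).1).get (hT k), fun k => a (e.symm k).1,
    fun k => b (e.symm k).1, fun w => κ w + ∑ k ∈ Tᶜ, if w + 2 * (K : ℤ) - 2 * b k = 0 then a k else 0,
    fun i hi => ?_, fun μ ν hμ hν w hw p hp r hr => ?_⟩
  · beta_reduce
    rw [hκ i hi, zero_add]
    refine Finset.sum_eq_zero fun k _ => if_neg fun h0 => ?_
    obtain ⟨j, rfl⟩ := hi
    omega
  -- the spectra of the long family
  have hex : ∀ k : Fin N, ∃ ν' : Nat.Primes → ℂ →₀ ℤ, IsSpectrum (fam g (G k)) ν' ∧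
      ((G k).isSome → ∀ hk : k ∈ T, ν' = trS (ν (e ⟨k, hk⟩))) ∧ (¬ (G k).isSome → ν' = trS oneS) := by
    intro k
    by_cases hk : (G k).isSome
    · have hkT : k ∈ T := Finset.mem_filter.2 ⟨Finset.mem_univ k, hk⟩
      refine ⟨trS (ν (e ⟨k, hkT⟩)), ?_, fun _ _ => rfl, fun h' => absurd hk h'⟩
      have h1 := hν (e ⟨k, hkT⟩)
      beta_reduce at h1
      have h2 : G k = some ((G (e.symm (e ⟨k, hkT⟩)).1).get (hT _)) := by
        rw [Option.some_get, Equiv.symm_apply_apply]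
      rw [h2]
      exact trS_spec h1
    · refine ⟨trS oneS, ?_, fun h' => absurd h' hk, fun _ => rfl⟩
      rw [Option.not_isSome_iff_eq_none.1 hk]
      exact trS_spec oneS_spec
  choose ν' hν1 hν2 hν3 using hex
  have hmain := h (trS μ) ν' (trS_spec hμ) hν1 w hw p r hr
  rw [trS_weight μ w hp r] at hmain
  rw [hmain, ← Finset.sum_add_sum_compl T]
  -- the terms of the family
  have h1 : ∑ k ∈ T, (a k : ℂ) * ((((p : ℕ) : ℂ) ^ r) ^ b k *
      weightPart (ν' k) (w + 2 * K - 2 * b k) p r) =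
      ∑ k : Fin T.card, (a (e.symm k).1 : ℂ) * ((((p : ℕ) : ℂ) ^ r) ^ b (e.symm k).1 *
        weightPart (ν k) (w + 2 * K - 2 * b (e.symm k).1) p r) := by
    rw [← Finset.sum_coe_sort, ← e.symm.sum_comp]
    refine Finset.sum_congr rfl fun k _ => ?_
    have h2 := hν2 (e.symm k).1 (hT k) (e.symm k).2
    rw [h2, trS_weight _ _ hp r]
    have h3 : e ⟨(e.symm k).1, (e.symm k).2⟩ = k := e.apply_symm_apply k
    rw [h3]
  -- the powers of `q`
  have h2 : ∑ k ∈ Tᶜ, (a k : ℂ) * ((((p : ℕ) : ℂ) ^ r) ^ b k *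
      weightPart (ν' k) (w + 2 * K - 2 * b k) p r) =
      (∑ k ∈ Tᶜ, ((if w + 2 * (K : ℤ) - 2 * b k = 0 then a k else 0 : ℤ) : ℂ)) *
        ((((p : ℕ) : ℂ) ^ r) ^ K * (((p : ℕ) : ℂ) ^ (w / 2)) ^ r) := by
    rw [Finset.sum_mul]
    refine Finset.sum_congr rfl fun k hk => ?_
    have hk' : ¬ (G k).isSome := fun h' =>
      (Finset.mem_compl.1 hk) (Finset.mem_filter.2 ⟨Finset.mem_univ k, h'⟩)
    rw [hν3 k hk', trS_weight _ _ hp r, oneS_weight]
    by_cases h3 : w + 2 * (K : ℤ) - 2 * b k = 0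
    · rw [if_pos h3, if_pos h3, mul_one]
      congr 1
      have hp0 : ((p : ℕ) : ℂ) ≠ 0 := by exact_mod_cast p.2.ne_zero
      have h4 : (b k : ℤ) = w / 2 + K := by omega
      have h5 : ((p : ℕ) : ℂ) ^ (b k) = ((p : ℕ) : ℂ) ^ (w / 2) * ((p : ℕ) : ℂ) ^ K := by
        rw [← zpow_natCast, h4, zpow_add₀ hp0, zpow_natCast]
      rw [← pow_mul, mul_comm r, pow_mul, h5, mul_pow, ← pow_mul, mul_comm K r, pow_mul]
      ring
    · rw [if_neg h3, if_neg h3]
      push_cast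
      ring
  rw [h1, h2]
  push_cast
  ring

open Classical in
/-- The consequence for L-functions, for sets `S` which contain the bad primes. -/
theorem lfun_of_family' {K N : ℕ} {a : Fin N → ℤ} {b : Fin N → ℕ} {κ : ℤ → ℤ}
    {μ : Nat.Primes → ℂ →₀ ℤ} {ν : Fin N → Nat.Primes → ℂ →₀ ℤ} (S : Set Nat.Primes) (hS : S.Finite)
    (hB : Bad ⊆ S) (φ : PF) (hφ : Continues (fun p r => if p ∈ S then φ p r else 0))
    (h : ∀ w : ℤ, 0 ≤ w → ∀ p : Nat.Primes, p ∉ Bad → ∀ r : ℕ, 1 ≤ r →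
          (((p : ℕ) : ℂ) ^ r) ^ K * weightPart μ w p r =
            (κ w : ℂ) * ((((p : ℕ) : ℂ) ^ r) ^ K * (((p : ℕ) : ℂ) ^ (w / 2)) ^ r) +
            ∑ k, (a k : ℂ) * ((((p : ℕ) : ℂ) ^ r) ^ b k * weightPart (ν k) (w + 2 * K - 2 * b k) p r))
    (hG : ∀ k w, Continues (lfun S (fun _ _ => 0) (ν k) w 0)) (i c : ℤ) (hi : 0 ≤ i) :
    Continues (lfun S φ μ i c) := by
  rw [← continues_qpow K]
  have h1 : Continues fun p r => ∑ k, (a k : ℂ) * ((((p : ℕ) : ℂ) ^ r) ^ b k *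
      lfun S (fun _ _ => 0) (ν k) (i + 2 * K - 2 * b k) 0 p r) := by
    refine KGU.continues_sum Finset.univ (fun k p r => (a k : ℂ) * ((((p : ℕ) : ℂ) ^ r) ^ b k *
      lfun S (fun _ _ => 0) (ν k) (i + 2 * K - 2 * b k) 0 p r)) fun k _ => ?_
    exact KGU.continues_zsmul (a k) ((continues_qpow (b k)).2 (hG k _))
  have h2 := (continues_qpow K).2 (KGU.continues_zsmul (((i.negOnePow : ℤˣ) : ℤ) * κ i - c)
    (continues_zeta S hS (i / 2)))
  have h3 := (continues_qpow K).2 hφ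
  refine continues_congr (fun p r hr => ?_) (continues_add (continues_add h1 h2) h3)
  have hsign : ∀ k, ((i + 2 * (K : ℤ) - 2 * b k).negOnePow : ℤˣ) = i.negOnePow := by
    intro k
    rw [show i + 2 * (K : ℤ) - 2 * b k = i + (2 * ((K : ℤ) - b k)) by ring, Int.negOnePow_add,
      Int.negOnePow_even _ (even_two_mul _), mul_one]
  by_cases hp : p ∈ S
  · simp only [lfun, if_pos hp, mul_zero, Finset.sum_const_zero, zero_add]
  · have h4 := h i hi p (fun h' => hp (hB h')) r hr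
    simp only [lfun, if_neg hp, hsign, Int.cast_zero, zero_mul, sub_zero, mul_zero, add_zero]
    have h5 : ∑ k, (a k : ℂ) * ((((p : ℕ) : ℂ) ^ r) ^ b k * ((((i.negOnePow : ℤˣ) : ℤ) : ℂ) *
        weightPart (ν k) (i + 2 * K - 2 * b k) p r)) = (((i.negOnePow : ℤˣ) : ℤ) : ℂ) *
        ∑ k, (a k : ℂ) * ((((p : ℕ) : ℂ) ^ r) ^ b k * weightPart (ν k) (i + 2 * K - 2 * b k) p r) := by
      rw [Finset.mul_sum]
      exact Finset.sum_congr rfl fun k _ => by ring
    rw [h5]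
    push_cast
    linear_combination (-(((i.negOnePow : ℤˣ) : ℤ) : ℂ)) * h4

end

/-- Both parts for the functions of `GroupProjectors`. -/
theorem family_main' {ι : Type} {g : ι → PF}
    (hg : ∀ (n m : ℕ) (P : Fin m → MvPolynomial (Fin n) ℤ), InB (fam g) (tr (countPF (affCount P))))
    (t : ℕ) (X : Fin t → Datum) (a : Fin t → ℤ) (b : Fin t → ℕ) :
    ∃ (K N : ℕ) (G : Fin N → ι) (c : Fin N → ℤ) (d : Fin N → ℕ) (κ : ℤ → ℤ), (∀ i, Odd i → κ i = 0) ∧
      ∀ (μ : Nat.Primes → ℂ →₀ ℤ) (ν : Fin N → Nat.Primes → ℂ →₀ ℤ),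
        IsSpectrum (fun p r => ∑ j, (a j : ℂ) * (((p : ℕ) : ℂ) ^ r) ^ b j * (X j).count p r) μ →
        (∀ k, IsSpectrum (g (G k)) (ν k)) →
        (∀ w : ℤ, 0 ≤ w → ∀ p : Nat.Primes, (p : ℕ) ≠ 2 → (p : ℕ) ≠ 3 → ∀ r : ℕ, 1 ≤ r →
          (((p : ℕ) : ℂ) ^ r) ^ K * weightPart μ w p r =
            (κ w : ℂ) * ((((p : ℕ) : ℂ) ^ r) ^ K * (((p : ℕ) : ℂ) ^ (w / 2)) ^ r) +
            ∑ k, (c k : ℂ) * ((((p : ℕ) : ℂ) ^ r) ^ d k *
              weightPart (ν k) (w + 2 * K - 2 * d k) p r)) ∧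
        ∀ (S : Set Nat.Primes) (φ : PF), S.Finite →
          Continues (fun p r => open Classical in if p ∈ S then φ p r else 0) →
          (∀ k w, Continues (lfun S (fun _ _ => 0) (ν k) w 0)) →
          ∀ i e : ℤ, 0 ≤ i → Continues (lfun S φ μ i e) := by
  classical
  have hW : InW fun p r => ∑ j, (a j : ℂ) * (((p : ℕ) : ℂ) ^ r) ^ b j * (X j).count p r :=
    InW.sum Finset.univ (fun j p r => (a j : ℂ) * (((p : ℕ) : ℂ) ^ r) ^ b j * (X j).count p r)
      fun j _ => InW.congr (fun p r _ => by ring) (InW.zsmul (a j) (inW_mulq_pow (X j).inW (b j)))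
  obtain ⟨K, N, G, c, d, κ, h1, h2⟩ := weights_flat' (inB_of_inW' hg hW)
  refine ⟨K, N, G, c, d, κ, h1, fun μ ν hμ hν => ⟨fun w hw p hp2 hp3 => h2 μ ν hμ hν w hw p
    fun hp => hp.elim hp2 hp3, fun S φ hS hφ hG i e hi => ?_⟩⟩
  have h3 : Continues fun p r => @ite ℂ (p ∈ S ∪ Bad) (Classical.propDecidable _)
      (lfun S φ μ i e p r) 0 :=
    continues_congr (fun p r _ => by congr) (continues_lfun_at (S := S) Bad_finite φ μ i e hφ)
  have h4 := lfun_of_family' (S ∪ Bad) (hS.union Bad_finite) Set.subset_union_right (lfun S φ μ i e) h3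
    (h2 μ ν hμ hν) (fun k w => continues_lfun_union Bad_finite (ν k) w (hG k w)) i e hi
  refine continues_congr (fun p r _ => ?_) h4
  by_cases hU : p ∈ S ∪ Bad
  · simp only [lfun, if_pos hU]
  · have hS : p ∉ S := fun h => hU (Or.inl h)
    simp only [lfun, if_neg hU, if_neg hS]

end Pool.Agent.PLN
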