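import Pool.Agent.PLN.NetSem
import Pool.Agent.PLN.Itf0
import Pool.Agent.KG.Deg

/-!
# Planar networks: refreshing the terminals

A terminal `t_0` is replaced by a new terminal `x` joined to `t_0` by a conductor; a conductor is a
combination of a path with two edges, an edge and no edge.  So all terminals get degree at most one.
-/

set_option autoImplicit false

open scoped BigOperators

namespace Pool.Agent.PLN

open Pool.Agent.KG

variable {n m : ℕ}

/-! ### States -/

section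

variable {K : Type} [Field K]

/-- MODULE RS1: `rf_rb`, `rb_rf`, `sh_zero`, `spk_zero`, `spk_spk`. -/
theorem rf_rb (L : St (n + 1) K) : rf (rb L) = L := by
  ext x
  change ((Fin.snoc (Fin.tail (Fin.cons (x.1 (Fin.last n)) (Fin.init x.1) : Fin (n + 1) → K))
      ((Fin.cons (x.1 (Fin.last n)) (Fin.init x.1) : Fin (n + 1) → K) 0) : Fin (n + 1) → K),
    (Fin.snoc (Fin.tail (Fin.cons (x.2 (Fin.last n)) (Fin.init x.2) : Fin (n + 1) → K))
      ((Fin.cons (x.2 (Fin.last n)) (Fin.init x.2) : Fin (n + 1) → K) 0) : Fin (n + 1) → K)) ∈ L ↔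
    x ∈ L
  rw [Fin.tail_cons, Fin.cons_zero, Fin.tail_cons, Fin.cons_zero, Fin.snoc_init_self,
    Fin.snoc_init_self]

theorem rb_rf (L : St (n + 1) K) : rb (rf L) = L := by
  ext x
  change ((Fin.cons ((Fin.snoc (Fin.tail x.1) (x.1 0) : Fin (n + 1) → K) (Fin.last n))
      (Fin.init (Fin.snoc (Fin.tail x.1) (x.1 0) : Fin (n + 1) → K)) : Fin (n + 1) → K),
    (Fin.cons ((Fin.snoc (Fin.tail x.2) (x.2 0) : Fin (n + 1) → K) (Fin.last n))
      (Fin.init (Fin.snoc (Fin.tail x.2) (x.2 0) : Fin (n + 1) → K)) : Fin (n + 1) → K)) ∈ L ↔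
    x ∈ L
  rw [Fin.snoc_last, Fin.init_snoc, Fin.snoc_last, Fin.init_snoc, Fin.cons_self_tail,
    Fin.cons_self_tail]

theorem sh_zero (L : St (n + 2) K) : sh 0 L = L := by
  ext x
  change (x.1, x.2 - (0 * (x.1 (Fin.last _) - x.1 0)) •
    (Pi.single (Fin.last _) 1 - Pi.single 0 1 : Fin (n + 2) → K)) ∈ L ↔ x ∈ L
  rw [zero_mul, zero_smul, sub_zero]

theorem spk_zero (L : St (n + 1) K) : spk 0 L = L := by
  ext x
  change (x.1 - Pi.single 0 (0 * x.2 0), x.2) ∈ L ↔ x ∈ L
  rw [zero_mul, Pi.single_zero, sub_zero]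

theorem spk_spk (r r' : K) (L : St (n + 1) K) : spk r' (spk r L) = spk (r + r') L := by
  ext x
  change (x.1 - Pi.single 0 (r' * x.2 0) - Pi.single 0 (r * x.2 0), x.2) ∈ L ↔
    (x.1 - Pi.single 0 ((r + r') * x.2 0), x.2) ∈ L
  rw [sub_sub, ← Pi.single_add, add_mul, add_comm (r' * x.2 0)]

/-- The terminal `0` is closed and a new isolated terminal is put in at the end. -/
def cut (L : St (n + 1) K) : St (n + 1) K := cl (wd (m := 1) L (isoS 2 K))

private theorem RS_iso (L : St (n + 1) K) (x : (Fin (n + 2) → K) × (Fin (n + 2) → K)) :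
    x ∈ wd (m := 1) L (isoS 2 K) ↔ ((fun j : Fin (n + 1) => x.1 j.castSucc),
      (fun j : Fin (n + 1) => x.2 j.castSucc)) ∈ L ∧ x.2 (Fin.last (n + 1)) = 0 := by
  constructor
  · rintro ⟨c, h1, h2⟩
    have h3 : (Fin.cons c (fun j => x.2 (Fin.natAdd (n + 1) j)) : Fin 2 → K) = 0 := h2
    have h4 : c = 0 := congrFun h3 0
    have h5 : x.2 (Fin.last (n + 1)) = 0 := congrFun h3 1
    subst h4
    rw [Pi.single_zero, sub_zero] at h1
    exact ⟨h1, h5⟩
  · rintro ⟨h1, h2⟩
    refine ⟨0, ?_, ?_⟩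
    · rw [Pi.single_zero, sub_zero]
      exact h1
    · change (Fin.cons 0 (fun j => x.2 (Fin.natAdd (n + 1) j)) : Fin 2 → K) = 0
      ext j
      refine Fin.cases rfl (fun j => ?_) j
      rw [Subsingleton.elim j 0]
      exact h2

private theorem RS_res (r : K) (L : St (n + 1) K) (x : (Fin (n + 2) → K) × (Fin (n + 2) → K)) :
    x ∈ wd (m := 1) L (resS r) ↔ ((fun j : Fin (n + 1) => x.1 j.castSucc),
      (fun j : Fin (n + 1) => x.2 j.castSucc) + Pi.single 0 (x.2 (Fin.last (n + 1)))) ∈ L ∧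
      x.1 0 - x.1 (Fin.last (n + 1)) = -(r * x.2 (Fin.last (n + 1))) := by
  constructor
  · rintro ⟨c, h1, h2⟩
    have h3 : c + x.2 (Fin.last (n + 1)) = 0 := h2.1
    have h4 : x.1 0 - x.1 (Fin.last (n + 1)) = r * c := h2.2
    have h5 : c = -x.2 (Fin.last (n + 1)) := eq_neg_of_add_eq_zero_left h3
    rw [h5, Pi.single_neg, sub_neg_eq_add] at h1
    refine ⟨h1, ?_⟩
    rw [h4, h5, mul_neg]
  · rintro ⟨h1, h2⟩
    refine ⟨-x.2 (Fin.last (n + 1)), ?_, ?_, ?_⟩
    · rw [Pi.single_neg, sub_neg_eq_add]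
      exact h1
    · exact neg_add_cancel _
    · change x.1 0 - x.1 (Fin.last (n + 1)) = r * -x.2 (Fin.last (n + 1))
      rw [h2, mul_neg]

private theorem RS_cs (a : K) (x : Fin (n + 1) → K) :
    (fun j : Fin (n + 1) => (Fin.cons a x : Fin (n + 2) → K) j.castSucc) =
      Fin.cons a (Fin.init x) := by
  ext j
  refine Fin.cases rfl (fun j => ?_) j
  rw [Fin.cons_succ, ← Fin.succ_castSucc, Fin.cons_succ]
  rfl

private theorem RS_last (a : K) (x : Fin (n + 1) → K) :
    (Fin.cons a x : Fin (n + 2) → K) (Fin.last (n + 1)) = x (Fin.last n) := by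
  rw [← Fin.succ_last, Fin.cons_succ]

private theorem RS_cons0 : (Fin.cons (0 : K) (0 : Fin n → K) : Fin (n + 1) → K) = 0 := by
  ext j
  exact Fin.cases rfl (fun _ => rfl) j

private theorem RS_init0 : Fin.init (0 : Fin (n + 1) → K) = 0 := rfl

/-- MODULE RS2: `sh_wd`, `clR_wd_res`, `cl_wd_res`.  The states of `wd L M`, `M` with two terminals, have
the potentials `(v_0, …, v_n, v_x)`. -/
theorem sh_wd (y : K) (hy : y ≠ 0) (L : St (n + 1) K) : sh y (wd (m := 1) L (isoS 2 K)) = wd (m := 1) L (resS y⁻¹) := by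
  ext x
  have h1 : x ∈ sh y (wd (m := 1) L (isoS 2 K)) ↔ (x.1, x.2 - (y * (x.1 (Fin.last _) - x.1 0)) •
    (Pi.single (Fin.last _) 1 - Pi.single 0 1 : Fin (n + 2) → K)) ∈
      wd (m := 1) L (isoS 2 K) := Iff.rfl
  rw [h1, RS_iso, RS_res]
  dsimp only
  have h2 : (x.2 - (y * (x.1 (Fin.last (n + 1)) - x.1 0)) •
      (Pi.single (Fin.last (n + 1)) 1 - Pi.single 0 1 : Fin (n + 2) → K)) (Fin.last (n + 1)) =
      x.2 (Fin.last (n + 1)) - y * (x.1 (Fin.last (n + 1)) - x.1 0) := by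
    rw [Pi.sub_apply, Pi.smul_apply, Pi.sub_apply, Pi.single_eq_same,
      Pi.single_eq_of_ne (Fin.last_pos.ne' : Fin.last (n + 1) ≠ 0), smul_eq_mul, sub_zero, mul_one]
  rw [h2]
  have h3 : x.2 (Fin.last (n + 1)) - y * (x.1 (Fin.last (n + 1)) - x.1 0) = 0 ↔
      x.1 0 - x.1 (Fin.last (n + 1)) = -(y⁻¹ * x.2 (Fin.last (n + 1))) := by
    constructor
    · intro h
      rw [sub_eq_zero.1 h, ← mul_assoc, inv_mul_cancel₀ hy]
      ring
    · intro h
      have h4 : x.1 (Fin.last (n + 1)) - x.1 0 = y⁻¹ * x.2 (Fin.last (n + 1)) := by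
        rw [← neg_sub, h, neg_neg]
      rw [h4, ← mul_assoc, mul_inv_cancel₀ hy, one_mul, sub_self]
  rw [h3]
  refine and_congr_left fun h => ?_
  have h4 := sub_eq_zero.1 (h3.2 h)
  have h5 : (fun j : Fin (n + 1) => (x.2 - (y * (x.1 (Fin.last (n + 1)) - x.1 0)) •
      (Pi.single (Fin.last (n + 1)) 1 - Pi.single 0 1 : Fin (n + 2) → K)) j.castSucc) =
      (fun j : Fin (n + 1) => x.2 j.castSucc) + Pi.single 0 (x.2 (Fin.last (n + 1))) := by
    ext j
    rw [Pi.sub_apply, Pi.smul_apply, Pi.sub_apply, smul_eq_mul, ← h4, Pi.add_apply,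
      Pi.single_eq_of_ne (Fin.castSucc_lt_last j).ne, zero_sub]
    by_cases hj : j = 0
    · subst hj
      rw [Fin.castSucc_zero, Pi.single_eq_same, Pi.single_eq_same]
      ring
    · rw [Pi.single_eq_of_ne hj, Pi.single_eq_of_ne (Fin.castSucc_ne_zero_iff.2 hj)]
      ring
  rw [h5]

theorem clR_wd_res (r : K) (L : St (n + 1) K) : clR (wd (m := 1) L (resS r)) := by
  intro a h
  rw [RS_res] at h
  have h1 := h.2
  dsimp only at h1
  rw [RS_last, Fin.cons_zero, Pi.zero_apply, Pi.zero_apply, sub_zero, mul_zero, neg_zero] at h1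
  exact h1

theorem cl_wd_res (r : K) (L : St (n + 1) K) : cl (wd (m := 1) L (resS r)) = rf (spk r L) := by
  ext x
  have h1 : x ∈ cl (wd (m := 1) L (resS r)) ↔ ∃ a : K,
      ((Fin.cons a x.1 : Fin (n + 2) → K), (Fin.cons 0 x.2 : Fin (n + 2) → K)) ∈
        wd (m := 1) L (resS r) := Iff.rfl
  have h2 : x ∈ rf (spk r L) ↔ ((Fin.cons (x.1 (Fin.last n)) (Fin.init x.1) : Fin (n + 1) → K) -
      Pi.single 0 (r * x.2 (Fin.last n)),
    (Fin.cons (x.2 (Fin.last n)) (Fin.init x.2) : Fin (n + 1) → K)) ∈ L := Iff.rfl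
  have h3 : (Fin.cons (x.1 (Fin.last n)) (Fin.init x.1) : Fin (n + 1) → K) -
      Pi.single 0 (r * x.2 (Fin.last n)) =
      Fin.cons (x.1 (Fin.last n) - r * x.2 (Fin.last n)) (Fin.init x.1) := by
    ext j
    refine Fin.cases ?_ (fun j => ?_) j
    · rw [Pi.sub_apply, Fin.cons_zero, Fin.cons_zero, Pi.single_eq_same]
    · rw [Pi.sub_apply, Fin.cons_succ, Fin.cons_succ, Pi.single_eq_of_ne (Fin.succ_ne_zero j),
        sub_zero]
  have h4 : (Fin.cons 0 (Fin.init x.2) : Fin (n + 1) → K) + Pi.single 0 (x.2 (Fin.last n)) =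
      Fin.cons (x.2 (Fin.last n)) (Fin.init x.2) := by
    ext j
    refine Fin.cases ?_ (fun j => ?_) j
    · rw [Pi.add_apply, Fin.cons_zero, Fin.cons_zero, Pi.single_eq_same, zero_add]
    · rw [Pi.add_apply, Fin.cons_succ, Fin.cons_succ, Pi.single_eq_of_ne (Fin.succ_ne_zero j),
        add_zero]
  rw [h1, h2, h3]
  constructor
  · rintro ⟨a, h⟩
    rw [RS_res] at h
    dsimp only at h
    rw [RS_cs, RS_cs, RS_last, RS_last, h4, Fin.cons_zero] at h
    have h5 : a = x.1 (Fin.last n) - r * x.2 (Fin.last n) := by linear_combination h.2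
    rw [← h5]
    exact h.1
  · intro h
    refine ⟨x.1 (Fin.last n) - r * x.2 (Fin.last n), ?_⟩
    rw [RS_res]
    dsimp only
    rw [RS_cs, RS_cs, RS_last, RS_last, h4, Fin.cons_zero]
    exact ⟨h, by ring⟩

private theorem RS_cut (L : St (n + 1) K) (x : (Fin (n + 1) → K) × (Fin (n + 1) → K)) :
    x ∈ cut L ↔ (∃ a : K, ((Fin.cons a (Fin.init x.1) : Fin (n + 1) → K),
      (Fin.cons 0 (Fin.init x.2) : Fin (n + 1) → K)) ∈ L) ∧ x.2 (Fin.last n) = 0 := by
  have h1 : x ∈ cut L ↔ ∃ a : K,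
      ((Fin.cons a x.1 : Fin (n + 2) → K), (Fin.cons 0 x.2 : Fin (n + 2) → K)) ∈
        wd (m := 1) L (isoS 2 K) := Iff.rfl
  rw [h1]
  constructor
  · rintro ⟨a, h⟩
    rw [RS_iso] at h
    dsimp only at h
    rw [RS_cs, RS_cs, RS_last] at h
    exact ⟨⟨a, h.1⟩, h.2⟩
  · rintro ⟨⟨a, h⟩, h2⟩
    refine ⟨a, ?_⟩
    rw [RS_iso]
    dsimp only
    rw [RS_cs, RS_cs, RS_last]
    exact ⟨h, h2⟩

/-- MODULE RS3: `clR_wd_iso`, `clR_spk`, `cut_spk`, `rf_spk_rb_cut`, `not_clR_cut`. -/
theorem clR_wd_iso (L : St (n + 1) K) : clR (wd (m := 1) L (isoS 2 K)) ↔ clR L := by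
  have h1 : ∀ a : K, ((Fin.cons a 0 : Fin (n + 2) → K), (0 : Fin (n + 2) → K)) ∈
      wd (m := 1) L (isoS 2 K) ↔ ((Fin.cons a 0 : Fin (n + 1) → K), (0 : Fin (n + 1) → K)) ∈ L := by
    intro a
    rw [RS_iso]
    dsimp only
    rw [RS_cs]
    exact and_iff_left rfl
  constructor
  · intro h a ha
    exact h a ((h1 a).2 ha)
  · intro h a ha
    exact h a ((h1 a).1 ha)

theorem clR_spk (r : K) (L : St (n + 1) K) : clR (spk r L) ↔ clR L := by
  have h1 : ∀ a : K, ((Fin.cons a 0 : Fin (n + 1) → K), (0 : Fin (n + 1) → K)) ∈ spk r L ↔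
      ((Fin.cons a 0 : Fin (n + 1) → K), (0 : Fin (n + 1) → K)) ∈ L := by
    intro a
    change ((Fin.cons a 0 : Fin (n + 1) → K) - Pi.single 0 (r * 0), (0 : Fin (n + 1) → K)) ∈ L ↔ _
    rw [mul_zero, Pi.single_zero, sub_zero]
  constructor
  · intro h a ha
    exact h a ((h1 a).2 ha)
  · intro h a ha
    exact h a ((h1 a).1 ha)

theorem cut_spk (r : K) (L : St (n + 1) K) : cut (spk r L) = cut L := by
  ext x
  rw [RS_cut, RS_cut]
  refine and_congr_left fun _ => exists_congr fun a => ?_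
  change ((Fin.cons a (Fin.init x.1) : Fin (n + 1) → K) - Pi.single 0 (r * 0),
    (Fin.cons 0 (Fin.init x.2) : Fin (n + 1) → K)) ∈ L ↔ _
  rw [mul_zero, Pi.single_zero, sub_zero]

theorem rf_spk_rb_cut (r : K) (L : St (n + 1) K) : rf (spk r (rb (cut L))) = cut L := by
  ext x
  have h1 : x ∈ rf (spk r (rb (cut L))) ↔
      ((Fin.snoc (Fin.tail ((Fin.cons (x.1 (Fin.last n)) (Fin.init x.1) : Fin (n + 1) → K) -
        Pi.single 0 (r * x.2 (Fin.last n)))) (((Fin.cons (x.1 (Fin.last n)) (Fin.init x.1) :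
          Fin (n + 1) → K) - Pi.single 0 (r * x.2 (Fin.last n)) : Fin (n + 1) → K) 0) :
          Fin (n + 1) → K),
      (Fin.snoc (Fin.tail (Fin.cons (x.2 (Fin.last n)) (Fin.init x.2) : Fin (n + 1) → K))
        ((Fin.cons (x.2 (Fin.last n)) (Fin.init x.2) : Fin (n + 1) → K) 0) :
          Fin (n + 1) → K)) ∈ cut L := Iff.rfl
  have h3 : (Fin.cons (x.1 (Fin.last n)) (Fin.init x.1) : Fin (n + 1) → K) -
      Pi.single 0 (r * x.2 (Fin.last n)) =
      Fin.cons (x.1 (Fin.last n) - r * x.2 (Fin.last n)) (Fin.init x.1) := by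
    ext j
    refine Fin.cases ?_ (fun j => ?_) j
    · rw [Pi.sub_apply, Fin.cons_zero, Fin.cons_zero, Pi.single_eq_same]
    · rw [Pi.sub_apply, Fin.cons_succ, Fin.cons_succ, Pi.single_eq_of_ne (Fin.succ_ne_zero j),
        sub_zero]
  rw [h1, h3, Fin.tail_cons, Fin.cons_zero, Fin.tail_cons, Fin.cons_zero, RS_cut, RS_cut]
  dsimp only
  rw [Fin.init_snoc, Fin.snoc_last, Fin.init_snoc]

theorem not_clR_cut (L : St (n + 1) K) : ¬ clR (rb (cut L)) := by
  intro h
  refine one_ne_zero (α := K) (h 1 ?_)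
  change ((Fin.snoc (Fin.tail (Fin.cons (1 : K) 0 : Fin (n + 1) → K))
      ((Fin.cons (1 : K) 0 : Fin (n + 1) → K) 0) : Fin (n + 1) → K),
    (Fin.snoc (Fin.tail (0 : Fin (n + 1) → K)) ((0 : Fin (n + 1) → K) 0) :
      Fin (n + 1) → K)) ∈ cut L
  rw [RS_cut]
  dsimp only
  rw [Fin.init_snoc, Fin.snoc_last, Fin.init_snoc, Fin.tail_cons]
  refine ⟨⟨0, ?_⟩, rfl⟩
  have h1 : (Fin.tail (0 : Fin (n + 1) → K)) = 0 := rfl
  rw [h1, RS_cons0]
  exact L.zero_mem

end

/-! ### Families -/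

/-- `t_0` is replaced by a new terminal joined to it by an edge. -/
noncomputable def Fam.spike (ν : Fam (n + 1)) : Fam (n + 1) := ((ν.wd (m := 1) (isoF 2)).sh).cl

/-- `t_0` is closed, a new isolated terminal. -/
noncomputable def Fam.cut (ν : Fam (n + 1)) : Fam (n + 1) := (ν.wd (m := 1) (isoF 2)).cl

open Classical in
private theorem RF_split (F : FF) (g : F.K → ℤ) :
    ∑ y : F.K, g y = g 0 + ∑ y : F.K, if y = 0 then 0 else g y := by
  rw [← Finset.sum_filter_add_sum_filter_not Finset.univ (fun y : F.K => y = 0) g,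
    Finset.filter_eq' Finset.univ (0 : F.K), if_pos (Finset.mem_univ _), Finset.sum_singleton,
    Finset.sum_filter]
  congr 1
  refine Finset.sum_congr rfl fun y _ => ?_
  by_cases h : y = 0
  · rw [if_pos h, if_neg (not_not.2 h)]
  · rw [if_neg h, if_pos h]

private theorem RF_card (F : FF) : ∑ _y : F.K, (1 : ℤ) = F.q := by
  rw [Finset.sum_const, Finset.card_univ, nsmul_eq_mul, mul_one]
  unfold FF.q FinField.q
  rw [Nat.card_eq_fintype_card]

open Classical in
private theorem RF_const (F : FF) (c : ℤ) :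
    ∑ y : F.K, (if y = 0 then 0 else c) = (F.q - 1) * c := by
  have h1 := RF_split F fun _ => c
  have h2 : ∑ _y : F.K, c = F.q * c := by
    rw [← RF_card, Finset.sum_mul]
    refine Finset.sum_congr rfl fun _ _ => (one_mul c).symm
  rw [h2] at h1
  linear_combination -h1

open Classical in
/-- MODULE RF1.  Split off `y = 0` in the sum; for `y ≠ 0` use `sh_wd`, `clR_wd_res`, `cl_wd_res` and
substitute `r = y⁻¹`. -/
theorem spike_eq (ν : Fam (n + 1)) (F : FF) (f : St (n + 1) F.K → ℤ) :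
    ν.spike F f = ν F fun L => (if clR L then f (cut L) else 0) +
      ∑ r : F.K, if r = 0 then 0 else f (rf (spk r L)) := by
  have h0 : ν.spike F f = ν F fun L => ∑ y : F.K,
      if clR (sh y (wd (m := 1) L (isoS 2 F.K))) then
        f (cl (sh y (wd (m := 1) L (isoS 2 F.K)))) else 0 := rfl
  rw [h0]
  congr 1
  funext L
  rw [RF_split]
  refine congrArg₂ (· + ·) ?_ ?_
  · rw [sh_zero]
    by_cases h : clR L
    · rw [if_pos h, if_pos ((clR_wd_iso L).2 h)]
      rfl
    · rw [if_neg h, if_neg fun h' => h ((clR_wd_iso L).1 h')]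
  · rw [← Equiv.sum_comp (Equiv.inv F.K) fun r => if r = 0 then 0 else f (rf (spk r L))]
    refine Finset.sum_congr rfl fun y _ => ?_
    have h1 : (Equiv.inv F.K) y = y⁻¹ := rfl
    rw [h1]
    by_cases hy : y = 0
    · rw [if_pos hy, if_pos (by rw [hy, inv_zero])]
    · rw [if_neg hy, if_neg (inv_ne_zero hy), sh_wd y hy, if_pos (clR_wd_res _ _), cl_wd_res]

open Classical in
theorem cut_eq (ν : Fam (n + 1)) (F : FF) (f : St (n + 1) F.K → ℤ) :
    ν.cut F f = ν F fun L => if clR L then f (cut L) else 0 := by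
  unfold Fam.cut Fam.cl Fam.wd isoF
  congr 1
  funext L
  by_cases h : clR L
  · rw [if_pos h]
    exact if_pos ((clR_wd_iso L).2 h)
  · rw [if_neg h]
    exact if_neg fun h' => h ((clR_wd_iso L).1 h')

open Classical in
/-- MODULE RF2.  For `r ≠ 0` there are `q - 2` pairs of nonzero elements with sum `r`, for `r = 0` there are
`q - 1`. -/
theorem sum_pair (F : FF) (g : F.K → ℤ) :
    ∑ r : F.K, (if r = 0 then 0 else ∑ r' : F.K, if r' = 0 then 0 else g (r + r')) =
      (F.q - 1) * g 0 + (F.q - 2) * ∑ r : F.K, if r = 0 then 0 else g r := by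
  have h1 : ∀ r : F.K, ∑ r' : F.K, (if r' = 0 then 0 else g (r + r')) =
      (∑ s : F.K, g s) - g r := by
    intro r
    have h2 := RF_split F fun r' => g (r + r')
    have h3 : ∑ r' : F.K, g (r + r') = ∑ s : F.K, g s := Equiv.sum_comp (Equiv.addLeft r) g
    rw [h3, add_zero] at h2
    rw [h2]
    ring
  have h2 : ∑ r : F.K, (if r = 0 then 0 else ∑ r' : F.K, if r' = 0 then 0 else g (r + r')) =
      (F.q - 1) * (∑ s : F.K, g s) - ∑ r : F.K, if r = 0 then 0 else g r := by
    rw [← RF_const, ← Finset.sum_sub_distrib]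
    refine Finset.sum_congr rfl fun r _ => ?_
    by_cases h : r = 0
    · rw [if_pos h, if_pos h, if_pos h, sub_zero]
    · rw [if_neg h, if_neg h, if_neg h, h1]
  rw [h2, RF_split F g]
  ring

/-- MODULE RF3: a conductor is a combination of a path with two edges, an edge and no edge.

By `spike_eq` twice the left side is `ν F` of `L ↦ (if clR L then G (rb (cut L)) else 0) + ∑ r ≠ 0, G (spk r L)`
(use `rb_rf`), `G B = (if clR B then f (cut B) else 0) + ∑ r' ≠ 0, f (rf (spk r' B))`.  Here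
`G (rb (cut L)) = (q - 1) f (cut L)` by `not_clR_cut`, `rf_spk_rb_cut`, and `G (spk r L) =
(if clR L then f (cut L) else 0) + ∑ r' ≠ 0, f (rf (spk (r + r') L))`; then `sum_pair` and `spk_zero`.  The number of
`r ≠ 0` is `q - 1`. -/
theorem refresh_id {ν : Fam (n + 1)} (ha : ∀ F f g, ν F (fun L => f L + g L) = ν F f + ν F g)
    (hm : ∀ F (c : ℤ) f, ν F (fun L => c * f L) = c * ν F f) (F : FF) (f : St (n + 1) F.K → ℤ) :
    ν.spike.rb.spike F f = (F.q - 1) * ν.rf F f + (F.q - 2) * ν.spike F f + F.q * ν.cut F f := by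
  classical
  have e1 : ν.spike.rb.spike F f = ν.spike F fun L => (if clR (rb L) then f (cut (rb L)) else 0) +
      ∑ r : F.K, if r = 0 then 0 else f (rf (spk r (rb L))) := spike_eq ν.spike.rb F f
  rw [e1, spike_eq, spike_eq, cut_eq]
  have e2 : ∀ L : St (n + 1) F.K,
      ((if clR L then (if clR (rb (cut L)) then f (cut (rb (cut L))) else 0) +
        ∑ r : F.K, (if r = 0 then 0 else f (rf (spk r (rb (cut L))))) else 0) +
      ∑ r : F.K, if r = 0 then 0 else
        (if clR (rb (rf (spk r L))) then f (cut (rb (rf (spk r L)))) else 0) +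
        ∑ r' : F.K, if r' = 0 then 0 else f (rf (spk r' (rb (rf (spk r L)))))) =
      (F.q - 1) * f (rf L) + ((F.q - 2) * ((if clR L then f (cut L) else 0) +
        ∑ r : F.K, if r = 0 then 0 else f (rf (spk r L))) +
      F.q * (if clR L then f (cut L) else 0)) := by
    intro L
    have h1 : (∑ r : F.K, if r = 0 then 0 else
        (if clR (rb (rf (spk r L))) then f (cut (rb (rf (spk r L)))) else 0) +
        ∑ r' : F.K, if r' = 0 then 0 else f (rf (spk r' (rb (rf (spk r L)))))) =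
        (F.q - 1) * (if clR L then f (cut L) else 0) +
        ((F.q - 1) * f (rf (spk 0 L)) + (F.q - 2) * ∑ r : F.K, if r = 0 then 0 else
          f (rf (spk r L))) := by
      rw [← RF_const, ← sum_pair F fun r => f (rf (spk r L)), ← Finset.sum_add_distrib]
      refine Finset.sum_congr rfl fun r _ => ?_
      by_cases hr : r = 0
      · rw [if_pos hr, if_pos hr, if_pos hr, add_zero]
      · rw [if_neg hr, if_neg hr, if_neg hr, rb_rf, cut_spk]
        refine congrArg₂ (· + ·) ?_ ?_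
        · by_cases h : clR L
          · rw [if_pos h, if_pos ((clR_spk r L).2 h)]
          · rw [if_neg h, if_neg fun h' => h ((clR_spk r L).1 h')]
        · refine Finset.sum_congr rfl fun r' _ => ?_
          rw [spk_spk]
    have h2 : (if clR L then (if clR (rb (cut L)) then f (cut (rb (cut L))) else 0) +
        ∑ r : F.K, (if r = 0 then 0 else f (rf (spk r (rb (cut L))))) else 0) =
        (F.q - 1) * (if clR L then f (cut L) else 0) := by
      by_cases h : clR L
      · rw [if_pos h, if_pos h, if_neg (not_clR_cut L), zero_add, ← RF_const]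
        refine Finset.sum_congr rfl fun r _ => ?_
        rw [rf_spk_rb_cut]
      · rw [if_neg h, if_neg h, mul_zero]
    rw [h1, h2, spk_zero]
    ring
  have e3 : (ν F fun L => ((if clR L then (if clR (rb (cut L)) then f (cut (rb (cut L))) else 0) +
        ∑ r : F.K, (if r = 0 then 0 else f (rf (spk r (rb (cut L))))) else 0) +
      ∑ r : F.K, if r = 0 then 0 else
        (if clR (rb (rf (spk r L))) then f (cut (rb (rf (spk r L)))) else 0) +
        ∑ r' : F.K, if r' = 0 then 0 else f (rf (spk r' (rb (rf (spk r L))))))) =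
      ν F fun L => (F.q - 1) * f (rf L) + ((F.q - 2) * ((if clR L then f (cut L) else 0) +
        ∑ r : F.K, if r = 0 then 0 else f (rf (spk r L))) +
      F.q * (if clR L then f (cut L) else 0)) := congrArg (ν F) (funext e2)
  rw [e3, ha, ha, hm, hm, hm, add_assoc]
  rfl

/-! ### Networks -/

/-- The terminal `j` has degree at most one and is not joined to another terminal. -/
structure Net.FrA {n : ℕ} (N : Net n) (j : Fin n) : Prop where
  deg1 : deg N.s N.t (N.tm j) ≤ 1
  adj : ∀ e i, ¬ (N.s e = N.tm j ∧ N.t e = N.tm i) ∧ ¬ (N.s e = N.tm i ∧ N.t e = N.tm j)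

/-- The families of the networks whose terminals have degree at most two and whose last `k` terminals are
fresh. -/
def CF (n k : ℕ) : Set (Fam (n + 1)) :=
  {ν | ∃ N : Net (n + 1), N.OK 2 ∧ (∀ j : Fin (n + 1), n + 1 ≤ (j : ℕ) + k → N.FrA j) ∧ ν = N.fn}

private theorem RN_deg0 {V E : Type} [IsEmpty E] (s t : E → V) (v : V) : deg s t v = 0 := by
  unfold deg
  rw [Set.eq_empty_of_isEmpty {e | s e = v}, Set.eq_empty_of_isEmpty {e | t e = v},
    Set.ncard_empty]

private theorem RN_inl {A B E E' : Type} [IsEmpty E'] (s : E → A) (g : E' → A ⊕ B) (v : A) :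
    {e : E ⊕ E' | Sum.elim (fun e => Sum.inl (s e)) g e = Sum.inl v}.ncard =
      {e | s e = v}.ncard := by
  rw [← Set.ncard_image_of_injective {e | s e = v} (Sum.inl_injective (β := E'))]
  congr 1
  ext e
  rcases e with e | e
  · constructor
    · intro h
      exact ⟨e, Sum.inl_injective h, rfl⟩
    · rintro ⟨e', h, h'⟩
      have h1 := Sum.inl_injective h'
      subst h1
      exact congrArg Sum.inl h
  · exact isEmptyElim e

private theorem RN_inr {A B E E' : Type} [IsEmpty E'] (s : E → A) (g : E' → A ⊕ B) (w : B) :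
    {e : E ⊕ E' | Sum.elim (fun e => Sum.inl (s e)) g e = Sum.inr w}.ncard = 0 := by
  have h : {e : E ⊕ E' | Sum.elim (fun e => Sum.inl (s e)) g e = Sum.inr w} = ∅ := by
    ext e
    rcases e with e | e
    · constructor
      · intro h
        exact absurd h (by simp)
      · exact fun h => h.elim
    · exact isEmptyElim e
  rw [h, Set.ncard_empty]

private noncomputable abbrev RN_W (N : Net (n + 1)) : Net (n + 1 + 1) := N.wedge (m := 1) (Net.iso 1)

private theorem RN_emp : IsEmpty (Net.iso n).E := inferInstanceAs (IsEmpty Empty)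

private theorem RN_degl (N : Net (n + 1)) (v : N.V) :
    deg (RN_W N).s (RN_W N).t (Sum.inl v) = deg N.s N.t v := by
  have := RN_emp (n := 1)
  exact congrArg₂ (· + ·) (RN_inl N.s (fun e => wdV N (Net.iso 1) ((Net.iso 1).s e)) v)
    (RN_inl N.t (fun e => wdV N (Net.iso 1) ((Net.iso 1).t e)) v)

private theorem RN_degr (N : Net (n + 1)) (w) :
    deg (RN_W N).s (RN_W N).t (Sum.inr w) = 0 := by
  have := RN_emp (n := 1)
  exact congrArg₂ (· + ·) (RN_inr N.s (fun e => wdV N (Net.iso 1) ((Net.iso 1).s e)) w)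
    (RN_inr N.t (fun e => wdV N (Net.iso 1) ((Net.iso 1).t e)) w)

private theorem RN_st (N : Net (n + 1)) (e : (RN_W N).E) : ∃ e₀ : N.E,
    (RN_W N).s e = Sum.inl (N.s e₀) ∧ (RN_W N).t e = Sum.inl (N.t e₀) := by
  have := RN_emp (n := 1)
  rcases e with e | e
  · exact ⟨e, rfl, rfl⟩
  · exact isEmptyElim e

private theorem RN_tmC (N : Net (n + 1)) (j : Fin (n + 1)) :
    (RN_W N).tm j.castSucc = Sum.inl (N.tm j) := by
  change wdTm N (Net.iso 1) (Fin.castAdd 1 j) = _
  unfold wdTm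
  exact Fin.append_left _ _ j

private theorem RN_tmL (N : Net (n + 1)) :
    ∃ w, (RN_W N).tm (Fin.last (n + 1)) = Sum.inr w := by
  have h1 : (RN_W N).tm (Fin.last (n + 1)) = wdV N (Net.iso 1) ((Net.iso 1).tm 1) := by
    change wdTm N (Net.iso 1) (Fin.natAdd (n + 1) 0) = _
    unfold wdTm
    exact Fin.append_right _ _ 0
  have h2 : ((Net.iso 1).tm 1) ≠ ((Net.iso 1).tm 0) := fun h => one_ne_zero (α := Fin 2) h
  refine ⟨⟨(Net.iso 1).tm 1, h2⟩, ?_⟩
  rw [h1]
  exact dif_neg h2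

/-- The terminals after closing the terminal `0`. -/
private theorem RN_tm (N : Net (n + 1)) (j : Fin (n + 1)) :
    (∃ w, (RN_W N).tm j.succ = Sum.inr w ∧ j = Fin.last n) ∨
      ∃ i : Fin (n + 1), (RN_W N).tm j.succ = Sum.inl (N.tm i) ∧ (i : ℕ) = j + 1 := by
  refine Fin.lastCases ?_ (fun i => ?_) j
  · left
    obtain ⟨w, hw⟩ := RN_tmL N
    exact ⟨w, by rw [Fin.succ_last, hw], rfl⟩
  · right
    refine ⟨i.succ, ?_, ?_⟩
    · rw [Fin.succ_castSucc, RN_tmC]
    · simp

private theorem RN_tm0 (N : Net (n + 1)) : (RN_W N).tm 0 = Sum.inl (N.tm 0) := RN_tmC N 0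

/-- No old edge joins a fresh terminal to a terminal. -/
private theorem RN_adj {k : ℕ} (N : Net (n + 1))
    (hf : ∀ j : Fin (n + 1), n + 1 ≤ (j : ℕ) + k → N.FrA j) (j : Fin (n + 1))
    (hj : n + 1 ≤ (j : ℕ) + (k + 1)) (e : (RN_W N).E) (i : Fin (n + 1)) :
    ¬ ((RN_W N).s e = (RN_W N).tm j.succ ∧ (RN_W N).t e = (RN_W N).tm i.succ) ∧
      ¬ ((RN_W N).s e = (RN_W N).tm i.succ ∧ (RN_W N).t e = (RN_W N).tm j.succ) := by
  obtain ⟨e₀, hs, ht⟩ := RN_st N e
  rcases RN_tm N j with ⟨w, hw, -⟩ | ⟨a, ha, ha'⟩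
  · rw [hw, hs, ht]
    constructor
    · rintro ⟨h, -⟩
      exact absurd h (by simp)
    · rintro ⟨-, h⟩
      exact absurd h (by simp)
  · rcases RN_tm N i with ⟨w, hw, -⟩ | ⟨b, hb, hb'⟩
    · rw [hw, hs, ht]
      constructor
      · rintro ⟨-, h⟩
        exact absurd h (by simp)
      · rintro ⟨h, -⟩
        exact absurd h (by simp)
    · have h1 := (hf a (by omega)).adj e₀ b
      rw [ha, hb, hs, ht]
      exact ⟨fun h => h1.1 ⟨Sum.inl_injective h.1, Sum.inl_injective h.2⟩,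
        fun h => h1.2 ⟨Sum.inl_injective h.1, Sum.inl_injective h.2⟩⟩

private theorem RN_ne (N : Net (n + 1)) (j : Fin (n + 1)) :
    (RN_W N).tm 0 ≠ (RN_W N).tm j.succ := fun h =>
  absurd ((RN_W N).inj h) (Fin.succ_ne_zero j).symm

/-- MODULE RN0: isolated terminals have degree `0`. -/
theorem OK_iso (n : ℕ) : (Net.iso n).OK 0 ∧ (Net.iso n).Fresh := by
  have h0 : IsEmpty (Net.iso n).E := inferInstanceAs (IsEmpty Empty)
  exact ⟨⟨fun e => h0.elim e, fun v => by rw [RN_deg0]; exact Nat.zero_le _,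
    fun j => by rw [RN_deg0]⟩, fun e => h0.elim e⟩

/-- MODULE RN1.  The network `((N.wedge (Net.iso 1)).edge).close _` (the last gap is the new face `none`, so
the condition of `close` holds) has the terminals `t_1, …, t_n, x`: `t_0` is interior and its degree is one
more, `x` has degree one and is joined only to `t_0`.  `fn_close`, `fn_edge`, `fn_wedge`, `fn_iso`;
`KG.deg_ae`, `KG.deg_some`-like counting. -/
theorem CF_spike {k : ℕ} {ν : Fam (n + 1)} (h : ν ∈ CF n k) : ν.spike ∈ CF n (k + 1) := by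
  classical
  obtain ⟨N, hO, hf, rfl⟩ := h
  have hgp : (RN_W N).edge.gp (Fin.last (n + 1)) ≠ (RN_W N).edge.gp 0 := by
    have h1 : (RN_W N).edge.gp (Fin.last (n + 1)) = none := if_pos rfl
    have h2 : (RN_W N).edge.gp 0 = some ((RN_W N).gp 0) := by
      change edgeGp (RN_W N) 0 = _
      unfold edgeGp
      exact if_neg Fin.last_pos.ne
    rw [h1, h2]
    exact (Option.some_ne_none _).symm
  have hd : ∀ v : (RN_W N).V, deg (ae ((RN_W N).tm (Fin.last (n + 1))) (RN_W N).s)
      (ae ((RN_W N).tm 0) (RN_W N).t) v =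
      deg (RN_W N).s (RN_W N).t v + (if v = (RN_W N).tm (Fin.last (n + 1)) then 1 else 0) +
        (if v = (RN_W N).tm 0 then 1 else 0) := fun v =>
    deg_ae (RN_W N).s (RN_W N).t ((RN_W N).tm (Fin.last (n + 1))) ((RN_W N).tm 0) v
  obtain ⟨w, hw⟩ := RN_tmL N
  have ht : ∀ j : Fin (n + 1), deg (ae ((RN_W N).tm (Fin.last (n + 1))) (RN_W N).s)
      (ae ((RN_W N).tm 0) (RN_W N).t) ((RN_W N).tm j.succ) ≤ 2 ∧ (n + 1 ≤ (j : ℕ) + (k + 1) →
      deg (ae ((RN_W N).tm (Fin.last (n + 1))) (RN_W N).s)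
      (ae ((RN_W N).tm 0) (RN_W N).t) ((RN_W N).tm j.succ) ≤ 1) := by
    intro j
    rw [hd, if_neg (RN_ne N j).symm]
    rcases RN_tm N j with ⟨w', hw', -⟩ | ⟨a, ha, ha'⟩
    · rw [hw', RN_degr]
      split_ifs <;> omega
    · rw [ha, RN_degl, hw, if_neg (by simp)]
      refine ⟨hO.degt a, fun hj => ?_⟩
      exact (hf a (by omega)).deg1
  refine ⟨(RN_W N).edge.close hgp, ⟨?_, ?_, fun j => (ht j).1⟩, fun j hj => ⟨(ht j).2 hj, ?_⟩, ?_⟩
  · intro e
    rcases e with _ | e
    · intro h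
      have h1 : (RN_W N).tm (Fin.last (n + 1)) = (RN_W N).tm 0 := h
      exact absurd ((RN_W N).inj h1) (Fin.last_pos.ne')
    · obtain ⟨e₀, hs, ht⟩ := RN_st N e
      intro h
      have h1 : (RN_W N).s e = (RN_W N).t e := h
      rw [hs, ht] at h1
      exact hO.noloop e₀ (Sum.inl_injective h1)
  · intro v
    refine (hd v).trans_le ?_
    rcases v with v | v
    · rw [RN_degl, hw, if_neg (by simp), RN_tm0]
      have h1 := hO.degt 0
      have h2 := hO.deg3 v
      split_ifs with h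
      · have h3 : v = N.tm 0 := Sum.inl_injective h
        rw [h3]
        omega
      · omega
    · rw [RN_degr]
      split_ifs <;> omega
  · intro e i
    rcases e with _ | e
    · constructor
      · rintro ⟨-, h⟩
        exact RN_ne N i h
      · rintro ⟨-, h⟩
        exact RN_ne N j h
    · exact RN_adj N hf j hj e i
  · rw [fn_close, fn_edge]
    have h1 : (RN_W N).fn = N.fn.wd (m := 1) (isoF 2) := by
      rw [fn_wedge, fn_iso]
    rw [h1]
    rfl

/-- MODULE RN2.  `(N.wedge (Net.iso 1)).close _`, or zero by `fn_cl_null`. -/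
theorem CF_cut {k : ℕ} {ν : Fam (n + 1)} (h : ν ∈ CF n k) : ν.cut ∈ CF n (k + 1) ∨ ν.cut = fun _ _ => 0 := by
  classical
  obtain ⟨N, hO, hf, rfl⟩ := h
  have h1 : (RN_W N).fn = N.fn.wd (m := 1) (isoF 2) := by
    rw [fn_wedge, fn_iso]
  by_cases hgp : (RN_W N).gp (Fin.last (n + 1)) ≠ (RN_W N).gp 0
  · left
    have ht : ∀ j : Fin (n + 1), deg ((RN_W N).close hgp).s ((RN_W N).close hgp).t
        (((RN_W N).close hgp).tm j) ≤ 2 ∧ (n + 1 ≤ (j : ℕ) + (k + 1) →
        deg ((RN_W N).close hgp).s ((RN_W N).close hgp).t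
        (((RN_W N).close hgp).tm j) ≤ 1) := by
      intro j
      change deg (RN_W N).s (RN_W N).t ((RN_W N).tm j.succ) ≤ 2 ∧ (n + 1 ≤ (j : ℕ) + (k + 1) →
        deg (RN_W N).s (RN_W N).t ((RN_W N).tm j.succ) ≤ 1)
      rcases RN_tm N j with ⟨w', hw', -⟩ | ⟨a, ha, ha'⟩
      · rw [hw', RN_degr]
        omega
      · rw [ha, RN_degl]
        exact ⟨hO.degt a, fun hj => (hf a (by omega)).deg1⟩
    refine ⟨(RN_W N).close hgp, ⟨?_, ?_, fun j => (ht j).1⟩, fun j hj => ⟨(ht j).2 hj, ?_⟩, ?_⟩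
    · intro e
      obtain ⟨e₀, hs, ht⟩ := RN_st N e
      intro h
      have h1 : (RN_W N).s e = (RN_W N).t e := h
      rw [hs, ht] at h1
      exact hO.noloop e₀ (Sum.inl_injective h1)
    · intro v
      change deg (RN_W N).s (RN_W N).t v ≤ 3
      rcases v with v | v
      · rw [RN_degl]
        exact hO.deg3 v
      · rw [RN_degr]
        omega
    · intro e i
      exact RN_adj N hf j hj e i
    · rw [fn_close, h1]
      rfl
  · right
    have h2 := fn_cl_null (RN_W N) (not_not.1 hgp)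
    rw [h1] at h2
    exact h2

/-- MODULE RN3. -/
theorem CF_rb {k : ℕ} {ν : Fam (n + 1)} (h : ν ∈ CF n (k + 1)) : ν.rb ∈ CF n k := by
  obtain ⟨N, hO, hf, rfl⟩ := h
  refine ⟨N.rb, ⟨hO.noloop, hO.deg3, fun j => hO.degt _⟩, fun j hj => ?_, (fn_rb N).symm⟩
  have h1 : N.FrA ((finRotate (n + 1)).symm j) := by
    refine hf _ ?_
    by_cases hl : (finRotate (n + 1)).symm j = Fin.last n
    · rw [hl, Fin.val_last]
      omega
    · have h2 := coe_finRotate_of_ne_last hl
      rw [Equiv.apply_symm_apply] at h2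
      omega
  exact ⟨h1.deg1, fun e i => h1.adj e _⟩

/-- MODULE LIN: the functionals of networks are linear. -/
theorem fn_add (N : Net n) (F : FF) (f g : St n F.K → ℤ) :
    N.fn F (fun L => f L + g L) = N.fn F f + N.fn F g := by
  classical
  unfold Net.fn
  rw [← Finset.sum_add_distrib]
  refine Finset.sum_congr rfl fun y _ => ?_
  by_cases h : N.Reg y
  · rw [if_pos h, if_pos h, if_pos h]
  · rw [if_neg h, if_neg h, if_neg h, add_zero]

theorem fn_mul (N : Net n) (F : FF) (c : ℤ) (f : St n F.K → ℤ) :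
    N.fn F (fun L => c * f L) = c * N.fn F f := by
  classical
  unfold Net.fn
  rw [Finset.mul_sum]
  refine Finset.sum_congr rfl fun y _ => ?_
  by_cases h : N.Reg y
  · rw [if_pos h, if_pos h]
  · rw [if_neg h, if_neg h, mul_zero]

/-- An operation which is linear in the family can be applied to combinations. -/
theorem SpM_map {B : Set (Fam n)} {C : Set (Fam m)} (op : Fam n → Fam m)
    (h0 : op (fun _ _ => 0) = fun _ _ => 0)
    (hadd : ∀ ν μ : Fam n, op (fun F f => ν F f + μ F f) = fun F f => op ν F f + op μ F f)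
    (hmul : ∀ (c : FF → ℤ) (ν : Fam n), op (fun F f => c F * ν F f) = fun F f => c F * op ν F f)
    (hB : ∀ ν ∈ B, SpM C (op ν)) {ν : Fam n} (h : SpM B ν) : SpM C (op ν) := by
  induction h with
  | base h => exact hB _ h
  | zero => rw [h0]; exact SpM.zero
  | add _ _ h1 h2 => rw [hadd]; exact SpM.add h1 h2
  | mulp c _ h1 => rw [hmul fun F => c.eval F.q]; exact SpM.mulp c h1
  | div _ h1 =>
    rw [hmul fun F => F.q * (F.q - 1)] at h1
    exact SpM.div h1

theorem SpM_trans {B C : Set (Fam n)} (hB : ∀ ν ∈ B, SpM C ν) {ν : Fam n} (h : SpM B ν) : SpM C ν :=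
  SpM_map id rfl (fun _ _ => rfl) (fun _ _ => rfl) hB h

/-- MODULE RG1: one step.  By `refresh_id` (with `fn_add`, `fn_mul`), `CF_spike`, `CF_rb`, `CF_cut`:
`(q - 1) * ν.rf = ν.spike.rb.spike - (q - 2) * ν.spike - q * ν.cut`. -/
theorem CF_step {k : ℕ} {ν : Fam (n + 1)} (h : ν ∈ CF n k) : SpM (CF n (k + 1)) ν.rf := by
  obtain ⟨N, -, -, hN⟩ := id h
  have e1 : ∀ F f, (fun F f => F.q * (F.q - 1) * ν.rf F f : Fam (n + 1)) F f =
      (Polynomial.X : Polynomial ℤ).eval F.q * ν.spike.rb.spike F f +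
        ((-(Polynomial.X * (Polynomial.X - 2)) : Polynomial ℤ).eval F.q * ν.spike F f +
        (-(Polynomial.X * Polynomial.X) : Polynomial ℤ).eval F.q * ν.cut F f) := by
    intro F f
    have h1 := refresh_id (ν := ν) (fun F f g => by rw [hN]; exact fn_add N F f g)
      (fun F c f => by rw [hN]; exact fn_mul N F c f) F f
    simp only [Polynomial.eval_neg, Polynomial.eval_mul, Polynomial.eval_sub, Polynomial.eval_X,
      Polynomial.eval_ofNat]
    linear_combination (-F.q) * h1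
  have h1 := CF_spike h
  refine SpM.div ?_
  rw [show (fun F f => F.q * (F.q - 1) * ν.rf F f : Fam (n + 1)) = _ from
    funext fun F => funext fun f => e1 F f]
  refine SpM.add (SpM.mulp _ (SpM.base (CF_spike (CF_rb h1))))
    (SpM.add (SpM.mulp _ (SpM.base h1)) (SpM.mulp _ ?_))
  rcases CF_cut h with h2 | h2
  · exact SpM.base h2
  · rw [h2]
    exact SpM.zero

/-- MODULE RG2: networks whose terminals have degree at most two give good families.

`ν = N.fn`; `ν.rb` iterated `n + 1` times is `M.fn`, `M = N.rb` iterated, in `CF n 0` (nothing is required for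
the freshness: `n + 1 ≤ j + 0` is impossible).  Then `CF_step` and `SpM_map` for `Fam.rf` give `SpM (CF n k)`
for the family `rf` iterated `k` times, `k ≤ n + 1`; `rf_rb`.  Finally `CF n (n + 1)` is contained in the base of
`GG (n + 1)`. -/
theorem GG_of_OK2 (N : Net (n + 1)) (h : N.OK 2) : GG (n + 1) N.fn := by
  have h1 : ∀ k (ν : Fam (n + 1)), ν ∈ CF n 0 → SpM (CF n k) (Fam.rf^[k] ν) := by
    intro k ν hν
    induction k with
    | zero => exact SpM.base hν
    | succ k ih =>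
      rw [Function.iterate_succ_apply']
      exact SpM_map Fam.rf rfl (fun _ _ => rfl) (fun _ _ => rfl) (fun μ hμ => CF_step hμ) ih
  have h2 : ∀ k, (Net.rb^[k] N).OK 2 ∧ (Net.rb^[k] N).fn = Fam.rb^[k] N.fn := by
    intro k
    induction k with
    | zero => exact ⟨h, rfl⟩
    | succ k ih =>
      rw [Function.iterate_succ_apply', Function.iterate_succ_apply', fn_rb, ih.2]
      exact ⟨⟨ih.1.noloop, ih.1.deg3, fun j => ih.1.degt _⟩, rfl⟩
  have h3 : Function.LeftInverse (Fam.rf : Fam (n + 1) → Fam (n + 1)) Fam.rb := by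
    intro ν
    funext F f
    change ν F (fun L => f (rf (rb L))) = ν F f
    congr 1
    funext L
    rw [rf_rb]
  have h4 := h1 (n + 1) (Net.rb^[n + 1] N).fn
    ⟨Net.rb^[n + 1] N, (h2 (n + 1)).1, fun j hj => absurd j.2 (by omega), rfl⟩
  rw [(h2 (n + 1)).2, (h3.iterate (n + 1)) N.fn] at h4
  refine SpM_trans (fun ν hν => ?_) h4
  obtain ⟨M, hO, hf, rfl⟩ := hν
  have h5 : ∀ j, M.FrA j := fun j => hf j (by omega)
  exact SpM.base ⟨M, ⟨hO.noloop, hO.deg3, fun j => (h5 j).deg1⟩,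
    fun e i j => ((h5 i).adj e j).1, rfl⟩

end Pool.Agent.PLN
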